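import Pool.Agent.MTC.L1

/-!
WOL, GL (helper8): replacement of the functions of a language by their graphs.
`Gf L` is the relational language with the relation symbols of `L` and one relation symbol for the graph of every
function symbol; `gs S` is the structure for `Gf L` given by a structure `S` for `L`.
-/

set_option autoImplicit false

namespace Pool.Agent.WOL.Gr

open FirstOrder FirstOrder.Language Set
open Pool.Agent.MTC (L1F)

/-- the symbols -/
inductive GRel (L : FirstOrder.Language.{0, 0}) : ℕ → Type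
  | rel {n : ℕ} (R : L.Relations n) : GRel L n
  | gra {n : ℕ} (F : L.Functions n) : GRel L (n + 1)

/-- the relational language -/
def Gf (L : FirstOrder.Language.{0, 0}) : FirstOrder.Language.{0, 0} := ⟨fun _ => Empty, GRel L⟩

theorem gl_rel (L : FirstOrder.Language.{0, 0}) (n : ℕ) : IsEmpty ((Gf L).Functions n) :=
  inferInstanceAs (IsEmpty Empty)

theorem gl_ctb (L : FirstOrder.Language.{0, 0}) (hL : Countable L.Symbols) (n : ℕ) :
    Countable ((Gf L).Relations n) := by
  let f : GRel L n → L.Symbols := fun r => match n, r with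
    | n, .rel R => Sum.inr ⟨n, R⟩
    | _, .gra (n := m) F => Sum.inl ⟨m, F⟩
  have hf : Function.Injective f := by
    intro r r' h
    cases r with
    | rel R =>
      cases r' with
      | rel R' =>
        have h1 := Sum.inr.inj h
        have h2 := eq_of_heq (Sigma.mk.inj_iff.1 h1).2
        rw [h2]
      | gra F' => cases h
    | gra F =>
      cases r' with
      | rel R' => cases h
      | gra F' =>
        have h1 := Sum.inl.inj h
        have h2 := eq_of_heq (Sigma.mk.inj_iff.1 h1).2
        rw [h2]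
  exact Function.Injective.countable hf

/-- the structure for the graphs -/
@[reducible] def gs {L : FirstOrder.Language.{0, 0}} {M : Type} (S : L.Structure M) :
    (Gf L).Structure M where
  funMap := fun f => nomatch f
  RelMap := fun {n} (r : GRel L n) => match n, r with
    | _, .rel R => fun a => @Structure.RelMap L M S _ R a
    | _, .gra F => fun a => @Structure.funMap L M S _ F (fun i => a i.succ) = a 0

section tr

variable {L : FirstOrder.Language.{0, 0}}

/-- terms -/
theorem tr_term {α : Type} (t : L.Term α) : ∃ ψ : (Gf L).Formula (α ⊕ Unit),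
    ∀ (M : Type) (S : L.Structure M) (v : α → M) (y : M),
      @Formula.Realize (Gf L) M (gs S) _ ψ (Sum.elim v fun _ => y) ↔ @Term.realize L M S _ v t = y := by
  induction t with
  | var i =>
    refine ⟨Term.equal (Term.var (Sum.inl i)) (Term.var (Sum.inr ())), fun M S v y => ?_⟩
    let _ : L.Structure M := S
    let _ : (Gf L).Structure M := gs S
    rw [Formula.realize_equal]
    exact Iff.rfl
  | @func n F ts ih =>
    choose ψ hψ using ih
    let θ : (Gf L).Formula ((α ⊕ Unit) ⊕ Fin n) :=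
      (Formula.iInf fun i : Fin n => (ψ i).relabel
        (Sum.elim (fun a => Sum.inl (Sum.inl a)) (fun _ => Sum.inr i))) ⊓
      Relations.formula (L := Gf L) (GRel.gra F : GRel L (n + 1))
        (Fin.cons (Term.var (Sum.inl (Sum.inr ()))) fun i => Term.var (Sum.inr i))
    refine ⟨θ.iExs (Fin n), fun M S v y => ?_⟩
    let _ : L.Structure M := S
    let _ : (Gf L).Structure M := gs S
    have h1 : ∀ z : Fin n → M, θ.Realize (Sum.elim (Sum.elim v fun _ => y) z) ↔
        (∀ i, (ts i).realize v = z i) ∧ Structure.funMap F z = y := by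
      intro z
      show (_ ⊓ _ : (Gf L).Formula _).Realize _ ↔ _
      rw [Formula.realize_inf, Formula.realize_iInf, Formula.realize_rel]
      refine and_congr (forall_congr' fun i => ?_) ?_
      · rw [Formula.realize_relabel, ← hψ i M S v (z i)]
        refine iff_of_eq (congrArg (Formula.Realize (ψ i)) ?_)
        funext j
        rcases j with j | j
        · rfl
        · rfl
      · exact Iff.rfl
    rw [Formula.realize_iExs]
    constructor
    · rintro ⟨z, hz⟩
      obtain ⟨h2, h3⟩ := (h1 z).1 hz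
      have h4 : (fun i => (ts i).realize v) = z := funext h2
      show Structure.funMap F (fun i => (ts i).realize v) = y
      rw [h4]
      exact h3
    · intro h
      exact ⟨fun i => (ts i).realize v, (h1 _).2 ⟨fun i => rfl, h⟩⟩

/-- from formulas with free variables and variables `Fin n` to bounded formulas -/
theorem tr_bd {L' : FirstOrder.Language.{0, 0}} {α : Type} {n : ℕ} (θ : L'.Formula (α ⊕ Fin n)) :
    ∃ ψ : L'.BoundedFormula α n, ∀ (M : Type) (S : L'.Structure M) (v : α → M) (xs : Fin n → M),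
      @BoundedFormula.Realize L' M S _ n ψ v xs ↔ @Formula.Realize L' M S _ θ (Sum.elim v xs) := by
  refine ⟨BoundedFormula.relabel (n := n) (k := 0) id θ, fun M S v xs => ?_⟩
  let _ : L'.Structure M := S
  have h1 := BoundedFormula.realize_relabel (φ := θ) (g := (id : α ⊕ Fin n → α ⊕ Fin n)) (v := v)
    (xs := xs)
  refine h1.trans ?_
  rw [Formula.Realize, iff_iff_eq]
  congr 1
  exact Subsingleton.elim _ _

/-- from `L` to `Gf L` -/
theorem tr_fwd {α : Type} {n : ℕ} (φ : L.BoundedFormula α n) : ∃ ψ : (Gf L).BoundedFormula α n,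
    ∀ (M : Type) (S : L.Structure M) (v : α → M) (xs : Fin n → M),
      @BoundedFormula.Realize (Gf L) M (gs S) _ n ψ v xs ↔ @BoundedFormula.Realize L M S _ n φ v xs := by
  induction φ with
  | falsum => exact ⟨BoundedFormula.falsum, fun M S v xs => Iff.rfl⟩
  | @equal n t₁ t₂ =>
    obtain ⟨ψ₁, h₁⟩ := tr_term t₁
    obtain ⟨ψ₂, h₂⟩ := tr_term t₂
    obtain ⟨ψ, hψ⟩ := tr_bd ((ψ₁ ⊓ ψ₂ : (Gf L).Formula ((α ⊕ Fin n) ⊕ Unit)).iExs Unit)
    refine ⟨ψ, fun M S v xs => ?_⟩
    let _ : L.Structure M := S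
    let _ : (Gf L).Structure M := gs S
    rw [hψ, Formula.realize_iExs]
    constructor
    · rintro ⟨y, hy⟩
      rw [Formula.realize_inf] at hy
      have e1 := (h₁ M S (Sum.elim v xs) (y ())).1 hy.1
      have e2 := (h₂ M S (Sum.elim v xs) (y ())).1 hy.2
      exact e1.trans e2.symm
    · intro h
      refine ⟨fun _ => t₁.realize (Sum.elim v xs), ?_⟩
      rw [Formula.realize_inf]
      exact ⟨(h₁ M S (Sum.elim v xs) _).2 rfl, (h₂ M S (Sum.elim v xs) _).2 (Eq.symm h)⟩
  | @rel n l R ts =>
    choose ψ hψ using fun i => tr_term (ts i)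
    let θ : (Gf L).Formula ((α ⊕ Fin n) ⊕ Fin l) :=
      (Formula.iInf fun i : Fin l => (ψ i).relabel
        (Sum.elim (fun a => Sum.inl a) (fun _ => Sum.inr i))) ⊓
      Relations.formula (L := Gf L) (GRel.rel R : GRel L l) fun i => Term.var (Sum.inr i)
    obtain ⟨χ, hχ⟩ := tr_bd (θ.iExs (Fin l))
    refine ⟨χ, fun M S v xs => ?_⟩
    let _ : L.Structure M := S
    let _ : (Gf L).Structure M := gs S
    have h1 : ∀ z : Fin l → M, θ.Realize (Sum.elim (Sum.elim v xs) z) ↔
        (∀ i, (ts i).realize (Sum.elim v xs) = z i) ∧ Structure.RelMap R z := by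
      intro z
      show (_ ⊓ _ : (Gf L).Formula _).Realize _ ↔ _
      rw [Formula.realize_inf, Formula.realize_iInf, Formula.realize_rel]
      refine and_congr (forall_congr' fun i => ?_) ?_
      · rw [Formula.realize_relabel, ← hψ i M S (Sum.elim v xs) (z i)]
        refine iff_of_eq (congrArg (Formula.Realize (ψ i)) ?_)
        funext j
        rcases j with j | j
        · rfl
        · rfl
      · exact Iff.rfl
    rw [hχ, Formula.realize_iExs]
    constructor
    · rintro ⟨z, hz⟩
      obtain ⟨h2, h3⟩ := (h1 z).1 hz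
      have h4 : (fun i => (ts i).realize (Sum.elim v xs)) = z := funext h2
      show Structure.RelMap R (fun i => (ts i).realize (Sum.elim v xs))
      rw [h4]
      exact h3
    · intro h
      exact ⟨fun i => (ts i).realize (Sum.elim v xs), (h1 _).2 ⟨fun i => rfl, h⟩⟩
  | imp φ φ' ih ih' =>
    obtain ⟨ψ, h⟩ := ih
    obtain ⟨ψ', h'⟩ := ih'
    exact ⟨ψ.imp ψ', fun M S v xs => imp_congr (h M S v xs) (h' M S v xs)⟩
  | all φ ih =>
    obtain ⟨ψ, h⟩ := ih
    exact ⟨ψ.all, fun M S v xs => forall_congr' fun x => h M S v _⟩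

/-- the terms of `Gf L` are variables -/
theorem tr_var {β : Type} (t : (Gf L).Term β) : ∃ i, t = Term.var i := by
  cases t with
  | var i => exact ⟨i, rfl⟩
  | func F _ => exact (nomatch F)

/-- from `Gf L` to `L` -/
theorem tr_bwd {α : Type} {n : ℕ} (φ : (Gf L).BoundedFormula α n) : ∃ ψ : L.BoundedFormula α n,
    ∀ (M : Type) (S : L.Structure M) (v : α → M) (xs : Fin n → M),
      @BoundedFormula.Realize L M S _ n ψ v xs ↔ @BoundedFormula.Realize (Gf L) M (gs S) _ n φ v xs := by
  induction φ with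
  | falsum => exact ⟨BoundedFormula.falsum, fun M S v xs => Iff.rfl⟩
  | @equal n t₁ t₂ =>
    obtain ⟨i, rfl⟩ := tr_var t₁
    obtain ⟨j, rfl⟩ := tr_var t₂
    exact ⟨BoundedFormula.equal (Term.var i) (Term.var j), fun M S v xs => Iff.rfl⟩
  | @rel n l R ts =>
    choose g hg using fun i => tr_var (ts i)
    have hg' : ts = fun i => Term.var (g i) := funext hg
    subst hg'
    change GRel L l at R
    cases R with
    | rel R => exact ⟨BoundedFormula.rel R fun i => Term.var (g i), fun M S v xs => Iff.rfl⟩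
    | gra F =>
      exact ⟨BoundedFormula.equal (Term.func F fun i => Term.var (g i.succ)) (Term.var (g 0)),
        fun M S v xs => Iff.rfl⟩
  | imp φ φ' ih ih' =>
    obtain ⟨ψ, h⟩ := ih
    obtain ⟨ψ', h'⟩ := ih'
    exact ⟨ψ.imp ψ', fun M S v xs => imp_congr (h M S v xs) (h' M S v xs)⟩
  | all φ ih =>
    obtain ⟨ψ, h⟩ := ih
    exact ⟨ψ.all, fun M S v xs => forall_congr' fun x => h M S v _⟩

/-- the translation -/
noncomputable def fw {α : Type} (φ : L.Formula α) : (Gf L).Formula α := Classical.choose (tr_fwd φ)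

theorem fw_spec {α : Type} (φ : L.Formula α) (M : Type) (S : L.Structure M) (v : α → M) :
    @Formula.Realize (Gf L) M (gs S) _ (fw φ) v ↔ @Formula.Realize L M S _ φ v :=
  Classical.choose_spec (tr_fwd φ) M S v _

/-- the translation back -/
noncomputable def bw {α : Type} (φ : (Gf L).Formula α) : L.Formula α := Classical.choose (tr_bwd φ)

theorem bw_spec {α : Type} (φ : (Gf L).Formula α) (M : Type) (S : L.Structure M) (v : α → M) :
    @Formula.Realize L M S _ (bw φ) v ↔ @Formula.Realize (Gf L) M (gs S) _ φ v :=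
  Classical.choose_spec (tr_bwd φ) M S v _

/-- definable sets -/
theorem dfb_iff {M : Type} (S : L.Structure M) (A : Set M) {α : Type} (s : Set (α → M)) :
    @Set.Definable M A (Gf L) (gs S) α s ↔ @Set.Definable M A L S α s := by
  rw [@Set.definable_iff_exists_formula_sum, @Set.definable_iff_exists_formula_sum]
  constructor
  · rintro ⟨φ, hφ⟩
    refine ⟨bw φ, hφ.trans ?_⟩
    ext v
    exact (bw_spec φ M S _).symm
  · rintro ⟨φ, hφ⟩
    refine ⟨fw φ, hφ.trans ?_⟩
    ext v
    exact (fw_spec φ M S _).symm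

theorem dfb1_iff {M : Type} (S : L.Structure M) (A : Set M) (s : Set M) :
    @Set.Definable₁ M A (Gf L) (gs S) s ↔ @Set.Definable₁ M A L S s :=
  dfb_iff S A _

/-- the theory of the graphs -/
def gth (T : L.Theory) : (Gf L).Theory :=
  {σ | ∀ S : L.Structure ℕ, @Theory.Model L ℕ S T → @Sentence.Realize (Gf L) ℕ (gs S) σ}

theorem gth_mod {T : L.Theory} {S : L.Structure ℕ} (h : @Theory.Model L ℕ S T) :
    @Theory.Model (Gf L) ℕ (gs S) (gth T) :=
  @Theory.Model.mk (Gf L) ℕ (gs S) (gth T) fun _ hσ => hσ S h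

/-- generalisations of formulas -/
theorem gth_all {L' : FirstOrder.Language.{0, 0}} {α : Type} [Finite α] (θ : L'.Formula α) :
    ∃ σ : L'.Sentence, ∀ N : L'.Structure ℕ,
      @Sentence.Realize L' ℕ N σ ↔ ∀ v : α → ℕ, @Formula.Realize L' ℕ N _ θ v := by
  refine ⟨(θ.relabel (Sum.inr : α → Empty ⊕ α)).iAlls α, fun N => ?_⟩
  let _ : L'.Structure ℕ := N
  rw [Sentence.Realize, Formula.realize_iAlls]
  refine forall_congr' fun v => ?_
  rw [Formula.realize_relabel]
  exact Iff.rfl

/-- all models of this theory come from models of `T` -/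
theorem gth_sur {T : L.Theory} (N : (Gf L).Structure ℕ) (h : @Theory.Model (Gf L) ℕ N (gth T)) :
    ∃ S : L.Structure ℕ, @Theory.Model L ℕ S T ∧ N = gs S := by
  have key : ∀ (n : ℕ) (F : L.Functions n) (x : Fin n → ℕ),
      ∃ y : ℕ, ∀ y' : ℕ, @Structure.RelMap (Gf L) ℕ N (n + 1) (GRel.gra F : GRel L (n + 1))
        (Fin.cons y' x) ↔ y = y' := by
    intro n F
    let θ : (Gf L).Formula (Fin n ⊕ Unit) :=
      Relations.formula (L := Gf L) (GRel.gra F : GRel L (n + 1))
        (Fin.cons (Term.var (Sum.inr ())) fun i => Term.var (Sum.inl i))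
    have hθ : ∀ (R : (Gf L).Structure ℕ) (x : Fin n → ℕ) (y : Unit → ℕ),
        @Formula.Realize (Gf L) ℕ R _ θ (Sum.elim x y) ↔
          @Structure.RelMap (Gf L) ℕ R (n + 1) (GRel.gra F : GRel L (n + 1)) (Fin.cons (y ()) x) := by
      intro R x y
      let _ : (Gf L).Structure ℕ := R
      show (Relations.formula _ _).Realize _ ↔ _
      rw [Formula.realize_rel]
      refine iff_of_eq (congrArg _ ?_)
      funext i
      refine Fin.cases ?_ (fun i => ?_) i
      · rfl
      · rfl
    have hex : ∀ (R : (Gf L).Structure ℕ) (x : Fin n → ℕ),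
        @Formula.Realize (Gf L) ℕ R _ (θ.iExsUnique Unit) x ↔
          ∃! y : Unit → ℕ, @Structure.RelMap (Gf L) ℕ R (n + 1) (GRel.gra F : GRel L (n + 1))
            (Fin.cons (y ()) x) := by
      intro R x
      let _ : (Gf L).Structure ℕ := R
      rw [Formula.realize_iExsUnique]
      exact existsUnique_congr fun y => hθ R x y
    obtain ⟨σ, hσ⟩ := gth_all (θ.iExsUnique Unit)
    have h1 : σ ∈ gth T := by
      intro S hS
      rw [hσ]
      intro x
      rw [hex]
      refine ⟨fun _ => @Structure.funMap L ℕ S _ F x, rfl, fun y hy => ?_⟩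
      funext u
      exact (show @Structure.funMap L ℕ S _ F x = y () from hy).symm
    have h2 := (hσ N).1 (h.realize_of_mem σ h1)
    intro x
    obtain ⟨y, hy1, hy2⟩ := (hex N x).1 (h2 x)
    refine ⟨y (), fun y' => ⟨fun hy' => ?_, fun hy' => ?_⟩⟩
    · exact (congrFun (hy2 (fun _ => y') hy') ()).symm
    · rw [← hy']
      exact hy1
  choose fm hfm using key
  let S : L.Structure ℕ :=
    { funMap := fun {n} F x => fm n F x
      RelMap := fun {n} R x => @Structure.RelMap (Gf L) ℕ N n (GRel.rel R : GRel L n) x }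
  have hN : N = gs S := by
    have hr : ∀ (n : ℕ) (r : GRel L n) (x : Fin n → ℕ),
        @Structure.RelMap (Gf L) ℕ N n r x ↔ @Structure.RelMap (Gf L) ℕ (gs S) n r x := by
      intro n r x
      cases r with
      | rel R => exact Iff.rfl
      | @gra n F =>
        have h1 := hfm n F (fun i => x i.succ) (x 0)
        have h2 : (Fin.cons (x 0) (fun i => x i.succ) : Fin (n + 1) → ℕ) = x := Fin.cons_self_tail x
        rw [h2] at h1
        exact h1
    have hfun : @Structure.RelMap (Gf L) ℕ N = @Structure.RelMap (Gf L) ℕ (gs S) := by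
      funext n r x
      exact propext (hr n r x)
    have hfun' : @Structure.funMap (Gf L) ℕ N = @Structure.funMap (Gf L) ℕ (gs S) := by
      funext n F
      exact (nomatch F)
    exact Structure.ext hfun' hfun
  refine ⟨S, @Theory.Model.mk L ℕ S T fun σ hσ => ?_, hN⟩
  have h1 : fw σ ∈ gth T := fun S' hS' => (fw_spec σ ℕ S' _).2 (hS'.realize_of_mem σ hσ)
  have h2 := h.realize_of_mem _ h1
  rw [hN] at h2
  exact (fw_spec σ ℕ S _).1 h2

/-- isomorphisms -/
theorem gs_iso (S S' : L.Structure ℕ) :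
    Nonempty (@FirstOrder.Language.Equiv (Gf L) ℕ ℕ (gs S) (gs S')) ↔
      Nonempty (@FirstOrder.Language.Equiv L ℕ ℕ S S') := by
  constructor
  · rintro ⟨e⟩
    let E : ℕ ≃ ℕ := @FirstOrder.Language.Equiv.toEquiv (Gf L) ℕ ℕ (gs S) (gs S') e
    have hE := @FirstOrder.Language.Equiv.map_rel' (Gf L) ℕ ℕ (gs S) (gs S') e
    refine ⟨@FirstOrder.Language.Equiv.mk L ℕ ℕ S S' E (fun {n} F x => ?_) fun {n} R x => ?_⟩
    · have h1 := (hE (GRel.gra F : GRel L (n + 1))
        (Fin.cons (@Structure.funMap L ℕ S _ F x) x)).2 rfl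
      exact Eq.symm h1
    · exact hE (GRel.rel R : GRel L n) x
  · rintro ⟨e⟩
    let E : ℕ ≃ ℕ := @FirstOrder.Language.Equiv.toEquiv L ℕ ℕ S S' e
    have hF := @FirstOrder.Language.Equiv.map_fun' L ℕ ℕ S S' e
    have hR := @FirstOrder.Language.Equiv.map_rel' L ℕ ℕ S S' e
    refine ⟨@FirstOrder.Language.Equiv.mk (Gf L) ℕ ℕ (gs S) (gs S') E (fun {n} F x => (nomatch F))
      fun {n} r x => ?_⟩
    change GRel L n at r
    cases r with
    | rel R => exact hR R x
    | @gra n F =>
      have h1 : E (@Structure.funMap L ℕ S _ F fun i => x i.succ) =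
        @Structure.funMap L ℕ S' _ F (fun i => E (x i.succ)) := hF F _
      show @Structure.funMap L ℕ S' _ F (fun i => E (x i.succ)) = E (x 0) ↔
        @Structure.funMap L ℕ S _ F (fun i => x i.succ) = x 0
      rw [← h1]
      exact E.injective.eq_iff

/-- the fragment `L_1` -/
theorem gs_l1 {T : L.Theory} {n : ℕ} (φ : L1F (Gf L) n) : φ.Of (gth T) → ∃ ψ : L1F L n, ψ.Of T ∧
    ∀ (S : L.Structure ℕ) (v : Fin n → ℕ),
      @L1F.Sat L ℕ S n ψ v ↔ @L1F.Sat (Gf L) ℕ (gs S) n φ v := by
  induction φ with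
  | fo φ => exact fun _ => ⟨.fo (bw φ), trivial, fun S v => bw_spec φ ℕ S v⟩
  | @typ n k f p =>
    rintro ⟨N, a, hN, rfl⟩
    obtain ⟨S₀, hS₀, rfl⟩ := gth_sur N hN
    refine ⟨.typ f {φ | @Formula.Realize L ℕ S₀ (Fin k) φ a}, ⟨S₀, a, hS₀, rfl⟩, fun S v => ?_⟩
    constructor
    · intro h φ hφ
      exact (bw_spec φ ℕ S _).1 (h (bw φ) ((bw_spec φ ℕ S₀ a).2 hφ))
    · intro h φ hφ
      exact (fw_spec φ ℕ S _).1 (h (fw φ) ((fw_spec φ ℕ S₀ a).2 hφ))
  | neg φ ih =>
    intro h
    obtain ⟨ψ, h1, h2⟩ := ih h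
    exact ⟨.neg ψ, h1, fun S v => not_congr (h2 S v)⟩
  | conj φ φ' ih ih' =>
    rintro ⟨h, h'⟩
    obtain ⟨ψ, h1, h2⟩ := ih h
    obtain ⟨ψ', h1', h2'⟩ := ih' h'
    exact ⟨.conj ψ ψ', ⟨h1, h1'⟩, fun S v => and_congr (h2 S v) (h2' S v)⟩
  | ex φ ih =>
    intro h
    obtain ⟨ψ, h1, h2⟩ := ih h
    exact ⟨.ex ψ, h1, fun S v => exists_congr fun x => h2 S _⟩

end tr

end Pool.Agent.WOL.Gr
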