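import Pool.Agent.WOL.fDF

/-!
WOL [fCE]: no new ends over one element, side `true` (helper8)
-/

set_option autoImplicit false

namespace Pool.Agent.WOM

open FirstOrder.Language Set
open scoped FirstOrder

theorem thm_fCE (hORB : St_ORB) (hCNV : St_nCNV) (hSCUT : St_SCUT)
    (hDF : St_fDF) : St_fCE := by
  intro L U _ _ hW A x u hA hq hp hSD
  obtain ⟨hO1, hO2, hO3, hO4, hO5, hO6, hO7, hO8, hO9⟩ := hORB L U hW.mon
  obtain ⟨hC1, hC2⟩ := hCNV L U hW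
  have hle : ∀ (σ : U ≃[L] U) (x y : U), x ≤ y ↔ σ x ≤ σ y := by
    intro σ x y
    rw [← not_lt, ← not_lt, hC1 σ y x]
  have hconn := (hC2 A u hA).1
  have hxA : (insert x A).Finite := hA.insert x
  have hOp : Orb L (insert x A) u ⊆ Orb L A u := hO3 A _ u (subset_insert _ _)
  obtain ⟨c, hc⟩ : ∃ c : Set U, c = Cls true (Orb L (insert x A) u) := ⟨_, rfl⟩
  have hSD' : ¬ (insert x A).Definable₁ L c := by
    rw [hc]
    exact hSD
  have hmem : ∀ y, y ∈ c ↔ ∃ o ∈ Orb L (insert x A) u, y ≤ o := by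
    intro y
    rw [hc]
    constructor
    · rintro ⟨o, ho, h⟩
      exact ⟨o, ho, by simpa [leS] using h⟩
    · rintro ⟨o, ho, h⟩
      exact ⟨o, ho, by simpa [leS] using h⟩
  have hlow : Low c := by
    intro y hy z hz
    obtain ⟨o, ho, h⟩ := (hmem y).1 hy
    exact (hmem z).2 ⟨o, ho, hz.trans h⟩
  have hOc : Orb L (insert x A) u ⊆ c := fun o ho => (hmem o).2 ⟨o, ho, le_rfl⟩
  have huc : u ∈ c := hOc (hO1 _ _)
  -- invariance over `xA`
  have hinv : ∀ τ : U ≃[L] U, Fx L (insert x A) τ → ∀ y ∈ c, τ y ∈ c := by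
    intro τ hτ y hy
    obtain ⟨o, ho, h⟩ := (hmem y).1 hy
    refine (hmem _).2 ⟨τ o, ?_, (hle τ y o).1 h⟩
    rw [← hO2 _ _ _ ho]
    exact ⟨τ, hτ, rfl⟩
  by_contra hGe
  -- a bound in `p`
  obtain ⟨v₀, hv₀, hv₀b⟩ : ∃ v₀ ∈ Orb L A u, ∀ o ∈ Orb L (insert x A) u, o < v₀ := by
    by_contra hcon
    push Not at hcon
    refine hGe ⟨hO1 A u, fun w hw => ?_⟩
    obtain ⟨o, ho, h⟩ := hcon w hw
    exact ⟨o, ho, by simpa [leS] using h⟩
  have hv₀c : v₀ ∉ c := by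
    intro h
    obtain ⟨o, ho, h1⟩ := (hmem v₀).1 h
    exact absurd (hv₀b o ho) (not_lt.2 h1)
  -- inverse automorphisms
  have hsymm : ∀ (B : Set U) (σ : U ≃[L] U), Fx L B σ → Fx L B σ.symm := by
    intro B σ hσ a ha
    have h1 := congrArg σ.symm (hσ a ha)
    rw [σ.symm_apply_apply] at h1
    exact h1.symm
  have himlow : ∀ σ : U ≃[L] U, Low (σ '' c) := by
    rintro σ _ ⟨y, hy, rfl⟩ z hz
    refine ⟨σ.symm z, hlow y hy _ ?_, σ.apply_symm_apply z⟩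
    rw [hle σ, σ.apply_symm_apply]
    exact hz
  -- the sets `K`
  have hKex : ∀ 𝔬 : Set U, ∃ K : Set U, 𝔬 ∈ Ob L A x (insert x A) →
      (insert x A).Definable₁ L K ∧ Low K ∧ c ⊆ K ∧
        ∀ σ : U ≃[L] U, Fx L A σ → σ x ∈ 𝔬 → σ '' c ⊆ c ∨ K ⊆ σ '' c := by
    intro 𝔬
    by_cases hall : ∀ σ : U ≃[L] U, Fx L A σ → σ x ∈ 𝔬 → σ '' c ⊆ c
    · exact ⟨univ, fun _ => ⟨Set.definable_univ, fun _ _ _ _ => mem_univ _, subset_univ _,
        fun σ h1 h2 => Or.inl (hall σ h1 h2)⟩⟩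
    · push Not at hall
      obtain ⟨σ₀, hσ₀, hσ₀x, hn⟩ := hall
      obtain ⟨y, hy, hyc⟩ := not_subset.1 hn
      have huy : u < y := by
        rw [← not_le]
        intro h
        exact hyc (hlow u huc y h)
      have hyO : y ∉ Orb L (insert x A) u := fun h => hyc (hOc h)
      obtain ⟨K, hKd, hKl, huK, hyK⟩ := hSCUT L U hW (insert x A) u y hxA huy hyO
      have hcK : c ⊆ K := by
        intro z hz
        obtain ⟨o, ho, h⟩ := (hmem z).1 hz
        exact hKl o (hO6 _ _ hKd u huK ho) z h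
      have hKσ : K ⊆ σ₀ '' c := by
        intro z hz
        refine himlow σ₀ y hy z ?_
        rw [← not_lt]
        intro h
        exact hyK (hKl z hz y h.le)
      refine ⟨K, fun h𝔬 => ⟨hKd, hKl, hcK, fun σ hσ hσx => Or.inr ?_⟩⟩
      obtain ⟨z, -, rfl⟩ := h𝔬
      -- `τ` over `xA` with `τ (σ₀ x) = σ x`
      have h1 : σ x ∈ Orb L (insert x A) (σ₀ x) := by
        rw [hO2 _ _ _ hσ₀x]
        exact hσx
      obtain ⟨τ, hτ, hτx⟩ := h1
      have hτA : Fx L A τ := fun a ha => hτ a (mem_insert_of_mem _ ha)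
      intro k hk
      -- `τ⁻¹ k ∈ K ⊆ σ₀ '' c`
      have h2 : τ.symm k ∈ K := by
        have h3 : τ.symm k ∈ Orb L (insert x A) k := ⟨τ.symm, hsymm _ τ hτ, rfl⟩
        exact hO6 _ _ hKd k hk h3
      obtain ⟨y', hy', hy'e⟩ := hKσ h2
      have h4 : σ.symm k = σ.symm (τ (σ₀ y')) := by
        rw [hy'e, τ.apply_symm_apply]
      have h5 : Fx L (insert x A) ((σ.symm.comp τ).comp σ₀) := by
        rintro a (rfl | ha)
        · show σ.symm (τ (σ₀ a)) = a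
          rw [hτx, σ.symm_apply_apply]
        · show σ.symm (τ (σ₀ a)) = a
          rw [hσ₀ a ha, hτA a ha, hsymm A σ hσ a ha]
      refine ⟨σ.symm k, ?_, σ.apply_symm_apply k⟩
      rw [h4]
      exact hinv _ h5 y' hy'
  choose KK hKK using hKex
  obtain ⟨K, hKdef⟩ : ∃ K : Set U, K = {y | ∀ 𝔬 ∈ Ob L A x (insert x A), y ∈ KK 𝔬} := ⟨_, rfl⟩
  have hKd : (insert x A).Definable₁ L K := by
    rw [hKdef]
    exact fDF_all hq KK fun 𝔬 h𝔬 => (hKK 𝔬 h𝔬).1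
  have hcK : c ⊆ K := by
    rw [hKdef]
    exact fun y hy 𝔬 h𝔬 => (hKK 𝔬 h𝔬).2.2.1 hy
  have hKlow : Low K := by
    rw [hKdef]
    exact fun y hy z hz 𝔬 h𝔬 => (hKK 𝔬 h𝔬).2.1 y (hy 𝔬 h𝔬) z hz
  obtain ⟨v', hv'K, hv'c⟩ : ∃ v' ∈ K, v' ∉ c := by
    by_contra hcon
    push Not at hcon
    exact hSD' (by rw [Subset.antisymm hcK hcon]; exact hKd)
  obtain ⟨v, hv⟩ : ∃ v : U, v = min v' v₀ := ⟨_, rfl⟩
  have hvc : v ∉ c := by
    rw [hv]
    rcases min_choice v' v₀ with h | h <;> rw [h] <;> assumption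
  have hvK : v ∈ K := by
    rw [hv]
    exact hKlow v' hv'K _ (min_le_left _ _)
  have huv : u < v := by
    rw [← not_le]
    intro h
    exact hvc (hlow u huc _ h)
  have hvp : v ∈ Orb L A u := by
    refine hconn.out (hO1 A u) hv₀ ⟨huv.le, ?_⟩
    rw [hv]
    exact min_le_right _ _
  have hZ : ∀ σ : U ≃[L] U, Fx L A σ → σ '' c ⊆ c ∨ v ∈ σ '' c := by
    intro σ hσ
    have h1 : Orb L (insert x A) (σ x) ∈ Ob L A x (insert x A) := ⟨σ x, ⟨σ, hσ, rfl⟩, rfl⟩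
    rcases (hKK _ h1).2.2.2 σ hσ (hO1 _ _) with h | h
    · exact Or.inl h
    · rw [hKdef] at hvK
      exact Or.inr (h (hvK _ h1))
  -- invariance over `vA`
  have hinv' : ∀ w ∈ c, Orb L (insert v A) w ⊆ c := by
    rintro w hw _ ⟨τ, hτ, rfl⟩
    rcases hZ τ (fun a ha => hτ a (mem_insert_of_mem _ ha)) with h | ⟨y, hy, hyv⟩
    · exact h ⟨w, hw, rfl⟩
    · have h1 : τ v = v := hτ v (mem_insert _ _)
      have h2 : y = v := by
        have h3 := congrArg τ.symm (hyv.trans h1.symm)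
        rwa [τ.symm_apply_apply, τ.symm_apply_apply] at h3
      rw [h2] at hy
      exact absurd hy hvc
  have hdef := hDF L U hW A (insert v A) u v₀ c hA (hA.insert v) (hp v hvp) hlow huc hv₀ hv₀c
    (fun y hy => by
      obtain ⟨o, ho, h⟩ := (hmem y).1 hy
      exact ⟨o, hOp ho, hOc ho, h⟩) hinv'
  exact hSD' (hO8 (insert x A) (insert v A) c hxA (hA.insert v) hdef
    (by rintro w hw _ ⟨τ, hτ, rfl⟩; exact hinv τ hτ w hw))

end Pool.Agent.WOM
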