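import Pool.Agent.WOL.StF

/-!
WOL fCO: every model has a code (statement and proof: helper8, helper31; Lean: helper37).
-/

set_option autoImplicit false
set_option linter.unusedVariables false

namespace Pool.Agent.WOM

open FirstOrder.Language Set
open scoped FirstOrder

/-- [fCO] -/
theorem thm_fCO (hNSB : St_NSB) (hGEX : St_nGEX) (hGER : St_nGER) (hTRA : St_nTRA)
    (hSDI : St_nSDI) (hPE : St_fPE) : St_fCO := by
  intro L U _ _ hW hNE hF M hM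
  classical
  obtain ⟨nsb, -⟩ := hNSB L U
  have gex := hGEX L U hW
  obtain ⟨-, ger2, -⟩ := hGER L U hW
  obtain ⟨sdi1, sdi2, -⟩ := hSDI L U hW
  have tra := hTRA L U hW
  have niso : ∀ (B : Set U) (w : U) (t : Bool), B.Finite → ¬ SD L ∅ w t → ∀ u ∈ Ge L ∅ w t B,
      ¬ Isd L B u := by
    intro B w t hB hw u hu hi
    have h1 := (sdi1 B u hB).mp hi
    have h2 : SD L B u t := by
      cases t
      · exact h1.2
      · exact h1.1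
    exact hw ((sdi2 ∅ B w u t (empty_subset B) hB hu).mp h2)
  -- the set `a₁`
  obtain ⟨V₀, hV₀, hV₀'⟩ := hF ∅ finite_empty
  have hz : ∀ v : U, ∃ z : U, (∃ y ∈ M, Nn L ∅ y v) → z ∈ M ∧ Nn L ∅ z v := by
    intro v
    by_cases h : ∃ y ∈ M, Nn L ∅ y v
    · obtain ⟨y, hy, hy'⟩ := h
      exact ⟨y, fun _ => ⟨hy, hy'⟩⟩
    · exact ⟨v, fun h' => absurd h' h⟩
  choose Z hZ using hz
  obtain ⟨a₁, ha₁⟩ : ∃ a₁ : Set U, a₁ = Z '' {v | v ∈ V₀ ∧ ∃ y ∈ M, Nn L ∅ y v} := ⟨_, rfl⟩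
  have ha₁f : a₁.Finite := by
    rw [ha₁]
    exact (hV₀.subset (fun v hv => hv.1)).image Z
  have ha₁M : a₁ ⊆ M := by
    rw [ha₁]
    rintro z ⟨v, hv, rfl⟩
    exact (hZ v hv.2).1
  have hRp : Rp L a₁ M := by
    intro z hz hzi
    obtain ⟨v, hv, hzv⟩ := hV₀' z hzi
    have h1 := hZ v ⟨z, hz, hzv⟩
    refine ⟨Z v, ?_, tra ∅ z v (Z v) finite_empty hzv (nsb _ _ _ h1.2)⟩
    rw [ha₁]
    exact ⟨v, ⟨hv, z, hz, hzv⟩, rfl⟩
  -- the set `a`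
  obtain ⟨V₁, hV₁, hV₁'⟩ := hF a₁ ha₁f
  have hb : ∀ v : U, ∃ b : Set U, (b.Finite ∧ b ⊆ M) ∧
      ((∃ b' : Set U, (b'.Finite ∧ b' ⊆ M) ∧ ∃ (w : U) (t : Bool), ¬ SD L ∅ w t ∧
        Ge L ∅ w t b' ∩ M = ∅ ∧ ∃ u ∈ Ge L ∅ w t a₁, Nn L a₁ u v) →
      ∃ (w : U) (t : Bool), ¬ SD L ∅ w t ∧
        Ge L ∅ w t b ∩ M = ∅ ∧ ∃ u ∈ Ge L ∅ w t a₁, Nn L a₁ u v) := by
    intro v
    by_cases h : ∃ b' : Set U, (b'.Finite ∧ b' ⊆ M) ∧ ∃ (w : U) (t : Bool), ¬ SD L ∅ w t ∧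
        Ge L ∅ w t b' ∩ M = ∅ ∧ ∃ u ∈ Ge L ∅ w t a₁, Nn L a₁ u v
    · obtain ⟨b', hb', h'⟩ := h
      exact ⟨b', hb', fun _ => h'⟩
    · exact ⟨∅, ⟨finite_empty, empty_subset M⟩, fun h' => absurd h' h⟩
  choose B hB hB' using hb
  obtain ⟨a, ha⟩ : ∃ a : Set U, a = a₁ ∪ ⋃ v ∈ V₁, B v := ⟨_, rfl⟩
  have haf : a.Finite := by
    rw [ha]
    exact ha₁f.union (hV₁.biUnion (fun v _ => (hB v).1))
  have haM : a ⊆ M := by
    rw [ha]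
    refine union_subset ha₁M ?_
    exact iUnion₂_subset (fun v _ => (hB v).2)
  have ha₁a : a₁ ⊆ a := by
    rw [ha]
    exact subset_union_left
  have hBa : ∀ v ∈ V₁, B v ⊆ a := by
    intro v hv
    rw [ha]
    exact (subset_biUnion_of_mem (u := fun v => B v) hv).trans subset_union_right
  have hom : ∀ w t, ¬ SD L ∅ w t → OpE L w t M ∨ Ge L ∅ w t a ∩ M = ∅ := by
    intro w' t' hw'
    by_cases hop : OpE L w' t' M
    · exact Or.inl hop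
    · right
      unfold OpE at hop
      push Not at hop
      obtain ⟨b', hb'f, hb'M, hb'⟩ := hop
      obtain ⟨u', hu'⟩ := (gex ∅ a₁ w' t' (empty_subset a₁) ha₁f).1
      obtain ⟨v, hv, hu'v⟩ := hV₁' u' (niso a₁ w' t' ha₁f hw' u' hu')
      obtain ⟨w, t, hw, hwB, u, hu, huv⟩ := hB' v ⟨b', ⟨hb'f, hb'M⟩, w', t', hw', hb', u', hu', hu'v⟩
      rw [← Set.not_nonempty_iff_eq_empty]
      rintro ⟨x, hx, hxM⟩
      obtain ⟨y, hy, hyM⟩ := hPE L U hW hNE M a₁ a₁ a hM hRp subset_rfl ha₁a haf haM w' w t' t hw' hw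
        u' hu' u hu (tra a₁ u' v u ha₁f hu'v (nsb _ _ _ huv)) x hx hxM
      have h3 : y ∈ Ge L ∅ w t (B v) :=
        ger2 ∅ (B v) a w t (empty_subset _) (hBa v hv) haf hy
      have h4 : y ∈ Ge L ∅ w t (B v) ∩ M := ⟨h3, hyM⟩
      rw [hwB] at h4
      exact h4
  -- the set `V`
  obtain ⟨V₂, hV₂, hV₂'⟩ := hF a haf
  refine ⟨a, {v | v ∈ V₂ ∧ ∃ (w : U) (t : Bool), ¬ SD L ∅ w t ∧ OpE L w t M ∧
    ∃ u ∈ Ge L ∅ w t a, Nn L a u v}, haf, hV₂.subset (fun v hv => hv.1), ⟨hM, haM, hom, ?_⟩⟩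
  intro w t hw
  constructor
  · intro hop
    obtain ⟨u, hu⟩ := (gex ∅ a w t (empty_subset a) haf).1
    obtain ⟨v, hv, huv⟩ := hV₂' u (niso a w t haf hw u hu)
    exact ⟨v, ⟨hv, w, t, hw, hop, u, hu, huv⟩, u, hu, huv⟩
  · rintro ⟨v, ⟨hv, w', t', hw', hop', u', hu', hu'v⟩, u, hu, huv⟩
    intro b hb hbM
    have hn : Nn L a u' u := tra a u' v u haf hu'v (nsb _ _ _ huv)
    have hf : (a ∪ b).Finite := haf.union hb
    have hsM : a ∪ b ⊆ M := union_subset haM hbM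
    obtain ⟨x, hx, hxM⟩ := hop' (a ∪ b) hf hsM
    obtain ⟨y, hy, hyM⟩ := hPE L U hW hNE M a₁ a (a ∪ b) hM hRp ha₁a subset_union_left hf hsM
      w' w t' t hw' hw u' hu' u hu hn x hx hxM
    exact ⟨y, ger2 ∅ b (a ∪ b) w t (empty_subset _) subset_union_right hf hy, hyM⟩

end Pool.Agent.WOM
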