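import Pool.Agent.WOL.StF

/-!
WOL [fDF]: invariant initial segments inside a type with finitely many orbits are definable (helper8)
-/

set_option autoImplicit false

namespace Pool.Agent.WOM

open FirstOrder.Language Set
open scoped FirstOrder

/-- finite intersections of definable sets -/
theorem fDF_all {L : FirstOrder.Language.{0, 0}} {U : Type} [L.Structure U] {ι : Type} {B : Set U}
    {Z : Set ι} (hZ : Z.Finite) (K : ι → Set U) (hK : ∀ z ∈ Z, B.Definable₁ L (K z)) :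
    B.Definable₁ L {y | ∀ z ∈ Z, y ∈ K z} := by
  induction Z, hZ using Set.Finite.induction_on with
  | empty =>
    have h1 : {y : U | ∀ z ∈ (∅ : Set ι), y ∈ K z} = univ := by
      ext y
      simp
    rw [h1]
    exact Set.definable_univ
  | @insert a s ha hs ih =>
    have h1 : {y : U | ∀ z ∈ insert a s, y ∈ K z} = K a ∩ {y | ∀ z ∈ s, y ∈ K z} := by
      ext y
      constructor
      · intro h
        exact ⟨h a (mem_insert _ _), fun z hz => h z (mem_insert_of_mem _ hz)⟩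
      · rintro ⟨h2, h3⟩ z (rfl | hz)
        · exact h2
        · exact h3 z hz
    rw [h1]
    exact Set.Definable.inter (hK a (mem_insert _ _))
      (ih fun z hz => hK z (mem_insert_of_mem _ hz))

/-- finite unions of definable sets -/
theorem fDF_ex {L : FirstOrder.Language.{0, 0}} {U : Type} [L.Structure U] {ι : Type} {B : Set U}
    {Z : Set ι} (hZ : Z.Finite) (K : ι → Set U) (hK : ∀ z ∈ Z, B.Definable₁ L (K z)) :
    B.Definable₁ L {y | ∃ z ∈ Z, y ∈ K z} := by
  induction Z, hZ using Set.Finite.induction_on with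
  | empty =>
    have h1 : {y : U | ∃ z ∈ (∅ : Set ι), y ∈ K z} = ∅ := by
      ext y
      simp
    rw [h1]
    exact Set.definable_empty
  | @insert a s ha hs ih =>
    have h1 : {y : U | ∃ z ∈ insert a s, y ∈ K z} = K a ∪ {y | ∃ z ∈ s, y ∈ K z} := by
      ext y
      constructor
      · rintro ⟨z, (rfl | hz), h⟩
        · exact Or.inl h
        · exact Or.inr ⟨z, hz, h⟩
      · rintro (h | ⟨z, hz, h⟩)
        · exact ⟨a, mem_insert _ _, h⟩
        · exact ⟨z, mem_insert_of_mem _ hz, h⟩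
    rw [h1]
    exact Set.Definable.union (hK a (mem_insert _ _))
      (ih fun z hz => hK z (mem_insert_of_mem _ hz))

/-- representatives of finitely many orbits -/
theorem fDF_rep {L : FirstOrder.Language.{0, 0}} {U : Type} [L.Structure U]
    (hO1 : ∀ (A : Set U) (x : U), x ∈ Orb L A x) (A B : Set U) (u : U)
    (h : (Ob L A u B).Finite) (P : U → Prop) :
    ∃ W : Set U, W.Finite ∧ (∀ w ∈ W, w ∈ Orb L A u ∧ P w) ∧
      ∀ y ∈ Orb L A u, P y → ∃ w ∈ W, y ∈ Orb L B w := by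
  have h1 : {O | ∃ y ∈ Orb L A u, P y ∧ O = Orb L B y}.Finite := by
    refine h.subset ?_
    rintro O ⟨y, hy, -, rfl⟩
    exact ⟨y, hy, rfl⟩
  have : Nonempty U := ⟨u⟩
  choose! g hg using fun (O : Set U) (hO : ∃ y ∈ Orb L A u, P y ∧ O = Orb L B y) => hO
  refine ⟨g '' {O | ∃ y ∈ Orb L A u, P y ∧ O = Orb L B y}, h1.image g, ?_, ?_⟩
  · rintro _ ⟨O, hO, rfl⟩
    exact ⟨(hg O hO).1, (hg O hO).2.1⟩
  · intro y hy hP
    have h2 := hg (Orb L B y) ⟨y, hy, hP, rfl⟩
    refine ⟨g (Orb L B y), ⟨Orb L B y, ⟨y, hy, hP, rfl⟩, rfl⟩, ?_⟩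
    rw [← h2.2.2]
    exact hO1 B y

theorem thm_fDF (hORB : St_ORB) (hCNV : St_nCNV) (hSCUT : St_SCUT) : St_fDF := by
  intro L U _ _ hW A B u v₀ c hA hB hfin hlow huc hv₀ hv₀c hcof hinv
  obtain ⟨hO1, hO2, hO3, hO4, hO5, hO6, hO7, hO8, hO9⟩ := hORB L U hW.mon
  have hconn := ((hCNV L U hW).2 A u hA).1
  obtain ⟨W, hWf, hW1, hW2⟩ := fDF_rep hO1 A B u hfin (fun y => y ∈ c)
  obtain ⟨Z, hZf, hZ1, hZ2⟩ := fDF_rep hO1 A B u hfin (fun y => y ∉ c)
  have hK : ∀ w z : U, ∃ K : Set U, w ∈ W → z ∈ Z → B.Definable₁ L K ∧ Low K ∧ w ∈ K ∧ z ∉ K := by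
    intro w z
    by_cases hw : w ∈ W
    · by_cases hz : z ∈ Z
      · have h1 : w < z := by
          rw [← not_le]
          intro h
          exact (hZ1 z hz).2 (hlow w (hW1 w hw).2 z h)
        have h2 : z ∉ Orb L B w := fun h => (hZ1 z hz).2 (hinv w (hW1 w hw).2 h)
        obtain ⟨K, hK⟩ := hSCUT L U hW B w z hB h1 h2
        exact ⟨K, fun _ _ => hK⟩
      · exact ⟨∅, fun _ h => absurd h hz⟩
    · exact ⟨∅, fun h _ => absurd h hw⟩
  choose K hK using hK
  have key : c = {y | ∃ w ∈ W, y ∈ {y' | ∀ z ∈ Z, y' ∈ K w z}} := by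
    ext y
    constructor
    · intro hy
      obtain ⟨o, hop, hoc, hyo⟩ := hcof y hy
      obtain ⟨w, hw, how⟩ := hW2 o hop hoc
      refine ⟨w, hw, fun z hz => ?_⟩
      have h1 := hK w z hw hz
      exact h1.2.1 o (hO6 B _ h1.1 w h1.2.2.1 how) y hyo
    · rintro ⟨w, hw, hy⟩
      by_contra hyc
      have h1 : min y v₀ ∉ c := by
        rcases min_choice y v₀ with h | h <;> rw [h] <;> assumption
      have h2 : u < min y v₀ := by
        rw [← not_le]
        intro h
        exact h1 (hlow u huc _ h)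
      have h3 : min y v₀ ∈ Orb L A u :=
        hconn.out (hO1 A u) hv₀ ⟨h2.le, min_le_right _ _⟩
      obtain ⟨z, hz, hz'⟩ := hZ2 _ h3 h1
      have h4 := hK w z hw hz
      have h5 : min y v₀ ∈ K w z := h4.2.1 y (hy z hz) _ (min_le_left _ _)
      have h6 : z ∈ Orb L B (min y v₀) := by
        rw [hO2 B z _ hz']
        exact hO1 B z
      exact h4.2.2.2 (hO6 B _ h4.1 _ h5 h6)
  rw [key]
  refine fDF_ex hWf (fun w => {y' | ∀ z ∈ Z, y' ∈ K w z}) fun w hw => ?_
  exact fDF_all hZf (fun z => K w z) fun z hz => (hK w z hw hz).1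

end Pool.Agent.WOM
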