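import Pool.Agent.WOL.StF

/-! WOL: assembly for theories with locally finite convexity (helper8; as FASE.lean by helper41). -/

set_option autoImplicit false

namespace Pool.Agent.WOM

open FirstOrder.Language Set
open scoped FirstOrder

section
variable {L : FirstOrder.Language.{0, 0}}

private theorem fFA_mono {S : L.Structure ℕ} {T : L.Theory}
    (hS : @FirstOrder.Language.Theory.Model L ℕ S T) (S' : L.Structure ℕ)
    (h : @FirstOrder.Language.Theory.Model L ℕ S' (ThS L S)) :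
    @FirstOrder.Language.Theory.Model L ℕ S' T := by
  refine ⟨fun φ hφ => h.1 φ ?_⟩
  exact hS.1 φ hφ

private theorem fFA_realize (S : L.Structure ℕ) (σ : L.Sentence) :
    σ ∈ ThS L S ↔
      FirstOrder.Language.Formula.relabel (Empty.elim : Empty → Fin 0) σ ∈
        @tp L ℕ S 0 Fin.elim0 := by
  have h5 := @FirstOrder.Language.Formula.realize_relabel L ℕ S Empty (Fin 0) σ
    (Empty.elim : Empty → Fin 0) Fin.elim0
  have h8 : σ ∈ ThS L S ↔ @FirstOrder.Language.Sentence.Realize L ℕ S σ := Iff.rfl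
  refine h8.trans (Iff.trans ?_ h5.symm)
  unfold FirstOrder.Language.Sentence.Realize
  rw [Subsingleton.elim (Fin.elim0 ∘ (Empty.elim : Empty → Fin 0) : Empty → ℕ)]

private theorem fFA_th {S S' : L.Structure ℕ}
    (h : @tp L ℕ S 0 Fin.elim0 = @tp L ℕ S' 0 Fin.elim0) : ThS L S = ThS L S' := by
  ext σ
  rw [fFA_realize, fFA_realize, h]

end

theorem thm_fFA (hULT : St_ULT) (hSUBM : St_SUBM) (hHOMG : St_HOMG) (hTRC : St_TRC)
    (hRW : St_fRW) (hWN : St_fWN) (hSML : St_SML) (hSCU : St_SCU) (hMSB : St_MSB)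
    (hCT : St_fCT) : St_LFC := by
  intro L _ _ T lt hT
  by_contra hcon
  have hC : ¬ Pool.Agent.Helper6.Str.CtblK (ModK L T) := fun h => hcon (Or.inl h)
  have hP : ¬ Pool.Agent.Helper6.Str.PerfK (ModK L T) := fun h => hcon (Or.inr h)
  have hScat : Pool.Agent.Helper79.VC.Scat (ModK L T) :=
    Pool.Agent.Helper79.VC.scat_of_not_perf (hMSB L T) hP
  have hsmall : Small L T := hSML L T hScat
  have hcs : Countable L.Symbols := by
    unfold FirstOrder.Language.Symbols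
    infer_instance
  have key : ∀ S : L.Structure ℕ, @FirstOrder.Language.Theory.Model L ℕ S T →
      CtT L (ThS L S) := by
    intro S hS
    obtain ⟨V, instV, hVne, hVm, hVs⟩ := hULT L hcs S
    have hsm : Small L (ThS L S) := by
      refine hsmall.mono ?_
      rintro p ⟨S', hS', a, ha⟩
      exact ⟨S', fFA_mono hS S' hS', a, ha⟩
    obtain ⟨U, instU, hUc, hUi, hUm, hUs⟩ := hSUBM L hcs S hsm V hVm hVs
    have hMon : Mon L U := hHOMG L U hUc hUi hUs
    have hUT : U ⊨ T := ⟨fun φ hφ => hUm.1 φ (hS.1 φ hφ)⟩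
    obtain ⟨hw, hfc⟩ := hRW L T lt hT U hUc hUi hUT hMon.sat
    have hscu : ScU L instU := hSCU L T U hScat hMon hUT
    obtain ⟨lo, hWn, hNE⟩ := hWN L U lt hMon hw hfc hscu
    exact hTRC L U hMon (hCT L U hWn hscu hNE) S hUm
  apply hC
  -- the theories of the models
  have hct : {p : (n : ℕ) × Set (L.Formula (Fin n)) | ∃ S : L.Structure ℕ,
      @FirstOrder.Language.Theory.Model L ℕ S T ∧
        p = ⟨0, @tp L ℕ S 0 Fin.elim0⟩}.Countable := by
    refine hsmall.mono ?_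
    rintro p ⟨S, hS, rfl⟩
    exact ⟨S, hS, Fin.elim0, rfl⟩
  choose c hc1 hc2 using fun z : ↥{p : (n : ℕ) × Set (L.Formula (Fin n)) | ∃ S : L.Structure ℕ,
      @FirstOrder.Language.Theory.Model L ℕ S T ∧ p = ⟨0, @tp L ℕ S 0 Fin.elim0⟩} => z.2
  choose g hg using fun z => key (c z) (hc1 z)
  have hcount := hct.to_subtype
  have hne : Nonempty (L.Structure ℕ) := ⟨Pool.Agent.Helper6.Str.toStr (fun _ => true)⟩
  obtain ⟨G, hG⟩ := (countable_iff_exists_subset_range (α := L.Structure ℕ)).1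
    (countable_range (fun p : ↥{p : (n : ℕ) × Set (L.Formula (Fin n)) | ∃ S : L.Structure ℕ,
      @FirstOrder.Language.Theory.Model L ℕ S T ∧ p = ⟨0, @tp L ℕ S 0 Fin.elim0⟩} × ℕ =>
      g p.1 p.2))
  refine ⟨G, fun S hS => ?_⟩
  let z : ↥{p : (n : ℕ) × Set (L.Formula (Fin n)) | ∃ S : L.Structure ℕ,
      @FirstOrder.Language.Theory.Model L ℕ S T ∧ p = ⟨0, @tp L ℕ S 0 Fin.elim0⟩} :=
    ⟨⟨0, @tp L ℕ S 0 Fin.elim0⟩, S, hS, rfl⟩
  have hz : (⟨0, @tp L ℕ S 0 Fin.elim0⟩ : (n : ℕ) × Set (L.Formula (Fin n))) =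
    ⟨0, @tp L ℕ (c z) 0 Fin.elim0⟩ := hc2 z
  have hz' : @tp L ℕ S 0 Fin.elim0 = @tp L ℕ (c z) 0 Fin.elim0 := by
    have := (Sigma.mk.inj_iff.1 hz).2
    exact eq_of_heq this
  have hSmod : @FirstOrder.Language.Theory.Model L ℕ S (ThS L (c z)) := by
    rw [← fFA_th hz']
    exact ⟨fun φ hφ => hφ⟩
  obtain ⟨n, ⟨e⟩⟩ := hg z S hSmod
  obtain ⟨m, hm⟩ := hG ⟨(z, n), rfl⟩
  refine ⟨m, ?_⟩
  rw [hm]
  have hrel := @FirstOrder.Language.Equiv.map_rel' L ℕ ℕ S (g z n) e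
  exact ⟨@FirstOrder.Language.Equiv.toEquiv L ℕ ℕ S (g z n) e, fun k R v => (hrel R v).symm⟩

end Pool.Agent.WOM
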