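import Pool.Agent.WOL.StF
import Pool.Agent.WOM.LV0

/-! WOL: module fFC, finitely many classes (helper33). -/

set_option autoImplicit false

namespace Pool.Agent.WOM

open FirstOrder.Language Set
open scoped FirstOrder

private theorem fFC_key {L : FirstOrder.Language.{0, 0}} [∀ n, IsEmpty (L.Functions n)] {U : Type}
    [S : L.Structure U] (hmon : Mon L U) {A : Set U} (n : ℕ) (d : Fin n → U) (hd : range d = A)
    {M M' : Set U} (hM : IsEl L M) (hM' : IsEl L M') (hAM : A ⊆ M) (hAM' : A ⊆ M') (x : U)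
    (hx : x ∈ M) (hx' : Orb L A x ∩ M' = ∅)
    (hB : Pool.Agent.Helper79.VC.BFR S S M M' (Ordinal.omega0 + 1) (HERN.prs d d)) : False := by
  obtain ⟨y, hy, hB1⟩ := Pool.Agent.Helper79.VC.BFR.forth hB
    (β := Ordinal.omega0) (by
      rw [← Order.succ_eq_add_one]
      exact Order.lt_succ _) hx
  have hfin : (insert (x, y) (HERN.prs d d)).Finite := (finite_range _).insert _
  obtain ⟨σ, hσ⟩ := thm_LV0 L U hmon M M' (insert (x, y) (HERN.prs d d)) Ordinal.omega0 hM hM'
    hfin (by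
      rintro p (rfl | ⟨i, rfl⟩)
      · exact ⟨hx, hy⟩
      · have h1 : d i ∈ A := hd ▸ mem_range_self i
        exact ⟨hAM h1, hAM' h1⟩) le_rfl hB1
  have h1 : y ∈ Orb L A x := by
    refine ⟨σ, fun a ha => ?_, hσ _ (mem_insert _ _)⟩
    rw [← hd] at ha
    obtain ⟨i, rfl⟩ := ha
    exact hσ (d i, d i) (mem_insert_of_mem _ ⟨i, rfl⟩)
  have h2 : y ∈ Orb L A x ∩ M' := ⟨h1, hy⟩
  rw [hx'] at h2
  exact h2

theorem thm_fFC (hNSB : St_NSB) (hMS : St_fMS) : St_fFC := by
  intro L _ U S _ hW hSc A hA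
  by_contra hcon
  push Not at hcon
  obtain ⟨n1, -⟩ := hNSB L U
  obtain ⟨v, hv1, hv2⟩ := exists_seq_of_forall_finset_exists (fun z => ¬ Isd L A z)
    (fun x y => ¬ Nn L A x y) (fun s _ => by
      obtain ⟨z, hz, hz'⟩ := hcon (s : Set U) s.finite_toSet
      exact ⟨z, hz, fun x hx h => hz' x hx (n1 A x z h)⟩)
  choose X hX using fun f : ℕ → Bool => hMS L U hW hSc A v hA hv1 hv2 {n | f n = true}
  obtain ⟨n, d, hd⟩ : ∃ (n : ℕ) (d : Fin n → U), range d = A := by
    have := hA.fintype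
    refine ⟨Fintype.card A, fun i => ((Fintype.equivFin A).symm i : U), ?_⟩
    ext y
    constructor
    · rintro ⟨i, rfl⟩
      exact ((Fintype.equivFin A).symm i).2
    · intro hy
      exact ⟨Fintype.equivFin A ⟨y, hy⟩, by simp⟩
  have hlt : Ordinal.omega0 + 1 < Pool.Agent.Helper79.VC.om1 :=
    Pool.Agent.Helper79.VC.add_one_lt_om1 Pool.Agent.Helper79.VC.omega_lt_om1
  obtain ⟨f, g, hfg, hB⟩ := hSc X n d _ hlt fun f => ⟨(hX f).1, fun i =>
    (hX f).2.1 (hd ▸ mem_range_self i)⟩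
  have hne : ∃ k, f k ≠ g k := by
    by_contra h
    push Not at h
    exact hfg (funext h)
  obtain ⟨k, hk⟩ := hne
  have hBs : Pool.Agent.Helper79.VC.BFR S S (X g) (X f) (Ordinal.omega0 + 1) (HERN.prs d d) := by
    refine Pool.Agent.Helper79.VC.BFR.symm hB ?_
    rintro _ ⟨i, rfl⟩
    exact ⟨i, rfl⟩
  cases hf : f k with
  | true =>
    have hg : g k ≠ true := fun h => hk (hf.trans h.symm)
    exact fFC_key hW.mon n d hd (hX f).1 (hX g).1 (hX f).2.1 (hX g).2.1 (v k)
      ((hX f).2.2.1 k hf) ((hX g).2.2.2 k hg) hB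
  | false =>
    have hg : g k = true := by
      cases hg : g k with
      | true => rfl
      | false => exact absurd (hf.trans hg.symm) hk
    have hf' : f k ≠ true := by
      rw [hf]
      exact Bool.false_ne_true
    exact fFC_key hW.mon n d hd (hX g).1 (hX f).1 (hX g).2.1 (hX f).2.1 (v k)
      ((hX g).2.2.1 k hg) ((hX f).2.2.2 k hf') hBs

end Pool.Agent.WOM
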