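import Pool.Agent.WOL.StF

/-!
WOL, module fIN: independence.
-/

set_option autoImplicit false

namespace Pool.Agent.WOM

open FirstOrder.Language Set
open scoped FirstOrder

theorem thm_fIN (hTR : St_fTR) : St_fIN := by
  intro L _ U _ _ hW hS F hF
  induction F, hF using Set.Finite.induction_on with
  | empty =>
    intro A z _ _ _
    rw [union_empty]
  | @insert x F' hx _ ih =>
    intro A z hA h1 h2
    have hx0 : x ∈ insert x F' := mem_insert x F'
    have hne : ∀ y ∈ F', x ≠ y := by
      rintro y hy rfl
      exact hx hy
    have hxy : ∀ y ∈ F', ¬ Nn L A x y := fun y hy =>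
      h1 x hx0 y (mem_insert_of_mem x hy) (hne y hy)
    have h3 := ih (insert x A) z (hA.insert x)
      (fun y hy y' hy' hyy => hTR L U hW hS A x y y' hA (hxy y hy) (hxy y' hy')
        (h1 y (mem_insert_of_mem x hy) y' (mem_insert_of_mem x hy') hyy))
      (fun y hy => hTR L U hW hS A x y z hA (hxy y hy) (h2 x hx0)
        (h2 y (mem_insert_of_mem x hy)))
    have h4 : Orb L (insert x A) z = Orb L A z := by
      by_contra h
      exact h2 x hx0 h
    have h5 : A ∪ insert x F' = insert x A ∪ F' := by
      rw [insert_union, union_insert]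
    rw [h5, h3, h4]

end Pool.Agent.WOM
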