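import Pool.Agent.WOL.StF

/-!
WOL: fMS, models which realise exactly the chosen types.
-/

set_option autoImplicit false
set_option linter.unusedVariables false

namespace Pool.Agent.WOM

open FirstOrder.Language Set
open scoped FirstOrder

theorem thm_fMS (hORB : St_ORB) (hNSB : St_NSB) (hSDI : St_nSDI) (hSMM : St_SMM)
    (hIN : St_fIN) : St_fMS := by
  intro L _ U S _ hW hSc A v hA hv hvv J₀
  obtain ⟨orb1, orb2, -⟩ := hORB L U hW.mon
  obtain ⟨nsb1, nsb2, -⟩ := hNSB L U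
  obtain ⟨-, -, sdi3, -⟩ := hSDI L U hW
  -- weak orthogonality for different indices
  have hnn : ∀ m n, m ≠ n → ¬ Nn L A (v m) (v n) := by
    intro m n hmn h
    rcases lt_or_gt_of_ne hmn with h1 | h1
    · exact hvv m n h1 h
    · exact hvv n m h1 (nsb1 _ _ _ h)
  obtain ⟨b, hb⟩ : ∃ b : ℚ → U, ∀ n : ℕ, b (n : ℚ) = v n := by
    refine ⟨fun q => v ⌊q⌋.toNat, fun n => ?_⟩
    simp
  obtain ⟨J, hJ⟩ : ∃ J : Set ℚ, J = (fun n : ℕ => (n : ℚ)) '' J₀ := ⟨_, rfl⟩
  -- independence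
  have hind : ∀ F : Set ℚ, F.Finite → F ⊆ J → ∀ z : U, (∀ m : ℕ, (m : ℚ) ∈ F → ¬ Nn L A (v m) z) →
      Orb L (A ∪ b '' F) z = Orb L A z := by
    intro F hF hFJ z hz
    refine hIN L U hW hSc (b '' F) (hF.image b) A z hA ?_ ?_
    · rintro x ⟨q, hq, rfl⟩ y ⟨q', hq', rfl⟩ hxy
      have hq2 := hFJ hq
      have hq2' := hFJ hq'
      rw [hJ] at hq2 hq2'
      obtain ⟨m, -, rfl⟩ := hq2
      obtain ⟨n, -, rfl⟩ := hq2'
      simp only [hb] at hxy ⊢
      exact hnn m n (fun h => hxy (by rw [h]))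
    · rintro x ⟨q, hq, rfl⟩
      have hq2 := hFJ hq
      rw [hJ] at hq2
      obtain ⟨m, -, rfl⟩ := hq2
      simp only [hb]
      exact hz m hq
  obtain ⟨M, hM1, hM2, hM3, hM4⟩ := hSMM L U hW A b J hA (by
    intro F hF hFJ q hq hqF hI
    rw [hJ] at hq
    obtain ⟨n, -, rfl⟩ := hq
    simp only [hb] at hI
    have h1 : Orb L (A ∪ b '' F) (v n) = Orb L A (v n) := by
      refine hind F hF hFJ (v n) (fun m hm => hnn m n ?_)
      rintro rfl
      exact hqF hm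
    exact hv n ((sdi3 A (A ∪ b '' F) (v n) subset_union_left (hA.union (hF.image b)) h1).1.1 hI))
  refine ⟨M, hM1, hM2, ?_, ?_⟩
  · intro n hn
    rw [← hb n]
    exact hM3 _ (by rw [hJ]; exact ⟨n, hn, rfl⟩)
  · intro n hn
    rw [Set.eq_empty_iff_forall_notMem]
    rintro y ⟨hy1, hy2⟩
    obtain ⟨F, hF, hFJ, hI⟩ := hM4 y hy2
    have hyo : Orb L A y = Orb L A (v n) := orb2 _ _ _ hy1
    have h1 : Orb L (A ∪ b '' F) y = Orb L A y := by
      refine hind F hF hFJ y (fun m hm h => ?_)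
      have hm2 := hFJ hm
      rw [hJ] at hm2
      obtain ⟨m', hm', hmm⟩ := hm2
      have hmm2 : (m' : ℚ) = (m : ℚ) := hmm
      have hmm' : m' = m := by exact_mod_cast hmm2
      subst hmm'
      have hmn : m' ≠ n := fun h => hn (h ▸ hm')
      refine hnn m' n hmn (nsb2 A (v m') y (v m') (v n) (orb1 _ _) ?_ h)
      rw [hyo]
      exact orb1 _ _
    have h2 := (sdi3 A (A ∪ b '' F) y subset_union_left (hA.union (hF.image b)) h1).1.1 hI
    apply hv n
    unfold Isd at h2 ⊢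
    rw [← hyo]
    exact h2

end Pool.Agent.WOM
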