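import Pool.Agent.WOL.StF

/-!
WOL [fNE]: no new ends.
-/

set_option autoImplicit false

namespace Pool.Agent.WOM

open FirstOrder.Language Set
open scoped FirstOrder

private theorem fNE_sd (hSDL : St_SDL) (L : FirstOrder.Language.{0, 0}) (U : Type)
    [L.Structure U] [LinearOrder U] (hW : Wn L U) (A : Set U) (u : U) (t : Bool) :
    @SD L U _ (dO U) A u t ↔ SD L A u (!t) := by
  obtain ⟨-, h2, -⟩ := hSDL L U hW
  have h3 : ∀ X : Set U, @Cls U (dO U) t X = Cls (!t) X := by
    intro X
    ext w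
    constructor
    · rintro ⟨v, hv, h⟩
      exact ⟨v, hv, (h2 t w v).1 h⟩
    · rintro ⟨v, hv, h⟩
      exact ⟨v, hv, (h2 t w v).2 h⟩
  unfold SD
  rw [h3]

private theorem fNE_one (hORB : St_ORB) (hSDL : St_SDL) (hOS : St_fOS) (hCE : St_fCE)
    (L : FirstOrder.Language.{0, 0}) [∀ n, IsEmpty (L.Functions n)] (U : Type)
    [S : L.Structure U] [LinearOrder U] (hW : Wn L U) (hS : ScU L S)
    (hE : ∀ (A : Set U) (a : U), A.Finite → (EqA L A a).Finite) (A : Set U) (x u : U) (t : Bool)
    (hA : A.Finite) (h : ¬ SD L (insert x A) u t) : u ∈ Ge L A u t (insert x A) := by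
  have h1 : (Ob L A x (insert x A)).Finite := hOS L U hW hS A x hA (hE A x hA)
  have h2 : ∀ v ∈ Orb L A u, (Ob L A u (insert v A)).Finite := by
    intro v hv
    have h3 := hOS L U hW hS A v hA (hE A v hA)
    unfold Ob at h3 ⊢
    rwa [(hORB L U hW.mon).2.1 A u v hv] at h3
  cases t with
  | true => exact hCE L U hW A x u hA h1 h2 h
  | false =>
    obtain ⟨g1, -, -, g4, -⟩ := hSDL L U hW
    have h3 : ¬ @SD L U _ (dO U) (insert x A) u true := by
      rw [fNE_sd hSDL L U hW]
      exact h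
    have h4 := @hCE L U S (dO U) g1 A x u hA h1 h2 h3
    rw [g4] at h4
    exact h4

theorem thm_fNE (hORB : St_ORB) (hGER : St_nGER) (hSDI : St_nSDI) (hSDL : St_SDL)
    (hOS : St_fOS) (hCE : St_fCE) : St_fNE := by
  intro L _ U S _ hW hS hE B u t hB
  obtain ⟨g1, -, -, -, -, g6, -⟩ := hGER L U hW
  induction B, hB using Set.Finite.induction_on with
  | empty =>
    intro _
    rw [g6]
    exact (hORB L U hW.mon).1 ∅ u
  | @insert x B' _ hB' ih =>
    intro h
    have h1 := fNE_one hORB hSDL hOS hCE L U hW hS hE B' x u t hB' h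
    have hsub : B' ⊆ insert x B' := subset_insert x B'
    have hfin : (insert x B').Finite := hB'.insert x
    have h2 : ¬ SD L B' u t := fun h3 =>
      h (((hSDI L U hW).2.1 B' (insert x B') u u t hsub hfin h1).2 h3)
    have h3 := ih h2
    rw [← g1 ∅ B' (insert x B') u u t (empty_subset _) hsub hfin h3]
    exact h1

end Pool.Agent.WOM
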