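import Pool.Agent.WOL.StF

/-!
WOL, module fOR: finitely many orbits over `x, A` to the right of `x` (helper23).
-/

set_option autoImplicit false
set_option linter.unusedVariables false

namespace Pool.Agent.WOM

open FirstOrder.Language Set
open scoped FirstOrder

/-- the separation of two orbits over `x, A` by an `A`-definable convex equivalence relation -/
private theorem fOR_sep (hORB : St_ORB) (hCNV : St_nCNV) (hSFX : St_SFX)
    (hSDF : St_SDF) (hSCUT : St_SCUT) (hSEZ : St_SEZ)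
    (L : FirstOrder.Language.{0, 0}) [∀ n, IsEmpty (L.Functions n)] (U : Type)
    [S : L.Structure U] [LinearOrder U] (hW : Wn L U) (hSc : ScU L S)
    (A : Set U) (x : U) (hA : A.Finite) (z z' : U) (hz : z ∈ Orb L A x) (hz' : z' ∈ Orb L A x)
    (hxz : x < z) (hzz : z < z') (hne : Orb L (insert x A) z ≠ Orb L (insert x A) z') :
    ∃ R ∈ EqA L A x, (x, z) ∈ R ∧ (x, z') ∉ R := by
  have hord := hW.ord
  obtain ⟨o1, o2, o3, -, o5, -⟩ := hORB L U hW.mon
  have hmon := (hCNV L U hW).1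
  have hQin : ∀ σ : U ≃[L] U, Fx L A σ → ∀ x y, y ∈ Orb L A x → σ y ∈ Orb L A x := by
    rintro σ hσ x y ⟨g, hg, rfl⟩
    exact ⟨σ.comp g, fun b hb => by
      rw [FirstOrder.Language.Equiv.comp_apply, hg b hb, hσ b hb], rfl⟩
  have hz'n : z' ∉ Orb L (insert x A) z := fun h => hne (o2 _ _ _ h).symm
  obtain ⟨K, hK, hKl, hzK, hz'K⟩ := hSCUT L U hW (insert x A) z z' (hA.insert x) hzz hz'n
  have hxK : x ∈ K := hKl z hzK x hxz.le
  obtain ⟨-, -, -, -, -, -, -, s8⟩ := hSDF L U hord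
  obtain ⟨g, hg, hgl, hgs, hgx⟩ := s8 A x K hK hKl hxK
  have hinv := (hSFX L U hW.mon).1
  have hbd : ∀ y ∈ Orb L A x, ∃ y' ∈ Orb L A x, y' ∉ g y := by
    rintro y ⟨σ, hσ, rfl⟩
    refine ⟨σ z', hQin σ hσ x z' hz', ?_⟩
    rw [hinv A g σ hg hσ x, σ.injective.mem_set_image, hgx]
    exact hz'K
  have hPne : Orb L A x ≠ {x} := by
    intro h
    rw [h] at hz
    exact hxz.ne' hz
  have hEQ : ∀ y ∈ Orb L A x, ∀ w, y ≤ w → w ∈ g y → g w = g y := by
    intro y hy w hyw hw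
    exact hSEZ L U hW hSc true A x g hA hPne hg (fun v => hgl v) hgs hbd y hy w hyw hw
  obtain ⟨E, hEd⟩ : ∃ E : U → U → Prop, E = fun y w =>
    (y ≤ w ∧ w ∈ g y) ∨ (w ≤ y ∧ y ∈ g w) := ⟨_, rfl⟩
  have hEdef : A.Definable L {w : Fin 2 → U | E (w 0) (w 1)} := by
    rw [hEd]
    exact Dx.or (Dx.and (Dx.le hord A 0 1) (Dx.rel (R := fun y w => w ∈ g y) hg 0 1))
      (Dx.and (Dx.le hord A 1 0) (Dx.rel (R := fun y w => w ∈ g y) hg 1 0))
  have hEeq : ∀ y ∈ Orb L A x, ∀ w ∈ Orb L A x, E y w ↔ g y = g w := by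
    intro y hy w hw
    rw [hEd]
    constructor
    · rintro (⟨h1, h2⟩ | ⟨h1, h2⟩)
      · exact (hEQ y hy w h1 h2).symm
      · exact hEQ w hw y h1 h2
    · intro h
      rcases le_total y w with h1 | h1
      · refine Or.inl ⟨h1, ?_⟩
        rw [h]
        exact hgs w
      · refine Or.inr ⟨h1, ?_⟩
        rw [← h]
        exact hgs y
  have hCv : CvO (Orb L A x) E := by
    refine ⟨?_, ?_, ?_, ?_⟩
    · intro y hy
      exact (hEeq y hy y hy).2 rfl
    · intro y hy w hw h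
      exact (hEeq w hw y hy).2 ((hEeq y hy w hw).1 h).symm
    · intro y hy w hw v hv h h'
      exact (hEeq y hy v hv).2 (((hEeq y hy w hw).1 h).trans ((hEeq w hw v hv).1 h'))
    · intro y hy w hw v hv hyw hwv h
      have h1 := (hEeq y hy v hv).1 h
      have h2 : w ∈ g y := by
        rw [h1]
        exact hgl v v (hgs v) w hwv.le
      rw [hEd]
      exact Or.inl ⟨hyw.le, h2⟩
  refine ⟨_, ⟨E, hEdef, hCv, rfl⟩, ⟨o1 A x, hz, ?_⟩, ?_⟩
  · show E x z
    rw [hEd]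
    refine Or.inl ⟨hxz.le, ?_⟩
    rw [hgx]
    exact hzK
  · rintro ⟨-, -, h⟩
    have h' : E x z' := h
    rw [hEd] at h'
    rcases h' with ⟨-, h3⟩ | ⟨h3, -⟩
    · rw [hgx] at h3
      exact hz'K h3
    · exact absurd (hxz.trans hzz) (not_lt.2 h3)

theorem thm_fOR (hORB : St_ORB) (hCNV : St_nCNV) (hSFX : St_SFX)
    (hSDF : St_SDF) (hSCUT : St_SCUT) (hSEZ : St_SEZ) : St_fOR := by
  intro L _ U S _ hW hSc A x hA hfin
  classical
  have sep := fOR_sep hORB hCNV hSFX hSDF hSCUT hSEZ L U hW hSc A x hA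
  -- the code of a point
  obtain ⟨Φ, hΦ⟩ : ∃ Φ : U → Set (Set (U × U)), Φ = fun z => {R | R ∈ EqA L A x ∧ (x, z) ∈ R} :=
    ⟨_, rfl⟩
  have hΦsub : ∀ z, Φ z ∈ 𝒫 (EqA L A x) := by
    intro z
    rw [hΦ]
    intro R hR
    exact hR.1
  have hΦne : ∀ z ∈ Orb L A x, ∀ z' ∈ Orb L A x, x < z → x < z' → Φ z = Φ z' →
      Orb L (insert x A) z = Orb L (insert x A) z' := by
    intro z hz z' hz' hxz hxz' h
    by_contra hne
    rcases lt_trichotomy z z' with h1 | h1 | h1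
    · obtain ⟨R, hR, h2, h3⟩ := sep z z' hz hz' hxz h1 hne
      have h4 : R ∈ Φ z := by
        rw [hΦ]
        exact ⟨hR, h2⟩
      rw [h, hΦ] at h4
      exact h3 h4.2
    · exact hne (by rw [h1])
    · obtain ⟨R, hR, h2, h3⟩ := sep z' z hz' hz hxz' h1 (Ne.symm hne)
      have h4 : R ∈ Φ z' := by
        rw [hΦ]
        exact ⟨hR, h2⟩
      rw [← h, hΦ] at h4
      exact h3 h4.2
  -- the function from codes to orbits
  refine (hfin.finite_subsets.image fun X : Set (Set (U × U)) =>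
    if h : ∃ z ∈ Orb L A x, x < z ∧ Φ z = X then Orb L (insert x A) h.choose else ∅).subset ?_
  rintro O ⟨z, hz, hxz, rfl⟩
  refine ⟨Φ z, hΦsub z, ?_⟩
  have h : ∃ z' ∈ Orb L A x, x < z' ∧ Φ z' = Φ z := ⟨z, hz, hxz, rfl⟩
  show (if h : ∃ z' ∈ Orb L A x, x < z' ∧ Φ z' = Φ z then Orb L (insert x A) h.choose else ∅) = _
  rw [dif_pos h]
  exact hΦne _ h.choose_spec.1 z hz h.choose_spec.2.1 hxz h.choose_spec.2.2

end Pool.Agent.WOM
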