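import Pool.Agent.WOL.StF

/-! WOL, module fOS (helper21): finitely many orbits over `x, A` in the type of `x`. -/

set_option autoImplicit false
set_option linter.unusedVariables false

namespace Pool.Agent.WOM

open FirstOrder.Language Set
open scoped FirstOrder

private theorem fOS_cv {U : Type} [LinearOrder U] (P : Set U) (E : U → U → Prop) :
    @CvO U (dO U) P E ↔ CvO P E := by
  constructor
  · rintro ⟨h1, h2, h3, h4⟩
    refine ⟨h1, h2, h3, fun x hx y hy w hw hxy hyw hE => ?_⟩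
    have h5 : E w y := h4 w hw y hy x hx hyw hxy (h2 x hx w hw hE)
    exact h3 x hx w hw y hy hE h5
  · rintro ⟨h1, h2, h3, h4⟩
    refine ⟨h1, h2, h3, fun x hx y hy w hw hxy hyw hE => ?_⟩
    have h5 : E w y := h4 w hw y hy x hx hyw hxy (h2 x hx w hw hE)
    exact h3 x hx w hw y hy hE h5

private theorem fOS_eq (L : FirstOrder.Language.{0, 0}) {U : Type} [S : L.Structure U]
    [LinearOrder U] (A : Set U) (x : U) : @EqA L U S (dO U) A x = EqA L A x := by
  ext R
  constructor
  · rintro ⟨E, h1, h2, h3⟩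
    exact ⟨E, h1, (fOS_cv _ E).1 h2, h3⟩
  · rintro ⟨E, h1, h2, h3⟩
    exact ⟨E, h1, (fOS_cv _ E).2 h2, h3⟩

theorem thm_fOS (hSDL : St_SDL) (hOR : St_fOR) : St_fOS := by
  intro L _ U S _ hW hS A x hA hE
  have h1 := hOR L U hW hS A x hA hE
  obtain ⟨hW', -⟩ := hSDL L U hW
  have h2 := @hOR L _ U S (dO U) hW' hS A x hA (by rw [fOS_eq]; exact hE)
  have h3 : {O | ∃ z ∈ Orb L A x, z < x ∧ O = Orb L (insert x A) z}.Finite := h2
  refine ((h1.union h3).union (Set.finite_singleton (Orb L (insert x A) x))).subset ?_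
  rintro O ⟨z, hz, rfl⟩
  rcases lt_trichotomy x z with h | h | h
  · exact Or.inl (Or.inl ⟨z, hz, h, rfl⟩)
  · right
    rw [← h]
    rfl
  · exact Or.inl (Or.inr ⟨z, hz, h, rfl⟩)

end Pool.Agent.WOM
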