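import Pool.Agent.WOL.StF

/-!
WOL, module fPE: persistence.
-/

set_option autoImplicit false

namespace Pool.Agent.WOM

open FirstOrder.Language Set
open scoped FirstOrder

theorem thm_fPE (hGEX : St_nGEX) (hGER : St_nGER) (hSMA : St_nSMA) (hSMB : St_nSMB)
    (hSDI : St_nSDI) (hSA : St_fSA) (hRE : St_fRE) : St_fPE := by
  intro L U _ _ hW hNE M a b₀ b hM hRp hab₀ hb₀b hbf hbM w w' t t' hw hw' u hu u' hu' hn x hx hxM
  have hb₀f : b₀.Finite := hbf.subset hb₀b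
  obtain ⟨G1, G2, _⟩ := hGER L U hW
  obtain ⟨_, S2, _⟩ := hSDI L U hW
  have hx₀ : x ∈ Ge L ∅ w t b₀ := G2 ∅ b₀ b w t (empty_subset _) hb₀b hbf hx
  have n1 : ¬ SD L b x t := fun h => hw ((S2 ∅ b w x t (empty_subset _) hbf hx).mp h)
  have n2 : ¬ SD L b₀ x t := fun h => hw ((S2 ∅ b₀ w x t (empty_subset _) hb₀f hx₀).mp h)
  have p1 : SD L b x (!t) := by
    obtain ⟨s, hs⟩ := hSA L U hW hNE M a b hRp (hab₀.trans hb₀b) hbf x hxM
    have : s = !t := by
      cases s <;> cases t <;> first | rfl | exact absurd hs n1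
    rwa [← this]
  have p2 : SD L b₀ x (!t) := by
    obtain ⟨s, hs⟩ := hSA L U hW hNE M a b₀ hRp hab₀ hb₀f x hxM
    have : s = !t := by
      cases s <;> cases t <;> first | rfl | exact absurd hs n2
    rwa [← this]
  have q1 := (hGEX L U hW ∅ b₀ w t (empty_subset _) hb₀f).2
  have p3 : SD L b₀ u (!t) := by
    unfold SD
    rw [← q1 u hu, q1 x hx₀]
    exact p2
  obtain ⟨e, o1, _, o3⟩ := hSMA L U hW b₀ u u' hb₀f hn
  have p4 := hSMB L U hW b₀ u u' e (!t) hb₀f hn o1 p3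
  have n3 : ¬ SD L b₀ u' t' := fun h => hw' ((S2 ∅ b₀ w' u' t' (empty_subset _) hb₀f hu').mp h)
  have he : sg e t = t' := by
    by_contra hne
    apply n3
    have : sg e (!t) = t' := by
      revert hne
      cases e <;> cases t <;> cases t' <;> simp [sg]
    rwa [← this]
  have g1 := G1 ∅ b₀ b w u t (empty_subset _) hb₀b hbf hu
  have g2 := G1 ∅ b₀ b w' u' t' (empty_subset _) hb₀b hbf hu'
  obtain ⟨⟨v, hv⟩, q2⟩ := hGEX L U hW ∅ b w' t' (empty_subset _) hbf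
  have hn2 : Nn L b x v := by
    refine o3 b t hbf hb₀b x ?_ v ?_
    · rw [g1]; exact hx
    · rw [he, g2]; exact hv
  obtain ⟨e', o1', _, _⟩ := hSMA L U hW b x v hbf hn2
  have p5 := hSMB L U hW b x v e' (!t) hbf hn2 o1' p1
  have h9 := hRE L U hW M b x v (sg e' (!t)) hM hbf hbM hxM hn2 p5
  rw [q2 v hv]
  exact h9

end Pool.Agent.WOM
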