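import Pool.Agent.WOL.StF

/-!
WOL [fRE]: realisation (helper32)
-/

set_option autoImplicit false

namespace Pool.Agent.WOM

open FirstOrder.Language Set
open scoped FirstOrder

theorem thm_fRE (hORB : St_ORB) (hCNV : St_nCNV) (hSCUT : St_SCUT) : St_fRE := by
  intro L U _ _ hW M b x u s hM hb hbM hx hN hs
  obtain ⟨hO1, hO2, hO3, -⟩ := hORB L U hW.mon
  obtain ⟨-, hC2⟩ := hCNV L U hW
  have hconn := (hC2 b u hb).1
  have hxb : insert x b ⊆ M := Set.insert_subset hx hbM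
  -- two points of the orbit which are separated over `x, b`
  have h2 : ∃ u₂ ∈ Orb L b u, u₂ ∉ Orb L (insert x b) u := by
    by_contra hcon
    push Not at hcon
    exact hN (Set.Subset.antisymm (hO3 b (insert x b) u (Set.subset_insert x b)) hcon)
  obtain ⟨u₂, hu₂, hu₂'⟩ := h2
  have hne : u ≠ u₂ := by
    intro h
    apply hu₂'
    rw [← h]
    exact hO1 _ u
  have hzz : ∃ z ∈ Orb L b u, ∃ z' ∈ Orb L b u, z < z' ∧ z' ∉ Orb L (insert x b) z := by
    rcases lt_or_gt_of_ne hne with h | h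
    · exact ⟨u, hO1 b u, u₂, hu₂, h, hu₂'⟩
    · refine ⟨u₂, hu₂, u, hO1 b u, h, ?_⟩
      intro h'
      apply hu₂'
      rw [hO2 _ u₂ u h']
      exact hO1 _ u₂
  obtain ⟨z, hz, z', hz', hlt, hnz⟩ := hzz
  obtain ⟨K, hK, hKL, hzK, hz'K⟩ := hSCUT L U hW (insert x b) z z' (hb.insert x) hlt hnz
  cases s with
  | false =>
    have hY : (insert x b).Definable₁ L (K ∩ Cls false (Orb L b u)) :=
      Set.Definable.inter hK (Set.Definable.mono hs (Set.subset_insert x b))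
    have hYne : (K ∩ Cls false (Orb L b u)).Nonempty :=
      ⟨z, hzK, z, hz, (show z ≤ z from le_rfl)⟩
    obtain ⟨y, ⟨hyK, o, ho, hoy⟩, hyM⟩ := hM _ (Set.Definable.mono hY hxb) hYne
    have hoy' : o ≤ y := hoy
    refine ⟨y, hconn.out ho hz' ⟨hoy', ?_⟩, hyM⟩
    by_contra h
    exact hz'K (hKL y hyK z' (not_le.1 h).le)
  | true =>
    have hY : (insert x b).Definable₁ L (Kᶜ ∩ Cls true (Orb L b u)) :=
      Set.Definable.inter (Set.Definable.compl hK) (Set.Definable.mono hs (Set.subset_insert x b))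
    have hYne : (Kᶜ ∩ Cls true (Orb L b u)).Nonempty :=
      ⟨z', hz'K, z', hz', (show z' ≤ z' from le_rfl)⟩
    obtain ⟨y, ⟨hyK, o, ho, hoy⟩, hyM⟩ := hM _ (Set.Definable.mono hY hxb) hYne
    have hoy' : y ≤ o := hoy
    refine ⟨y, hconn.out hz ho ⟨?_, hoy'⟩, hyM⟩
    by_contra h
    exact hyK (hKL z hzK y (not_le.1 h).le)

end Pool.Agent.WOM
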