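import Pool.Agent.WOL.StF
import Pool.Agent.WOM.TRW

/-! WOL: module fRW, invariance under isomorphisms (helper33; the first lemmas are those of SRW.lean). -/

set_option autoImplicit false

namespace Pool.Agent.WOM

open FirstOrder.Language Set
open scoped FirstOrder

section

variable {L : FirstOrder.Language.{0, 0}} {M N : Type} [L.Structure M] [L.Structure N]

private theorem fRW_def {α : Type} (g : M ≃[L] N) (A : Set M) (s : Set (α → M))
    (h : A.Definable L s) :
    (g '' A).Definable L {v : α → N | (fun i => g.symm (v i)) ∈ s} := by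
  rw [Set.definable_iff_exists_formula_sum] at h ⊢
  obtain ⟨φ, hφ⟩ := h
  refine ⟨φ.relabel (Sum.map (fun a : A => (⟨g a, mem_image_of_mem g a.2⟩ : ↥(g '' A))) id), ?_⟩
  ext v
  rw [Set.mem_ofPred_eq, Set.mem_ofPred_eq, FirstOrder.Language.Formula.realize_relabel]
  have h2 : (fun i => g.symm (v i)) ∈ s ↔
      φ.Realize (Sum.elim (fun a : A => (a : M)) (fun i => g.symm (v i))) := by
    rw [hφ]
    rfl
  have h3 : φ.Realize (Sum.elim (fun a : A => (a : M)) (fun i => g.symm (v i))) ↔
      φ.Realize (g ∘ Sum.elim (fun a : A => (a : M)) (fun i => g.symm (v i))) :=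
    (FirstOrder.Language.StrongHomClass.realize_formula g φ).symm
  have h4 : g ∘ Sum.elim (fun a : A => (a : M)) (fun i => g.symm (v i)) =
      Sum.elim (fun a : ↥(g '' A) => (a : N)) v ∘
        Sum.map (fun a : A => (⟨g a, mem_image_of_mem g a.2⟩ : ↥(g '' A))) id := by
    funext i
    rcases i with a | i
    · rfl
    · show g (g.symm (v i)) = v i
      exact g.apply_symm_apply _
  rw [← h4, ← h3, ← h2]

private theorem fRW_sat (g : M ≃[L] N) (h : SatM L M) : SatM L N := by
  intro A hA F hF hfip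
  have key : (⋂₀ ((fun s => g.symm '' s) '' F)).Nonempty := by
    refine h (g.symm '' A) (hA.image _) _ ?_ ?_
    · rintro _ ⟨s, hs, rfl⟩
      exact TRW_def g.symm A s (hF s hs)
    · intro G hG hGf
      have key2 : (⋂₀ ((fun t => g '' t) '' G)).Nonempty := by
        refine hfip _ ?_ (hGf.image _)
        rintro _ ⟨t, ht, rfl⟩
        obtain ⟨s, hs, rfl⟩ := hG ht
        have h1 : g '' (g.symm '' s) = s := by
          rw [image_image]
          simp only [g.apply_symm_apply]
          exact image_id' s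
        show g '' (g.symm '' s) ∈ F
        rw [h1]
        exact hs
      obtain ⟨y, hy⟩ := key2
      refine ⟨g.symm y, fun t ht => ?_⟩
      obtain ⟨x, hx, hxy⟩ : y ∈ g '' t := hy _ (mem_image_of_mem _ ht)
      rw [← hxy, g.symm_apply_apply]
      exact hx
  obtain ⟨x, hx⟩ := key
  refine ⟨g x, fun s hs => ?_⟩
  have h1 : x ∈ g.symm '' s := hx _ (mem_image_of_mem _ hs)
  exact (TRW_mem g s x).1 h1

private theorem fRW_typ (g : M ≃[L] N) (A : Set M) (a : M) :
    g '' {x | Eqv L A a x} = {x | Eqv L (g '' A) (g a) x} := by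
  ext y
  constructor
  · rintro ⟨x, hx, rfl⟩
    exact TRW_eqv g A a x hx
  · intro hy
    have h1 := TRW_eqv g.symm (g '' A) (g a) y hy
    rw [TRW_sym, g.symm_apply_apply] at h1
    exact ⟨g.symm y, h1, g.apply_symm_apply _⟩

private theorem fRW_cv (g : M ≃[L] N) (lt : L.Formula (Fin 2)) (P : Set M) (E : M → M → Prop)
    (h : CvE L lt P E) : CvE L lt (g '' P) (fun x y => E (g.symm x) (g.symm y)) := by
  obtain ⟨h1, h2, h3, h4⟩ := h
  refine ⟨?_, ?_, ?_, ?_⟩
  · rintro _ ⟨x, hx, rfl⟩
    simp only [g.symm_apply_apply]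
    exact h1 x hx
  · rintro _ ⟨x, hx, rfl⟩ _ ⟨y, hy, rfl⟩
    simp only [g.symm_apply_apply]
    exact h2 x hx y hy
  · rintro _ ⟨x, hx, rfl⟩ _ ⟨y, hy, rfl⟩ _ ⟨w, hw, rfl⟩
    simp only [g.symm_apply_apply]
    exact h3 x hx y hy w hw
  · rintro _ ⟨x, hx, rfl⟩ _ ⟨y, hy, rfl⟩ _ ⟨w, hw, rfl⟩ hxy hyw
    simp only [g.symm_apply_apply]
    exact h4 x hx y hy w hw ((TRW_lt g lt x y).2 hxy) ((TRW_lt g lt y w).2 hyw)

private theorem fRW_fin (g : M ≃[L] N) (lt : L.Formula (Fin 2)) (h : FinC L N lt) :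
    FinC L M lt := by
  intro A a hA
  refine Set.Finite.of_injOn (f := fun R : Set (M × M) => Prod.map g g '' R) ?_
    ((g.injective.prodMap g.injective).image_injective.injOn) (h (g '' A) (g a) (hA.image g))
  rintro _ ⟨E, hE, hcv, rfl⟩
  refine ⟨fun x y => E (g.symm x) (g.symm y), fRW_def g A _ hE, ?_, ?_⟩
  · rw [← fRW_typ]
    exact fRW_cv g lt _ E hcv
  · have h1 : ∀ y, Eqv L (g '' A) (g a) y ↔ Eqv L A a (g.symm y) := by
      intro y
      constructor
      · intro hy
        have h2 : y ∈ g '' {x | Eqv L A a x} := by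
          rw [fRW_typ]
          exact hy
        obtain ⟨x, hx, rfl⟩ := h2
        rw [g.symm_apply_apply]
        exact hx
      · intro hy
        have h2 := TRW_eqv g A a _ hy
        rwa [g.apply_symm_apply] at h2
    ext ⟨x, y⟩
    constructor
    · rintro ⟨⟨x', y'⟩, ⟨hx, hy, hxy⟩, heq⟩
      have e1 : g x' = x := congrArg Prod.fst heq
      have e2 : g y' = y := congrArg Prod.snd heq
      subst e1
      subst e2
      refine ⟨?_, ?_, ?_⟩
      · show Eqv L (g '' A) (g a) (g x')
        rw [h1, g.symm_apply_apply]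
        exact hx
      · show Eqv L (g '' A) (g a) (g y')
        rw [h1, g.symm_apply_apply]
        exact hy
      · show E (g.symm (g x')) (g.symm (g y'))
        rw [g.symm_apply_apply, g.symm_apply_apply]
        exact hxy
    · rintro ⟨hx, hy, hxy⟩
      exact ⟨(g.symm x, g.symm y), ⟨(h1 x).1 hx, (h1 y).1 hy, hxy⟩,
        Prod.ext (g.apply_symm_apply x) (g.apply_symm_apply y)⟩

end

theorem thm_fRW : St_fRW := by
  intro L T lt h U _ hc hi hT hsat
  obtain ⟨e⟩ : Nonempty (U ≃ ℕ) := nonempty_equiv_of_countable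
  let S : L.Structure ℕ := e.inducedStructure
  let g : U ≃[L] ℕ := e.inducedStructureEquiv
  have h1 : ℕ ⊨ T := FirstOrder.Language.StrongHomClass.theory_model g
  obtain ⟨h2, h3⟩ := h S h1
  exact ⟨TRW_wo g lt h2, fRW_fin g lt (h3 (fRW_sat g hsat))⟩

end Pool.Agent.WOM
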