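import Pool.Agent.WOL.StF

/-!
WOL, module fSA: over a large finite set the types with two nondefinable sides are omitted.
-/

set_option autoImplicit false

namespace Pool.Agent.WOM

open FirstOrder.Language Set
open scoped FirstOrder

theorem thm_fSA (hORB : St_ORB) (hNSB : St_NSB) (hGER : St_nGER) (hSDI : St_nSDI) : St_fSA := by
  intro L U _ _ hW hNE M a b hRp hab hb x hxM
  obtain ⟨-, -, o3, -⟩ := hORB L U hW.mon
  obtain ⟨n1, -⟩ := hNSB L U
  obtain ⟨-, -, -, -, -, -, -, g8⟩ := hGER L U hW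
  obtain ⟨s1, s2, -⟩ := hSDI L U hW
  by_contra hcon
  have hno : ∀ t : Bool, ¬ SD L b x t := fun t h => hcon ⟨t, h⟩
  have h1 : x ∈ Ge L ∅ x true b := hNE b x true hb (hno true)
  have h2 : x ∈ Ge L ∅ x false b := hNE b x false hb (hno false)
  have h3 : Orb L b x = Orb L ∅ x := g8 ∅ b x x (empty_subset _) hb h1 h2
  have h4 : ¬ SD L ∅ x true := fun h =>
    hno true ((s2 ∅ b x x true (empty_subset _) hb h1).2 h)
  have h5 : ¬ Isd L ∅ x := fun h => h4 ((s1 ∅ x finite_empty).1 h).1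
  obtain ⟨v, hva, hv⟩ := hRp x hxM h5
  have h6 : Orb L (insert v ∅) x ≠ Orb L ∅ x := n1 ∅ x v hv
  apply h6
  apply Subset.antisymm
  · exact o3 ∅ (insert v ∅) x (empty_subset _)
  · rw [← h3]
    exact o3 (insert v ∅) b x (insert_subset (hab hva) (empty_subset _))

end Pool.Agent.WOM
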