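import Pool.Agent.WOL.StF

/-!
WOL, module fTR: triviality.
-/

set_option autoImplicit false

namespace Pool.Agent.WOM

open FirstOrder.Language Set
open scoped FirstOrder

theorem thm_fTR (hORB : St_ORB) (hNSB : St_NSB) (hSTT : St_STT) : St_fTR := by
  intro L _ U _ _ hW hS A x y z hA hxy hxz hyz hN
  obtain ⟨o1, o2, -⟩ := hORB L U hW.mon
  obtain ⟨n1, n2, -⟩ := hNSB L U
  have key : ∀ a b : U, ¬ Nn L A a b → ∀ a' ∈ Orb L A a, ∀ b' ∈ Orb L A b,
      Orb L (insert a' A) b' = Orb L A b := by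
    intro a b hab a' ha' b' hb'
    have h1 : Orb L A a' = Orb L A a := o2 A a a' ha'
    have h2 : Orb L A b' = Orb L A b := o2 A b b' hb'
    have h3 : ¬ Nn L A a' b' := by
      intro h
      refine hab (n2 A a' b' a b ?_ ?_ h)
      · rw [h1]
        exact o1 A a
      · rw [h2]
        exact o1 A b
    have h4 : Orb L (insert a' A) b' = Orb L A b' := by
      by_contra h
      exact h3 h
    rw [h4, h2]
  refine hSTT L U hW hS A (Orb L A z) (Orb L A x) (Orb L A y) ⟨hA, ⟨⟨z, o1 A z⟩, ⟨x, o1 A x⟩,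
    ⟨y, o1 A y⟩⟩, ?_, ?_, ?_, ?_, ?_, ?_⟩
  · intro y' hy' x' hx'
    exact key x z hxz y' hy' x' hx'
  · intro x' hx' y' hy'
    exact key z x (fun h => hxz (n1 A z x h)) x' hx' y' hy'
  · intro c hc
    exact o2 A y c hc
  · intro x' hx' c hc
    exact key z y (fun h => hyz (n1 A z y h)) x' hx' c hc
  · intro y' hy' c hc
    exact key x y hxy y' hy' c hc
  · refine ⟨z, o1 A z, x, o1 A x, y, o1 A y, ?_⟩
    intro h
    refine hN ?_
    have h5 : Orb L (insert x A) z = Orb L A z := by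
      by_contra h6
      exact hxz h6
    rw [h, h5]

end Pool.Agent.WOM
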