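import Pool.Agent.WOL.StF
import Pool.Agent.WOM.WMX

/-!
WOL [fWN]: the standing hypotheses (as SWN.lean)
-/

set_option autoImplicit false

namespace Pool.Agent.WOM

open FirstOrder.Language Set
open scoped FirstOrder

theorem thm_fWN (hAUT : ∀ (L : FirstOrder.Language.{0, 0}) (U : Type) [L.Structure U], St_AUT L U)
    (hNE : St_fNE) : St_fWN := by
  intro L _ U S lt hM hW hF hSc
  let _ := WMX_ord lt hW
  have hord : (∅ : Set U).Definable L {v : Fin 2 → U | v 0 < v 1} := by
    rw [Set.empty_definable_iff]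
    refine ⟨lt, ?_⟩
    ext v
    have h1 : (![v 0, v 1] : Fin 2 → U) = v := by
      funext i
      fin_cases i <;> rfl
    show lt.Realize ![v 0, v 1] ↔ lt.Realize v
    rw [h1]
  have hfin : ∀ s : Set U, (univ : Set U).Definable₁ L s →
      ∃ (n : ℕ) (C : Fin n → Set U), (∀ i, (C i).OrdConnected) ∧ s = ⋃ i, C i := by
    intro s hs
    obtain ⟨n, C, hC, hs'⟩ := hW.fin s hs
    refine ⟨n, C, fun i => ?_, hs'⟩
    refine ⟨fun x hx z hz y hy => ?_⟩
    rcases hy.1 with h1 | h1
    · rw [← h1]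
      exact hx
    · rcases hy.2 with h2 | h2
      · rw [h2]
        exact hz
      · exact hC i x hx z hz y h1 h2
  have hWn : Wn L U := { mon := hM, ord := hord, fin := hfin }
  have hEO : ∀ (A : Set U) (x : U), A.Finite → Orb L A x = {y | Eqv L A x y} := by
    intro A x hA
    ext y
    exact ((hAUT L U hM).2.2 A x y hA).symm
  refine ⟨WMX_ord lt hW, hWn, hNE L U hWn hSc fun A a hA => ?_⟩
  refine (hF A a hA).subset ?_
  rintro R ⟨E, hE, hcv, hR⟩
  refine ⟨E, hE, ?_, ?_⟩
  · rw [← hEO A a hA]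
    exact hcv
  · rw [hR, hEO A a hA]
    rfl

end Pool.Agent.WOM
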