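import Pool.Agent.WOM.NAM
import Pool.Agent.WOM.nSMB
import Pool.Agent.WOM.nSDI
import Pool.Agent.WOM.nISO
import Pool.Agent.WOM.nTRA
import Pool.Agent.WOM.SCUT
import Pool.Agent.WOM.SBAS
import Pool.Agent.WOM.SEXT
import Pool.Agent.WOM.SEV
import Pool.Agent.WOM.SMOD
import Pool.Agent.WOM.SIT
import Pool.Agent.WOM.SCA
import Pool.Agent.WOM.SEXR
import Pool.Agent.WOM.SLP
import Pool.Agent.WOM.SDA
import Pool.Agent.WOM.SDB
import Pool.Agent.WOM.SDC
import Pool.Agent.WOM.SHA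
import Pool.Agent.WOM.SHB
import Pool.Agent.WOM.SHC
import Pool.Agent.WOM.SHD
import Pool.Agent.WOM.SHE
import Pool.Agent.WOM.SHF
import Pool.Agent.WOM.SHG
import Pool.Agent.WOM.SHH
import Pool.Agent.WOM.SHI
import Pool.Agent.WOM.SHK
import Pool.Agent.WOM.SFX
import Pool.Agent.WOM.SQA
import Pool.Agent.WOM.SQC
import Pool.Agent.WOM.SKD
import Pool.Agent.WOM.SFR
import Pool.Agent.WOM.SRB
import Pool.Agent.WOM.SRC
import Pool.Agent.WOM.SRD
import Pool.Agent.WOM.SRE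
import Pool.Agent.WOM.SRF
import Pool.Agent.WOM.SRQ
import Pool.Agent.WOM.SAT
import Pool.Agent.WOM.SMM
import Pool.Agent.WOM.SMJ
import Pool.Agent.WOM.SLE
import Pool.Agent.WOM.SNO
import Pool.Agent.WOM.SNS
import Pool.Agent.WOM.SEA
import Pool.Agent.WOM.SEB
import Pool.Agent.WOM.SEH
import Pool.Agent.WOM.SEQ
import Pool.Agent.WOM.SDL
import Pool.Agent.WOM.SEZ
import Pool.Agent.WOM.SEP
import Pool.Agent.WOM.STA
import Pool.Agent.WOM.STO
import Pool.Agent.WOM.STD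
import Pool.Agent.WOM.STF
import Pool.Agent.WOM.STG
import Pool.Agent.WOM.STH
import Pool.Agent.WOM.STT
import Pool.Agent.WOL.fOR
import Pool.Agent.WOL.fOS
import Pool.Agent.WOL.fDF
import Pool.Agent.WOL.fCE
import Pool.Agent.WOL.fNE
import Pool.Agent.WOL.fTR
import Pool.Agent.WOL.fIN
import Pool.Agent.WOL.fMS
import Pool.Agent.WOL.fFC
import Pool.Agent.WOL.fSA
import Pool.Agent.WOL.fRE
import Pool.Agent.WOL.fPE
import Pool.Agent.WOL.fCO
import Pool.Agent.WOL.fBF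
import Pool.Agent.WOL.fCT
import Pool.Agent.WOL.fWN
import Pool.Agent.WOL.fRW
import Pool.Agent.WOL.fFA

/-!
WOL: assembly, Vaught's conjecture for weakly o-minimal theories with locally finite convexity
(helper8; as NAE.lean by helper41).
-/

set_option autoImplicit false

namespace Pool.Agent.WOM

open FirstOrder.Language Set
open scoped FirstOrder

theorem thm_LFC : St_LFC := by
  have hDEF1 := thm_DEF1 thm_DEFF
  have hORB := thm_ORB hDEF1
  have hDFN := thm_DFN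
  have hNSB := thm_NSB
  have hnCNV := thm_nCNV hORB
  have hnEVD := thm_nEVD
  have hnGEX := thm_nGEX hDFN hORB hnCNV hnEVD
  have hnGER := thm_nGER hORB hnCNV hnGEX
  have hnFFR := thm_nFFR hORB hnCNV hnGEX hnGER
  have hnTRA := thm_nTRA hORB hNSB hnGEX hnGER
  have hnSMA := thm_nSMA hORB hNSB hnGEX hnGER hnFFR
  have hnSMB := thm_nSMB hDFN hORB hnCNV hnGEX hnGER
  have hnSDI := thm_nSDI hDFN hORB hnCNV
  have hnISO := thm_nISO hNSB hnSMA hnSMB hnSDI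
  have hnFAR := thm_nFAR hORB hnCNV hnGEX hnGER hnFFR
  have hAUT : ∀ (L : FirstOrder.Language.{0, 0}) (U : Type) [L.Structure U], St_AUT L U :=
    fun L U _ => thm_AUT thm_DEFF hDEF1 L U
  have hCPL : ∀ (L : FirstOrder.Language.{0, 0}) (U : Type) [L.Structure U], St_CPL L U :=
    fun L U _ => thm_CPL hAUT L U
  have hSCUT := thm_SCUT hORB hnCNV
  have hSBAS := thm_SBAS
  have hSEXT := thm_SEXT hSBAS
  have hSEV := thm_SEV hSBAS
  have hSMOD := thm_SMOD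
  have hSIT := thm_SIT hSBAS hSEXT
  have hSCA := thm_SCA hSEV
  have hSEXR := thm_SEXR hSBAS hSEXT
  have hSLP := thm_SLP hSBAS hSEXT hSEV hSIT
  have hSDA := thm_SDA hSBAS hSEXT hSEV hSEXR
  have hSDB := thm_SDB hSBAS hSEV hSEXR hSDA
  have hSDC := thm_SDC hSBAS hSEXT hSEV hSCA hSDB
  have hSHA := thm_SHA hSBAS hSEXT
  have hSHB := thm_SHB hSBAS hSEXT hSLP
  have hSHC := thm_SHC hSBAS hSEXT hSEXR hSHA
  have hSHD := thm_SHD hSBAS hSEXT hSEV hSHA hSHB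
  have hSHE := thm_SHE hSBAS hSEXT
  have hSHF := thm_SHF hSBAS hSEXR hSHE
  have hSHG := thm_SHG hSBAS hSEXR
  have hSHH := thm_SHH hSBAS hSEXT hSEV hSEXR hSIT hSHF hSHG
  have hSHI := thm_SHI hSBAS hSEXT hSCA hSEXR hSIT hSHA hSHE hSHH
  have hSHK := thm_SHK hSBAS hSEXT hSEV hSDC hSHC hSHD hSHI
  have hSFX := thm_SFX
  have hSQA := thm_SQA hORB hSBAS hSEV hSFX
  have hSQC := thm_SQC hORB hSBAS hSEXT hSQA
  have hSKD := thm_SKD hSBAS hSQA hSQC hSHK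
  have hSFR := thm_SFR hSFX
  have hSRB := thm_SRB hSCUT hSBAS hSEXT hSFX hSQA hSQC hSKD hSFR
  have hSRC := thm_SRC hSRB hSFR
  have hSRD := thm_SRD hORB hSCUT hSBAS hSQA hSFR hSRC
  have hSRE := thm_SRE hSQA hSFR hSRB hSRC
  have hSRF := thm_SRF hSBAS hSEXT hSQA hSQC hSFR hSRC hSRD
  have hSRQ := thm_SRQ hSRE
  have hSAT := thm_SAT hORB hnSDI hnISO
  have hSMM := thm_SMM hSAT
  have hSMJ := thm_SMJ hSRF hSMM
  have hSLE := thm_SLE hSFR hSQA
  have hSNO := thm_SNO hSRQ hSMJ hSLE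
  have hSNS := thm_SNS hSNO
  have hSEA := thm_SEA hSFX hnCNV
  have hSEB := thm_SEB hORB hnCNV hnGEX hnFAR
  have hSEH := thm_SEH hnCNV hnEVD hnGEX hnFFR hnFAR hORB hSEA hSEB
  have hSEQ := thm_SEQ hSEA hSEB hSEH
  have hSDL := thm_SDL
  have hSEZ := thm_SEZ hSNS hSEQ hSDL
  have hSEP := thm_SEP
  have hSTA := thm_STA
  have hSTO := thm_STO hnGER hnSMA hSTA
  have hSTD := thm_STD hORB hNSB hnCNV hnGEX hnGER hnSMA hSEP hSTA
  have hSTF := thm_STF hORB hnCNV hSFX hnGEX hnGER hnFFR hnFAR hSCUT hSEP hSTA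
  have hSTG := thm_STG hSEP hSTA
  have hSTH := thm_STH hORB hSFX hnGEX hnGER hnFFR hnFAR hSTA hSTF hSTG hSEZ
  have hSTT := thm_STT hSTO hSTD hSTH hSDL
  have hOR := thm_fOR hORB hnCNV hSFX thm_SDF hSCUT hSEZ
  have hOS := thm_fOS hSDL hOR
  have hDF := thm_fDF hORB hnCNV hSCUT
  have hCE := thm_fCE hORB hnCNV hSCUT hDF
  have hNE := thm_fNE hORB hnGER hnSDI hSDL hOS hCE
  have hTR := thm_fTR hORB hNSB hSTT
  have hIN := thm_fIN hTR
  have hMS := thm_fMS hORB hNSB hnSDI hSMM hIN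
  have hFC := thm_fFC hNSB hMS
  have hSA := thm_fSA hORB hNSB hnGER hnSDI
  have hRE := thm_fRE hORB hnCNV hSCUT
  have hPE := thm_fPE hnGEX hnGER hnSMA hnSMB hnSDI hSA hRE
  have hCO := thm_fCO hNSB hnGEX hnGER hnTRA hnSDI hPE
  have hBF := thm_fBF hORB hnGEX hnGER hnSDI
  have hCT := thm_fCT hFC hCO hBF
  have hWN := thm_fWN hAUT hNE
  exact thm_fFA (thm_ULT hDEF1) (thm_SUBM hDEF1) (thm_HOMG hDEF1) (thm_TRC (thm_EMB hDEF1))
    thm_fRW hWN thm_SML (thm_SCU (thm_PULL hDEF1)) thm_MSB hCT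

end Pool.Agent.WOM
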