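import Pool.Agent.WOL.StE
import Pool.Agent.WOM.BFM

/-!
WOL, module gBF: models with the same code are isomorphic (end game).
-/

set_option autoImplicit false
set_option linter.unusedVariables false

namespace Pool.Agent.WOM

open FirstOrder.Language Set
open scoped FirstOrder

private theorem gBF_forth (hORB : St_ORB) (hNSB : St_NSB)
    (L : FirstOrder.Language.{0, 0}) (U : Type) [L.Structure U]
    (hU : Mon L U) (B V M M' : Set U) (hM : Hd L B V M) (hM' : Hd L B V M')
    (A : Set U) (g : U ≃[L] U) (hA : A.Finite) (hAM : A ⊆ M) (hBA : B ⊆ A)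
    (hgB : ∀ b ∈ B, g b = b) (hgA : g '' A ⊆ M') (x : U) (hx : x ∈ M) :
    ∃ g' : U ≃[L] U, (∀ b ∈ A, g' b = g b) ∧ g' x ∈ M' := by
  obtain ⟨o1, o2, o3, o4, o5, o6, o7, o8, o9⟩ := hORB L U hU
  obtain ⟨n1, n2, n3, n4, n5, n6⟩ := hNSB L U
  have hgAf : (g '' A).Finite := hA.image g
  have key : ∃ y ∈ M', y ∈ Orb L (g '' A) (g x) := by
    by_contra hcon
    have h0 : Orb L (g '' A) (g x) ∩ M' = ∅ := by
      rw [eq_empty_iff_forall_notMem]
      rintro y ⟨hy1, hy2⟩
      exact hcon ⟨y, hy2, hy1⟩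
    obtain ⟨v, hv, hN⟩ := hM'.cov (g '' A) (g x) hgAf
      (fun b hb => ⟨b, hBA hb, hgB b hb⟩) hgA h0
    have h1 := n3 g.symm (g '' A) (g x) v hN
    have e1 : g.symm '' (g '' A) = A := by
      rw [image_image]
      simp
    rw [e1, FirstOrder.Language.Equiv.symm_apply_apply] at h1
    have h2 : g.symm v ∈ Orb L B v := by
      refine ⟨g.symm, fun b hb => ?_, rfl⟩
      have h3 := congrArg g.symm (hgB b hb)
      rw [FirstOrder.Language.Equiv.symm_apply_apply] at h3
      exact h3.symm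
    have hu := (hM.un v hv).1
    have h4 : g.symm v ∈ Orb L A v := by
      rw [hu A hA hBA hAM]
      exact h2
    have h5 : v ∈ Orb L A (g.symm v) := by
      rw [o2 A v _ h4]
      exact o1 A v
    have h6 : Nn L A x v := n2 A x (g.symm v) x v (o1 A x) h5 h1
    refine h6 ?_
    rw [hu A hA hBA hAM, hu (insert x A) (hA.insert x) (hBA.trans (subset_insert _ _))
      (insert_subset hx hAM)]
  obtain ⟨y, hy, τ, hτ, hτx⟩ := key
  refine ⟨τ.comp g, fun b hb => ?_, ?_⟩
  · show τ (g b) = g b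
    exact hτ _ (mem_image_of_mem g hb)
  · show τ (g x) ∈ M'
    rw [hτx]
    exact hy

theorem thm_gBF (hORB : St_ORB) (hNSB : St_NSB) : St_gBF := by
  intro L U _ hU B V M M' hB hM hM'
  have hcU : Countable U := hU.ctb
  refine thm_BFM L U M M' (Set.to_countable _) (Set.to_countable _)
    (fun A g => B ⊆ A ∧ (∀ b ∈ B, g b = b) ∧ g '' A ⊆ M') ?_ ?_ ?_ ?_
  · refine ⟨B, FirstOrder.Language.Equiv.refl L U, hB, hM.sub, subset_rfl, fun b _ => rfl, ?_⟩
    rintro _ ⟨b, hb, rfl⟩
    exact hM'.sub hb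
  · rintro A g hA hAM ⟨-, -, h⟩
    exact h
  · rintro A g hA hAM ⟨h1, h2, h3⟩ x hx
    obtain ⟨g', hg1, hg2⟩ := gBF_forth hORB hNSB L U hU B V M M' hM hM'
      A g hA hAM h1 h2 h3 x hx
    refine ⟨g', hg1, h1.trans (subset_insert _ _), fun b hb => ?_, ?_⟩
    · rw [hg1 b (h1 hb)]
      exact h2 b hb
    · rintro _ ⟨b, rfl | hb, rfl⟩
      · exact hg2
      · rw [hg1 b hb]
        exact h3 ⟨b, hb, rfl⟩
  · rintro A g hA hAM ⟨h1, h2, h3⟩ y hy
    have e1 : g.symm '' (g '' A) = A := by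
      rw [image_image]
      simp
    obtain ⟨h, hh1, hh2⟩ := gBF_forth hORB hNSB L U hU B V M' M hM' hM
      (g '' A) g.symm (hA.image g) h3 (fun b hb => ⟨b, h1 hb, h2 b hb⟩) (fun b hb => by
        have h3 := congrArg g.symm (h2 b hb)
        rw [FirstOrder.Language.Equiv.symm_apply_apply] at h3
        exact h3.symm)
      (by rw [e1]; exact hAM) y hy
    have hga : ∀ c ∈ A, h.symm c = g c := by
      intro c hc
      have h5 := hh1 (g c) ⟨c, hc, rfl⟩
      rw [FirstOrder.Language.Equiv.symm_apply_apply] at h5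
      calc h.symm c = h.symm (h (g c)) := by rw [h5]
        _ = g c := FirstOrder.Language.Equiv.symm_apply_apply _ _
    refine ⟨h.symm, h y, hh2, hga, FirstOrder.Language.Equiv.symm_apply_apply _ _,
      h1.trans (subset_insert _ _), fun b hb => ?_, ?_⟩
    · rw [hga b (h1 hb)]
      exact h2 b hb
    · rintro _ ⟨b, rfl | hb, rfl⟩
      · rw [FirstOrder.Language.Equiv.symm_apply_apply]
        exact hy
      · rw [hga b hb]
        exact h3 ⟨b, hb, rfl⟩

end Pool.Agent.WOM
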