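import Pool.Agent.WOL.StE

/-!
WOL gFH: finitely many ends give codes (statement and proof: helper8; Lean: helper2).
-/

set_option autoImplicit false
set_option linter.unusedVariables false

namespace Pool.Agent.WOM

open FirstOrder.Language Set
open scoped FirstOrder

/-- [gFH] -/
theorem thm_gFH (hORB : St_ORB) (hNSB : St_NSB) (hCNV : St_nCNV) (hGEX : St_nGEX)
    (hGER : St_nGER) (hSDI : St_nSDI) (hUNG : St_nUNG) (hLT : St_gLT) : St_gFH := by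
  intro L U _ _ hW hFE M hM
  classical
  obtain ⟨-, -, nsb3, -⟩ := hNSB L U
  obtain ⟨orb1, orb2, -⟩ := hORB L U hW.mon
  have gex := hGEX L U hW
  obtain ⟨-, ger2, -, -, ger5, -⟩ := hGER L U hW
  obtain ⟨sdi1, sdi2, -, sdi4, -⟩ := hSDI L U hW
  obtain ⟨-, cnv2⟩ := hCNV L U hW
  obtain ⟨Y₀, V₀, hY₀, hV₀, hσ, hSD, hcov⟩ := hFE
  obtain ⟨σ, hσM⟩ := hσ M hM
  -- transport to `M`
  obtain ⟨Y, hY⟩ : ∃ Y : Set U, Y = σ '' Y₀ := ⟨_, rfl⟩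
  obtain ⟨V, hV⟩ : ∃ V : Set (U × Bool), V = (fun p : U × Bool => (σ p.1, p.2)) '' V₀ := ⟨_, rfl⟩
  have hYf : Y.Finite := by rw [hY]; exact hY₀.image _
  have hVf : V.Finite := by rw [hV]; exact hV₀.image _
  have hYM : Y ⊆ M := by rw [hY]; exact hσM
  have hSD' : ∀ p ∈ V, ¬ SD L Y p.1 p.2 := by
    rw [hV, hY]
    rintro p ⟨q, hq, rfl⟩ h
    exact hSD q hq (((sdi4 σ Y₀ q.1).2 q.2).mp h)
  have hcov' : ∀ (A : Set U) (w : U), A.Finite → Y ⊆ A → ¬ Isd L A w →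
      ∃ p ∈ V, ∀ u ∈ Ge L Y p.1 p.2 A, Nn L A w u := by
    intro A w hA hYA hAw
    have hAe : σ '' (σ.symm '' A) = A := by
      rw [← image_comp]
      have h : (σ ∘ σ.symm : U → U) = id := by
        funext x
        exact σ.apply_symm_apply x
      rw [h, image_id]
    have hwe : σ (σ.symm w) = w := σ.apply_symm_apply w
    have h1 : Y₀ ⊆ σ.symm '' A := by
      intro y hy
      refine ⟨σ y, hYA ?_, σ.symm_apply_apply y⟩
      rw [hY]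
      exact mem_image_of_mem _ hy
    have h2 : ¬ Isd L (σ.symm '' A) (σ.symm w) := by
      intro h
      have h3 := (sdi4 σ (σ.symm '' A) (σ.symm w)).1.mpr h
      rw [hAe, hwe] at h3
      exact hAw h3
    obtain ⟨p, hp, hpu⟩ := hcov (σ.symm '' A) (σ.symm w) (hA.image _) h1 h2
    refine ⟨(σ p.1, p.2), ?_, ?_⟩
    · rw [hV]
      exact mem_image_of_mem _ hp
    · intro u hu
      have h3 := ger5 σ Y₀ (σ.symm '' A) p.1 p.2
      rw [hAe, ← hY] at h3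
      have hu' : u ∈ σ '' Ge L Y₀ p.1 p.2 (σ.symm '' A) := by
        rw [← h3]
        exact hu
      obtain ⟨u₀, hu₀, rfl⟩ := hu'
      have h4 := nsb3 σ _ _ _ (hpu u₀ hu₀)
      rw [hAe, hwe] at h4
      exact h4
  -- the closed ends
  have hD : ∀ p : U × Bool, ∃ D' : Set U, D'.Finite ∧ Y ⊆ D' ∧ D' ⊆ M ∧
      ((∃ D : Set U, D.Finite ∧ Y ⊆ D ∧ D ⊆ M ∧ Ge L Y p.1 p.2 D ∩ M = ∅) →
        ∃ D : Set U, D ⊆ D' ∧ D.Finite ∧ Y ⊆ D ∧ ∀ u ∈ Ge L Y p.1 p.2 D, Unc L D' u M) := by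
    intro p
    by_cases h : ∃ D : Set U, D.Finite ∧ Y ⊆ D ∧ D ⊆ M ∧ Ge L Y p.1 p.2 D ∩ M = ∅
    · obtain ⟨D, hDf, hYD, hDM, hGD⟩ := h
      obtain ⟨⟨u₀, hu₀⟩, hGe⟩ := gex Y D p.1 p.2 hYD hDf
      have hoc : (Ge L Y p.1 p.2 D).OrdConnected := by
        rw [hGe u₀ hu₀]
        exact (cnv2 D u₀ hDf).1
      obtain ⟨D', hD'f, hDD', hD'M, hU, -⟩ := hUNG L U hW M (Ge L Y p.1 p.2 D) D hM hoc ⟨u₀, hu₀⟩
        hGD hDf hDM (fun u hu => (hGe u hu).symm.subset)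
      exact ⟨D', hD'f, hYD.trans hDD', hD'M, fun _ => ⟨D, hDD', hDf, hYD, hU⟩⟩
    · exact ⟨Y, hYf, subset_rfl, hYM, fun h' => absurd h' h⟩
  choose D' hD'f hYD' hD'M hD' using hD
  obtain ⟨B, hB⟩ : ∃ B : Set U, B = Y ∪ ⋃ p ∈ V, D' p := ⟨_, rfl⟩
  have hBf : B.Finite := by
    rw [hB]
    exact hYf.union (hVf.biUnion (fun p _ => hD'f p))
  have hBM : B ⊆ M := by
    rw [hB]
    exact union_subset hYM (iUnion₂_subset (fun p _ => hD'M p))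
  have hYB : Y ⊆ B := by rw [hB]; exact subset_union_left
  have hDB : ∀ p ∈ V, D' p ⊆ B := by
    intro p hp
    rw [hB]
    exact (subset_biUnion_of_mem (u := fun p => D' p) hp).trans subset_union_right
  have hv : ∀ p : U × Bool, ∃ v : U, v ∈ Ge L Y p.1 p.2 B := fun p =>
    (gex Y B p.1 p.2 hYB hBf).1
  choose v hv using hv
  have hunc : ∀ p ∈ V, (∃ D : Set U, D.Finite ∧ Y ⊆ D ∧ D ⊆ M ∧ Ge L Y p.1 p.2 D ∩ M = ∅) →
      Unc L B (v p) M := by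
    intro p hp hcl
    obtain ⟨D, hDD', hDf, hYD, hU⟩ := hD' p hcl
    have h1 : v p ∈ Ge L Y p.1 p.2 D :=
      ger2 Y D B p.1 p.2 hYD (hDD'.trans (hDB p hp)) hBf (hv p)
    have h2 := hU (v p) h1
    intro E hE hBE hEM
    rw [h2 E hE ((hDB p hp).trans hBE) hEM, h2 B hBf (hDB p hp) hBM]
  refine ⟨B, v '' {p | p ∈ V ∧ ∃ D : Set U, D.Finite ∧ Y ⊆ D ∧ D ⊆ M ∧ Ge L Y p.1 p.2 D ∩ M = ∅},
    hBf, (hVf.subset (fun p hp => hp.1)).image v, ⟨hM, hBM, ?_, ?_⟩⟩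
  · rintro x ⟨p, ⟨hp, hcl⟩, rfl⟩
    refine ⟨hunc p hp hcl, ?_⟩
    intro hi
    have h1 := (sdi1 B (v p) hBf).mp hi
    have h2 : SD L B (v p) p.2 := by
      cases p.2
      · exact h1.2
      · exact h1.1
    exact hSD' p hp ((sdi2 Y B p.1 (v p) p.2 hYB hBf (hv p)).mp h2)
  · intro B' w hB'f hBB' hB'M hemp
    have hiso : ¬ Isd L B' w := by
      intro hi
      have h1 : M.Definable₁ L (Orb L B' w) := Set.Definable.mono hi hB'M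
      obtain ⟨x, hx⟩ := hM _ h1 ⟨w, orb1 B' w⟩
      rw [hemp] at hx
      exact hx
    obtain ⟨p, hp, hpu⟩ := hcov' B' w hB'f (hYB.trans hBB') hiso
    by_cases hcl : ∃ D : Set U, D.Finite ∧ Y ⊆ D ∧ D ⊆ M ∧ Ge L Y p.1 p.2 D ∩ M = ∅
    · refine ⟨v p, ⟨p, ⟨hp, hcl⟩, rfl⟩, hpu (v p) ?_⟩
      obtain ⟨⟨u, hu⟩, hGe⟩ := gex Y B' p.1 p.2 (hYB.trans hBB') hB'f
      have h1 : u ∈ Ge L Y p.1 p.2 B := ger2 Y B B' p.1 p.2 hYB hBB' hB'f hu
      rw [(gex Y B p.1 p.2 hYB hBf).2 (v p) (hv p)] at h1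
      rw [← hunc p hp hcl B' hB'f hBB' hB'M] at h1
      rw [hGe u hu, orb2 B' (v p) u h1]
      exact orb1 B' (v p)
    · exfalso
      obtain ⟨u, hu, hnu⟩ := hLT L U hW M Y B' w p.1 p.2 hM hB'f (hYB.trans hBB') hB'M hemp (by
        intro D hDf hB'D hDM
        rw [Set.nonempty_iff_ne_empty]
        intro h
        exact hcl ⟨D, hDf, (hYB.trans hBB').trans hB'D, hDM, h⟩)
      exact hnu (hpu u hu)

end Pool.Agent.WOM
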