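import Pool.Agent.WOL.MC2
import Pool.Agent.WOL.gFH
import Pool.Agent.WOL.gBF

/-!
WOL, MC6 (helper73): finitely many ends (`FE`): models with the same omitted finite sets of types are
isomorphic.
-/

set_option autoImplicit false
set_option linter.unusedVariables false

namespace Pool.Agent.WOM

open FirstOrder.Language Set
open scoped FirstOrder

section defs

variable (L : FirstOrder.Language.{0, 0}) {U : Type} [L.Structure U] [LinearOrder U]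

/-- the ends in `V` which are closed in `M` -/
def Mcl (Y : Set U) (V : Set (U × Bool)) (M : Set U) : Set (U × Bool) :=
  {p | p ∈ V ∧ ∃ D : Set U, D.Finite ∧ Y ⊆ D ∧ D ⊆ M ∧ Ge L Y p.1 p.2 D ∩ M = ∅}

/-- for every closed end an uncut type over the finite set `B` -/
structure Mkd (Y : Set U) (V : Set (U × Bool)) (M B : Set U) (f : U × Bool → U) : Prop where
  fin : B.Finite
  YB : Y ⊆ B
  BM : B ⊆ M
  ge : ∀ p ∈ Mcl L Y V M, f p ∈ Ge L Y p.1 p.2 B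
  unc : ∀ p ∈ Mcl L Y V M, Unc L B (f p) M
  om : ∀ p ∈ Mcl L Y V M, Orb L B (f p) ∩ M = ∅

/-- the number of the types which are not definable from the other side -/
noncomputable def Mkc (Y : Set U) (V : Set (U × Bool)) (M B : Set U) (f : U × Bool → U) : ℕ :=
  {p | p ∈ Mcl L Y V M ∧ ¬ SD L B (f p) (!p.2)}.ncard

/-- the conditions in `FE` for `Y`, `V` -/
structure Fec (Y : Set U) (V : Set (U × Bool)) : Prop where
  Yf : Y.Finite
  Vf : V.Finite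
  nsd : ∀ p ∈ V, ¬ SD L Y p.1 p.2
  cov : ∀ (A : Set U) (w : U), A.Finite → Y ⊆ A → ¬ Isd L A w →
    ∃ p ∈ V, ∀ u ∈ Ge L Y p.1 p.2 A, Nn L A w u

end defs

section

variable {L : FirstOrder.Language.{0, 0}} {U : Type} [L.Structure U] [LinearOrder U]

/-- codes exist (as gFH) -/
theorem mkd_ex (hORB : St_ORB) (hCNV : St_nCNV) (hGEX : St_nGEX) (hGER : St_nGER)
    (hUNG : St_nUNG) (hW : Wn L U) {Y : Set U} {V : Set (U × Bool)} (hF : Fec L Y V) {M : Set U}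
    (hM : IsEl L M) (hYM : Y ⊆ M) : ∃ (B : Set U) (f : U × Bool → U), Mkd L Y V M B f := by
  classical
  have gex := hGEX L U hW
  obtain ⟨-, ger2, -, -, ger5, -⟩ := hGER L U hW
  obtain ⟨-, cnv2⟩ := hCNV L U hW
  have hD : ∀ p : U × Bool, ∃ D' : Set U, D'.Finite ∧ Y ⊆ D' ∧ D' ⊆ M ∧
      ((∃ D : Set U, D.Finite ∧ Y ⊆ D ∧ D ⊆ M ∧ Ge L Y p.1 p.2 D ∩ M = ∅) →
        ∃ D : Set U, D ⊆ D' ∧ D.Finite ∧ Y ⊆ D ∧ Ge L Y p.1 p.2 D ∩ M = ∅ ∧
          ∀ u ∈ Ge L Y p.1 p.2 D, Unc L D' u M) := by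
    intro p
    by_cases h : ∃ D : Set U, D.Finite ∧ Y ⊆ D ∧ D ⊆ M ∧ Ge L Y p.1 p.2 D ∩ M = ∅
    · obtain ⟨D, hDf, hYD, hDM, hGD⟩ := h
      obtain ⟨⟨u₀, hu₀⟩, hGe⟩ := gex Y D p.1 p.2 hYD hDf
      have hoc : (Ge L Y p.1 p.2 D).OrdConnected := by
        rw [hGe u₀ hu₀]
        exact (cnv2 D u₀ hDf).1
      obtain ⟨D', hD'f, hDD', hD'M, hU, -⟩ := hUNG L U hW M (Ge L Y p.1 p.2 D) D hM hoc ⟨u₀, hu₀⟩
        hGD hDf hDM (fun u hu => (hGe u hu).symm.subset)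
      exact ⟨D', hD'f, hYD.trans hDD', hD'M, fun _ => ⟨D, hDD', hDf, hYD, hGD, hU⟩⟩
    · exact ⟨Y, hF.Yf, subset_rfl, hYM, fun h' => absurd h' h⟩
  choose D' hD'f hYD' hD'M hD' using hD
  obtain ⟨B, hB⟩ : ∃ B : Set U, B = Y ∪ ⋃ p ∈ V, D' p := ⟨_, rfl⟩
  have hBf : B.Finite := by
    rw [hB]
    exact hF.Yf.union (hF.Vf.biUnion (fun p _ => hD'f p))
  have hBM : B ⊆ M := by
    rw [hB]
    exact union_subset hYM (iUnion₂_subset (fun p _ => hD'M p))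
  have hYB : Y ⊆ B := by rw [hB]; exact subset_union_left
  have hDB : ∀ p ∈ V, D' p ⊆ B := by
    intro p hp
    rw [hB]
    exact (subset_biUnion_of_mem (u := fun p => D' p) hp).trans subset_union_right
  have hv : ∀ p : U × Bool, ∃ v : U, v ∈ Ge L Y p.1 p.2 B := fun p =>
    (gex Y B p.1 p.2 hYB hBf).1
  choose v hv using hv
  refine ⟨B, v, hBf, hYB, hBM, fun p _ => hv p, ?_, ?_⟩
  · rintro p ⟨hp, hcl⟩
    obtain ⟨D, hDD', hDf, hYD, hGD, hU⟩ := hD' p hcl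
    have h1 : v p ∈ Ge L Y p.1 p.2 D :=
      ger2 Y D B p.1 p.2 hYD (hDD'.trans (hDB p hp)) hBf (hv p)
    have h2 := hU (v p) h1
    intro E hE hBE hEM
    rw [h2 E hE ((hDB p hp).trans hBE) hEM, h2 B hBf (hDB p hp) hBM]
  · rintro p ⟨hp, hcl⟩
    obtain ⟨D, hDD', hDf, hYD, hGD, hU⟩ := hD' p hcl
    rw [Set.eq_empty_iff_forall_notMem] at hGD ⊢
    rintro x ⟨hx, hxM⟩
    refine hGD x ⟨?_, hxM⟩
    rw [← (gex Y B p.1 p.2 hYB hBf).2 (v p) (hv p)] at hx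
    exact ger2 Y D B p.1 p.2 hYD (hDD'.trans (hDB p hp)) hBf hx

/-- codes in the sense of `Hd` -/
theorem mkd_hd (hORB : St_ORB) (hGEX : St_nGEX) (hGER : St_nGER) (hSDI : St_nSDI)
    (hLT : St_gLT) (hW : Wn L U) {Y : Set U} {V : Set (U × Bool)} (hF : Fec L Y V) {M B : Set U}
    {f : U × Bool → U} (hM : IsEl L M) (h : Mkd L Y V M B f) :
    Hd L B (f '' Mcl L Y V M) M := by
  obtain ⟨orb1, orb2, -⟩ := hORB L U hW.mon
  have gex := hGEX L U hW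
  obtain ⟨-, ger2, -, -, ger5, -⟩ := hGER L U hW
  obtain ⟨sdi1, sdi2, -, sdi4, -⟩ := hSDI L U hW
  refine ⟨hM, h.BM, ?_, ?_⟩
  · rintro x ⟨p, hp, rfl⟩
    refine ⟨h.unc p hp, ?_⟩
    intro hi
    have h1 := (sdi1 B (f p) h.fin).mp hi
    have h2 : SD L B (f p) p.2 := by
      cases p.2
      · exact h1.2
      · exact h1.1
    exact hF.nsd p hp.1 ((sdi2 Y B p.1 (f p) p.2 h.YB h.fin (h.ge p hp)).mp h2)
  · intro B' w hB'f hBB' hB'M hemp
    have hiso : ¬ Isd L B' w := by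
      intro hi
      have h1 : M.Definable₁ L (Orb L B' w) := Set.Definable.mono hi hB'M
      obtain ⟨x, hx⟩ := hM _ h1 ⟨w, orb1 B' w⟩
      rw [hemp] at hx
      exact hx
    obtain ⟨p, hp, hpu⟩ := hF.cov B' w hB'f (h.YB.trans hBB') hiso
    by_cases hcl : p ∈ Mcl L Y V M
    · refine ⟨f p, ⟨p, hcl, rfl⟩, hpu (f p) ?_⟩
      obtain ⟨⟨u, hu⟩, hGe⟩ := gex Y B' p.1 p.2 (h.YB.trans hBB') hB'f
      have h1 : u ∈ Ge L Y p.1 p.2 B := ger2 Y B B' p.1 p.2 h.YB hBB' hB'f hu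
      rw [(gex Y B p.1 p.2 h.YB h.fin).2 (f p) (h.ge p hcl)] at h1
      rw [← h.unc p hcl B' hB'f hBB' hB'M] at h1
      rw [hGe u hu, orb2 B' (f p) u h1]
      exact orb1 B' (f p)
    · exfalso
      obtain ⟨u, hu, hnu⟩ := hLT L U hW M Y B' w p.1 p.2 hM hB'f (h.YB.trans hBB') hB'M hemp (by
        intro D hDf hB'D hDM
        rw [Set.nonempty_iff_ne_empty]
        intro h'
        exact hcl ⟨hp, D, hDf, (h.YB.trans hBB').trans hB'D, hDM, h'⟩)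
      exact hnu (hpu u hu)

/-- a model which omits the types of a code has a code which is not worse -/
theorem mkd_step (hORB : St_ORB) (hCNV : St_nCNV) (hGEX : St_nGEX) (hGER : St_nGER)
    (hSDI : St_nSDI) (hUNG : St_nUNG) (hW : Wn L U) {Y : Set U} {V : Set (U × Bool)}
    (hF : Fec L Y V) {M N B : Set U} {f : U × Bool → U} (hN : IsEl L N) (h : Mkd L Y V M B f)
    (hBN : B ⊆ N) (hom : ∀ p ∈ Mcl L Y V M, Orb L B (f p) ∩ N = ∅) :
    Mcl L Y V M ⊆ Mcl L Y V N ∧ (Mcl L Y V N = Mcl L Y V M → Mkd L Y V N B f ∨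
      ∃ (D : Set U) (g : U × Bool → U), Mkd L Y V N D g ∧ Mkc L Y V N D g < Mkc L Y V M B f) := by
  classical
  obtain ⟨o1, o2, o3, o4, o5, o6, o7, o8, o9⟩ := hORB L U hW.mon
  have gex := hGEX L U hW
  obtain ⟨ger1, ger2, -, -, ger5, -⟩ := hGER L U hW
  obtain ⟨s1, s2, s3, s4, -⟩ := hSDI L U hW
  obtain ⟨-, cnv2⟩ := hCNV L U hW
  refine ⟨?_, ?_⟩
  · intro p hp
    refine ⟨hp.1, B, h.fin, h.YB, hBN, ?_⟩
    rw [(gex Y B p.1 p.2 h.YB h.fin).2 (f p) (h.ge p hp)]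
    exact hom p hp
  intro hC
  have h1 : ∀ p : U × Bool, ∃ D : Set U, p ∈ Mcl L Y V M → (D.Finite ∧ B ⊆ D ∧ D ⊆ N ∧
      (∀ u ∈ Orb L B (f p), Unc L D u N) ∧ ∀ t : Bool, ∃ w ∈ Orb L B (f p),
        Sd t (Orb L D w) (Orb L B (f p)) ∧ (Orb L D w = Orb L B (f p) ∨ SD L D w (!t))) := by
    intro p
    by_cases hp : p ∈ Mcl L Y V M
    · obtain ⟨D, hD⟩ := hUNG L U hW N (Orb L B (f p)) B hN (cnv2 _ _ h.fin).1 ⟨f p, o1 _ _⟩
        (hom p hp) h.fin hBN (fun u hu => (o2 _ _ _ hu).subset)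
      exact ⟨D, fun _ => hD⟩
    · exact ⟨∅, fun h' => absurd h' hp⟩
  choose Dp hDp using h1
  have hClf : (Mcl L Y V M).Finite := hF.Vf.subset fun p hp => hp.1
  obtain ⟨D, hDe⟩ : ∃ D : Set U, D = B ∪ ⋃ p ∈ Mcl L Y V M, Dp p := ⟨_, rfl⟩
  have hDf : D.Finite := by
    rw [hDe]
    exact h.fin.union (hClf.biUnion fun p hp => (hDp p hp).1)
  have hBD : B ⊆ D := by rw [hDe]; exact subset_union_left
  have hDN : D ⊆ N := by
    rw [hDe]
    exact union_subset hBN (iUnion₂_subset fun p hp => (hDp p hp).2.2.1)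
  have hDD : ∀ p ∈ Mcl L Y V M, Dp p ⊆ D := by
    intro p hp
    rw [hDe]
    exact (subset_biUnion_of_mem (u := fun p => Dp p) hp).trans subset_union_right
  have key : ∀ p ∈ Mcl L Y V M, ∀ u ∈ Orb L B (f p), Orb L D u = Orb L (Dp p) u :=
    fun p hp u hu => (hDp p hp).2.2.2.1 u hu D hDf (hDD p hp) hDN
  have hunc : ∀ p ∈ Mcl L Y V M, ∀ u ∈ Orb L B (f p), Unc L D u N := by
    intro p hp u hu E hE hDE hEN
    rw [key p hp u hu]
    exact (hDp p hp).2.2.2.1 u hu E hE ((hDD p hp).trans hDE) hEN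
  have hside : ∀ p : U × Bool, ∀ t : Bool, ∃ x : U, p ∈ Mcl L Y V M → (x ∈ Orb L B (f p) ∧
      Sd t (Orb L D x) (Orb L B (f p)) ∧ (Orb L D x = Orb L B (f p) ∨ SD L D x (!t))) := by
    intro p t
    by_cases hp : p ∈ Mcl L Y V M
    · obtain ⟨x, hx, h2, h3⟩ := (hDp p hp).2.2.2.2 t
      refine ⟨x, fun _ => ⟨hx, ?_, ?_⟩⟩
      · rw [key p hp x hx]
        exact h2
      · rw [key p hp x hx]
        refine h3.imp id fun h4 => ?_
        unfold SD at h4 ⊢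
        rw [key p hp x hx]
        exact h4.mono (hDD p hp)
    · exact ⟨f p, fun h' => absurd h' hp⟩
  choose u hu using hside
  have hnD : ∀ p ∈ Mcl L Y V M, ∀ x ∈ Orb L B (f p), ¬ Isd L D x := by
    intro p hp x hx hI
    obtain ⟨y, hy, hyN⟩ := hN _ (hI.mono hDN) ⟨x, o1 _ _⟩
    have h2 : y ∈ Orb L B (f p) ∩ N := by
      refine ⟨?_, hyN⟩
      have h3 := o3 B D x hBD hy
      rw [o2 _ _ _ hx] at h3
      exact h3
    rw [hom p hp] at h2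
    exact h2
  by_cases hs : ∀ p ∈ Mcl L Y V M, Orb L D (u p p.2) = Orb L B (f p)
  · left
    refine ⟨h.fin, h.YB, hBN, ?_, ?_, ?_⟩
    · rw [hC]
      exact h.ge
    · rw [hC]
      intro p hp E hE hBE hEN
      refine Subset.antisymm (o3 _ _ _ hBE) ?_
      have h2 : Orb L D (f p) = Orb L D (u p p.2) := o2 _ _ _ (by rw [hs p hp]; exact o1 _ _)
      have h3 : Orb L (D ∪ E) (f p) = Orb L D (f p) :=
        hunc p hp (f p) (o1 _ _) _ (hDf.union hE) subset_union_left (union_subset hDN hEN)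
      rw [← hs p hp, ← h2, ← h3]
      exact o3 _ _ _ subset_union_right
    · rw [hC]
      exact hom
  · right
    push Not at hs
    obtain ⟨p₀, hp₀, hs₀⟩ := hs
    have hdiv : ∀ p ∈ Mcl L Y V M, Orb L D (u p p.2) ≠ Orb L B (f p) →
        SD L D (u p p.2) (!p.2) ∧ ¬ SD L B (f p) (!p.2) := by
      intro p hp hne
      obtain ⟨hx, h2, h3⟩ := hu p p.2 hp
      obtain ⟨hx', h2', h3'⟩ := hu p (!p.2) hp
      have h4 : SD L D (u p p.2) (!p.2) := h3.resolve_left hne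
      have hne' : Orb L D (u p (!p.2)) ≠ Orb L B (f p) := by
        intro he
        apply hne
        have h5 : u p p.2 ∈ Orb L D (u p (!p.2)) := by
          rw [he]
          exact hx
        rw [o2 _ _ _ h5, he]
      have h4' : SD L D (u p (!p.2)) p.2 := by
        have h5 := h3'.resolve_left hne'
        rwa [Bool.not_not] at h5
      refine ⟨h4, fun h5 => ?_⟩
      have h6 : SD L D (u p (!p.2)) (!p.2) :=
        (s2 B D (f p) (u p (!p.2)) (!p.2) hBD hDf ⟨hx', h2'⟩).2 h5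
      refine hnD p hp _ hx' ((s1 _ _ hDf).2 ?_)
      cases hb : p.2
      · rw [hb] at h4' h6
        exact ⟨h6, h4'⟩
      · rw [hb] at h4' h6
        exact ⟨h4', h6⟩
    refine ⟨D, fun p => u p p.2, ⟨hDf, h.YB.trans hBD, hDN, ?_, ?_, ?_⟩, ?_⟩
    · rw [hC]
      intro p hp
      obtain ⟨hx, h2, h3⟩ := hu p p.2 hp
      rw [← ger1 Y B D p.1 (f p) p.2 h.YB hBD hDf (h.ge p hp)]
      exact ⟨hx, h2⟩
    · rw [hC]
      intro p hp
      exact hunc p hp _ (hu p p.2 hp).1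
    · rw [hC]
      intro p hp
      rw [Set.eq_empty_iff_forall_notMem]
      rintro y ⟨hy, hyN⟩
      have h2 : y ∈ Orb L B (f p) ∩ N := by
        refine ⟨?_, hyN⟩
        have h3 := o3 B D (u p p.2) hBD hy
        rw [o2 _ _ _ (hu p p.2 hp).1] at h3
        exact h3
      rw [hom p hp] at h2
      exact h2
    · unfold Mkc
      rw [hC]
      refine Set.ncard_lt_ncard ?_ (hClf.subset fun p hp => hp.1)
      refine (Set.ssubset_iff_of_subset ?_).2 ⟨p₀, ⟨hp₀, (hdiv p₀ hp₀ hs₀).2⟩, fun h' =>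
        h'.2 (hdiv p₀ hp₀ hs₀).1⟩
      rintro p ⟨hp, hi⟩
      refine ⟨hp, ?_⟩
      by_cases hd : Orb L D (u p p.2) = Orb L B (f p)
      · have h2 : Orb L B (u p p.2) = Orb L B (f p) := o2 _ _ _ (hu p p.2 hp).1
        have h3 := (s3 B D (u p p.2) hBD hDf (hd.trans h2.symm)).2 (!p.2)
        have h4 : SD L B (u p p.2) (!p.2) ↔ SD L B (f p) (!p.2) := by
          unfold SD
          rw [h2]
        exact fun h5 => hi (h3.2 (h4.2 h5))
      · exact (hdiv p hp hd).2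

/-- `M` has a conjugate with a code with the numbers `c`, `l` -/
def Mrp (L : FirstOrder.Language.{0, 0}) {U : Type} [L.Structure U] [LinearOrder U] (Y : Set U)
    (V : Set (U × Bool)) (M : Set U) (c l : ℕ) : Prop :=
  ∃ (σ : U ≃[L] U) (B : Set U) (f : U × Bool → U), Mkd L Y V (σ ⁻¹' M) B f ∧
    (Mcl L Y V (σ ⁻¹' M)).ncard = c ∧ Mkc L Y V (σ ⁻¹' M) B f = l

theorem mrp_opt (hORB : St_ORB) (hCNV : St_nCNV) (hGEX : St_nGEX) (hGER : St_nGER)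
    (hUNG : St_nUNG) (hW : Wn L U) {Y : Set U} {V : Set (U × Bool)} (hF : Fec L Y V) {M : Set U}
    (hM : IsEl L M) (hY : ∃ σ : U ≃[L] U, σ '' Y ⊆ M) :
    ∃ c l : ℕ, Mrp L Y V M c l ∧ ∀ c' l' : ℕ, Mrp L Y V M c' l' → c' ≤ c ∧ (c' = c → l ≤ l') := by
  classical
  let P : ℕ → Prop := fun c => ∃ l, Mrp L Y V M c l
  have hPm : ∀ c, P c → c ≤ V.ncard := by
    rintro c ⟨l, σ, B, f, h1, h2, h3⟩
    rw [← h2]
    exact Set.ncard_le_ncard (fun p hp => hp.1) hF.Vf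
  have hP0 : ∃ c, P c := by
    obtain ⟨σ, hσ⟩ := hY
    have hYM : Y ⊆ σ ⁻¹' M := fun y hy => hσ ⟨y, hy, rfl⟩
    obtain ⟨B, f, h1⟩ := mkd_ex hORB hCNV hGEX hGER hUNG hW hF (mc_pre_el hORB hW.mon σ hM) hYM
    exact ⟨_, _, σ, B, f, h1, rfl, rfl⟩
  obtain ⟨c₀, hc₀⟩ := hP0
  have hk : P (Nat.findGreatest P V.ncard) := Nat.findGreatest_spec (hPm c₀ hc₀) hc₀
  have hmax : ∀ c, P c → c ≤ Nat.findGreatest P V.ncard := fun c hc =>
    Nat.le_findGreatest (hPm c hc) hc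
  obtain ⟨c, hc⟩ : ∃ c, c = Nat.findGreatest P V.ncard := ⟨_, rfl⟩
  rw [← hc] at hk hmax
  have hQ : ∃ l, Mrp L Y V M c l := hk
  refine ⟨c, Nat.find hQ, Nat.find_spec hQ, fun c' l' h => ⟨hmax c' ⟨l', h⟩, ?_⟩⟩
  rintro rfl
  exact Nat.find_min' hQ h

/-- one half of the comparison -/
theorem mrp_half (hORB : St_ORB) (hNSB : St_NSB) (hCNV : St_nCNV) (hGEX : St_nGEX)
    (hGER : St_nGER) (hSDI : St_nSDI) (hUNG : St_nUNG) (hLT : St_gLT) (hBF : St_gBF) (hW : Wn L U)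
    {Y : Set U} {V : Set (U × Bool)} (hF : Fec L Y V) {M N : Set U} (hM : IsEl L M)
    (hN : IsEl L N) (hE : EqO L M N) {c l : ℕ} (h : Mrp L Y V M c l) :
    ∃ c', c ≤ c' ∧ (∃ l', Mrp L Y V N c' l') ∧
      (c' = c → IsoM L M N ∨ ∃ l', Mrp L Y V N c l' ∧ l' < l) := by
  classical
  obtain ⟨o1, o2, o3, o4, o5, o6, o7, o8, o9⟩ := hORB L U hW.mon
  obtain ⟨σ, B, f, h1, h2, h3⟩ := h
  have hClf : (Mcl L Y V (σ ⁻¹' M)).Finite := hF.Vf.subset fun p hp => hp.1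
  obtain ⟨m, e, he⟩ := mc_tup hClf
  obtain ⟨n, d, hd⟩ := mc_tup h1.fin
  have hE' : EqO L (σ ⁻¹' M) N := fun n m d v =>
    (mc_eqO_pre hORB hW.mon σ M n m d v).symm.trans (hE n m d v)
  have hO : Omt L (σ ⁻¹' M) d (fun j => f (e j)) := by
    refine mc_omt_self d _ (by rw [hd]; exact h1.BM) fun j => ?_
    rw [hd]
    exact h1.om (e j) (by rw [← he]; exact ⟨j, rfl⟩)
  obtain ⟨τ, ht1, ht2⟩ := (hE' n m d _).1 hO
  have hN' : IsEl L (τ ⁻¹' N) := mc_pre_el hORB hW.mon τ hN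
  have hBN : B ⊆ τ ⁻¹' N := by
    rw [← hd]
    rintro _ ⟨i, rfl⟩
    exact ht1 i
  have hom : ∀ p ∈ Mcl L Y V (σ ⁻¹' M), Orb L B (f p) ∩ τ ⁻¹' N = ∅ := by
    intro p hp
    rw [← he] at hp
    obtain ⟨j, rfl⟩ := hp
    rw [Set.eq_empty_iff_forall_notMem]
    rintro x ⟨hx, hxN⟩
    have h4 : τ x ∈ Orb L (range fun i => τ (d i)) (τ (f (e j))) ∩ N := by
      refine ⟨?_, hxN⟩
      rw [mc_rng, hd, o4]
      exact mem_image_of_mem τ hx
    rw [ht2 j] at h4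
    exact h4
  obtain ⟨h5, h6⟩ := mkd_step hORB hCNV hGEX hGER hSDI hUNG hW hF hN' h1 hBN hom
  obtain ⟨B', f', h7⟩ := mkd_ex hORB hCNV hGEX hGER hUNG hW hF hN' (h1.YB.trans hBN)
  have hClf' : (Mcl L Y V (τ ⁻¹' N)).Finite := hF.Vf.subset fun p hp => hp.1
  refine ⟨(Mcl L Y V (τ ⁻¹' N)).ncard, ?_, ⟨_, τ, B', f', h7, rfl, rfl⟩, ?_⟩
  · rw [← h2]
    exact Set.ncard_le_ncard h5 hClf'
  · intro hc
    have h8 : Mcl L Y V (τ ⁻¹' N) = Mcl L Y V (σ ⁻¹' M) := by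
      refine (Set.eq_of_subset_of_ncard_le h5 ?_ hClf').symm
      rw [hc, h2]
    rcases h6 h8 with h9 | ⟨D, g, h9, h10⟩
    · left
      have g1 := mkd_hd hORB hGEX hGER hSDI hLT hW hF (mc_pre_el hORB hW.mon σ hM) h1
      have g2 := mkd_hd hORB hGEX hGER hSDI hLT hW hF hN' h9
      rw [h8] at g2
      exact mc_isoM_trans (mc_isoM_symm (mc_pre_iso σ M)) (mc_isoM_trans
        (hBF L U hW.mon B _ _ _ h1.fin g1 g2) (mc_pre_iso τ N))
    · right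
      exact ⟨_, ⟨τ, D, g, h9, hc, rfl⟩, by rw [← h3]; exact h10⟩

end

/-- finitely many ends: models with the same omitted finite sets of types are isomorphic -/
theorem thm_mcF (hORB : St_ORB) (hNSB : St_NSB) (hCNV : St_nCNV) (hGEX : St_nGEX)
    (hGER : St_nGER) (hSDI : St_nSDI) (hUNG : St_nUNG) (hLT : St_gLT) (hBF : St_gBF) :
    ∀ (L : FirstOrder.Language.{0, 0}) (U : Type) [L.Structure U] [LinearOrder U], Wn L U →
      FE L U → ∀ M N : Set U, IsEl L M → IsEl L N → EqO L M N → IsoM L M N := by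
  intro L U _ _ hW hFE M N hM hN hE
  obtain ⟨Y, V, hY, hV, hσ, hSD, hcov⟩ := hFE
  have hF : Fec L Y V := ⟨hY, hV, hSD, hcov⟩
  obtain ⟨c, l, h1, h2⟩ := mrp_opt hORB hCNV hGEX hGER hUNG hW hF hM (hσ M hM)
  obtain ⟨c', l', h1', h2'⟩ := mrp_opt hORB hCNV hGEX hGER hUNG hW hF hN (hσ N hN)
  obtain ⟨k, hk1, ⟨l₁, hk2⟩, hk3⟩ := mrp_half hORB hNSB hCNV hGEX hGER hSDI hUNG hLT hBF hW hF
    hM hN hE h1
  obtain ⟨k', hk1', ⟨l₁', hk2'⟩, hk3'⟩ := mrp_half hORB hNSB hCNV hGEX hGER hSDI hUNG hLT hBF hW hF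
    hN hM (fun n m d v => (hE n m d v).symm) h1'
  have h3 := (h2' k l₁ hk2).1
  have h4 := (h2 k' l₁' hk2').1
  have hcc : c = c' := by omega
  subst hcc
  have h5 : k = c := by omega
  have h6 : k' = c := by omega
  rcases hk3 h5 with h7 | ⟨l₂, h7, h8⟩
  · exact h7
  rcases hk3' h6 with h9 | ⟨l₃, h9, h10⟩
  · exact mc_isoM_symm h9
  exfalso
  have h11 := (h2' c l₂ h7).2 rfl
  have h12 := (h2 c l₃ h9).2 rfl
  omega

end Pool.Agent.WOM
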