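import Pool.Agent.WOL.StE

/-!
WOL, module gCT: countably many models.
-/

set_option autoImplicit false

namespace Pool.Agent.WOM

open FirstOrder.Language Set
open scoped FirstOrder

theorem thm_gCT (hBF : St_gBF) : St_gCT := by
  classical
  intro L U _ hM hFin
  have hc : Countable U := hM.ctb
  let N : Finset U × Finset U → Set U := fun c =>
    if h : ∃ M : Set U, Hd L (c.1 : Set U) (c.2 : Set U) M then h.choose else ∅
  have hN : ∀ c : Finset U × Finset U, ∀ M : Set U, Hd L (c.1 : Set U) (c.2 : Set U) M →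
      Hd L (c.1 : Set U) (c.2 : Set U) (N c) := by
    intro c M hM
    have h : ∃ M : Set U, Hd L (c.1 : Set U) (c.2 : Set U) M := ⟨M, hM⟩
    have h1 : N c = h.choose := dif_pos h
    rw [h1]
    exact h.choose_spec
  obtain ⟨e, he⟩ := exists_surjective_nat (Finset U × Finset U)
  refine ⟨fun n => N (e n), fun M hMel => ?_⟩
  obtain ⟨B, V, hB, hV, hHd⟩ := hFin M hMel
  obtain ⟨n, hn⟩ := he (hB.toFinset, hV.toFinset)
  refine ⟨n, ?_⟩
  have h1 : Hd L ((hB.toFinset : Finset U) : Set U) ((hV.toFinset : Finset U) : Set U) M := by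
    rw [hB.coe_toFinset, hV.coe_toFinset]
    exact hHd
  have h2 := hN (hB.toFinset, hV.toFinset) M h1
  rw [← hn] at h2
  have h3 : ((e n).1 : Set U) = B := by rw [hn]; exact hB.coe_toFinset
  have h4 : ((e n).2 : Set U) = V := by rw [hn]; exact hV.coe_toFinset
  rw [h3, h4] at h2
  exact hBF L U hM B V M (N (e n)) hB hHd h2

end Pool.Agent.WOM
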