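import Pool.Agent.WOL.MC4
import Pool.Agent.WOL.MC6
import Pool.Agent.WOL.gCT

/-!
WOL, MC7 (helper73): the general top of the theorems with Martin's conjecture: it is enough to show, for
every countable saturated model `U` of `T`, that it has countably many elementary submodels and that the
theory of the omitted finite sets of types determines them (`EqI`); both follow from `FE` (`thm_mcE`).
-/

set_option autoImplicit false

namespace Pool.Agent.WOM

open FirstOrder.Language Set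
open scoped FirstOrder
open Pool.Agent.MTC (L1F)

section
variable {L : FirstOrder.Language.{0, 0}}

private theorem mct_realize (S : L.Structure ℕ) (σ : L.Sentence) :
    σ ∈ ThS L S ↔
      FirstOrder.Language.Formula.relabel (Empty.elim : Empty → Fin 0) σ ∈
        @tp L ℕ S 0 Fin.elim0 := by
  have h5 := @FirstOrder.Language.Formula.realize_relabel L ℕ S Empty (Fin 0) σ
    (Empty.elim : Empty → Fin 0) Fin.elim0
  have h8 : σ ∈ ThS L S ↔ @FirstOrder.Language.Sentence.Realize L ℕ S σ := Iff.rfl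
  refine h8.trans (Iff.trans ?_ h5.symm)
  unfold FirstOrder.Language.Sentence.Realize
  rw [Subsingleton.elim (Fin.elim0 ∘ (Empty.elim : Empty → Fin 0) : Empty → ℕ)]

private theorem mct_th {S S' : L.Structure ℕ}
    (h : @tp L ℕ S 0 Fin.elim0 = @tp L ℕ S' 0 Fin.elim0) : ThS L S = ThS L S' := by
  ext σ
  rw [mct_realize, mct_realize, h]

end

/-- the top: `T` has perfectly many models, or countably many and they are determined by their theories in
`L_1(T)` -/
def St_mcTop : Prop :=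
  ∀ (L : FirstOrder.Language.{0, 0}) [∀ n, IsEmpty (L.Functions n)]
    [∀ n, Countable (L.Relations n)] (T : L.Theory),
    (∀ (U : Type) [S : L.Structure U], Countable U → Infinite U → Mon L U → U ⊨ T → ScU L S →
      CtU L U ∧ EqI L U) →
    (Pool.Agent.Helper6.Str.CtblK (ModK L T) ∧
      ∀ S S' : L.Structure ℕ, @FirstOrder.Language.Theory.Model L ℕ S T →
        @FirstOrder.Language.Theory.Model L ℕ S' T → SL1 L T S S' →
          Nonempty (@FirstOrder.Language.Equiv L ℕ ℕ S S')) ∨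
    Pool.Agent.Helper6.Str.PerfK (ModK L T)

theorem thm_mcTop (hULT : St_ULT) (hSUBM : St_SUBM) (hHOMG : St_HOMG) (hTRC : St_TRC)
    (hEMB : St_EMB) (hSML : St_SML) (hSCU : St_SCU) (hMSB : St_MSB) : St_mcTop := by
  intro L _ _ T hT
  by_cases hP : Pool.Agent.Helper6.Str.PerfK (ModK L T)
  · exact Or.inr hP
  have hScat : Pool.Agent.Helper79.VC.Scat (ModK L T) :=
    Pool.Agent.Helper79.VC.scat_of_not_perf (hMSB L T) hP
  have hsmall : Small L T := hSML L T hScat
  have hcs : Countable L.Symbols := by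
    unfold FirstOrder.Language.Symbols
    infer_instance
  have key : ∀ S : L.Structure ℕ, @FirstOrder.Language.Theory.Model L ℕ S T →
      ∃ (U : Type) (_ : L.Structure U), Mon L U ∧ U ⊨ T ∧ U ⊨ ThS L S ∧ CtU L U ∧ EqI L U := by
    intro S hS
    obtain ⟨V, instV, hVne, hVm, hVs⟩ := hULT L hcs S
    have hsm : Small L (ThS L S) := by
      refine hsmall.mono ?_
      rintro p ⟨S', hS', a, ha⟩
      exact ⟨S', ⟨fun φ hφ => hS'.1 φ (hS.1 φ hφ)⟩, a, ha⟩
    obtain ⟨U, instU, hUc, hUi, hUm, hUs⟩ := hSUBM L hcs S hsm V hVm hVs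
    have hMon : Mon L U := hHOMG L U hUc hUi hUs
    have hUT : U ⊨ T := ⟨fun φ hφ => hUm.1 φ (hS.1 φ hφ)⟩
    obtain ⟨h1, h2⟩ := hT U hUc hUi hMon hUT (hSCU L T U hScat hMon hUT)
    exact ⟨U, instU, hMon, hUT, hUm, h1, h2⟩
  refine Or.inl ⟨?_, ?_⟩
  · -- the theories of the models
    have hct : {p : (n : ℕ) × Set (L.Formula (Fin n)) | ∃ S : L.Structure ℕ,
        @FirstOrder.Language.Theory.Model L ℕ S T ∧
          p = ⟨0, @tp L ℕ S 0 Fin.elim0⟩}.Countable := by
      refine hsmall.mono ?_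
      rintro p ⟨S, hS, rfl⟩
      exact ⟨S, hS, Fin.elim0, rfl⟩
    have key' : ∀ S : L.Structure ℕ, @FirstOrder.Language.Theory.Model L ℕ S T →
        CtT L (ThS L S) := by
      intro S hS
      obtain ⟨U, instU, hMon, hUT, hUm, hCtU, -⟩ := key S hS
      exact hTRC L U hMon hCtU S hUm
    choose c hc1 hc2 using fun z : ↥{p : (n : ℕ) × Set (L.Formula (Fin n)) | ∃ S : L.Structure ℕ,
        @FirstOrder.Language.Theory.Model L ℕ S T ∧ p = ⟨0, @tp L ℕ S 0 Fin.elim0⟩} => z.2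
    choose g hg using fun z => key' (c z) (hc1 z)
    have hcount := hct.to_subtype
    have hne : Nonempty (L.Structure ℕ) := ⟨Pool.Agent.Helper6.Str.toStr (fun _ => true)⟩
    obtain ⟨G, hG⟩ := (countable_iff_exists_subset_range (α := L.Structure ℕ)).1
      (countable_range (fun p : ↥{p : (n : ℕ) × Set (L.Formula (Fin n)) | ∃ S : L.Structure ℕ,
        @FirstOrder.Language.Theory.Model L ℕ S T ∧ p = ⟨0, @tp L ℕ S 0 Fin.elim0⟩} × ℕ =>
        g p.1 p.2))
    refine ⟨G, fun S hS => ?_⟩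
    let z : ↥{p : (n : ℕ) × Set (L.Formula (Fin n)) | ∃ S : L.Structure ℕ,
        @FirstOrder.Language.Theory.Model L ℕ S T ∧ p = ⟨0, @tp L ℕ S 0 Fin.elim0⟩} :=
      ⟨⟨0, @tp L ℕ S 0 Fin.elim0⟩, S, hS, rfl⟩
    have hz : (⟨0, @tp L ℕ S 0 Fin.elim0⟩ : (n : ℕ) × Set (L.Formula (Fin n))) =
      ⟨0, @tp L ℕ (c z) 0 Fin.elim0⟩ := hc2 z
    have hz' : @tp L ℕ S 0 Fin.elim0 = @tp L ℕ (c z) 0 Fin.elim0 := by
      have := (Sigma.mk.inj_iff.1 hz).2
      exact eq_of_heq this
    have hSmod : @FirstOrder.Language.Theory.Model L ℕ S (ThS L (c z)) := by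
      rw [← mct_th hz']
      exact ⟨fun φ hφ => hφ⟩
    obtain ⟨n, ⟨e⟩⟩ := hg z S hSmod
    obtain ⟨m, hm⟩ := hG ⟨(z, n), rfl⟩
    refine ⟨m, ?_⟩
    rw [hm]
    have hrel := @FirstOrder.Language.Equiv.map_rel' L ℕ ℕ S (g z n) e
    exact ⟨@FirstOrder.Language.Equiv.toEquiv L ℕ ℕ S (g z n) e, fun k R v => (hrel R v).symm⟩
  · intro S S' hS hS' hE
    have hth : ThS L S = ThS L S' := mc_ths hE
    obtain ⟨U, instU, hMon, hUT, hUm, -, hI⟩ := key S hS
    have hUm' : U ⊨ ThS L S' := hth ▸ hUm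
    obtain ⟨f, hf1, hf2, hf3⟩ := hEMB L U hMon S hUm
    obtain ⟨f', hf1', hf2', hf3'⟩ := hEMB L U hMon S' hUm'
    exact mc_rng_iso hf1 hf1' hf2 hf2' (hI _ _ hf3 hf3' (mc_eqO hMon T hUT hf2 hf2' hE))

/-- finitely many ends give both conclusions -/
def St_mcE : Prop :=
  ∀ (L : FirstOrder.Language.{0, 0}) (U : Type) [L.Structure U] [LinearOrder U], Wn L U →
    FE L U → CtU L U ∧ EqI L U

theorem thm_mcE (hORB : St_ORB) (hNSB : St_NSB) (hCNV : St_nCNV) (hGEX : St_nGEX)
    (hGER : St_nGER) (hSDI : St_nSDI) (hUNG : St_nUNG) (hLT : St_gLT) (hBF : St_gBF) : St_mcE := by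
  intro L U _ _ hW hFE
  exact ⟨thm_gCT hBF L U hW.mon
    (thm_gFH hORB hNSB hCNV hGEX hGER hSDI hUNG hLT L U hW hFE),
    thm_mcF hORB hNSB hCNV hGEX hGER hSDI hUNG hLT hBF L U hW hFE⟩

end Pool.Agent.WOM
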