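import Pool.Agent.WOL.StG3
import Pool.Agent.WOL.MC7

/-!
WOL, MC8 (helper73): weakly o-minimal theories all of whose countable saturated models have no adic type, or
have no infinite increasing sequences of convex equivalence relations (`AccC`): Vaught's conjecture in the
perfect set form, with the uniqueness of the model with a given theory in `L_1(T)` (Martin's conjecture).
The transfer lemmas are those of MRG.lean (helper8).
-/

set_option autoImplicit false

namespace Pool.Agent.WOM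

open FirstOrder.Language Set
open scoped FirstOrder

/-- THE THEOREM with Martin's conjecture -/
def St_MAC : Prop :=
  ∀ (L : FirstOrder.Language.{0, 0}) [∀ n, IsEmpty (L.Functions n)]
    [∀ n, Countable (L.Relations n)] (T : L.Theory) (lt : L.Formula (Fin 2)),
    (∀ S : L.Structure ℕ, @FirstOrder.Language.Theory.Model L ℕ S T →
      @WOMin L ℕ S lt ∧ (@SatM L ℕ S → @NoAd L ℕ S lt ∨ @AccC L ℕ S lt)) →
    (Pool.Agent.Helper6.Str.CtblK (ModK L T) ∧
      ∀ S S' : L.Structure ℕ, @FirstOrder.Language.Theory.Model L ℕ S T →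
        @FirstOrder.Language.Theory.Model L ℕ S' T → SL1 L T S S' →
          Nonempty (@FirstOrder.Language.Equiv L ℕ ℕ S S')) ∨
    Pool.Agent.Helper6.Str.PerfK (ModK L T)

/-! ### Transfer (as MRG.lean) -/

section

variable {L : FirstOrder.Language.{0, 0}} {M N : Type} [L.Structure M] [L.Structure N]

private theorem mac_def {α : Type} (g : M ≃[L] N) (A : Set M) (s : Set (α → M))
    (h : A.Definable L s) :
    (g '' A).Definable L {v : α → N | (fun i => g.symm (v i)) ∈ s} := by
  rw [Set.definable_iff_exists_formula_sum] at h ⊢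
  obtain ⟨φ, hφ⟩ := h
  refine ⟨φ.relabel (Sum.map (fun a : A => (⟨g a, mem_image_of_mem g a.2⟩ : ↥(g '' A))) id), ?_⟩
  ext v
  rw [Set.mem_ofPred_eq, Set.mem_ofPred_eq, FirstOrder.Language.Formula.realize_relabel]
  have h2 : (fun i => g.symm (v i)) ∈ s ↔
      φ.Realize (Sum.elim (fun a : A => (a : M)) (fun i => g.symm (v i))) := by
    rw [hφ]
    rfl
  have h3 : φ.Realize (Sum.elim (fun a : A => (a : M)) (fun i => g.symm (v i))) ↔
      φ.Realize (g ∘ Sum.elim (fun a : A => (a : M)) (fun i => g.symm (v i))) :=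
    (FirstOrder.Language.StrongHomClass.realize_formula g φ).symm
  have h4 : g ∘ Sum.elim (fun a : A => (a : M)) (fun i => g.symm (v i)) =
      Sum.elim (fun a : ↥(g '' A) => (a : N)) v ∘
        Sum.map (fun a : A => (⟨g a, mem_image_of_mem g a.2⟩ : ↥(g '' A))) id := by
    funext i
    rcases i with a | i
    · rfl
    · show g (g.symm (v i)) = v i
      exact g.apply_symm_apply _
  rw [← h4, ← h3, ← h2]

private theorem mac_sat (g : M ≃[L] N) (h : SatM L M) : SatM L N := by
  intro A hA F hF hfip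
  have key : (⋂₀ ((fun s => g.symm '' s) '' F)).Nonempty := by
    refine h (g.symm '' A) (hA.image _) _ ?_ ?_
    · rintro _ ⟨s, hs, rfl⟩
      exact TRW_def g.symm A s (hF s hs)
    · intro G hG hGf
      have key2 : (⋂₀ ((fun t => g '' t) '' G)).Nonempty := by
        refine hfip _ ?_ (hGf.image _)
        rintro _ ⟨t, ht, rfl⟩
        obtain ⟨s, hs, rfl⟩ := hG ht
        have h1 : g '' (g.symm '' s) = s := by
          rw [image_image]
          simp only [g.apply_symm_apply]
          exact image_id' s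
        show g '' (g.symm '' s) ∈ F
        rw [h1]
        exact hs
      obtain ⟨y, hy⟩ := key2
      refine ⟨g.symm y, fun t ht => ?_⟩
      obtain ⟨x, hx, hxy⟩ : y ∈ g '' t := hy _ (mem_image_of_mem _ ht)
      rw [← hxy, g.symm_apply_apply]
      exact hx
  obtain ⟨x, hx⟩ := key
  refine ⟨g x, fun s hs => ?_⟩
  have h1 : x ∈ g.symm '' s := hx _ (mem_image_of_mem _ hs)
  exact (TRW_mem g s x).1 h1

private theorem mac_typ (g : M ≃[L] N) (A : Set M) (a : M) :
    g '' {x | Eqv L A a x} = {x | Eqv L (g '' A) (g a) x} := by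
  ext y
  constructor
  · rintro ⟨x, hx, rfl⟩
    exact TRW_eqv g A a x hx
  · intro hy
    have h1 := TRW_eqv g.symm (g '' A) (g a) y hy
    rw [TRW_sym, g.symm_apply_apply] at h1
    exact ⟨g.symm y, h1, g.apply_symm_apply _⟩

private theorem mac_cv (g : M ≃[L] N) (lt : L.Formula (Fin 2)) (P : Set M) (E : M → M → Prop)
    (h : CvE L lt P E) : CvE L lt (g '' P) (fun x y => E (g.symm x) (g.symm y)) := by
  obtain ⟨h1, h2, h3, h4⟩ := h
  refine ⟨?_, ?_, ?_, ?_⟩
  · rintro _ ⟨x, hx, rfl⟩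
    simp only [g.symm_apply_apply]
    exact h1 x hx
  · rintro _ ⟨x, hx, rfl⟩ _ ⟨y, hy, rfl⟩
    simp only [g.symm_apply_apply]
    exact h2 x hx y hy
  · rintro _ ⟨x, hx, rfl⟩ _ ⟨y, hy, rfl⟩ _ ⟨w, hw, rfl⟩
    simp only [g.symm_apply_apply]
    exact h3 x hx y hy w hw
  · rintro _ ⟨x, hx, rfl⟩ _ ⟨y, hy, rfl⟩ _ ⟨w, hw, rfl⟩ hxy hyw
    simp only [g.symm_apply_apply]
    exact h4 x hx y hy w hw ((TRW_lt g lt x y).2 hxy) ((TRW_lt g lt y w).2 hyw)

private theorem mac_mem (g : M ≃[L] N) (lt : L.Formula (Fin 2)) (A : Set M) (a : M)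
    (R : Set (M × M)) (h : R ∈ {R : Set (M × M) | ∃ E : M → M → Prop,
      A.Definable L {w : Fin 2 → M | E (w 0) (w 1)} ∧
      CvE L lt {x | Eqv L A a x} E ∧ R = {z | Eqv L A a z.1 ∧ Eqv L A a z.2 ∧ E z.1 z.2}}) :
    Prod.map g g '' R ∈ {R : Set (N × N) | ∃ E : N → N → Prop,
      (g '' A).Definable L {w : Fin 2 → N | E (w 0) (w 1)} ∧
      CvE L lt {x | Eqv L (g '' A) (g a) x} E ∧
      R = {z | Eqv L (g '' A) (g a) z.1 ∧ Eqv L (g '' A) (g a) z.2 ∧ E z.1 z.2}} := by
  obtain ⟨E, hE, hcv, rfl⟩ := h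
  refine ⟨fun x y => E (g.symm x) (g.symm y), mac_def g A _ hE, ?_, ?_⟩
  · rw [← mac_typ]
    exact mac_cv g lt _ E hcv
  · have h1 : ∀ y, Eqv L (g '' A) (g a) y ↔ Eqv L A a (g.symm y) := by
      intro y
      constructor
      · intro hy
        have h2 : y ∈ g '' {x | Eqv L A a x} := by
          rw [mac_typ]
          exact hy
        obtain ⟨x, hx, rfl⟩ := h2
        rw [g.symm_apply_apply]
        exact hx
      · intro hy
        have h2 := TRW_eqv g A a _ hy
        rwa [g.apply_symm_apply] at h2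
    ext ⟨x, y⟩
    constructor
    · rintro ⟨⟨x', y'⟩, ⟨hx, hy, hxy⟩, heq⟩
      have e1 : g x' = x := congrArg Prod.fst heq
      have e2 : g y' = y := congrArg Prod.snd heq
      subst e1
      subst e2
      refine ⟨?_, ?_, ?_⟩
      · show Eqv L (g '' A) (g a) (g x')
        rw [h1, g.symm_apply_apply]
        exact hx
      · show Eqv L (g '' A) (g a) (g y')
        rw [h1, g.symm_apply_apply]
        exact hy
      · show E (g.symm (g x')) (g.symm (g y'))
        rw [g.symm_apply_apply, g.symm_apply_apply]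
        exact hxy
    · rintro ⟨hx, hy, hxy⟩
      exact ⟨(g.symm x, g.symm y), ⟨(h1 x).1 hx, (h1 y).1 hy, hxy⟩,
        Prod.ext (g.apply_symm_apply x) (g.apply_symm_apply y)⟩

private theorem mac_acc (g : M ≃[L] N) (lt : L.Formula (Fin 2)) (h : AccC L N lt) :
    AccC L M lt := by
  intro A a hA R hR hRR
  obtain ⟨n, hn⟩ := h (g '' A) (g a) (hA.image g) (fun n => Prod.map g g '' R n)
    (fun n => mac_mem g lt A a (R n) (hR n)) (fun n => image_mono (hRR n))
  exact ⟨n, (g.injective.prodMap g.injective).image_injective hn⟩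

private theorem mac_na (g : M ≃[L] N) (lt : L.Formula (Fin 2)) (h : NoAd L N lt) :
    NoAd L M lt := by
  intro A P Q a c E hA hP hQ hc hE hcv hcmp
  have hc' := TRW_cpl g A _ c hc
  rw [image_insert_eq] at hc'
  have key := h (g '' A) (g '' P) (g '' Q) (g a) (g c)
    (fun z x y => E (g.symm z) (g.symm x) (g.symm y)) (hA.image g) (by rw [hP, mac_typ])
    (by rw [hQ, mac_typ]) hc' (mac_def g A _ hE) ?_ ?_
  · intro z hz z' hz' x hx y hy hxy
    have k := key (g z) (mem_image_of_mem g hz) (g z') (mem_image_of_mem g hz') (g x)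
      (mem_image_of_mem g hx) (g y) (mem_image_of_mem g hy)
    simp only [g.symm_apply_apply] at k
    exact k hxy
  · rintro _ ⟨z, hz, rfl⟩
    simp only [g.symm_apply_apply]
    exact mac_cv g lt P (E z) (hcv z hz)
  · rintro _ ⟨z, hz, rfl⟩ _ ⟨z', hz', rfl⟩
    simp only [g.symm_apply_apply]
    rcases hcmp z hz z' hz' with k | k
    · left
      rintro _ ⟨x, hx, rfl⟩ _ ⟨y, hy, rfl⟩
      simp only [g.symm_apply_apply]
      exact k x hx y hy
    · right
      rintro _ ⟨x, hx, rfl⟩ _ ⟨y, hy, rfl⟩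
      simp only [g.symm_apply_apply]
      exact k x hx y hy

end


private theorem mac_tr (L : FirstOrder.Language.{0, 0}) (T : L.Theory) (lt : L.Formula (Fin 2))
    (h : ∀ S : L.Structure ℕ, @FirstOrder.Language.Theory.Model L ℕ S T →
      @WOMin L ℕ S lt ∧ (@SatM L ℕ S → @NoAd L ℕ S lt ∨ @AccC L ℕ S lt))
    (U : Type) [L.Structure U] (hc : Countable U) (hi : Infinite U) (hT : U ⊨ T)
    (hsat : SatM L U) : WOMin U lt ∧ (NoAd L U lt ∨ AccC L U lt) := by
  obtain ⟨e⟩ : Nonempty (U ≃ ℕ) := nonempty_equiv_of_countable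
  let S : L.Structure ℕ := e.inducedStructure
  let g : U ≃[L] ℕ := e.inducedStructureEquiv
  have h1 : ℕ ⊨ T := FirstOrder.Language.StrongHomClass.theory_model g
  obtain ⟨h2, h3⟩ := h S h1
  exact ⟨TRW_wo g lt h2, (h3 (mac_sat g hsat)).imp (mac_na g lt) (mac_acc g lt)⟩

theorem thm_MAC' (hTop : St_mcTop) (hSWN : St_SWN) (hCRE : St_CRE) (hA : St_mcA) (hWN : St_gWN)
    (hFE : St_gFE) (hE : St_mcE) : St_MAC := by
  intro L _ _ T lt hT
  refine hTop L T ?_
  intro U instU hUc hUi hMon hUT hSc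
  obtain ⟨hw, hfc⟩ := mac_tr L T lt hT U hUc hUi hUT hMon.sat
  rcases hfc with hfc | hfc
  · obtain ⟨lo, hWm⟩ := hSWN L U lt hMon hw hfc hSc
    exact ⟨hCRE L U hWm hSc, hA L U hWm hSc⟩
  · obtain ⟨lo, hWn, hNA, hNI⟩ := hWN L U lt hMon hw hfc hSc
    exact hE L U hWn (hFE L U hWn hSc hNA hNI)

end Pool.Agent.WOM
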