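import Pool.Agent.WOL.StG3

/-!
WOL [gAM]: models contain copies of atomic sets
-/

set_option autoImplicit false

namespace Pool.Agent.WOM

open FirstOrder.Language Set
open scoped FirstOrder

theorem thm_gAM (hORB : St_ORB) : St_gAM := by
  intro L U _ hM Y M hY hE
  obtain ⟨o1, -, -, o4, -, -, -, -, o9⟩ := hORB L U hM
  induction hY with
  | base => exact ⟨FirstOrder.Language.Equiv.refl L U, by rw [image_empty]; exact empty_subset _⟩
  | step D y _ hy ih =>
    obtain ⟨σ, hσ⟩ := ih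
    have h1 : (σ '' D).Definable₁ L (Orb L (σ '' D) (σ y)) := by
      rw [o4 σ D y]
      exact o9 σ D _ hy
    have h2 : M.Definable₁ L (Orb L (σ '' D) (σ y)) := Set.Definable.mono h1 hσ
    obtain ⟨p, ⟨ρ, hρ, hp⟩, hpM⟩ := hE _ h2 ⟨σ y, o1 _ _⟩
    refine ⟨ρ.comp σ, ?_⟩
    rintro _ ⟨z, hz, rfl⟩
    have e : (ρ.comp σ) z = ρ (σ z) := rfl
    rw [e]
    rcases hz with rfl | hz
    · rw [hp]
      exact hpM
    · rw [hρ _ ⟨z, hz, rfl⟩]
      exact hσ ⟨z, hz, rfl⟩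

end Pool.Agent.WOM
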