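import Pool.Agent.WOL.StG3
import Pool.Agent.WOM.DFX

/-! WOL: module gAT, atomic tuples (helper33). -/

set_option autoImplicit false

namespace Pool.Agent.WOM

open FirstOrder.Language Set
open scoped FirstOrder

section

variable {L : FirstOrder.Language.{0, 0}} {U : Type} [L.Structure U]

/-- the sequence `u, z 0, z 1, ..` -/
private def gAT_seq (u : U) (z : ℕ → U) : ℕ → U := fun i => Nat.casesOn i u z

private theorem gAT_bn (A : Set U) (u : U) (z : ℕ → U) (i : ℕ) :
    Bn A (gAT_seq u z) (i + 1) = Bn (insert u A) z i := by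
  unfold Bn
  ext x
  constructor
  · rintro (h | ⟨j, hj, rfl⟩)
    · exact Or.inl (Or.inr h)
    · rcases j with _ | j
      · exact Or.inl (Or.inl rfl)
      · exact Or.inr ⟨j, Nat.lt_of_succ_lt_succ hj, rfl⟩
  · rintro ((h | h) | ⟨j, hj, rfl⟩)
    · exact Or.inr ⟨0, Nat.succ_pos i, h.symm⟩
    · exact Or.inl h
    · exact Or.inr ⟨j + 1, Nat.succ_lt_succ hj, rfl⟩

private theorem gAT_ch (A : Set U) (u : U) (z : ℕ → U) (n : ℕ) (hu : Isd L A u)
    (h : Ch L (insert u A) z n) : Ch L A (gAT_seq u z) (n + 1) := by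
  intro i hi
  rcases i with _ | i
  · have h1 : Bn A (gAT_seq u z) 0 = A := by
      unfold Bn
      ext x
      constructor
      · rintro (h | ⟨j, hj, rfl⟩)
        · exact h
        · exact absurd hj (Nat.not_lt_zero j)
      · exact fun h => Or.inl h
    rw [h1]
    exact hu
  · rw [gAT_bn]
    exact h i (Nat.lt_of_succ_lt_succ hi)

end

theorem thm_gAT (hORB : St_ORB) (hDNS : St_DNS) (hGEX : St_nGEX) (hIS : St_gIS) : St_gAT := by
  intro L U _ _ hW hT hNI n
  obtain ⟨-, orb2, -, -, -, orb6, -⟩ := hORB L U hW.mon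
  obtain ⟨-, -, -, -, is5⟩ := hIS L U hW hT
  have is5 := is5 hNI
  induction n with
  | zero =>
    intro A B θ _ _ _ ⟨t, ht⟩
    have := hW.mon.inf
    obtain ⟨u⟩ : Nonempty U := inferInstance
    refine ⟨fun _ => u, ?_, fun i hi => absurd hi (Nat.not_lt_zero i),
      fun i hi => absurd hi (Nat.not_lt_zero i)⟩
    have h : (fun i : Fin 0 => u) = t := by
      funext i
      exact i.elim0
    rw [h]
    exact ht
  | succ n ih =>
    intro A B θ hAB hB hθ ⟨t, ht⟩
    have hA : A.Finite := hB.subset hAB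
    have hθ0 : A.Definable₁ L {x : U | ∃ t ∈ θ, t 0 = x} := by
      have h1 := hθ.image_comp (fun _ : Fin 1 => (0 : Fin (n + 1)))
      have h2 : {v : Fin 1 → U | ∃ t ∈ θ, t 0 = v 0} =
          (fun g : Fin (n + 1) → U => g ∘ fun _ : Fin 1 => (0 : Fin (n + 1))) '' θ := by
        ext v
        constructor
        · rintro ⟨t, ht, h⟩
          refine ⟨t, ht, ?_⟩
          funext i
          have hi : i = 0 := Subsingleton.elim _ _
          subst hi
          exact h
        · rintro ⟨t, ht, rfl⟩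
          exact ⟨t, ht, rfl⟩
      show A.Definable L {v : Fin 1 → U | ∃ t ∈ θ, t 0 = v 0}
      rw [h2]
      exact h1
    obtain ⟨z₁, hz₁, hI⟩ := hDNS L U hW.mon A _ hA hθ0 ⟨t 0, t, ht, rfl⟩
    obtain ⟨⟨u, hu⟩, -⟩ := hGEX L U hW A B z₁ true hAB hB
    have huB : Isd L B u := is5 A B z₁ u true hAB hB hI hu
    have huO : u ∈ Orb L A z₁ := hu.1
    have huA : Isd L A u := by
      show A.Definable₁ L (Orb L A u)
      rw [orb2 A z₁ u huO]
      exact hI
    obtain ⟨s, hs, hsu⟩ := orb6 A _ hθ0 z₁ hz₁ huO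
    have hfib : (insert u A).Definable L {v : Fin n → U | (Fin.cons u v : Fin (n + 1) → U) ∈ θ} :=
      Dx.par (P := fun w => w ∈ θ) hθ (subset_insert u A) (mem_insert u A)
    have hne : {v : Fin n → U | (Fin.cons u v : Fin (n + 1) → U) ∈ θ}.Nonempty := by
      refine ⟨fun i => s i.succ, ?_⟩
      show (Fin.cons u (fun i => s i.succ) : Fin (n + 1) → U) ∈ θ
      have h : (Fin.cons u (fun i => s i.succ) : Fin (n + 1) → U) = s := by
        funext i
        refine Fin.cases ?_ (fun j => ?_) i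
        · exact hsu.symm
        · rfl
      rw [h]
      exact hs
    obtain ⟨z, hz, hzA, hzB⟩ := ih (insert u A) (insert u B) _ (insert_subset_insert hAB)
      (hB.insert u) hfib hne
    refine ⟨gAT_seq u z, ?_, gAT_ch A u z n huA hzA, gAT_ch B u z n huB hzB⟩
    have h : (fun i : Fin (n + 1) => gAT_seq u z i) =
        (Fin.cons u (fun i : Fin n => z i) : Fin (n + 1) → U) := by
      funext i
      refine Fin.cases ?_ (fun j => ?_) i
      · rfl
      · rfl
    rw [h]
    exact hz

end Pool.Agent.WOM
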