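import Pool.Agent.WOL.StG3

/-!
WOL, module gCC: concatenation of chains (helper59; statement and proof by helper34).
-/

set_option autoImplicit false
set_option linter.unusedVariables false

namespace Pool.Agent.WOM

open FirstOrder.Language Set
open scoped FirstOrder

private theorem gCC_congr {U : Type} (A : Set U) (x y : ℕ → U) (n : ℕ) (h : ∀ i < n, x i = y i) :
    Bn A x n = Bn A y n := by
  have e : x '' {i | i < n} = y '' {i | i < n} := image_congr fun i hi => h i hi
  unfold Bn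
  rw [e]

private theorem gCC_cat {U : Type} (A : Set U) (x z : ℕ → U) (m l : ℕ) :
    Bn A (fun j => if j < m then x j else z (j - m)) (m + l) = Bn (Bn A x m) z l := by
  unfold Bn
  rw [union_assoc]
  congr 1
  ext u
  constructor
  · rintro ⟨i, hi, rfl⟩
    have hi' : i < m + l := hi
    by_cases h : i < m
    · left
      exact ⟨i, h, by simp only [if_pos h]⟩
    · right
      refine ⟨i - m, ?_, by simp only [if_neg h]⟩
      show i - m < l
      omega
  · rintro (⟨i, hi, rfl⟩ | ⟨i, hi, rfl⟩)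
    · have hi' : i < m := hi
      refine ⟨i, ?_, by simp only [if_pos hi']⟩
      show i < m + l
      omega
    · have hi' : i < l := hi
      refine ⟨m + i, ?_, ?_⟩
      · show m + i < m + l
        omega
      · have h : ¬ (m + i < m) := by omega
        simp only [if_neg h, Nat.add_sub_cancel_left]

private theorem gCC_chcongr (L : FirstOrder.Language.{0, 0}) {U : Type} [L.Structure U]
    (A : Set U) (x y : ℕ → U) (n : ℕ) (h : ∀ i < n, x i = y i) (hx : Ch L A x n) : Ch L A y n := by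
  intro i hi
  rw [← gCC_congr A x y i (fun j hj => h j (hj.trans hi)), ← h i hi]
  exact hx i hi

private theorem gCC_step (hEX : St_gEX) (L : FirstOrder.Language.{0, 0}) (U : Type) [L.Structure U]
    [LinearOrder U] (hW : Wn L U) (hT : TRV L U) (P : Set U → Set U → U → Prop)
    (hP : ∀ Y : Set U, Atm L ∅ Y → ∃ (Y' : Set U) (w : U), Atm L Y Y' ∧ P Y Y' w)
    (x : ℕ → U) (m : ℕ) (hx : Ch L ∅ x m) :
    ∃ (x' : ℕ → U) (m' : ℕ) (w : U), Ch L ∅ x' m' ∧ m ≤ m' ∧ (∀ j < m, x' j = x j) ∧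
      P (Bn ∅ x m) (Bn ∅ x' m') w := by
  obtain ⟨-, e2, e3⟩ := hEX L U hW hT
  obtain ⟨Y', w, hY, hw⟩ := hP _ (e2 ∅ x m hx)
  obtain ⟨z, n, hz, rfl⟩ := e3 _ _ hY
  refine ⟨fun j => if j < m then x j else z (j - m), m + n, w, ?_, Nat.le_add_right _ _,
    fun j hj => by simp only [if_pos hj], ?_⟩
  · intro i hi
    by_cases h : i < m
    · have h1 : Bn ∅ (fun j => if j < m then x j else z (j - m)) i = Bn ∅ x i :=
        gCC_congr _ _ _ _ fun j hj => by simp only [if_pos (hj.trans h)]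
      rw [h1]
      simp only [if_pos h]
      exact hx i h
    · obtain ⟨l, rfl⟩ : ∃ l, i = m + l := ⟨i - m, by omega⟩
      rw [gCC_cat]
      simp only [if_neg h, Nat.add_sub_cancel_left]
      exact hz l (by omega)
  · rw [gCC_cat]
    exact hw

/-- [gCC] -/
theorem thm_gCC (hEX : St_gEX) : St_gCC := by
  classical
  intro L U _ _ hW hT P hP
  have : Infinite U := hW.mon.inf
  obtain ⟨u₀⟩ : Nonempty U := inferInstance
  have step : ∀ s : {p : (ℕ → U) × ℕ // Ch L ∅ p.1 p.2},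
      ∃ (s' : {p : (ℕ → U) × ℕ // Ch L ∅ p.1 p.2}) (w : U), s.1.2 ≤ s'.1.2 ∧
        (∀ j < s.1.2, s'.1.1 j = s.1.1 j) ∧ P (Bn ∅ s.1.1 s.1.2) (Bn ∅ s'.1.1 s'.1.2) w := by
    rintro ⟨⟨x, m⟩, hx⟩
    obtain ⟨x', m', w, h1, h2, h3, h4⟩ := gCC_step hEX L U hW hT P hP x m hx
    exact ⟨⟨(x', m'), h1⟩, w, h2, h3, h4⟩
  choose f g hf1 hf2 hf3 using step
  let s : ℕ → {p : (ℕ → U) × ℕ // Ch L ∅ p.1 p.2} := fun i =>
    Nat.rec ⟨(fun _ => u₀, 0), fun i hi => absurd hi (Nat.not_lt_zero i)⟩ (fun _ t => f t) i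
  have hs : ∀ i, s (i + 1) = f (s i) := fun i => rfl
  have hmono : Monotone fun i => (s i).1.2 := monotone_nat_of_le_succ fun i => by
    rw [hs]
    exact hf1 (s i)
  have hval : ∀ i i', i ≤ i' → ∀ j < (s i).1.2, (s i').1.1 j = (s i).1.1 j := by
    intro i i' hii
    induction i', hii using Nat.le_induction with
    | base => exact fun j _ => rfl
    | succ i' hii ih =>
      intro j hj
      rw [hs, hf2 (s i') j (lt_of_lt_of_le hj (hmono hii)), ih j hj]
  let y : ℕ → U := fun j => if h : ∃ i, j < (s i).1.2 then (s (Nat.find h)).1.1 j else u₀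
  have hy : ∀ i, ∀ j < (s i).1.2, (s i).1.1 j = y j := by
    intro i j hj
    have h : ∃ i, j < (s i).1.2 := ⟨i, hj⟩
    show (s i).1.1 j = if h : ∃ i, j < (s i).1.2 then (s (Nat.find h)).1.1 j else u₀
    rw [dif_pos h]
    exact hval _ _ (Nat.find_min' h hj) j (Nat.find_spec h)
  refine ⟨y, fun i => (s i).1.2, fun i => g (s i), hmono, fun i => ?_, fun i => ?_⟩
  · exact gCC_chcongr L ∅ _ _ _ (hy i) (s i).2
  · rw [← gCC_congr ∅ _ _ _ (hy i), ← gCC_congr ∅ _ _ _ (hy (i + 1)), hs]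
    exact hf3 (s i)

end Pool.Agent.WOM
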