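import Pool.Agent.WOL.StG3

/-!
WOL, gCF: connectedness is witnessed by a formula.
-/

set_option autoImplicit false
set_option linter.unusedVariables false

namespace Pool.Agent.WOM

open FirstOrder.Language Set
open scoped FirstOrder

section

variable {L : FirstOrder.Language.{0, 0}} {U : Type} [L.Structure U]

/-- parameters replaced by variables -/
private lemma gCF_abs {A : Set U} {m : ℕ} {c : Fin m → U} {β : Type} {X : Set (β → U)}
    (h : (A ∪ range c).Definable L X) :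
    ∃ Y : Set (Fin m ⊕ β → U), A.Definable L Y ∧ ∀ v : β → U, v ∈ X ↔ Sum.elim c v ∈ Y := by
  classical
  obtain ⟨φ, hφ⟩ := definable_iff_exists_formula_sum.1 h
  have hc : ∀ a : (A ∪ range c : Set U), (a : U) ∉ A → ∃ i, c i = (a : U) := by
    intro a ha
    rcases a.2 with h1 | h1
    · exact absurd h1 ha
    · exact h1
  let σ : (A ∪ range c : Set U) ⊕ β → A ⊕ (Fin m ⊕ β) :=
    Sum.elim (fun a : (A ∪ range c : Set U) =>
      if ha : (a : U) ∈ A then Sum.inl ⟨a, ha⟩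
      else Sum.inr (Sum.inl (Classical.choose (hc a ha)))) fun b => Sum.inr (Sum.inr b)
  refine ⟨{v | (φ.relabel σ).Realize (Sum.elim (fun a : A => (a : U)) v)},
    definable_iff_exists_formula_sum.2 ⟨φ.relabel σ, rfl⟩, fun v => ?_⟩
  have h1 : (Sum.elim (fun a : A => (a : U)) (Sum.elim c v)) ∘ σ =
      Sum.elim (fun a : (A ∪ range c : Set U) => (a : U)) v := by
    funext z
    rcases z with z | z
    · by_cases ha : (z : U) ∈ A
      · have h2 : σ (Sum.inl z) = Sum.inl ⟨z, ha⟩ := dif_pos ha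
        rw [Function.comp_apply, h2]
        rfl
      · have h2 : σ (Sum.inl z) = Sum.inr (Sum.inl (Classical.choose (hc z ha))) := dif_neg ha
        rw [Function.comp_apply, h2]
        exact Classical.choose_spec (hc z ha)
    · rfl
  rw [hφ]
  show φ.Realize (Sum.elim (fun a : (A ∪ range c : Set U) => (a : U)) v) ↔
    (φ.relabel σ).Realize (Sum.elim (fun a : A => (a : U)) (Sum.elim c v))
  rw [FirstOrder.Language.Formula.realize_relabel, h1]

/-- a tuple of parameters substituted for variables -/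
private lemma gCF_sub {A : Set U} {m : ℕ} (c : Fin m → U) {β : Type} {Y : Set (Fin m ⊕ β → U)}
    (h : A.Definable L Y) : (A ∪ range c).Definable L {v : β → U | Sum.elim c v ∈ Y} := by
  obtain ⟨φ, hφ⟩ := definable_iff_exists_formula_sum.1 h
  let τ : A ⊕ (Fin m ⊕ β) → (A ∪ range c : Set U) ⊕ β :=
    Sum.elim (fun a : A => Sum.inl ⟨(a : U), Or.inl a.2⟩)
      (Sum.elim (fun i => Sum.inl ⟨c i, Or.inr ⟨i, rfl⟩⟩) fun b => Sum.inr b)
  refine definable_iff_exists_formula_sum.2 ⟨φ.relabel τ, ?_⟩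
  ext v
  have h1 : (Sum.elim (fun a : (A ∪ range c : Set U) => (a : U)) v) ∘ τ =
      Sum.elim (fun a : A => (a : U)) (Sum.elim c v) := by
    funext z
    rcases z with z | z | z
    · rfl
    · rfl
    · rfl
  rw [hφ]
  show φ.Realize (Sum.elim (fun a : A => (a : U)) (Sum.elim c v)) ↔
    (φ.relabel τ).Realize (Sum.elim (fun a : (A ∪ range c : Set U) => (a : U)) v)
  rw [FirstOrder.Language.Formula.realize_relabel, h1]

variable (L) in
/-- definable predicates of a tuple and of `k` variables -/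
private def gCF_D (A : Set U) (m k : ℕ) (R : (Fin m → U) → (Fin k → U) → Prop) : Prop :=
  A.Definable L {v : Fin m ⊕ Fin k → U | R (fun i => v (Sum.inl i)) (fun j => v (Sum.inr j))}

private lemma gCF_ex {A : Set U} {m k : ℕ} {R : (Fin m → U) → (Fin (k + 1) → U) → Prop}
    (h : gCF_D L A m (k + 1) R) : gCF_D L A m k (fun c v => ∃ x, R c (Fin.cons x v)) := by
  have h1 := h.image_comp (fun i : Fin m ⊕ Fin k => Sum.map id Fin.succ i)
  unfold gCF_D
  have h2 : {v : Fin m ⊕ Fin k → U | ∃ x, R (fun i => v (Sum.inl i))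
      (Fin.cons x (fun j => v (Sum.inr j)))} =
      (fun g : Fin m ⊕ Fin (k + 1) → U => g ∘ fun i : Fin m ⊕ Fin k => Sum.map id Fin.succ i) ''
        {v : Fin m ⊕ Fin (k + 1) → U | R (fun i => v (Sum.inl i)) (fun j => v (Sum.inr j))} := by
    ext v
    constructor
    · rintro ⟨x, hx⟩
      refine ⟨Sum.elim (fun i => v (Sum.inl i)) (Fin.cons x (fun j => v (Sum.inr j))), hx, ?_⟩
      funext i
      rcases i with i | i
      · rfl
      · rfl
    · rintro ⟨w, hw, rfl⟩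
      refine ⟨w (Sum.inr 0), ?_⟩
      have h3 : (Fin.cons (w (Sum.inr 0)) (fun j : Fin k => w (Sum.inr j.succ)) : Fin (k + 1) → U) =
          fun j => w (Sum.inr j) := by
        funext i
        refine Fin.cases ?_ (fun j => ?_) i
        · rfl
        · rfl
      show R (fun i => w (Sum.inl i)) (Fin.cons (w (Sum.inr 0)) (fun j : Fin k => w (Sum.inr j.succ)))
      rw [h3]
      exact hw
  rw [h2]
  exact h1

private lemma gCF_and {A : Set U} {m k : ℕ} {R Q : (Fin m → U) → (Fin k → U) → Prop}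
    (h : gCF_D L A m k R) (h' : gCF_D L A m k Q) : gCF_D L A m k (fun c v => R c v ∧ Q c v) :=
  h.inter h'

private lemma gCF_not {A : Set U} {m k : ℕ} {R : (Fin m → U) → (Fin k → U) → Prop}
    (h : gCF_D L A m k R) : gCF_D L A m k (fun c v => ¬ R c v) := h.compl

private lemma gCF_cg {A : Set U} {m k : ℕ} {R Q : (Fin m → U) → (Fin k → U) → Prop}
    (h : gCF_D L A m k R) (e : ∀ c v, Q c v ↔ R c v) : gCF_D L A m k Q := by
  have h1 : Q = R := by
    funext c v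
    exact propext (e c v)
  rw [h1]
  exact h

private lemma gCF_imp {A : Set U} {m k : ℕ} {R Q : (Fin m → U) → (Fin k → U) → Prop}
    (h : gCF_D L A m k R) (h' : gCF_D L A m k Q) : gCF_D L A m k (fun c v => R c v → Q c v) :=
  gCF_cg (gCF_not (gCF_and h (gCF_not h'))) (fun c v => by tauto)

private lemma gCF_all {A : Set U} {m k : ℕ} {R : (Fin m → U) → (Fin (k + 1) → U) → Prop}
    (h : gCF_D L A m (k + 1) R) : gCF_D L A m k (fun c v => ∀ x, R c (Fin.cons x v)) :=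
  gCF_cg (gCF_not (gCF_ex (gCF_not h))) (fun c v => by
    constructor
    · rintro h1 ⟨x, hx⟩
      exact hx (h1 x)
    · intro h1 x
      by_contra h2
      exact h1 ⟨x, h2⟩)

private lemma gCF_re {A : Set U} {m k l : ℕ} {R : (Fin m → U) → (Fin k → U) → Prop}
    (h : gCF_D L A m k R) (f : Fin k → Fin l) : gCF_D L A m l (fun c v => R c (fun j => v (f j))) :=
  h.preimage_comp (Sum.map id f)

private lemma gCF_fin {A : Set U} {m : ℕ} {R : (Fin m → U) → (Fin 0 → U) → Prop}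
    (h : gCF_D L A m 0 R) : A.Definable L {c : Fin m → U | R c (fun j => Fin.elim0 j)} := by
  have h1 := h.preimage_comp (Sum.elim id Fin.elim0 : Fin m ⊕ Fin 0 → Fin m)
  have h2 : {c : Fin m → U | R c (fun j => Fin.elim0 j)} =
      (fun g : Fin m → U => g ∘ (Sum.elim id Fin.elim0 : Fin m ⊕ Fin 0 → Fin m)) ⁻¹'
        {v : Fin m ⊕ Fin 0 → U | R (fun i => v (Sum.inl i)) (fun j => v (Sum.inr j))} := by
    ext c
    have h3 : (fun j : Fin 0 => (Fin.elim0 j : U)) =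
      fun j : Fin 0 => (c ∘ (Sum.elim id Fin.elim0 : Fin m ⊕ Fin 0 → Fin m)) (Sum.inr j) := by
      funext j
      exact j.elim0
    show R c (fun j => Fin.elim0 j) ↔ R c _
    rw [h3]
  rw [h2]
  exact h1

/-- unary families -/
private lemma gCF_one {A : Set U} {m k : ℕ} {ρ : (Fin m → U) → Set U}
    (h : A.Definable L {v : Fin m ⊕ Unit → U | v (Sum.inr ()) ∈ ρ (fun i => v (Sum.inl i))})
    (j : Fin k) : gCF_D L A m k (fun c v => v j ∈ ρ c) :=
  h.preimage_comp (Sum.map id (fun _ => j) : Fin m ⊕ Unit → Fin m ⊕ Fin k)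

private lemma gCF_le [LinearOrder U] (hord : (∅ : Set U).Definable L {v : Fin 2 → U | v 0 < v 1})
    (A : Set U) {m k : ℕ} (i j : Fin k) : gCF_D L A m k (fun c v => v i ≤ v j) := by
  have h1 := (hord.mono (Set.empty_subset A)).preimage_comp
    (![Sum.inr j, Sum.inr i] : Fin 2 → Fin m ⊕ Fin k)
  refine gCF_cg (R := fun c v => ¬ v j < v i) (gCF_not h1) (fun c v => not_lt.symm)

end

theorem thm_gCF : St_gCF := by
  intro L U _ _ hW A m c ρ ρ' hρ hρ' hC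
  obtain ⟨g, l, hg, hl, hll, hrl, h3, h4, h5⟩ := hC
  obtain ⟨G, hG, eG⟩ := gCF_abs hg
  obtain ⟨Λ, hΛ, eΛ⟩ := gCF_abs (show (A ∪ range c).Definable L {x : Fin 1 → U | x 0 ∈ l} from hl)
  have ord := hW.ord
  -- the families
  have dG : ∀ (k : ℕ) (i j : Fin k), gCF_D L A m k (fun c v => Sum.elim c ![v i, v j] ∈ G) := by
    intro k i j
    have h := hG.preimage_comp (Sum.map id ![i, j] : Fin m ⊕ Fin 2 → Fin m ⊕ Fin k)
    have e : {v : Fin m ⊕ Fin k → U | Sum.elim (fun i => v (Sum.inl i))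
        ![v (Sum.inr i), v (Sum.inr j)] ∈ G} =
        (fun g : Fin m ⊕ Fin k → U => g ∘ (Sum.map id ![i, j] : Fin m ⊕ Fin 2 → Fin m ⊕ Fin k)) ⁻¹'
          G := by
      ext v
      have e1 : Sum.elim (fun i => v (Sum.inl i)) ![v (Sum.inr i), v (Sum.inr j)] =
          v ∘ (Sum.map id ![i, j] : Fin m ⊕ Fin 2 → Fin m ⊕ Fin k) := by
        funext z
        rcases z with z | z
        · rfl
        · fin_cases z <;> rfl
      show Sum.elim (fun i => v (Sum.inl i)) ![v (Sum.inr i), v (Sum.inr j)] ∈ G ↔ _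
      rw [e1]
      rfl
    unfold gCF_D
    rw [e]
    exact h
  have dΛ : ∀ (k : ℕ) (i : Fin k), gCF_D L A m k (fun c v => Sum.elim c ![v i] ∈ Λ) := by
    intro k i
    have h := hΛ.preimage_comp (Sum.map id ![i] : Fin m ⊕ Fin 1 → Fin m ⊕ Fin k)
    have e : {v : Fin m ⊕ Fin k → U | Sum.elim (fun i => v (Sum.inl i)) ![v (Sum.inr i)] ∈ Λ} =
        (fun g : Fin m ⊕ Fin k → U => g ∘ (Sum.map id ![i] : Fin m ⊕ Fin 1 → Fin m ⊕ Fin k)) ⁻¹'
          Λ := by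
      ext v
      have e1 : Sum.elim (fun i => v (Sum.inl i)) ![v (Sum.inr i)] =
          v ∘ (Sum.map id ![i] : Fin m ⊕ Fin 1 → Fin m ⊕ Fin k) := by
        funext z
        rcases z with z | z
        · rfl
        · fin_cases z
          rfl
      show Sum.elim (fun i => v (Sum.inl i)) ![v (Sum.inr i)] ∈ Λ ↔ _
      rw [e1]
      rfl
    unfold gCF_D
    rw [e]
    exact h
  -- the conditions
  have d1 : gCF_D L A m 0 (fun c v => ∀ x : U, Sum.elim c ![x] ∈ Λ → ∀ y : U, y ≤ x →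
      Sum.elim c ![y] ∈ Λ) :=
    gCF_all (R := fun c v => Sum.elim c ![v 0] ∈ Λ → ∀ y : U, y ≤ v 0 → Sum.elim c ![y] ∈ Λ)
      (gCF_imp (dΛ 1 0) (gCF_all (R := fun c v => v 0 ≤ v 1 → Sum.elim c ![v 0] ∈ Λ)
        (gCF_imp (gCF_le ord A 0 1) (dΛ 2 0))))
  have d2 : gCF_D L A m 0 (fun c v => ∃ x : U, x ∈ ρ c ∧ ¬ Sum.elim c ![x] ∈ Λ) :=
    gCF_ex (R := fun c v => v 0 ∈ ρ c ∧ ¬ Sum.elim c ![v 0] ∈ Λ)
      (gCF_and (gCF_one hρ 0) (gCF_not (dΛ 1 0)))
  have d3 : gCF_D L A m 0 (fun c v => ∀ u : U, u ∈ ρ c → ¬ Sum.elim c ![u] ∈ Λ →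
      (∀ x : U, Sum.elim c ![u, x] ∈ G → ∀ y : U, y ≤ x → Sum.elim c ![u, y] ∈ G) ∧
      (∀ x : U, Sum.elim c ![u, x] ∈ G → x ∈ ρ' c) ∧
      ∃ x : U, x ∈ ρ' c ∧ ¬ Sum.elim c ![u, x] ∈ G) := by
    refine gCF_all (R := fun c v => v 0 ∈ ρ c → ¬ Sum.elim c ![v 0] ∈ Λ →
      (∀ x : U, Sum.elim c ![v 0, x] ∈ G → ∀ y : U, y ≤ x → Sum.elim c ![v 0, y] ∈ G) ∧
      (∀ x : U, Sum.elim c ![v 0, x] ∈ G → x ∈ ρ' c) ∧
      ∃ x : U, x ∈ ρ' c ∧ ¬ Sum.elim c ![v 0, x] ∈ G) ?_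
    refine gCF_imp (gCF_one hρ 0) (gCF_imp (gCF_not (dΛ 1 0)) (gCF_and ?_ (gCF_and ?_ ?_)))
    · exact gCF_all (R := fun c v => Sum.elim c ![v 1, v 0] ∈ G → ∀ y : U, y ≤ v 0 →
        Sum.elim c ![v 1, y] ∈ G) (gCF_imp (dG 2 1 0)
          (gCF_all (R := fun c v => v 0 ≤ v 1 → Sum.elim c ![v 2, v 0] ∈ G)
            (gCF_imp (gCF_le ord A 0 1) (dG 3 2 0))))
    · exact gCF_all (R := fun c v => Sum.elim c ![v 1, v 0] ∈ G → v 0 ∈ ρ' c)
        (gCF_imp (dG 2 1 0) (gCF_one hρ' 0))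
    · exact gCF_ex (R := fun c v => v 0 ∈ ρ' c ∧ ¬ Sum.elim c ![v 1, v 0] ∈ G)
        (gCF_and (gCF_one hρ' 0) (gCF_not (dG 2 1 0)))
  have d4 : gCF_D L A m 0 (fun c v => ∀ u : U, u ∈ ρ c → ¬ Sum.elim c ![u] ∈ Λ →
      ∀ u' : U, u' ∈ ρ c → u ≤ u' → ∀ x : U, Sum.elim c ![u, x] ∈ G → Sum.elim c ![u', x] ∈ G) := by
    refine gCF_all (R := fun c v => v 0 ∈ ρ c → ¬ Sum.elim c ![v 0] ∈ Λ →
      ∀ u' : U, u' ∈ ρ c → v 0 ≤ u' → ∀ x : U, Sum.elim c ![v 0, x] ∈ G →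
        Sum.elim c ![u', x] ∈ G) ?_
    refine gCF_imp (gCF_one hρ 0) (gCF_imp (gCF_not (dΛ 1 0)) ?_)
    refine gCF_all (R := fun c v => v 0 ∈ ρ c → v 1 ≤ v 0 → ∀ x : U, Sum.elim c ![v 1, x] ∈ G →
        Sum.elim c ![v 0, x] ∈ G) ?_
    refine gCF_imp (gCF_one hρ 0) (gCF_imp (gCF_le ord A 1 0) ?_)
    exact gCF_all (R := fun c v => Sum.elim c ![v 2, v 0] ∈ G → Sum.elim c ![v 1, v 0] ∈ G)
      (gCF_imp (dG 3 2 0) (dG 3 1 0))
  have d5 : gCF_D L A m 0 (fun c v => ∀ z : U, z ∈ ρ' c → ∃ u : U, u ∈ ρ c ∧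
      ¬ Sum.elim c ![u] ∈ Λ ∧ Sum.elim c ![u, z] ∈ G) := by
    refine gCF_all (R := fun c v => v 0 ∈ ρ' c → ∃ u : U, u ∈ ρ c ∧
      ¬ Sum.elim c ![u] ∈ Λ ∧ Sum.elim c ![u, v 0] ∈ G) ?_
    refine gCF_imp (gCF_one hρ' 0) ?_
    exact gCF_ex (R := fun c v => v 0 ∈ ρ c ∧ ¬ Sum.elim c ![v 0] ∈ Λ ∧
      Sum.elim c ![v 0, v 1] ∈ G) (gCF_and (gCF_one hρ 0) (gCF_and (gCF_not (dΛ 2 0)) (dG 2 0 1)))
  have eG' : ∀ x y : U, y ∈ g x ↔ Sum.elim c ![x, y] ∈ G := fun x y => eG ![x, y]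
  have eΛ' : ∀ x : U, x ∈ l ↔ Sum.elim c ![x] ∈ Λ := fun x => eΛ ![x]
  refine ⟨_, gCF_fin (gCF_and d1 (gCF_and d2 (gCF_and d3 (gCF_and d4 d5)))), ?_, ?_⟩
  · refine ⟨?_, ?_, ?_, ?_, ?_⟩
    · intro x hx y hy
      exact (eΛ' y).1 (hll x ((eΛ' x).2 hx) y hy)
    · obtain ⟨x, hx, hx'⟩ := Set.not_subset.1 hrl
      exact ⟨x, hx, fun h => hx' ((eΛ' x).2 h)⟩
    · intro u hu hul
      obtain ⟨k1, k2, k3⟩ := h3 u hu (fun h => hul ((eΛ' u).1 h))
      refine ⟨?_, ?_, ?_⟩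
      · intro x hx y hy
        exact (eG' u y).1 (k1 x ((eG' u x).2 hx) y hy)
      · intro x hx
        exact k2 ((eG' u x).2 hx)
      · obtain ⟨x, hx, hx'⟩ := Set.not_subset.1 k3
        exact ⟨x, hx, fun h => hx' ((eG' u x).2 h)⟩
    · intro u hu hul u' hu' huu x hx
      exact (eG' u' x).1 (h4 u hu (fun h => hul ((eΛ' u).1 h)) u' hu' huu ((eG' u x).2 hx))
    · intro z hz
      obtain ⟨u, hu, hul, huz⟩ := h5 z hz
      exact ⟨u, hu, fun h => hul ((eΛ' u).2 h), (eG' u z).1 huz⟩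
  · rintro c' ⟨k1, k2, k3, k4, k5⟩
    refine ⟨fun x => {y | Sum.elim c' ![x, y] ∈ G}, {x | Sum.elim c' ![x] ∈ Λ}, ?_, ?_, k1, ?_, ?_,
      ?_, ?_⟩
    · have h := gCF_sub c' hG
      have e : {w : Fin 2 → U | w 1 ∈ (fun x => {y | Sum.elim c' ![x, y] ∈ G}) (w 0)} =
          {v : Fin 2 → U | Sum.elim c' v ∈ G} := by
        ext w
        have e1 : ![w 0, w 1] = w := by
          funext i
          fin_cases i <;> rfl
        show Sum.elim c' ![w 0, w 1] ∈ G ↔ Sum.elim c' w ∈ G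
        rw [e1]
      unfold DF
      rw [e]
      exact h
    · have h := gCF_sub c' hΛ
      have e : {w : Fin 1 → U | w 0 ∈ {x | Sum.elim c' ![x] ∈ Λ}} =
          {v : Fin 1 → U | Sum.elim c' v ∈ Λ} := by
        ext w
        have e1 : ![w 0] = w := by
          funext i
          fin_cases i
          rfl
        show Sum.elim c' ![w 0] ∈ Λ ↔ Sum.elim c' w ∈ Λ
        rw [e1]
      show (A ∪ range c').Definable L {w : Fin 1 → U | w 0 ∈ {x | Sum.elim c' ![x] ∈ Λ}}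
      rw [e]
      exact h
    · intro hs
      obtain ⟨x, hx, hx'⟩ := k2
      exact hx' (hs hx)
    · intro u hu hul
      obtain ⟨q1, q2, x, hx, hx'⟩ := k3 u hu hul
      exact ⟨q1, q2, fun hs => hx' (hs hx)⟩
    · intro u hu hul u' hu' huu x hx
      exact k4 u hu hul u' hu' huu x hx
    · intro z hz
      obtain ⟨u, hu, hul, huz⟩ := k5 z hz
      exact ⟨u, hu, hul, huz⟩

end Pool.Agent.WOM
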