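import Pool.Agent.WOL.StG2

/-!
WOL gCO: coherence (statement and proof: helper34; Lean: helper32).
-/

set_option autoImplicit false
set_option linter.unusedVariables false

namespace Pool.Agent.WOM

open FirstOrder.Language Set
open scoped FirstOrder

private theorem gCO_zero {U : Type} (A : Set U) (y : ℕ → U) : Bn A y 0 = A := by
  ext x
  simp [Bn]

private theorem gCO_shift {U : Type} (C : Set U) (y : ℕ → U) (n : ℕ) :
    Bn C y (n + 1) = Bn (insert (y 0) C) (fun i => y (i + 1)) n := by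
  ext x
  simp only [Bn, mem_union, mem_image, mem_insert_iff, mem_ofPred_eq]
  constructor
  · rintro (h | ⟨i, hi, rfl⟩)
    · exact Or.inl (Or.inr h)
    · rcases i with _ | i
      · exact Or.inl (Or.inl rfl)
      · exact Or.inr ⟨i, Nat.lt_of_succ_lt_succ hi, rfl⟩
  · rintro ((h | h) | ⟨i, hi, rfl⟩)
    · exact Or.inr ⟨0, Nat.succ_pos n, h.symm⟩
    · exact Or.inl h
    · exact Or.inr ⟨i + 1, Nat.succ_lt_succ hi, rfl⟩

private theorem gCO_fin {U : Type} (A : Set U) (y : ℕ → U) (n : ℕ) (hA : A.Finite) :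
    (Bn A y n).Finite := hA.union ((finite_lt_nat n).image y)

private theorem gCO_trans {L : FirstOrder.Language.{0, 0}} {U : Type} [L.Structure U]
    {A D D' : Set U} (h : Atm L A D) (h' : Atm L D D') : Atm L A D' := by
  induction h' with
  | base => exact h
  | step E y _ hy ih => exact Atm.step E y ih hy

private theorem gCO_bool (s t : Bool) (h : ¬ s = t) : s = !t := by
  cases s <;> cases t <;> first | rfl | exact absurd rfl h

/-- [gCO] -/
theorem thm_gCO (hORB : St_ORB) (hNSB : St_NSB) (hGEX : St_nGEX) (hGER : St_nGER)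
    (hTRA : St_nTRA) (hSDI : St_nSDI) (hTR : St_fTR) (hPN : St_gPN) (hIS : St_gIS)
    (hFC : St_gFC) (hJM : St_gJM) (hTW : St_gTW) : St_gCO := by
  intro L _ U S _ hW hSc hNA hNI n
  have hT : TRV L U := hTR L U hW hSc
  obtain ⟨orb1, orb2, orb3, orb4, -⟩ := hORB L U hW.mon
  obtain ⟨nsb1, nsb2, nsb3, nsb4, -⟩ := hNSB L U
  have gex := hGEX L U hW
  obtain ⟨ger1, ger2, ger3, ger4, ger5, -⟩ := hGER L U hW
  have tra := hTRA L U hW
  obtain ⟨sdi1, sdi2, sdi3, sdi4, sdi5⟩ := hSDI L U hW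
  obtain ⟨-, pn2, -⟩ := hPN L U hW
  obtain ⟨-, -, is3, -, is5⟩ := hIS L U hW hT
  -- germs with the same type
  have same : ∀ (B B' E : Set U) (w w' : U) (t : Bool), B ⊆ E → E.Finite → ¬ SD L B w t →
      Ge L B' w' t E = Ge L B w t E →
      ∀ u ∈ Ge L B w t E, ∀ u' ∈ Ge L B' w' t E, Nn L E u u' := by
    intro B B' E w w' t hBE hE hnd he u hu u' hu'
    rw [he, (gex B E w t hBE hE).2 u hu] at hu'
    refine nsb2 E u u u u' (orb1 E u) hu' ((nsb4 E u).2 ?_)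
    exact sdi5 E u t hE fun h => hnd ((sdi2 B E w u t hBE hE hu).1 h)
  -- persistence of links
  have ps : ∀ (B B' E E' : Set U) (w w' : U) (t : Bool), B ⊆ E → B' ⊆ E → E ⊆ E' → E'.Finite →
      SD L B w (!t) → ¬ SD L B' w' t →
      (∀ u ∈ Ge L B w t E, ∀ u' ∈ Ge L B' w' t E, Nn L E u u') →
      ∀ u ∈ Ge L B w t E', ∀ u' ∈ Ge L B' w' t E', Nn L E' u u' := by
    intro B B' E E' w w' t hBE hB'E hEE' hE' hs hnd h u hu u' hu'
    have hE : E.Finite := hE'.subset hEE'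
    have hu1 := ger2 B E E' w t hBE hEE' hE' hu
    have hu1' := ger2 B' E E' w' t hB'E hEE' hE' hu'
    have h1 : SD L E u (!t) := by
      rcases hNI B E w u t hBE hE hu1 with h2 | h2
      · have h3 : Orb L B u = Orb L B w := orb2 B w u hu1.1
        have h4 : Orb L E u = Orb L B u := h2.trans h3.symm
        rw [(sdi3 B E u hBE hE h4).2 (!t)]
        unfold SD at hs ⊢
        rw [h3]
        exact hs
      · exact h2
    have h2 : ¬ SD L E u' t := fun h3 => hnd ((sdi2 B' E w' u' t hB'E hE hu1').1 h3)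
    refine pn2 E E' u u' u u' t t hEE' hE' (h u hu1 u' hu1') h1 h2 ?_ ?_
    · rw [ger1 B E E' w u t hBE hEE' hE' hu1]
      exact hu
    · rw [ger1 B' E E' w' u' t hB'E hEE' hE' hu1']
      exact hu'
  induction n with
  | zero =>
    intro C y w t σ hC _ hnd hσ
    rw [gCO_zero] at hnd ⊢
    have e : σ '' C = C := by
      have h : σ '' C = id '' C := image_congr fun x hx => hσ x hx
      rw [h, image_id]
    intro u hu u' hu'
    rw [e] at hu hu' ⊢
    exact same C C (C ∪ C) w (σ w) t subset_union_left (hC.union hC) hnd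
      (ger4 C (C ∪ C) w (σ w) t ⟨σ, hσ, rfl⟩) u hu u' hu'
  | succ n ih =>
    intro C y w t σ hC hch hnd hσ
    obtain ⟨b, hb⟩ : ∃ b, b = y 0 := ⟨_, rfl⟩
    obtain ⟨y', hy'⟩ : ∃ y' : ℕ → U, y' = fun i => y (i + 1) := ⟨_, rfl⟩
    have hsh : ∀ m, Bn C y (m + 1) = Bn (insert b C) y' m := by
      intro m
      rw [hb, hy', gCO_shift]
    rw [hsh] at hnd ⊢
    have hch' : Ch L (insert b C) y' n := by
      intro i hi
      have h := hch (i + 1) (Nat.succ_lt_succ hi)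
      rw [hsh] at h
      rw [hy'] at h ⊢
      exact h
    have hisb : Isd L C b := by
      have h := hch 0 (Nat.succ_pos n)
      rw [gCO_zero, ← hb] at h
      exact h
    obtain ⟨B, hB⟩ : ∃ B, B = Bn (insert b C) y' n := ⟨_, rfl⟩
    have hBf : B.Finite := by
      rw [hB]
      exact gCO_fin _ _ _ (hC.insert b)
    have hbCB : insert b C ⊆ B := by
      rw [hB]
      exact subset_union_left
    rw [← hB] at hnd ⊢
    have hct : ∀ τ : U ≃[L] U, Fx L (insert b C) τ → Lk L B w t τ := by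
      intro τ hτ
      have h := ih (insert b C) y' w t τ (hC.insert b) hch' (by rw [← hB]; exact hnd) hτ
      rw [← hB] at h
      exact h
    by_cases hs : SD L B w (!t)
    swap
    · -- two-sided types
      have h2 : ∀ s : Bool, ¬ SD L B w s := by
        intro s
        by_cases hst : s = t
        · rw [hst]; exact hnd
        · rw [gCO_bool s t hst]; exact hs
      have e0 : Orb L B w = Orb L ∅ w := hTW L U hW hSc hNA hNI B w hBf (h2 true) (h2 false)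
      have hE : (B ∪ σ '' B).Finite := hBf.union (hBf.image _)
      have e1 : Orb L (σ '' B) (σ w) = Orb L ∅ (σ w) := by
        rw [orb4, e0, ← orb4, image_empty]
      intro u hu u' hu'
      refine same B (σ '' B) (B ∪ σ '' B) w (σ w) t subset_union_left hE hnd ?_ u hu u' hu'
      rw [ger3 ∅ (σ '' B) (B ∪ σ '' B) (σ w) t (empty_subset _) subset_union_right hE e1,
        ger3 ∅ B (B ∪ σ '' B) w t (empty_subset _) subset_union_left hE e0]
      exact ger4 ∅ (B ∪ σ '' B) w (σ w) t ⟨σ, fun a ha => absurd ha (notMem_empty a), rfl⟩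
    · -- one side is definable
      have hcd : Cd2 L C b y' n w t := by
        refine ⟨⟨hC, hch', ?_, ?_⟩, Or.inl ?_⟩
        · show ¬ SD L (Bn (insert b C) y' n) w t
          rw [← hB]; exact hnd
        · intro τ hτ
          show Lk L (Bn (insert b C) y' n) w t τ
          rw [← hB]; exact hct τ hτ
        · show SD L (Bn (insert b C) y' n) w (!t)
          rw [← hB]; exact hs
      have hBB : BB C b y' n = B := hB.symm
      have hCB : C ⊆ B := (subset_insert b C).trans hbCB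
      have hbB : b ∈ B := hbCB (mem_insert b C)
      obtain ⟨E₀, hE₀d⟩ : ∃ E₀, E₀ = B ∪ σ '' B := ⟨_, rfl⟩
      have hE₀ : E₀.Finite := by
        rw [hE₀d]; exact hBf.union (hBf.image _)
      have hBE₀ : B ⊆ E₀ := by rw [hE₀d]; exact subset_union_left
      have hσBE₀ : σ '' B ⊆ E₀ := by rw [hE₀d]; exact subset_union_right
      have hCE₀ : C ⊆ E₀ := hCB.trans hBE₀
      obtain ⟨⟨a, ha⟩, -⟩ := gex C E₀ b true hCE₀ hE₀
      have hfar1 : Far L C b a := ger2 C (insert b C) E₀ b true (subset_insert b C)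
        (hbCB.trans hBE₀) hE₀ ha
      have hσb : σ b ∈ Orb L C b := ⟨σ, hσ, rfl⟩
      have hσbE : σ b ∈ E₀ := hσBE₀ ⟨b, hbB, rfl⟩
      have hfar2 : Far L C (σ b) a := by
        show a ∈ Ge L C (σ b) true (insert (σ b) C)
        rw [ger4 C (insert (σ b) C) b (σ b) true hσb]
        exact ger2 C (insert (σ b) C) E₀ b true (subset_insert _ C)
          (insert_subset hσbE hCE₀) hE₀ ha
      have hisa : Isd L E₀ a := is5 hNI C E₀ b a true hCE₀ hE₀ hisb ha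
      obtain ⟨κ, hκ, hκb⟩ := ha.1
      obtain ⟨fc1, -, fc3, -, -, fc6⟩ := hFC L U hW hT C (insert b C) y' n (hC.insert b)
        (subset_insert b C)
      obtain ⟨E₁, hE₁d⟩ : ∃ E₁, E₁ = insert a E₀ := ⟨_, rfl⟩
      have hE₁ : E₁.Finite := by rw [hE₁d]; exact hE₀.insert a
      have hE₀₁ : E₀ ⊆ E₁ := by rw [hE₁d]; exact subset_insert a E₀
      have haE₁ : a ∈ E₁ := by rw [hE₁d]; exact mem_insert a E₀
      obtain ⟨ρ₁, hρ₁, hρ₁A⟩ := fc1 E₁ (FirstOrder.Language.Equiv.refl L U) hE₁ (fun _ _ => rfl)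
      have hρ₁A' : ∀ x ∈ insert b C, ρ₁ x = x := fun x hx => hρ₁A x hx
      obtain ⟨E₂, hE₂d⟩ : ∃ E₂, E₂ = E₁ ∪ ρ₁ '' B := ⟨_, rfl⟩
      have hE₂ : E₂.Finite := by rw [hE₂d]; exact hE₁.union (hBf.image _)
      have hE₁₂ : E₁ ⊆ E₂ := by rw [hE₂d]; exact subset_union_left
      have hρ₁E₂ : ρ₁ '' B ⊆ E₂ := by rw [hE₂d]; exact subset_union_right
      obtain ⟨ρ₂, hρ₂, hρ₂A⟩ := fc1 E₂ σ hE₂ hσ
      obtain ⟨E₃, hE₃d⟩ : ∃ E₃, E₃ = E₂ ∪ ρ₂ '' B := ⟨_, rfl⟩
      have hE₃ : E₃.Finite := by rw [hE₃d]; exact hE₂.union (hBf.image _)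
      have hE₂₃ : E₂ ⊆ E₃ := by rw [hE₃d]; exact subset_union_left
      have hρ₂E₃ : ρ₂ '' B ⊆ E₃ := by rw [hE₃d]; exact subset_union_right
      obtain ⟨ρ₃, hρ₃, hρ₃A⟩ := fc1 E₃ κ hE₃ hκ
      obtain ⟨E, hEd⟩ : ∃ E, E = E₃ ∪ ρ₃ '' B := ⟨_, rfl⟩
      have hE : E.Finite := by rw [hEd]; exact hE₃.union (hBf.image _)
      have hE₃E : E₃ ⊆ E := by rw [hEd]; exact subset_union_left
      have hρ₃E : ρ₃ '' B ⊆ E := by rw [hEd]; exact subset_union_right
      have hE₁₃ : E₁ ⊆ E₃ := hE₁₂.trans hE₂₃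
      have hE₂E : E₂ ⊆ E := hE₂₃.trans hE₃E
      have hE₁E : E₁ ⊆ E := hE₁₂.trans hE₂E
      have hE₀E : E₀ ⊆ E := hE₀₁.trans hE₁E
      have hBE : B ⊆ E := hBE₀.trans hE₀E
      have hσBE : σ '' B ⊆ E := hσBE₀.trans hE₀E
      have hρ₁E : ρ₁ '' B ⊆ E := hρ₁E₂.trans hE₂E
      have hρ₂E : ρ₂ '' B ⊆ E := hρ₂E₃.trans hE₃E
      have hCE₁ : C ⊆ E₁ := hCE₀.trans hE₀₁
      have hbE₁ : b ∈ E₁ := hE₀₁ (hBE₀ hbB)
      -- the chain of bases
      have hsub1 : ρ₁ '' insert b C ⊆ E₁ := by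
        rintro _ ⟨x, hx, rfl⟩
        rw [hρ₁A' x hx]
        exact insert_subset hbE₁ hCE₁ hx
      have hsub2 : ρ₂ '' insert b C ⊆ E₂ := by
        rintro _ ⟨x, hx, rfl⟩
        rw [hρ₂A x hx]
        exact hE₁₂ (hE₀₁ (hσBE₀ ⟨x, hbCB hx, rfl⟩))
      have hsub3 : ρ₃ '' insert b C ⊆ E₃ := by
        rintro _ ⟨x, hx, rfl⟩
        rw [hρ₃A x hx]
        rcases hx with rfl | hx
        · rw [hκb]; exact hE₁₃ haE₁
        · rw [hκ x hx]; exact hE₁₃ (hCE₁ hx)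
      have hA1 : Atm L E₀ E₁ := by
        rw [hE₁d]; exact Atm.step E₀ a Atm.base hisa
      have hA2 : Atm L E₁ E₂ := by
        have h := fc6 hNI hch' E₁ ρ₁ hE₁ hsub1 hρ₁
        rw [← hB, ← hE₂d] at h
        exact h
      have hA3 : Atm L E₂ E₃ := by
        have h := fc6 hNI hch' E₂ ρ₂ hE₂ hsub2 hρ₂
        rw [← hB, ← hE₃d] at h
        exact h
      have hA4 : Atm L E₃ E := by
        have h := fc6 hNI hch' E₃ ρ₃ hE₃ hsub3 hρ₃
        rw [← hB, ← hEd] at h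
        exact h
      have hAtm : Atm L E₀ E := gCO_trans hA1 (gCO_trans hA2 (gCO_trans hA3 hA4))
      -- sides of the germs
      have hsi : ∀ τ : U ≃[L] U, SD L (τ '' B) (τ w) (!t) := fun τ => ((sdi4 τ B w).2 (!t)).2 hs
      have hndi : ∀ τ : U ≃[L] U, ¬ SD L (τ '' B) (τ w) t := fun τ h =>
        hnd (((sdi4 τ B w).2 t).1 h)
      -- links
      have l1 : ∀ u ∈ Ge L B w t E, ∀ u' ∈ Ge L (ρ₁ '' B) (ρ₁ w) t E, Nn L E u u' :=
        ps B (ρ₁ '' B) (B ∪ ρ₁ '' B) E w (ρ₁ w) t subset_union_left subset_union_right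
          (union_subset hBE hρ₁E) hE hs (hndi ρ₁) (hct ρ₁ hρ₁A')
      have hρ₁b : ρ₁ b = b := hρ₁A' b (mem_insert b C)
      have hρ₂b : ρ₂ b = σ b := hρ₂A b (mem_insert b C)
      have hρ₃b : ρ₃ b = a := (hρ₃A b (mem_insert b C)).trans hκb
      have l2 : ∀ u ∈ Ge L (ρ₁ '' B) (ρ₁ w) t E, ∀ u' ∈ Ge L (ρ₃ '' B) (ρ₃ w) t E,
          Nn L E u u' := by
        have h := hJM L U hW hSc hNI C b y' n w t hcd b (orb1 C b) a hfar1 ρ₁ ρ₃
          (fc3 E₁ _ ρ₁ hE₁ (insert_subset hbE₁ (insert_subset haE₁ hCE₁)) hρ₁) hρ₁b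
          (fc3 E₃ _ ρ₃ hE₃ (insert_subset (hE₁₃ haE₁) (by
            rw [hBB]; exact hρ₁E₂.trans hE₂₃)) hρ₃) hρ₃b
        rw [hBB] at h
        exact ps (ρ₁ '' B) (ρ₃ '' B) (ρ₁ '' B ∪ ρ₃ '' B) E (ρ₁ w) (ρ₃ w) t subset_union_left
          subset_union_right (union_subset hρ₁E hρ₃E) hE (hsi ρ₁) (hndi ρ₃) h
      have l3 : ∀ u ∈ Ge L (ρ₂ '' B) (ρ₂ w) t E, ∀ u' ∈ Ge L (ρ₃ '' B) (ρ₃ w) t E,
          Nn L E u u' := by
        have h := hJM L U hW hSc hNI C b y' n w t hcd (σ b) hσb a hfar2 ρ₂ ρ₃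
          (fc3 E₂ _ ρ₂ hE₂ (insert_subset (hE₁₂ (hE₀₁ hσbE))
            (insert_subset (hE₁₂ haE₁) (hCE₁.trans hE₁₂))) hρ₂) hρ₂b
          (fc3 E₃ _ ρ₃ hE₃ (insert_subset (hE₁₃ haE₁) (by
            rw [hBB]; exact hρ₂E₃)) hρ₃) hρ₃b
        rw [hBB] at h
        exact ps (ρ₂ '' B) (ρ₃ '' B) (ρ₂ '' B ∪ ρ₃ '' B) E (ρ₂ w) (ρ₃ w) t subset_union_left
          subset_union_right (union_subset hρ₂E hρ₃E) hE (hsi ρ₂) (hndi ρ₃) h
      have l4 : ∀ u ∈ Ge L (σ '' B) (σ w) t E, ∀ u' ∈ Ge L (ρ₂ '' B) (ρ₂ w) t E,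
          Nn L E u u' := by
        obtain ⟨τ, hτd⟩ : ∃ τ : U ≃[L] U, τ = σ.symm.comp ρ₂ := ⟨_, rfl⟩
        have hστ : ∀ x, σ (τ x) = ρ₂ x := by
          intro x
          rw [hτd]
          exact σ.apply_symm_apply (ρ₂ x)
        have hτ : Fx L (insert b C) τ := by
          intro x hx
          rw [hτd]
          show σ.symm (ρ₂ x) = x
          rw [hρ₂A x hx]
          exact σ.symm_apply_apply x
        have himg : σ '' (τ '' B) = ρ₂ '' B := by
          rw [← image_comp]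
          exact image_congr fun x _ => hστ x
        have h := hct τ hτ
        have h2 : ∀ u ∈ Ge L (σ '' B) (σ w) t (σ '' B ∪ ρ₂ '' B),
            ∀ u' ∈ Ge L (ρ₂ '' B) (ρ₂ w) t (σ '' B ∪ ρ₂ '' B),
            Nn L (σ '' B ∪ ρ₂ '' B) u u' := by
          have eE : σ '' B ∪ ρ₂ '' B = σ '' (B ∪ τ '' B) := by rw [image_union, himg]
          rw [eE]
          intro u hu u' hu'
          rw [ger5] at hu
          rw [← himg, ← hστ w, ger5] at hu'
          obtain ⟨v, hv, rfl⟩ := hu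
          obtain ⟨v', hv', rfl⟩ := hu'
          exact nsb3 σ (B ∪ τ '' B) v v' (h v hv v' hv')
        exact ps (σ '' B) (ρ₂ '' B) (σ '' B ∪ ρ₂ '' B) E (σ w) (ρ₂ w) t subset_union_left
          subset_union_right (union_subset hσBE hρ₂E) hE (hsi σ) (hndi ρ₂) h2
      -- the composition
      have l5 : ∀ u ∈ Ge L B w t E, ∀ u' ∈ Ge L (σ '' B) (σ w) t E, Nn L E u u' := by
        intro u hu u' hu'
        obtain ⟨⟨x₁, hx₁⟩, -⟩ := gex (ρ₁ '' B) E (ρ₁ w) t hρ₁E hE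
        obtain ⟨⟨x₂, hx₂⟩, -⟩ := gex (ρ₂ '' B) E (ρ₂ w) t hρ₂E hE
        obtain ⟨⟨x₃, hx₃⟩, -⟩ := gex (ρ₃ '' B) E (ρ₃ w) t hρ₃E hE
        have m1 := l1 u hu x₁ hx₁
        have m2 := l2 x₁ hx₁ x₃ hx₃
        have m3 := nsb1 _ _ _ (l3 x₂ hx₂ x₃ hx₃)
        have m4 := nsb1 _ _ _ (l4 u' hu' x₂ hx₂)
        exact tra E u x₁ u' hE m1 (tra E x₁ x₃ u' hE m2 (tra E x₃ x₂ u' hE m3 m4))
      -- back to `E₀`
      have hniso : ∀ τ : U ≃[L] U, τ '' B ⊆ E₀ → ∀ u ∈ Ge L (τ '' B) (τ w) t E₀,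
          ¬ Isd L E₀ u := by
        intro τ hτ u hu hi
        have h1 := (sdi1 E₀ u hE₀).1 hi
        have h2 : SD L E₀ u t := by
          cases t
          · exact h1.2
          · exact h1.1
        exact hndi τ ((sdi2 (τ '' B) E₀ (τ w) u t hτ hE₀ hu).1 h2)
      have hrefl : (FirstOrder.Language.Equiv.refl L U) '' B = B := by
        have h : (FirstOrder.Language.Equiv.refl L U) '' B = id '' B :=
          image_congr fun x _ => rfl
        rw [h, image_id]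
      intro v hv v' hv'
      rw [← hE₀d] at hv hv' ⊢
      obtain ⟨⟨u, hu⟩, -⟩ := gex B E w t hBE hE
      obtain ⟨⟨u', hu'⟩, -⟩ := gex (σ '' B) E (σ w) t hσBE hE
      have hu0 : u ∈ Ge L B w t E₀ := ger2 B E₀ E w t hBE₀ hE₀E hE hu
      have hu0' : u' ∈ Ge L (σ '' B) (σ w) t E₀ := ger2 (σ '' B) E₀ E (σ w) t hσBE₀ hE₀E hE hu'
      have hiu : ¬ Isd L E₀ u := by
        refine hniso (FirstOrder.Language.Equiv.refl L U) (by rw [hrefl]; exact hBE₀) u ?_
        rw [hrefl]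
        exact hu0
      have hiu' : ¬ Isd L E₀ u' := hniso σ hσBE₀ u' hu0'
      have hN : Nn L E₀ u u' := is3 E₀ E u u' hE₀ hAtm hiu hiu' (l5 u hu u' hu')
      refine nsb2 E₀ u u' v v' ?_ ?_ hN
      · rw [← (gex B E₀ w t hBE₀ hE₀).2 u hu0]
        exact hv
      · rw [← (gex (σ '' B) E₀ (σ w) t hσBE₀ hE₀).2 u' hu0']
        exact hv'

end Pool.Agent.WOM
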