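import Pool.Agent.WOL.StG4

/-!
WOL [gCX]: coherence for far elements
-/

set_option autoImplicit false

namespace Pool.Agent.WOM

open FirstOrder.Language Set
open scoped FirstOrder

section

variable {L : FirstOrder.Language.{0, 0}} {U : Type} [L.Structure U]

private theorem gCX_trans {A D E : Set U} (h1 : Atm L A D) (h2 : Atm L D E) : Atm L A E := by
  induction h2 with
  | base => exact h1
  | step F y _ hy ih => exact Atm.step F y ih hy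

private theorem gCX_ps [LinearOrder U] (hW : Wn L U) (hORB : St_ORB) (hGEX : St_nGEX)
    (hGER : St_nGER) (hSDI : St_nSDI) (hPN : St_gPN) (hNI : NI L U)
    {B B' E₁ E : Set U} {w w' : U} {t : Bool}
    (hB : B ⊆ E₁) (hB' : B' ⊆ E₁) (hE : E₁ ⊆ E) (hEf : E.Finite)
    (hsd : SD L B w (!t)) (hnd' : ¬ SD L B' w' t)
    (hl : ∀ u ∈ Ge L B w t E₁, ∀ u' ∈ Ge L B' w' t E₁, Nn L E₁ u u') :
    ∀ u ∈ Ge L B w t E, ∀ u' ∈ Ge L B' w' t E, Nn L E u u' := by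
  intro u hu u' hu'
  have hE₁f : E₁.Finite := hEf.subset hE
  obtain ⟨u₁, hu₁⟩ := (hGEX L U hW B E₁ w t hB hE₁f).1
  obtain ⟨v₁, hv₁⟩ := (hGEX L U hW B' E₁ w' t hB' hE₁f).1
  obtain ⟨g1, g2, g3, g4, g5, g6, g7, g8⟩ := hGER L U hW
  obtain ⟨s1, s2, s3, s4, s5⟩ := hSDI L U hW
  obtain ⟨p1, p2, p3⟩ := hPN L U hW
  have a1 : SD L E₁ u₁ (!t) := by
    rcases hNI B E₁ w u₁ t hB hE₁f hu₁ with h | h
    · have h2 : Orb L B u₁ = Orb L B w := (hORB L U hW.mon).2.1 B w u₁ hu₁.1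
      have h3 : SD L B u₁ (!t) := by
        unfold SD at hsd ⊢
        rw [h2]
        exact hsd
      exact ((s3 B E₁ u₁ hB hE₁f (h.trans h2.symm)).2 (!t)).2 h3
    · exact h
  have a2 : ¬ SD L E₁ v₁ t := fun h => hnd' ((s2 B' E₁ w' v₁ t hB' hE₁f hv₁).1 h)
  have a3 : u ∈ Ge L E₁ u₁ t E := by
    rw [g1 B E₁ E w u₁ t hB hE hEf hu₁]
    exact hu
  have a4 : u' ∈ Ge L E₁ v₁ t E := by
    rw [g1 B' E₁ E w' v₁ t hB' hE hEf hv₁]
    exact hu'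
  exact p2 E₁ E u₁ v₁ u u' t t hE hEf (hl u₁ hu₁ v₁ hv₁) a1 a2 a3 a4

end

theorem thm_gCX (hORB : St_ORB) (hNSB : St_NSB) (hGEX : St_nGEX) (hGER : St_nGER)
    (hTRA : St_nTRA) (hSDI : St_nSDI) (hTR : St_fTR) (hFC : St_gFC) (hIS : St_gIS)
    (hPN : St_gPN) (hLG : St_gLG) (hJM : St_gJM) : St_gCX := by
  intro L _ U S _ hW hSc hNI C b y n w t hC hsd σ hσ hfar
  have hT : TRV L U := hTR L U hW hSc
  have hCd2 : Cd2 L C b y n w t := ⟨hC, Or.inl hsd⟩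
  set A : Set U := insert b C with hA
  have hAf : A.Finite := hC.fin.insert b
  have hCA : C ⊆ A := subset_insert _ _
  have hbA : b ∈ A := mem_insert _ _
  set B : Set U := BB C b y n with hBdef
  have hBB : B = Bn A y n := rfl
  have hAB : A ⊆ B := subset_union_left
  have hBf : B.Finite := hAf.union ((Set.finite_lt_nat n).image y)
  set E₀ : Set U := B ∪ σ '' B with hE₀
  have hE₀f : E₀.Finite := hBf.union (hBf.image σ)
  obtain ⟨f1, -, f3, -, -, f6⟩ := hFC L U hW hT C A y n hAf hCA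
  obtain ⟨ρ, hρ, hρA⟩ := f1 E₀ (FirstOrder.Language.Equiv.refl L U) hE₀f (fun _ _ => rfl)
  have hρA' : ∀ a ∈ A, ρ a = a := hρA
  set E₁ : Set U := E₀ ∪ ρ '' B with hE₁
  have hE₁f : E₁.Finite := hE₀f.union (hBf.image ρ)
  obtain ⟨ρ', hρ', hρB⟩ := f1 E₁ σ hE₁f hσ
  set E : Set U := E₁ ∪ ρ' '' B with hE
  have hEf : E.Finite := hE₁f.union (hBf.image ρ')
  have i0 : B ⊆ E₀ := subset_union_left
  have i1 : σ '' B ⊆ E₀ := subset_union_right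
  have i2 : E₀ ⊆ E₁ := subset_union_left
  have i3 : ρ '' B ⊆ E₁ := subset_union_right
  have i4 : E₁ ⊆ E := subset_union_left
  have i5 : ρ' '' B ⊆ E := subset_union_right
  obtain ⟨g1, g2, g3, g4, g5, g6, g7, g8⟩ := hGER L U hW
  obtain ⟨s1, s2, s3, s4, s5⟩ := hSDI L U hW
  obtain ⟨n1, n2, n3, n4, n5, n6⟩ := hNSB L U
  obtain ⟨o1, o2, -, -, -, -, -, -, -⟩ := hORB L U hW.mon
  have hnd : ¬ SD L B w t := hC.nd
  have ndτ : ∀ τ : U ≃[L] U, ¬ SD L (τ '' B) (τ w) t := fun τ h => hnd (((s4 τ B w).2 t).1 h)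
  have sdτ : ∀ τ : U ≃[L] U, SD L (τ '' B) (τ w) (!t) := fun τ => ((s4 τ B w).2 (!t)).2 hsd
  -- first link
  have l1 : ∀ u ∈ Ge L B w t E, ∀ u' ∈ Ge L (ρ '' B) (ρ w) t E, Nn L E u u' := by
    refine gCX_ps hW hORB hGEX hGER hSDI hPN hNI (E₁ := B ∪ ρ '' B) subset_union_left
      subset_union_right ?_ hEf hsd (ndτ ρ) ?_
    · exact union_subset (i0.trans (i2.trans i4)) (i3.trans i4)
    · exact hC.ct ρ hρA'
  -- second link
  have l2 : ∀ u ∈ Ge L (σ '' B) (σ w) t E, ∀ u' ∈ Ge L (ρ' '' B) (ρ' w) t E, Nn L E u u' := by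
    refine gCX_ps hW hORB hGEX hGER hSDI hPN hNI (E₁ := σ '' B ∪ ρ' '' B) subset_union_left
      subset_union_right ?_ hEf (sdτ σ) (ndτ ρ') ?_
    · exact union_subset (i1.trans (i2.trans i4)) i5
    · set κ : U ≃[L] U := σ.symm.comp ρ' with hκ
      have hκv : ∀ x, κ x = σ.symm (ρ' x) := fun _ => rfl
      have hσκ : ∀ x, σ (κ x) = ρ' x := fun x => by rw [hκv, σ.apply_symm_apply]
      have hκf : Fx L (insert b C) κ := by
        intro a ha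
        rw [hκv, hρB a ha, σ.symm_apply_apply]
      have hct := hC.ct κ hκf
      have e1 : ρ' '' B = σ '' (κ '' B) := by
        rw [image_image]
        exact image_congr fun x _ => (hσκ x).symm
      have e2 : σ '' B ∪ ρ' '' B = σ '' (B ∪ κ '' B) := by
        rw [image_union, e1]
      intro u hu u' hu'
      rw [e2] at hu hu' ⊢
      rw [g5] at hu
      rw [e1, ← hσκ w, g5] at hu'
      obtain ⟨u₀, hu₀, rfl⟩ := hu
      obtain ⟨v₀, hv₀, rfl⟩ := hu'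
      exact n3 σ _ _ _ (hct u₀ hu₀ v₀ hv₀)
  -- third link
  have hσb : σ b ∈ Orb L C b := ⟨σ, hσ, rfl⟩
  have hLGb : LG L C b y n w t b (σ b) := by
    rcases hfar with h | h
    · exact hJM L U hW hSc hNI C b y n w t hCd2 b (o1 C b) (σ b) h
    · exact (hLG L U hW hT hNI C b y n w t hCd2 (σ b) b hσb (o1 C b)).2.2
        (hJM L U hW hSc hNI C b y n w t hCd2 (σ b) hσb b h)
  have l3 : ∀ u ∈ Ge L (ρ '' B) (ρ w) t E, ∀ u' ∈ Ge L (ρ' '' B) (ρ' w) t E, Nn L E u u' := by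
    refine gCX_ps hW hORB hGEX hGER hSDI hPN hNI (E₁ := ρ '' B ∪ ρ' '' B) subset_union_left
      subset_union_right ?_ hEf (sdτ ρ) (ndτ ρ') ?_
    · exact union_subset (i3.trans i4) i5
    · refine hLGb ρ ρ' ?_ (hρA' b hbA) ?_ (hρB b hbA)
      · refine f3 E₀ _ ρ hE₀f ?_ hρ
        intro x hx
        rcases hx with rfl | rfl | hx
        · exact i0 (hAB hbA)
        · exact i1 ⟨b, hAB hbA, rfl⟩
        · exact i0 (hAB (hCA hx))
      · refine f3 E₁ _ ρ' hE₁f ?_ hρ'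
        intro x hx
        rcases hx with rfl | hx
        · exact i2 (i1 ⟨b, hAB hbA, rfl⟩)
        · exact i3 hx
  -- the chain
  have hat : Atm L E₀ E := by
    have a1 : Atm L E₀ E₁ := by
      refine f6 hNI hC.ch E₀ ρ hE₀f ?_ hρ
      rintro _ ⟨a, ha, rfl⟩
      rw [hρA' a ha]
      exact i0 (hAB ha)
    have a2 : Atm L E₁ E := by
      refine f6 hNI hC.ch E₁ ρ' hE₁f ?_ hρ'
      rintro _ ⟨a, ha, rfl⟩
      rw [hρB a ha]
      exact i2 (i1 ⟨a, hAB ha, rfl⟩)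
    exact gCX_trans a1 a2
  intro u hu u' hu'
  obtain ⟨u₁, hu₁⟩ := (hGEX L U hW B E w t (i0.trans (i2.trans i4)) hEf).1
  obtain ⟨v₁, hv₁⟩ := (hGEX L U hW (σ '' B) E (σ w) t (i1.trans (i2.trans i4)) hEf).1
  obtain ⟨u₂, hu₂⟩ := (hGEX L U hW (ρ '' B) E (ρ w) t (i3.trans i4) hEf).1
  obtain ⟨v₂, hv₂⟩ := (hGEX L U hW (ρ' '' B) E (ρ' w) t i5 hEf).1
  have k1 : Nn L E u₁ v₂ := hTRA L U hW E u₁ u₂ v₂ hEf (l1 u₁ hu₁ u₂ hu₂) (l3 u₂ hu₂ v₂ hv₂)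
  have k2 : Nn L E u₁ v₁ := hTRA L U hW E u₁ v₂ v₁ hEf k1 (n1 E v₁ v₂ (l2 v₁ hv₁ v₂ hv₂))
  have m1 : u₁ ∈ Ge L B w t E₀ := g2 B E₀ E w t i0 (i2.trans i4) hEf hu₁
  have m2 : v₁ ∈ Ge L (σ '' B) (σ w) t E₀ := g2 (σ '' B) E₀ E (σ w) t i1 (i2.trans i4) hEf hv₁
  have ni1 : ¬ Isd L E₀ u₁ := by
    intro h
    have h2 := (s1 E₀ u₁ hE₀f).1 h
    have h3 : SD L E₀ u₁ t := by
      cases t
      · exact h2.2
      · exact h2.1
    exact hnd ((s2 B E₀ w u₁ t i0 hE₀f m1).1 h3)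
  have ni2 : ¬ Isd L E₀ v₁ := by
    intro h
    have h2 := (s1 E₀ v₁ hE₀f).1 h
    have h3 : SD L E₀ v₁ t := by
      cases t
      · exact h2.2
      · exact h2.1
    exact ndτ σ ((s2 (σ '' B) E₀ (σ w) v₁ t i1 hE₀f m2).1 h3)
  have k3 : Nn L E₀ u₁ v₁ :=
    (hIS L U hW hT).2.2.1 E₀ E u₁ v₁ hE₀f hat ni1 ni2 k2
  refine n2 E₀ u₁ v₁ u u' ?_ ?_ k3
  · rw [← (hGEX L U hW B E₀ w t i0 hE₀f).2 u₁ m1]
    exact hu
  · rw [← (hGEX L U hW (σ '' B) E₀ (σ w) t i1 hE₀f).2 v₁ m2]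
    exact hu'

end Pool.Agent.WOM
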