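import Pool.Agent.WOL.StG2

/-!
WOL, module gEX: exchange of chains (helper59; statement and proof by helper34).
-/

set_option autoImplicit false
set_option linter.unusedVariables false

namespace Pool.Agent.WOM

open FirstOrder.Language Set
open scoped FirstOrder

private theorem gEX_zero {U : Type} (A : Set U) (y : ℕ → U) : Bn A y 0 = A := by
  unfold Bn
  have h : {i : ℕ | i < 0} = ∅ := by
    ext i
    simp
  rw [h, image_empty, union_empty]

private theorem gEX_succ {U : Type} (A : Set U) (y : ℕ → U) (n : ℕ) :
    Bn A y (n + 1) = insert (y n) (Bn A y n) := by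
  unfold Bn
  have h : {i : ℕ | i < n + 1} = insert n {i : ℕ | i < n} := by
    ext i
    show i < n + 1 ↔ i = n ∨ i < n
    omega
  rw [h, image_insert_eq, union_insert]

private theorem gEX_fin {U : Type} (A : Set U) (hA : A.Finite) (y : ℕ → U) (n : ℕ) :
    (Bn A y n).Finite := by
  unfold Bn
  exact hA.union ((finite_lt_nat n).image y)

private theorem gEX_comm {U : Type} (A : Set U) (x z : ℕ → U) (n m : ℕ) :
    Bn (Bn A x n) z m = Bn (Bn A z m) x n := by
  unfold Bn
  rw [union_assoc, union_assoc, union_comm (x '' _) (z '' _)]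

private theorem gEX_congr {U : Type} (A : Set U) (x y : ℕ → U) (n : ℕ) (h : ∀ i < n, x i = y i) :
    Bn A x n = Bn A y n := by
  have e : x '' {i | i < n} = y '' {i | i < n} := image_congr fun i hi => h i hi
  unfold Bn
  rw [e]

/-- [gEX] -/
theorem thm_gEX (hIS : St_gIS) : St_gEX := by
  intro L U _ _ hW hT
  obtain ⟨-, -, -, i4, -⟩ := hIS L U hW hT
  refine ⟨?_, ?_, ?_⟩
  · intro A x z n m hA
    induction n with
    | zero =>
      intro _ hz
      rw [gEX_zero] at hz
      exact ⟨hz, fun i hi => absurd hi (Nat.not_lt_zero i)⟩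
    | succ n ih =>
      intro hx hz
      rw [gEX_succ] at hz
      obtain ⟨h1, h2⟩ := i4 (Bn A x n) (x n) z m (gEX_fin A hA x n) (hx n (Nat.lt_succ_self n)) hz
      obtain ⟨h3, h4⟩ := ih (fun i hi => hx i (Nat.lt_succ_of_lt hi)) h1
      refine ⟨h3, fun i hi => ?_⟩
      rcases Nat.lt_succ_iff_lt_or_eq.1 hi with hi | hi
      · exact h4 i hi
      · subst hi
        rw [← gEX_comm]
        exact h2
  · intro A x n
    induction n with
    | zero =>
      intro _
      rw [gEX_zero]
      exact Atm.base
    | succ n ih =>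
      intro hx
      rw [gEX_succ]
      exact Atm.step _ _ (ih fun i hi => hx i (Nat.lt_succ_of_lt hi)) (hx n (Nat.lt_succ_self n))
  · intro A D hD
    have : Infinite U := hW.mon.inf
    obtain ⟨u₀⟩ : Nonempty U := inferInstance
    induction hD with
    | base => exact ⟨fun _ => u₀, 0, fun i hi => absurd hi (Nat.not_lt_zero i), (gEX_zero A _).symm⟩
    | step D y hD hy ih =>
      obtain ⟨x, n, hx, rfl⟩ := ih
      have hne : ∀ i < n, Function.update x n y i = x i := fun i hi =>
        Function.update_of_ne (Nat.ne_of_lt hi) y x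
      have hBn : ∀ i ≤ n, Bn A (Function.update x n y) i = Bn A x i := fun i hi =>
        gEX_congr A _ _ i fun j hj => hne j (lt_of_lt_of_le hj hi)
      refine ⟨Function.update x n y, n + 1, fun i hi => ?_, ?_⟩
      · rcases Nat.lt_succ_iff_lt_or_eq.1 hi with hi | hi
        · rw [hBn i hi.le, hne i hi]
          exact hx i hi
        · subst hi
          rw [hBn i le_rfl, Function.update_self]
          exact hy
      · rw [gEX_succ, hBn n le_rfl, Function.update_self]

end Pool.Agent.WOM
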