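import Pool.Agent.WOL.StG3

/-!
WOL gF2: killing one type (statement and proof: helper34; Lean: helper18).
-/

set_option autoImplicit false
set_option linter.unusedVariables false

namespace Pool.Agent.WOM

open FirstOrder.Language Set
open scoped FirstOrder

private theorem gF2_img {L : FirstOrder.Language.{0, 0}} {U : Type} [L.Structure U]
    (τ σ : U ≃[L] U) (X : Set U) : (τ.comp σ) '' X = τ '' (σ '' X) := by
  ext x
  constructor
  · rintro ⟨z, hz, rfl⟩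
    exact ⟨σ z, ⟨z, hz, rfl⟩, rfl⟩
  · rintro ⟨_, ⟨z, hz, rfl⟩, rfl⟩
    exact ⟨z, hz, rfl⟩

private theorem gF2_symm_img {L : FirstOrder.Language.{0, 0}} {U : Type} [L.Structure U]
    (τ : U ≃[L] U) (X : Set U) : τ.symm '' (τ '' X) = X := by
  ext x
  constructor
  · rintro ⟨_, ⟨z, hz, rfl⟩, rfl⟩
    rw [τ.symm_apply_apply]
    exact hz
  · intro hx
    exact ⟨τ x, ⟨x, hx, rfl⟩, τ.symm_apply_apply x⟩

private theorem gF2_img_symm {L : FirstOrder.Language.{0, 0}} {U : Type} [L.Structure U]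
    (τ : U ≃[L] U) (X : Set U) : τ '' (τ.symm '' X) = X := by
  ext x
  constructor
  · rintro ⟨_, ⟨z, hz, rfl⟩, rfl⟩
    rw [τ.apply_symm_apply]
    exact hz
  · intro hx
    exact ⟨τ.symm x, ⟨x, hx, rfl⟩, τ.apply_symm_apply x⟩

private theorem gF2_succ {U : Type} (A : Set U) (z : ℕ → U) (m : ℕ) :
    Bn A z (m + 1) = insert (z m) (Bn A z m) := by
  ext x
  simp only [Bn, mem_union, mem_image, mem_ofPred_eq, mem_insert_iff]
  constructor
  · rintro (h | ⟨i, hi, rfl⟩)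
    · exact Or.inr (Or.inl h)
    · rcases Nat.lt_succ_iff_lt_or_eq.1 hi with h | h
      · exact Or.inr (Or.inr ⟨i, h, rfl⟩)
      · subst h; exact Or.inl rfl
  · rintro (h | h | ⟨i, hi, rfl⟩)
    · exact Or.inr ⟨m, Nat.lt_succ_self m, h.symm⟩
    · exact Or.inl h
    · exact Or.inr ⟨i, Nat.lt_succ_of_lt hi, rfl⟩

private theorem gF2_mono {U : Type} (A : Set U) (z : ℕ → U) {j m : ℕ} (h : j ≤ m) :
    Bn A z j ⊆ Bn A z m := by
  rintro x (hx | ⟨i, hi, rfl⟩)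
  · exact Or.inl hx
  · exact Or.inr ⟨i, lt_of_lt_of_le hi h, rfl⟩

private theorem gF2_fin {U : Type} {A : Set U} (hA : A.Finite) (z : ℕ → U) (m : ℕ) :
    (Bn A z m).Finite := hA.union ((finite_lt_nat m).image z)

private theorem gF2_chain {L : FirstOrder.Language.{0, 0}} {U : Type} [L.Structure U]
    (A : Set U) (z : ℕ → U) (m j : ℕ) (h : Ch L A z m) (hj : j ≤ m) :
    Atm L (Bn A z j) (Bn A z m) := by
  induction m with
  | zero =>
    obtain rfl : j = 0 := by omega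
    exact Atm.base
  | succ m ih =>
    rcases Nat.lt_or_ge m j with h1 | h1
    · obtain rfl : j = m + 1 := by omega
      exact Atm.base
    · rw [gF2_succ]
      exact Atm.step _ _ (ih (fun i hi => h i (by omega)) h1) (h m (by omega))

private theorem gF2_far {L : FirstOrder.Language.{0, 0}} {U : Type} [L.Structure U] [LinearOrder U]
    {D : Set U} {y : ℕ → U} {m j : ℕ} {σ : U ≃[L] U} (h : Fc L ∅ D ∅ y m σ) (hj : j ≤ m) :
    Fc L ∅ D ∅ y j σ := ⟨h.fx, fun i hi => h.far i (lt_of_lt_of_le hi hj)⟩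

/-- [gF2] -/
theorem thm_gF2 (hORB : St_ORB) (hNSB : St_NSB) (hGER : St_nGER) (hSDI : St_nSDI)
    (hTRA : St_nTRA) (hSAT : St_SAT) (hTR : St_fTR) (hPN : St_gPN) (hTS : St_gTS) (hFC : St_gFC)
    (hCO : St_gCO) (hQN : St_gQN) : St_gF2 := by
  intro L _ U inst _ hW hSc hNA hNI y k w hSq D S n hD hS hnS hn
  have hT : TRV L U := hTR L U hW hSc
  obtain ⟨orb1, orb2, orb3, orb4, -⟩ := hORB L U hW.mon
  obtain ⟨nsb1, nsb2, nsb3, -⟩ := hNSB L U
  obtain ⟨-, -, ger3, -, ger5, ger6, -⟩ := hGER L U hW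
  obtain ⟨sdi1, -, sdi3, sdi4, -⟩ := hSDI L U hW
  have tra := hTRA L U hW
  obtain ⟨pn1, -⟩ := hPN L U hW
  have ts := hTS L U hW hT
  have sat := hSAT L U hW
  have qn := fun i => hQN L U hW hT hNI y (k i) (w i) (hSq.ch i) (hSq.ni i)
  have fc := fun i => hFC L U hW hT ∅ ∅ y (k i) finite_empty Subset.rfl
  have hYf : ∀ i, (Bn ∅ y (k i)).Finite := fun i => gF2_fin finite_empty y (k i)
  have hemp : ∀ (σ : U ≃[L] U) (E : Set U), σ '' (∅ : Set U) ⊆ E := by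
    intro σ E
    rw [image_empty]
    exact empty_subset E
  -- existence of far copies
  have hex : ∀ (i : ℕ) (E : Set U), E.Finite → ∃ σ : U ≃[L] U, Fc L ∅ E ∅ y (k i) σ := by
    intro i E hE
    obtain ⟨fc1, -⟩ := fc i
    obtain ⟨σ, hσ, -⟩ := fc1 E (FirstOrder.Language.Equiv.refl L U) hE (fun a ha => rfl)
    exact ⟨σ, hσ⟩
  -- sandwich
  have hsand : ∀ (X Y Z : Set U) (x : U), X ⊆ Y → Y ⊆ Z → Orb L Z x = Orb L X x →
      Orb L Y x = Orb L X x ∧ Orb L Z x = Orb L Y x := by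
    intro X Y Z x hXY hYZ h
    have h1 := orb3 X Y x hXY
    have h2 := orb3 Y Z x hYZ
    have h3 : Orb L Y x = Orb L X x := Subset.antisymm h1 (by rw [← h]; exact h2)
    exact ⟨h3, h.trans h3.symm⟩
  -- copies of `w i` are not isolated over their base, hence not over larger sets
  have hnis : ∀ (i : ℕ) (σ : U ≃[L] U) (E : Set U), E.Finite → σ '' Bn ∅ y (k i) ⊆ E →
      Orb L E (σ (w i)) = Orb L (σ '' Bn ∅ y (k i)) (σ (w i)) → ¬ Isd L E (σ (w i)) := by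
    intro i σ E hE hsub h1 h2
    have h3 := (sdi3 _ E (σ (w i)) hsub hE h1).1.1 h2
    exact hSq.ni i ((sdi4 σ _ _).1.1 h3)
  -- a complete copy stays complete over atomic extensions
  have hatm : ∀ (i : ℕ) (σ : U ≃[L] U) (E F : Set U), E.Finite → σ '' Bn ∅ y (k i) ⊆ E →
      Orb L E (σ (w i)) = Orb L (σ '' Bn ∅ y (k i)) (σ (w i)) → Atm L E F →
      Orb L F (σ (w i)) = Orb L (σ '' Bn ∅ y (k i)) (σ (w i)) := by
    intro i σ E F hE hsub h1 h2
    rw [((sat E hE F h2).2.1 (σ (w i)) (hnis i σ E hE hsub h1)).1, h1]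
  -- atomicity of tails
  have htail : ∀ (i : ℕ) (E : Set U) (σ : U ≃[L] U), E.Finite → Fc L ∅ E ∅ y (k i) σ →
      Atm L E (E ∪ σ '' Bn ∅ y (k i)) := by
    intro i E σ hE hσ
    obtain ⟨-, -, -, -, -, fc6⟩ := fc i
    exact fc6 hNI (hSq.ch i) E σ hE (hemp σ E) hσ
  have htail2 : ∀ (i j : ℕ) (E : Set U) (σ : U ≃[L] U), i ≤ j → E.Finite →
      Fc L ∅ E ∅ y (k j) σ → Atm L (E ∪ σ '' Bn ∅ y (k i)) (E ∪ σ '' Bn ∅ y (k j)) := by
    intro i j E σ hij hE hσ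
    obtain ⟨-, -, -, -, fc5, -⟩ := fc j
    obtain ⟨-, -, -, -, fc5', -⟩ := fc i
    have h1 := fc5 hNI (hSq.ch j) E σ hE (hemp σ E) hσ
    have h2 := fc5' hNI (hSq.ch i) E σ hE (hemp σ E) (gF2_far hσ (hSq.mono hij))
    rw [h1.2, h2.2]
    exact gF2_chain E _ _ _ h1.1 (hSq.mono hij)
  -- `PN` along atomic extensions
  have hPNatm : ∀ (i : ℕ) (E F : Set U), E.Finite → Atm L E F → PN L y (k i) (w i) E →
      PN L y (k i) (w i) F := by
    intro i E F hE h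
    induction h with
    | base => exact fun h => h
    | step D' x hD' hx ih =>
      intro hP
      exact (qn i).2.2.1 D' x (sat E hE D' hD').1.1 hx (ih hP)
  -- (C)
  have hC : ∀ (i : ℕ) (α β : U ≃[L] U) (E : Set U), E.Finite → α '' Bn ∅ y (k i) ⊆ E →
      β '' Bn ∅ y (k i) ⊆ E → Orb L E (α (w i)) = Orb L (α '' Bn ∅ y (k i)) (α (w i)) →
      Orb L E (β (w i)) = Orb L (β '' Bn ∅ y (k i)) (β (w i)) → Nn L E (α (w i)) (β (w i)) := by
    intro i α β E hE hαE hβE hα hβ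
    obtain ⟨t, ht⟩ : ∃ t, ¬ SD L (Bn ∅ y (k i)) (w i) t := by
      by_contra hcon
      push Not at hcon
      exact hSq.ni i ((sdi1 _ _ (hYf i)).2 ⟨hcon true, hcon false⟩)
    have hlk := hCO L U hW hSc hNA hNI (k i) ∅ y (w i) t (α.symm.comp β) finite_empty (hSq.ch i) ht
      (fun a ha => absurd ha (notMem_empty a))
    have hEfin : (α '' Bn ∅ y (k i) ∪ β '' Bn ∅ y (k i)).Finite :=
      ((hYf i).image _).union ((hYf i).image _)
    have hEE : α '' Bn ∅ y (k i) ∪ β '' Bn ∅ y (k i) ⊆ E := union_subset hαE hβE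
    have h4 := hsand (α '' Bn ∅ y (k i)) (α '' Bn ∅ y (k i) ∪ β '' Bn ∅ y (k i)) _ (α (w i))
      subset_union_left hEE hα
    have h5 := hsand (β '' Bn ∅ y (k i)) (α '' Bn ∅ y (k i) ∪ β '' Bn ∅ y (k i)) _ (β (w i))
      subset_union_right hEE hβ
    have hαG : α (w i) ∈ Ge L (α '' Bn ∅ y (k i)) (α (w i)) t
        (α '' Bn ∅ y (k i) ∪ β '' Bn ∅ y (k i)) := by
      rw [← ger3 _ _ _ (α (w i)) t subset_union_left Subset.rfl hEfin h4.1, ger6]
      exact orb1 _ _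
    have hβG : β (w i) ∈ Ge L (β '' Bn ∅ y (k i)) (β (w i)) t
        (α '' Bn ∅ y (k i) ∪ β '' Bn ∅ y (k i)) := by
      rw [← ger3 _ _ _ (β (w i)) t subset_union_right Subset.rfl hEfin h5.1, ger6]
      exact orb1 _ _
    have hm1 : w i ∈ Ge L (Bn ∅ y (k i)) (w i) t
        (Bn ∅ y (k i) ∪ (α.symm.comp β) '' Bn ∅ y (k i)) := by
      have h6 := ger5 α.symm (α '' Bn ∅ y (k i)) (α '' Bn ∅ y (k i) ∪ β '' Bn ∅ y (k i))
        (α (w i)) t
      rw [image_union, gF2_symm_img, α.symm_apply_apply] at h6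
      rw [gF2_img, h6]
      exact ⟨α (w i), hαG, α.symm_apply_apply (w i)⟩
    have hm2 : (α.symm.comp β) (w i) ∈ Ge L ((α.symm.comp β) '' Bn ∅ y (k i))
        ((α.symm.comp β) (w i)) t (Bn ∅ y (k i) ∪ (α.symm.comp β) '' Bn ∅ y (k i)) := by
      have h6 := ger5 α.symm (β '' Bn ∅ y (k i)) (α '' Bn ∅ y (k i) ∪ β '' Bn ∅ y (k i))
        (β (w i)) t
      rw [image_union, gF2_symm_img] at h6
      rw [gF2_img]
      show α.symm (β (w i)) ∈ Ge L (α.symm '' (β '' Bn ∅ y (k i))) (α.symm (β (w i))) t _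
      rw [h6]
      exact ⟨β (w i), hβG, rfl⟩
    have h7 := hlk _ hm1 _ hm2
    have h8 := nsb3 α _ _ _ h7
    rw [image_union, gF2_img, gF2_img_symm] at h8
    have h9 : α ((α.symm.comp β) (w i)) = β (w i) := by
      show α (α.symm (β (w i))) = β (w i)
      rw [α.apply_symm_apply]
    rw [h9] at h8
    exact pn1 _ E _ _ hEE hE h8 h4.2 h5.2
  -- weak orthogonality of copies
  have hwo : ∀ (i j : ℕ) (σ : U ≃[L] U) (E : Set U), i < j → E.Finite →
      σ '' Bn ∅ y (k j) ⊆ E → Orb L E (σ (w i)) = Orb L (σ '' Bn ∅ y (k i)) (σ (w i)) →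
      Orb L E (σ (w j)) = Orb L (σ '' Bn ∅ y (k j)) (σ (w j)) →
      ¬ Nn L E (σ (w i)) (σ (w j)) := by
    intro i j σ E hij hE hsub hi hj
    have hYY : σ '' Bn ∅ y (k i) ⊆ σ '' Bn ∅ y (k j) :=
      image_mono (gF2_mono ∅ y (hSq.mono hij.le))
    have h1 := hsand _ _ _ (σ (w i)) hYY hsub hi
    refine ts _ E _ _ hsub hE h1.2 hj ?_
    intro h2
    have h3 := nsb3 σ.symm _ _ _ h2
    rw [gF2_symm_img, σ.symm_apply_apply, σ.symm_apply_apply] at h3
    exact hSq.wo i j hij h3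
  -- the construction
  obtain ⟨τ, hτ⟩ := hex n D hD
  obtain ⟨D₁, hD₁⟩ : ∃ D₁, D₁ = D ∪ τ '' Bn ∅ y (k n) := ⟨_, rfl⟩
  have hD₁f : D₁.Finite := by rw [hD₁]; exact hD.union ((hYf n).image _)
  have hDD₁ : D ⊆ D₁ := by rw [hD₁]; exact subset_union_left
  have hτD₁ : τ '' Bn ∅ y (k n) ⊆ D₁ := by rw [hD₁]; exact subset_union_right
  have hA1 : Atm L D D₁ := by rw [hD₁]; exact htail n D τ hD hτ
  have hPn1 : PN L y (k n) (w n) D₁ := hPNatm n D D₁ hD hA1 hn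
  have hτn : Orb L D₁ (τ (w n)) = Orb L (τ '' Bn ∅ y (k n)) (τ (w n)) := by
    rw [hD₁]; exact hn τ hτ
  obtain ⟨D', hD'⟩ : ∃ D', D' = insert (τ (w n)) D₁ := ⟨_, rfl⟩
  have hD'f : D'.Finite := by rw [hD']; exact hD₁f.insert _
  have hD₁D' : D₁ ⊆ D' := by rw [hD']; exact subset_insert _ _
  -- a far copy over `D'`
  have hmain : ∀ (i : ℕ) (σ : U ≃[L] U), Fc L ∅ D' ∅ y (k i) σ →
      Fc L ∅ D₁ ∅ y (k i) σ ∧ (D₁ ∪ σ '' Bn ∅ y (k i)).Finite ∧
      Atm L D₁ (D₁ ∪ σ '' Bn ∅ y (k i)) ∧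
      Orb L (D₁ ∪ σ '' Bn ∅ y (k i)) (τ (w n)) = Orb L (τ '' Bn ∅ y (k n)) (τ (w n)) ∧
      insert (τ (w n)) (D₁ ∪ σ '' Bn ∅ y (k i)) = D' ∪ σ '' Bn ∅ y (k i) := by
    intro i σ hσ
    obtain ⟨-, -, fc3, -⟩ := fc i
    have h1 := fc3 D' D₁ σ hD'f hD₁D' hσ
    have h2 := htail i D₁ σ hD₁f h1
    refine ⟨h1, hD₁f.union ((hYf i).image _), h2, hatm n τ D₁ _ hD₁f hτD₁ hτn h2, ?_⟩
    rw [hD', insert_union]
  refine ⟨D', hD'f, hDD₁.trans hD₁D', ?_, ?_⟩
  · intro i hi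
    have hin : i ≠ n := by
      rintro rfl
      exact hnS hi
    have hPi1 : PN L y (k i) (w i) D₁ := hPNatm i D D₁ hD hA1 (hS i hi)
    obtain ⟨σ, hσ⟩ := hex i D' hD'f
    obtain ⟨hσ1, hEf, hAE, hτE, hins⟩ := hmain i σ hσ
    have hσi := hPi1 σ hσ1
    have hnot : ¬ Nn L (D₁ ∪ σ '' Bn ∅ y (k i)) (τ (w n)) (σ (w i)) := by
      intro hN
      rcases lt_or_gt_of_ne hin with hlt | hgt
      · -- `i < n`
        have hτi0 : Orb L (D ∪ τ '' Bn ∅ y (k i)) (τ (w i)) =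
            Orb L (τ '' Bn ∅ y (k i)) (τ (w i)) :=
          hS i hi τ (gF2_far hτ (hSq.mono hlt.le))
        have hA2 : Atm L (D ∪ τ '' Bn ∅ y (k i)) D₁ := by
          rw [hD₁]
          exact htail2 i n D τ hlt.le hD hτ
        have hτi1 : Orb L D₁ (τ (w i)) = Orb L (τ '' Bn ∅ y (k i)) (τ (w i)) :=
          hatm i τ _ D₁ (hD.union ((hYf i).image _)) subset_union_right hτi0 hA2
        have hsub1 : τ '' Bn ∅ y (k i) ⊆ D₁ :=
          (image_mono (gF2_mono ∅ y (hSq.mono hlt.le))).trans hτD₁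
        have hτiE := hatm i τ D₁ _ hD₁f hsub1 hτi1 hAE
        have h1 := hwo i n τ _ hlt hEf (hτD₁.trans subset_union_left) hτiE hτE
        have h2 := hC i τ σ _ hEf (hsub1.trans subset_union_left) subset_union_right hτiE hσi
        exact h1 (tra _ _ _ _ hEf h2 (nsb1 _ _ _ hN))
      · -- `n < i`
        have hσn0 : Orb L (D₁ ∪ σ '' Bn ∅ y (k n)) (σ (w n)) =
            Orb L (σ '' Bn ∅ y (k n)) (σ (w n)) :=
          hPn1 σ (gF2_far hσ1 (hSq.mono hgt.le))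
        have hA2 := htail2 n i D₁ σ hgt.le hD₁f hσ1
        have hσnE := hatm n σ _ _ (hD₁f.union ((hYf n).image _)) subset_union_right hσn0 hA2
        have hsub : σ '' Bn ∅ y (k n) ⊆ σ '' Bn ∅ y (k i) :=
          image_mono (gF2_mono ∅ y (hSq.mono hgt.le))
        have h1 := hwo n i σ _ hgt hEf subset_union_right hσnE hσi
        have h2 := hC n τ σ _ hEf (hτD₁.trans subset_union_left)
          (hsub.trans subset_union_right) hτE hσnE
        exact h1 (tra _ _ _ _ hEf (nsb1 _ _ _ h2) hN)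
    have horb : Orb L (insert (τ (w n)) (D₁ ∪ σ '' Bn ∅ y (k i))) (σ (w i)) =
        Orb L (D₁ ∪ σ '' Bn ∅ y (k i)) (σ (w i)) := by
      by_contra h
      exact hnot h
    rw [hins] at horb
    exact (qn i).1 D' σ hD'f hσ (horb.trans hσi)
  · intro hP
    obtain ⟨σ, hσ⟩ := hex n D' hD'f
    obtain ⟨hσ1, hEf, hAE, hτE, hins⟩ := hmain n σ hσ
    have h1 := hP σ hσ
    have h2 := hsand _ (D₁ ∪ σ '' Bn ∅ y (k n)) _ (σ (w n)) subset_union_right
      (union_subset_union_left _ hD₁D') h1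
    have h3 := hC n τ σ _ hEf (hτD₁.trans subset_union_left) subset_union_right hτE h2.1
    apply h3
    rw [hins]
    exact h2.2

end Pool.Agent.WOM
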