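import Pool.Agent.WOL.StG3
import Pool.Agent.WOM.GNC

/-!
WOL, T7-ACC, [gF3]: the models (helper81 for helper8).
-/

set_option autoImplicit false
set_option linter.unusedVariables false

namespace Pool.Agent.WOM

open FirstOrder.Language Set
open scoped FirstOrder

section

variable (L : FirstOrder.Language.{0, 0}) {U : Type} [L.Structure U]

/-- the invariant of the construction -/
private def gF3_P [LinearOrder U] (y : ℕ → U) (k : ℕ → ℕ) (w : ℕ → U) (T : Set ℕ) (D : Set U) :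
    Prop :=
  D.Finite ∧ ∀ i ∈ T, PN L y (k i) (w i) D

/-- what is done for a task -/
private def gF3_R [LinearOrder U] (y : ℕ → U) (k : ℕ → ℕ) (w : ℕ → U) (T : Set ℕ) :
    ℕ ⊕ (Finset U × U) → Set U → Set U → Prop
  | Sum.inl n, _, D' => n ∉ T → ¬ PN L y (k n) (w n) D'
  | Sum.inr p, D, D' => (p.1 : Set U) ⊆ D → Isd L (p.1 : Set U) p.2 →
      ∃ x ∈ D', x ∈ Orb L (p.1 : Set U) p.2

end

theorem thm_gF3 (hORB : St_ORB) (hDNS : St_DNS) (hTR : St_fTR) (hQN : St_gQN) (hF2 : St_gF2) :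
    St_gF3 := by
  intro L _ U S _ hW hSc hNA hNI y k w hSq T
  haveI : Countable U := hW.mon.ctb
  haveI : Infinite U := hW.mon.inf
  have hT : TRV L U := hTR L U hW hSc
  obtain ⟨o1, o2, o3, o4, o5, o6, -⟩ := hORB L U hW.mon
  have hdns := hDNS L U hW.mon
  have hq := fun n => hQN L U hW hT hNI y (k n) (w n) (hSq.ch n) (hSq.ni n)
  have step : ∀ (τ : ℕ ⊕ (Finset U × U)) (D : Set U), gF3_P L y k w T D →
      ∃ D' : Set U, gF3_P L y k w T D' ∧ D ⊆ D' ∧ gF3_R L y k w T τ D D' := by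
    rintro (n | p) D ⟨hD, hPN⟩
    · by_cases hn : n ∈ T
      · exact ⟨D, ⟨hD, hPN⟩, Subset.rfl, fun h => absurd hn h⟩
      · by_cases h : PN L y (k n) (w n) D
        · obtain ⟨D', h1, h2, h3, h4⟩ := hF2 L U hW hSc hNA hNI y k w hSq D T n hD hPN hn h
          exact ⟨D', ⟨h1, h3⟩, h2, fun _ => h4⟩
        · exact ⟨D, ⟨hD, hPN⟩, Subset.rfl, fun _ => h⟩
    · by_cases h1 : (p.1 : Set U) ⊆ D
      · by_cases h2 : Isd L (p.1 : Set U) p.2
        · obtain ⟨x, hx, hxi⟩ := hdns D (Orb L (p.1 : Set U) p.2) hD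
            (Set.Definable.mono h2 h1) ⟨p.2, o1 _ _⟩
          exact ⟨insert x D, ⟨hD.insert x, fun i hi => (hq i).2.2.1 D x hD hxi (hPN i hi)⟩,
            subset_insert _ _, fun _ _ => ⟨x, mem_insert _ _, hx⟩⟩
        · exact ⟨D, ⟨hD, hPN⟩, Subset.rfl, fun _ h => absurd h h2⟩
      · exact ⟨D, ⟨hD, hPN⟩, Subset.rfl, fun h _ => absurd h h1⟩
  choose f hf1 hf2 hf3 using step
  obtain ⟨e, he⟩ := GNC_enum (ℕ ⊕ (Finset U × U))
  have h0 : gF3_P L y k w T ∅ := ⟨finite_empty, fun i _ => (hq i).2.2.2.2⟩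
  let cc : ℕ → {D : Set U // gF3_P L y k w T D} := fun n =>
    Nat.rec (motive := fun _ => {D : Set U // gF3_P L y k w T D})
      ⟨∅, h0⟩ (fun j c => ⟨f (e j) c.1 c.2, hf1 _ _ _⟩) n
  let c : ℕ → Set U := fun n => (cc n).1
  have hcP : ∀ j, gF3_P L y k w T (c j) := fun j => (cc j).2
  have hc1 : ∀ j, c j ⊆ c (j + 1) := fun j => hf2 (e j) (cc j).1 (cc j).2
  have hcR : ∀ j, gF3_R L y k w T (e j) (c j) (c (j + 1)) := fun j =>
    hf3 (e j) (cc j).1 (cc j).2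
  have hD : ∀ i j, i ≤ j → c i ⊆ c j := by
    intro i j hij
    induction j, hij using Nat.le_induction with
    | base => exact Subset.rfl
    | succ j _ ih => exact ih.trans (hc1 j)
  have hfin := GNC_fin c hD
  refine ⟨⋃ j, c j, ?_, fun n => ⟨fun h => ?_, fun hn D hDf hDM => ?_⟩⟩
  · intro s hs hne
    obtain ⟨B, hB, hBs⟩ := definable_iff_finitely_definable.1 hs
    obtain ⟨x, hx, hxi⟩ := hdns (B : Set U) s B.finite_toSet hBs hne
    obtain ⟨j, -, hj⟩ := hfin (B : Set U) B.finite_toSet hB 0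
    obtain ⟨j', hj', hej⟩ := he (Sum.inr (B, x)) j
    have h1 := hcR j'
    rw [hej] at h1
    obtain ⟨z, hz, hzo⟩ := h1 (hj.trans (hD _ _ hj')) hxi
    exact ⟨z, o6 _ _ hBs x hx hzo, mem_iUnion.2 ⟨j' + 1, hz⟩⟩
  · by_contra hn
    obtain ⟨j, -, hj⟩ := he (Sum.inl n) 0
    have h1 := hcR j
    rw [hj] at h1
    exact h1 hn (h _ (hcP (j + 1)).1 (subset_iUnion c (j + 1)))
  · obtain ⟨j, -, hj⟩ := hfin D hDf hDM 0
    exact (hq n).2.1 (c j) D (hcP j).1 hj ((hcP j).2 n hn)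

end Pool.Agent.WOM
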