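import Pool.Agent.WOL.StG

/-!
WOL gFC: far copies (statement and proof: helper34; Lean: helper20).
-/

set_option autoImplicit false
set_option linter.unusedVariables false

namespace Pool.Agent.WOM

open FirstOrder.Language Set
open scoped FirstOrder

private theorem gFC_succ {U : Type} (A : Set U) (y : ℕ → U) (n : ℕ) :
    Bn A y (n + 1) = insert (y n) (Bn A y n) := by
  ext x
  simp only [Bn, mem_union, mem_image, mem_insert_iff, mem_ofPred_eq]
  constructor
  · rintro (h | ⟨i, hi, rfl⟩)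
    · exact Or.inr (Or.inl h)
    · rcases Nat.lt_succ_iff_lt_or_eq.mp hi with h | h
      · exact Or.inr (Or.inr ⟨i, h, rfl⟩)
      · rw [h]; exact Or.inl rfl
  · rintro (h | h | ⟨i, hi, rfl⟩)
    · exact Or.inr ⟨n, Nat.lt_succ_self n, h.symm⟩
    · exact Or.inl h
    · exact Or.inr ⟨i, Nat.lt_succ_of_lt hi, rfl⟩

private theorem gFC_zero {U : Type} (A : Set U) (y : ℕ → U) : Bn A y 0 = A := by
  ext x
  simp [Bn]

private theorem gFC_fin {U : Type} (A : Set U) (y : ℕ → U) (n : ℕ) (hA : A.Finite) :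
    (Bn A y n).Finite := hA.union ((finite_lt_nat n).image y)

private theorem gFC_mono {U : Type} (A : Set U) (y : ℕ → U) {i n : ℕ} (h : i ≤ n) :
    Bn A y i ⊆ Bn A y n :=
  union_subset_union_right _ (image_mono fun _ hj => lt_of_lt_of_le hj h)

private theorem gFC_sub {U : Type} (A : Set U) (y : ℕ → U) (n : ℕ) : A ⊆ Bn A y n :=
  subset_union_left

private theorem gFC_mem {U : Type} (A : Set U) (y : ℕ → U) {i n : ℕ} (h : i < n) :
    y i ∈ Bn A y n := Or.inr ⟨i, h, rfl⟩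

private theorem gFC_img {L : FirstOrder.Language.{0, 0}} {U : Type} [L.Structure U]
    (τ σ : U ≃[L] U) (X : Set U) : (τ.comp σ) '' X = τ '' (σ '' X) := by
  ext x
  constructor
  · rintro ⟨z, hz, rfl⟩
    exact ⟨σ z, ⟨z, hz, rfl⟩, rfl⟩
  · rintro ⟨_, ⟨z, hz, rfl⟩, rfl⟩
    exact ⟨z, hz, rfl⟩

/-- [gFC] -/
theorem thm_gFC (hGEX : St_nGEX) (hGER : St_nGER) (hSDI : St_nSDI) (hIS : St_gIS) : St_gFC := by
  intro L U _ _ hW hT C A y n hA hCA
  have gex := hGEX L U hW
  obtain ⟨-, ger2, -, ger4, ger5, -⟩ := hGER L U hW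
  obtain ⟨-, -, -, sdi4, -⟩ := hSDI L U hW
  obtain ⟨-, -, -, -, is5⟩ := hIS L U hW hT
  have hBf : ∀ m, (Bn A y m).Finite := fun m => gFC_fin A y m hA
  -- 1
  have c1 : ∀ (m : ℕ) (D : Set U) (σ₀ : U ≃[L] U), D.Finite → Fx L C σ₀ →
      ∃ σ : U ≃[L] U, Fc L C D A y m σ ∧ ∀ a ∈ A, σ a = σ₀ a := by
    intro m
    induction m with
    | zero =>
      intro D σ₀ _ hσ₀
      exact ⟨σ₀, ⟨hσ₀, fun i hi => absurd hi (Nat.not_lt_zero i)⟩, fun _ _ => rfl⟩
    | succ m ih =>
      intro D σ₀ hD hσ₀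
      obtain ⟨σ, hσ, hσA⟩ := ih D σ₀ hD hσ₀
      obtain ⟨⟨y', hy'⟩, -⟩ := gex (σ '' Bn A y m) (D ∪ σ '' Bn A y m) (σ (y m)) true
        subset_union_right (hD.union ((hBf m).image _))
      obtain ⟨ρ, hρ, hρy⟩ := hy'.1
      have hB : ∀ x ∈ Bn A y m, (ρ.comp σ) x = σ x := fun x hx => hρ _ ⟨x, hx, rfl⟩
      have himg : ∀ i ≤ m, (ρ.comp σ) '' Bn A y i = σ '' Bn A y i := by
        intro i hi
        exact image_congr fun x hx => hB x (gFC_mono A y hi hx)
      refine ⟨ρ.comp σ, ⟨?_, ?_⟩, ?_⟩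
      · intro c hc
        rw [hB c (gFC_sub A y m (hCA hc))]
        exact hσ.fx c hc
      · intro i hi
        rcases Nat.lt_succ_iff_lt_or_eq.mp hi with h | h
        · rw [himg i h.le, hB _ (gFC_mem A y h)]
          exact hσ.far i h
        · subst h
          rw [himg i le_rfl]
          have e : (ρ.comp σ) (y i) = y' := hρy
          rw [e, ger4 _ _ (σ (y i)) y' true hy'.1]
          exact hy'
      · intro a ha
        rw [hB a (gFC_sub A y m ha)]
        exact hσA a ha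
  -- 2
  have c2 : ∀ (m : ℕ) (D : Set U) (σ σ' : U ≃[L] U), D.Finite → Fc L C D A y m σ →
      Fc L C D A y m σ' → (∀ a ∈ A, σ a = σ' a) → σ '' A ⊆ D →
      ∃ ρ : U ≃[L] U, Fx L D ρ ∧ ∀ x ∈ Bn A y m, ρ (σ x) = σ' x := by
    intro m
    induction m with
    | zero =>
      intro D σ σ' _ _ _ hAA _
      refine ⟨FirstOrder.Language.Equiv.refl L U, fun a _ => rfl, ?_⟩
      intro x hx
      rw [gFC_zero] at hx
      exact hAA x hx
    | succ m ih =>
      intro D σ σ' hD hσ hσ' hAA hAD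
      obtain ⟨ρ, hρ, hρx⟩ := ih D σ σ' hD ⟨hσ.fx, fun i hi => hσ.far i (Nat.lt_succ_of_lt hi)⟩
        ⟨hσ'.fx, fun i hi => hσ'.far i (Nat.lt_succ_of_lt hi)⟩ hAA hAD
      have e1 : ρ '' (σ '' Bn A y m) = σ' '' Bn A y m := by
        rw [← image_comp]
        exact image_congr fun x hx => hρx x hx
      have e2 : ρ '' D = D := by
        have : ρ '' D = id '' D := image_congr fun x hx => hρ x hx
        rw [this, image_id]
      have h1 : ρ (σ (y m)) ∈ Ge L (σ' '' Bn A y m) (ρ (σ (y m))) true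
          (D ∪ σ' '' Bn A y m) := by
        have h := ger5 ρ (σ '' Bn A y m) (D ∪ σ '' Bn A y m) (σ (y m)) true
        rw [image_union, e1, e2] at h
        rw [h]
        exact ⟨_, hσ.far m (Nat.lt_succ_self m), rfl⟩
      have h2 : ρ (σ (y m)) ∈ Orb L (σ' '' Bn A y m) (σ' (y m)) := by
        refine ⟨(ρ.comp σ).comp σ'.symm, ?_, ?_⟩
        · rintro _ ⟨x, hx, rfl⟩
          show ρ (σ (σ'.symm (σ' x))) = σ' x
          rw [σ'.symm_apply_apply]
          exact hρx x hx
        · show ρ (σ (σ'.symm (σ' (y m)))) = ρ (σ (y m))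
          rw [σ'.symm_apply_apply]
      rw [ger4 _ _ (σ' (y m)) _ true h2,
        (gex (σ' '' Bn A y m) (D ∪ σ' '' Bn A y m) (σ' (y m)) true subset_union_right
          (hD.union ((hBf m).image _))).2 _ (hσ'.far m (Nat.lt_succ_self m))] at h1
      obtain ⟨g, hg, hgy⟩ := h1
      have hgs : ∀ x ∈ D ∪ σ' '' Bn A y m, g.symm x = x := by
        intro x hx
        have h := hg x hx
        calc g.symm x = g.symm (g x) := by rw [h]
          _ = x := g.symm_apply_apply x
      refine ⟨g.symm.comp ρ, ?_, ?_⟩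
      · intro x hx
        show g.symm (ρ x) = x
        rw [hρ x hx]
        exact hgs x (Or.inl hx)
      · intro x hx
        rw [gFC_succ] at hx
        show g.symm (ρ (σ x)) = σ' x
        rcases hx with rfl | hx
        · rw [← hgy]
          exact g.symm_apply_apply _
        · rw [hρx x hx]
          exact hgs _ (Or.inr ⟨x, hx, rfl⟩)
  -- 5
  have c5 : NI L U → Ch L A y n → ∀ (D : Set U) (σ : U ≃[L] U), D.Finite → σ '' A ⊆ D →
      Fc L C D A y n σ → (∀ m, D ∪ σ '' Bn A y m = Bn D (fun i => σ (y i)) m) ∧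
      Ch L D (fun i => σ (y i)) n := by
    intro hNI hCh D σ hD hAD hσ
    have e : ∀ m, D ∪ σ '' Bn A y m = Bn D (fun i => σ (y i)) m := by
      intro m
      unfold Bn
      rw [image_union, ← union_assoc, union_eq_self_of_subset_right hAD, ← image_comp]
      rfl
    refine ⟨e, ?_⟩
    intro i hi
    rw [← e i]
    exact is5 hNI (σ '' Bn A y i) (D ∪ σ '' Bn A y i) (σ (y i)) (σ (y i)) true
      subset_union_right (hD.union ((hBf i).image _)) ((sdi4 σ _ _).1.mpr (hCh i hi)) (hσ.far i hi)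
  refine ⟨c1 n, c2 n, ?_, ?_, ?_, ?_⟩
  · intro D D' σ hD hDD hσ
    refine ⟨hσ.fx, fun i hi => ?_⟩
    exact ger2 (σ '' Bn A y i) (D' ∪ σ '' Bn A y i) (D ∪ σ '' Bn A y i) (σ (y i)) true
      subset_union_right (union_subset_union_left _ hDD) (hD.union ((hBf i).image _))
      (hσ.far i hi)
  · intro D σ τ hτ hσ
    refine ⟨?_, ?_⟩
    · intro c hc
      show τ (σ c) = c
      rw [hσ.fx c hc]
      exact hτ c hc
    · intro i hi
      show τ (σ (y i)) ∈ Ge L ((τ.comp σ) '' Bn A y i) (τ (σ (y i))) true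
        (τ '' D ∪ (τ.comp σ) '' Bn A y i)
      rw [gFC_img, ← image_union, ger5]
      exact ⟨_, hσ.far i hi, rfl⟩
  · intro hNI hCh D σ hD hAD hσ
    obtain ⟨h1, h2⟩ := c5 hNI hCh D σ hD hAD hσ
    exact ⟨h2, h1 n⟩
  · intro hNI hCh D σ hD hAD hσ
    obtain ⟨h1, h2⟩ := c5 hNI hCh D σ hD hAD hσ
    rw [h1 n]
    have key : ∀ m ≤ n, Atm L D (Bn D (fun i => σ (y i)) m) := by
      intro m
      induction m with
      | zero =>
        intro _
        rw [gFC_zero]
        exact Atm.base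
      | succ m ih =>
        intro hm
        rw [gFC_succ]
        exact Atm.step _ _ (ih (Nat.le_of_succ_le hm)) (h2 m hm)
    exact key n le_rfl

end Pool.Agent.WOM
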