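import Pool.Agent.WOL.StG3

/-!
WOL gFE: finitely many ends (statement and proof: helper34, helper8; Lean: helper15).
-/

set_option autoImplicit false
set_option linter.unusedVariables false

namespace Pool.Agent.WOM

open FirstOrder.Language Set
open scoped FirstOrder

private theorem gFE_trans {L : FirstOrder.Language.{0, 0}} {U : Type} [L.Structure U]
    {A B E : Set U} (h1 : Atm L A B) (h2 : Atm L B E) : Atm L A E := by
  induction h2 with
  | base => exact h1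
  | step D y _ hy ih => exact Atm.step D y ih hy

private theorem gFE_img {U : Type} (f : U → U) (z : ℕ → U) (k : ℕ) :
    Bn ∅ (fun i => f (z i)) k = f '' Bn ∅ z k := by
  unfold Bn
  rw [empty_union, empty_union, image_image]

private theorem gFE_sg (e t : Bool) : sg e (sg e t) = t := by
  cases e <;> cases t <;> rfl

/-- [gFE] -/
theorem thm_gFE (hORB : St_ORB) (hNSB : St_NSB) (hGEX : St_nGEX) (hGER : St_nGER)
    (hTRA : St_nTRA) (hSMA : St_nSMA) (hSMB : St_nSMB) (hSDI : St_nSDI) (hISO : St_nISO)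
    (hSAT : St_SAT) (hTR : St_fTR) (hfFC : St_fFC) (hPN : St_gPN) (hIS : St_gIS)
    (hFC : St_gFC) (hEX : St_gEX) (hCO : St_gCO) (hTW : St_gTW) (hFN : St_gFN) (hOK : St_gOK)
    (hAM : St_gAM) : St_gFE := by
  intro L _ U S _ hW hSc hNA hNI
  have hT : TRV L U := hTR L U hW hSc
  obtain ⟨o1, o2, o3, -⟩ := hORB L U hW.mon
  obtain ⟨n1, n2, -⟩ := hNSB L U
  have gex := hGEX L U hW
  obtain ⟨ger1, ger2, ger3, -⟩ := hGER L U hW
  have tra := hTRA L U hW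
  obtain ⟨sdi1, sdi2, sdi3, sdi4, -⟩ := hSDI L U hW
  have iso := hISO L U hW
  have sat := hSAT L U hW
  obtain ⟨pn1, pn2, pn3⟩ := hPN L U hW
  obtain ⟨-, -, is3, -, -⟩ := hIS L U hW hT
  obtain ⟨ex1, ex2, ex3⟩ := hEX L U hW hT
  -- a nondefinable side
  have nsd : ∀ (A : Set U) (x : U) (t : Bool), A.Finite → ¬ SD L A x t → ¬ Isd L A x := by
    intro A x t hA h hi
    have h1 := (sdi1 A x hA).1 hi
    cases t with
    | true => exact h h1.1
    | false => exact h h1.2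
  have exs : ∀ (A : Set U) (x : U), A.Finite → ¬ Isd L A x → ∃ t : Bool, ¬ SD L A x t := by
    intro A x hA h
    by_contra hc
    push Not at hc
    exact h ((sdi1 A x hA).2 ⟨hc true, hc false⟩)
  have isdO : ∀ (A : Set U) (x y : U), y ∈ Orb L A x → (Isd L A y ↔ Isd L A x) := by
    intro A x y hy
    unfold Isd
    rw [o2 A x y hy]
  have sdO : ∀ (A : Set U) (x y : U) (t : Bool), y ∈ Orb L A x → (SD L A y t ↔ SD L A x t) := by
    intro A x y t hy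
    unfold SD
    rw [o2 A x y hy]
  -- persistence
  have ps1 : ∀ (A B : Set U) (z u : U) (t : Bool), A ⊆ B → B.Finite → SD L A z (!t) →
      u ∈ Ge L A z t B → SD L B u (!t) := by
    intro A B z u t hAB hB hz hu
    rcases hNI A B z u t hAB hB hu with h | h
    · have h1 : Orb L B u = Orb L A u := by rw [h, o2 A z u hu.1]
      exact ((sdi3 A B u hAB hB h1).2 (!t)).2 ((sdO A z u (!t) hu.1).2 hz)
    · exact h
  have psl : ∀ (A₁ A₂ B E : Set U) (w₁ w₂ : U) (t₁ t₂ : Bool), A₁ ⊆ B → A₂ ⊆ B → B ⊆ E →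
      E.Finite → SD L A₁ w₁ (!t₁) → ¬ SD L A₂ w₂ t₂ →
      (∀ u ∈ Ge L A₁ w₁ t₁ B, ∀ v ∈ Ge L A₂ w₂ t₂ B, Nn L B u v) →
      ∀ u ∈ Ge L A₁ w₁ t₁ E, ∀ v ∈ Ge L A₂ w₂ t₂ E, Nn L E u v := by
    intro A₁ A₂ B E w₁ w₂ t₁ t₂ h1 h2 hBE hE hs1 hs2 hl u hu v hv
    have hB : B.Finite := hE.subset hBE
    have hu' : u ∈ Ge L A₁ w₁ t₁ B := ger2 A₁ B E w₁ t₁ h1 hBE hE hu
    have hv' : v ∈ Ge L A₂ w₂ t₂ B := ger2 A₂ B E w₂ t₂ h2 hBE hE hv
    refine pn2 B E u v u v t₁ t₂ hBE hE (hl u hu' v hv') (ps1 A₁ B w₁ u t₁ h1 hB hs1 hu') ?_ ?_ ?_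
    · intro h
      exact hs2 ((sdi2 A₂ B w₂ v t₂ h2 hB hv').1 h)
    · rw [ger1 A₁ B E w₁ u t₁ h1 hBE hE hu']
      exact hu
    · rw [ger1 A₂ B E w₂ v t₂ h2 hBE hE hv']
      exact hv
  -- the sets `Y` and `V`
  obtain ⟨Y, hY, hYN⟩ := hFN L U hW hSc hNA hNI
  have hYf : Y.Finite := (sat ∅ finite_empty Y hY).1.1
  obtain ⟨V₁, hV₁f, hV₁⟩ := hfFC L U hW hSc Y hYf
  have hV₀ : ∀ z, ¬ Isd L Y z → ∃ v ∈ V₁, ¬ Isd L Y v ∧ Nn L Y z v := by
    intro z hz
    obtain ⟨v, hv, hn⟩ := hV₁ z hz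
    exact ⟨v, hv, fun hi => (iso Y v z hYf hi hz).2 hn, hn⟩
  refine ⟨Y, {p | p.1 ∈ V₁ ∧ ¬ SD L Y p.1 p.2}, hYf, ?_, ?_, fun p hp => hp.2, ?_⟩
  · refine (hV₁f.prod (finite_univ (α := Bool))).subset ?_
    intro p hp
    exact ⟨hp.1, mem_univ _⟩
  · intro M hM
    exact hAM L U hW.mon Y M hY hM
  intro A w hA hYA hw
  -- the last step
  have fin : ∀ (E : Set U) (w₁ v₀ u₀ : U) (t t₀ : Bool), Atm L A E → w₁ ∈ Ge L A w t E →
      u₀ ∈ Ge L Y v₀ t₀ E → Nn L E w₁ u₀ → ¬ SD L Y v₀ t₀ → ∀ u ∈ Ge L Y v₀ t₀ A, Nn L A w u := by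
    intro E w₁ v₀ u₀ t t₀ hAE hw₁ hu₀ hn hs u hu
    obtain ⟨hEf, hAE'⟩ := (sat A hA E hAE).1
    have hu₀' : u₀ ∈ Ge L Y v₀ t₀ A := ger2 Y A E v₀ t₀ hYA hAE' hEf hu₀
    have h1 : ¬ Isd L A u₀ := by
      refine nsd A u₀ t₀ hA fun h => hs ?_
      exact (sdi2 Y A v₀ u₀ t₀ hYA hA hu₀').1 h
    have h2 : ¬ Isd L A w₁ := fun h => hw ((isdO A w w₁ hw₁.1).1 h)
    have h3 := is3 A E w₁ u₀ hA hAE h2 h1 hn
    rw [(gex Y A v₀ t₀ hYA hA).2 u₀ hu₀'] at hu
    refine n2 A w₁ u₀ w u ?_ hu h3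
    rw [o2 A w w₁ hw₁.1]
    exact o1 _ _
  by_cases h2s : ∀ t : Bool, ¬ SD L A w t
  · -- two-sided
    have hAw : Orb L A w = Orb L ∅ w := hTW L U hW hSc hNA hNI A w hA (h2s true) (h2s false)
    have hbet : ∀ B : Set U, B ⊆ A → Orb L B w = Orb L A w := by
      intro B hBA
      refine Subset.antisymm ?_ (o3 B A w hBA)
      rw [hAw]
      exact o3 ∅ B w (empty_subset _)
    have hwY : ¬ Isd L Y w := fun h => hw ((sdi3 Y A w hYA hA (hbet Y hYA).symm).1.2 h)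
    obtain ⟨v, hv, hvi, hn⟩ := hV₀ w hwY
    have key : ∀ R : Set U, R.Finite → R ⊆ A → Orb L (Y ∪ R) v = Orb L Y v := by
      intro R hR
      refine Set.Finite.induction_on (motive := fun R _ => R ⊆ A → Orb L (Y ∪ R) v = Orb L Y v)
        R hR ?_ ?_
      · intro _
        rw [union_empty]
      · intro x R hxR hR ih hRA
        have ih' := ih ((subset_insert _ _).trans hRA)
        rw [union_insert]
        by_contra hne
        have hRf : (Y ∪ R).Finite := hYf.union hR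
        have hYRA : Y ∪ R ⊆ A := union_subset hYA ((subset_insert _ _).trans hRA)
        have h1 : Nn L (Y ∪ R) x v := by
          unfold Nn
          rw [ih']
          exact hne
        have h2 : Nn L (Y ∪ R) w v := pn1 Y (Y ∪ R) w v subset_union_left hRf hn
          ((hbet _ hYRA).trans (hbet Y hYA).symm) ih'
        have h3 : Nn L (Y ∪ R) x w := tra (Y ∪ R) x v w hRf h1 (n1 _ _ _ h2)
        refine h3 ?_
        rw [hbet _ hYRA, hbet]
        exact insert_subset (hRA (mem_insert _ _)) hYRA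
    have hAv : Orb L A v = Orb L Y v := by
      have h := key A hA Subset.rfl
      rwa [union_eq_self_of_subset_left hYA] at h
    have hnA : Nn L A w v := pn1 Y A w v hYA hA hn (hbet Y hYA).symm hAv
    obtain ⟨t, ht⟩ := exs Y v hYf hvi
    refine ⟨(v, t), ⟨hv, ht⟩, ?_⟩
    intro u hu
    refine n2 A w v w u (o1 _ _) ?_ hnA
    rw [hAv]
    exact hu.1
  -- one-sided
  have h1s : ∃ t : Bool, ¬ SD L A w t ∧ SD L A w (!t) := by
    obtain ⟨t, ht⟩ := exs A w hA hw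
    refine ⟨t, ht, ?_⟩
    by_contra hc
    refine h2s fun s => ?_
    cases t with
    | true =>
      cases s with
      | true => exact ht
      | false => exact hc
    | false =>
      cases s with
      | true => exact hc
      | false => exact ht
  obtain ⟨t, htn, hts⟩ := h1s
  obtain ⟨D', v', t', hD', hAD', hv'n, hlink⟩ := hOK L U hW hSc hNA hNI A A w t hA Atm.base htn
  have hD'f : D'.Finite := (sat ∅ finite_empty D' hD').1.1
  have hv'i : ¬ Isd L D' v' := nsd D' v' t' hD'f hv'n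
  by_cases hv's : SD L D' v' (!t')
  · -- `v'` is one-sided
    obtain ⟨z, k, hz, hzD⟩ := ex3 ∅ D' hD'
    obtain ⟨x, m, hx, hxY⟩ := ex3 ∅ Y hY
    obtain ⟨c1, -, c3, -, c5, c6⟩ := hFC L U hW hT ∅ ∅ z k finite_empty Subset.rfl
    obtain ⟨σ, hσ, -⟩ := c1 (A ∪ D') (FirstOrder.Language.Equiv.refl L U) (hA.union hD'f)
      (fun a _ => rfl)
    have hσD : σ '' (∅ : Set U) ⊆ A ∪ D' := by
      rw [image_empty]
      exact empty_subset _
    have hσY : σ '' (∅ : Set U) ⊆ Y := by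
      rw [image_empty]
      exact empty_subset _
    have hcY : Fc L ∅ Y ∅ z k σ := c3 (A ∪ D') Y σ (hA.union hD'f)
      (hYA.trans subset_union_left) hσ
    have hAtm1 : Atm L Y (Y ∪ σ '' D') := by
      rw [hzD]
      exact c6 hNI hz Y σ hYf hσY hcY
    have hAtm2 : Atm L (A ∪ D') ((A ∪ D') ∪ σ '' D') := by
      have h := c6 hNI hz (A ∪ D') σ (hA.union hD'f) hσD hσ
      rwa [← hzD] at h
    have hAtm3 : Atm L (σ '' D') (Y ∪ σ '' D') := by
      have h5 := (c5 hNI hz Y σ hYf hσY hcY).1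
      have h6 := (ex1 ∅ x (fun i => σ (z i)) m k finite_empty hx (by rw [← hxY]; exact h5)).2
      have h7 := ex2 _ x m h6
      have e1 : Bn ∅ (fun i => σ (z i)) k = σ '' D' := by
        rw [hzD]
        exact gFE_img σ z k
      rw [e1] at h7
      have e2 : Bn (σ '' D') x m = Y ∪ σ '' D' := by
        rw [hxY]
        unfold Bn
        rw [empty_union, union_comm]
      rwa [e2] at h7
    have hσD'f : (σ '' D').Finite := hD'f.image _
    have hY'f : (Y ∪ σ '' D').Finite := hYf.union hσD'f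
    have hσvi : ¬ Isd L (σ '' D') (σ v') := fun h => hv'i ((sdi4 σ D' v').1.1 h)
    have hσvO : Orb L (Y ∪ σ '' D') (σ v') = Orb L (σ '' D') (σ v') :=
      ((sat (σ '' D') hσD'f _ hAtm3).2.1 (σ v') hσvi).1
    have hσvi' : ¬ Isd L (Y ∪ σ '' D') (σ v') := fun h =>
      hσvi ((sdi3 (σ '' D') _ (σ v') subset_union_right hY'f hσvO).1.1 h)
    have hσvs : SD L (σ '' D') (σ v') (!t') := ((sdi4 σ D' v').2 (!t')).2 hv's
    have hσvn : ¬ SD L (σ '' D') (σ v') t' := fun h => hv'n (((sdi4 σ D' v').2 t').1 h)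
    have hσvs' : SD L (Y ∪ σ '' D') (σ v') (!t') :=
      ((sdi3 (σ '' D') _ (σ v') subset_union_right hY'f hσvO).2 (!t')).2 hσvs
    obtain ⟨v, hvi, hvn⟩ := hYN (Y ∪ σ '' D') (σ v') hAtm1 hσvi'
    obtain ⟨v₀, hv₀V, hv₀i, hv₀n⟩ := hV₀ v hvi
    have hvO : Orb L (Y ∪ σ '' D') v = Orb L Y v := ((sat Y hYf _ hAtm1).2.1 v hvi).1
    have hv₀O : Orb L (Y ∪ σ '' D') v₀ = Orb L Y v₀ := ((sat Y hYf _ hAtm1).2.1 v₀ hv₀i).1
    have h1 : Nn L (Y ∪ σ '' D') v v₀ :=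
      pn1 Y _ v v₀ subset_union_left hY'f hv₀n hvO hv₀O
    have h2 : Nn L (Y ∪ σ '' D') (σ v') v₀ := tra _ (σ v') v v₀ hY'f hvn h1
    have h3 : ∃ t₀ : Bool, ¬ SD L Y v₀ t₀ := exs Y v₀ hYf hv₀i
    obtain ⟨t₀, ht₀⟩ := h3
    -- the links over `E`
    have hEf : ((A ∪ D') ∪ σ '' D').Finite := (hA.union hD'f).union hσD'f
    have l1 := psl A D' (A ∪ D') ((A ∪ D') ∪ σ '' D') w v' t t' subset_union_left
      subset_union_right subset_union_left hEf hts hv'n hlink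
    have l2 := psl D' (σ '' D') (D' ∪ σ '' D') ((A ∪ D') ∪ σ '' D') v' (σ v') t' t'
      subset_union_left subset_union_right (union_subset_union_left _ subset_union_right) hEf
      hv's hσvn (by
        have h := hCO L U hW hSc hNA hNI k ∅ z v' t' σ finite_empty hz
          (by rw [← hzD]; exact hv'n) hσ.fx
        rw [← hzD] at h
        exact h)
    have l3 := psl (σ '' D') Y (Y ∪ σ '' D') ((A ∪ D') ∪ σ '' D') (σ v') v₀ t' t₀
      subset_union_right subset_union_left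
      (union_subset_union_left _ (hYA.trans subset_union_left)) hEf
      hσvs ht₀ (by
        intro a ha a' ha'
        refine n2 _ (σ v') v₀ a a' ?_ ?_ h2
        · rw [hσvO]
          exact ha.1
        · rw [hv₀O]
          exact ha'.1)
    obtain ⟨w₁, hw₁⟩ := (gex A ((A ∪ D') ∪ σ '' D') w t
      (subset_union_left.trans subset_union_left) hEf).1
    obtain ⟨v₁, hv₁⟩ := (gex D' ((A ∪ D') ∪ σ '' D') v' t'
      (subset_union_right.trans subset_union_left) hEf).1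
    obtain ⟨s₁, hs₁⟩ := (gex (σ '' D') ((A ∪ D') ∪ σ '' D') (σ v') t' subset_union_right hEf).1
    obtain ⟨u₀, hu₀⟩ := (gex Y ((A ∪ D') ∪ σ '' D') v₀ t₀
      (hYA.trans (subset_union_left.trans subset_union_left)) hEf).1
    have hn : Nn L ((A ∪ D') ∪ σ '' D') w₁ u₀ :=
      tra _ w₁ v₁ u₀ hEf (l1 w₁ hw₁ v₁ hv₁)
        (tra _ v₁ s₁ u₀ hEf (l2 v₁ hv₁ s₁ hs₁) (l3 s₁ hs₁ u₀ hu₀))
    exact ⟨(v₀, t₀), ⟨hv₀V, ht₀⟩,
      fin _ w₁ v₀ u₀ t t₀ (gFE_trans hAD' hAtm2) hw₁ hu₀ hn ht₀⟩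
  · -- `v'` is two-sided
    have hD'O : Orb L D' v' = Orb L ∅ v' := by
      cases t' with
      | true => exact hTW L U hW hSc hNA hNI D' v' hD'f hv'n hv's
      | false => exact hTW L U hW hSc hNA hNI D' v' hD'f hv's hv'n
    have hvi0 : ¬ Isd L ∅ v' := fun h =>
      hv'i ((sdi3 ∅ D' v' (empty_subset _) hD'f hD'O).1.2 h)
    have hYO : Orb L Y v' = Orb L ∅ v' := ((sat ∅ finite_empty Y hY).2.1 v' hvi0).1
    have hviY : ¬ Isd L Y v' := fun h =>
      hvi0 ((sdi3 ∅ Y v' (empty_subset _) hYf hYO).1.1 h)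
    obtain ⟨v₀, hv₀V, hv₀i, hv₀n⟩ := hV₀ v' hviY
    obtain ⟨e, he1, he2, he3⟩ := hSMA L U hW Y v' v₀ hYf hv₀n
    have ht₀ : ¬ SD L Y v₀ (sg e t') := by
      intro h
      have h1 := hSMB L U hW Y v₀ v' e (sg e t') hYf (n1 _ _ _ hv₀n) he2 h
      rw [gFE_sg] at h1
      have h2 := ((sdi3 ∅ Y v' (empty_subset _) hYf hYO).2 t').1 h1
      exact hv'n (((sdi3 ∅ D' v' (empty_subset _) hD'f hD'O).2 t').2 h2)
    have hEf : (A ∪ D').Finite := hA.union hD'f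
    obtain ⟨w₁, hw₁⟩ := (gex A (A ∪ D') w t subset_union_left hEf).1
    obtain ⟨v₁, hv₁⟩ := (gex D' (A ∪ D') v' t' subset_union_right hEf).1
    obtain ⟨u₀, hu₀⟩ := (gex Y (A ∪ D') v₀ (sg e t') (hYA.trans subset_union_left) hEf).1
    have hv₁' : v₁ ∈ Ge L Y v' t' (A ∪ D') := by
      rw [ger3 ∅ Y (A ∪ D') v' t' (empty_subset _) (hYA.trans subset_union_left) hEf hYO]
      rw [ger3 ∅ D' (A ∪ D') v' t' (empty_subset _) subset_union_right hEf hD'O] at hv₁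
      exact hv₁
    have hn : Nn L (A ∪ D') w₁ u₀ :=
      tra _ w₁ v₁ u₀ hEf (hlink w₁ hw₁ v₁ hv₁)
        (he3 (A ∪ D') t' hEf (hYA.trans subset_union_left) v₁ hv₁' u₀ hu₀)
    exact ⟨(v₀, sg e t'), ⟨hv₀V, ht₀⟩,
      fin _ w₁ v₀ u₀ t (sg e t') hAD' hw₁ hu₀ hn ht₀⟩

end Pool.Agent.WOM
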