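import Pool.Agent.WOL.StG3

/-!
WOL, module gFN: no new classes over atomic extensions (helper59; statement and proof by helper34).
-/

set_option autoImplicit false
set_option linter.unusedVariables false

namespace Pool.Agent.WOM

open FirstOrder.Language Set
open scoped FirstOrder
open Pool.Agent.Helper79.VC

private theorem gFN_succ {U : Type} (A : Set U) (y : ℕ → U) (n : ℕ) :
    Bn A y (n + 1) = insert (y n) (Bn A y n) := by
  unfold Bn
  have h : {i : ℕ | i < n + 1} = insert n {i : ℕ | i < n} := by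
    ext i
    show i < n + 1 ↔ i = n ∨ i < n
    omega
  rw [h, image_insert_eq, union_insert]

private theorem gFN_fin {U : Type} (y : ℕ → U) (n : ℕ) : (Bn ∅ y n).Finite := by
  unfold Bn
  exact finite_empty.union ((finite_lt_nat n).image y)

private theorem gFN_atm (L : FirstOrder.Language.{0, 0}) {U : Type} [L.Structure U] (y : ℕ → U)
    (m n : ℕ) (hmn : m ≤ n) (h : Ch L ∅ y n) : Atm L (Bn ∅ y m) (Bn ∅ y n) := by
  induction n, hmn using Nat.le_induction with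
  | base => exact Atm.base
  | succ n hmn ih =>
    rw [gFN_succ]
    exact Atm.step _ _ (ih fun i hi => h i (Nat.lt_succ_of_lt hi)) (h n (Nat.lt_succ_self n))

private theorem gFN_back {L : FirstOrder.Language.{0, 0}} {U : Type} [S : L.Structure U]
    {M M' : Set U} {E : Set U} (hE : E.Finite) (hEM : E ⊆ M') :
    ∃ k : ℕ, ∀ Γ : Set (U × U), Γ.Finite → (∀ p ∈ Γ, p.1 ∈ M ∧ p.2 ∈ M') →
      BFR S S M M' (Ordinal.omega0 + (k : Ordinal.{0})) Γ →
      ∃ Γ' : Set (U × U), Γ ⊆ Γ' ∧ Γ'.Finite ∧ (∀ p ∈ Γ', p.1 ∈ M ∧ p.2 ∈ M') ∧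
        (∀ e ∈ E, ∃ d, (d, e) ∈ Γ') ∧ BFR S S M M' Ordinal.omega0 Γ' := by
  induction E, hE using Set.Finite.induction_on with
  | empty =>
    refine ⟨0, fun Γ h1 h2 h3 =>
      ⟨Γ, subset_rfl, h1, h2, fun e he => absurd he (notMem_empty e), ?_⟩⟩
    simpa using h3
  | @insert e E' _ _ ih =>
    obtain ⟨k, hk⟩ := ih ((subset_insert _ _).trans hEM)
    refine ⟨k + 1, fun Γ h1 h2 h3 => ?_⟩
    have hlt : Ordinal.omega0 + (k : Ordinal.{0}) <
        Ordinal.omega0 + ((k + 1 : ℕ) : Ordinal.{0}) := by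
      rw [add_lt_add_iff_left]
      exact_mod_cast Nat.lt_succ_self k
    obtain ⟨d, hd, h4⟩ := h3.back hlt (hEM (mem_insert _ _))
    obtain ⟨Γ', g1, g2, g3, g4, g5⟩ := hk (insert (d, e) Γ) (h1.insert _) (by
      rintro p (rfl | hp)
      · exact ⟨hd, hEM (mem_insert _ _)⟩
      · exact h2 p hp) h4
    refine ⟨Γ', (subset_insert _ _).trans g1, g2, g3, ?_, g5⟩
    rintro x (rfl | hx)
    · exact ⟨d, g1 (mem_insert _ _)⟩
    · exact g4 x hx

private theorem gFN_key (hQN : St_gQN) (hLV0 : St_LV0) {L : FirstOrder.Language.{0, 0}}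
    [∀ n, IsEmpty (L.Functions n)] {U : Type} [S : L.Structure U] [LinearOrder U]
    (hW : Wn L U) (hT : TRV L U) (hNI : NI L U) {y : ℕ → U} {k : ℕ} {w : U} (hch : Ch L ∅ y k)
    (hw : ¬ Isd L (Bn ∅ y k) w) {M M' : Set U} (hM : IsEl L M) (hM' : IsEl L M')
    {Γ : Set (U × U)} (hΓ : Γ.Finite) (hΓM : ∀ p ∈ Γ, p.1 ∈ M ∧ p.2 ∈ M')
    (hB : BFR S S M M' (Ordinal.omega0 + Ordinal.omega0) Γ)
    (h : ∀ D : Set U, D.Finite → D ⊆ M → PN L y k w D) :
    ∀ D : Set U, D.Finite → D ⊆ M' → PN L y k w D := by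
  intro D' hD' hDM
  obtain ⟨l, hl⟩ := gFN_back (S := S) (M := M) hD' hDM
  have hle : Ordinal.omega0 + (l : Ordinal.{0}) ≤ Ordinal.omega0 + Ordinal.omega0 :=
    add_le_add le_rfl (Ordinal.natCast_lt_omega0 l).le
  obtain ⟨Γ', g1, g2, g3, g4, g5⟩ := hl Γ hΓ hΓM (BFR.mono hle hB)
  obtain ⟨σ, hσ⟩ := hLV0 L U hW.mon M M' Γ' Ordinal.omega0 hM hM' g2 g3 le_rfl g5
  have himg : σ '' (σ ⁻¹' D') = D' := image_preimage_eq _ σ.surjective
  have hfin : (σ ⁻¹' D').Finite := hD'.preimage σ.injective.injOn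
  have hsub : σ ⁻¹' D' ⊆ M := by
    intro x hx
    obtain ⟨d, hd⟩ := g4 (σ x) hx
    have h1 : σ d = σ x := hσ _ hd
    rw [← σ.injective h1]
    exact (g3 _ hd).1
  obtain ⟨-, -, -, q4, -⟩ := hQN L U hW hT hNI y k w hch hw
  have h2 := (q4 (σ ⁻¹' D') σ).1 (h _ hfin hsub)
  rwa [himg] at h2

/-- [gFN] -/
theorem thm_gFN (hNSB : St_NSB) (hSDI : St_nSDI) (hSAT : St_SAT) (hTR : St_fTR) (hCC : St_gCC)
    (hQN : St_gQN) (hF3 : St_gF3) (hLV0 : St_LV0) : St_gFN := by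
  intro L _ U S _ hW hSc hNA hNI
  have hT : TRV L U := fun A x y z hA => hTR L U hW hSc A x y z hA
  obtain ⟨n1, -⟩ := hNSB L U
  obtain ⟨-, -, s3, -⟩ := hSDI L U hW
  by_contra hcon
  push Not at hcon
  obtain ⟨y, k, w, hk, hch, hP⟩ := hCC L U hW hT
    (fun Y Y' w => ¬ Isd L Y' w ∧ ∀ v, ¬ Isd L Y v → ¬ Nn L Y' w v) hcon
  have hSq : Sq L y (fun i => k (i + 1)) w := by
    refine ⟨fun i => hch (i + 1), fun i j hij => hk (Nat.succ_le_succ hij), fun i => (hP i).1, ?_⟩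
    intro i j hij h
    have h1 : ¬ Isd L (Bn ∅ y (k j)) (w i) := by
      obtain ⟨⟨a1, a2⟩, a3, -⟩ := hSAT L U hW (Bn ∅ y (k (i + 1))) (gFN_fin y _)
        (Bn ∅ y (k j)) (gFN_atm L y _ _ (hk hij) (hch j))
      intro h2
      exact (hP i).1 ((s3 _ _ (w i) a2 a1 (a3 (w i) (hP i).1).1).1.1 h2)
    exact (hP j).2 (w i) h1 (n1 _ _ _ h)
  choose X hX using fun f : ℕ → Bool =>
    hF3 L U hW hSc hNA hNI y (fun i => k (i + 1)) w hSq {n | f n = true}
  obtain ⟨f, g, hfg, hB⟩ := hSc X 0 (fun i => i.elim0) (Ordinal.omega0 + Ordinal.omega0)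
    (add_lt_om1 omega_lt_om1 omega_lt_om1) fun f => ⟨(hX f).1, fun i => i.elim0⟩
  have hne : ∃ k, f k ≠ g k := by
    by_contra h
    push Not at h
    exact hfg (funext h)
  obtain ⟨m, hm⟩ := hne
  have hfin : (HERN.prs (fun i : Fin 0 => (i.elim0 : U)) (fun i : Fin 0 => (i.elim0 : U))).Finite :=
    finite_range _
  have hmem : ∀ (M M' : Set U),
      ∀ p ∈ HERN.prs (fun i : Fin 0 => (i.elim0 : U)) (fun i : Fin 0 => (i.elim0 : U)),
        p.1 ∈ M ∧ p.2 ∈ M' := by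
    rintro M M' _ ⟨i, rfl⟩
    exact i.elim0
  have hBs : BFR S S (X g) (X f) (Ordinal.omega0 + Ordinal.omega0)
      (HERN.prs (fun i : Fin 0 => (i.elim0 : U)) (fun i : Fin 0 => (i.elim0 : U))) := by
    refine BFR.symm hB ?_
    rintro _ ⟨i, rfl⟩
    exact i.elim0
  have key : ∀ f g : ℕ → Bool, BFR S S (X f) (X g) (Ordinal.omega0 + Ordinal.omega0)
      (HERN.prs (fun i : Fin 0 => (i.elim0 : U)) (fun i : Fin 0 => (i.elim0 : U))) →
      f m = true → g m = true := fun f g hfg hfm =>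
    ((hX g).2 m).1 (gFN_key hQN hLV0 hW hT hNI (hSq.ch m) (hSq.ni m) (hX f).1 (hX g).1 hfin
      (hmem _ _) hfg (((hX f).2 m).2 hfm))
  apply hm
  cases hf : f m with
  | true => exact (key f g hB hf).symm
  | false =>
    cases hg : g m with
    | true =>
      have h1 := key g f hBs hg
      rw [hf] at h1
      exact absurd h1 Bool.false_ne_true
    | false => rfl

end Pool.Agent.WOM
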