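import Pool.Agent.WOL.StG

/-!
WOL, module gIS: isolated elements (helper6; statement and proof by helper34).
-/

set_option autoImplicit false
set_option linter.unusedVariables false

namespace Pool.Agent.WOM

open FirstOrder.Language Set
open scoped FirstOrder

/-- isolated elements are exchanged -/
private theorem gIS_swap (hORB : St_ORB) (hSFX : St_SFX) (hSAT : St_SAT)
    (L : FirstOrder.Language.{0, 0}) (U : Type) [L.Structure U] [LinearOrder U] (hW : Wn L U)
    (A : Set U) (x y : U) (hA : A.Finite) (hy : Isd L A y) (hx : Isd L (insert y A) x) :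
    Isd L A x ∧ Isd L (insert x A) y := by
  obtain ⟨o1, -⟩ := hORB L U hW.mon
  refine ⟨(hSAT L U hW A hA _ (Atm.step _ x (Atm.step _ y Atm.base hy) hx)).2.2 x
    (mem_insert _ _), ?_⟩
  obtain ⟨φ, hφ, hφy⟩ := Dx.fib (A := A) (x := y) hx
  have key : ∀ σ : U ≃[L] U, Fx L A σ → φ (σ y) = σ '' Orb L (insert y A) x := by
    intro σ hσ
    rw [(hSFX L U hW.mon).1 A φ σ hφ hσ y, hφy]
  have heq : Orb L (insert x A) y = {y' | y' ∈ Orb L A y ∧ x ∈ φ y'} := by
    ext y'
    constructor
    · rintro ⟨ρ, hρ, rfl⟩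
      have hρA : Fx L A ρ := fun a ha => hρ a (mem_insert_of_mem _ ha)
      refine ⟨⟨ρ, hρA, rfl⟩, ?_⟩
      rw [key ρ hρA]
      exact ⟨x, o1 _ _, hρ x (mem_insert _ _)⟩
    · rintro ⟨⟨σ, hσ, rfl⟩, h⟩
      rw [key σ hσ] at h
      obtain ⟨_, ⟨τ, hτ, rfl⟩, h2⟩ := h
      refine ⟨σ.comp τ, ?_, ?_⟩
      · intro a ha
        rw [FirstOrder.Language.Equiv.comp_apply]
        rcases mem_insert_iff.1 ha with ha | ha
        · subst ha
          exact h2
        · rw [hτ a (mem_insert_of_mem _ ha), hσ a ha]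
      · rw [FirstOrder.Language.Equiv.comp_apply, hτ y (mem_insert _ _)]
  unfold Isd at hy ⊢
  rw [heq]
  exact Dx.one' (P := fun y' => y' ∈ Orb L A y ∧ x ∈ φ y')
    (Dx.and (Dx.one (hy.mono (subset_insert _ _)) 0)
      (Dx.par (P := fun w : Fin 2 → U => w 0 ∈ φ (w 1))
        (Dx.rel (R := fun y x => x ∈ φ y) hφ 1 0) (subset_insert _ _) (mem_insert _ _)))

private theorem Bn_zero' {U : Type} (A : Set U) (y : ℕ → U) : Bn A y 0 = A := by
  unfold Bn
  have h : {i : ℕ | i < 0} = ∅ := by
    ext i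
    simp
  rw [h, image_empty, union_empty]

private theorem Bn_succ' {U : Type} (A : Set U) (y : ℕ → U) (n : ℕ) :
    Bn A y (n + 1) = insert (y n) (Bn A y n) := by
  unfold Bn
  have h : {i : ℕ | i < n + 1} = insert n {i : ℕ | i < n} := by
    ext i
    show i < n + 1 ↔ i = n ∨ i < n
    omega
  rw [h, image_insert_eq, union_insert]

private theorem Bn_insert' {U : Type} (A : Set U) (e : U) (y : ℕ → U) (n : ℕ) :
    Bn (insert e A) y n = insert e (Bn A y n) := by
  unfold Bn
  rw [insert_union]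

private theorem Bn_finite' {U : Type} (A : Set U) (hA : A.Finite) (y : ℕ → U) (n : ℕ) :
    (Bn A y n).Finite := by
  unfold Bn
  exact hA.union ((finite_lt_nat n).image y)

theorem thm_gIS (hORB : St_ORB) (hSDI : St_nSDI) (hISO : St_nISO) (hSFX : St_SFX)
    (hSAT : St_SAT) (hTS : St_gTS) : St_gIS := by
  intro L U _ _ hW hT
  obtain ⟨s1, s2, s3, -, -⟩ := hSDI L U hW
  have p2 := gIS_swap hORB hSFX hSAT L U hW
  refine ⟨?_, ?_, ?_, ?_, ?_⟩
  · intro A y z hA hy hz
    obtain ⟨n1, n2⟩ := hISO L U hW A y z hA hy hz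
    unfold Nn at n1 n2
    push Not at n1 n2
    refine ⟨n1, fun h => hz ((s3 A _ z (subset_insert _ _) (hA.insert y) n1).1.1 h), ?_⟩
    unfold Isd at hy ⊢
    rw [n2]
    exact hy.mono (subset_insert _ _)
  · intro A x y hA hy hx
    exact p2 A x y hA hy hx
  · intro A D u v hA hD hu hv hn
    by_contra h
    obtain ⟨⟨hDf, hAD⟩, a2, -⟩ := hSAT L U hW A hA D hD
    exact hTS L U hW hT A D u v hAD hDf (a2 u hu).1 (a2 v hv).1 h hn
  · intro A e y n hA he hch
    induction n with
    | zero =>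
      refine ⟨fun i hi => absurd hi (Nat.not_lt_zero i), ?_⟩
      rw [Bn_zero']
      exact he
    | succ n ih =>
      obtain ⟨i1, i2⟩ := ih fun i hi => hch i (hi.trans (Nat.lt_succ_self n))
      have h1 := hch n (Nat.lt_succ_self n)
      rw [Bn_insert'] at h1
      obtain ⟨h2, h3⟩ := p2 (Bn A y n) (y n) e (Bn_finite' A hA y n) i2 h1
      refine ⟨?_, ?_⟩
      · intro i hi
        rcases Nat.lt_succ_iff_lt_or_eq.1 hi with hi | hi
        · exact i1 i hi
        · subst hi
          exact h2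
      · rw [Bn_succ']
        exact h3
  · intro hNI A B z u t hAB hB hz hu
    have h1 := (s1 A z (hB.subset hAB)).1 hz
    have h2 : SD L B u t := by
      refine (s2 A B z u t hAB hB hu).2 ?_
      cases t with
      | true => exact h1.1
      | false => exact h1.2
    rcases hNI A B z u t hAB hB hu with h | h
    · unfold Isd at hz ⊢
      rw [h]
      exact hz.mono hAB
    · refine (s1 B u hB).2 ?_
      cases t with
      | true => exact ⟨h2, h⟩
      | false => exact ⟨h, h2⟩

end Pool.Agent.WOM
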