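import Pool.Agent.WOL.StG2

/-!
WOL gJ0: unlinked far pairs (statement: helper34; plan: helper37; Lean: helper20).
-/

set_option autoImplicit false
set_option linter.unusedVariables false

namespace Pool.Agent.WOM

open FirstOrder.Language Set
open scoped FirstOrder

section helpers

variable {L : FirstOrder.Language.{0, 0}} {U : Type} [L.Structure U]

private theorem gJ0_nn {A : Set U} {x z : U} :
    ¬ Nn L A x z ↔ Orb L (insert x A) z = Orb L A z := by
  unfold Nn
  exact not_not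

private theorem gJ0_symm {A : Set U} {τ : U ≃[L] U} (h : Fx L A τ) : Fx L A τ.symm := by
  intro a ha
  calc τ.symm a = τ.symm (τ a) := by rw [h a ha]
    _ = a := τ.symm_apply_apply a

private theorem gJ0_comp {A : Set U} {τ ρ : U ≃[L] U} (h : Fx L A τ) (h' : Fx L A ρ) :
    Fx L A (ρ.comp τ) := by
  intro a ha
  show ρ (τ a) = a
  rw [h a ha, h' a ha]

private theorem gJ0_fix {A : Set U} {τ : U ≃[L] U} (h : Fx L A τ) : τ '' A = A := by
  have e : τ '' A = id '' A := image_congr fun x hx => h x hx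
  rw [e, image_id]

private theorem gJ0_img (τ ρ : U ≃[L] U) (X : Set U) :
    (ρ.comp τ.symm) '' (τ '' X) = ρ '' X := by
  rw [← image_comp]
  refine image_congr fun x hx => ?_
  show ρ (τ.symm (τ x)) = ρ x
  rw [τ.symm_apply_apply]

private theorem gJ0_img2 (τ ρ : U ≃[L] U) (X : Set U) : (ρ.comp τ) '' X = ρ '' (τ '' X) := by
  rw [← image_comp]
  rfl

private theorem gJ0_app (τ ρ : U ≃[L] U) (x : U) : (ρ.comp τ.symm) (τ x) = ρ x := by
  show ρ (τ.symm (τ x)) = ρ x
  rw [τ.symm_apply_apply]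

end helpers

/-- [gJ0] -/
theorem thm_gJ0 (hORB : St_ORB) (hNSB : St_NSB) (hGEX : St_nGEX) (hGER : St_nGER)
    (hFFR : St_nFFR) (hTRA : St_nTRA) (hSDI : St_nSDI) (hISO : St_nISO) (hFAR : St_nFAR)
    (hSAT : St_SAT) (hFC : St_gFC) (hIS : St_gIS) (hPN : St_gPN) (hSEC : St_gSEC)
    (hPI : St_gPI) (hLG : St_gLG) : St_gJ0 := by
  intro L U _ _ hW hT hNI C b y n w t hCd a₀ a₀' ha₀ hfar hnLG
  have hCod := hCd.1
  have hCf : C.Finite := hCod.fin
  obtain ⟨o1, o2, o3, o4, o5, -⟩ := hORB L U hW.mon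
  obtain ⟨nsb1, nsb2, nsb3, -⟩ := hNSB L U
  have gex := hGEX L U hW
  obtain ⟨ger1, ger2, ger3, ger4, ger5, -⟩ := hGER L U hW
  have ffr := hFFR L U hW
  have tra := hTRA L U hW
  obtain ⟨sdi1, -, sdi3, sdi4, -⟩ := hSDI L U hW
  have iso := hISO L U hW
  obtain ⟨-, -, -, is4, is5⟩ := hIS L U hW hT
  obtain ⟨-, pn2, pn3⟩ := hPN L U hW
  have sec := hSEC L U hW
  obtain ⟨fc1, -, fc3, -, fc5, fc6⟩ := hFC L U hW hT C (insert b C) y n (hCf.insert b)
    (subset_insert b C)
  -- the base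
  have hBf : (BB C b y n).Finite :=
    (hCf.insert b).union ((finite_lt_nat n).image y)
  have hiB : insert b C ⊆ BB C b y n := subset_union_left
  have hX : ∀ ρ : U ≃[L] U, Fx L C ρ → (ρ '' BB C b y n).Finite ∧ C ⊆ ρ '' BB C b y n ∧
      ρ b ∈ ρ '' BB C b y n ∧ ρ b ∈ Orb L C b ∧ ¬ SD L (ρ '' BB C b y n) (ρ w) t ∧
      ¬ Isd L (ρ '' BB C b y n) (ρ w) := by
    intro ρ hρ
    have h1 : ¬ SD L (ρ '' BB C b y n) (ρ w) t := fun h => hCod.nd (((sdi4 ρ _ _).2 t).mp h)
    refine ⟨hBf.image _, ?_, ⟨b, hiB (mem_insert _ _), rfl⟩, ⟨ρ, hρ, rfl⟩, h1, ?_⟩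
    · intro c hc
      exact ⟨c, hiB (mem_insert_of_mem _ hc), hρ c hc⟩
    · intro h
      have h2 := (sdi1 _ _ (hBf.image _)).mp h
      cases t
      · exact h1 h2.2
      · exact h1 h2.1
  -- conjugation of the germs of `Q`
  have cj : ∀ (κ : U ≃[L] U) (X : Set U) (s : Bool), Fx L C κ →
      Ge L C b s (κ '' X) = κ '' Ge L C b s X := by
    intro κ X s hκ
    have h1 := ger5 κ C X b s
    rw [gJ0_fix hκ, ger4 C (κ '' X) b (κ b) s ⟨κ, hκ, rfl⟩] at h1
    exact h1
  -- `ct`, moved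
  have hct : ∀ σ σ' : U ≃[L] U, Fx L C σ → Fx L C σ' → σ b = σ' b →
      ∀ u ∈ Ge L (σ '' BB C b y n) (σ w) t (σ '' BB C b y n ∪ σ' '' BB C b y n),
      ∀ u' ∈ Ge L (σ' '' BB C b y n) (σ' w) t (σ '' BB C b y n ∪ σ' '' BB C b y n),
        Nn L (σ '' BB C b y n ∪ σ' '' BB C b y n) u u' := by
    intro σ σ' hσ hσ' hb u hu u' hu'
    obtain ⟨κ, hκ⟩ : ∃ κ : U ≃[L] U, κ = σ.symm.comp σ' := ⟨_, rfl⟩
    have hk : ∀ x, σ (κ x) = σ' x := by
      intro x
      rw [hκ]
      exact σ.apply_symm_apply (σ' x)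
    have hkf : Fx L (insert b C) κ := by
      intro x hx
      have h1 : σ (κ x) = σ x := by
        rw [hk]
        rcases hx with rfl | hx
        · exact hb.symm
        · rw [hσ x hx, hσ' x hx]
      exact σ.injective h1
    have e1 : σ '' (κ '' BB C b y n) = σ' '' BB C b y n := by
      rw [← image_comp]
      exact image_congr fun x _ => hk x
    have e2 : σ '' (BB C b y n ∪ κ '' BB C b y n) = σ '' BB C b y n ∪ σ' '' BB C b y n := by
      rw [image_union, e1]
    rw [← e2] at hu hu' ⊢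
    rw [ger5] at hu
    obtain ⟨v, hv, rfl⟩ := hu
    rw [← e1, ← hk w, ger5] at hu'
    obtain ⟨v', hv', rfl⟩ := hu'
    exact nsb3 σ _ v v' (hCod.ct κ hkf v hv v' hv')
  -- `Q` is not a singleton
  have hfarO : a₀' ∈ Orb L C b := by
    have h1 : a₀' ∈ Orb L C a₀ := hfar.1
    rwa [o2 C b a₀ ha₀] at h1
  have hQ : Orb L C b ≠ {b} := by
    intro h
    apply hnLG
    intro σ σ' hσ hσb hσ' hσb' u hu u' hu'
    rw [h] at ha₀ hfarO
    exact hct σ σ' hσ.fx hσ'.fx (by rw [hσb, hσb', ha₀, hfarO]) u hu u' hu'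
  -- inner sides
  have hF3 : ∀ (X : Set U) (u q : U) (s : Bool), C ⊆ X → X.Finite → q ∈ X → q ∈ Orb L C b →
      u ∈ Ge L C b s X → SD L X u (!s) := by
    intro X u q s hCX hXf hq hqOrb hu
    rcases hNI C X b u s hCX hXf hu with h | h
    · exfalso
      rw [← h] at hqOrb
      have h1 := o2 X u q hqOrb
      rw [o5 X q hq, h] at h1
      have h2 : b ∈ Orb L C b := o1 C b
      rw [← h1] at h2
      rw [← h1, h2] at hQ
      exact hQ rfl
    · exact h
  -- the link lemma
  have LNK : ∀ (X A' E : Set U) (w' z u v q : U) (s : Bool), C ⊆ X → q ∈ X → q ∈ Orb L C b →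
      X ⊆ A' → A' ⊆ E → E.Finite → ¬ SD L X w' t → Orb L A' w' = Orb L X w' →
      z ∈ Ge L C b s A' → Nn L A' z w' → u ∈ Ge L X w' t E → v ∈ Ge L C b s E → Nn L E u v := by
    intro X A' E w' z u v q s hCX hq hqOrb hXA hAE hE hnd hO hz hN hu hv
    have hAf : A'.Finite := hE.subset hAE
    have hXf : X.Finite := hAf.subset hXA
    have h1 : SD L A' z (!s) := hF3 A' z q s (hCX.trans hXA) hAf (hXA hq) hqOrb hz
    have h2 : ¬ SD L A' w' t := fun h => hnd (((sdi3 X A' w' hXA hAf hO).2 t).mp h)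
    have h3 : ¬ Isd L A' w' := by
      intro h
      have h4 := (sdi1 _ _ hAf).mp h
      cases t
      · exact h2 h4.2
      · exact h2 h4.1
    have h4 : ¬ Isd L A' z := fun h => (iso A' z w' hAf h h3).1 hN
    have h5 : ¬ SD L A' z s := by
      intro h
      apply h4
      rw [sdi1 _ _ hAf]
      cases s
      · exact ⟨h1, h⟩
      · exact ⟨h, h1⟩
    obtain ⟨t', ht'⟩ := pn3 A' z w' (!s) hAf hN h1
    have h6 : SD L A' w' (!t) := by
      have : t' = !t := by
        cases t' <;> cases t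
        · exact absurd ht' h2
        · rfl
        · rfl
        · exact absurd ht' h2
      rw [← this]; exact ht'
    have hu' : u ∈ Ge L A' w' t E := by
      rw [ger3 X A' E w' t hXA hAE hE hO]; exact hu
    have hv' : v ∈ Ge L A' z s E := by
      rw [ger1 C A' E b z s (hCX.trans hXA) hAE hE hz]; exact hv
    exact pn2 A' E w' z u v t s hAE hE (nsb1 _ _ _ hN) h6 h5 hu' hv'
  -- (a)
  have hA : ∀ (τ : U ≃[L] U) (s : Bool) (d : U), Fx L C τ → d ∈ Ge L C b s (τ '' BB C b y n) →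
      ¬ Nn L (τ '' BB C b y n) d (τ w) := by
    intro τ s d hτ hd hN
    have key : ∀ (ρ : U ≃[L] U) (E : Set U) (u v : U), Fx L C ρ → E.Finite →
        ρ '' BB C b y n ⊆ E → u ∈ Ge L (ρ '' BB C b y n) (ρ w) t E → v ∈ Ge L C b s E →
        Nn L E u v := by
      intro ρ E u v hρ hE hBE hu hv
      obtain ⟨x1, x2, x3, x4, x5, x6⟩ := hX ρ hρ
      obtain ⟨κ, hκ⟩ : ∃ κ : U ≃[L] U, κ = ρ.comp τ.symm := ⟨_, rfl⟩
      have hκf : Fx L C κ := by rw [hκ]; exact gJ0_comp (gJ0_symm hτ) hρ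
      have hκi : κ '' (τ '' BB C b y n) = ρ '' BB C b y n := by rw [hκ]; exact gJ0_img _ _ _
      have hκw : κ (τ w) = ρ w := by rw [hκ]; exact gJ0_app _ _ _
      have hz : κ d ∈ Ge L C b s (ρ '' BB C b y n) := by
        rw [← hκi, cj κ _ s hκf]
        exact ⟨d, hd, rfl⟩
      have hN' : Nn L (ρ '' BB C b y n) (κ d) (ρ w) := by
        have h1 := nsb3 κ _ _ _ hN
        rwa [hκi, hκw] at h1
      exact LNK (ρ '' BB C b y n) (ρ '' BB C b y n) E (ρ w) (κ d) u v (ρ b) s x2 x3 x4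
        Subset.rfl hBE hE x5 rfl hz hN' hu hv
    apply hnLG
    intro σ σ' hσ hσb hσ' hσb' u hu u' hu'
    have hE : (σ '' BB C b y n ∪ σ' '' BB C b y n).Finite := (hBf.image _).union (hBf.image _)
    obtain ⟨v, hv⟩ := (gex C (σ '' BB C b y n ∪ σ' '' BB C b y n) b s
      ((hX σ hσ.fx).2.1.trans subset_union_left) hE).1
    have k1 := key σ _ u v hσ.fx hE subset_union_left hu hv
    have k2 := key σ' _ u' v hσ'.fx hE subset_union_right hu' hv
    exact tra _ u v u' hE k1 (nsb1 _ _ _ k2)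
  -- lifting along the tail
  have hlift : ∀ (D : Set U) (e : U) (τ : U ≃[L] U), D.Finite → τ '' insert b C ⊆ D →
      Fc L C (insert e D) (insert b C) y n τ → Isd L D e → Isd L (D ∪ τ '' BB C b y n) e := by
    intro D e τ hD hsub hFc he
    have h1 := (fc5 hNI hCod.ch (insert e D) τ (hD.insert e) (hsub.trans (subset_insert _ _))
      hFc).1
    have h2 := (is4 D e (fun i => τ (y i)) n hD he h1).2
    have h3 : D ∪ τ '' BB C b y n = Bn D (fun i => τ (y i)) n :=
      (fc5 hNI hCod.ch D τ hD hsub (fc3 (insert e D) D τ (hD.insert e) (subset_insert _ _)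
        hFc)).2
    rw [h3]
    exact h2
  have hcomp : ∀ (D : Set U) (z : U) (τ : U ≃[L] U), D.Finite → τ '' insert b C ⊆ D →
      Fc L C D (insert b C) y n τ → ¬ Isd L D z →
      Orb L (D ∪ τ '' BB C b y n) z = Orb L D z := by
    intro D z τ hD hsub hFc hz
    have h1 : Atm L D (D ∪ τ '' BB C b y n) := fc6 hNI hCod.ch D τ hD hsub hFc
    exact ((hSAT L U hW D hD _ h1).2.1 z hz).1
  have hin : ∀ (D X : Set U) (a z : U) (s : Bool), C ⊆ D → D ⊆ X → X.Finite →
      a ∈ Orb L C b → z ∈ Ge L C a s D → Orb L X z = Orb L D z → z ∈ Ge L C b s X := by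
    intro D X a z s hCD hDX hXf ha hz hO
    obtain ⟨⟨v, hv⟩, h1⟩ := gex C X a s (hCD.trans hDX) hXf
    have hv' := ger2 C D X a s hCD hDX hXf hv
    rw [(gex C D a s hCD (hXf.subset hDX)).2 z hz, ← hO] at hv'
    rw [← ger4 C X b a s ha, h1 v hv, o2 X z v hv']
    exact o1 X z
  -- (b0)
  have hDa : ∀ (a : U) (τ : U ≃[L] U), Fx L C τ → τ b = a →
      τ '' insert b C = insert a C ∧ insert a C ∪ τ '' BB C b y n = τ '' BB C b y n := by
    intro a τ hτ hb
    have e : τ '' insert b C = insert a C := by rw [image_insert_eq, gJ0_fix hτ, hb]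
    refine ⟨e, ?_⟩
    rw [← e]
    exact union_eq_self_of_subset_left (image_mono hiB)
  have hb0 : ∀ (a : U) (s : Bool) (a' : U) (τ : U ≃[L] U), a ∈ Orb L C b →
      a' ∈ Ge L C a s (insert a C) → Fc L C (insert a (insert a' C)) (insert b C) y n τ →
      τ b = a → (¬ Isd L (insert a C) a' → a' ∈ Ge L C b s (τ '' BB C b y n)) ∧
        (Isd L (insert a C) a' → Isd L (τ '' BB C b y n) a') ∧
        ¬ Nn L (τ '' BB C b y n) a' (τ w) := by
    intro a s a' τ ha ha' hFc hτb
    obtain ⟨x1, x2, x3, x4, x5, x6⟩ := hX τ hFc.fx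
    obtain ⟨e1, e2⟩ := hDa a τ hFc.fx hτb
    have hFc' : Fc L C (insert a' (insert a C)) (insert b C) y n τ := by
      rw [insert_comm]; exact hFc
    have hD : (insert a C).Finite := hCf.insert a
    have i1 : Isd L (insert a C) a' → Isd L (τ '' BB C b y n) a' := by
      intro h
      have h1 := hlift (insert a C) a' τ hD e1.le hFc' h
      rwa [e2] at h1
    have i2 : ¬ Isd L (insert a C) a' → a' ∈ Ge L C b s (τ '' BB C b y n) := by
      intro h
      have h1 := hcomp (insert a C) a' τ hD e1.le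
        (fc3 _ _ τ (hD.insert a') (subset_insert _ _) hFc') h
      rw [e2] at h1
      have hsub : insert a C ⊆ τ '' BB C b y n := by
        rw [← e1]; exact image_mono hiB
      exact hin (insert a C) _ a a' s (subset_insert _ _) hsub x1 ha ha' h1
    refine ⟨i2, i1, ?_⟩
    by_cases h : Isd L (insert a C) a'
    · exact (iso _ a' (τ w) x1 (i1 h) x6).1
    · exact hA τ s a' hFc.fx (i2 h)
  -- existence of tails
  have hex : ∀ (D : Set U) (a : U), D.Finite → a ∈ Orb L C b →
      ∃ σ : U ≃[L] U, Fc L C D (insert b C) y n σ ∧ σ b = a := by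
    intro D a hD ha
    obtain ⟨σ₀, hσ₀, hσb⟩ := ha
    obtain ⟨σ, hσ, hσA⟩ := fc1 D σ₀ hD hσ₀
    exact ⟨σ, hσ, (hσA b (mem_insert _ _)).trans hσb⟩
  -- claim 1
  have c1 : ∀ a ∈ Orb L C b, ∀ a' ∈ Orb L C b, (Far L C a a' ∨ Far L C a' a) →
      PI L C b y n w (insert a (insert a' C)) a := by
    intro a ha a' ha' hf
    obtain ⟨s, hs⟩ : ∃ s, a' ∈ Ge L C a s (insert a C) := by
      rcases hf with h | h
      · exact ⟨true, h⟩
      · exact ⟨false, ffr C a' a true hCf h⟩
    have hDf : (insert a (insert a' C)).Finite := (hCf.insert a').insert a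
    obtain ⟨σ, hσ, hσb⟩ := hex _ a hDf ha
    obtain ⟨x1, x2, x3, x4, x5, x6⟩ := hX σ hσ.fx
    refine (hPI L U hW hT hNI C b y n w t hCod (insert a (insert a' C)) a hDf
      ((subset_insert _ _).trans (subset_insert _ _)) (mem_insert _ _) ha).1 σ hσ hσb ?_
    have e : insert a (insert a' C) ∪ σ '' BB C b y n = insert a' (σ '' BB C b y n) := by
      rw [hσb] at x3
      rw [insert_union, insert_union, union_eq_self_of_subset_left x2, insert_comm,
        insert_eq_of_mem x3]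
    rw [e]
    exact gJ0_nn.mp (hb0 a s a' σ ha hs hσ hσb).2.2
  refine ⟨c1, ?_, ?_⟩
  · -- claim 2
    intro d hd a hda d' hd'
    have ha : a ∈ Orb L C b := by
      have h1 : a ∈ Orb L C d := hda.1
      rwa [o2 C b d hd] at h1
    have hda' : d ∈ Ge L C a false (insert a C) := ffr C d a true hCf hda
    have hDf : (insert d (insert d' (insert a C))).Finite := ((hCf.insert a).insert d').insert d
    have hD1 : (insert d (insert a C)).Finite := (hCf.insert a).insert d
    obtain ⟨τ, hτ, hτb⟩ := hex _ a hDf ha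
    obtain ⟨x1, x2, x3, x4, x5, x6⟩ := hX τ hτ.fx
    obtain ⟨e1, e2⟩ := hDa a τ hτ.fx hτb
    have haX : a ∈ τ '' BB C b y n := by rw [hτb] at x3; exact x3
    have haC : insert a C ⊆ τ '' BB C b y n := by
      rw [← e1]; exact image_mono hiB
    refine (hPI L U hW hT hNI C b y n w t hCod (insert d (insert d' (insert a C))) a hDf
      (fun x hx => mem_insert_of_mem _ (mem_insert_of_mem _ (mem_insert_of_mem _ hx)))
      (mem_insert_of_mem _ (mem_insert_of_mem _ (mem_insert _ _))) ha).1 τ hτ hτb ?_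
    have e3 : insert d (insert d' (insert a C)) ∪ τ '' BB C b y n =
        insert d' (insert d (τ '' BB C b y n)) := by
      rw [insert_union, insert_union, e2, insert_comm]
    have e4 : insert d (insert a C) ∪ τ '' BB C b y n = insert d (τ '' BB C b y n) := by
      rw [insert_union, e2]
    -- far over the smaller sets
    have hτ1 : Fc L C (insert a (insert d C)) (insert b C) y n τ := by
      refine fc3 _ _ τ hDf ?_ hτ
      rintro x (rfl | rfl | hx)
      · exact mem_insert_of_mem _ (mem_insert_of_mem _ (mem_insert _ _))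
      · exact mem_insert _ _
      · exact mem_insert_of_mem _ (mem_insert_of_mem _ (mem_insert_of_mem _ hx))
    have hτ2 : Fc L C (insert d' (insert d (insert a C))) (insert b C) y n τ := by
      rw [insert_comm]; exact hτ
    have hτ3 : Fc L C (insert d (insert a C)) (insert b C) y n τ :=
      fc3 _ _ τ (hD1.insert d') (subset_insert _ _) hτ2
    obtain ⟨j1, j2, j3⟩ := hb0 a false d τ ha hda' hτ1 hτb
    have hstar : Orb L (insert d (τ '' BB C b y n)) (τ w) = Orb L (τ '' BB C b y n) (τ w) :=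
      gJ0_nn.mp j3
    have hXd : (insert d (τ '' BB C b y n)).Finite := x1.insert d
    rw [e3]
    by_contra hcon
    have hNN : Nn L (insert d (τ '' BB C b y n)) d' (τ w) := by
      intro h
      exact hcon (h.trans hstar)
    have hw1 : ¬ Isd L (insert d (τ '' BB C b y n)) (τ w) := fun h =>
      x6 ((sdi3 _ _ _ (subset_insert _ _) hXd hstar).1.mp h)
    have hd1 : ¬ Isd L (insert d (τ '' BB C b y n)) d' := fun h =>
      (iso _ d' (τ w) hXd h hw1).1 hNN
    have hsubD : τ '' insert b C ⊆ insert d (insert a C) := by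
      rw [e1]; exact subset_insert _ _
    have hd2 : ¬ Isd L (insert d (insert a C)) d' := by
      intro h
      have h1 := hlift _ d' τ hD1 hsubD hτ2 h
      rw [e4] at h1
      exact hd1 h1
    have hO1 := hcomp _ d' τ hD1 hsubD hτ3 hd2
    rw [e4] at hO1
    have hd3 : d' ∈ Ge L C b true (insert d (τ '' BB C b y n)) :=
      hin (insert d (insert a C)) _ a d' true
        ((subset_insert _ _).trans (subset_insert _ _)) (insert_subset_insert haC) hXd ha hd' hO1
    have hd4 : d' ∈ Ge L C b true (τ '' BB C b y n) :=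
      ger2 C _ _ b true x2 (subset_insert _ _) hXd hd3
    have hd5 : ¬ Nn L (τ '' BB C b y n) d' (τ w) := hA τ true d' hτ.fx hd4
    have hdd : Nn L (τ '' BB C b y n) d d' := by
      by_contra h
      exact hT (τ '' BB C b y n) d d' (τ w) x1 h j3 hd5 hNN
    have hGd : Ge L (τ '' BB C b y n) d' true (insert d (τ '' BB C b y n)) =
        Ge L C b true (insert d (τ '' BB C b y n)) :=
      ger1 C _ _ b d' true x2 (subset_insert _ _) hXd hd4
    have hGd' : Ge L (τ '' BB C b y n) d' true (insert d' (τ '' BB C b y n)) =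
        Ge L C b true (insert d' (τ '' BB C b y n)) :=
      ger1 C _ _ b d' true x2 (subset_insert _ _) (x1.insert d') hd4
    have hsharp : ∀ v₂ ∈ Ge L C b true (insert d' (τ '' BB C b y n)),
        Nn L (insert d' (τ '' BB C b y n)) v₂ (τ w) := by
      intro v₂ hv₂
      refine sec (τ '' BB C b y n) d d' (τ w) d' v₂ true x1 hdd j3 hd5 ?_ hNN ?_
      · rw [hGd]; exact hd3
      · rw [hGd']; exact hv₂
    have hd6 : ¬ Isd L (τ '' BB C b y n) d' := by
      intro h
      apply hd1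
      refine is5 hNI (τ '' BB C b y n) _ d' d' true (subset_insert _ _) hXd h ?_
      rw [hGd]; exact hd3
    have hd7 : ¬ Isd L (τ '' BB C b y n) d := fun h => (iso _ d d' x1 h hd6).1 hdd
    have hd8 : ¬ Isd L (insert a C) d := fun h => hd7 (j2 h)
    have haCf : (insert a C).Finite := hCf.insert a
    have hd9 : d' ∈ Ge L C a true (insert a C) :=
      ger2 C (insert a C) _ a true (subset_insert _ _) (subset_insert _ _) hD1 hd'
    have hd10 : ∀ v ∈ Ge L C a true (insert a C), ¬ Isd L (insert a C) v := by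
      intro v hv h
      have h1 := (gex C (insert a C) a true (subset_insert _ _) haCf).2 v hv
      rw [h1] at hd9
      have h2 := o2 _ _ _ hd9
      have h3 : Isd L (insert a C) d' := by
        unfold Isd at h ⊢
        rw [h2]; exact h
      apply hd6
      refine is5 hNI (insert a C) (τ '' BB C b y n) d' d' true haC x1 h3 ?_
      rw [ger1 C (insert a C) (τ '' BB C b y n) a d' true (subset_insert _ _) haC x1
        (by rw [h1]; exact hd9), ger4 C _ b a true ha]
      exact hd4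
    have hd11 : d ∈ Ge L C b false (τ '' BB C b y n) := j1 hd8
    -- general position of `a₀`, `a₀'`
    apply hnLG
    intro σ σ' hσ hσb hσ' hσb' u hu u' hu'
    obtain ⟨E, hE⟩ : ∃ E : Set U, E = σ '' BB C b y n ∪ σ' '' BB C b y n := ⟨_, rfl⟩
    rw [← hE] at hu hu' ⊢
    obtain ⟨p1, p2, p3, p4, p5, p6⟩ := hX σ hσ.fx
    obtain ⟨q1, q2, q3, q4, q5, q6⟩ := hX σ' hσ'.fx
    have hEf : E.Finite := by rw [hE]; exact p1.union q1
    have hE1 : σ '' BB C b y n ⊆ E := by rw [hE]; exact subset_union_left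
    have hE2 : σ' '' BB C b y n ⊆ E := by rw [hE]; exact subset_union_right
    have hfar2 : a₀ ∈ Ge L C a₀' false (insert a₀' C) := ffr C a₀ a₀' true hCf hfar
    -- non isolation of the pair `a₀`, `a₀'`
    have far7 := (hFAR L U hW C b hCf hQ).2.2.2.2.2.2.1
    obtain ⟨κ₁, hκ₁, hκ₁d, hκ₁a⟩ := far7 d hd a₀ ha₀ a a₀' hda hfar
    have hni2 : ¬ Isd L (insert a₀' C) a₀ := by
      intro h
      apply hd8
      have h1 := (sdi4 κ₁ (insert a C) d).1
      rw [image_insert_eq, gJ0_fix hκ₁, hκ₁a, hκ₁d] at h1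
      exact h1.mp h
    obtain ⟨κ₀, hκ₀, hκ₀a⟩ : ∃ κ₀ : U ≃[L] U, Fx L C κ₀ ∧ κ₀ a = a₀ := by
      have h1 : a₀ ∈ Orb L C a := by rw [o2 C b a ha]; exact ha₀
      exact h1
    have hni1 : ¬ Isd L (insert a₀ C) a₀' := by
      intro h
      have h1 : κ₀ '' insert a C = insert a₀ C := by
        rw [image_insert_eq, gJ0_fix hκ₀, hκ₀a]
      have h2 := ger5 κ₀ C (insert a C) a true
      rw [gJ0_fix hκ₀, h1, hκ₀a] at h2
      have h3 : a₀' ∈ Ge L C a₀ true (insert a₀ C) := hfar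
      rw [h2] at h3
      obtain ⟨v, hv, hv2⟩ := h3
      apply hd10 v hv
      have h4 := (sdi4 κ₀ (insert a C) v).1
      rw [h1, hv2] at h4
      exact h4.mp h
    -- part one
    obtain ⟨r1, -, r3⟩ := hb0 a₀ true a₀' σ ha₀ hfar hσ hσb
    have hr1 := r1 hni1
    have part1 : ∀ v ∈ Ge L C b true E, Nn L E u v := by
      intro v hv
      obtain ⟨κ, hκ⟩ : ∃ κ : U ≃[L] U, κ = σ.comp τ.symm := ⟨_, rfl⟩
      have hκf : Fx L C κ := by rw [hκ]; exact gJ0_comp (gJ0_symm hτ.fx) hσ.fx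
      have hκi : κ '' (τ '' BB C b y n) = σ '' BB C b y n := by rw [hκ]; exact gJ0_img _ _ _
      have hκw : κ (τ w) = σ w := by rw [hκ]; exact gJ0_app _ _ _
      have hz : κ d' ∈ Ge L C b true (σ '' BB C b y n) := by
        rw [← hκi, cj κ _ true hκf]
        exact ⟨d', hd4, rfl⟩
      have hr2 := hr1
      rw [(gex C (σ '' BB C b y n) b true p2 p1).2 (κ d') hz] at hr2
      obtain ⟨μ, hμ, hμd⟩ := hr2
      have hμC : Fx L C μ := fun c hc => hμ c (p2 hc)
      obtain ⟨ν, hν⟩ : ∃ ν : U ≃[L] U, ν = μ.comp κ := ⟨_, rfl⟩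
      have hνf : Fx L C ν := by rw [hν]; exact gJ0_comp hκf hμC
      have hνi : ν '' (τ '' BB C b y n) = σ '' BB C b y n := by
        rw [hν, gJ0_img2, hκi, gJ0_fix hμ]
      have hνd : ν d' = a₀' := by rw [hν]; exact hμd
      have hνw : ν (τ w) = μ (σ w) := by
        rw [hν]
        show μ (κ (τ w)) = _
        rw [hκw]
      have hνi' : ν '' insert d' (τ '' BB C b y n) = insert a₀' (σ '' BB C b y n) := by
        rw [image_insert_eq, hνi, hνd]
      have hAf : (insert a₀' (σ '' BB C b y n)).Finite := p1.insert a₀'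
      obtain ⟨v₂, hv₂⟩ := (gex C (insert a₀' (σ '' BB C b y n)) b true
        (p2.trans (subset_insert _ _)) hAf).1
      have hNv : Nn L (insert a₀' (σ '' BB C b y n)) v₂ (σ w) := by
        have h1 := hv₂
        rw [← hνi', cj ν _ true hνf] at h1
        obtain ⟨x, hx, hx2⟩ := h1
        have h2 := nsb3 ν _ _ _ (hsharp x hx)
        rw [hνi', hx2, hνw] at h2
        refine nsb2 _ _ _ _ _ (o1 _ _) ?_ h2
        have h3 : μ (σ w) ∈ Orb L (σ '' BB C b y n) (σ w) := ⟨μ, hμ, rfl⟩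
        rw [← gJ0_nn.mp r3] at h3
        rw [o2 _ _ _ h3]
        exact o1 _ _
      refine LNK (σ '' BB C b y n) (insert a₀' (σ '' BB C b y n)) E (σ w) v₂ u v (σ b) true
        p2 p3 p4 (subset_insert _ _) ?_ hEf p5 (gJ0_nn.mp r3) hv₂ hNv hu hv
      rw [insert_subset_iff]
      refine ⟨hE2 ?_, hE1⟩
      rw [hσb'] at q3
      exact q3
    -- part two
    have hσ'2 : Fc L C (insert a₀' (insert a₀ C)) (insert b C) y n σ' := by
      refine fc3 (insert a₀' (σ '' BB C b y n)) _ σ' (p1.insert a₀') ?_ hσ'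
      apply insert_subset_insert
      rw [insert_subset_iff]
      refine ⟨?_, p2⟩
      rw [hσb] at p3
      exact p3
    obtain ⟨s1, -, s3⟩ := hb0 a₀' false a₀ σ' hfarO hfar2 hσ'2 hσb'
    have hs1 := s1 hni2
    have part2 : ∀ v ∈ Ge L C b true E, Nn L E u' v := by
      intro v hv
      obtain ⟨κ, hκ⟩ : ∃ κ : U ≃[L] U, κ = σ'.comp τ.symm := ⟨_, rfl⟩
      have hκf : Fx L C κ := by rw [hκ]; exact gJ0_comp (gJ0_symm hτ.fx) hσ'.fx
      have hκi : κ '' (τ '' BB C b y n) = σ' '' BB C b y n := by rw [hκ]; exact gJ0_img _ _ _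
      have hκw : κ (τ w) = σ' w := by rw [hκ]; exact gJ0_app _ _ _
      have hz : κ d ∈ Ge L C b false (σ' '' BB C b y n) := by
        rw [← hκi, cj κ _ false hκf]
        exact ⟨d, hd11, rfl⟩
      have hs2 := hs1
      rw [(gex C (σ' '' BB C b y n) b false q2 q1).2 (κ d) hz] at hs2
      obtain ⟨μ, hμ, hμd⟩ := hs2
      have hμC : Fx L C μ := fun c hc => hμ c (q2 hc)
      obtain ⟨ν, hν⟩ : ∃ ν : U ≃[L] U, ν = μ.comp κ := ⟨_, rfl⟩
      have hνf : Fx L C ν := by rw [hν]; exact gJ0_comp hκf hμC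
      have hνi : ν '' (τ '' BB C b y n) = σ' '' BB C b y n := by
        rw [hν, gJ0_img2, hκi, gJ0_fix hμ]
      have hνd : ν d = a₀ := by rw [hν]; exact hμd
      have hνw : ν (τ w) = μ (σ' w) := by
        rw [hν]
        show μ (κ (τ w)) = _
        rw [hκw]
      have hνi' : ν '' insert d (τ '' BB C b y n) = insert a₀ (σ' '' BB C b y n) := by
        rw [image_insert_eq, hνi, hνd]
      have hv₂ : ν d' ∈ Ge L C b true (insert a₀ (σ' '' BB C b y n)) := by
        rw [← hνi', cj ν _ true hνf]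
        exact ⟨d', hd3, rfl⟩
      have hNv : Nn L (insert a₀ (σ' '' BB C b y n)) (ν d') (σ' w) := by
        have h2 := nsb3 ν _ _ _ hNN
        rw [hνi', hνw] at h2
        refine nsb2 _ _ _ _ _ (o1 _ _) ?_ h2
        have h3 : μ (σ' w) ∈ Orb L (σ' '' BB C b y n) (σ' w) := ⟨μ, hμ, rfl⟩
        rw [← gJ0_nn.mp s3] at h3
        rw [o2 _ _ _ h3]
        exact o1 _ _
      refine LNK (σ' '' BB C b y n) (insert a₀ (σ' '' BB C b y n)) E (σ' w) (ν d') u' v (σ' b)
        true q2 q3 q4 (subset_insert _ _) ?_ hEf q5 (gJ0_nn.mp s3) hv₂ hNv hu' hv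
      rw [insert_subset_iff]
      refine ⟨hE1 ?_, hE2⟩
      rw [hσb] at p3
      exact p3
    obtain ⟨v, hv⟩ := (gex C E b true (p2.trans hE1) hEf).1
    exact tra _ u v u' hEf (part1 v hv) (nsb1 _ _ _ (part2 v hv))
  · -- claim 3
    intro a ha a' ha' hf hl
    have far7 := (hFAR L U hW C b hCf hQ).2.2.2.2.2.2.1
    obtain ⟨-, lg2, -⟩ := hLG L U hW hT hNI C b y n w t hCd a₀ a₀' ha₀ hfarO
    obtain ⟨-, -, lg3⟩ := hLG L U hW hT hNI C b y n w t hCd a a' ha ha'
    rcases hf with h | h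
    · obtain ⟨κ, hκ, k1, k2⟩ := far7 a₀ ha₀ a ha a₀' a' hfar h
      have h1 := lg2 κ hκ
      rw [k1, k2] at h1
      exact hnLG (h1.mpr hl)
    · obtain ⟨κ, hκ, k1, k2⟩ := far7 a₀ ha₀ a' ha' a₀' a hfar h
      have h1 := lg2 κ hκ
      rw [k1, k2] at h1
      exact hnLG (h1.mpr (lg3 hl))

end Pool.Agent.WOM
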