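import Pool.Agent.WOL.StG2

/-! WOL: module gJB, the starting point of the construction (helper26). -/

set_option autoImplicit false

namespace Pool.Agent.WOM

open FirstOrder.Language Set
open scoped FirstOrder

private lemma gJB_img {L : FirstOrder.Language.{0, 0}} {U : Type} [L.Structure U] {A : Set U}
    {σ : U ≃[L] U} (h : Fx L A σ) : σ '' A = A := by
  ext x
  constructor
  · rintro ⟨z, hz, rfl⟩
    rw [h z hz]
    exact hz
  · intro hx
    exact ⟨x, hx, h x hx⟩

/-- the germs with the same `b` are linked: `LG b b` -/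
private lemma gJB_refl {L : FirstOrder.Language.{0, 0}} {U : Type} [L.Structure U] [LinearOrder U]
    (hNSB : St_NSB) (hGER : St_nGER) (hW : Wn L U) {C : Set U} {b : U} {y : ℕ → U} {n : ℕ} {w : U}
    {t : Bool} (hC : Cod L C b y n w t) : LG L C b y n w t b b := by
  intro σ σ' hσ hσb hσ' hσb' u hu u' hu'
  obtain ⟨-, -, -, -, g5, -⟩ := hGER L U hW
  obtain ⟨-, -, n3, -⟩ := hNSB L U
  set τ : U ≃[L] U := σ.symm.comp σ' with hτ
  have hτx : ∀ x, σ (τ x) = σ' x := fun x => by
    rw [hτ]
    exact σ.apply_symm_apply (σ' x)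
  have hτF : Fx L (insert b C) τ := by
    intro a ha
    apply σ.injective
    rw [hτx]
    rcases ha with rfl | ha
    · rw [hσb', hσb]
    · rw [hσ'.fx a ha, hσ.fx a ha]
  have hlk := hC.ct τ hτF
  have him : σ '' (τ '' BB C b y n) = σ' '' BB C b y n := by
    rw [image_image]
    exact image_congr fun x _ => hτx x
  have hB : σ '' (BB C b y n ∪ τ '' BB C b y n) = σ '' BB C b y n ∪ σ' '' BB C b y n := by
    rw [image_union, him]
  rw [← hB, g5] at hu
  obtain ⟨v, hv, rfl⟩ := hu
  rw [← hB, ← him, ← hτx w, g5] at hu'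
  obtain ⟨v', hv', rfl⟩ := hu'
  rw [← hB]
  exact n3 σ _ v v' (hlk v hv v' hv')

theorem thm_gJB (hORB : St_ORB) (hNSB : St_NSB) (hGEX : St_nGEX) (hGER : St_nGER)
    (hFFR : St_nFFR) (hSDI : St_nSDI) (hFAR : St_nFAR) (hPI : St_gPI) (hJ0 : St_gJ0) :
    St_gJB := by
  intro L U _ _ hW hT hNI C b y n w t hC a₀ a₀' ha₀ hF hn
  obtain ⟨o1, o2, o3, o4, o5, -⟩ := hORB L U hW.mon
  obtain ⟨g1, g2, g3, g4, g5, g6, g7, g8⟩ := hGER L U hW
  obtain ⟨s1, s2, s3, s4, s5⟩ := hSDI L U hW
  have hCf : C.Finite := hC.1.fin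
  have hex := hGEX L U hW
  -- the type of `b` is not algebraic
  have hne : Orb L C b ≠ {b} := by
    intro h
    rw [h, mem_singleton_iff] at ha₀
    subst ha₀
    have h1 : a₀' ∈ Orb L C a₀ := hF.1
    rw [h, mem_singleton_iff] at h1
    subst h1
    exact hn (gJB_refl hNSB hGER hW hC.1)
  obtain ⟨f1, f2, f3, f4, f5, f6, f7, f8⟩ := hFAR L U hW C b hCf hne
  have hbb : b ∈ Orb L C b := o1 C b
  -- the elements
  obtain ⟨b₁, hb₁⟩ := (hex C (insert b C) b true (subset_insert b C) (hCf.insert b)).1
  have hb₁O : b₁ ∈ Orb L C b := hb₁.1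
  obtain ⟨d', hd'⟩ := (hex C (insert b (insert b₁ C)) b₁ true
    ((subset_insert b₁ C).trans (subset_insert b _)) ((hCf.insert b₁).insert b)).1
  have hswap : (insert b (insert b₁ C) : Set U) = insert b₁ (insert b C) := insert_comm b b₁ C
  have hf0 : (insert b C).Finite := hCf.insert b
  have hf1 : (insert b₁ (insert b C)).Finite := hf0.insert b₁
  have hf2 : (insert d' (insert b C)).Finite := hf0.insert d'
  have hf3 : (insert b₁ (insert d' (insert b C))).Finite := hf2.insert b₁
  -- `d'` over `b, b₁, C`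
  have hd1 : d' ∈ Ge L C b true (insert b₁ (insert b C)) := by
    rw [← hswap, ← g4 C _ b b₁ true hb₁O]
    exact hd'
  have hd2 : d' ∈ Ge L (insert b C) b₁ true (insert b₁ (insert b C)) := by
    rw [g1 C (insert b C) (insert b₁ (insert b C)) b b₁ true (subset_insert b C)
      (subset_insert b₁ _) hf1 hb₁]
    exact hd1
  have hd3 : d' ∈ Ge L C b true (insert b C) :=
    g2 C (insert b C) _ b true (subset_insert b C) (subset_insert b₁ _) hf1 hd1
  have hbd : b < d' := f1 b hbb d' hd3.1 hd3
  have hb₁d : Far L C b₁ d' := g2 C (insert b₁ C) _ b₁ true (subset_insert b₁ C)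
    (subset_insert b _) ((hCf.insert b₁).insert b) hd'
  have hb₁d' : b₁ < d' := f1 b₁ hb₁O d' hd3.1 hb₁d
  have hbb₁ : b < b₁ := f1 b hbb b₁ hb₁O hb₁
  have hb4 : b₁ ∈ Ge L (insert b C) d' false (insert d' (insert b C)) :=
    hFFR L U hW (insert b C) b₁ d' true hf0 hd2
  have hb₁d'O : b₁ ∈ Orb L (insert b C) d' := hb4.1
  refine ⟨insert d' (insert b C), b₁, ?_⟩
  have hiso : Isd L (insert d' (insert b C)) b₁ := by
    rw [s1 _ b₁ hf2]
    constructor
    · rcases hNI (insert b C) (insert d' (insert b C)) d' b₁ false (subset_insert d' _) hf2 hb4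
        with h | h
      · exfalso
        have h1 : d' ∈ Orb L (insert d' (insert b C)) b₁ := by
          rw [h]
          exact o1 _ d'
        have h2 := o2 _ _ _ h1
        rw [o5 _ d' (mem_insert d' _)] at h2
        have h3 : b₁ ∈ ({d'} : Set U) := by
          rw [h2]
          exact o1 _ b₁
        exact hb₁d'.ne h3
      · exact h
    · rw [s2 (insert b C) _ d' b₁ false (subset_insert d' _) hf2 hb4]
      rcases hNI C (insert b C) b d' true (subset_insert b C) hf0 hd3 with h | h
      · exfalso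
        have h1 : b ∈ Orb L (insert b C) d' := by
          rw [h]
          exact hbb
        have h2 := o2 _ _ _ h1
        rw [o5 _ b (mem_insert b C)] at h2
        have h3 : d' ∈ ({b} : Set U) := by
          rw [h2]
          exact o1 _ d'
        exact hbd.ne h3.symm
      · exact h
  have hpi1 : PI L C b y n w (insert b₁ (insert d' (insert b C))) b₁ := by
    obtain ⟨-, hJ2, -⟩ := hJ0 L U hW hT hNI C b y n w t hC a₀ a₀' ha₀ hF hn
    have h := hJ2 b hbb b₁ hb₁ d' hd'
    have he : (insert b (insert d' (insert b₁ C)) : Set U) =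
        insert b₁ (insert d' (insert b C)) := by
      ext z
      simp only [mem_insert_iff]
      tauto
    rwa [he] at h
  have hCsub : C ⊆ insert d' (insert b C) := (subset_insert b C).trans (subset_insert d' _)
  constructor
  · exact ⟨hf2, hCsub⟩
  · exact hb₁O
  · exact hiso
  · -- `wide`
    obtain ⟨x, hx⟩ := (hex (insert b C) (insert b₁ (insert d' (insert b C))) d' false
      ((subset_insert d' _).trans (subset_insert b₁ _)) hf3).1
    have hx1 : x ∈ Ge L (insert b C) d' false (insert d' (insert b C)) :=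
      g2 _ _ _ d' false (subset_insert d' _) (subset_insert b₁ _) hf3 hx
    have hx2 : x ∈ Orb L (insert d' (insert b C)) b₁ := by
      rw [← (hex (insert b C) (insert d' (insert b C)) d' false (subset_insert d' _) hf2).2 b₁ hb4]
      exact hx1
    refine ⟨x, hx2, ?_⟩
    have hsub : insert b₁ (insert b C) ⊆ insert b₁ (insert d' (insert b C)) :=
      insert_subset_insert (subset_insert d' _)
    have hx3 : x ∈ Ge L (insert b C) b₁ false (insert b₁ (insert b C)) := by
      rw [g4 (insert b C) _ d' b₁ false hb₁d'O]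
      exact g2 _ _ _ d' false (subset_insert b₁ _) hsub hf3 hx
    have hx4 : b₁ ∈ Ge L (insert b C) x true (insert x (insert b C)) :=
      hFFR L U hW (insert b C) b₁ x false hf0 hx3
    have hxO : x ∈ Ge L C b true (insert b C) := by
      rw [(hex C (insert b C) b true (subset_insert b C) hf0).2 b₁ hb₁]
      exact hx3.1
    rw [g1 C (insert b C) (insert x (insert b C)) x x true (subset_insert b C)
      (subset_insert x _) (hf0.insert x) (by rw [g4 C _ b x true hxO.1]; exact hxO)] at hx4
    exact g2 C (insert x C) _ x true (subset_insert x C)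
      (insert_subset_insert (subset_insert b C)) (hf0.insert x) hx4
  · -- `pi`
    rintro x ⟨σ, hσ, rfl⟩
    have hσC : Fx L C σ := fun a ha => hσ a (hCsub ha)
    have h4 := (hPI L U hW hT hNI C b y n w t hC.1 (insert b₁ (insert d' (insert b C))) b₁
      hf3 (hCsub.trans (subset_insert b₁ _)) (mem_insert b₁ _) hb₁O).2.2.2.1 σ hσC
    rw [image_insert_eq, gJB_img hσ] at h4
    exact h4.1 hpi1

end Pool.Agent.WOM
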