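import Pool.Agent.WOM.StS6

/-!
WOL (helper8; paper proof: helper31, helper34, helper8): Vaught's conjecture for weakly o-minimal
theories with LOCALLY FINITE convexity: for every finite `A` and every type `P` over `A` there are only
finitely many `A`-definable convex equivalence relations on `P`.  Statements with proofs in the
docstrings.  Everything takes place in the countable saturated model `U` (`Wn`), without any
orthogonality hypothesis; the language is relational and the theory is scattered (`ScU`).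

Numbers as in StC.lean / StN.lean: ORB, NSB, DFN (StC), nCNV, nGEX, nGER, nTRA, nSMA, nSMB, nSDI, nISO
(StN), SFX, SMM, SAT (StS3), SEZ, SDL (StS4), STT (StS5), SCUT, SDF (StS), BFM (StB), LV0 (StC).
An END is a pair `(w, t)` with `¬ SD L ∅ w t`; its type over the finite set `B` is `Ge L ∅ w t B`.
The proof of a statement may use all statements before it and all modules of WOM.
-/

set_option autoImplicit false
set_option linter.unusedVariables false

namespace Pool.Agent.WOM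

open FirstOrder.Language Set
open scoped FirstOrder

section defs

variable (L : FirstOrder.Language.{0, 0}) (U : Type) [L.Structure U]

/-- no new ends: a side of a type over `B` is definable, or it is a side of the type over `∅` -/
def NE [LinearOrder U] : Prop :=
  ∀ (B : Set U) (u : U) (t : Bool), B.Finite → ¬ SD L B u t → u ∈ Ge L ∅ u t B

/-- finitely many classes of nonisolated types over every finite set -/
def FCl : Prop :=
  ∀ A : Set U, A.Finite → ∃ V : Set U, V.Finite ∧ ∀ z, ¬ Isd L A z → ∃ v ∈ V, Nn L A z v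

variable {U}

/-- the type of the germ `(∅, w, t)` over every finite subset of `M` has a point in `M` -/
def OpE [LinearOrder U] (w : U) (t : Bool) (M : Set U) : Prop :=
  ∀ b : Set U, b.Finite → b ⊆ M → (Ge L ∅ w t b ∩ M).Nonempty

/-- every nonisolated type over `∅` which has a point in `M` is not orthogonal to an element of `a` -/
def Rp (a M : Set U) : Prop := ∀ z ∈ M, ¬ Isd L ∅ z → ∃ v ∈ a, Nn L ∅ z v

/-- `(a, V)` is a code of `M`: every end is open in `M` or omitted over `a`, and the open ends are those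
which are not orthogonal over `a` to an element of `V` -/
structure Cd [LinearOrder U] (a V M : Set U) : Prop where
  el : IsEl L M
  sub : a ⊆ M
  om : ∀ w t, ¬ SD L ∅ w t → OpE L w t M ∨ Ge L ∅ w t a ∩ M = ∅
  op : ∀ w t, ¬ SD L ∅ w t → (OpE L w t M ↔ ∃ v ∈ V, ∃ u ∈ Ge L ∅ w t a, Nn L a u v)

/-- `E` is an equivalence relation with convex classes on `P` -/
def CvO [LinearOrder U] (P : Set U) (E : U → U → Prop) : Prop :=
  (∀ x ∈ P, E x x) ∧ (∀ x ∈ P, ∀ y ∈ P, E x y → E y x) ∧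
  (∀ x ∈ P, ∀ y ∈ P, ∀ w ∈ P, E x y → E y w → E x w) ∧
  ∀ x ∈ P, ∀ y ∈ P, ∀ w ∈ P, x < y → y < w → E x w → E x y

/-- the `A`-definable convex equivalence relations on the type of `a` over `A` -/
def EqA [LinearOrder U] (A : Set U) (a : U) : Set (Set (U × U)) :=
  {R | ∃ E : U → U → Prop, A.Definable L {w : Fin 2 → U | E (w 0) (w 1)} ∧ CvO (Orb L A a) E ∧
    R = {z | z.1 ∈ Orb L A a ∧ z.2 ∈ Orb L A a ∧ E z.1 z.2}}

/-- the orbits over `B` inside the orbit of `u` over `A` -/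
def Ob (A : Set U) (u : U) (B : Set U) : Set (Set U) := {O | ∃ z ∈ Orb L A u, O = Orb L B z}

end defs

/-! ### Finitely many orbits -/

/-- [fOR] finitely many orbits over `x, A` to the right of `x`.  `P = Orb L A x`.  PROOF.  If `P = {x}` there is no such `z`.  Let
`Φ z = {R ∈ EqA L A x | (x, z) ∈ R}` (a subset of a finite set).  Claim: if `z, z' ∈ P`, `x < z`, `x < z'` and `Orb (xA) z ≠ Orb (xA) z'`
then `Φ z ≠ Φ z'` (so the set of the `Orb (xA) z` is the image of the finite set of the `Φ z` under a function).  WLOG `z < z'` (`z ≠ z'`), and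
`z' ∉ Orb (xA) z` (ORB 2).  SCUT for `B = xA`: `K` definable over `xA`, `Low`, `z ∈ K`, `z' ∉ K`; so `x ∈ K`.  SDF 8 (last part of SDF): `g` with
`DF L A g`, all `g y` `Low`, `y ∈ g y`, `g x = K`.  For all `y ∈ P` some `y' ∈ P` is not in `g y`: `y = σ x` with `σ` over `A`, `g (σ x) = σ '' g x` (SFX 1),
`y' = σ z'`.  SEZ (`s = true`): (EQ) for `y ∈ P`, `y ≤ w ∈ g y`: `g w = g y`.  Let `E y w := (y ≤ w ∧ w ∈ g y) ∨ (w ≤ y ∧ y ∈ g w)`: `A`-definable (toolkit
`Dx`, as in SPA).  For `y, w ∈ P`: `E y w ↔ g y = g w` (`→`: EQ; `←`: if `y ≤ w` then `w ∈ g w = g y`).  So `E` is an equivalence relation on `P`; convex: if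
`y < v < w` and `E y w` then `w ∈ g y`, so `v ∈ g y` (`Low`).  So `R = {..E..} ∈ EqA`, `(x, z) ∈ R` (`x < z ∈ K = g x`), `(x, z') ∉ R` (`z' ∉ K`). -/
def St_fOR : Prop :=
  ∀ (L : FirstOrder.Language.{0, 0}) [∀ n, IsEmpty (L.Functions n)] (U : Type)
    [S : L.Structure U] [LinearOrder U], Wn L U → ScU L S →
    ∀ (A : Set U) (x : U), A.Finite → (EqA L A x).Finite →
      {O | ∃ z ∈ Orb L A x, x < z ∧ O = Orb L (insert x A) z}.Finite

/-- [fOS] finitely many orbits over `x, A` in the type of `x`.  PROOF.  fOR for the order of `U` and for the reversed order `dO U`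
(SDL: `@Wn L U _ (dO U)`; `ScU`, `Orb` do not depend on the order; `EqA` is the same set for the reversed order: in `CvO` exchange
`x` and `w`: from `E x w`, `w < y < x`: `E w x`, so `E w y` by convexity, `E y w`, `E x y`), and the orbit `{x}`. -/
def St_fOS : Prop :=
  ∀ (L : FirstOrder.Language.{0, 0}) [∀ n, IsEmpty (L.Functions n)] (U : Type)
    [S : L.Structure U] [LinearOrder U], Wn L U → ScU L S →
    ∀ (A : Set U) (x : U), A.Finite → (EqA L A x).Finite → (Ob L A x (insert x A)).Finite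

/-- [fDF] invariant initial segments inside a type with finitely many orbits are definable.  `p = Orb L A u`.  PROOF.  (inv) `w ∈ c` implies
`Orb L B w ⊆ c`; so `z ∉ c` implies `Orb L B z ∩ c = ∅` (ORB 2).  Let `W ⊆ p ∩ c`, `Z ⊆ p \ c` be finite sets of representatives of the orbits over
`B` in `p ∩ c`, `p \ c` (`Ob` is finite).  For `w ∈ W`, `z ∈ Z`: `w < z` (`Low`), `z ∉ Orb L B w`: SCUT: `K w z` `B`-definable, `Low`, `w ∈ K w z`, `z ∉ K w z`; by ORB 6
`Orb L B w ⊆ K w z`, `Orb L B z ∩ K w z = ∅`.  `c = ⋃ w ∈ W, ⋂ z ∈ Z, K w z` (finite union and intersection, so definable): `⊆`: `y ∈ c`; by hypothesis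
`y ≤ o` for some `o ∈ p ∩ c`; `o ∈ Orb L B w`, `w ∈ W`, `o ∈ K w z` for all `z ∈ Z`.  `⊇`: let `y ∈ K w z` for all `z ∈ Z`, `y ∉ c`.  `y' = min y v₀ ∉ c`, `u < y' ≤ v₀`, so
`y' ∈ p` (nCNV) and `y' ∈ Orb L B z` with `z ∈ Z`; `y' ≤ y` gives `y' ∈ K w z`: contradiction. -/
def St_fDF : Prop :=
  ∀ (L : FirstOrder.Language.{0, 0}) (U : Type) [L.Structure U] [LinearOrder U], Wn L U →
    ∀ (A B : Set U) (u v₀ : U) (c : Set U), A.Finite → B.Finite → (Ob L A u B).Finite → Low c →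
      u ∈ c → v₀ ∈ Orb L A u → v₀ ∉ c → (∀ y ∈ c, ∃ o ∈ Orb L A u, o ∈ c ∧ y ≤ o) →
      (∀ w ∈ c, Orb L B w ⊆ c) → B.Definable₁ L c

/-- [fCE] no new ends over one element, side `true`.  `q = Orb L A x`, `p = Orb L A u`, `O = Orb L (xA) u ⊆ p`, `c = Cls true O` (`Low`).  PROOF.  Suppose
`u ∉ Ge L A u true (xA)`: so `O` is not unbounded in `p`: there is `v₀ ∈ p` with `o < v₀` for all `o ∈ O`, so `v₀ ∉ c`.  `c` is invariant over `xA` and not
definable over `xA` (`¬ SD`).  (Z) Claim: there is `v ∈ p`, `v ∉ c`, such that for every `σ` over `A`: `σ '' c ⊆ c` or `v ∈ σ '' c`.  Proof: for every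
`𝔬 ∈ Ob L A x (xA)` there is a `Low` set `K 𝔬 ⊇ c`, definable over `xA`, such that for all `σ` over `A` with `σ x ∈ 𝔬`: `σ '' c ⊆ c` or `K 𝔬 ⊆ σ '' c`:
if `σ '' c ⊆ c` for all such `σ` let `K 𝔬 = univ`.  Otherwise let `σ₀` be such that `¬ σ₀ '' c ⊆ c`: some `y ∈ σ₀ '' c`, `y ∉ c`; SCUT for `u < y`
(`y ∉ c ⊇ O`): `K` definable over `xA`, `Low`, `u ∈ K`, `y ∉ K`; `O ⊆ K` (ORB 6), so `c ⊆ K`; `K ⊆ σ₀ '' c` (elements of `K` are `< y`, `σ₀ '' c` is `Low`).  For other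
`σ` with `σ x ∈ 𝔬` there is `τ` over `xA` with `τ (σ₀ x) = σ x`; `σ⁻¹ τ σ₀` fixes `x`, `A`, so it maps `c` onto `c`: `σ '' c = τ '' (σ₀ '' c) ⊇ τ '' K = K` (SFX 3).
Let `K` be the intersection of the finitely many `K 𝔬`: definable over `xA`, `Low`, `c ⊆ K`, so `K ≠ c`: let `v' ∈ K \ c`, `v = min v' v₀`: `v ∉ c`,
`v ∈ K`, `u < v ≤ v₀`, so `v ∈ p` (nCNV).  (I) `c` is invariant over `vA`: if `τ` fixes `v`, `A` then `v ∈ τ '' c` is impossible (`v = τ⁻¹ v ∉ c`), so `τ '' c ⊆ c` by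
(Z); the same for `τ⁻¹`.  fDF for `B = vA`: `c` is definable over `vA`.  `c` is invariant over `xA`: ORB 8: `c` is definable over `xA`: contradiction. -/
def St_fCE : Prop :=
  ∀ (L : FirstOrder.Language.{0, 0}) (U : Type) [L.Structure U] [LinearOrder U], Wn L U →
    ∀ (A : Set U) (x u : U), A.Finite → (Ob L A x (insert x A)).Finite →
      (∀ v ∈ Orb L A u, (Ob L A u (insert v A)).Finite) →
      ¬ SD L (insert x A) u true → u ∈ Ge L A u true (insert x A)

/-- [fNE] no new ends.  PROOF.  (1) for finite `A` and all `x`, `u`, `t`: `¬ SD L (xA) u t` implies `u ∈ Ge L A u t (xA)`: fOS (for `x`, and for every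
`v ∈ Orb L A u`: `Orb L A v = Orb L A u`), fCE for `t = true`; for `t = false` fCE for the reversed order `dO U` (SDL; `@SD L U _ (dO U) A u t ↔ SD L A u (!t)`
since `@Cls U (dO U) t X = Cls (!t) X`).  (2) Induction on the finite set `B`: `¬ SD L B u t → u ∈ Ge L ∅ u t B`.  `B = ∅`: nGER 6.  `B = insert x B'`: by (1)
`u ∈ Ge L B' u t B`, so `¬ SD L B' u t` (nSDI 2), `u ∈ Ge L ∅ u t B'` (induction), so `Ge L B' u t B = Ge L ∅ u t B` (nGER 1). -/
def St_fNE : Prop :=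
  ∀ (L : FirstOrder.Language.{0, 0}) [∀ n, IsEmpty (L.Functions n)] (U : Type)
    [S : L.Structure U] [LinearOrder U], Wn L U → ScU L S →
    (∀ (A : Set U) (a : U), A.Finite → (EqA L A a).Finite) → NE L U

/-! ### Independence and finitely many classes -/

/-- [fTR] triviality.  PROOF.  STT with `P = Orb A z`, `Q = Orb A x`, `R = Orb A y`: suppose `Nn (xA) y z`: `Orb (y, x, A) z ≠ Orb (xA) z = Orb A z = P`: `nn`
(for `z`, `x`, `c = y`).  `pq`: for `x' ∈ Q`, `z' ∈ P`: `¬ Nn A x' z'` (NSB 2), so `Orb (x'A) z' = Orb A z' = P` (ORB 2).  `qp`, `rp`, `rq`: the same with NSB 1. -/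
def St_fTR : Prop :=
  ∀ (L : FirstOrder.Language.{0, 0}) [∀ n, IsEmpty (L.Functions n)] (U : Type)
    [S : L.Structure U] [LinearOrder U], Wn L U → ScU L S →
    ∀ (A : Set U) (x y z : U), A.Finite → ¬ Nn L A x y → ¬ Nn L A x z → ¬ Nn L A y z →
      ¬ Nn L (insert x A) y z

/-- [fIN] independence.  PROOF.  Induction on the finite set `F` (for all `A`, `z`).  `F = ∅`: clear.  `F = insert x F'`, `x ∉ F'`, `A' = insert x A`: for
`y ≠ y'` in `F'`: `¬ Nn A x y`, `¬ Nn A x y'`, `¬ Nn A y y'`, so `¬ Nn A' y y'` (fTR); the same for `y ∈ F'` and `z`.  Induction: `Orb (A' ∪ F') z = Orb A' z`, and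
`Orb A' z = Orb A z` (`¬ Nn A x z`); `A' ∪ F' = A ∪ F`. -/
def St_fIN : Prop :=
  ∀ (L : FirstOrder.Language.{0, 0}) [∀ n, IsEmpty (L.Functions n)] (U : Type)
    [S : L.Structure U] [LinearOrder U], Wn L U → ScU L S →
    ∀ F : Set U, F.Finite → ∀ (A : Set U) (z : U), A.Finite →
      (∀ x ∈ F, ∀ y ∈ F, x ≠ y → ¬ Nn L A x y) → (∀ x ∈ F, ¬ Nn L A x z) →
      Orb L (A ∪ F) z = Orb L A z

/-- [fMS] models which realise exactly the chosen types.  PROOF.  SMM with `b : ℚ → U`, `b (n : ℚ) = v n` (e.g. `b q = v ⌊q⌋.toNat`),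
`J = {(n : ℚ) | n ∈ J₀}`.  Its hypothesis: for a finite `F ⊆ J` and `q = n ∈ J \ F`: `b '' F = {v i | i ∈ F}`; fIN (`x ≠ y` in `b '' F` have different indices; NSB 1):
`Orb (A ∪ b '' F) (v n) = Orb A (v n)`, so `¬ Isd (A ∪ b '' F) (v n)` (nSDI 3).  Last part: let `n ∉ J₀`, `y ∈ M ∩ Orb A (v n)`.  `F` from SMM with
`Isd (A ∪ b '' F) y`; `¬ Nn A (v i) y` for `i ∈ F` (NSB 2, 1), fIN: `Orb (A ∪ b '' F) y = Orb A y = Orb A (v n)`, so `¬ Isd (A ∪ b '' F) y` (nSDI 3):
contradiction. -/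
def St_fMS : Prop :=
  ∀ (L : FirstOrder.Language.{0, 0}) [∀ n, IsEmpty (L.Functions n)] (U : Type)
    [S : L.Structure U] [LinearOrder U], Wn L U → ScU L S →
    ∀ (A : Set U) (v : ℕ → U), A.Finite → (∀ n, ¬ Isd L A (v n)) →
      (∀ m n, m < n → ¬ Nn L A (v m) (v n)) → ∀ J₀ : Set ℕ, ∃ M : Set U, IsEl L M ∧ A ⊆ M ∧
        (∀ n ∈ J₀, v n ∈ M) ∧ ∀ n, n ∉ J₀ → Orb L A (v n) ∩ M = ∅

/-- [fFC] finitely many classes.  PROOF.  Suppose there is no such `V` for `A`.  `exists_seq_of_forall_finset_exists` (`P z = ¬ Isd A z`,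
`r x y = ¬ Nn A x y`, NSB 1): `v : ℕ → U` as in fMS.  `X f` = the model of fMS for `J₀ = {n | f n = true}`.  `ScU` with `d` an enumeration of `A` (as in
NCF.lean) and the level `ω + 1`: `f ≠ g` with `BFR S S (X f) (X g) (ω + 1) (prs d d)`; WLOG (`BFR.symm`) `f n = true`, `g n = false`.  Forth for `v n ∈ X f`:
`y ∈ X g`, level `ω`, `Γ = insert (v n, y) (prs d d)`; LV0: `σ` with `σ a = a` for `a ∈ A`, `σ (v n) = y`: so `y ∈ Orb A (v n) ∩ X g`: contradiction. -/
def St_fFC : Prop :=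
  ∀ (L : FirstOrder.Language.{0, 0}) [∀ n, IsEmpty (L.Functions n)] (U : Type)
    [S : L.Structure U] [LinearOrder U], Wn L U → ScU L S → FCl L U

/-! ### Types in models -/

/-- [fSA] over a large finite set the types with two nondefinable sides are omitted.  PROOF.  Suppose `¬ SD b x true` and `¬ SD b x false`.  `NE`:
`x ∈ Ge ∅ x true b`, `x ∈ Ge ∅ x false b`, so `Orb b x = Orb ∅ x` (nGER 8).  `¬ SD ∅ x true` (nSDI 2), so `¬ Isd ∅ x` (nSDI 1).  `Rp`: `v ∈ a` with `Nn ∅ x v`, so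
`Nn ∅ v x` (NSB 1): `Orb {v} x ≠ Orb ∅ x`.  But `Orb b x ⊆ Orb {v} x ⊆ Orb ∅ x` (ORB 3; `v ∈ a ⊆ b`): contradiction. -/
def St_fSA : Prop :=
  ∀ (L : FirstOrder.Language.{0, 0}) (U : Type) [L.Structure U] [LinearOrder U], Wn L U → NE L U →
    ∀ (M a b : Set U), Rp L a M → a ⊆ b → b.Finite → ∀ x ∈ M, ∃ t : Bool, SD L b x t

/-- [fRE] realisation.  `q = Orb b u`.  PROOF.  `Nn b x u`: there is `u₂ ∈ q`, `u₂ ∉ Orb (xb) u` (ORB 3).  `u ≠ u₂`; let `z < z'` be `u`, `u₂` in the right order: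
`z, z' ∈ q`, `z' ∉ Orb (xb) z` (ORB 2).  SCUT: `K` definable over `xb`, `Low`, `z ∈ K`, `z' ∉ K`.  `s = false`: `Y = K ∩ Cls false q` contains `z`; `Y ⊆ q`: for `y ∈ Y` there is
`o ∈ q`, `o ≤ y`, and `y < z'` (`K` is `Low`): nCNV.  `s = true`: `Y = Kᶜ ∩ Cls true q` contains `z'`, and `z < y ≤ o` for `y ∈ Y`: `Y ⊆ q`.  `Y` is definable over
`xb ⊆ M` and not empty, so it has a point in `M` (`IsEl`). -/
def St_fRE : Prop :=
  ∀ (L : FirstOrder.Language.{0, 0}) (U : Type) [L.Structure U] [LinearOrder U], Wn L U →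
    ∀ (M b : Set U) (x u : U) (s : Bool), IsEl L M → b.Finite → b ⊆ M → x ∈ M → Nn L b x u →
      SD L b u s → (Orb L b u ∩ M).Nonempty

/-- [fPE] persistence.  PROOF.  `¬ SD b x t` and `¬ SD b₀ x t` (nSDI 2; `x ∈ Ge ∅ w t b ⊆ Ge ∅ w t b₀` by nGER 2), so `SD b x (!t)`, `SD b₀ x (!t)` (fSA for `b`,
`b₀`).  `Orb b₀ x = Ge ∅ w t b₀ = Orb b₀ u` (nGEX), so `SD b₀ u (!t)`.  nSMA over `b₀`: `ε` with `Ori b₀ u u' ε` and the persistence.  nSMB: `SD b₀ u' (sg ε (!t))`; and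
`¬ SD b₀ u' t'` (nSDI 2), so `sg ε t = t'`.  `Ge b₀ u t b = Ge ∅ w t b`, `Ge b₀ u' t' b = Ge ∅ w' t' b` (nGER 1).  Let `u'' ∈ Ge ∅ w' t' b` (nGEX): `Nn b x u''`.  nSMA over
`b`: `Ori b x u'' ε'`, nSMB: `SD b u'' (sg ε' (!t))`.  fRE: `Orb b u'' ∩ M ≠ ∅`, and `Orb b u'' = Ge ∅ w' t' b` (nGEX). -/
def St_fPE : Prop :=
  ∀ (L : FirstOrder.Language.{0, 0}) (U : Type) [L.Structure U] [LinearOrder U], Wn L U → NE L U →
    ∀ (M a b₀ b : Set U), IsEl L M → Rp L a M → a ⊆ b₀ → b₀ ⊆ b → b.Finite → b ⊆ M →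
      ∀ (w w' : U) (t t' : Bool), ¬ SD L ∅ w t → ¬ SD L ∅ w' t' →
        ∀ u ∈ Ge L ∅ w t b₀, ∀ u' ∈ Ge L ∅ w' t' b₀, Nn L b₀ u u' → ∀ x ∈ Ge L ∅ w t b, x ∈ M →
          (Ge L ∅ w' t' b ∩ M).Nonempty

/-- [fCO] every model has a code.  PROOF.  `a₁`: let `V₀` be from `FCl` for `∅`; for every `v ∈ V₀` for which it is possible choose `z_v ∈ M` with
`Nn ∅ z_v v`; `a₁` = the set of these `z_v`.  `Rp L a₁ M`: `z ∈ M`, `¬ Isd ∅ z`: `v ∈ V₀` with `Nn ∅ z v`; so `z_v` exists, `Nn ∅ z z_v` (NSB 1, nTRA).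
`a₂`: let `V₁` be from `FCl` for `a₁`.  For `v ∈ V₁` for which it is possible choose an end `(w, t)` and a finite `b_v ⊆ M` with
`Ge ∅ w t b_v ∩ M = ∅` and `Nn a₁ u v` for some `u ∈ Ge ∅ w t a₁`; `a` = `a₁` and the union of the `b_v`.  `om`: let `(w', t')` be an end which is not open:
`Ge ∅ w' t' b' ∩ M = ∅`.  `u' ∈ Ge ∅ w' t' a₁` (nGEX) is not isolated over `a₁` (nSDI 2, 1): `v ∈ V₁` with `Nn a₁ u' v`; so `b_v`, `(w, t)`, `u` exist; `Nn a₁ u' u` (NSB 1,
nTRA).  If some `x ∈ Ge ∅ w' t' a` is in `M` then `Ge ∅ w t a ∩ M ≠ ∅` (fPE, `b₀ = a₁`, `b = a`), and `Ge ∅ w t a ⊆ Ge ∅ w t b_v` (nGER 2): contradiction.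
`V`: let `V₂` be from `FCl` for `a`, `V` = the set of the `v ∈ V₂` such that `Nn a u v` for some open end `(w, t)` and `u ∈ Ge ∅ w t a`.  `op`, `→`:
`u ∈ Ge ∅ w t a` is not isolated over `a`: `v ∈ V₂` with `Nn a u v`, `v ∈ V`.  `←`: `v ∈ V`: an open end `(w', t')` and `u' ∈ Ge ∅ w' t' a` with `Nn a u' v`, so
`Nn a u' u`.  Let `b ⊆ M` be finite, `b' = a ∪ b`: `Ge ∅ w' t' b'` has a point in `M`, fPE (`b₀ = a`): `Ge ∅ w t b' ⊆ Ge ∅ w t b` (nGER 2) has a point in `M`. -/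
def St_fCO : Prop :=
  ∀ (L : FirstOrder.Language.{0, 0}) (U : Type) [L.Structure U] [LinearOrder U], Wn L U → NE L U →
    FCl L U → ∀ M : Set U, IsEl L M → ∃ a V : Set U, a.Finite ∧ V.Finite ∧ Cd L a V M

/-- [fBF] models with the same code are isomorphic.  PROOF.  BFM with `P A g`: `a ⊆ A`, `g` fixes `a`, `g '' A ⊆ M'`.  Start: `A = a`, the identity.  Forth: `x ∈ M`; we find
`y ∈ M'` in `Orb (g '' A) (g x) = g '' Orb A x` (ORB 4), `τ` over `g '' A` with `τ (g x) = y`; take `τ g`.  If `Isd A x` then `Orb (g '' A) (g x)` is definable over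
`g '' A ⊆ M'` (ORB 9) and not empty: `IsEl`.  Otherwise `¬ SD A x t` for some `t` (nSDI 1), `x ∈ Ge ∅ x t A` (`NE`), `¬ SD ∅ x t` (nSDI 2), `x ∈ Ge ∅ x t a` (nGER 2), so
`Ge ∅ x t a ∩ M ≠ ∅`: `(x, t)` is open in `M` (`om`), so in `M'` (`op` for `M` and `M'`): some `y ∈ M'` is in `Ge ∅ x t (g '' A)`.  `g '' Ge ∅ x t A = Ge (g '' ∅) (g x) t (g '' A) = Ge ∅ x t (g '' A)`
(nGER 5, 4: `g x ∈ Orb ∅ x`), and `Ge ∅ x t A = Orb A x` (nGEX).  Back: the same with `M`, `M'` exchanged and `g⁻¹` (`g⁻¹ '' (g '' A) = A`). -/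
def St_fBF : Prop :=
  ∀ (L : FirstOrder.Language.{0, 0}) (U : Type) [L.Structure U] [LinearOrder U], Wn L U → NE L U →
    ∀ a V M M' : Set U, a.Finite → Cd L a V M → Cd L a V M' → IsoM L M M'

/-- [fCT] countably many models.  PROOF.  `fFC`: `FCl`.  `U` is countable, so `Finset U × Finset U` is; for every `c` in it choose `N c` with `Cd L c.1 c.2 (N c)` if possible,
otherwise `∅`; `g` = `N` after an enumeration.  fCO (finite sets are `Finset`s), fBF. -/
def St_fCT : Prop :=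
  ∀ (L : FirstOrder.Language.{0, 0}) [∀ n, IsEmpty (L.Functions n)] (U : Type)
    [S : L.Structure U] [LinearOrder U], Wn L U → ScU L S → NE L U → CtU L U

/-! ### Assembly -/

section gen

variable (L : FirstOrder.Language.{0, 0}) (M : Type) [L.Structure M]

/-- locally finite convexity: for every finite set `A` there are finitely many `A`-definable convex equivalence
relations on every type over `A` -/
def FinC (lt : L.Formula (Fin 2)) : Prop :=
  ∀ (A : Set M) (a : M), A.Finite →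
    {R : Set (M × M) | ∃ E : M → M → Prop, A.Definable L {w : Fin 2 → M | E (w 0) (w 1)} ∧
      CvE L lt {x | Eqv L A a x} E ∧ R = {z | Eqv L A a z.1 ∧ Eqv L A a z.2 ∧ E z.1 z.2}}.Finite

end gen

/-- [fWN] the standing hypotheses.  PROOF.  As SWN.lean: the linear order, `Wn L U`; `{x | Eqv L A a x} = Orb L A a` for finite `A` (AUT 3), so `FinC` is the hypothesis of fNE. -/
def St_fWN : Prop :=
  ∀ (L : FirstOrder.Language.{0, 0}) [∀ n, IsEmpty (L.Functions n)] (U : Type)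
    [S : L.Structure U] (lt : L.Formula (Fin 2)), Mon L U → WOMin U lt → FinC L U lt → ScU L S →
    ∃ _ : LinearOrder U, Wn L U ∧ NE L U

/-- [fRW] PROOF.  As SRW.lean: `U` is isomorphic to a structure on `ℕ`; `SatM`, `WOMin`, `FinC` are invariant under isomorphisms (`FinC`: an isomorphism `g` maps the relations
`R` for `(A, a)` injectively to those for `(g '' A, g a)`, `Set.Finite.of_finite_image` or `Finite.of_injOn`). -/
def St_fRW : Prop :=
  ∀ (L : FirstOrder.Language.{0, 0}) (T : L.Theory) (lt : L.Formula (Fin 2)),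
    (∀ S : L.Structure ℕ, @FirstOrder.Language.Theory.Model L ℕ S T →
      @WOMin L ℕ S lt ∧ (@SatM L ℕ S → @FinC L ℕ S lt)) →
    ∀ (U : Type) [L.Structure U], Countable U → Infinite U → U ⊨ T → SatM L U →
      WOMin U lt ∧ FinC L U lt

/-- THE THEOREM: Vaught's conjecture for weakly o-minimal theories with locally finite convexity.  [fFA] PROOF.  As FASE.lean, with fRW, fWN, fCT in the place
of SRW, SWN, CRE. -/
def St_LFC : Prop :=
  ∀ (L : FirstOrder.Language.{0, 0}) [∀ n, IsEmpty (L.Functions n)]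
    [∀ n, Countable (L.Relations n)] (T : L.Theory) (lt : L.Formula (Fin 2)),
    (∀ S : L.Structure ℕ, @FirstOrder.Language.Theory.Model L ℕ S T →
      @WOMin L ℕ S lt ∧ (@SatM L ℕ S → @FinC L ℕ S lt)) →
    Pool.Agent.Helper6.Str.CtblK (ModK L T) ∨ Pool.Agent.Helper6.Str.PerfK (ModK L T)

end Pool.Agent.WOM
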