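import Pool.Agent.WOL.StG2
import Pool.Agent.WOL.StF
import Pool.Agent.HER.LOF

/-! WOL: module gJM, far pairs are linked in general position (helper26). -/

set_option autoImplicit false

namespace Pool.Agent.WOM

open FirstOrder.Language Set
open scoped FirstOrder

theorem thm_gJM (hTR : St_fTR) (hJ0 : St_gJ0) (hJB : St_gJB) (hMD : St_gMD) (hLE : St_gLE) :
    St_gJM := by
  intro L _ U S _ hW hSc hNI C b y n w t hC a ha a' hF
  by_contra hn
  have hT : TRV L U := hTR L U hW hSc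
  obtain ⟨-, -, hNL⟩ := hJ0 L U hW hT hNI C b y n w t hC a a' ha hF hn
  obtain ⟨C₁, b₁, hB1⟩ := hJB L U hW hT hNI C b y n w t hC a a' ha hF hn
  obtain ⟨I, γ, hγ, -, hI⟩ := HER.thm_LOF
  choose X β hX using fun f : ℕ → Bool => hMD L U hW hT hNI C b y n w t hC hNL C₁ b₁ hB1 (I f)
  obtain ⟨m, d, hd⟩ : ∃ (m : ℕ) (d : Fin m → U), range d = C₁ := by
    have := hB1.fin.1.fintype
    refine ⟨Fintype.card C₁, fun i => ((Fintype.equivFin C₁).symm i : U), ?_⟩
    ext y
    constructor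
    · rintro ⟨i, rfl⟩
      exact ((Fintype.equivFin C₁).symm i).2
    · intro hy
      exact ⟨Fintype.equivFin C₁ ⟨y, hy⟩, by simp⟩
  have hlt : Ordinal.omega0 + Ordinal.omega0 + γ < Pool.Agent.Helper79.VC.om1 :=
    Pool.Agent.Helper79.VC.add_lt_om1 (Pool.Agent.Helper79.VC.add_lt_om1
      Pool.Agent.Helper79.VC.omega_lt_om1 Pool.Agent.Helper79.VC.omega_lt_om1) hγ
  obtain ⟨f, h, hfh, hB⟩ := hSc X m d _ hlt fun f => ⟨(hX f).el, fun i =>
    (hX f).c1 (hd ▸ mem_range_self i)⟩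
  apply hfh
  apply hI
  have hp : HERN.prs d d = {p : U × U | p.1 = p.2 ∧ p.1 ∈ C₁} := by
    ext ⟨x, y⟩
    constructor
    · rintro ⟨i, hi⟩
      have h1 : d i = x := congrArg Prod.fst hi
      have h2 : d i = y := congrArg Prod.snd hi
      refine ⟨h1.symm.trans h2, ?_⟩
      show x ∈ C₁
      rw [← h1, ← hd]
      exact mem_range_self i
    · rintro ⟨h1, h2⟩
      have h1' : x = y := h1
      have h2' : x ∈ C₁ := h2
      rw [← hd] at h2'
      obtain ⟨i, hi⟩ := h2'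
      exact ⟨i, Prod.ext hi (hi.trans h1')⟩
  rw [hp] at hB
  exact hLE L U hW hT hNI C b y n w t hC C₁ hB1.fin.1 hB1.fin.2 (I f) (I h) (X f) (X h) (β f) (β h)
    γ (hX f) (hX h) hB

end Pool.Agent.WOM
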