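import Pool.Agent.WOL.StG3

/-!
WOL [gK0]: the last type in a definable cut
-/

set_option autoImplicit false

namespace Pool.Agent.WOM

open FirstOrder.Language Set
open scoped FirstOrder

section

variable {L : FirstOrder.Language.{0, 0}} {U : Type} [L.Structure U] [LinearOrder U]

private theorem gK0_lt {K : Set U} (hK : Low K) {x y : U} (hx : x ∈ K) (hy : y ∉ K) : x < y := by
  by_contra h
  exact hy (hK x hx y (not_lt.1 h))

/-- nonempty -/
private theorem gK0_one (hW : Wn L U) {B r : Set U} (hB : B.Finite) (hr : B.Definable₁ L r)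
    (hne : r.Nonempty) : (LT L B r).Nonempty := by
  obtain ⟨F, hF⟩ : ∃ F : Set (Set U), F =
    insert r {s | ∃ K : Set U, B.Definable₁ L K ∧ Low K ∧ ¬ r ⊆ K ∧ s = Kᶜ} := ⟨_, rfl⟩
  have h1 : (⋂₀ F).Nonempty := by
    refine hW.mon.sat B hB F ?_ ?_
    · intro s hs
      rw [hF] at hs
      rcases hs with rfl | ⟨K, hK, -, -, rfl⟩
      · exact hr
      · exact hK.compl
    · intro G hG hGf
      have h2 : ∀ G : Set (Set U), G.Finite → G ⊆ F → ∃ x ∈ r, ∀ x' ∈ r, x ≤ x' → x' ∈ ⋂₀ G := by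
        intro G hGf
        induction G, hGf using Set.Finite.induction_on with
        | empty =>
          intro _
          obtain ⟨x, hx⟩ := hne
          exact ⟨x, hx, fun x' _ _ => by simp⟩
        | @insert s G _ _ ih =>
          intro hsub
          obtain ⟨x, hx, hx2⟩ := ih (fun s' hs' => hsub (mem_insert_of_mem _ hs'))
          have hs := hsub (mem_insert s G)
          rw [hF] at hs
          rcases hs with rfl | ⟨K, hK, hKl, hrK, rfl⟩
          · refine ⟨x, hx, fun x' h1 h2 => ?_⟩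
            rw [sInter_insert]
            exact ⟨h1, hx2 x' h1 h2⟩
          · obtain ⟨y, hy, hyK⟩ := not_subset.1 hrK
            refine ⟨max x y, ?_, fun x' h1 h2 => ?_⟩
            · rcases max_choice x y with h | h
              · rw [h]; exact hx
              · rw [h]; exact hy
            · rw [sInter_insert]
              refine ⟨fun h3 => hyK (hKl x' h3 y ((le_max_right _ _).trans h2)), hx2 x' h1
                ((le_max_left _ _).trans h2)⟩
      obtain ⟨x, hx, hx2⟩ := h2 G hGf hG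
      exact ⟨x, hx2 x hx le_rfl⟩
  obtain ⟨u, hu⟩ := h1
  refine ⟨u, hu r (by rw [hF]; exact mem_insert _ _), ?_⟩
  intro K hK hKl hrK
  exact hu Kᶜ (by rw [hF]; exact mem_insert_of_mem _ ⟨K, hK, hKl, hrK, rfl⟩)

/-- the last type is an orbit -/
private theorem gK0_two (hORB : St_ORB) (hCUT : St_SCUT) (hW : Wn L U) {B r : Set U}
    (hB : B.Finite) (hr : B.Definable₁ L r) {u : U} (hu : u ∈ LT L B r) :
    LT L B r = Orb L B u := by
  obtain ⟨hO1, hO2, hO3, hO4, hO5, hO6, hO7, hO8, hO9⟩ := hORB L U hW.mon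
  apply Subset.antisymm
  · intro v hv
    by_contra hvu
    rcases lt_trichotomy u v with h | h | h
    · obtain ⟨K, hK, hKl, h1, h2⟩ := hCUT L U hW B u v hB h hvu
      exact hu.2 K hK hKl (fun h3 => h2 (h3 hv.1)) h1
    · rw [← h] at hvu
      exact hvu (hO1 B u)
    · have huv : u ∉ Orb L B v := by
        intro h1
        rw [hO2 B v u h1] at hvu
        exact hvu (hO1 B v)
      obtain ⟨K, hK, hKl, h1, h2⟩ := hCUT L U hW B v u hB h huv
      exact hv.2 K hK hKl (fun h3 => h2 (h3 hu.1)) h1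
  · intro v hv
    refine ⟨hO6 B r hr u hu.1 hv, ?_⟩
    intro K hK hKl hrK h1
    have h2 : u ∈ Orb L B v := by
      rw [hO2 B u v hv]
      exact hO1 B u
    exact hu.2 K hK hKl hrK (hO6 B K hK v h1 h2)

/-- the last type is cofinal -/
private theorem gK0_three {B r : Set U} (hl : Low r) (hne : (LT L B r).Nonempty) :
    Cls true (LT L B r) = r := by
  apply Subset.antisymm
  · rintro v ⟨u, hu, h⟩
    have h' : v ≤ u := by simpa [leS] using h
    exact hl u hu.1 v h'
  · intro v hv
    by_cases h1 : v ∈ LT L B r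
    · exact ⟨v, h1, by simp [leS]⟩
    · obtain ⟨u, hu⟩ := hne
      have h2 : ∃ K : Set U, B.Definable₁ L K ∧ Low K ∧ ¬ r ⊆ K ∧ v ∈ K := by
        by_contra h3
        apply h1
        refine ⟨hv, fun K hK hKl hrK h4 => h3 ⟨K, hK, hKl, hrK, h4⟩⟩
      obtain ⟨K, hK, hKl, hrK, hvK⟩ := h2
      have h3 := gK0_lt hKl hvK (hu.2 K hK hKl hrK)
      exact ⟨u, hu, by simpa [leS] using h3.le⟩

end

theorem thm_gK0 (hORB : St_ORB) (hCUT : St_SCUT) : St_gK0 := by
  intro L U _ _ hW
  obtain ⟨hO1, hO2, hO3, hO4, hO5, hO6, hO7, hO8, hO9⟩ := hORB L U hW.mon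
  refine ⟨?_, ?_⟩
  · intro B r hB hr hl hne
    have h1 := gK0_one hW hB hr hne
    refine ⟨h1, fun u hu => gK0_two hORB hCUT hW hB hr hu, gK0_three hl h1, ?_, ?_⟩
    · intro u hu v hv huv
      exact ⟨hv, fun K hK hKl hrK h2 => hu.2 K hK hKl hrK (hKl v h2 u huv)⟩
    · intro B' hBB hB'
      have hsub : LT L B' r ⊆ LT L B r := fun u hu =>
        ⟨hu.1, fun K hK hKl hrK => hu.2 K (Definable.mono hK hBB) hKl hrK⟩
      refine ⟨hsub, fun u hu => ⟨hO1 B u, ?_⟩⟩
      intro w hw
      have hw2 : w ∈ r := hO6 B r hr u hu.1 hw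
      have hr' : B'.Definable₁ L r := Definable.mono hr hBB
      rw [← gK0_three hl (gK0_one hW hB' hr' hne), gK0_two hORB hCUT hW hB' hr' hu] at hw2
      exact hw2
  · intro B w hB hSD
    have hw : w ∈ LT L B (Cls true (Orb L B w)) := by
      refine ⟨⟨w, hO1 B w, by simp [leS]⟩, ?_⟩
      intro K hK hKl hrK h1
      apply hrK
      rintro v ⟨u, hu, h⟩
      have h' : v ≤ u := by simpa [leS] using h
      exact hKl u (hO6 B K hK w h1 hu) v h'
    exact gK0_two hORB hCUT hW hB hSD hw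

end Pool.Agent.WOM
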