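import Pool.Agent.WOL.StG3

/-!
WOL [gK1]: connected cuts have linked last types (helper60).
-/

set_option autoImplicit false
set_option linter.unusedVariables false

namespace Pool.Agent.WOM

open FirstOrder.Language Set
open scoped FirstOrder

theorem thm_gK1 (hSFX : St_SFX) (hNSB : St_NSB) (hK0 : St_gK0) : St_gK1 := by
  intro L U _ _ hW B B' r r' u v hBB hB' hr hrl hr' hrl' hC hu hv
  obtain ⟨g, l, hg, hl, hll, hrl2, hg1, hg2, hg3⟩ := hC
  have hrne : r.Nonempty := ⟨u, hu.1⟩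
  have hrne' : r'.Nonempty := ⟨v, hv.1⟩
  obtain ⟨-, hO, hCl, -, -⟩ := (hK0 L U hW).1 B' r hB' hr hrl hrne
  obtain ⟨-, hO', hCl', -, -⟩ := (hK0 L U hW).1 B' r' hB' hr' hrl' hrne'
  have hl' : B'.Definable₁ L l := Set.Definable.mono hl hBB
  have hnl : ∀ w ∈ LT L B' r, w ∉ l := fun w hw => hw.2 l hl' hll hrl2
  refine (hNSB L U).1 B' v u ?_
  intro hEq
  -- conjugate pairs
  have hconj : ∀ u' ∈ LT L B' r, ∀ v' ∈ LT L B' r', ∃ σ : U ≃[L] U, Fx L B' σ ∧ σ u = u' ∧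
      σ v = v' := by
    intro u' hu' v' hv'
    rw [hO' v hv] at hv'
    obtain ⟨σ, hσ, hσv⟩ := hv'
    rw [hO u hu] at hu'
    obtain ⟨ρ, hρ, hρu⟩ := hu'
    have h1 : σ.symm u' ∈ Orb L B' u := by
      refine ⟨σ.symm.comp ρ, ?_, ?_⟩
      · intro a ha
        rw [FirstOrder.Language.Equiv.comp_apply, hρ a ha]
        conv_lhs => rw [← hσ a ha]
        exact σ.symm_apply_apply a
      · rw [FirstOrder.Language.Equiv.comp_apply, hρu]
    rw [← hEq] at h1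
    obtain ⟨τ, hτ, hτu⟩ := h1
    refine ⟨σ.comp τ, ?_, ?_, ?_⟩
    · intro a ha
      rw [FirstOrder.Language.Equiv.comp_apply, hτ a (Set.mem_insert_of_mem _ ha), hσ a ha]
    · rw [FirstOrder.Language.Equiv.comp_apply, hτu]
      exact σ.apply_symm_apply u'
    · rw [FirstOrder.Language.Equiv.comp_apply, hτ v (Set.mem_insert _ _), hσv]
  have hgσ : ∀ σ : U ≃[L] U, Fx L B' σ → (v ∈ g u ↔ σ v ∈ g (σ u)) := by
    intro σ hσ
    rw [(hSFX L U hW.mon).1 B g σ hg (fun a ha => hσ a (hBB ha)) u]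
    constructor
    · intro h
      exact ⟨v, h, rfl⟩
    · rintro ⟨x, hx, hxv⟩
      have : x = v := σ.injective hxv
      rw [← this]
      exact hx
  by_cases hvg : v ∈ g u
  · have h1 : r' ⊆ g u := by
      intro x hx
      rw [← hCl'] at hx
      obtain ⟨v', hv', hxv'⟩ := hx
      obtain ⟨σ, hσ, hσu, hσv⟩ := hconj u hu v' hv'
      have h2 := (hgσ σ hσ).1 hvg
      rw [hσu, hσv] at h2
      have h3 : x ≤ v' := by simpa [leS] using hxv'
      exact (hg1 u hu.1 (hnl u hu)).1 v' h2 x h3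
    exact (hg1 u hu.1 (hnl u hu)).2.2 h1
  · obtain ⟨u₁, hu₁, hu₁l, hvu₁⟩ := hg3 v hv.1
    have h1 := hu₁
    rw [← hCl] at h1
    obtain ⟨u', hu', hle⟩ := h1
    have h2 : u₁ ≤ u' := by simpa [leS] using hle
    have h3 := hg2 u₁ hu₁ hu₁l u' hu'.1 h2 hvu₁
    obtain ⟨σ, hσ, hσu, hσv⟩ := hconj u' hu' v hv
    refine hvg ((hgσ σ hσ).2 ?_)
    rw [hσu, hσv]
    exact h3

end Pool.Agent.WOM
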