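import Pool.Agent.WOL.StG3
import Pool.Agent.WOM.StS6
import Pool.Agent.WOM.DFX

/-!
WOL, gK2: linked one-sided types give connected cuts.
-/

set_option autoImplicit false
set_option linter.unusedVariables false

namespace Pool.Agent.WOM

open FirstOrder.Language Set
open scoped FirstOrder

private lemma gK2_defG (L : FirstOrder.Language.{0, 0}) (U : Type) [L.Structure U] [LinearOrder U]
    (hord : (∅ : Set U).Definable L {v : Fin 2 → U | v 0 < v 1}) (B r r' : Set U) (F : U → Set U)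
    (hr : B.Definable₁ L r) (hr' : B.Definable₁ L r') (hF : DF L B F) :
    B.Definable₁ L {u | u ∈ r ∧ ∀ u', u' ∈ r → u ≤ u' →
      ((∀ x, x ∈ F u' → ∀ y, y ≤ x → y ∈ F u') ∧ (∀ x, x ∈ F u' → x ∈ r') ∧
        (∃ x, x ∈ r' ∧ ¬ x ∈ F u') ∧
        ∀ u'', u'' ∈ r → u' ≤ u'' → ∀ x, x ∈ F u' → x ∈ F u'')} := by
  have hrel : ∀ {n : ℕ} (i j : Fin n), B.Definable L {v : Fin n → U | v j ∈ F (v i)} :=
    fun i j => Dx.rel (R := fun a b => b ∈ F a) hF i j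
  have h1 : B.Definable L {v : Fin 2 → U | ∀ x, x ∈ F (v 0) → ∀ y, y ≤ x → y ∈ F (v 0)} :=
    Dx.all (L := L) (P := fun v : Fin 3 → U => v 0 ∈ F (v 1) → ∀ y, y ≤ v 0 → y ∈ F (v 1))
      (Dx.imp (hrel 1 0) (Dx.all (L := L) (P := fun v : Fin 4 → U => v 0 ≤ v 1 → v 0 ∈ F (v 2))
        (Dx.imp (Dx.le hord B 0 1) (hrel 2 0))))
  have h2 : B.Definable L {v : Fin 2 → U | ∀ x, x ∈ F (v 0) → x ∈ r'} :=
    Dx.all (L := L) (P := fun v : Fin 3 → U => v 0 ∈ F (v 1) → v 0 ∈ r')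
      (Dx.imp (hrel 1 0) (Dx.one hr' 0))
  have h3 : B.Definable L {v : Fin 2 → U | ∃ x, x ∈ r' ∧ ¬ x ∈ F (v 0)} :=
    Dx.ex (L := L) (P := fun v : Fin 3 → U => v 0 ∈ r' ∧ ¬ v 0 ∈ F (v 1))
      (Dx.and (Dx.one hr' 0) (Dx.not (hrel 1 0)))
  have h4 : B.Definable L {v : Fin 2 → U | ∀ u'', u'' ∈ r → v 0 ≤ u'' →
      ∀ x, x ∈ F (v 0) → x ∈ F u''} :=
    Dx.all (L := L) (P := fun v : Fin 3 → U => v 0 ∈ r → v 1 ≤ v 0 →
      ∀ x, x ∈ F (v 1) → x ∈ F (v 0))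
      (Dx.imp (Dx.one hr 0) (Dx.imp (Dx.le hord B 1 0)
        (Dx.all (L := L) (P := fun v : Fin 4 → U => v 0 ∈ F (v 2) → v 0 ∈ F (v 1))
          (Dx.imp (hrel 2 0) (hrel 1 0)))))
  have h5 := Dx.imp (L := L) (Dx.one (n := 2) hr 0) (Dx.imp (Dx.le hord B 1 0)
    (Dx.and h1 (Dx.and h2 (Dx.and h3 h4))))
  exact Dx.and (L := L) (Dx.one (n := 1) hr 0) (Dx.all (n := 1) h5)

private lemma gK2_fib (L : FirstOrder.Language.{0, 0}) (U : Type) [L.Structure U] (B : Set U)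
    (F : U → Set U) (hF : DF L B F) (c : U) : (insert c B).Definable₁ L (F c) :=
  Dx.par (L := L) (P := fun w : Fin 2 → U => w 1 ∈ F (w 0)) hF (subset_insert c B) (mem_insert c B)

private lemma gK2_leT {U : Type} [LinearOrder U] {x y : U} : leS true x y ↔ x ≤ y := by
  simp [leS]

private lemma gK2_leF {U : Type} [LinearOrder U] {x y : U} : leS false x y ↔ y ≤ x := by
  simp [leS]

/-- [gK2] -/
theorem thm_gK2 (hORB : St_ORB) (hNSB : St_NSB) (hCNV : St_nCNV) (hGEX : St_nGEX)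
    (hGER : St_nGER) (hSMA : St_nSMA) (hSMB : St_nSMB) (hSGM : St_SGM) : St_gK2 := by
  intro L U _ _ hW B w w' hB hN hsd hnsd hsd' hnsd'
  obtain ⟨o1, o2, o3, o4, -, o6, -, -, -⟩ := hORB L U hW.mon
  obtain ⟨n1, n2, -⟩ := hNSB L U
  obtain ⟨-, cnv⟩ := hCNV L U hW
  have gex := hGEX L U hW
  obtain ⟨-, -, -, g4, -, -, g7, g8⟩ := hGER L U hW
  have hsub : ∀ z : U, B ⊆ insert z B := fun z => subset_insert z B
  have hfin : ∀ z : U, (insert z B).Finite := fun z => hB.insert z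
  -- the orientation is `true`
  obtain ⟨e, he1, he2, -⟩ := hSMA L U hW B w w' hB hN
  have het : e = true := by
    by_contra h
    have h1 : e = false := by simpa using h
    have h2 := hSMB L U hW B w' w e true hB (n1 _ _ _ hN) he2 hsd'
    rw [h1] at h2
    exact hnsd h2
  subst het
  -- the monotone function
  obtain ⟨s, F, hF, hFw⟩ := hSGM L U hW B w' w hB hN
  have hFlow : ∀ c ∈ Orb L B w, Low (F c) := fun c hc => (hFw c hc).1
  have hs : s = false := by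
    by_contra h
    have h1 : s = true := by simpa using h
    subst h1
    obtain ⟨x', hx'⟩ := (gex B (insert w B) w' true (hsub w) (hfin w)).1
    have hx'F : x' ∉ F w := by
      intro hx
      have h2 := o6 (insert w B) (F w) (gK2_fib L U B F hF w) x' hx
      obtain ⟨p, hp, hpF⟩ := (hFw w (o1 _ _)).2.2.1
      obtain ⟨q, hq, hpq⟩ := hx'.2 p hp
      exact hpF (hFlow w (o1 _ _) q (h2 hq) p (gK2_leT.1 hpq))
    have h3 : w ∈ Ge L B w false (insert x' B) := by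
      have := he2 true w (o1 _ _) x' hx'
      exact this
    obtain ⟨c'', hc''⟩ := (gex B (insert x' B) w true (hsub x') (hfin x')).1
    have h4 : x' ∈ Ge L B w' false (insert c'' B) := by
      have := he1 true x' hx'.1 c'' hc''
      exact this
    have h5 : x' ∈ F c'' := by
      obtain ⟨p, hp, hpF⟩ := (hFw c'' hc''.1).2.1
      obtain ⟨q, hq, hpq⟩ := h4.2 p hp
      have hqF : q ∈ F c'' := hFlow c'' hc''.1 p hpF q (gK2_leF.1 hpq)
      have h6 := o6 (insert c'' B) (F c'') (gK2_fib L U B F hF c'') q hqF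
      apply h6
      rw [o2 _ _ _ hq]
      exact o1 _ _
    have h6 : w ≤ c'' := by
      by_contra h7
      have h8 : c'' ≤ w := (not_le.1 h7).le
      have h9 := g7 B (insert x' B) w c'' w true (hsub x') (hfin x') hc'' (o1 _ _) (gK2_leT.2 h8)
      have h10 := g8 B (insert x' B) w w (hsub x') (hfin x') h9 h3
      exact n2 B w' w x' w hx'.1 (o1 _ _) (n1 _ _ _ hN) h10
    exact hx'F ((hFw w (o1 _ _)).2.2.2 c'' hc''.1 (gK2_leT.2 h6) h5)
  subst hs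
  -- the cuts
  set r : Set U := Cls true (Orb L B w) with hr
  set r' : Set U := Cls true (Orb L B w') with hr'
  have hrd : B.Definable₁ L r := hsd
  have hrd' : B.Definable₁ L r' := hsd'
  have memr : ∀ u, u ∈ r ↔ ∃ v ∈ Orb L B w, u ≤ v := fun u => by
    constructor
    · rintro ⟨v, hv, h⟩; exact ⟨v, hv, gK2_leT.1 h⟩
    · rintro ⟨v, hv, h⟩; exact ⟨v, hv, gK2_leT.2 h⟩
  have memr' : ∀ u, u ∈ r' ↔ ∃ v ∈ Orb L B w', u ≤ v := fun u => by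
    constructor
    · rintro ⟨v, hv, h⟩; exact ⟨v, hv, gK2_leT.1 h⟩
    · rintro ⟨v, hv, h⟩; exact ⟨v, hv, gK2_leT.2 h⟩
  have hup : ∀ u ∈ Orb L B w, ∀ u' ∈ r, u ≤ u' → u' ∈ Orb L B w := by
    intro u hu u' hu' h
    obtain ⟨v, hv, hv2⟩ := (memr u').1 hu'
    exact (cnv B w hB).1.out hu hv ⟨h, hv2⟩
  have hFr : ∀ u ∈ Orb L B w, (∀ x, x ∈ F u → x ∈ r') ∧ ∃ x, x ∈ r' ∧ ¬ x ∈ F u := by
    intro u hu
    obtain ⟨x, hx, hxF⟩ := (hFw u hu).2.2.1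
    refine ⟨fun v hv => (memr' v).2 ⟨x, hx, ?_⟩, x, (memr' x).2 ⟨x, hx, le_rfl⟩, hxF⟩
    by_contra h
    exact hxF (hFlow u hu v hv x (not_le.1 h).le)
  set G : Set U := {u | u ∈ r ∧ ∀ u', u' ∈ r → u ≤ u' →
      ((∀ x, x ∈ F u' → ∀ y, y ≤ x → y ∈ F u') ∧ (∀ x, x ∈ F u' → x ∈ r') ∧
        (∃ x, x ∈ r' ∧ ¬ x ∈ F u') ∧
        ∀ u'', u'' ∈ r → u' ≤ u'' → ∀ x, x ∈ F u' → x ∈ F u'')} with hG
  have hGd : B.Definable₁ L G := gK2_defG L U hW.ord B r r' F hrd hrd' hF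
  have hGo : ∀ u ∈ Orb L B w, u ∈ G := by
    intro u hu
    refine ⟨(memr u).2 ⟨u, hu, le_rfl⟩, fun u' hu' h => ?_⟩
    have hu'o := hup u hu u' hu' h
    refine ⟨hFlow u' hu'o, (hFr u' hu'o).1, (hFr u' hu'o).2, fun u'' hu'' h' x hx => ?_⟩
    have hu''o := hup u' hu'o u'' hu'' h'
    exact (hFw u'' hu''o).2.2.2 u' hu'o (gK2_leF.2 h') hx
  have hGup : ∀ u ∈ G, ∀ u₁ ∈ r, u ≤ u₁ → u₁ ∈ G := fun u hu u₁ hu₁ h =>
    ⟨hu₁, fun u' hu' h' => hu.2 u' hu' (h.trans h')⟩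
  set l : Set U := {u | ∀ z, z ∈ G → u < z} with hl
  have hld : B.Definable₁ L l :=
    Dx.all (L := L) (P := fun v : Fin 2 → U => v 0 ∈ G → v 1 < v 0)
      (Dx.imp (Dx.one hGd 0) (Dx.lt hW.ord B 1 0))
  have hlG : ∀ u ∈ r, u ∉ l → u ∈ G := by
    intro u hu hul
    have h1 : ∃ z, z ∈ G ∧ z ≤ u := by
      by_contra h2
      push Not at h2
      exact hul fun z hz => h2 z hz
    obtain ⟨z, hz, hzu⟩ := h1
    exact hGup z hz u hu hzu
  have hGl : ∀ u ∈ G, u ∉ l := fun u hu h => lt_irrefl u (h u hu)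
  refine ⟨F, l, hF, hld, fun x hx y hy z hz => lt_of_le_of_lt hy (hx z hz), ?_, ?_, ?_, ?_⟩
  · intro h
    exact hGl w (hGo w (o1 _ _)) (h ((memr w).2 ⟨w, o1 _ _, le_rfl⟩))
  · intro u hu hul
    obtain ⟨h1, h2, h3, -⟩ := (hlG u hu hul).2 u hu le_rfl
    refine ⟨h1, h2, fun h => ?_⟩
    obtain ⟨x, hx, hxF⟩ := h3
    exact hxF (h hx)
  · intro u hu hul u' hu' h
    exact ((hlG u hu hul).2 u hu le_rfl).2.2.2 u' hu' h
  · intro v hv
    by_contra hcon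
    have hVd : B.Definable₁ L {x | ∃ u, u ∈ G ∧ x ∈ F u} :=
      Dx.ex (L := L) (P := fun v : Fin 2 → U => v 0 ∈ G ∧ v 1 ∈ F (v 0))
        (Dx.and (Dx.one hGd 0) (Dx.rel (R := fun a b => b ∈ F a) hF 0 1))
    obtain ⟨v₁, hv₁, hvv₁⟩ := (memr' v).1 hv
    have hv₁V : ¬ ∃ u, u ∈ G ∧ v₁ ∈ F u := by
      rintro ⟨u, hu, hvu⟩
      refine hcon ⟨u, hu.1, hGl u hu, ?_⟩
      exact (hu.2 u hu.1 le_rfl).1 v₁ hvu v hvv₁
    obtain ⟨p, hp, hpF⟩ := (hFw w (o1 _ _)).2.1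
    have h2 := o6 B {x | ∃ u, u ∈ G ∧ x ∈ F u} hVd p ⟨w, hGo w (o1 _ _), hpF⟩
    apply hv₁V
    have h3 : v₁ ∈ Orb L B p := by
      rw [o2 _ _ _ hp]
      exact hv₁
    exact h2 h3

end Pool.Agent.WOM
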