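import Pool.Agent.WOL.StG2

/-!
WOL, module gLE: the order is decoded (helper6; statement and proof by helper34).
-/

set_option autoImplicit false
set_option linter.unusedVariables false
set_option linter.unusedSectionVars false

namespace Pool.Agent.WOM

open FirstOrder.Language Set
open scoped FirstOrder
open Pool.Agent.Helper79.VC

section

variable {L : FirstOrder.Language.{0, 0}} {U : Type} [S : L.Structure U] [LinearOrder U]

/-- the element `v` is at the position of `q` -/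
private def gLE_At (L : FirstOrder.Language.{0, 0}) {U : Type} [L.Structure U] [LinearOrder U]
    (C : Set U) (b : U) (J : Set ℚ) (β : ℚ → U) (q : ℚ) (v : U) : Prop :=
  q ∈ J ∧ β q ∈ Orb L C b ∧ v ∈ Orb L C b ∧ Nr L C v (β q)

/-- constraints -/
private def gLE_Cs (k : Bool × (ℚ × ℚ)) (q : ℚ) : Prop :=
  if k.1 = true then k.2.1 < q else q < k.2.1

/-- constraints, the other side -/
private def gLE_Ds (k : Bool × (ℚ × ℚ)) (q : ℚ) : Prop :=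
  if k.1 = true then k.2.2 < q else q < k.2.2

/-- compatible constraints -/
private def gLE_Cpt (L : FirstOrder.Language.{0, 0}) {U : Type} [L.Structure U] [LinearOrder U]
    (C : Set U) (b : U) (J : Set ℚ) (β : ℚ → U) (J' : Set ℚ) (β' : ℚ → U)
    (K : Set (Bool × (ℚ × ℚ))) (Γ : Set (U × U)) : Prop :=
  ∀ k ∈ K, ∃ v v', (v, v') ∈ Γ ∧ gLE_At L C b J β k.2.1 v ∧ gLE_At L C b J' β' k.2.2 v'

private theorem gLE_nr (hFAR : St_nFAR) (hW : Wn L U) {C : Set U} {b : U} (hC : C.Finite)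
    (hne : Orb L C b ≠ {b}) {a c x : U} (ha : a ∈ Orb L C b) (hc : c ∈ Orb L C b)
    (hx : x ∈ Orb L C b) (h : Nr L C a c) :
    (Far L C a x ↔ Far L C c x) ∧ (Far L C x a ↔ Far L C x c) := by
  obtain ⟨-, -, -, f4, -⟩ := hFAR L U hW C b hC hne
  refine ⟨⟨fun h1 => ?_, fun h1 => ?_⟩, ⟨fun h1 => ?_, fun h1 => ?_⟩⟩
  · exact (f4 a ha c hc x hx h1).resolve_left h.1
  · exact (f4 c hc a ha x hx h1).resolve_left h.2
  · exact (f4 x hx c hc a ha h1).resolve_right h.2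
  · exact (f4 x hx a ha c hc h1).resolve_right h.1

private theorem gLE_lt (hFAR : St_nFAR) (hW : Wn L U) {C : Set U} {b : U} (hC : C.Finite)
    (hne : Orb L C b ≠ {b}) {J : Set ℚ} {β : ℚ → U}
    (hf : ∀ q ∈ J, ∀ q' ∈ J, q < q' → Far L C (β q) (β q')) {q q' : ℚ} {v v' : U}
    (hv : gLE_At L C b J β q v) (hv' : gLE_At L C b J β q' v') : q < q' ↔ Far L C v v' := by
  obtain ⟨f1, -⟩ := hFAR L U hW C b hC hne
  have key : ∀ {q q' : ℚ} {v v' : U}, gLE_At L C b J β q v → gLE_At L C b J β q' v' → q < q' →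
      Far L C v v' := by
    rintro q q' v v' ⟨hq, hb, hv, hn⟩ ⟨hq', hb', hv', hn'⟩ hqq
    have h1 := (gLE_nr hFAR hW hC hne hv hb hb' hn).1.2 (hf q hq q' hq' hqq)
    exact (gLE_nr hFAR hW hC hne hv' hb' hv hn').2.2 h1
  refine ⟨key hv hv', fun h => ?_⟩
  by_contra hc
  rcases eq_or_lt_of_le (not_lt.mp hc) with h1 | h1
  · subst h1
    obtain ⟨hq, hb, hv, hn⟩ := hv
    obtain ⟨-, -, hv', hn'⟩ := hv'
    exact hn'.2 ((gLE_nr hFAR hW hC hne hv hb hv' hn).1.1 h)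
  · exact lt_asymm (f1 v hv.2.2.1 v' hv'.2.2.1 h)
      (f1 v' hv'.2.2.1 v hv.2.2.1 (key hv' hv h1))

private theorem gLE_back {M M' : Set U} {E : Set U} (hE : E.Finite) (hEM : E ⊆ M') :
    ∃ k : ℕ, ∀ Γ : Set (U × U), Γ.Finite → (∀ p ∈ Γ, p.1 ∈ M ∧ p.2 ∈ M') →
      BFR S S M M' (Ordinal.omega0 + (k : Ordinal.{0})) Γ →
      ∃ Γ' : Set (U × U), Γ ⊆ Γ' ∧ Γ'.Finite ∧ (∀ p ∈ Γ', p.1 ∈ M ∧ p.2 ∈ M') ∧
        (∀ e ∈ E, ∃ d, (d, e) ∈ Γ') ∧ BFR S S M M' Ordinal.omega0 Γ' := by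
  induction E, hE using Set.Finite.induction_on with
  | empty =>
    refine ⟨0, fun Γ h1 h2 h3 =>
      ⟨Γ, subset_rfl, h1, h2, fun e he => absurd he (notMem_empty e), ?_⟩⟩
    simpa using h3
  | @insert e E' _ _ ih =>
    obtain ⟨k, hk⟩ := ih ((subset_insert _ _).trans hEM)
    refine ⟨k + 1, fun Γ h1 h2 h3 => ?_⟩
    have hlt : Ordinal.omega0 + (k : Ordinal.{0}) <
        Ordinal.omega0 + ((k + 1 : ℕ) : Ordinal.{0}) := by
      rw [add_lt_add_iff_left]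
      exact_mod_cast Nat.lt_succ_self k
    obtain ⟨d, hd, h4⟩ := h3.back hlt (hEM (mem_insert _ _))
    obtain ⟨Γ', g1, g2, g3, g4, g5⟩ := hk (insert (d, e) Γ) (h1.insert _) (by
      rintro p (rfl | hp)
      · exact ⟨hd, hEM (mem_insert _ _)⟩
      · exact h2 p hp) h4
    refine ⟨Γ', (subset_insert _ _).trans g1, g2, g3, ?_, g5⟩
    rintro x (rfl | hx)
    · exact ⟨d, g1 (mem_insert _ _)⟩
    · exact g4 x hx

private theorem gLE_pr (hLV0 : St_LV0) (hPI : St_gPI) [∀ n, IsEmpty (L.Functions n)]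
    (hW : Wn L U) (hT : TRV L U) (hNI : NI L U) {C : Set U} {b : U} {y : ℕ → U} {n : ℕ} {w : U}
    {t : Bool} (hCd : Cod L C b y n w t) {C₁ : Set U} (hCC : C ⊆ C₁) {M M' : Set U}
    (hM : IsEl L M) (hM' : IsEl L M') {Γ : Set (U × U)} (hΓ : Γ.Finite)
    (hΓM : ∀ p ∈ Γ, p.1 ∈ M ∧ p.2 ∈ M') (hΓ0 : ∀ c ∈ C₁, (c, c) ∈ Γ) {δ : Ordinal.{0}}
    (hδ : Ordinal.omega0 + Ordinal.omega0 ≤ δ) (hB : BFR S S M M' δ Γ) {a a' : U}
    (haa : (a, a') ∈ Γ) (ha : a ∈ Orb L C b) (hP : PIM L C b y n w M a) :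
    PIM L C b y n w M' a' := by
  intro D' hD' hDM hCD haD
  obtain ⟨k, hk⟩ := gLE_back (S := S) (M := M) hD' hDM
  have hle : Ordinal.omega0 + (k : Ordinal.{0}) ≤ δ :=
    (add_le_add le_rfl (Ordinal.natCast_lt_omega0 k).le).trans hδ
  obtain ⟨Γ', g1, g2, g3, g4, g5⟩ := hk Γ hΓ hΓM (BFR.mono hle hB)
  obtain ⟨σ, hσ⟩ := hLV0 L U hW.mon M M' Γ' Ordinal.omega0 hM hM' g2 g3 le_rfl g5
  have hσC : Fx L C σ := fun c hc => hσ (c, c) (g1 (hΓ0 c (hCC hc)))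
  have hσa : σ a = a' := hσ _ (g1 haa)
  have himg : σ '' (σ ⁻¹' D') = D' := image_preimage_eq _ σ.surjective
  have hfin : (σ ⁻¹' D').Finite := hD'.preimage σ.injective.injOn
  have hCs : C ⊆ σ ⁻¹' D' := by
    intro c hc
    show σ c ∈ D'
    rw [hσC c hc]
    exact hCD hc
  have has : a ∈ σ ⁻¹' D' := by
    show σ a ∈ D'
    rw [hσa]
    exact haD
  have h1 := hP (σ ⁻¹' D') hfin (by
    intro d hd
    obtain ⟨d₁, h2⟩ := g4 (σ d) hd
    have h3 : σ d₁ = σ d := hσ _ h2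
    rw [← σ.injective h3]
    exact (g3 _ h2).1) hCs has
  have h2 := ((hPI L U hW hT hNI C b y n w t hCd (σ ⁻¹' D') a hfin hCs has ha).2.2.2.1 σ hσC).1 h1
  rw [himg, hσa] at h2
  exact h2

/-- one step -/
private theorem gLE_step (hFAR : St_nFAR) (hLV0 : St_LV0) (hPI : St_gPI)
    [∀ n, IsEmpty (L.Functions n)] (hW : Wn L U) (hT : TRV L U) (hNI : NI L U) {C : Set U} {b : U}
    {y : ℕ → U} {n : ℕ} {w : U} {t : Bool} (hCd : Cod L C b y n w t) (hne : Orb L C b ≠ {b})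
    {C₁ : Set U} (hCC : C ⊆ C₁) {J J' : Set ℚ} {M M' : Set U} {β β' : ℚ → U}
    (hM : MD L C b y n w C₁ J M β) (hM' : MD L C b y n w C₁ J' M' β')
    {K : Set (Bool × (ℚ × ℚ))} {Γ : Set (U × U)} (hΓ : Γ.Finite)
    (hΓM : ∀ p ∈ Γ, p.1 ∈ M ∧ p.2 ∈ M') (hΓ0 : ∀ c ∈ C₁, (c, c) ∈ Γ)
    (hK : gLE_Cpt L C b J β J' β' K Γ) {δ : Ordinal.{0}}
    (hδ : Ordinal.omega0 + Ordinal.omega0 ≤ δ) {q : ℚ} (hq : q ∈ J)
    (hqK : ∀ k ∈ K, gLE_Cs k q) {v' : U} (hv' : v' ∈ M')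
    (hB : BFR S S M M' δ (insert (β q, v') Γ)) :
    ∃ q' ∈ J', (∀ k ∈ K, gLE_Ds k q') ∧ gLE_At L C b J' β' q' v' := by
  have hC := hCd.fin
  obtain ⟨f1, -, -, -, f5, -⟩ := hFAR L U hW C b hC hne
  obtain ⟨l1, l2, l3⟩ := hM.lab q hq
  have hΓ'M : ∀ p ∈ insert (β q, v') Γ, p.1 ∈ M ∧ p.2 ∈ M' := by
    rintro p (rfl | hp)
    · exact ⟨l1, hv'⟩
    · exact hΓM p hp
  have hω : Ordinal.omega0 ≤ δ := le_self_add.trans hδ
  obtain ⟨σ, hσ⟩ := hLV0 L U hW.mon M M' (insert (β q, v') Γ) δ hM.el hM'.el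
    (hΓ.insert _) hΓ'M hω hB
  have hσC : Fx L C σ := fun c hc => hσ (c, c) (Or.inr (hΓ0 c (hCC hc)))
  have hσb : σ (β q) = v' := hσ _ (Or.inl rfl)
  have hvQ : v' ∈ Orb L C b := by
    obtain ⟨g, hg, hgb⟩ := l2
    refine ⟨σ.comp g, fun c hc => ?_, ?_⟩
    · rw [FirstOrder.Language.Equiv.comp_apply, hg c hc, hσC c hc]
    · rw [FirstOrder.Language.Equiv.comp_apply, hgb, hσb]
  have hP' : PIM L C b y n w M' v' :=
    gLE_pr hLV0 hPI hW hT hNI hCd hCC hM.el hM'.el (hΓ.insert _) hΓ'M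
      (fun c hc => Or.inr (hΓ0 c hc)) hδ hB (Or.inl rfl) l2 l3
  obtain ⟨q', hq', hn⟩ := hM'.all v' hv' hvQ hP'
  have hat' : gLE_At L C b J' β' q' v' := ⟨hq', (hM'.lab q' hq').2.1, hvQ, hn⟩
  have hat : gLE_At L C b J β q (β q) :=
    ⟨hq, l2, l2, fun h => lt_irrefl _ (f1 _ l2 _ l2 h), fun h => lt_irrefl _ (f1 _ l2 _ l2 h)⟩
  refine ⟨q', hq', ?_, hat'⟩
  intro k hk
  obtain ⟨v, v1, hvv, hv, hv1⟩ := hK k hk
  have h1 : σ v = v1 := hσ _ (Or.inr hvv)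
  have hqk := hqK k hk
  unfold gLE_Cs at hqk
  unfold gLE_Ds
  split_ifs at hqk ⊢ with hk1
  · rw [gLE_lt hFAR hW hC hne hM'.far hv1 hat', ← hσb, ← h1, f5 _ _ σ hσC]
    exact (gLE_lt hFAR hW hC hne hM.far hv hat).mp hqk
  · rw [gLE_lt hFAR hW hC hne hM'.far hat' hv1, ← hσb, ← h1, f5 _ _ σ hσC]
    exact (gLE_lt hFAR hW hC hne hM.far hat hv).mp hqk

/-- the interval given by the constraints -/
private theorem gLE_main (hFAR : St_nFAR) (hLV0 : St_LV0) (hPI : St_gPI)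
    [∀ n, IsEmpty (L.Functions n)] (hW : Wn L U) (hT : TRV L U) (hNI : NI L U) {C : Set U} {b : U}
    {y : ℕ → U} {n : ℕ} {w : U} {t : Bool} (hCd : Cod L C b y n w t) (hne : Orb L C b ≠ {b})
    {C₁ : Set U} (hCC : C ⊆ C₁) {J J' : Set ℚ} {M M' : Set U} {β β' : ℚ → U}
    (hM : MD L C b y n w C₁ J M β) (hM' : MD L C b y n w C₁ J' M' β') (γ : Ordinal.{0}) :
    ∀ (K : Set (Bool × (ℚ × ℚ))) (Γ : Set (U × U)), Γ.Finite → (∀ p ∈ Γ, p.1 ∈ M ∧ p.2 ∈ M') →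
    (∀ c ∈ C₁, (c, c) ∈ Γ) → gLE_Cpt L C b J β J' β' K Γ →
    BFR S S M M' (Ordinal.omega0 + Ordinal.omega0 + γ) Γ →
    HER.LE γ {q | q ∈ J ∧ ∀ k ∈ K, gLE_Cs k q} {q | q ∈ J' ∧ ∀ k ∈ K, gLE_Ds k q} := by
  have hC := hCd.fin
  obtain ⟨f1, -⟩ := hFAR L U hW C b hC hne
  induction γ using WellFoundedLT.induction with
  | _ γ ih =>
    intro K Γ hΓ hΓM hΓ0 hK hB
    rw [HER.LE]
    intro α hα
    have hlt : Ordinal.omega0 + Ordinal.omega0 + α < Ordinal.omega0 + Ordinal.omega0 + γ := by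
      rw [add_lt_add_iff_left]
      exact hα
    have hδ : Ordinal.omega0 + Ordinal.omega0 ≤ Ordinal.omega0 + Ordinal.omega0 + α :=
      le_self_add
    have fin : ∀ (q q' : ℚ) (Γ' : Set (U × U)), Γ ⊆ Γ' → Γ'.Finite →
        (∀ p ∈ Γ', p.1 ∈ M ∧ p.2 ∈ M') →
        BFR S S M M' (Ordinal.omega0 + Ordinal.omega0 + α) Γ' →
        (∃ v v', (v, v') ∈ Γ' ∧ gLE_At L C b J β q v ∧ gLE_At L C b J' β' q' v') →
        HER.LE α ({q | q ∈ J ∧ ∀ k ∈ K, gLE_Cs k q} ∩ Iio q)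
          ({q | q ∈ J' ∧ ∀ k ∈ K, gLE_Ds k q} ∩ Iio q') ∧
        HER.LE α ({q | q ∈ J ∧ ∀ k ∈ K, gLE_Cs k q} ∩ Ioi q)
          ({q | q ∈ J' ∧ ∀ k ∈ K, gLE_Ds k q} ∩ Ioi q') := by
      intro q q' Γ' hs hf hM1 hB2 hy
      have hc : ∀ s : Bool, gLE_Cpt L C b J β J' β' (insert (s, (q, q')) K) Γ' := by
        intro s k hk
        rcases hk with rfl | hk
        · exact hy
        · obtain ⟨v, v', h3, h4, h5⟩ := hK k hk
          exact ⟨v, v', hs h3, h4, h5⟩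
      have e1 : ∀ (I : Set ℚ), ({a | a ∈ I ∧ ∀ k ∈ K, gLE_Cs k a} ∩ Iio q : Set ℚ) =
          {a | a ∈ I ∧ ∀ k ∈ insert (false, (q, q')) K, gLE_Cs k a} := by
        intro I
        ext a
        simp only [mem_inter_iff, mem_ofPred_eq, mem_Iio, mem_insert_iff, forall_eq_or_imp, gLE_Cs]
        simp only [Bool.false_eq_true, if_false]
        tauto
      have e2 : ∀ (I : Set ℚ), ({a | a ∈ I ∧ ∀ k ∈ K, gLE_Ds k a} ∩ Iio q' : Set ℚ) =
          {a | a ∈ I ∧ ∀ k ∈ insert (false, (q, q')) K, gLE_Ds k a} := by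
        intro I
        ext a
        simp only [mem_inter_iff, mem_ofPred_eq, mem_Iio, mem_insert_iff, forall_eq_or_imp, gLE_Ds]
        simp only [Bool.false_eq_true, if_false]
        tauto
      have e3 : ∀ (I : Set ℚ), ({a | a ∈ I ∧ ∀ k ∈ K, gLE_Cs k a} ∩ Ioi q : Set ℚ) =
          {a | a ∈ I ∧ ∀ k ∈ insert (true, (q, q')) K, gLE_Cs k a} := by
        intro I
        ext a
        simp only [mem_inter_iff, mem_ofPred_eq, mem_Ioi, mem_insert_iff, forall_eq_or_imp, gLE_Cs]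
        simp only [if_true]
        tauto
      have e4 : ∀ (I : Set ℚ), ({a | a ∈ I ∧ ∀ k ∈ K, gLE_Ds k a} ∩ Ioi q' : Set ℚ) =
          {a | a ∈ I ∧ ∀ k ∈ insert (true, (q, q')) K, gLE_Ds k a} := by
        intro I
        ext a
        simp only [mem_inter_iff, mem_ofPred_eq, mem_Ioi, mem_insert_iff, forall_eq_or_imp, gLE_Ds]
        simp only [if_true]
        tauto
      have g0 : ∀ c ∈ C₁, (c, c) ∈ Γ' := fun c hc => hs (hΓ0 c hc)
      refine ⟨?_, ?_⟩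
      · rw [e1 J, e2 J']
        exact ih α hα _ Γ' hf hM1 g0 (hc false) hB2
      · rw [e3 J, e4 J']
        exact ih α hα _ Γ' hf hM1 g0 (hc true) hB2
    refine ⟨?_, ?_⟩
    · rintro q ⟨hq, hqK⟩
      obtain ⟨l1, l2, -⟩ := hM.lab q hq
      obtain ⟨v', hv', hB'⟩ := hB.forth hlt l1
      obtain ⟨q', hq', hqK', hat'⟩ := gLE_step hFAR hLV0 hPI hW hT hNI hCd hne hCC hM hM' hΓ hΓM
        hΓ0 hK hδ hq hqK hv' hB'
      refine ⟨q', ⟨hq', hqK'⟩, fin q q' _ (subset_insert _ _) (hΓ.insert _) ?_ hB'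
        ⟨β q, v', Or.inl rfl, ⟨hq, l2, l2, fun h => lt_irrefl _ (f1 _ l2 _ l2 h),
          fun h => lt_irrefl _ (f1 _ l2 _ l2 h)⟩, hat'⟩⟩
      rintro p (rfl | hp)
      · exact ⟨l1, hv'⟩
      · exact hΓM p hp
    · rintro q' ⟨hq', hqK'⟩
      obtain ⟨l1, l2, -⟩ := hM'.lab q' hq'
      obtain ⟨v, hv, hB'⟩ := hB.back hlt l1
      have hΓs : (Prod.swap ⁻¹' Γ).Finite := hΓ.preimage Prod.swap_injective.injOn
      let K' : Set (Bool × (ℚ × ℚ)) := {k | (k.1, (k.2.2, k.2.1)) ∈ K}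
      have hK' : gLE_Cpt L C b J' β' J β K' (Prod.swap ⁻¹' Γ) := by
        intro k hk
        obtain ⟨v, v', h3, h4, h5⟩ := hK _ hk
        exact ⟨v', v, h3, h5, h4⟩
      have hqK'' : ∀ k ∈ K', gLE_Cs k q' := fun k hk => hqK' _ hk
      have hBs : BFR S S M' M (Ordinal.omega0 + Ordinal.omega0 + α)
          (insert (β' q', v) (Prod.swap ⁻¹' Γ)) := by
        refine BFR.anti ?_ hB'.swap
        rintro p (rfl | hp)
        · exact Or.inl rfl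
        · exact Or.inr hp
      obtain ⟨q, hq, hqK, hat1⟩ := gLE_step hFAR hLV0 hPI hW hT hNI hCd hne hCC hM' hM hΓs
        (fun p hp => ⟨(hΓM _ hp).2, (hΓM _ hp).1⟩) (fun c hc => hΓ0 c hc) hK' hδ hq' hqK'' hv hBs
      have hqK2 : ∀ k ∈ K, gLE_Cs k q := fun k hk => hqK (k.1, (k.2.2, k.2.1)) hk
      refine ⟨q, ⟨hq, hqK2⟩, fin q q' _ (subset_insert _ _) (hΓ.insert _) ?_ hB'
        ⟨v, β' q', Or.inl rfl, hat1, ⟨hq', l2, l2, fun h => lt_irrefl _ (f1 _ l2 _ l2 h),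
          fun h => lt_irrefl _ (f1 _ l2 _ l2 h)⟩⟩⟩
      rintro p (rfl | hp)
      · exact ⟨hv, l1⟩
      · exact hΓM p hp

end

theorem thm_gLE (hORB : St_ORB) (hFAR : St_nFAR) (hLV0 : St_LV0) (hPI : St_gPI) : St_gLE := by
  intro L _ U S _ hW hT hNI C b y n w t hCd C₁ hC₁ hCC J J' M M' β β' γ hM hM' hB
  by_cases hne : Orb L C b = {b}
  · obtain ⟨o1, -⟩ := hORB L U hW.mon
    have hJ : ∀ (J : Set ℚ) (M : Set U) (β : ℚ → U), MD L C b y n w C₁ J M β → J = ∅ := by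
      intro J M β hM
      rw [eq_empty_iff_forall_notMem]
      intro q hq
      obtain ⟨h1, h2, h3⟩ := hM.lab q hq
      obtain ⟨q', hq', h4⟩ := hM.all _ h1 h2 h3
      have h5 := (hM.lab q' hq').2.1
      rw [hne, mem_singleton_iff] at h2 h5
      refine h4.1 ?_
      rw [h2, h5]
      show b ∈ Ge L C b true (insert b C)
      refine ⟨o1 C b, ?_⟩
      rw [hne]
      intro z hz
      rw [mem_singleton_iff] at hz
      subst hz
      exact ⟨z, o1 _ _, le_rfl⟩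
    rw [hJ J M β hM, hJ J' M' β' hM', HER.LE]
    intro α hα
    exact ⟨fun x hx => absurd hx (notMem_empty x), fun x hx => absurd hx (notMem_empty x)⟩
  · have h := gLE_main hFAR hLV0 hPI hW hT hNI hCd.1 hne hCC hM hM' γ ∅
      {p | p.1 = p.2 ∧ p.1 ∈ C₁} ?_ ?_ (fun c hc => ⟨rfl, hc⟩)
      (fun k hk => absurd hk (notMem_empty k)) hB
    · simpa using h
    · refine (hC₁.image fun c => (c, c)).subset ?_
      rintro ⟨x, z⟩ ⟨h1, h2⟩
      exact ⟨x, h2, by simpa using h1⟩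
    · rintro ⟨x, z⟩ ⟨h1, h2⟩
      simp only at h1 h2
      subst h1
      exact ⟨hM.c1 h2, hM'.c1 h2⟩

end Pool.Agent.WOM
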