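import Pool.Agent.WOL.StG2

/-!
WOL, gLG: general position.
-/

set_option autoImplicit false
set_option linter.unusedVariables false

namespace Pool.Agent.WOM

open FirstOrder.Language Set
open scoped FirstOrder

section

variable {L : FirstOrder.Language.{0, 0}} {U : Type} [L.Structure U]

private theorem gLG_comp (τ σ : U ≃[L] U) (X : Set U) : (τ.comp σ) '' X = τ '' (σ '' X) := by
  ext x
  constructor
  · rintro ⟨z, hz, rfl⟩
    exact ⟨σ z, ⟨z, hz, rfl⟩, rfl⟩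
  · rintro ⟨_, ⟨z, hz, rfl⟩, rfl⟩
    exact ⟨z, hz, rfl⟩

private theorem gLG_fx {X : Set U} {τ : U ≃[L] U} (h : Fx L X τ) : τ '' X = X := by
  have : τ '' X = id '' X := image_congr fun x hx => h x hx
  rw [this, image_id]

private theorem gLG_symm {X : Set U} {τ : U ≃[L] U} (h : Fx L X τ) : Fx L X τ.symm := by
  intro x hx
  calc τ.symm x = τ.symm (τ x) := by rw [h x hx]
    _ = x := τ.symm_apply_apply x

private theorem gLG_symm_img (τ : U ≃[L] U) (X : Set U) : τ.symm '' (τ '' X) = X := by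
  ext x
  constructor
  · rintro ⟨_, ⟨z, hz, rfl⟩, rfl⟩
    rwa [τ.symm_apply_apply]
  · intro hx
    exact ⟨τ x, ⟨x, hx, rfl⟩, τ.symm_apply_apply x⟩

private theorem gLG_img_symm (τ : U ≃[L] U) (X : Set U) : τ '' (τ.symm '' X) = X := by
  ext x
  constructor
  · rintro ⟨_, ⟨z, hz, rfl⟩, rfl⟩
    rwa [τ.apply_symm_apply]
  · intro hx
    exact ⟨τ.symm x, ⟨x, hx, rfl⟩, τ.apply_symm_apply x⟩

private theorem gLG_agree {C : Set U} {b : U} {σ σ' : U ≃[L] U} (h : Fx L C σ) (h' : Fx L C σ')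
    (hb : σ b = σ' b) : ∀ z ∈ insert b C, σ z = σ' z := by
  rintro z (rfl | hz)
  · exact hb
  · rw [h z hz, h' z hz]

private theorem gLG_im {C : Set U} (b : U) {σ : U ≃[L] U} (h : Fx L C σ) :
    σ '' insert b C = insert (σ b) C := by
  rw [image_insert_eq, gLG_fx h]

private theorem gLG_BB {C : Set U} (b : U) (y : ℕ → U) (n : ℕ) {σ : U ≃[L] U} (h : Fx L C σ) :
    σ '' BB C b y n = insert (σ b) C ∪ (fun i => σ (y i)) '' {i | i < n} := by
  unfold BB Bn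
  rw [image_union, gLG_im b h, ← image_comp]
  rfl

private theorem gLG_fin {C : Set U} (hC : C.Finite) (b : U) (y : ℕ → U) (n : ℕ) :
    (BB C b y n).Finite := (hC.insert b).union ((finite_lt_nat n).image y)

private theorem gLG_sub {C : Set U} (b : U) (y : ℕ → U) (n : ℕ) {σ : U ≃[L] U} (h : Fx L C σ) :
    insert (σ b) C ⊆ σ '' BB C b y n := by
  rw [gLG_BB b y n h]
  exact subset_union_left

private theorem gLG_mv {B : Set U} {κ σ₀ σ : U ≃[L] U} (h : ∀ x ∈ B, κ (σ₀ x) = σ x) (w : U) :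
    κ (σ₀ w) ∈ Orb L (σ '' B) (σ w) := by
  refine ⟨(κ.comp σ₀).comp σ.symm, ?_, ?_⟩
  · rintro _ ⟨x, hx, rfl⟩
    show κ (σ₀ (σ.symm (σ x))) = σ x
    rw [σ.symm_apply_apply]
    exact h x hx
  · show κ (σ₀ (σ.symm (σ w))) = κ (σ₀ w)
    rw [σ.symm_apply_apply]

private theorem gLG_mv_img {B : Set U} {κ σ₀ σ : U ≃[L] U} (h : ∀ x ∈ B, κ (σ₀ x) = σ x) :
    κ '' (σ₀ '' B) = σ '' B := by
  rw [← image_comp]
  exact image_congr fun x hx => h x hx

private theorem gLG_swap (X : Set U) (p q : ℕ → U) (n m : ℕ) :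
    Bn (Bn X p n) q m = Bn (Bn X q m) p n := by
  unfold Bn
  rw [union_assoc, union_assoc, union_comm (p '' _)]

end

/-- [gLG] -/
theorem thm_gLG (hORB : St_ORB) (hNSB : St_NSB) (hGEX : St_nGEX) (hGER : St_nGER)
    (hSDI : St_nSDI) (hTRA : St_nTRA) (hPN : St_gPN) (hIS : St_gIS) (hFC : St_gFC)
    (hEX : St_gEX) : St_gLG := by
  intro L U _ _ hW hT hNI C b y n w t hcd
  obtain ⟨hcod, hsd⟩ := hcd
  obtain ⟨orb1, orb2, -⟩ := hORB L U hW.mon
  obtain ⟨nsb1, nsb2, nsb3, -⟩ := hNSB L U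
  have gex := hGEX L U hW
  obtain ⟨ger1, ger2, -, ger4, ger5, -⟩ := hGER L U hW
  obtain ⟨sdi1, sdi2, sdi3, sdi4, -⟩ := hSDI L U hW
  have hA : (insert b C).Finite := hcod.fin.insert b
  have hBfin := gLG_fin hcod.fin b y n
  obtain ⟨fc1, fc2, fc3, fc4, fc5, -⟩ := hFC L U hW hT C (insert b C) y n hA (subset_insert b C)
  -- 1
  have P1 : ∀ a a' : U, ¬ LG L C b y n w t a a' →
      ∀ σ σ' : U ≃[L] U, Fc L C (insert a (insert a' C)) (insert b C) y n σ → σ b = a →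
      Fc L C (insert a' (σ '' BB C b y n)) (insert b C) y n σ' → σ' b = a' →
      ∀ u ∈ Ge L (σ '' BB C b y n) (σ w) t (σ '' BB C b y n ∪ σ' '' BB C b y n),
      ∀ u' ∈ Ge L (σ' '' BB C b y n) (σ' w) t (σ '' BB C b y n ∪ σ' '' BB C b y n),
        ¬ Nn L (σ '' BB C b y n ∪ σ' '' BB C b y n) u u' := by
    intro a a' hnl σ σ' hσ hσb hσ' hσb' u hu u' hu' hN
    apply hnl
    intro σ₀ σ₀' h0 h0b h0' h0b' u₀ hu₀ u₀' hu₀'
    have hD₀ : (insert a (insert a' C)).Finite := (hcod.fin.insert a').insert a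
    obtain ⟨ρ, hρ, hρx⟩ := fc2 (insert a (insert a' C)) σ₀ σ hD₀ h0 hσ
      (gLG_agree h0.fx hσ.fx (h0b.trans hσb.symm)) (by
        rw [gLG_im b h0.fx, h0b]
        exact insert_subset_insert (subset_insert a' C))
    have hρC : Fx L C ρ := fun c hc => hρ c (Or.inr (Or.inr hc))
    have hρa' : ρ a' = a' := hρ a' (Or.inr (Or.inl rfl))
    have hρB : ρ '' (σ₀ '' BB C b y n) = σ '' BB C b y n := gLG_mv_img hρx
    have h1 := fc4 (insert a' (σ₀ '' BB C b y n)) σ₀' ρ hρC h0'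
    rw [image_insert_eq, hρa', hρB] at h1
    have hD₁ : (insert a' (σ '' BB C b y n)).Finite := (hBfin.image _).insert a'
    have hb1 : (ρ.comp σ₀') b = a' := by
      show ρ (σ₀' b) = a'
      rw [h0b', hρa']
    obtain ⟨ρ', hρ', hρx'⟩ := fc2 (insert a' (σ '' BB C b y n)) (ρ.comp σ₀') σ' hD₁ h1 hσ'
      (gLG_agree h1.fx hσ'.fx (hb1.trans hσb'.symm)) (by
        rw [gLG_im b h1.fx, hb1]
        exact insert_subset_insert
          ((subset_insert (σ b) C).trans (gLG_sub b y n hσ.fx)))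
    have k1 : ∀ x ∈ BB C b y n, (ρ'.comp ρ) (σ₀ x) = σ x := by
      intro x hx
      show ρ' (ρ (σ₀ x)) = σ x
      rw [hρx x hx]
      exact hρ' _ (Or.inr ⟨x, hx, rfl⟩)
    have k2 : ∀ x ∈ BB C b y n, (ρ'.comp ρ) (σ₀' x) = σ' x := hρx'
    have kE : (ρ'.comp ρ) '' (σ₀ '' BB C b y n ∪ σ₀' '' BB C b y n) =
        σ '' BB C b y n ∪ σ' '' BB C b y n := by
      rw [image_union, gLG_mv_img k1, gLG_mv_img k2]
    have hEfin : (σ '' BB C b y n ∪ σ' '' BB C b y n).Finite :=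
      (hBfin.image _).union (hBfin.image _)
    have m1 : (ρ'.comp ρ) u₀ ∈ Orb L (σ '' BB C b y n ∪ σ' '' BB C b y n) u := by
      have h := ger5 (ρ'.comp ρ) (σ₀ '' BB C b y n) (σ₀ '' BB C b y n ∪ σ₀' '' BB C b y n)
        (σ₀ w) t
      rw [kE, gLG_mv_img k1, ger4 _ _ (σ w) _ t (gLG_mv k1 w)] at h
      have h2 : (ρ'.comp ρ) u₀ ∈
          (ρ'.comp ρ) '' Ge L (σ₀ '' BB C b y n) (σ₀ w) t
            (σ₀ '' BB C b y n ∪ σ₀' '' BB C b y n) := ⟨u₀, hu₀, rfl⟩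
      rw [← h, (gex _ _ _ t subset_union_left hEfin).2 u hu] at h2
      exact h2
    have m2 : (ρ'.comp ρ) u₀' ∈ Orb L (σ '' BB C b y n ∪ σ' '' BB C b y n) u' := by
      have h := ger5 (ρ'.comp ρ) (σ₀' '' BB C b y n) (σ₀ '' BB C b y n ∪ σ₀' '' BB C b y n)
        (σ₀' w) t
      rw [kE, gLG_mv_img k2, ger4 _ _ (σ' w) _ t (gLG_mv k2 w)] at h
      have h2 : (ρ'.comp ρ) u₀' ∈
          (ρ'.comp ρ) '' Ge L (σ₀' '' BB C b y n) (σ₀' w) t
            (σ₀ '' BB C b y n ∪ σ₀' '' BB C b y n) := ⟨u₀', hu₀', rfl⟩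
      rw [← h, (gex _ _ _ t subset_union_right hEfin).2 u' hu'] at h2
      exact h2
    have h3 := nsb3 (ρ'.comp ρ).symm _ _ _ (nsb2 _ _ _ _ _ m1 m2 hN)
    rw [← kE, gLG_symm_img, (ρ'.comp ρ).symm_apply_apply, (ρ'.comp ρ).symm_apply_apply] at h3
    exact h3
  -- 2
  have P2 : ∀ (κ : U ≃[L] U) (a a' : U), Fx L C κ → LG L C b y n w t a a' →
      LG L C b y n w t (κ a) (κ a') := by
    intro κ a a' hκ h σ σ' hσ hσb hσ' hσb' u hu u' hu'
    have hκs := gLG_symm hκ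
    have e1 := fc4 (insert (κ a) (insert (κ a') C)) σ κ.symm hκs hσ
    rw [image_insert_eq, image_insert_eq, gLG_fx hκs, κ.symm_apply_apply, κ.symm_apply_apply]
      at e1
    have e2 := fc4 (insert (κ a') (σ '' BB C b y n)) σ' κ.symm hκs hσ'
    rw [image_insert_eq, κ.symm_apply_apply, ← gLG_comp] at e2
    have b1 : (κ.symm.comp σ) b = a := by
      show κ.symm (σ b) = a
      rw [hσb, κ.symm_apply_apply]
    have b2 : (κ.symm.comp σ') b = a' := by
      show κ.symm (σ' b) = a'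
      rw [hσb', κ.symm_apply_apply]
    have hE : (κ.symm.comp σ) '' BB C b y n ∪ (κ.symm.comp σ') '' BB C b y n =
        κ.symm '' (σ '' BB C b y n ∪ σ' '' BB C b y n) := by
      rw [gLG_comp, gLG_comp, image_union]
    have h1 := h (κ.symm.comp σ) (κ.symm.comp σ') e1 b1 e2 b2 (κ.symm u) (by
      rw [hE, gLG_comp]
      show κ.symm u ∈ Ge L (κ.symm '' (σ '' BB C b y n)) (κ.symm (σ w)) t _
      rw [ger5]
      exact ⟨u, hu, rfl⟩) (κ.symm u') (by
      rw [hE, gLG_comp]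
      show κ.symm u' ∈ Ge L (κ.symm '' (σ' '' BB C b y n)) (κ.symm (σ' w)) t _
      rw [ger5]
      exact ⟨u', hu', rfl⟩)
    have h2 := nsb3 κ _ _ _ h1
    rw [hE, gLG_img_symm, κ.apply_symm_apply, κ.apply_symm_apply] at h2
    exact h2
  intro a a' ha ha'
  refine ⟨P1 a a', ?_, ?_⟩
  · intro κ hκ
    refine ⟨P2 κ a a' hκ, fun h => ?_⟩
    have h1 := P2 κ.symm (κ a) (κ a') (gLG_symm hκ) h
    rwa [κ.symm_apply_apply, κ.symm_apply_apply] at h1
  -- 3
  intro hLG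
  rcases hsd with hsd | hn
  · have hps1 : ∀ (σ : U ≃[L] U) (E : Set U) (u : U), E.Finite → σ '' BB C b y n ⊆ E →
        u ∈ Ge L (σ '' BB C b y n) (σ w) t E → ¬ SD L E u t := by
      intro σ E u hE hs hu h
      exact hcod.nd (((sdi4 σ (BB C b y n) w).2 t).mp ((sdi2 _ E _ u t hs hE hu).mp h))
    have hps2 : ∀ (σ : U ≃[L] U) (E : Set U) (u : U), E.Finite → σ '' BB C b y n ⊆ E →
        u ∈ Ge L (σ '' BB C b y n) (σ w) t E → SD L E u (!t) := by
      intro σ E u hE hs hu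
      rcases hNI (σ '' BB C b y n) E (σ w) u t hs hE hu with h | h
      · have h1 : σ w ∈ Orb L E u := by
          rw [h]
          exact orb1 _ _
        have h2 := orb2 E u (σ w) h1
        have h3 := (sdi3 (σ '' BB C b y n) E (σ w) hs hE (h2.trans h)).2 (!t)
        have h4 := h3.mpr (((sdi4 σ (BB C b y n) w).2 (!t)).mpr hsd)
        unfold SD at h4 ⊢
        rw [← h2]
        exact h4
      · exact h
    have hps : ∀ (σ σ' : U ≃[L] U) (E E' : Set U) (u v u₁ v₁ : U), E'.Finite → E ⊆ E' →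
        σ '' BB C b y n ⊆ E → σ' '' BB C b y n ⊆ E →
        u ∈ Ge L (σ '' BB C b y n) (σ w) t E → v ∈ Ge L (σ' '' BB C b y n) (σ' w) t E →
        Nn L E u v → u₁ ∈ Ge L (σ '' BB C b y n) (σ w) t E' →
        v₁ ∈ Ge L (σ' '' BB C b y n) (σ' w) t E' → Nn L E' u₁ v₁ := by
      intro σ σ' E E' u v u₁ v₁ hE' hEE hs hs' hu hv hN hu₁ hv₁
      have hE : E.Finite := hE'.subset hEE
      refine (hPN L U hW).2.1 E E' u v u₁ v₁ t t hEE hE' hN (hps2 σ E u hE hs hu)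
        (hps1 σ' E v hE hs' hv) ?_ ?_
      · rw [ger1 _ E E' _ u t hs hEE hE' hu]
        exact hu₁
      · rw [ger1 _ E E' _ v t hs' hEE hE' hv]
        exact hv₁
    obtain ⟨σa, hσa, hσab⟩ := ha
    obtain ⟨σa', hσa', hσab'⟩ := ha'
    obtain ⟨D₀, hD₀⟩ : ∃ D₀ : Set U, D₀ = insert a (insert a' C) := ⟨_, rfl⟩
    have hD₀f : D₀.Finite := by
      rw [hD₀]
      exact (hcod.fin.insert a').insert a
    obtain ⟨σ, hσ, hσA⟩ := fc1 D₀ σa hD₀f hσa
    have hσb : σ b = a := (hσA b (mem_insert b C)).trans hσab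
    obtain ⟨D₁, hD₁⟩ : ∃ D₁ : Set U, D₁ = D₀ ∪ σ '' BB C b y n := ⟨_, rfl⟩
    have hD₁f : D₁.Finite := by
      rw [hD₁]
      exact hD₀f.union (hBfin.image _)
    obtain ⟨σ', hσ', hσA'⟩ := fc1 D₁ σa' hD₁f hσa'
    have hσb' : σ' b = a' := (hσA' b (mem_insert b C)).trans hσab'
    obtain ⟨D₂, hD₂⟩ : ∃ D₂ : Set U, D₂ = D₁ ∪ σ' '' BB C b y n := ⟨_, rfl⟩
    have hD₂f : D₂.Finite := by
      rw [hD₂]
      exact hD₁f.union (hBfin.image _)
    obtain ⟨σ'', hσ'', hσA''⟩ := fc1 D₂ σa hD₂f hσa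
    have hσb'' : σ'' b = a := (hσA'' b (mem_insert b C)).trans hσab
    obtain ⟨E', hE'⟩ : ∃ E' : Set U, E' = D₂ ∪ σ'' '' BB C b y n := ⟨_, rfl⟩
    have hE'f : E'.Finite := by
      rw [hE']
      exact hD₂f.union (hBfin.image _)
    -- inclusions
    have haD : insert a C ⊆ D₀ := by
      rw [hD₀]
      exact insert_subset_insert (subset_insert a' C)
    have ha'D : insert a' C ⊆ D₀ := by
      rw [hD₀]
      exact subset_insert _ _
    have i01 : D₀ ⊆ D₁ := by rw [hD₁]; exact subset_union_left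
    have i12 : D₁ ⊆ D₂ := by rw [hD₂]; exact subset_union_left
    have i2E : D₂ ⊆ E' := by rw [hE']; exact subset_union_left
    have iσ : σ '' BB C b y n ⊆ D₁ := by rw [hD₁]; exact subset_union_right
    have iσ' : σ' '' BB C b y n ⊆ D₂ := by rw [hD₂]; exact subset_union_right
    have iσ'' : σ'' '' BB C b y n ⊆ E' := by rw [hE']; exact subset_union_right
    have jσ : σ '' BB C b y n ⊆ E' := iσ.trans (i12.trans i2E)
    have jσ' : σ' '' BB C b y n ⊆ E' := iσ'.trans i2E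
    -- chains
    obtain ⟨c1, s1⟩ := fc5 hNI hcod.ch D₀ σ hD₀f (by rw [gLG_im b hσ.fx, hσb]; exact haD) hσ
    obtain ⟨c2, s2⟩ := fc5 hNI hcod.ch D₁ σ' hD₁f
      (by rw [gLG_im b hσ'.fx, hσb']; exact ha'D.trans i01) hσ'
    obtain ⟨c3, s3⟩ := fc5 hNI hcod.ch D₂ σ'' hD₂f
      (by rw [gLG_im b hσ''.fx, hσb'']; exact (haD.trans i01).trans i12) hσ''
    obtain ⟨ex1, ex2, -⟩ := hEX L U hW hT
    have s1' : D₁ = Bn D₀ (fun i => σ (y i)) n := by
      rw [hD₁]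
      exact s1
    have s2' : D₂ = Bn D₁ (fun i => σ' (y i)) n := by
      rw [hD₂]
      exact s2
    have s3' : E' = Bn D₂ (fun i => σ'' (y i)) n := by
      rw [hE']
      exact s3
    obtain ⟨A₁, hA₁⟩ : ∃ A₁ : Set U, A₁ = Bn D₀ (fun i => σ' (y i)) n := ⟨_, rfl⟩
    have hA₁f : A₁.Finite := by
      rw [hA₁]
      exact hD₀f.union ((finite_lt_nat n).image _)
    have q1 : Ch L A₁ (fun i => σ (y i)) n := by
      rw [hA₁]
      rw [s1'] at c2
      exact (ex1 D₀ _ _ n n hD₀f c1 c2).2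
    have q2 : D₂ = Bn A₁ (fun i => σ (y i)) n := by
      rw [s2', s1', hA₁, gLG_swap]
    have q3 : Ch L (Bn A₁ (fun i => σ'' (y i)) n) (fun i => σ (y i)) n := by
      rw [q2] at c3
      exact (ex1 A₁ _ _ n n hA₁f q1 c3).2
    have q4 : σ' '' BB C b y n ∪ σ'' '' BB C b y n = Bn A₁ (fun i => σ'' (y i)) n := by
      rw [gLG_BB b y n hσ'.fx, gLG_BB b y n hσ''.fx, hσb', hσb'', hA₁, hD₀]
      unfold Bn
      ext z
      simp only [mem_union, mem_insert_iff]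
      tauto
    have q5 : E' = Bn (Bn A₁ (fun i => σ'' (y i)) n) (fun i => σ (y i)) n := by
      rw [s3', q2, gLG_swap]
    have q6 : Atm L (σ' '' BB C b y n ∪ σ'' '' BB C b y n) E' := by
      rw [q4, q5]
      exact ex2 _ _ n q3
    -- the germs
    obtain ⟨⟨u, hu⟩, -⟩ := gex (σ '' BB C b y n) E' (σ w) t jσ hE'f
    obtain ⟨⟨v, hv⟩, -⟩ := gex (σ' '' BB C b y n) E' (σ' w) t jσ' hE'f
    obtain ⟨⟨x, hx⟩, -⟩ := gex (σ'' '' BB C b y n) E' (σ'' w) t iσ'' hE'f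
    have hpos : Fc L C (insert a' (σ '' BB C b y n)) (insert b C) y n σ' := by
      refine fc3 D₁ _ σ' hD₁f ?_ hσ'
      exact insert_subset (i01 (ha'D (mem_insert a' C))) iσ
    rw [hD₀] at hσ
    -- (i)
    have n1 : Nn L E' u v := by
      have hf : (σ '' BB C b y n ∪ σ' '' BB C b y n).Finite :=
        (hBfin.image _).union (hBfin.image _)
      obtain ⟨⟨u₁, hu₁⟩, -⟩ := gex (σ '' BB C b y n) (σ '' BB C b y n ∪ σ' '' BB C b y n) (σ w) t
        subset_union_left hf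
      obtain ⟨⟨v₁, hv₁⟩, -⟩ := gex (σ' '' BB C b y n) (σ '' BB C b y n ∪ σ' '' BB C b y n) (σ' w) t
        subset_union_right hf
      exact hps σ σ' _ E' u₁ v₁ u v hE'f (union_subset jσ jσ') subset_union_left
        subset_union_right hu₁ hv₁ (hLG σ σ' hσ hσb hpos hσb' u₁ hu₁ v₁ hv₁) hu hv
    -- (ii)
    have n2 : Nn L E' u x := by
      have hf : (σ '' BB C b y n ∪ σ'' '' BB C b y n).Finite :=
        (hBfin.image _).union (hBfin.image _)
      obtain ⟨⟨u₁, hu₁⟩, -⟩ := gex (σ '' BB C b y n) (σ '' BB C b y n ∪ σ'' '' BB C b y n) (σ w) t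
        subset_union_left hf
      obtain ⟨⟨x₁, hx₁⟩, -⟩ := gex (σ'' '' BB C b y n) (σ '' BB C b y n ∪ σ'' '' BB C b y n)
        (σ'' w) t subset_union_right hf
      refine hps σ σ'' _ E' u₁ x₁ u x hE'f (union_subset jσ iσ'') subset_union_left
        subset_union_right hu₁ hx₁ ?_ hu hx
      have hfx : Fx L (insert b C) (σ.symm.comp σ'') := by
        rintro z (rfl | hz)
        · show σ.symm (σ'' z) = z
          rw [hσb'', ← hσb, σ.symm_apply_apply]
        · show σ.symm (σ'' z) = z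
          rw [hσ''.fx z hz]
          exact gLG_symm hσ.fx z hz
      have hL := hcod.ct (σ.symm.comp σ'') hfx
      have e1 : BB C b y n ∪ (σ.symm.comp σ'') '' BB C b y n =
          σ.symm '' (σ '' BB C b y n ∪ σ'' '' BB C b y n) := by
        rw [image_union, gLG_symm_img, gLG_comp]
      have h1 := hL (σ.symm u₁) (by
        rw [e1]
        have h := ger5 σ.symm (σ '' BB C b y n) (σ '' BB C b y n ∪ σ'' '' BB C b y n) (σ w) t
        rw [gLG_symm_img, σ.symm_apply_apply] at h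
        rw [h]
        exact ⟨u₁, hu₁, rfl⟩) (σ.symm x₁) (by
        rw [e1, gLG_comp]
        show σ.symm x₁ ∈ Ge L (σ.symm '' (σ'' '' BB C b y n)) (σ.symm (σ'' w)) t _
        rw [ger5]
        exact ⟨x₁, hx₁, rfl⟩)
      have h2 := nsb3 σ _ _ _ h1
      rw [e1, gLG_img_symm, σ.apply_symm_apply, σ.apply_symm_apply] at h2
      exact h2
    -- (iii)
    have n3 : Nn L E' v x := hTRA L U hW E' v u x hE'f (nsb1 _ _ _ n1) n2
    have hEf : (σ' '' BB C b y n ∪ σ'' '' BB C b y n).Finite :=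
      (hBfin.image _).union (hBfin.image _)
    have hEE : σ' '' BB C b y n ∪ σ'' '' BB C b y n ⊆ E' := union_subset jσ' iσ''
    have hv' : v ∈ Ge L (σ' '' BB C b y n) (σ' w) t (σ' '' BB C b y n ∪ σ'' '' BB C b y n) :=
      ger2 _ _ E' _ t subset_union_left hEE hE'f hv
    have hx' : x ∈ Ge L (σ'' '' BB C b y n) (σ'' w) t (σ' '' BB C b y n ∪ σ'' '' BB C b y n) :=
      ger2 _ _ E' _ t subset_union_right hEE hE'f hx
    have hni : ∀ (τ : U ≃[L] U) (z : U),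
        τ '' BB C b y n ⊆ σ' '' BB C b y n ∪ σ'' '' BB C b y n →
        z ∈ Ge L (τ '' BB C b y n) (τ w) t (σ' '' BB C b y n ∪ σ'' '' BB C b y n) →
        ¬ Isd L (σ' '' BB C b y n ∪ σ'' '' BB C b y n) z := by
      intro τ z hs hz hI
      have h1 := (sdi1 _ z hEf).mp hI
      have h2 := hps1 τ _ z hEf hs hz
      cases t
      · exact h2 h1.2
      · exact h2 h1.1
    have n4 : Nn L (σ' '' BB C b y n ∪ σ'' '' BB C b y n) v x :=
      (hIS L U hW hT).2.2.1 _ E' v x hEf q6 (hni σ' v subset_union_left hv')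
        (hni σ'' x subset_union_right hx') n3
    by_contra hcon
    refine P1 a' a hcon σ' σ'' ?_ hσb' ?_ hσb'' v hv' x hx' n4
    · refine fc3 D₁ _ σ' hD₁f ?_ hσ'
      exact insert_subset (i01 (ha'D (mem_insert a' C))) (haD.trans i01)
    · refine fc3 D₂ _ σ'' hD₂f ?_ hσ''
      exact insert_subset ((i01.trans i12) (haD (mem_insert a C))) iσ'
  · subst hn
    intro σ σ' hσ hσb hσ' hσb' u hu u' hu'
    have f0 : ∀ (D : Set U) (τ : U ≃[L] U), Fx L C τ → Fc L C D (insert b C) y 0 τ :=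
      fun D τ hτ => ⟨hτ, fun i hi => absurd hi (Nat.not_lt_zero i)⟩
    have e : σ' '' BB C b y 0 ∪ σ '' BB C b y 0 = σ '' BB C b y 0 ∪ σ' '' BB C b y 0 :=
      union_comm _ _
    have h1 := hLG σ' σ (f0 _ σ' hσ'.fx) hσb' (f0 _ σ hσ.fx) hσb u'
    rw [e] at h1
    exact nsb1 _ _ _ (h1 hu' u hu)

end Pool.Agent.WOM
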