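import Pool.Agent.WOL.StE

/-! WOL [gLT]: a closed type is not linked to an open end (helper18). -/

set_option autoImplicit false

namespace Pool.Agent.WOM

open FirstOrder.Language Set
open scoped FirstOrder

theorem thm_gLT (hORB : St_ORB) (hNSB : St_NSB) (hCNV : St_nCNV) (hGEX : St_nGEX) (hGER : St_nGER)
    (hSMA : St_nSMA) (hLTW : St_nLTW) : St_gLT := by
  intro L U _ _ hW M Y B w v t hM hBf hYB hBM hdis hop
  obtain ⟨o1, o2, o3, -, -, -, -, -, -⟩ := hORB L U hW.mon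
  obtain ⟨n1, -, -, -, -, -⟩ := hNSB L U
  obtain ⟨-, hcv⟩ := hCNV L U hW
  obtain ⟨g1, -, -, -, -, -, -, -⟩ := hGER L U hW
  have hlt := hLTW L U hW
  by_contra hcon
  push Not at hcon
  obtain ⟨v', hv', hv'M⟩ := hop B hBf Subset.rfl hBM
  obtain ⟨D₁, hD₁⟩ : ∃ D₁ : Set U, D₁ = insert v' B := ⟨_, rfl⟩
  have hBD₁ : B ⊆ D₁ := by rw [hD₁]; exact subset_insert _ _
  have hD₁f : D₁.Finite := by rw [hD₁]; exact hBf.insert _
  have hD₁M : D₁ ⊆ M := by rw [hD₁]; exact insert_subset hv'M hBM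
  obtain ⟨v'', hv'', hv''M⟩ := hop D₁ hD₁f hBD₁ hD₁M
  obtain ⟨D, hD⟩ : ∃ D : Set U, D = insert v'' D₁ := ⟨_, rfl⟩
  have hD₁D : D₁ ⊆ D := by rw [hD]; exact subset_insert _ _
  have hDf : D.Finite := by rw [hD]; exact hD₁f.insert _
  have hDM : D ⊆ M := by rw [hD]; exact insert_subset hv''M hD₁M
  have hn : Nn L B v' w := n1 B w v' (hcon v' hv')
  have k0 : Orb L D₁ w ≠ Orb L B w := by
    have h1 := hn
    unfold Nn at h1
    rwa [← hD₁] at h1
  obtain ⟨ε, -, -, hsm⟩ := hSMA L U hW B v' w hBf hn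
  obtain ⟨w', hw'⟩ := (hGEX L U hW B D₁ w (sg ε t) hBD₁ hD₁f).1
  have hw'G : w' ∈ Orb L B w := hw'.1
  have hv''2 : v'' ∈ Ge L B v' t D₁ := by
    rw [g1 Y B D₁ v v' t hYB hBD₁ hD₁f hv']
    exact hv''
  have hn2 := hsm D₁ t hD₁f hBD₁ v'' hv''2 w' hw'
  have k2 : Orb L D w' ≠ Orb L D₁ w' := by
    have h1 := hn2
    unfold Nn at h1
    rwa [← hD] at h1
  have hGw' : Orb L B w' = Orb L B w := o2 B w w' hw'G
  have sym : ∀ (E : Set U) (x y : U), y ∈ Orb L E x → x ∈ Orb L E y := by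
    intro E x y hxy
    rw [o2 E x y hxy]
    exact o1 E x
  have k1 : Orb L D₁ w' ≠ Orb L B w := by
    intro h1
    apply k0
    have h2 : w ∈ Orb L D₁ w' := by
      rw [h1]
      exact o1 B w
    rw [o2 D₁ w' w h2]
    exact h1
  obtain ⟨b, hb, hb'⟩ : ∃ b ∈ Orb L B w, b ∉ Orb L D₁ w' := by
    by_contra h1
    push Not at h1
    refine k1 (Subset.antisymm ?_ h1)
    have h2 := o3 B D₁ w' hBD₁
    rwa [hGw'] at h2
  obtain ⟨a, ha, ha'⟩ : ∃ a ∈ Orb L D₁ w', a ∉ Orb L D w' := by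
    by_contra h1
    push Not at h1
    exact k2 (Subset.antisymm (o3 D₁ D w' hD₁D) h1)
  have e1 : a ∉ Orb L D w' := ha'
  have e2 : w' ∉ Orb L D a := fun h1 => e1 (sym _ _ _ h1)
  have e3 : b ∉ Orb L D w' := fun h1 => hb' (o3 D₁ D w' hD₁D h1)
  have e4 : w' ∉ Orb L D b := fun h1 => e3 (sym _ _ _ h1)
  have e5 : b ∉ Orb L D a := by
    intro h1
    apply hb'
    have h2 := o3 D₁ D a hD₁D h1
    rwa [o2 D₁ w' a ha] at h2
  have e6 : a ∉ Orb L D b := fun h1 => e5 (sym _ _ _ h1)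
  have hap : a ∈ Orb L B w := by
    have h2 := o3 B D₁ w' hBD₁ ha
    rwa [hGw'] at h2
  have key : ∀ x ∈ Orb L B w, ∀ y ∈ Orb L B w, ∀ z ∈ Orb L B w, x < y → y < z →
      y ∈ Orb L D x ∨ z ∈ Orb L D y := fun x hx y hy z hz hxy hyz =>
    hlt M (Orb L B w) D hM (hcv B w hBf).1 hdis hDf hDM x hx y hy z hz hxy hyz
  have n12 : w' ≠ a := fun h1 => e1 (h1 ▸ o1 D w')
  have n13 : w' ≠ b := fun h1 => e3 (h1 ▸ o1 D w')
  have n23 : a ≠ b := fun h1 => e5 (h1 ▸ o1 D a)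
  rcases lt_or_gt_of_ne n12 with h12 | h12
  · rcases lt_or_gt_of_ne n23 with h23 | h23
    · rcases key w' hw'G a hap b hb h12 h23 with h1 | h1
      · exact e1 h1
      · exact e5 h1
    · rcases lt_or_gt_of_ne n13 with h13 | h13
      · rcases key w' hw'G b hb a hap h13 h23 with h1 | h1
        · exact e3 h1
        · exact e6 h1
      · rcases key b hb w' hw'G a hap h13 h12 with h1 | h1
        · exact e4 h1
        · exact e1 h1
  · rcases lt_or_gt_of_ne n13 with h13 | h13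
    · rcases key a hap w' hw'G b hb h12 h13 with h1 | h1
      · exact e2 h1
      · exact e3 h1
    · rcases lt_or_gt_of_ne n23 with h23 | h23
      · rcases key a hap b hb w' hw'G h23 h13 with h1 | h1
        · exact e5 h1
        · exact e4 h1
      · rcases key b hb a hap w' hw'G h23 h12 with h1 | h1
        · exact e6 h1
        · exact e2 h1

end Pool.Agent.WOM
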