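import Pool.Agent.WOL.StG2
import Pool.Agent.WOM.SMM

/-!
WOL, T7-ACC, [gMD]: the models (helper74 for helper8).
-/

set_option autoImplicit false
set_option linter.unusedVariables false
set_option linter.style.haveILetI false

namespace Pool.Agent.WOM

open FirstOrder.Language Set
open scoped FirstOrder

section

variable (L : FirstOrder.Language.{0, 0}) {U : Type} [L.Structure U]

/-- a state of the construction: the set, the labelled points, the labels, the stages -/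
private structure gMD_S (U : Type) where
  D : Set U
  F : Set ℚ
  β : ℚ → U
  H : ℚ → Set U

/-- the invariant of the construction -/
private def gMD_P [LinearOrder U] (C : Set U) (b : U) (y : ℕ → U) (n : ℕ) (w : U) (C₁ : Set U) (b₁ : U)
    (J : Set ℚ) (c : gMD_S U) : Prop :=
  Sg L C b y n w C₁ b₁ c.D c.F c.β c.H ∧ c.F ⊆ J

/-- what holds for each step -/
private def gMD_Q (c c' : gMD_S U) : Prop :=
  c.D ⊆ c'.D ∧ c.F ⊆ c'.F ∧ ∀ q ∈ c.F, c'.β q = c.β q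

/-- what is done for a task -/
private def gMD_R [LinearOrder U] (C : Set U) (b : U) (y : ℕ → U) (n : ℕ) (w : U) (J : Set ℚ) :
    ℚ ⊕ ((Finset U × U) ⊕ U) → gMD_S U → gMD_S U → Prop
  | Sum.inl q, _, c' => q ∈ J → q ∈ c'.F
  | Sum.inr (Sum.inl p), c, c' => (p.1 : Set U) ⊆ c.D → Isd L (p.1 : Set U) p.2 →
      ∃ z ∈ c'.D, z ∈ Orb L (p.1 : Set U) p.2
  | Sum.inr (Sum.inr a), c, c' => a ∈ c.D → a ∈ Orb L C b → (∀ q ∈ c.F, ¬ Nr L C a (c.β q)) →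
      PI L C b y n w c.D a → ¬ PI L C b y n w c'.D a

end

theorem thm_gMD (hPI : St_gPI) (hSS : St_gSS) : St_gMD := by
  intro L U _ _ hU hTRV hNI C b y n w t hcd hNL C₁ b₁ hBs J
  haveI : Countable U := hU.mon.ctb
  haveI : Infinite U := hU.mon.inf
  obtain ⟨o1, o2, o3, o4, o5, o6, o7, o8, o9⟩ := thm_ORB (thm_DEF1 thm_DEFF) L U hU.mon
  have hdns := thm_DNS (thm_ORB (thm_DEF1 thm_DEFF)) L U hU.mon
  obtain ⟨hs0, hss⟩ := hSS L U hU hTRV hNI C b y n w t hcd hNL C₁ b₁ hBs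
  have hpi := hPI L U hU hTRV hNI C b y n w t hcd.1
  have hQrfl : ∀ c : gMD_S U, gMD_Q c c := fun c => ⟨Subset.rfl, Subset.rfl, fun _ _ => rfl⟩
  have step : ∀ (τ : ℚ ⊕ ((Finset U × U) ⊕ U)) (c : gMD_S U), gMD_P L C b y n w C₁ b₁ J c →
      ∃ c' : gMD_S U, gMD_P L C b y n w C₁ b₁ J c' ∧ gMD_Q c c' ∧ gMD_R L C b y n w J τ c c' := by
    rintro (q | p | a) ⟨D, F, β, H⟩ ⟨hSg, hFJ⟩
    · by_cases hq : q ∈ J
      · by_cases hqF : q ∈ F
        · exact ⟨⟨D, F, β, H⟩, ⟨hSg, hFJ⟩, hQrfl _, fun _ => hqF⟩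
        · obtain ⟨x, hx⟩ := (hss D F β H hSg).2.2 q hqF
          refine ⟨⟨insert x D, insert q F, Function.update β q x, Function.update H q D⟩,
            ⟨hx, insert_subset hq hFJ⟩, ⟨subset_insert _ _, subset_insert _ _, ?_⟩, fun _ => mem_insert _ _⟩
          intro q' hq'
          have hne : q' ≠ q := fun h => hqF (h ▸ hq')
          exact Function.update_of_ne hne _ _
      · exact ⟨⟨D, F, β, H⟩, ⟨hSg, hFJ⟩, hQrfl _, fun h => absurd h hq⟩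
    · by_cases h1 : (p.1 : Set U) ⊆ D
      · by_cases h2 : Isd L (p.1 : Set U) p.2
        · obtain ⟨z, hz, hzi⟩ := hdns D (Orb L (p.1 : Set U) p.2) hSg.fin.1
            (Set.Definable.mono h2 h1) ⟨p.2, o1 _ _⟩
          exact ⟨⟨insert z D, F, β, H⟩, ⟨(hss D F β H hSg).1 z hzi, hFJ⟩,
            ⟨subset_insert _ _, Subset.rfl, fun _ _ => rfl⟩, fun _ _ => ⟨z, mem_insert _ _, hz⟩⟩
        · exact ⟨⟨D, F, β, H⟩, ⟨hSg, hFJ⟩, hQrfl _, fun _ h => absurd h h2⟩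
      · exact ⟨⟨D, F, β, H⟩, ⟨hSg, hFJ⟩, hQrfl _, fun h => absurd h h1⟩
    · by_cases h1 : a ∈ D ∧ a ∈ Orb L C b ∧ (∀ q ∈ F, ¬ Nr L C a (β q)) ∧ PI L C b y n w D a
      · obtain ⟨D', hDD, hS', hn⟩ := (hss D F β H hSg).2.1 a h1.1 h1.2.1 h1.2.2.1 h1.2.2.2
        exact ⟨⟨D', F, β, H⟩, ⟨hS', hFJ⟩, ⟨hDD, Subset.rfl, fun _ _ => rfl⟩, fun _ _ _ _ => hn⟩
      · exact ⟨⟨D, F, β, H⟩, ⟨hSg, hFJ⟩, hQrfl _, fun k1 k2 k3 k4 => absurd ⟨k1, k2, k3, k4⟩ h1⟩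
  choose f hf1 hf2 hf3 using step
  obtain ⟨e, he⟩ := GNC_enum (ℚ ⊕ ((Finset U × U) ⊕ U))
  have h0 : gMD_P L C b y n w C₁ b₁ J (⟨C₁, ∅, fun _ => b₁, fun _ => C₁⟩ : gMD_S U) :=
    ⟨hs0, empty_subset _⟩
  let cc : ℕ → {c : gMD_S U // gMD_P L C b y n w C₁ b₁ J c} := fun n' =>
    Nat.rec (motive := fun _ => {c : gMD_S U // gMD_P L C b y n w C₁ b₁ J c})
      ⟨⟨C₁, ∅, fun _ => b₁, fun _ => C₁⟩, h0⟩ (fun j c => ⟨f (e j) c.1 c.2, hf1 _ _ _⟩) n'
  let c : ℕ → gMD_S U := fun n' => (cc n').1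
  have hcP : ∀ j, gMD_P L C b y n w C₁ b₁ J (c j) := fun j => (cc j).2
  have hc1 : ∀ j, gMD_Q (c j) (c (j + 1)) := fun j => hf2 (e j) (cc j).1 (cc j).2
  have hcR : ∀ j, gMD_R L C b y n w J (e j) (c j) (c (j + 1)) := fun j => hf3 (e j) (cc j).1 (cc j).2
  have hQ : ∀ i j, i ≤ j → gMD_Q (c i) (c j) := by
    intro i j hij
    induction j, hij using Nat.le_induction with
    | base => exact hQrfl _
    | succ j _ ih =>
      exact ⟨ih.1.trans (hc1 j).1, ih.2.1.trans (hc1 j).2.1,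
        fun q hq => ((hc1 j).2.2 q (ih.2.1 hq)).trans (ih.2.2 q hq)⟩
  have hD : ∀ i j, i ≤ j → (c i).D ⊆ (c j).D := fun i j hij => (hQ i j hij).1
  have hfin := GNC_fin (fun j => (c j).D) hD
  have hC1D : ∀ j, C₁ ⊆ (c j).D := fun j => (hcP j).1.fin.2.2
  have hDfin : ∀ j, (c j).D.Finite := fun j => (hcP j).1.fin.1
  -- the labels
  have hex : ∀ q ∈ J, ∃ j, q ∈ (c j).F := by
    intro q hq
    obtain ⟨j, -, hj⟩ := he (Sum.inl q) 0
    have h1 := hcR j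
    rw [hj] at h1
    exact ⟨j + 1, h1 hq⟩
  classical
  let β : ℚ → U := fun q => if h : ∃ j, q ∈ (c j).F then (c (Classical.choose h)).β q else b₁
  have hβ : ∀ q j, q ∈ (c j).F → (c j).β q = β q := by
    intro q j hj
    have h : ∃ j, q ∈ (c j).F := ⟨j, hj⟩
    have hb : β q = (c (Classical.choose h)).β q := dif_pos h
    rw [hb]
    have h1 := (hQ j (max j (Classical.choose h)) (le_max_left _ _)).2.2 q hj
    have h2 := (hQ (Classical.choose h) (max j (Classical.choose h)) (le_max_right _ _)).2.2 q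
      (Classical.choose_spec h)
    exact h1.symm.trans h2
  have hb1 : Orb L C₁ b₁ ⊆ Orb L C b := by
    intro z hz
    obtain ⟨σ, hσ, hσz⟩ := hz
    obtain ⟨ρ, hρ, hρb⟩ := hBs.b1
    refine ⟨σ.comp ρ, fun x hx => ?_, ?_⟩
    · show σ (ρ x) = x
      rw [hρ x hx]
      exact hσ x (hBs.fin.2 hx)
    · show σ (ρ b) = z
      rw [hρb]
      exact hσz
  have hCD : ∀ j, C ⊆ (c j).D := fun j => hBs.fin.2.trans (hC1D j)
  refine ⟨⋃ j, (c j).D, β, ?_, ?_, ?_, ?_, ?_⟩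
  · intro s hs hne
    obtain ⟨B, hB, hBs'⟩ := definable_iff_finitely_definable.1 hs
    obtain ⟨x, hx, hxi⟩ := hdns (B : Set U) s B.finite_toSet hBs' hne
    obtain ⟨j, -, hj⟩ := hfin (B : Set U) B.finite_toSet hB 0
    obtain ⟨j', hj', hej⟩ := he (Sum.inr (Sum.inl (B, x))) j
    have h1 := hcR j'
    rw [hej] at h1
    obtain ⟨z, hz, hzo⟩ := h1 (hj.trans (hD _ _ hj')) hxi
    exact ⟨z, o6 _ _ hBs' x hx hzo, mem_iUnion.2 ⟨j' + 1, hz⟩⟩
  · exact fun x hx => mem_iUnion.2 ⟨0, hx⟩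
  · intro q hq
    obtain ⟨j, hj⟩ := hex q hq
    have hl := (hcP j).1.lab q hj
    rw [hβ q j hj] at hl
    have hqb : β q ∈ Orb L C b := hb1 hl.2.2.2.2
    refine ⟨mem_iUnion.2 ⟨j, hl.1⟩, hqb, ?_⟩
    intro D hDf hDM hCD' haD
    obtain ⟨j', hj', hjD⟩ := hfin D hDf hDM j
    have hqF : q ∈ (c j').F := (hQ j j' hj').2.1 hj
    have h1 := (hcP j').1.pi q hqF
    rw [hβ q j' hqF] at h1
    exact (hpi (c j').D (β q) (hDfin j') (hCD j') (hjD haD) hqb).2.1 D hjD hCD' haD h1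
  · intro q hq q' hq' hlt
    obtain ⟨j, hj⟩ := hex q hq
    obtain ⟨j', hj'⟩ := hex q' hq'
    have h1 := (hQ j (max j j') (le_max_left _ _)).2.1 hj
    have h2 := (hQ j' (max j j') (le_max_right _ _)).2.1 hj'
    have h3 := (hcP (max j j')).1.far q h1 q' h2 hlt
    rw [hβ q _ h1, hβ q' _ h2] at h3
    exact h3
  · intro a haM hab hPM
    by_contra hcon
    push Not at hcon
    obtain ⟨j, hj⟩ := mem_iUnion.1 haM
    obtain ⟨j', hj', hej⟩ := he (Sum.inr (Sum.inr a)) j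
    have h1 := hcR j'
    rw [hej] at h1
    have haj : a ∈ (c j').D := hD _ _ hj' hj
    have hPj : ∀ i, a ∈ (c i).D → PI L C b y n w (c i).D a := fun i hi =>
      hPM (c i).D (hDfin i) (fun x hx => mem_iUnion.2 ⟨i, hx⟩) (hCD i) hi
    refine h1 haj hab (fun q hq hN => ?_) (hPj j' haj) (hPj (j' + 1) (hD _ _ (Nat.le_succ _) haj))
    rw [hβ q j' hq] at hN
    exact hcon q ((hcP j').2 hq) hN

end Pool.Agent.WOM
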