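import Pool.Agent.WOL.StG

/-!
WOL, module gNA (helper23): inner sides over one element of the type.
-/

set_option autoImplicit false
set_option linter.unusedVariables false

namespace Pool.Agent.WOM

open FirstOrder.Language Set
open scoped FirstOrder

/-- the convex equivalence relation of an `A`-definable function with values in the initial segments -/
private theorem gNA_rel (hORB : St_ORB) (hSFX : St_SFX) (hSEZ : St_SEZ)
    (L : FirstOrder.Language.{0, 0}) [∀ n, IsEmpty (L.Functions n)] (U : Type)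
    [S : L.Structure U] [LinearOrder U] (hW : Wn L U) (hSc : ScU L S)
    (A : Set U) (x u : U) (hA : A.Finite) (hu : u ∈ Orb L A x) (hxu : x < u)
    (g : U → Set U) (hg : DF L A g) (hgl : ∀ y, Low (g y)) (hgs : ∀ y, y ∈ g y) (hug : u ∉ g x) :
    {z : U × U | z.1 ∈ Orb L A x ∧ z.2 ∈ Orb L A x ∧
      ((z.1 ≤ z.2 ∧ z.2 ∈ g z.1) ∨ (z.2 ≤ z.1 ∧ z.1 ∈ g z.2))} ∈ EqA L A x := by
  have hord := hW.ord
  have hQin : ∀ σ : U ≃[L] U, Fx L A σ → ∀ x y, y ∈ Orb L A x → σ y ∈ Orb L A x := by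
    rintro σ hσ x y ⟨g, hg, rfl⟩
    exact ⟨σ.comp g, fun b hb => by
      rw [FirstOrder.Language.Equiv.comp_apply, hg b hb, hσ b hb], rfl⟩
  have hinv := (hSFX L U hW.mon).1
  have hbd : ∀ y ∈ Orb L A x, ∃ y' ∈ Orb L A x, y' ∉ g y := by
    rintro y ⟨σ, hσ, rfl⟩
    refine ⟨σ u, hQin σ hσ x u hu, ?_⟩
    rw [hinv A g σ hg hσ x, σ.injective.mem_set_image]
    exact hug
  have hPne : Orb L A x ≠ {x} := by
    intro h
    rw [h] at hu
    exact hxu.ne' hu
  have hEQ : ∀ y ∈ Orb L A x, ∀ w, y ≤ w → w ∈ g y → g w = g y := by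
    intro y hy w hyw hw
    exact hSEZ L U hW hSc true A x g hA hPne hg (fun v => hgl v) hgs hbd y hy w hyw hw
  obtain ⟨E, hEd⟩ : ∃ E : U → U → Prop, E = fun y w =>
    (y ≤ w ∧ w ∈ g y) ∨ (w ≤ y ∧ y ∈ g w) := ⟨_, rfl⟩
  have hEdef : A.Definable L {w : Fin 2 → U | E (w 0) (w 1)} := by
    rw [hEd]
    exact Dx.or (Dx.and (Dx.le hord A 0 1) (Dx.rel (R := fun y w => w ∈ g y) hg 0 1))
      (Dx.and (Dx.le hord A 1 0) (Dx.rel (R := fun y w => w ∈ g y) hg 1 0))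
  have hEeq : ∀ y ∈ Orb L A x, ∀ w ∈ Orb L A x, E y w ↔ g y = g w := by
    intro y hy w hw
    rw [hEd]
    constructor
    · rintro (⟨h1, h2⟩ | ⟨h1, h2⟩)
      · exact (hEQ y hy w h1 h2).symm
      · exact hEQ w hw y h1 h2
    · intro h
      rcases le_total y w with h1 | h1
      · refine Or.inl ⟨h1, ?_⟩
        rw [h]
        exact hgs w
      · refine Or.inr ⟨h1, ?_⟩
        rw [← h]
        exact hgs y
  have hCv : CvO (Orb L A x) E := by
    refine ⟨?_, ?_, ?_, ?_⟩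
    · intro y hy
      exact (hEeq y hy y hy).2 rfl
    · intro y hy w hw h
      exact (hEeq w hw y hy).2 ((hEeq y hy w hw).1 h).symm
    · intro y hy w hw v hv h h'
      exact (hEeq y hy v hv).2 (((hEeq y hy w hw).1 h).trans ((hEeq w hw v hv).1 h'))
    · intro y hy w hw v hv hyw hwv h
      have h1 := (hEeq y hy v hv).1 h
      have h2 : w ∈ g y := by
        rw [h1]
        exact hgl v v (hgs v) w hwv.le
      rw [hEd]
      exact Or.inl ⟨hyw.le, h2⟩
  refine ⟨E, hEdef, hCv, ?_⟩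
  rw [hEd]

/-- the statement for the side `true` -/
private theorem gNA_true (hORB : St_ORB) (hCNV : St_nCNV) (hSFX : St_SFX)
    (hSDF : St_SDF) (hSCUT : St_SCUT) (hSEZ : St_SEZ)
    (L : FirstOrder.Language.{0, 0}) [∀ n, IsEmpty (L.Functions n)] (U : Type)
    [S : L.Structure U] [LinearOrder U] (hW : Wn L U) (hSc : ScU L S) (hAC : ACC L U)
    (A : Set U) (x u : U) (hA : A.Finite) (hu : u ∈ Orb L A x) (hxu : x < u) :
    (insert x A).Definable₁ L (Cls false (Orb L (insert x A) u)) := by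
  have hord := hW.ord
  obtain ⟨o1, o2, o3, -, o5, o6, -⟩ := hORB L U hW.mon
  have hconv := (hCNV L U hW).2
  have hxO : x ∉ Orb L (insert x A) u := by
    intro h
    have h1 := o2 _ _ _ h
    have h2 : u ∈ Orb L (insert x A) x := by rw [h1]; exact o1 _ u
    rw [o5 _ _ (mem_insert x A)] at h2
    exact hxu.ne' h2
  have hxlt : ∀ o ∈ Orb L (insert x A) u, x < o := by
    intro o ho
    by_contra h
    have h1 : o ≤ x := not_lt.1 h
    exact hxO ((hconv (insert x A) u (hA.insert x)).1.out ho (o1 _ u) ⟨h1, hxu.le⟩)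
  obtain ⟨c, hc⟩ : ∃ c : Set U, c = {z | ∀ o ∈ Orb L (insert x A) u, z < o} := ⟨_, rfl⟩
  have hcc : Cls false (Orb L (insert x A) u) = cᶜ := by
    ext z
    rw [hc]
    simp only [Cls, leS, mem_setOf_eq, mem_compl_iff, not_forall, not_lt, exists_prop,
      Bool.false_eq_true, if_false]
  rw [hcc]
  by_contra hnd
  have hnd' : ¬ (insert x A).Definable₁ L c := by
    intro h
    exact hnd (Set.Definable.compl h)
  have huc : u ∉ c := by
    rw [hc]
    intro h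
    exact lt_irrefl _ (h u (o1 _ u))
  have hcl : Low c := by
    rw [hc]
    intro y hy z hz o ho
    exact lt_of_le_of_lt hz (hy o ho)
  have hxc : x ∈ c := by
    rw [hc]
    exact hxlt
  -- (1)
  have h1 : ∀ z ∈ c, ∃ K : Set U, (insert x A).Definable₁ L K ∧ Low K ∧ K ⊆ c ∧ x ∈ K ∧ z ∈ K := by
    intro z hz
    obtain ⟨-, -, -, -, -, -, s7, -⟩ := hSDF L U hord
    rcases le_or_gt z x with hzx | hxz
    · refine ⟨Iic x, (s7 (insert x A) x (mem_insert x A)).1, ?_, ?_, le_refl x, hzx⟩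
      · intro y hy w hw
        exact le_trans hw hy
      · intro y hy
        exact hcl x hxc y hy
    · have hzu : z < u := by
        rw [hc] at hz
        exact hz u (o1 _ u)
      have huz : u ∉ Orb L (insert x A) z := by
        intro h
        have h2 := o2 _ _ _ h
        have h3 : z ∈ Orb L (insert x A) u := by rw [h2]; exact o1 _ z
        rw [hc] at hz
        exact lt_irrefl _ (hz z h3)
      obtain ⟨K, hK, hKl, hzK, huK⟩ := hSCUT L U hW (insert x A) z u (hA.insert x) hzu huz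
      refine ⟨K, hK, hKl, ?_, hKl z hzK x hxz.le, hzK⟩
      intro k hk
      rw [hc]
      intro o ho
      by_contra hlt
      have h4 : o ∈ K := hKl k hk o (not_lt.1 hlt)
      have h5 := o6 _ K hK o h4
      rw [o2 _ _ _ ho] at h5
      exact huK (h5 (o1 _ u))
  -- the sequence
  have hnext : ∀ K : {K : Set U // (insert x A).Definable₁ L K ∧ Low K ∧ K ⊆ c ∧ x ∈ K},
      ∃ K' : {K : Set U // (insert x A).Definable₁ L K ∧ Low K ∧ K ⊆ c ∧ x ∈ K},
        K.1 ⊆ K'.1 ∧ ∃ z ∈ K'.1, z ∉ K.1 := by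
    rintro ⟨K, hK, hKl, hKc, hxK⟩
    have h2 : ∃ z ∈ c, z ∉ K := by
      by_contra h
      have h3 : K = c := by
        apply subset_antisymm hKc
        intro z hz
        by_contra h4
        exact h ⟨z, hz, h4⟩
      exact hnd' (h3 ▸ hK)
    obtain ⟨z, hz, hzK⟩ := h2
    obtain ⟨K', hK', hKl', hKc', hxK', hzK'⟩ := h1 z hz
    refine ⟨⟨K', hK', hKl', hKc', hxK'⟩, ?_, z, hzK', hzK⟩
    intro k hk
    have h5 : k ≤ z := by
      by_contra h6
      exact hzK (hKl k hk z (not_le.1 h6).le)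
    exact hKl' z hzK' k h5
  obtain ⟨K0, hK0, hKl0, hKc0, hxK0, -⟩ := h1 x hxc
  choose nx hnx1 hnx2 using hnext
  obtain ⟨Ks, hKs0, hKss⟩ : ∃ Ks : ℕ → {K : Set U // (insert x A).Definable₁ L K ∧ Low K ∧ K ⊆ c ∧ x ∈ K},
      Ks 0 = ⟨K0, hK0, hKl0, hKc0, hxK0⟩ ∧ ∀ n, Ks (n + 1) = nx (Ks n) :=
    ⟨fun n => Nat.rec ⟨K0, hK0, hKl0, hKc0, hxK0⟩ (fun _ K => nx K) n, rfl, fun n => rfl⟩
  obtain ⟨-, -, -, -, -, -, -, s8⟩ := hSDF L U hord
  have hgex : ∀ n, ∃ g : U → Set U, DF L A g ∧ (∀ y, Low (g y)) ∧ (∀ y, y ∈ g y) ∧ g x = (Ks n).1 := by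
    intro n
    obtain ⟨h2, h3, h4, h5⟩ := (Ks n).2
    exact s8 A x (Ks n).1 h2 h3 h5
  choose g hg hgl hgs hgx using hgex
  have hug : ∀ n, u ∉ g n x := by
    intro n h
    rw [hgx n] at h
    exact huc ((Ks n).2.2.2.1 h)
  have hinv := (hSFX L U hW.mon).1
  have hmono : ∀ n, ∀ y ∈ Orb L A x, g n y ⊆ g (n + 1) y := by
    rintro n y ⟨σ, hσ, rfl⟩
    rw [hinv A (g n) σ (hg n) hσ x, hinv A (g (n + 1)) σ (hg (n + 1)) hσ x, hgx n, hgx (n + 1)]
    apply image_mono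
    rw [hKss n]
    exact hnx1 (Ks n)
  obtain ⟨R, hR⟩ : ∃ R : ℕ → Set (U × U), R = fun n => {z : U × U | z.1 ∈ Orb L A x ∧
      z.2 ∈ Orb L A x ∧ ((z.1 ≤ z.2 ∧ z.2 ∈ g n z.1) ∨ (z.2 ≤ z.1 ∧ z.1 ∈ g n z.2))} := ⟨_, rfl⟩
  have hRE : ∀ n, R n ∈ EqA L A x := by
    intro n
    rw [hR]
    exact gNA_rel hORB hSFX hSEZ L U hW hSc A x u hA hu hxu (g n) (hg n) (hgl n) (hgs n) (hug n)
  have hRm : ∀ n, R n ⊆ R (n + 1) := by
    intro n z hz
    rw [hR] at hz ⊢
    obtain ⟨h2, h3, h4⟩ := hz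
    refine ⟨h2, h3, ?_⟩
    rcases h4 with ⟨h5, h6⟩ | ⟨h5, h6⟩
    · exact Or.inl ⟨h5, hmono n _ h2 h6⟩
    · exact Or.inr ⟨h5, hmono n _ h3 h6⟩
  obtain ⟨n, hn⟩ := hAC A x hA R hRE hRm
  obtain ⟨z, hz, hzn⟩ := hnx2 (Ks n)
  rw [← hKss n] at hz
  have hzc : z ∈ c := (Ks (n + 1)).2.2.2.1 hz
  have hzu : z < u := by
    rw [hc] at hzc
    exact hzc u (o1 _ u)
  have hxz : x < z := by
    by_contra h
    exact hzn ((Ks n).2.2.1 x (Ks n).2.2.2.2 z (not_lt.1 h))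
  have hzP : z ∈ Orb L A x := (hconv A x hA).1.out (o1 A x) hu ⟨hxz.le, hzu.le⟩
  have h7 : (x, z) ∈ R (n + 1) := by
    rw [hR]
    refine ⟨o1 A x, hzP, Or.inl ⟨hxz.le, ?_⟩⟩
    show z ∈ g (n + 1) x
    rw [hgx (n + 1)]
    exact hz
  rw [hn, hR] at h7
  obtain ⟨-, -, h8⟩ := h7
  rcases h8 with ⟨-, h9⟩ | ⟨h9, -⟩
  · have h10 : z ∈ g n x := h9
    rw [hgx n] at h10
    exact hzn h10
  · exact absurd hxz (not_lt.2 h9)

private theorem gNA_cv {U : Type} [LinearOrder U] (P : Set U) (E : U → U → Prop) :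
    @CvO U (dO U) P E ↔ CvO P E := by
  constructor
  · rintro ⟨h1, h2, h3, h4⟩
    refine ⟨h1, h2, h3, fun x hx y hy w hw hxy hyw hE => ?_⟩
    have h5 : E w y := h4 w hw y hy x hx hyw hxy (h2 x hx w hw hE)
    exact h3 x hx w hw y hy hE h5
  · rintro ⟨h1, h2, h3, h4⟩
    refine ⟨h1, h2, h3, fun x hx y hy w hw hxy hyw hE => ?_⟩
    have h5 : E w y := h4 w hw y hy x hx hyw hxy (h2 x hx w hw hE)
    exact h3 x hx w hw y hy hE h5

private theorem gNA_eq (L : FirstOrder.Language.{0, 0}) {U : Type} [S : L.Structure U]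
    [LinearOrder U] (A : Set U) (x : U) : @EqA L U S (dO U) A x = EqA L A x := by
  ext R
  constructor
  · rintro ⟨E, h1, h2, h3⟩
    exact ⟨E, h1, (gNA_cv _ E).1 h2, h3⟩
  · rintro ⟨E, h1, h2, h3⟩
    exact ⟨E, h1, (gNA_cv _ E).2 h2, h3⟩

private theorem gNA_acc (L : FirstOrder.Language.{0, 0}) {U : Type} [S : L.Structure U]
    [LinearOrder U] (h : ACC L U) : @ACC L U S (dO U) := by
  intro A a hA R hR hm
  exact h A a hA R (fun n => by rw [← gNA_eq]; exact hR n) hm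

theorem thm_gNA (hORB : St_ORB) (hCNV : St_nCNV) (hSFX : St_SFX)
    (hSDF : St_SDF) (hSDL : St_SDL) (hSCUT : St_SCUT) (hSEZ : St_SEZ) : St_gNA := by
  intro L _ U S _ hW hSc hAC A x u t hA hu hne hxu
  cases t with
  | true =>
    have h1 : x ≤ u := by
      simpa [leS] using hxu
    exact gNA_true hORB hCNV hSFX hSDF hSCUT hSEZ L U hW hSc hAC A x u hA hu
      (lt_of_le_of_ne h1 (Ne.symm hne))
  | false =>
    have h1 : u ≤ x := by
      simpa [leS] using hxu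
    have h2 : u < x := lt_of_le_of_ne h1 hne
    obtain ⟨hW', hle, -⟩ := hSDL L U hW
    have h3 := @gNA_true hORB hCNV hSFX hSDF hSCUT hSEZ L _ U S (dO U) hW' hSc (gNA_acc L hAC) A x u hA
      hu h2
    have h4 : @Cls U (dO U) false (Orb L (insert x A) u) = Cls true (Orb L (insert x A) u) := by
      ext z
      constructor
      · rintro ⟨v, hv, h⟩
        exact ⟨v, hv, (hle false z v).1 h⟩
      · rintro ⟨v, hv, h⟩
        exact ⟨v, hv, (hle false z v).2 h⟩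
    rw [h4] at h3
    exact h3

end Pool.Agent.WOM
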