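import Pool.Agent.WOL.StG

/-!
Module gNI of WOL: inner sides over arbitrary finite sets.
-/

set_option autoImplicit false
set_option linter.unusedVariables false

namespace Pool.Agent.WOM

open FirstOrder.Language Set
open scoped FirstOrder

theorem thm_gNI (hORB : St_ORB) (hGER : St_nGER) (hSDI : St_nSDI)
    (hNB : St_gNB) : St_gNI := by
  intro L _ U S _ hW hScU hACC A B z u t hAB hB hu
  have hA : A.Finite := hB.subset hAB
  obtain ⟨_, o2, _⟩ := hORB L U hW.mon
  obtain ⟨g1, g2, _, _, _, g6, _⟩ := hGER L U hW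
  obtain ⟨_, _, s3, _⟩ := hSDI L U hW
  have key : ∀ D : Set U, D.Finite → ∀ u, u ∈ Ge L A z t (A ∪ D) →
      Orb L (A ∪ D) u = Orb L A z ∨ SD L (A ∪ D) u (!t) := by
    intro D hD
    induction D, hD using Set.Finite.induction_on with
    | empty =>
      intro u hu
      rw [Set.union_empty] at hu ⊢
      rw [g6] at hu
      exact Or.inl (o2 A z u hu)
    | @insert x D hx hD ih =>
      intro u hu
      have hBf : (A ∪ D).Finite := hA.union hD
      have hCf : (insert x (A ∪ D)).Finite := hBf.insert x
      have hins : A ∪ insert x D = insert x (A ∪ D) := Set.union_insert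
      rw [hins] at hu ⊢
      have hAB' : A ⊆ A ∪ D := Set.subset_union_left
      have hBC : A ∪ D ⊆ insert x (A ∪ D) := Set.subset_insert _ _
      have hu' : u ∈ Ge L A z t (A ∪ D) := g2 A (A ∪ D) (insert x (A ∪ D)) z t hAB' hBC hCf hu
      have hu2 : u ∈ Ge L (A ∪ D) u t (insert x (A ∪ D)) := by
        rw [g1 A (A ∪ D) (insert x (A ∪ D)) z u t hAB' hBC hCf hu']
        exact hu
      by_cases hN : Nn L (A ∪ D) x u
      · exact Or.inr (hNB L U hW hScU hACC (A ∪ D) x u u t hBf hN hu2)
      · have hO : Orb L (insert x (A ∪ D)) u = Orb L (A ∪ D) u := by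
          by_contra h
          exact hN h
        rcases ih u hu' with h | h
        · exact Or.inl (hO.trans h)
        · exact Or.inr (((s3 (A ∪ D) (insert x (A ∪ D)) u hBC hCf hO).2 (!t)).2 h)
  have h := key B hB u
  rw [Set.union_eq_self_of_subset_left hAB] at h
  exact h hu

end Pool.Agent.WOM
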