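import Pool.Agent.WOL.StG2

/-!
WOL, T7-ACC (helper8), supplement to StG3.lean: coherence for far elements, sub-chains of atomic sets.
Conventions and (PS) of StG3.lean.
-/

set_option autoImplicit false
set_option linter.unusedVariables false

namespace Pool.Agent.WOM

open FirstOrder.Language Set
open scoped FirstOrder

/-- [gCX] coherence for far elements (gCO is the case `σ b = b`).  PROOF.  `B = BB C b y n`, `E₀ = B ∪ σB`.  `ρ` (over `C`, `ρ b = b`) far over `E₀` (gFC 1 for `id`), `ρ'` (over `C`, `ρ' b = σ b`) far over `E₁ = E₀ ∪ ρB` (gFC 1 for `σ`), `E = E₁ ∪ ρ'B`.  Over `E` (PS; all germs are one-sided): `B` and `ρB` are linked (`Cod.ct`),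
`σB` and `ρ'B` (`Cod.ct` for `σ⁻¹ ρ'`, moved by `σ`: nGER 5, NSB 3), `ρB` and `ρ'B` (gJM: `LG b (σ b)`, or `LG (σ b) b` and gLG 3; the conditions `Fc` by gFC 3).  nTRA: `Nn E u u'` for `u ∈ Ge B w t E`, `u' ∈ Ge (σB) (σ w) t E`.  `Atm E₀ E` (gFC 6 twice; `b`, `σ b`, `C ⊆ E₀`); `u`, `u'` are not isolated (nSDI 2, 1): gIS 3: `Nn E₀ u u'`;
`u ∈ Ge B w t E₀` (nGER 2), nGEX, NSB 2. -/
def St_gCX : Prop :=
  ∀ (L : FirstOrder.Language.{0, 0}) [∀ n, IsEmpty (L.Functions n)] (U : Type)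
    [S : L.Structure U] [LinearOrder U], Wn L U → ScU L S → NI L U →
    ∀ (C : Set U) (b : U) (y : ℕ → U) (n : ℕ) (w : U) (t : Bool), Cod L C b y n w t →
      SD L (BB C b y n) w (!t) → ∀ σ : U ≃[L] U, Fx L C σ → (Far L C b (σ b) ∨ Far L C (σ b) b) →
        Lk L (BB C b y n) w t σ

/-- [gSU] parts of atomic sets.  PROOF.  Induction on `Atm A E`; step `E = insert e E₀`, `Isd E₀ e`, `A ⊆ B ⊆ E`.  `B₀ = B ∩ E₀` (`A ⊆ E₀`, SAT 1): `Atm A B₀`, `Atm B₀ E₀`.  If `e ∉ B` or `e ∈ E₀`: `B = B₀`.  Otherwise `B = insert e B₀`; `Isd B₀ e` (otherwise `Orb E₀ e = Orb B₀ e` by SAT 2, nSDI 3: `¬ Isd E₀ e`): `Atm A B`.  gEX 3: `E₀ = Bn B₀ x n`; gEX 1 for `z 0 = e`, `m = 1`: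
`Ch (Bn B₀ z 1) x n`, gEX 2: `Atm B E`. -/
def St_gSU : Prop :=
  ∀ (L : FirstOrder.Language.{0, 0}) (U : Type) [L.Structure U] [LinearOrder U], Wn L U → TRV L U →
    ∀ A B E : Set U, A.Finite → Atm L A E → A ⊆ B → B ⊆ E → Atm L A B ∧ Atm L B E

end Pool.Agent.WOM
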