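import Pool.Agent.WOL.StG3
import Pool.Agent.WOL.StG4

/-!
WOL, gOK: every germ is linked to a germ over an atomic set.
-/

set_option autoImplicit false
set_option linter.unusedVariables false

namespace Pool.Agent.WOM

open FirstOrder.Language Set
open scoped FirstOrder

private lemma gOK_trans (L : FirstOrder.Language.{0, 0}) (U : Type) [L.Structure U] {A B E : Set U}
    (h : Atm L A B) (h' : Atm L B E) : Atm L A E := by
  induction h' with
  | base => exact h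
  | step D y _ hy ih => exact Atm.step D y ih hy

private lemma gOK_map (hSDI : St_nSDI) (L : FirstOrder.Language.{0, 0}) (U : Type) [L.Structure U]
    [LinearOrder U] (hW : Wn L U) (σ : U ≃[L] U) {A B : Set U} (h : Atm L A B) :
    Atm L (σ '' A) (σ '' B) := by
  induction h with
  | base => exact Atm.base
  | step D y _ hy ih =>
    rw [image_insert_eq]
    exact Atm.step _ _ ih (((hSDI L U hW).2.2.2.1 σ D y).1.2 hy)

/-- links over `E` -/
private def gOKl (L : FirstOrder.Language.{0, 0}) {U : Type} [L.Structure U] [LinearOrder U]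
    (B : Set U) (w : U) (t : Bool) (D : Set U) (v : U) (t' : Bool) (E : Set U) : Prop :=
  ∀ u ∈ Ge L B w t E, ∀ u' ∈ Ge L D v t' E, Nn L E u u'

private lemma gOK_up (hORB : St_ORB) (hGEX : St_nGEX) (hGER : St_nGER) (hSDI : St_nSDI)
    (hPN : St_gPN) (L : FirstOrder.Language.{0, 0}) (U : Type) [L.Structure U] [LinearOrder U]
    (hW : Wn L U) (hNI : NI L U) (B D F E : Set U) (w v : U) (t t' : Bool) (hBF : B ⊆ F)
    (hDF : D ⊆ F) (hFE : F ⊆ E) (hE : E.Finite) (hs : SD L B w (!t)) (hns : ¬ SD L B w t)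
    (hv : ¬ SD L D v t') (hl : gOKl L B w t D v t' F) : gOKl L B w t D v t' E := by
  have hF : F.Finite := hE.subset hFE
  have gex := hGEX L U hW
  obtain ⟨g1, -⟩ := hGER L U hW
  obtain ⟨-, s2, s3, -⟩ := hSDI L U hW
  obtain ⟨-, o2, -⟩ := hORB L U hW.mon
  obtain ⟨u₁, hu₁⟩ := (gex B F w t hBF hF).1
  obtain ⟨v₁, hv₁⟩ := (gex D F v t' hDF hF).1
  have h1 := hl u₁ hu₁ v₁ hv₁
  have h2 : SD L F u₁ (!t) := by
    rcases hNI B F w u₁ t hBF hF hu₁ with h | h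
    · have h3 : Orb L B u₁ = Orb L B w := o2 _ _ _ hu₁.1
      refine ((s3 B F u₁ hBF hF (h.trans h3.symm)).2 (!t)).2 ?_
      unfold SD
      rw [h3]
      exact hs
    · exact h
  have h3 : ¬ SD L F v₁ t' := fun h => hv ((s2 D F v v₁ t' hDF hF hv₁).1 h)
  intro u hu u' hu'
  refine (hPN L U hW).2.1 F E u₁ v₁ u u' t t' hFE hE h1 h2 h3 ?_ ?_
  · rw [g1 B F E w u₁ t hBF hFE hE hu₁]
    exact hu
  · rw [g1 D F E v v₁ t' hDF hFE hE hv₁]
    exact hu'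

private lemma gOK_down (hORB : St_ORB) (hNSB : St_NSB) (hGEX : St_nGEX) (hGER : St_nGER)
    (hSDI : St_nSDI) (hIS : St_gIS) (L : FirstOrder.Language.{0, 0}) (U : Type) [L.Structure U]
    [LinearOrder U] (hW : Wn L U) (hT : TRV L U) (B D F E : Set U) (w v : U) (t t' : Bool)
    (hBF : B ⊆ F) (hDF : D ⊆ F) (hFE : F ⊆ E) (hE : E.Finite) (hns : ¬ SD L B w t)
    (hv : ¬ SD L D v t') (ha : Atm L F E) (hl : gOKl L B w t D v t' E) :
    gOKl L B w t D v t' F := by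
  have hF : F.Finite := hE.subset hFE
  have gex := hGEX L U hW
  obtain ⟨-, g2, -⟩ := hGER L U hW
  obtain ⟨s1, s2, -⟩ := hSDI L U hW
  obtain ⟨-, n2, -⟩ := hNSB L U
  obtain ⟨u₁, hu₁⟩ := (gex B E w t (hBF.trans hFE) hE).1
  obtain ⟨v₁, hv₁⟩ := (gex D E v t' (hDF.trans hFE) hE).1
  have hu₁F := g2 B F E w t hBF hFE hE hu₁
  have hv₁F := g2 D F E v t' hDF hFE hE hv₁
  have hni : ∀ (x : U) (s : Bool), ¬ SD L F x s → ¬ Isd L F x := by
    intro x s hx h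
    have h1 := (s1 F x hF).1 h
    cases s
    · exact hx h1.2
    · exact hx h1.1
  have h1 : Nn L F u₁ v₁ := (hIS L U hW hT).2.2.1 F E u₁ v₁ hF ha
    (hni u₁ t fun h => hns ((s2 B F w u₁ t hBF hF hu₁F).1 h))
    (hni v₁ t' fun h => hv ((s2 D F v v₁ t' hDF hF hv₁F).1 h)) (hl u₁ hu₁ v₁ hv₁)
  intro u hu u' hu'
  refine n2 F u₁ v₁ u u' ?_ ?_ h1
  · rw [← (gex B F w t hBF hF).2 u₁ hu₁F]
    exact hu
  · rw [← (gex D F v t' hDF hF).2 v₁ hv₁F]
    exact hu'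

/-- [gOK] -/
theorem thm_gOK (hORB : St_ORB) (hNSB : St_NSB) (hGEX : St_nGEX) (hGER : St_nGER)
    (hTRA : St_nTRA) (hSDI : St_nSDI) (hSAT : St_SAT) (hTR : St_fTR) (hIS : St_gIS)
    (hPN : St_gPN) (hFC : St_gFC) (hEX : St_gEX) (hSU : St_gSU) (hTW : St_gTW) (hVI : St_gVI) :
    St_gOK := by
  intro L _ U _ _ hW hSc hNA hNI A B w t hA hAB hwt
  have hT : TRV L U := hTR L U hW hSc
  have gex := hGEX L U hW
  obtain ⟨g1, g2, g3, g4, g5, g6, -⟩ := hGER L U hW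
  obtain ⟨s1, s2, s3, s4, s5⟩ := hSDI L U hW
  obtain ⟨o1, o2, o3, -⟩ := hORB L U hW.mon
  obtain ⟨n1, n2, n3, n4, -⟩ := hNSB L U
  have sat := hSAT L U hW
  have tw : ∀ (B : Set U) (w : U) (t : Bool), B.Finite → ¬ SD L B w t → ¬ SD L B w (!t) →
      Orb L B w = Orb L ∅ w := by
    intro B w t hB h1 h2
    cases t
    · exact hTW L U hW hSc hNA hNI B w hB h2 h1
    · exact hTW L U hW hSc hNA hNI B w hB h1 h2
  have hself : ∀ (B : Set U) (w : U) (t : Bool), B.Finite → ¬ SD L B w t →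
      ∀ u ∈ Orb L B w, ∀ u' ∈ Orb L B w, Nn L B u u' := fun B w t hB h u hu u' hu' =>
    n2 B w w u u' hu hu' ((n4 B w).2 (s5 B w t hB h))
  induction A, hA using Set.Finite.induction_on generalizing B w t with
  | empty =>
    have hBf := (sat ∅ finite_empty B hAB).1.1
    refine ⟨B, w, t, hAB, ?_, hwt, ?_⟩
    · rw [union_self]
      exact Atm.base
    · rw [union_self, g6]
      exact hself B w t hBf hwt
  | @insert b A' hbA hA' ih =>
    by_cases hb : Isd L A' b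
    · exact ih B w t (gOK_trans L U (Atm.step A' b Atm.base hb) hAB) hwt
    have hBf := (sat (insert b A') (hA'.insert b) B hAB).1.1
    by_cases hw2 : SD L B w (!t)
    swap
    · -- two-sided
      have h1 := tw B w t hBf hwt hw2
      refine ⟨∅, w, t, Atm.base, ?_, ?_, ?_⟩
      · rw [union_empty]
        exact Atm.base
      · exact fun h => hwt (((s3 ∅ B w (empty_subset B) hBf h1).2 t).2 h)
      · rw [union_empty, ← g3 ∅ B B w t (empty_subset B) subset_rfl hBf h1, g6]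
        exact hself B w t hBf hwt
    -- one-sided
    obtain ⟨y, n, hch, hBe⟩ := (hEX L U hW hT).2.2 (insert b A') B hAB
    obtain ⟨D₁, v₁, t₁, hAD₁, hBD₁, hv₁, hl₁⟩ := hVI L U hW hSc hNA hNI A' b y n w t hA' hb hch
      (by
        intro h
        apply hwt
        rw [hBe]
        exact h)
    have hBB : BB A' b y n = B := hBe.symm
    rw [hBB] at hBD₁ hl₁
    have hl₁' : gOKl L B w t D₁ v₁ t₁ (B ∪ D₁) := hl₁
    have hD₁f := (sat A' hA' D₁ hAD₁).1.1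
    have hE₁f : (B ∪ D₁).Finite := hBf.union hD₁f
    by_cases hv2 : SD L D₁ v₁ (!t₁)
    swap
    · -- `v₁` is two-sided
      have h1 := tw D₁ v₁ t₁ hD₁f hv₁ hv2
      have hve : ¬ SD L ∅ v₁ t₁ := fun h =>
        hv₁ (((s3 ∅ D₁ v₁ (empty_subset D₁) hD₁f h1).2 t₁).2 h)
      have hl₂ : gOKl L B w t ∅ v₁ t₁ (B ∪ D₁) := by
        intro u hu u' hu'
        refine hl₁' u hu u' ?_
        rw [g3 ∅ D₁ (B ∪ D₁) v₁ t₁ (empty_subset _) subset_union_right hE₁f h1]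
        exact hu'
      have hl₃ := gOK_down hORB hNSB hGEX hGER hSDI hIS L U hW hT B ∅ B (B ∪ D₁) w v₁ t t₁
        subset_rfl (empty_subset B) subset_union_left hE₁f hwt hve hBD₁ hl₂
      refine ⟨∅, v₁, t₁, Atm.base, ?_, hve, ?_⟩
      · rw [union_empty]
        exact Atm.base
      · rw [union_empty]
        exact hl₃
    -- `v₁` is one-sided
    obtain ⟨D₂, v₂, t₂, hD₂, hD₁₂, hv₂, hl₂⟩ := ih D₁ v₁ t₁ hAD₁ hv₁
    have hl₂' : gOKl L D₁ v₁ t₁ D₂ v₂ t₂ (D₁ ∪ D₂) := hl₂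
    obtain ⟨z, k, hchz, hz⟩ := (hEX L U hW hT).2.2 D₁ (D₁ ∪ D₂) hD₁₂
    obtain ⟨f1, -, -, -, -, f6⟩ := hFC L U hW hT D₁ D₁ z k hD₁f subset_rfl
    obtain ⟨σ, hσ, hσA⟩ := f1 (B ∪ D₁) (FirstOrder.Language.Equiv.refl L U) hE₁f
      (fun _ _ => rfl)
    have hσ₁ : σ '' D₁ = D₁ := by
      ext x
      constructor
      · rintro ⟨a, ha, rfl⟩
        rw [hσ.fx a ha]
        exact ha
      · intro hx
        exact ⟨x, hx, hσ.fx x hx⟩
    have hσ₂ : σ '' (D₁ ∪ D₂) = D₁ ∪ σ '' D₂ := by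
      rw [image_union, hσ₁]
    set E : Set U := (B ∪ D₁) ∪ σ '' D₂ with hE
    have hD₂f := (sat ∅ finite_empty D₂ hD₂).1.1
    have hEf : E.Finite := hE₁f.union (hD₂f.image σ)
    have hE₁E : B ∪ D₁ ⊆ E := subset_union_left
    have hBE : B ⊆ E := subset_union_left.trans hE₁E
    have hD₁E : D₁ ⊆ E := subset_union_right.trans hE₁E
    have hσE : σ '' D₂ ⊆ E := subset_union_right
    have hatE : Atm L (B ∪ D₁) E := by
      have h1 := f6 hNI hchz (B ∪ D₁) σ hE₁f (by rw [hσ₁]; exact subset_union_right) hσ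
      rw [← hz, hσ₂] at h1
      have h2 : B ∪ D₁ ∪ (D₁ ∪ σ '' D₂) = E := by
        rw [hE, ← union_assoc, union_assoc B D₁ D₁, union_self]
      rw [h2] at h1
      exact h1
    have hatB : Atm L B E := gOK_trans L U hBD₁ hatE
    obtain ⟨hat1, hat2⟩ := hSU L U hW hT B (B ∪ σ '' D₂) E hBf hatB subset_union_left
      (union_subset hBE hσE)
    -- the second link moved by `σ`
    have hl₃ : gOKl L D₁ v₁ t₁ (σ '' D₂) (σ v₂) t₂ (D₁ ∪ σ '' D₂) := by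
      have e1 : Ge L D₁ v₁ t₁ (D₁ ∪ σ '' D₂) = σ '' Ge L D₁ v₁ t₁ (D₁ ∪ D₂) := by
        have h1 := g5 σ D₁ (D₁ ∪ D₂) v₁ t₁
        rw [hσ₁, hσ₂] at h1
        rw [← h1]
        exact (g4 D₁ (D₁ ∪ σ '' D₂) v₁ (σ v₁) t₁ ⟨σ, hσ.fx, rfl⟩).symm
      have e2 : Ge L (σ '' D₂) (σ v₂) t₂ (D₁ ∪ σ '' D₂) = σ '' Ge L D₂ v₂ t₂ (D₁ ∪ D₂) := by
        have h1 := g5 σ D₂ (D₁ ∪ D₂) v₂ t₂
        rw [hσ₂] at h1
        exact h1
      intro u hu u' hu'
      rw [e1] at hu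
      rw [e2] at hu'
      obtain ⟨a, ha, rfl⟩ := hu
      obtain ⟨a', ha', rfl⟩ := hu'
      have h1 := n3 σ _ _ _ (hl₂' a ha a' ha')
      rw [hσ₂] at h1
      exact h1
    have hσv₂ : ¬ SD L (σ '' D₂) (σ v₂) t₂ := fun h => hv₂ (((s4 σ D₂ v₂).2 t₂).1 h)
    have hlE₁ : gOKl L B w t D₁ v₁ t₁ E := gOK_up hORB hGEX hGER hSDI hPN L U hW hNI B D₁
      (B ∪ D₁) E w v₁ t t₁ subset_union_left subset_union_right hE₁E hEf hw2 hwt hv₁ hl₁'
    have hlE₂ : gOKl L D₁ v₁ t₁ (σ '' D₂) (σ v₂) t₂ E := gOK_up hORB hGEX hGER hSDI hPN L U hW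
      hNI D₁ (σ '' D₂) (D₁ ∪ σ '' D₂) E v₁ (σ v₂) t₁ t₂ subset_union_left subset_union_right
      (union_subset hD₁E hσE) hEf hv2 hv₁ hσv₂ hl₃
    have hlE₃ : gOKl L B w t (σ '' D₂) (σ v₂) t₂ E := by
      intro u hu u' hu'
      obtain ⟨m, hm⟩ := (gex D₁ E v₁ t₁ hD₁E hEf).1
      exact hTRA L U hW E u m u' hEf (hlE₁ u hu m hm) (hlE₂ m hm u' hu')
    have hfin := gOK_down hORB hNSB hGEX hGER hSDI hIS L U hW hT B (σ '' D₂) (B ∪ σ '' D₂) E w
      (σ v₂) t t₂ subset_union_left subset_union_right (union_subset hBE hσE) hEf hwt hσv₂ hat2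
      hlE₃
    refine ⟨σ '' D₂, σ v₂, t₂, ?_, hat1, hσv₂, hfin⟩
    have h1 := gOK_map hSDI L U hW σ hD₂
    rw [image_empty] at h1
    exact h1

end Pool.Agent.WOM
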