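import Pool.Agent.WOL.StG2

/-!
WOL gPI: the predicate `PI` (statement and proof: helper34; Lean: helper57).
-/

set_option autoImplicit false
set_option linter.unusedVariables false

namespace Pool.Agent.WOM

open FirstOrder.Language Set
open scoped FirstOrder

private theorem gPI_img {L : FirstOrder.Language.{0, 0}} {U : Type} [L.Structure U]
    (τ σ : U ≃[L] U) (X : Set U) : (τ.comp σ) '' X = τ '' (σ '' X) := by
  ext x
  constructor
  · rintro ⟨z, hz, rfl⟩
    exact ⟨σ z, ⟨z, hz, rfl⟩, rfl⟩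
  · rintro ⟨_, ⟨z, hz, rfl⟩, rfl⟩
    exact ⟨z, hz, rfl⟩

private theorem gPI_symm_img {L : FirstOrder.Language.{0, 0}} {U : Type} [L.Structure U]
    (τ : U ≃[L] U) (X : Set U) : τ.symm '' (τ '' X) = X := by
  ext x
  constructor
  · rintro ⟨_, ⟨z, hz, rfl⟩, rfl⟩
    rw [τ.symm_apply_apply]
    exact hz
  · intro hx
    exact ⟨τ x, ⟨x, hx, rfl⟩, τ.symm_apply_apply x⟩

private theorem gPI_img_symm {L : FirstOrder.Language.{0, 0}} {U : Type} [L.Structure U]
    (τ : U ≃[L] U) (X : Set U) : τ '' (τ.symm '' X) = X := by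
  ext x
  constructor
  · rintro ⟨_, ⟨z, hz, rfl⟩, rfl⟩
    rw [τ.apply_symm_apply]
    exact hz
  · intro hx
    exact ⟨τ.symm x, ⟨x, hx, rfl⟩, τ.apply_symm_apply x⟩

private theorem gPI_fix {L : FirstOrder.Language.{0, 0}} {U : Type} [L.Structure U]
    (τ : U ≃[L] U) (X : Set U) (h : Fx L X τ) : τ '' X = X := by
  have h1 : τ '' X = id '' X := image_congr fun x hx => h x hx
  rw [h1, image_id]

private theorem gPI_symm_fx {L : FirstOrder.Language.{0, 0}} {U : Type} [L.Structure U]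
    (τ : U ≃[L] U) (X : Set U) (h : Fx L X τ) : Fx L X τ.symm := by
  intro x hx
  calc τ.symm x = τ.symm (τ x) := by rw [h x hx]
    _ = x := τ.symm_apply_apply x

/-- [gPI] -/
theorem thm_gPI (hORB : St_ORB) (hNSB : St_NSB) (hGER : St_nGER) (hSDI : St_nSDI)
    (hISO : St_nISO) (hSAT : St_SAT) (hPN : St_gPN) (hIS : St_gIS) (hFC : St_gFC) : St_gPI := by
  intro L U _ _ hW hT hNI C b y n w t hc
  obtain ⟨orb1, orb2, orb3, orb4, -⟩ := hORB L U hW.mon
  obtain ⟨nsb1, nsb2, nsb3, -⟩ := hNSB L U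
  obtain ⟨-, -, ger3, -, ger5, ger6, -⟩ := hGER L U hW
  obtain ⟨sdi1, -, sdi3, sdi4, -⟩ := hSDI L U hW
  have iso := hISO L U hW
  obtain ⟨pn1, -⟩ := hPN L U hW
  obtain ⟨-, -, -, is4, -⟩ := hIS L U hW hT
  have hAf : (insert b C).Finite := hc.fin.insert b
  obtain ⟨fc1, fc2, fc3, fc4, fc5, fc6⟩ := hFC L U hW hT C (insert b C) y n hAf
    (subset_insert b C)
  have hBf : (BB C b y n).Finite := hAf.union ((finite_lt_nat n).image y)
  have hABB : insert b C ⊆ BB C b y n := subset_union_left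
  -- the image of the base
  have himgA : ∀ (D : Set U) (a : U) (σ : U ≃[L] U), C ⊆ D → a ∈ D → Fx L C σ → σ b = a →
      σ '' insert b C ⊆ D := by
    rintro D a σ hCD haD hσ hσb _ ⟨x, hx, rfl⟩
    rcases hx with rfl | hx
    · rw [hσb]; exact haD
    · rw [hσ x hx]; exact hCD hx
  -- the germ is not definable on the side `t`
  have hnd : ∀ σ : U ≃[L] U, ¬ SD L (σ '' BB C b y n) (σ w) t := fun σ h =>
    hc.nd ((sdi4 σ _ _).2 t |>.1 h)
  have hnis : ∀ (σ : U ≃[L] U) (D : Set U), D.Finite → σ '' BB C b y n ⊆ D →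
      Orb L D (σ w) = Orb L (σ '' BB C b y n) (σ w) → ¬ Isd L D (σ w) := by
    intro σ D hD hsub h1 h2
    have h3 := (sdi3 _ D (σ w) hsub hD h1).2 t
    have h4 := (sdi1 D (σ w) hD).1 h2
    apply hnd σ
    rw [← h3]
    cases t
    · exact h4.2
    · exact h4.1
  -- 1
  have c1 : ∀ (D : Set U) (a : U), D.Finite → C ⊆ D → a ∈ D → ∀ σ : U ≃[L] U,
      Fc L C D (insert b C) y n σ → σ b = a →
      Orb L (D ∪ σ '' BB C b y n) (σ w) = Orb L (σ '' BB C b y n) (σ w) →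
      PI L C b y n w D a := by
    intro D a hD hCD haD σ hσ hσb horb σ' hσ' hσ'b
    obtain ⟨ρ, hρ, hρx⟩ := fc2 D σ σ' hD hσ hσ' (by
      intro x hx
      rcases hx with rfl | hx
      · rw [hσb, hσ'b]
      · rw [hσ.fx x hx, hσ'.fx x hx]) (himgA D a σ hCD haD hσ.fx hσb)
    have e1 : ρ '' (σ '' BB C b y n) = σ' '' BB C b y n := by
      rw [← image_comp]
      exact image_congr fun x hx => hρx x hx
    have e2 : ρ '' D = D := gPI_fix ρ D hρ
    have h1 : Orb L (D ∪ σ' '' BB C b y n) (ρ (σ w)) = Orb L (σ' '' BB C b y n) (ρ (σ w)) := by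
      have h2 := orb4 ρ (D ∪ σ '' BB C b y n) (σ w)
      have h3 := orb4 ρ (σ '' BB C b y n) (σ w)
      rw [image_union, e1, e2] at h2
      rw [e1] at h3
      rw [h2, h3, horb]
    have h2 : σ' w ∈ Orb L (σ' '' BB C b y n) (ρ (σ w)) := by
      refine ⟨σ'.comp (ρ.comp σ).symm, ?_, ?_⟩
      · rintro _ ⟨x, hx, rfl⟩
        show σ' ((ρ.comp σ).symm (σ' x)) = σ' x
        have h3 : σ' x = (ρ.comp σ) x := (hρx x hx).symm
        rw [h3, (ρ.comp σ).symm_apply_apply]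
        exact h3
      · show σ' ((ρ.comp σ).symm ((ρ.comp σ) w)) = σ' w
        rw [(ρ.comp σ).symm_apply_apply]
    have h3 : σ' w ∈ Orb L (D ∪ σ' '' BB C b y n) (ρ (σ w)) := by rw [h1]; exact h2
    rw [orb2 _ _ _ h2, orb2 _ _ _ h3]
    exact h1
  -- existence of a far copy
  have hex : ∀ (D : Set U) (σ₀ : U ≃[L] U), D.Finite → Fx L C σ₀ →
      ∃ σ : U ≃[L] U, Fc L C D (insert b C) y n σ ∧ σ b = σ₀ b := by
    intro D σ₀ hD hσ₀
    obtain ⟨σ, hσ, hσA⟩ := fc1 D σ₀ hD hσ₀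
    exact ⟨σ, hσ, hσA b (mem_insert b C)⟩
  -- sandwich
  have hsand : ∀ (X Y Z : Set U) (x : U), X ⊆ Y → Y ⊆ Z → Orb L Z x = Orb L X x →
      Orb L Y x = Orb L X x ∧ Orb L Z x = Orb L Y x := by
    intro X Y Z x hXY hYZ h
    have h1 := orb3 X Y x hXY
    have h2 := orb3 Y Z x hYZ
    have h3 : Orb L Y x = Orb L X x := Subset.antisymm h1 (by rw [← h]; exact h2)
    exact ⟨h3, h.trans h3.symm⟩
  -- 4, one direction
  have c4 : ∀ (D : Set U) (a : U), D.Finite → C ⊆ D → a ∈ D → a ∈ Orb L C b →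
      ∀ τ : U ≃[L] U, Fx L C τ → PI L C b y n w D a → PI L C b y n w (τ '' D) (τ a) := by
    rintro D a hD hCD haD ⟨σ₀, hσ₀, hσ₀b⟩ τ hτ hPI
    obtain ⟨σ, hσ, hσb⟩ := hex D σ₀ hD hσ₀
    have hσa : σ b = a := hσb.trans hσ₀b
    have h1 := hPI σ hσ hσa
    refine c1 (τ '' D) (τ a) (hD.image _) ?_ ⟨a, haD, rfl⟩ (τ.comp σ) (fc4 D σ τ hτ hσ) ?_ ?_
    · intro x hx
      exact ⟨x, hCD hx, hτ x hx⟩
    · show τ (σ b) = τ a
      rw [hσa]
    · show Orb L (τ '' D ∪ (τ.comp σ) '' BB C b y n) (τ (σ w)) =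
        Orb L ((τ.comp σ) '' BB C b y n) (τ (σ w))
      rw [gPI_img, ← image_union, orb4, orb4, h1]
  intro D a hD hCD haD haO
  obtain ⟨σ₀, hσ₀, hσ₀b⟩ := haO
  have haO : a ∈ Orb L C b := ⟨σ₀, hσ₀, hσ₀b⟩
  refine ⟨fun σ hσ hσb horb => c1 D a hD hCD haD σ hσ hσb horb, ?_, ?_, ?_, ?_⟩
  · -- 2
    intro D' hD'D hCD' haD' hPI
    obtain ⟨σ, hσ, hσb⟩ := hex D σ₀ hD hσ₀
    have hσa : σ b = a := hσb.trans hσ₀b
    have h1 := hPI σ hσ hσa
    refine c1 D' a (hD.subset hD'D) hCD' haD' σ (fc3 D D' σ hD hD'D hσ) hσa ?_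
    exact (hsand _ (D' ∪ σ '' BB C b y n) _ (σ w) subset_union_right
      (union_subset_union_left _ hD'D) h1).1
  · -- 3
    intro e he hPI σ hσ hσb
    have heD : (insert e D).Finite := hD.insert e
    have hσD : Fc L C D (insert b C) y n σ := fc3 (insert e D) D σ heD (subset_insert e D) hσ
    have h1 := hPI σ hσD hσb
    have hsub : σ '' insert b C ⊆ D := himgA D a σ hCD haD hσ.fx hσb
    have h2 := fc5 hNI hc.ch (insert e D) σ heD (hsub.trans (subset_insert e D)) hσ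
    have h3 := fc5 hNI hc.ch D σ hD hsub hσD
    have h4 := is4 D e (fun i => σ (y i)) n hD he h2.1
    have h5 : Isd L (D ∪ σ '' BB C b y n) e := by
      have h6 := h4.2
      rw [← h3.2] at h6
      exact h6
    have hfin : (D ∪ σ '' BB C b y n).Finite := hD.union (hBf.image _)
    have h6 := hnis σ (D ∪ σ '' BB C b y n) hfin subset_union_right h1
    have h7 := (iso (D ∪ σ '' BB C b y n) e (σ w) hfin h5 h6).1
    have h8 : Orb L (insert e (D ∪ σ '' BB C b y n)) (σ w) =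
        Orb L (D ∪ σ '' BB C b y n) (σ w) := by
      by_contra h
      exact h7 h
    rw [insert_union, h8, h1]
  · -- 4
    intro τ hτ
    refine ⟨c4 D a hD hCD haD haO τ hτ, fun h => ?_⟩
    have hCτ : C ⊆ τ '' D := fun x hx => ⟨x, hCD hx, hτ x hx⟩
    have hτa : τ a ∈ Orb L C b := by
      refine ⟨τ.comp σ₀, ?_, ?_⟩
      · intro x hx
        show τ (σ₀ x) = x
        rw [hσ₀ x hx]
        exact hτ x hx
      · show τ (σ₀ b) = τ a
        rw [hσ₀b]
    have h1 := c4 (τ '' D) (τ a) (hD.image _) hCτ ⟨a, haD, rfl⟩ hτa τ.symm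
      (gPI_symm_fx τ C hτ) h
    rw [gPI_symm_img, τ.symm_apply_apply] at h1
    exact h1
  · -- 5
    intro τ u hτ hτb hτD hτw hu hPI
    have huD : (insert u D).Finite := hD.insert u
    obtain ⟨σ, hσ, hσb⟩ := hex (insert u D) τ huD hτ
    have hσa : σ b = a := hσb.trans hτb
    have h1 := hPI σ hσ hσa
    have hσD : Fc L C D (insert b C) y n σ := fc3 (insert u D) D σ huD (subset_insert u D) hσ
    have hsub : σ '' insert b C ⊆ D := himgA D a σ hCD haD hσ.fx hσa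
    -- D₁ = D ∪ σB
    have hfin : (D ∪ σ '' BB C b y n).Finite := hD.union (hBf.image _)
    have h2 := hsand _ (D ∪ σ '' BB C b y n) _ (σ w) subset_union_right
      (union_subset_union_left _ (subset_insert u D)) h1
    -- τ w over D₁
    have hAtm : Atm L D (D ∪ σ '' BB C b y n) := fc6 hNI hc.ch D σ hD hsub hσD
    have hnisD : ¬ Isd L D (τ w) := hnis τ D hD hτD hτw
    have h3 : Orb L (D ∪ σ '' BB C b y n) (τ w) = Orb L D (τ w) :=
      ((hSAT L U hW D hD _ hAtm).2.1 (τ w) hnisD).1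
    -- the link
    have hfx : Fx L (insert b C) (τ.symm.comp σ) := by
      intro x hx
      show τ.symm (σ x) = x
      rcases hx with rfl | hx
      · rw [hσa, ← hτb, τ.symm_apply_apply]
      · rw [hσ.fx x hx]
        exact gPI_symm_fx τ C hτ x hx
    have hlk := hc.ct (τ.symm.comp σ) hfx
    -- over E = τB ∪ σB
    have hEfin : (τ '' BB C b y n ∪ σ '' BB C b y n).Finite := (hBf.image _).union (hBf.image _)
    have hED : τ '' BB C b y n ∪ σ '' BB C b y n ⊆ D ∪ σ '' BB C b y n :=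
      union_subset_union_left _ hτD
    have h4 := hsand (τ '' BB C b y n) (τ '' BB C b y n ∪ σ '' BB C b y n) _ (τ w)
      subset_union_left hED (h3.trans hτw)
    have h5 := hsand (σ '' BB C b y n) (τ '' BB C b y n ∪ σ '' BB C b y n) _ (σ w)
      subset_union_right hED h2.1
    have hτE : τ w ∈ Ge L (τ '' BB C b y n) (τ w) t (τ '' BB C b y n ∪ σ '' BB C b y n) := by
      rw [← ger3 (τ '' BB C b y n) (τ '' BB C b y n ∪ σ '' BB C b y n)
        (τ '' BB C b y n ∪ σ '' BB C b y n) (τ w) t subset_union_left Subset.rfl hEfin h4.1,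
        ger6]
      exact orb1 _ _
    have hσE : σ w ∈ Ge L (σ '' BB C b y n) (σ w) t (τ '' BB C b y n ∪ σ '' BB C b y n) := by
      rw [← ger3 (σ '' BB C b y n) (τ '' BB C b y n ∪ σ '' BB C b y n)
        (τ '' BB C b y n ∪ σ '' BB C b y n) (σ w) t subset_union_right Subset.rfl hEfin h5.1,
        ger6]
      exact orb1 _ _
    -- move by τ.symm
    have hm1 : w ∈ Ge L (BB C b y n) w t (BB C b y n ∪ (τ.symm.comp σ) '' BB C b y n) := by
      have h6 := ger5 τ.symm (τ '' BB C b y n) (τ '' BB C b y n ∪ σ '' BB C b y n) (τ w) t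
      rw [image_union, gPI_symm_img, τ.symm_apply_apply] at h6
      rw [gPI_img, h6]
      exact ⟨τ w, hτE, τ.symm_apply_apply w⟩
    have hm2 : (τ.symm.comp σ) w ∈ Ge L ((τ.symm.comp σ) '' BB C b y n) ((τ.symm.comp σ) w) t
        (BB C b y n ∪ (τ.symm.comp σ) '' BB C b y n) := by
      have h6 := ger5 τ.symm (σ '' BB C b y n) (τ '' BB C b y n ∪ σ '' BB C b y n) (σ w) t
      rw [image_union, gPI_symm_img] at h6
      rw [gPI_img]
      show τ.symm (σ w) ∈ Ge L (τ.symm '' (σ '' BB C b y n)) (τ.symm (σ w)) t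
        (BB C b y n ∪ τ.symm '' (σ '' BB C b y n))
      rw [h6]
      exact ⟨σ w, hσE, rfl⟩
    have h6 := hlk w hm1 _ hm2
    have h7 := nsb3 τ _ _ _ h6
    rw [image_union, gPI_img, gPI_img_symm] at h7
    have h8 : Nn L (τ '' BB C b y n ∪ σ '' BB C b y n) (τ w) (σ w) := by
      have h9 : τ ((τ.symm.comp σ) w) = σ w := τ.apply_symm_apply (σ w)
      rw [h9] at h7
      exact h7
    have h9 : Nn L (D ∪ σ '' BB C b y n) (τ w) (σ w) :=
      pn1 _ _ (τ w) (σ w) hED hfin h8 h4.2 h5.2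
    have hu' : u ∈ Orb L (D ∪ σ '' BB C b y n) (τ w) := by rw [h3]; exact hu
    have h10 : Nn L (D ∪ σ '' BB C b y n) u (σ w) :=
      nsb2 _ _ _ _ _ hu' (orb1 _ _) h9
    apply h10
    rw [← insert_union]
    exact h2.2

end Pool.Agent.WOM
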