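import Pool.Agent.WOL.StG

/-!
WOL, module gPN: persistence of nonorthogonality.
-/

set_option autoImplicit false
set_option linter.unusedVariables false

namespace Pool.Agent.WOM

open FirstOrder.Language Set
open scoped FirstOrder

private theorem gPN_leS {U : Type} [LinearOrder U] (t : Bool) (x : U) : leS t x x := by
  unfold leS
  split_ifs <;> exact le_rfl

theorem thm_gPN (hORB : St_ORB) (hSMA : St_nSMA) (hSMB : St_nSMB) : St_gPN := by
  intro L U _ _ hW
  refine ⟨?_, ?_, ?_⟩
  · intro A B u v hAB hB hN hu hv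
    have hA : A.Finite := hB.subset hAB
    obtain ⟨e, -, -, h3⟩ := hSMA L U hW A u v hA hN
    have h1 := (hORB L U hW.mon).1
    refine h3 B true hB hAB u ⟨h1 A u, ?_⟩ v ⟨h1 A v, ?_⟩
    · rw [hu]
      exact fun w hw => ⟨w, hw, gPN_leS _ w⟩
    · rw [hv]
      exact fun w hw => ⟨w, hw, gPN_leS _ w⟩
  · intro A B u v u' v' t t' hAB hB hN hSu hSv hu' hv'
    have hA : A.Finite := hB.subset hAB
    obtain ⟨e, h1, -, h3⟩ := hSMA L U hW A u v hA hN
    have h2 := hSMB L U hW A u v e (!t) hA hN h1 hSu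
    have h4 : sg e t = t' := by
      have h5 : sg e (!t) ≠ t' := fun h => hSv (h ▸ h2)
      revert h5
      unfold sg
      cases e <;> cases t <;> cases t' <;> simp
    refine h3 B t hB hAB u' hu' v' ?_
    rw [h4]
    exact hv'
  · intro A u v t hA hN hS
    obtain ⟨e, h1, -, -⟩ := hSMA L U hW A u v hA hN
    exact ⟨sg e t, hSMB L U hW A u v e t hA hN h1 hS⟩

end Pool.Agent.WOM
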