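import Pool.Agent.WOL.StG3

/-!
WOL gQN: the predicate `PN` (statement and proof: helper34; Lean: helper91, after gPI by helper57).
-/

set_option autoImplicit false
set_option linter.unusedVariables false

namespace Pool.Agent.WOM

open FirstOrder.Language Set
open scoped FirstOrder

private theorem gQN_img {L : FirstOrder.Language.{0, 0}} {U : Type} [L.Structure U]
    (τ σ : U ≃[L] U) (X : Set U) : (τ.comp σ) '' X = τ '' (σ '' X) := by
  ext x
  constructor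
  · rintro ⟨z, hz, rfl⟩
    exact ⟨σ z, ⟨z, hz, rfl⟩, rfl⟩
  · rintro ⟨_, ⟨z, hz, rfl⟩, rfl⟩
    exact ⟨z, hz, rfl⟩

private theorem gQN_symm_img {L : FirstOrder.Language.{0, 0}} {U : Type} [L.Structure U]
    (τ : U ≃[L] U) (X : Set U) : τ.symm '' (τ '' X) = X := by
  ext x
  constructor
  · rintro ⟨_, ⟨z, hz, rfl⟩, rfl⟩
    rw [τ.symm_apply_apply]
    exact hz
  · intro hx
    exact ⟨τ x, ⟨x, hx, rfl⟩, τ.symm_apply_apply x⟩

private theorem gQN_img_symm {L : FirstOrder.Language.{0, 0}} {U : Type} [L.Structure U]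
    (τ : U ≃[L] U) (X : Set U) : τ '' (τ.symm '' X) = X := by
  ext x
  constructor
  · rintro ⟨_, ⟨z, hz, rfl⟩, rfl⟩
    rw [τ.apply_symm_apply]
    exact hz
  · intro hx
    exact ⟨τ.symm x, ⟨x, hx, rfl⟩, τ.apply_symm_apply x⟩

private theorem gQN_fix {L : FirstOrder.Language.{0, 0}} {U : Type} [L.Structure U]
    (τ : U ≃[L] U) (X : Set U) (h : Fx L X τ) : τ '' X = X := by
  have h1 : τ '' X = id '' X := image_congr fun x hx => h x hx
  rw [h1, image_id]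

/-- [gQN] -/
theorem thm_gQN (hORB : St_ORB) (hSDI : St_nSDI) (hISO : St_nISO) (hIS : St_gIS) (hFC : St_gFC) :
    St_gQN := by
  intro L U _ _ hW hT hNI y k w hch hnw
  obtain ⟨orb1, orb2, orb3, orb4, -⟩ := hORB L U hW.mon
  obtain ⟨-, -, sdi3, sdi4, -⟩ := hSDI L U hW
  have iso := hISO L U hW
  obtain ⟨-, -, -, is4, -⟩ := hIS L U hW hT
  obtain ⟨fc1, fc2, fc3, fc4, fc5, fc6⟩ := hFC L U hW hT ∅ ∅ y k finite_empty
    (Subset.refl _)
  have hBf : (Bn ∅ y k).Finite := finite_empty.union ((finite_lt_nat k).image y)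
  have hfxe : ∀ τ : U ≃[L] U, Fx L ∅ τ := fun τ x hx => absurd hx (notMem_empty x)
  have hemp : ∀ (σ : U ≃[L] U) (D : Set U), σ '' (∅ : Set U) ⊆ D := by
    intro σ D
    rw [image_empty]
    exact empty_subset D
  have hnis : ∀ (σ : U ≃[L] U) (D : Set U), D.Finite → σ '' Bn ∅ y k ⊆ D →
      Orb L D (σ w) = Orb L (σ '' Bn ∅ y k) (σ w) → ¬ Isd L D (σ w) := by
    intro σ D hD hsub h1 h2
    have h3 := (sdi3 _ D (σ w) hsub hD h1).1
    exact hnw ((sdi4 σ _ _).1.1 (h3.1 h2))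
  -- 1
  have c1 : ∀ (D : Set U) (σ : U ≃[L] U), D.Finite → Fc L ∅ D ∅ y k σ →
      Orb L (D ∪ σ '' Bn ∅ y k) (σ w) = Orb L (σ '' Bn ∅ y k) (σ w) → PN L y k w D := by
    intro D σ hD hσ horb σ' hσ'
    obtain ⟨ρ, hρ, hρx⟩ := fc2 D σ σ' hD hσ hσ' (fun a ha => absurd ha (notMem_empty a))
      (hemp σ D)
    have e1 : ρ '' (σ '' Bn ∅ y k) = σ' '' Bn ∅ y k := by
      rw [← image_comp]
      exact image_congr fun x hx => hρx x hx
    have e2 : ρ '' D = D := gQN_fix ρ D hρ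
    have h1 : Orb L (D ∪ σ' '' Bn ∅ y k) (ρ (σ w)) = Orb L (σ' '' Bn ∅ y k) (ρ (σ w)) := by
      have h2 := orb4 ρ (D ∪ σ '' Bn ∅ y k) (σ w)
      have h3 := orb4 ρ (σ '' Bn ∅ y k) (σ w)
      rw [image_union, e1, e2] at h2
      rw [e1] at h3
      rw [h2, h3, horb]
    have h2 : σ' w ∈ Orb L (σ' '' Bn ∅ y k) (ρ (σ w)) := by
      refine ⟨σ'.comp (ρ.comp σ).symm, ?_, ?_⟩
      · rintro _ ⟨x, hx, rfl⟩
        show σ' ((ρ.comp σ).symm (σ' x)) = σ' x
        have h3 : σ' x = (ρ.comp σ) x := (hρx x hx).symm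
        rw [h3, (ρ.comp σ).symm_apply_apply]
        exact h3
      · show σ' ((ρ.comp σ).symm ((ρ.comp σ) w)) = σ' w
        rw [(ρ.comp σ).symm_apply_apply]
    have h3 : σ' w ∈ Orb L (D ∪ σ' '' Bn ∅ y k) (ρ (σ w)) := by rw [h1]; exact h2
    rw [orb2 _ _ _ h2, orb2 _ _ _ h3]
    exact h1
  have hex : ∀ D : Set U, D.Finite → ∃ σ : U ≃[L] U, Fc L ∅ D ∅ y k σ := by
    intro D hD
    obtain ⟨σ, hσ, -⟩ := fc1 D (FirstOrder.Language.Equiv.refl L U) hD (hfxe _)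
    exact ⟨σ, hσ⟩
  have hsand : ∀ (X Y Z : Set U) (x : U), X ⊆ Y → Y ⊆ Z → Orb L Z x = Orb L X x →
      Orb L Y x = Orb L X x := by
    intro X Y Z x hXY hYZ h
    have h1 := orb3 X Y x hXY
    have h2 := orb3 Y Z x hYZ
    exact Subset.antisymm h1 (by rw [← h]; exact h2)
  -- 4, one direction
  have c4 : ∀ (D : Set U) (τ : U ≃[L] U), PN L y k w D → PN L y k w (τ '' D) := by
    intro D τ hP σ' hσ'
    have h1 := fc4 (τ '' D) σ' τ.symm (hfxe _) hσ'
    rw [gQN_symm_img] at h1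
    have h2 := hP _ h1
    have h3 : Orb L (D ∪ τ.symm '' (σ' '' Bn ∅ y k)) (τ.symm (σ' w)) =
        Orb L (τ.symm '' (σ' '' Bn ∅ y k)) (τ.symm (σ' w)) := by
      rw [← gQN_img]
      exact h2
    have h4 := orb4 τ (D ∪ τ.symm '' (σ' '' Bn ∅ y k)) (τ.symm (σ' w))
    have h5 := orb4 τ (τ.symm '' (σ' '' Bn ∅ y k)) (τ.symm (σ' w))
    rw [image_union, gQN_img_symm, τ.apply_symm_apply] at h4
    rw [gQN_img_symm, τ.apply_symm_apply] at h5
    rw [h4, h5, h3]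
  refine ⟨fun D σ hD hσ h => c1 D σ hD hσ h, ?_, ?_, ?_, ?_⟩
  · -- 2
    intro D D' hD hD'D hP
    obtain ⟨σ, hσ⟩ := hex D hD
    have h1 := hP σ hσ
    refine c1 D' σ (hD.subset hD'D) (fc3 D D' σ hD hD'D hσ) ?_
    exact hsand _ (D' ∪ σ '' Bn ∅ y k) _ (σ w) subset_union_right
      (union_subset_union_left _ hD'D) h1
  · -- 3
    intro D e hD he hP σ hσ
    have heD : (insert e D).Finite := hD.insert e
    have hσD : Fc L ∅ D ∅ y k σ := fc3 (insert e D) D σ heD (subset_insert e D) hσ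
    have h1 := hP σ hσD
    have h2 := fc5 hNI hch (insert e D) σ heD (hemp σ _) hσ
    have h3 := fc5 hNI hch D σ hD (hemp σ _) hσD
    have h4 := is4 D e (fun i => σ (y i)) k hD he h2.1
    have h5 : Isd L (D ∪ σ '' Bn ∅ y k) e := by
      have h6 := h4.2
      rw [← h3.2] at h6
      exact h6
    have hfin : (D ∪ σ '' Bn ∅ y k).Finite := hD.union (hBf.image _)
    have h6 := hnis σ (D ∪ σ '' Bn ∅ y k) hfin subset_union_right h1
    have h7 := (iso (D ∪ σ '' Bn ∅ y k) e (σ w) hfin h5 h6).1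
    have h8 : Orb L (insert e (D ∪ σ '' Bn ∅ y k)) (σ w) =
        Orb L (D ∪ σ '' Bn ∅ y k) (σ w) := by
      by_contra h
      exact h7 h
    rw [insert_union, h8, h1]
  · -- 4
    intro D τ
    refine ⟨c4 D τ, fun h => ?_⟩
    have h1 := c4 (τ '' D) τ.symm h
    rwa [gQN_symm_img] at h1
  · -- 5
    intro σ hσ
    rw [empty_union]

end Pool.Agent.WOM
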