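import Pool.Agent.WOL.StG3

/-! WOL: module gRF, reflection of one element (helper7). -/

set_option autoImplicit false
set_option linter.unusedVariables false

namespace Pool.Agent.WOM

open FirstOrder.Language Set
open scoped FirstOrder

section pre

variable {U : Type} [LinearOrder U]

private theorem gRF_refl (s : Bool) (x : U) : leS s x x := by
  unfold leS
  split_ifs <;> exact le_refl x

private theorem gRF_total (s : Bool) (x y : U) : leS s x y ∨ leS s y x := by
  unfold leS
  split_ifs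
  · exact le_total x y
  · exact le_total y x

private theorem gRF_trans {s : Bool} {x y z : U} (h : leS s x y) (h' : leS s y z) : leS s x z := by
  unfold leS at *
  split_ifs at *
  · exact h.trans h'
  · exact h'.trans h

private theorem gRF_antisymm {s : Bool} {x y : U} (h : leS s x y) (h' : leS s y x) : x = y := by
  unfold leS at *
  split_ifs at *
  · exact le_antisymm h h'
  · exact le_antisymm h' h

/-- closed away from the side `s` -/
private def gRF_Lw (s : Bool) (K : Set U) : Prop := ∀ x ∈ K, ∀ y, leS s y x → y ∈ K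

end pre

/-- types are separated by definable cuts, on both sides -/
private theorem gRF_cut (hORB : St_ORB) (hCUT : St_SCUT) {L : FirstOrder.Language.{0, 0}} {U : Type}
    [L.Structure U] [LinearOrder U] (hW : Wn L U) {D : Set U} (hD : D.Finite) (s : Bool) {z z' : U}
    (h : leS s z z') (h' : z' ∉ Orb L D z) :
    ∃ K : Set U, D.Definable₁ L K ∧ gRF_Lw s K ∧ z ∈ K ∧ z' ∉ K := by
  obtain ⟨o1, o2, -⟩ := hORB L U hW.mon
  have hne : z ≠ z' := by
    rintro rfl
    exact h' (o1 D z)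
  cases s with
  | true =>
    have h1 : z ≤ z' := by simpa [leS] using h
    obtain ⟨K, hK, hL, h2, h3⟩ := hCUT L U hW D z z' hD (lt_of_le_of_ne h1 hne) h'
    refine ⟨K, hK, ?_, h2, h3⟩
    intro x hx y hy
    exact hL x hx y (by simpa [leS] using hy)
  | false =>
    have h1 : z' ≤ z := by simpa [leS] using h
    have h4 : z ∉ Orb L D z' := by
      intro h5
      apply h'
      rw [o2 D z' z h5]
      exact o1 D z'
    obtain ⟨K, hK, hL, h2, h3⟩ := hCUT L U hW D z' z hD (lt_of_le_of_ne h1 hne.symm) h4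
    refine ⟨Kᶜ, Set.Definable.compl hK, ?_, h3, fun h5 => h5 h2⟩
    intro x hx y hy hyK
    exact hx (hL y hyK x (by simpa [leS] using hy))

theorem thm_gRF (hORB : St_ORB) (hDFN : St_DFN) (hDNS : St_DNS) (hGEX : St_nGEX) (hGER : St_nGER)
    (hCUT : St_SCUT) (hIS : St_gIS) : St_gRF := by
  intro L U _ _ hW hT hNI D B S b b' s hDB hB hsd hb' hS hb'S
  obtain ⟨o1, o2, o3, -, -, o6, -, -, -⟩ := hORB L U hW.mon
  obtain ⟨-, -, -, -, -, -, g7, -⟩ := hGER L U hW
  obtain ⟨-, -, -, -, i5⟩ := hIS L U hW hT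
  obtain ⟨-, -, -, d4⟩ := hDFN L U hW.ord B
  have hD : D.Finite := hB.subset hDB
  have hob' : b' ∈ Orb L D b := hb'.1
  have hOb' : Orb L D b' = Orb L D b := o2 _ _ _ hob'
  have hge := (hGEX L U hW D B b s hDB hB).2 b' hb'
  set c : Set U := Cls s (Orb L D b) with hc
  have hOc : Orb L D b ⊆ c := fun u hu => ⟨u, hu, gRF_refl s u⟩
  -- the claim
  obtain ⟨K, hK, hKL, hcK, hKS⟩ : ∃ K : Set U, D.Definable₁ L K ∧ gRF_Lw s K ∧ c ⊆ K ∧
      ∀ z ∈ K, leS s b' z → z ∈ S := by
    by_contra hcon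
    push Not at hcon
    have hBf : (insert b' B).Finite := hB.insert b'
    let F : Set (Set U) := insert Sᶜ (insert {u | leS s b' u}
      {K | D.Definable₁ L K ∧ gRF_Lw s K ∧ c ⊆ K})
    have hF1 : ∀ X ∈ F, (insert b' B).Definable₁ L X := by
      rintro X (rfl | rfl | hX)
      · exact (Set.Definable.compl hS).mono (subset_insert _ _)
      · obtain ⟨-, -, -, d4'⟩ := hDFN L U hW.ord B
        exact (d4' b' s).mono (by
          rintro x rfl
          exact mem_insert _ _)
      · exact hX.1.mono (hDB.trans (subset_insert _ _))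
    have hF2 : ∀ G ⊆ F, G.Finite → (⋂₀ G).Nonempty := by
      intro G hG hGf
      -- the intersection of the members which are cuts
      let G' : Set (Set U) := {X | X ∈ G ∧ D.Definable₁ L X ∧ gRF_Lw s X ∧ c ⊆ X}
      have hG'f : G'.Finite := hGf.subset fun X hX => hX.1
      have hint : ∀ H : Set (Set U), H.Finite → (∀ X ∈ H, D.Definable₁ L X ∧ gRF_Lw s X ∧ c ⊆ X) →
          D.Definable₁ L (⋂₀ H) ∧ gRF_Lw s (⋂₀ H) ∧ c ⊆ ⋂₀ H := by
        intro H hH
        induction H, hH using Set.Finite.induction_on with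
        | empty =>
          intro _
          rw [sInter_empty]
          exact ⟨Set.definable_univ, fun x _ y _ => mem_univ y, subset_univ _⟩
        | insert _ _ ih =>
          intro h
          obtain ⟨a1, a2, a3⟩ := ih fun X hX => h X (mem_insert_of_mem _ hX)
          obtain ⟨b1, b2, b3⟩ := h _ (mem_insert _ _)
          rw [sInter_insert]
          exact ⟨Set.Definable.inter b1 a1, fun x hx y hy => ⟨b2 x hx.1 y hy, a2 x hx.2 y hy⟩,
            subset_inter b3 a3⟩
      obtain ⟨h1, h2, h3⟩ := hint G' hG'f fun X hX => hX.2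
      obtain ⟨z, hz, hbz, hzS⟩ := hcon (⋂₀ G') h1 h2 h3
      refine ⟨z, ?_⟩
      intro X hX
      rcases hG hX with rfl | rfl | hX'
      · exact hzS
      · exact hbz
      · exact hz X ⟨hX, hX'⟩
    obtain ⟨z, hz⟩ := hW.mon.sat (insert b' B) hBf F hF1 hF2
    have hzS : z ∉ S := hz Sᶜ (mem_insert _ _)
    have hbz : leS s b' z := hz {u | leS s b' u} (mem_insert_of_mem _ (mem_insert _ _))
    have hzK : ∀ K : Set U, D.Definable₁ L K → gRF_Lw s K → c ⊆ K → z ∈ K := fun K h1 h2 h3 =>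
      hz K (mem_insert_of_mem _ (mem_insert_of_mem _ ⟨h1, h2, h3⟩))
    by_cases hzo : z ∈ Orb L D b
    · have h1 : z ∈ Ge L D b s B := g7 D B b b' z s hDB hB hb' hzo hbz
      rw [hge] at h1
      exact hzS (o6 B S hS b' hb'S h1)
    · obtain ⟨K, hK, hKL, h1, h2⟩ := gRF_cut hORB hCUT hW hD s hbz (by rw [hOb']; exact hzo)
      apply h2
      apply hzK K hK hKL
      rintro u ⟨v, hv, huv⟩
      rw [← hOb'] at hv
      exact hKL v (o6 D K hK b' h1 hv) u huv
  -- `K` is not `c`
  have hKc : ¬ K ⊆ c := by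
    intro h1
    apply hsd
    have h2 : K = c := Subset.antisymm h1 hcK
    unfold SD
    rw [← hc, ← h2]
    exact hK
  obtain ⟨z₀, hz₀, hz₀c⟩ := not_subset.1 hKc
  have hbz₀ : leS s b z₀ := by
    rcases gRF_total s b z₀ with h1 | h1
    · exact h1
    · exact absurd ⟨b, o1 D b, h1⟩ hz₀c
  obtain ⟨K', hK', hKL', hbK', hzK'⟩ := gRF_cut hORB hCUT hW hD s hbz₀ fun h1 => hz₀c (hOc h1)
  have hcK' : Orb L D b ⊆ K' := o6 D K' hK' b hbK'
  obtain ⟨z₁, hz₁, hi₁⟩ := hDNS L U hW.mon D (K \ K') hD (Set.Definable.sdiff hK hK') ⟨z₀, hz₀, hzK'⟩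
  obtain ⟨⟨x, hx⟩, -⟩ := hGEX L U hW D B z₁ true hDB hB
  have hxi : Isd L B x := i5 hNI D B z₁ x true hDB hB hi₁ hx
  have hxo : x ∈ Orb L D z₁ := hx.1
  have hxK : x ∈ K \ K' := o6 D (K \ K') (Set.Definable.sdiff hK hK') z₁ hz₁ hxo
  refine ⟨x, hKS x hxK.1 ?_, ?_, hxi⟩
  · rcases gRF_total s b' x with h1 | h1
    · exact h1
    · exact absurd (hKL' b' (hcK' hob') x h1) hxK.2
  · unfold Isd
    rw [o2 _ _ _ hxo]
    exact hi₁

end Pool.Agent.WOM
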