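import Pool.Agent.WOL.StG

/-!
WOL, module gSEC: from one element of a linked type to the type itself.
-/

set_option autoImplicit false
set_option linter.unusedVariables false

namespace Pool.Agent.WOM

open FirstOrder.Language Set
open scoped FirstOrder

private theorem gSEC_img {L : FirstOrder.Language.{0, 0}} {U : Type} [L.Structure U] {A : Set U}
    {σ : U ≃[L] U} (h : Fx L A σ) : σ '' A = A := by
  ext x
  constructor
  · rintro ⟨a, ha, rfl⟩
    rw [h a ha]
    exact ha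
  · intro hx
    exact ⟨x, hx, h x hx⟩

private theorem gSEC_ins {L : FirstOrder.Language.{0, 0}} {U : Type} [L.Structure U] {A : Set U}
    {σ : U ≃[L] U} (h : Fx L A σ) (x : U) : σ '' insert x A = insert (σ x) A := by
  rw [image_insert_eq, gSEC_img h]

private theorem gSEC_symm {L : FirstOrder.Language.{0, 0}} {U : Type} [L.Structure U] {A : Set U}
    {σ : U ≃[L] U} (h : Fx L A σ) : Fx L A σ.symm := by
  intro a ha
  have h1 : σ.symm (σ a) = a := σ.symm_apply_apply a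
  rwa [h a ha] at h1

theorem thm_gSEC (hORB : St_ORB) (hNSB : St_NSB) (hGEX : St_nGEX) (hGER : St_nGER)
    (hFFR : St_nFFR) (hTRA : St_nTRA) (hSMA : St_nSMA) (hSEP : St_SEP) : St_gSEC := by
  intro L U _ _ hW A d v w v₁ v₂ t hA hdv hdw hvw hv₁ hv₁w hv₂
  obtain ⟨o1, o2, o3, -, -, -, -, -, -⟩ := hORB L U hW.mon
  obtain ⟨n1, n2, n3, -, n5, -⟩ := hNSB L U
  obtain ⟨-, g2, -, g4, g5, -, -, g8⟩ := hGER L U hW
  have hgex := hGEX L U hW
  have htra := hTRA L U hW
  have hsub : ∀ x : U, A ⊆ insert x A := fun x => subset_insert _ _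
  have hfin : ∀ x : U, (insert x A).Finite := fun x => hA.insert _
  -- orientation
  obtain ⟨e, hor1, hor2, -⟩ := hSMA L U hW A v d hA (n1 A d v hdv)
  set s' : Bool := !(sg e t) with hs'
  have hss : (!(sg e s')) = t := by
    rw [hs']
    unfold sg
    cases e <;> cases t <;> rfl
  have hO1 : ∀ v' d' : U, d' ∈ Orb L A d → v' ∈ Ge L A v t (insert d' A) →
      d' ∈ Ge L A d s' (insert v' A) := fun v' d' hd' hv' => hor1 t d' hd' v' hv'
  have hO2 : ∀ v' d' : U, v' ∈ Orb L A v → d' ∈ Ge L A d s' (insert v' A) →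
      v' ∈ Ge L A v t (insert d' A) := by
    intro v' d' hv' hd'
    have h := hor2 s' v' hv' d' hd'
    rwa [hss] at h
  by_contra hcon
  -- the negation for all `v'`
  have hall : ∀ v' ∈ Orb L A v, ∀ u ∈ Ge L A v t (insert v' A), ¬ Nn L (insert v' A) u w := by
    rintro v' ⟨σ, hσ, rfl⟩ u hu hN
    have hσs := gSEC_symm hσ
    have h1 := n3 σ.symm (insert (σ v) A) u w hN
    have e1 : σ.symm '' insert (σ v) A = insert v A := by
      rw [gSEC_ins hσs]
      congr 1
      exact σ.symm_apply_apply v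
    rw [e1] at h1
    have h2 : σ.symm u ∈ Ge L A v t (insert v A) := by
      have h3 := g5 σ.symm A (insert (σ v) A) (σ v) t
      rw [e1, gSEC_img hσs, show σ.symm (σ v) = v from σ.symm_apply_apply v] at h3
      have h4 : Ge L A (σ v) t (insert (σ v) A) = Ge L A v t (insert (σ v) A) :=
        g4 A (insert (σ v) A) v (σ v) t ⟨σ, hσ, rfl⟩
      rw [h3, h4]
      exact ⟨u, hu, rfl⟩
    have h5 : v₂ ∈ Orb L (insert v A) (σ.symm u) := by
      have h6 := (hgex A (insert v A) v t (hsub v) (hfin v)).2 (σ.symm u) h2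
      rw [← h6]
      exact hv₂
    have h7 : w ∈ Orb L (insert v A) (σ.symm w) := by
      have h8 : Orb L (insert v A) w = Orb L A w := not_not.mp hvw
      have h9 : σ.symm w ∈ Orb L (insert v A) w := by
        rw [h8]
        exact ⟨σ.symm, hσs, rfl⟩
      rw [o2 _ _ _ h9]
      exact o1 _ _
    exact hcon (n2 _ _ _ _ _ h5 h7 h1)
  -- the second element
  have hsub2 : insert v₁ A ⊆ insert v₁ (insert d A) := insert_subset_insert (subset_insert _ _)
  have hsub3 : insert d A ⊆ insert v₁ (insert d A) := subset_insert _ _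
  have hfin2 : (insert v₁ (insert d A)).Finite := (hfin d).insert _
  obtain ⟨x₂, hx₂⟩ := (hgex A (insert v₁ (insert d A)) v t ((hsub d).trans hsub3) hfin2).1
  have hx₂v : x₂ ∈ Ge L A v t (insert v₁ A) := g2 A _ _ v t (hsub v₁) hsub2 hfin2 hx₂
  have hx₂d : x₂ ∈ Ge L A v t (insert d A) := g2 A _ _ v t (hsub d) hsub3 hfin2 hx₂
  have hv₁O : v₁ ∈ Orb L A v := hv₁.1
  have hx₂O : x₂ ∈ Orb L A v := hx₂.1
  have hv₁w' : Orb L (insert v₁ A) w = Orb L A w := by
    by_contra h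
    have h1 : Nn L A v₁ w := h
    refine hvw (n2 A v₁ w v w ?_ (o1 _ _) h1)
    rw [o2 _ _ _ hv₁O]
    exact o1 _ _
  have hx₂w' : Orb L (insert x₂ A) w = Orb L A w := by
    by_contra h
    have h1 : Nn L A x₂ w := h
    refine hvw (n2 A x₂ w v w ?_ (o1 _ _) h1)
    rw [o2 _ _ _ hx₂O]
    exact o1 _ _
  have hdw' : Orb L (insert d A) w = Orb L A w := not_not.mp hdw
  -- (i)
  have hi : Nn L (insert v₁ A) d w := by
    unfold Nn at hv₁w ⊢
    rw [insert_comm, hv₁w', ← hdw']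
    exact hv₁w
  -- (ii)
  have hii : ¬ Nn L (insert v₁ A) x₂ w := hall v₁ hv₁O x₂ hx₂v
  have hii2 : ¬ Nn L (insert v₁ A) x₂ d := fun h => hii (htra _ _ _ _ (hfin v₁) h hi)
  have e1 : Orb L (insert x₂ (insert v₁ A)) d = Orb L (insert v₁ A) d := not_not.mp hii2
  have e2 : Orb L (insert x₂ (insert v₁ A)) w = Orb L (insert v₁ A) w := not_not.mp hii
  -- (iii)
  have hiii : Nn L (insert x₂ A) d w := by
    have h1 : x₂ ∈ Orb L (insert d A) v₁ := by
      rw [← (hgex A (insert d A) v t (hsub d) (hfin d)).2 v₁ hv₁]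
      exact hx₂d
    obtain ⟨σ, hσ, hσv⟩ := h1
    have hσA : Fx L A σ := fun a ha => hσ a (mem_insert_of_mem _ ha)
    have h2 := n3 σ (insert v₁ A) d w hi
    rw [gSEC_ins hσA, hσv, hσ d (mem_insert _ _)] at h2
    refine n2 _ _ _ _ _ (o1 _ _) ?_ h2
    have h3 : σ w ∈ Orb L (insert x₂ A) w := by
      rw [hx₂w']
      exact ⟨σ, hσA, rfl⟩
    rw [o2 _ _ _ h3]
    exact o1 _ _
  have hiii2 : ¬ Nn L (insert x₂ A) v₁ w := by
    intro h
    unfold Nn at h
    rw [insert_comm, e2, hv₁w', hx₂w'] at h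
    exact h rfl
  have hiii3 : ¬ Nn L (insert x₂ A) v₁ d := fun h => hiii2 (htra _ _ _ _ (hfin x₂) h hiii)
  have e3 : Orb L (insert v₁ (insert x₂ A)) d = Orb L (insert x₂ A) d := not_not.mp hiii3
  have e4 : Orb L (insert v₁ A) d = Orb L (insert x₂ A) d := by
    rw [← e1, insert_comm, e3]
  have hd1 : d ∈ Ge L A d s' (insert v₁ A) := hO1 v₁ d (o1 _ _) hv₁
  have hd2 : d ∈ Ge L A d s' (insert x₂ A) := hO1 x₂ d (o1 _ _) hx₂d
  have e5 : Ge L A d s' (insert v₁ A) = Ge L A d s' (insert x₂ A) := by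
    rw [(hgex A (insert v₁ A) d s' (hsub v₁) (hfin v₁)).2 d hd1,
      (hgex A (insert x₂ A) d s' (hsub x₂) (hfin x₂)).2 d hd2, e4]
  -- (iv)
  have hne : Orb L A v ≠ {v} := (n5 A d v hdv).2
  have hiv : ∃ c' ∈ Orb L A d, v₁ ∈ Ge L A v (!t) (insert c' A) ∧ x₂ ∈ Ge L A v t (insert c' A) := by
    cases t with
    | true =>
      have hF : Far L A v₁ x₂ := by
        show x₂ ∈ Ge L A v₁ true (insert v₁ A)
        rw [g4 A (insert v₁ A) v v₁ true hv₁O]
        exact hx₂v
      exact hSEP L U hW A v d hA hne v₁ hv₁O x₂ hF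
    | false =>
      have hF : v₁ ∈ Ge L A x₂ (!false) (insert x₂ A) := by
        refine hFFR L U hW A v₁ x₂ false hA ?_
        rw [g4 A (insert v₁ A) v v₁ false hv₁O]
        exact hx₂v
      obtain ⟨c', hc', h1, h2⟩ := hSEP L U hW A v d hA hne x₂ hx₂O v₁ hF
      exact ⟨c', hc', h2, h1⟩
  obtain ⟨c', hc', h1, h2⟩ := hiv
  have h3 : c' ∈ Ge L A d s' (insert x₂ A) := hO1 x₂ c' hc' h2
  rw [← e5] at h3
  have h4 : v₁ ∈ Ge L A v t (insert c' A) := hO2 v₁ c' hv₁O h3
  have h5 : Orb L (insert c' A) v = Orb L A v := by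
    cases t with
    | true => exact g8 A (insert c' A) v v₁ (hsub c') (hfin c') h4 h1
    | false => exact g8 A (insert c' A) v v₁ (hsub c') (hfin c') h1 h4
  exact n2 A d v c' v hc' (o1 _ _) hdv h5

end Pool.Agent.WOM
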