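import Pool.Agent.WOL.StG2

/-!
WOL, gSN: new elements are not near.
-/

set_option autoImplicit false
set_option linter.unusedVariables false

namespace Pool.Agent.WOM

open FirstOrder.Language Set
open scoped FirstOrder

theorem thm_gSN (hORB : St_ORB) (hGEX : St_nGEX) (hGER : St_nGER) (hFAR : St_nFAR) : St_gSN := by
  intro L U _ _ hW hT hNI C b H D β x s hCH hHD hD hβ hwide hx
  obtain ⟨hO1, hO2, hO3, -, -, -, -, -, -⟩ := hORB L U hW.mon
  obtain ⟨-, -, -, -, -, -, hG7, -⟩ := hGER L U hW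
  have hH : H.Finite := hD.subset hHD
  have hC : C.Finite := hH.subset hCH
  have hβQ : Orb L C β = Orb L C b := hO2 C b β hβ
  have hHQ : Orb L H β ⊆ Orb L C b := by
    rw [← hβQ]
    exact hO3 C H β hCH
  have hxH : x ∈ Orb L H β := hx.1
  by_cases hQ : Orb L C b = {b}
  · have hxb : x = b := by
      have h1 := hHQ hxH
      rw [hQ] at h1
      exact h1
    have hbb : Far L C b b := by
      obtain ⟨⟨u, hu⟩, -⟩ := hGEX L U hW C (insert b C) b true (Set.subset_insert b C) (hC.insert b)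
      have h2 : u ∈ Orb L C b := hu.1
      rw [hQ] at h2
      have h3 : u = b := h2
      rw [h3] at hu
      exact hu
    subst hxb
    refine ⟨fun a _ haQ => ?_, x, hO1 D x, hbb⟩
    rw [hQ] at haQ
    have h4 : a = x := haQ
    rw [h4]
    exact Or.inl hbb
  · obtain ⟨hF1, -, -, hF4, hF5, -, -, -⟩ := hFAR L U hW C b hC hQ
    obtain ⟨z₀, hz₀, hfar₀⟩ := hwide
    have hxQ : x ∈ Orb L C b := hHQ hxH
    have hsub : ∀ σ : U ≃[L] U, Fx L H σ → Fx L C σ := fun σ hσ a ha => hσ a (hCH ha)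
    have hOrbH : ∀ z ∈ Orb L H β, Orb L H z = Orb L H β := fun z hz => hO2 H β z hz
    have hGeq : Ge L H β s D = Orb L D x := (hGEX L U hW H D β s hHD hD).2 x hx
    -- a companion in the orbit over `D`
    have hinv : ∀ z ∈ Orb L D x, ∀ a ∈ D, (Far L C a z ↔ Far L C a x) ∧ (Far L C z a ↔ Far L C x a) := by
      rintro z ⟨σ, hσ, rfl⟩ a ha
      have hσC : Fx L C σ := fun c hc => hσ c (hHD (hCH hc))
      have h1 := hF5 a x σ hσC
      have h2 := hF5 x a σ hσC
      rw [hσ a ha] at h1 h2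
      exact ⟨h1, h2⟩
    rcases s with _ | _
    · -- `s = false`
      obtain ⟨σ, hσ, hσx⟩ := hxH
      have hz' : σ z₀ ∈ Orb L H β := by
        have h1 : σ z₀ ∈ Orb L H z₀ := ⟨σ, hσ, rfl⟩
        rwa [hOrbH z₀ hz₀] at h1
      have hfar' : Far L C (σ z₀) x := by
        rw [← hσx]
        exact (hF5 z₀ β σ (hsub σ hσ)).2 hfar₀
      have hlt : σ z₀ < x := hF1 _ (hHQ hz') x hxQ hfar'
      have hzD : σ z₀ ∈ Orb L D x := by
        rw [← hGeq]
        exact hG7 H D β x (σ z₀) false hHD hD hx hz' (by simpa [leS] using hlt.le)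
      refine ⟨fun a haD haQ => ?_, σ z₀, hzD, hfar'⟩
      by_contra hcon
      rw [not_or] at hcon
      rcases hF4 _ (hHQ hz') a haQ x hxQ hfar' with h3 | h3
      · exact hcon.2 (((hinv _ hzD a haD).2).1 h3)
      · exact hcon.1 h3
    · -- `s = true`
      have hxz : x ∈ Orb L H z₀ := by
        rw [hOrbH z₀ hz₀]
        exact hxH
      obtain ⟨σ, hσ, hσx⟩ := hxz
      have hz' : σ β ∈ Orb L H β := ⟨σ, hσ, rfl⟩
      have hfar' : Far L C x (σ β) := by
        rw [← hσx]
        exact (hF5 z₀ β σ (hsub σ hσ)).2 hfar₀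
      have hlt : x < σ β := hF1 x hxQ _ (hHQ hz') hfar'
      have hzD : σ β ∈ Orb L D x := by
        rw [← hGeq]
        exact hG7 H D β x (σ β) true hHD hD hx hz' (by simpa [leS] using hlt.le)
      constructor
      · intro a haD haQ
        by_contra hcon
        rw [not_or] at hcon
        rcases hF4 x hxQ a haQ _ (hHQ hz') hfar' with h3 | h3
        · exact hcon.2 h3
        · exact hcon.1 (((hinv _ hzD a haD).1).1 h3)
      · have h5 : x ∈ Orb L D (σ β) := by
          rw [hO2 D x (σ β) hzD]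
          exact hO1 D x
        obtain ⟨ρ, hρ, hρx⟩ := h5
        refine ⟨ρ x, ⟨ρ, hρ, rfl⟩, ?_⟩
        have hρC : Fx L C ρ := fun c hc => hρ c (hHD (hCH hc))
        have h6 := (hF5 x (σ β) ρ hρC).2 hfar'
        rw [hρx] at h6
        exact h6

end Pool.Agent.WOM
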