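import Pool.Agent.WOL.StG2

/-!
WOL gSS: the steps of the construction (statement and proof: helper34; Lean: helper15).
-/

set_option autoImplicit false
set_option linter.unusedVariables false

namespace Pool.Agent.WOM

open FirstOrder.Language Set
open scoped FirstOrder

/-- a pair (stage, label) which can be used for new elements over `D` -/
private structure GSSg (L : FirstOrder.Language.{0, 0}) {U : Type} [L.Structure U] [LinearOrder U]
    (C : Set U) (b : U) (y : ℕ → U) (n : ℕ) (w : U) (C₁ : Set U) (b₁ : U)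
    (H₀ : Set U) (β₀ : U) (D : Set U) : Prop where
  c1 : C₁ ⊆ H₀
  hd : H₀ ⊆ D
  is : Isd L H₀ β₀
  or : β₀ ∈ Orb L C₁ b₁
  wd : ∃ z ∈ Orb L H₀ β₀, Far L C z β₀
  ca : ∀ s : Bool, ∀ x ∈ Ge L H₀ β₀ s D, PI L C b y n w (insert x D) x

private theorem gSS_succ {U : Type} (A : Set U) (y : ℕ → U) (n : ℕ) :
    Bn A y (n + 1) = insert (y n) (Bn A y n) := by
  unfold Bn
  have h : {i : ℕ | i < n + 1} = insert n {i : ℕ | i < n} := by
    ext i
    show i < n + 1 ↔ i = n ∨ i < n
    omega
  rw [h, image_insert_eq, union_insert]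

private theorem gSS_zero {U : Type} (A : Set U) (y : ℕ → U) : Bn A y 0 = A := by
  unfold Bn
  have h : {i : ℕ | i < 0} = ∅ := by
    ext i
    simp
  rw [h, image_empty, union_empty]

/-- the neighbours of `q` in the finite set `F` -/
private theorem gSS_nb (F : Set ℚ) (hF : F.Finite) (q : ℚ) (h1 : ∃ p ∈ F, p < q)
    (h2 : ∃ p ∈ F, q < p) :
    ∃ q' ∈ F, ∃ q'' ∈ F, q' < q ∧ q < q'' ∧ (∀ p ∈ F, p < q → p ≤ q') ∧
      ∀ p ∈ F, q < p → q'' ≤ p := by
  obtain ⟨p1, hp1, hp1q⟩ := h1
  obtain ⟨p2, hp2, hp2q⟩ := h2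
  have hf1 : (F ∩ {p | p < q}).Finite := hF.inter_of_left _
  have hf2 : (F ∩ {p | q < p}).Finite := hF.inter_of_left _
  obtain ⟨q', ⟨hq', hq'q⟩, hmax⟩ := Set.exists_max_image (F ∩ {p | p < q}) id hf1
    ⟨p1, hp1, hp1q⟩
  obtain ⟨q'', ⟨hq'', hq''q⟩, hmin⟩ := Set.exists_min_image (F ∩ {p | q < p}) id hf2
    ⟨p2, hp2, hp2q⟩
  exact ⟨q', hq', q'', hq'', hq'q, hq''q, fun p hp hpq => hmax p ⟨hp, hpq⟩,
    fun p hp hpq => hmin p ⟨hp, hpq⟩⟩

/-- [gSS] -/
theorem thm_gSS (hORB : St_ORB) (hCNV : St_nCNV) (hGEX : St_nGEX) (hGER : St_nGER)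
    (hSDI : St_nSDI) (hISO : St_nISO) (hFAR : St_nFAR) (hIS : St_gIS) (hFC : St_gFC)
    (hPI : St_gPI) (hP4 : St_gP4) (hSN : St_gSN) : St_gSS := by
  intro L U _ _ hW hT hNI C b y n w t hC hNL C₁ b₁ hBs
  obtain ⟨o1, o2, o3, -, o5, -⟩ := hORB L U hW.mon
  obtain ⟨sdi1, -, sdi3, sdi4, -⟩ := hSDI L U hW
  have iso := hISO L U hW
  have cnv := (hCNV L U hW).2
  have gex := hGEX L U hW
  obtain ⟨-, ger2, -, -, -, -, ger7, -⟩ := hGER L U hW
  obtain ⟨-, is2, -, -, is5'⟩ := hIS L U hW hT
  have is5 := is5' hNI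
  have hCod := hC.1
  have hCf : C.Finite := hCod.fin
  have pI := hPI L U hW hT hNI C b y n w t hCod
  have p4 := hP4 L U hW hT hNI C b y n w t hC
  have sN := hSN L U hW hT hNI C b
  obtain ⟨hC₁f, hCC₁⟩ := hBs.fin
  have hO1 : Orb L C₁ b₁ ⊆ Orb L C b := by
    intro z hz
    have h := o3 C C₁ b₁ hCC₁ hz
    rwa [o2 C b b₁ hBs.b1] at h
  -- the elements of the orbit of a good pair
  have gO : ∀ (H₀ : Set U) (β₀ : U) (D : Set U), GSSg L C b y n w C₁ b₁ H₀ β₀ D →
      Orb L H₀ β₀ ⊆ Orb L C₁ b₁ := by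
    intro H₀ β₀ D hG z hz
    have h := o3 C₁ H₀ β₀ hG.c1 hz
    rwa [o2 C₁ b₁ β₀ hG.or] at h
  -- step 1 for good pairs
  have g1 : ∀ (H₀ : Set U) (β₀ : U) (D : Set U) (e : U), D.Finite → Isd L D e →
      GSSg L C b y n w C₁ b₁ H₀ β₀ D → GSSg L C b y n w C₁ b₁ H₀ β₀ (insert e D) := by
    intro H₀ β₀ D e hD he hG
    refine ⟨hG.c1, hG.hd.trans (subset_insert _ _), hG.is, hG.or, hG.wd, ?_⟩
    intro s x hx
    have hx' : x ∈ Ge L H₀ β₀ s D :=
      ger2 H₀ D (insert e D) β₀ s hG.hd (subset_insert _ _) (hD.insert e) hx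
    have h1 : Isd L (insert e D) x :=
      is5 H₀ (insert e D) β₀ x s (hG.hd.trans (subset_insert _ _)) (hD.insert e) hG.is hx
    have h2 : Isd L (insert x D) e := (is2 D x e hD he h1).2
    have h3 := (pI (insert x D) x (hD.insert x)
      ((hCC₁.trans (hG.c1.trans hG.hd)).trans (subset_insert _ _)) (mem_insert _ _)
      (hO1 (gO H₀ β₀ D hG hx'.1))).2.2.1 e h2 (hG.ca s x hx')
    rw [insert_comm x e D]
    exact h3
  -- stages and good pairs
  have sgG : ∀ (D : Set U) (F : Set ℚ) (β : ℚ → U) (H : ℚ → Set U),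
      Sg L C b y n w C₁ b₁ D F β H → ∀ q ∈ F, GSSg L C b y n w C₁ b₁ (H q) (β q) D := by
    intro D F β H hS q hq
    obtain ⟨-, h2, h3, h4, h5⟩ := hS.lab q hq
    exact ⟨h3, h2, h4, h5, hS.wide q hq, hS.can q hq⟩
  have sgG0 : ∀ (D : Set U) (F : Set ℚ) (β : ℚ → U) (H : ℚ → Set U),
      Sg L C b y n w C₁ b₁ D F β H → GSSg L C b y n w C₁ b₁ C₁ b₁ D := by
    intro D F β H hS
    exact ⟨Subset.rfl, hS.fin.2.2, hBs.iso, o1 _ _, hBs.wide, hS.can0⟩
  -- step 1
  have s1 : ∀ (D : Set U) (F : Set ℚ) (β : ℚ → U) (H : ℚ → Set U),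
      Sg L C b y n w C₁ b₁ D F β H → ∀ e : U, Isd L D e →
        Sg L C b y n w C₁ b₁ (insert e D) F β H := by
    intro D F β H hS e he
    have hD := hS.fin.1
    have hCD : C ⊆ D := hCC₁.trans hS.fin.2.2
    refine ⟨⟨hD.insert e, hS.fin.2.1, hS.fin.2.2.trans (subset_insert _ _)⟩, ?_, hS.wide, ?_, ?_,
      ?_, hS.hom, hS.far⟩
    · intro q hq
      obtain ⟨h1, h2, h3, h4, h5⟩ := hS.lab q hq
      exact ⟨mem_insert_of_mem _ h1, h2.trans (subset_insert _ _), h3, h4, h5⟩
    · intro q hq
      obtain ⟨h1, h2, h3, h4, h5⟩ := hS.lab q hq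
      exact (pI D (β q) hD hCD h1 (hO1 h5)).2.2.1 e he (hS.pi q hq)
    · intro q hq
      exact (g1 (H q) (β q) D e hD he (sgG D F β H hS q hq)).ca
    · exact (g1 C₁ b₁ D e hD he (sgG0 D F β H hS)).ca
  refine ⟨?_, ?_⟩
  · refine ⟨⟨hC₁f, finite_empty, Subset.rfl⟩, fun q hq => absurd hq (notMem_empty q),
      fun q hq => absurd hq (notMem_empty q), fun q hq => absurd hq (notMem_empty q),
      fun q hq => absurd hq (notMem_empty q), ?_, fun q hq => absurd hq (notMem_empty q),
      fun q hq => absurd hq (notMem_empty q)⟩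
    intro s x hx
    exact hBs.pi x hx.1
  intro D F β H hS
  have hD := hS.fin.1
  have hF := hS.fin.2.1
  have hC₁D := hS.fin.2.2
  have hCD : C ⊆ D := hCC₁.trans hC₁D
  have hβb : ∀ q ∈ F, β q ∈ Orb L C b := fun q hq => hO1 (hS.lab q hq).2.2.2.2
  refine ⟨s1 D F β H hS, ?_, ?_⟩
  · -- killing `a`
    intro a haD hab haF hPa
    obtain ⟨c1, -, -, -, c5, -⟩ := hFC L U hW hT C (insert b C) y n (hCf.insert b)
      (subset_insert _ _)
    obtain ⟨σ₀, hσ₀, hσ₀b⟩ := hab
    have hab : a ∈ Orb L C b := ⟨σ₀, hσ₀, hσ₀b⟩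
    obtain ⟨τ, hτ, hτA⟩ := c1 D σ₀ hD hσ₀
    have hτb : τ b = a := by rw [hτA b (mem_insert _ _), hσ₀b]
    have hτD : τ '' (insert b C) ⊆ D := by
      rintro _ ⟨x, hx, rfl⟩
      rcases hx with rfl | hx
      · rw [hτb]
        exact haD
      · rw [hτ.fx x hx]
        exact hCD hx
    obtain ⟨hch, hun⟩ := c5 hNI hCod.ch D τ hD hτD hτ
    -- step 1 along the chain
    have hstep : ∀ m, m ≤ n → Sg L C b y n w C₁ b₁ (Bn D (fun i => τ (y i)) m) F β H ∧
        PI L C b y n w (Bn D (fun i => τ (y i)) m) a := by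
      intro m
      induction m with
      | zero =>
        intro _
        rw [gSS_zero]
        exact ⟨hS, hPa⟩
      | succ m ih =>
        intro hm
        obtain ⟨i1, i2⟩ := ih (Nat.le_of_succ_le hm)
        have hi := hch m hm
        rw [gSS_succ]
        refine ⟨s1 _ F β H i1 _ hi, ?_⟩
        exact (pI (Bn D (fun i => τ (y i)) m) a i1.fin.1 (hCC₁.trans i1.fin.2.2)
          (Or.inl haD) hab).2.2.1 _ hi i2
    obtain ⟨hS₁, hPa₁⟩ := hstep n le_rfl
    rw [← hun] at hS₁ hPa₁
    have hτB : τ '' BB C b y n ⊆ D ∪ τ '' Bn (insert b C) y n := subset_union_right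
    have horb : Orb L (D ∪ τ '' Bn (insert b C) y n) (τ w) = Orb L (τ '' BB C b y n) (τ w) :=
      hPa τ hτ hτb
    generalize hD₁ : D ∪ τ '' Bn (insert b C) y n = D₁ at hS₁ hPa₁ hτB horb
    have hDD₁ : D ⊆ D₁ := by rw [← hD₁]; exact subset_union_left
    have hD₁f := hS₁.fin.1
    have hC₁D₁ := hS₁.fin.2.2
    have hCD₁ : C ⊆ D₁ := hCC₁.trans hC₁D₁
    have haD₁ : a ∈ D₁ := hDD₁ haD
    -- `τ w` is not isolated
    have hBf : (BB C b y n).Finite := (hCf.insert b).union ((finite_lt_nat n).image y)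
    have hnw : ¬ Isd L D₁ (τ w) := by
      intro h
      have h1 := (sdi3 (τ '' BB C b y n) D₁ (τ w) hτB hD₁f horb).1.1 h
      have h2 := (sdi4 τ (BB C b y n) w).1.1 h1
      have h3 := (sdi1 (BB C b y n) w hBf).1 h2
      refine hCod.nd ?_
      cases t with
      | true => exact h3.1
      | false => exact h3.2
    have hLG : ∀ x ∈ Orb L C b, (Far L C a x ∨ Far L C x a) → ¬ LG L C b y n w t x a := by
      intro x hx h
      exact hNL x hx a hab h.symm
    -- good pairs over `insert (τ w) D₁`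
    have g2 : ∀ (H₀ : Set U) (β₀ : U), GSSg L C b y n w C₁ b₁ H₀ β₀ D₁ →
        GSSg L C b y n w C₁ b₁ H₀ β₀ (insert (τ w) D₁) := by
      intro H₀ β₀ hG
      refine ⟨hG.c1, hG.hd.trans (subset_insert _ _), hG.is, hG.or, hG.wd, ?_⟩
      intro s x hx
      have hx' : x ∈ Ge L H₀ β₀ s D₁ :=
        ger2 H₀ D₁ (insert (τ w) D₁) β₀ s hG.hd (subset_insert _ _) (hD₁f.insert _) hx
      have hxb : x ∈ Orb L C b := hO1 (gO H₀ β₀ D₁ hG hx'.1)
      have h1 : Isd L D₁ x := is5 H₀ D₁ β₀ x s hG.hd hD₁f hG.is hx'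
      have h2 : Orb L (insert x D₁) (τ w) = Orb L D₁ (τ w) := by
        have h := (iso D₁ x (τ w) hD₁f h1 hnw).1
        unfold Nn at h
        push Not at h
        exact h
      have h3 : PI L C b y n w (insert x D₁) a :=
        (pI D₁ a hD₁f hCD₁ haD₁ hab).2.2.1 x h1 hPa₁
      have h4 := (sN H₀ D₁ β₀ x s (hCC₁.trans hG.c1) hG.hd hD₁f (hO1 hG.or) hG.wd hx').1 a haD₁ hab
      have h5 := p4 (insert x D₁) a x (τ w) τ (hD₁f.insert x)
        (hCD₁.trans (subset_insert _ _)) (mem_insert_of_mem _ haD₁) (mem_insert _ _) hab hxb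
        (hLG x hxb h4) hτ.fx hτb (hτB.trans (subset_insert _ _)) (h2.trans horb) (o1 _ _) h3
        (hG.ca s x hx')
      rw [insert_comm x (τ w) D₁]
      exact h5
    refine ⟨insert (τ w) D₁, hDD₁.trans (subset_insert _ _), ?_, ?_⟩
    · refine ⟨⟨hD₁f.insert _, hF, hC₁D₁.trans (subset_insert _ _)⟩, ?_, hS₁.wide, ?_, ?_,
        ?_, hS₁.hom, hS₁.far⟩
      · intro q hq
        obtain ⟨h1, h2, h3, h4, h5⟩ := hS₁.lab q hq
        exact ⟨mem_insert_of_mem _ h1, h2.trans (subset_insert _ _), h3, h4, h5⟩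
      · intro q hq
        obtain ⟨h1, h2, h3, h4, h5⟩ := hS₁.lab q hq
        have hfar : Far L C a (β q) ∨ Far L C (β q) a := by
          by_contra h
          push Not at h
          exact haF q hq h
        exact p4 D₁ a (β q) (τ w) τ hD₁f hCD₁ haD₁ h1 hab (hO1 h5) (hLG (β q) (hO1 h5) hfar)
          hτ.fx hτb hτB horb (o1 _ _) hPa₁ (hS₁.pi q hq)
      · intro q hq
        exact (g2 (H q) (β q) (sgG D₁ F β H hS₁ q hq)).ca
      · exact (g2 C₁ b₁ (sgG0 D₁ F β H hS₁)).ca
    · exact (pI D₁ a hD₁f hCD₁ haD₁ hab).2.2.2.2 τ (τ w) hτ.fx hτb hτB horb (o1 _ _)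
  · -- a new label
    intro q hq
    -- position
    have hpos : ∃ (H₀ : Set U) (β₀ : U) (s : Bool) (x : U), GSSg L C b y n w C₁ b₁ H₀ β₀ D ∧
        x ∈ Ge L H₀ β₀ s D ∧ (∀ p ∈ F, p < q → Far L C (β p) x) ∧
        ∀ p ∈ F, q < p → Far L C x (β p) := by
      by_cases hsing : Orb L C b = {b}
      · -- the degenerate case
        have hG := sgG0 D F β H hS
        obtain ⟨x, hx⟩ := (gex C₁ D b₁ true hC₁D hD).1
        have hxb : x ∈ Orb L C b := hO1 hx.1
        have hn := (sN C₁ D b₁ x true hCC₁ hC₁D hD hBs.b1 hBs.wide hx).1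
        have key : ∀ p ∈ F, Far L C (β p) x ∧ Far L C x (β p) := by
          intro p hp
          have h1 := hβb p hp
          have h2 := hn (β p) (hS.lab p hp).1 h1
          rw [hsing] at h1 hxb
          rw [mem_singleton_iff] at h1 hxb
          rw [h1, hxb] at h2 ⊢
          exact ⟨h2.elim id id, h2.elim id id⟩
        exact ⟨C₁, b₁, true, x, hG, hx, fun p hp _ => (key p hp).1, fun p hp _ => (key p hp).2⟩
      · obtain ⟨f1, -⟩ := hFAR L U hW C b hCf hsing
        -- elements of `D` are not beyond the new element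
        have nb : ∀ (H₀ : Set U) (β₀ : U) (s : Bool) (x : U), GSSg L C b y n w C₁ b₁ H₀ β₀ D →
            x ∈ Ge L H₀ β₀ s D → ∀ v ∈ D, v ∈ Orb L H₀ β₀ → ¬ leS s x v := by
          intro H₀ β₀ s x hG hx v hv hvO hle
          have h1 : v ∈ Ge L H₀ β₀ s D := ger7 H₀ D β₀ x v s hG.hd hD hx hvO hle
          rw [(gex H₀ D β₀ s hG.hd hD).2 x hx] at h1
          have h2 : Orb L D v = Orb L D x := o2 D x v h1
          have h3 : x ∈ Orb L D v := by rw [h2]; exact o1 _ _
          rw [o5 D v hv, mem_singleton_iff] at h3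
          obtain ⟨z, hz, hzx⟩ :=
            (sN H₀ D β₀ x s (hCC₁.trans hG.c1) hG.hd hD (hO1 hG.or) hG.wd hx).2
          rw [← h2, o5 D v hv, mem_singleton_iff] at hz
          have hxb : x ∈ Orb L C b := hO1 (gO H₀ β₀ D hG hx.1)
          rw [hz, ← h3] at hzx
          exact lt_irrefl x (f1 x hxb x hxb hzx)
        -- from the position to `Far`
        have fin : ∀ (H₀ : Set U) (β₀ : U) (s : Bool) (x : U), GSSg L C b y n w C₁ b₁ H₀ β₀ D →
            x ∈ Ge L H₀ β₀ s D → (∀ p ∈ F, p < q → β p < x) → (∀ p ∈ F, q < p → x < β p) →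
            (∀ p ∈ F, p < q → Far L C (β p) x) ∧ ∀ p ∈ F, q < p → Far L C x (β p) := by
          intro H₀ β₀ s x hG hx hl hr
          have hxb : x ∈ Orb L C b := hO1 (gO H₀ β₀ D hG hx.1)
          have hn := (sN H₀ D β₀ x s (hCC₁.trans hG.c1) hG.hd hD (hO1 hG.or) hG.wd hx).1
          constructor
          · intro p hp hpq
            rcases hn (β p) (hS.lab p hp).1 (hβb p hp) with h | h
            · exact h
            · exact absurd (f1 x hxb (β p) (hβb p hp) h) (lt_asymm (hl p hp hpq))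
          · intro p hp hpq
            rcases hn (β p) (hS.lab p hp).1 (hβb p hp) with h | h
            · exact absurd (f1 (β p) (hβb p hp) x hxb h) (lt_asymm (hr p hp hpq))
            · exact h
        have hmono : ∀ p ∈ F, ∀ p' ∈ F, p ≤ p' → β p ≤ β p' := by
          intro p hp p' hp' h
          rcases h.lt_or_eq with h | h
          · exact (f1 _ (hβb p hp) _ (hβb p' hp') (hS.far p hp p' hp' h)).le
          · rw [h]
        by_cases hlow : ∃ p ∈ F, p < q
        · by_cases hup : ∃ p ∈ F, q < p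
          · -- two neighbours
            obtain ⟨q', hq', q'', hq'', hq'q, hqq'', hmax, hmin⟩ := gSS_nb F hF q hlow hup
            have hlt : β q' < β q'' :=
              f1 _ (hβb q' hq') _ (hβb q'' hq'') (hS.far q' hq' q'' hq'' (hq'q.trans hqq''))
            rcases hS.hom q' hq' q'' hq'' (ne_of_lt (hq'q.trans hqq'')) with hh | hh
            · -- `β q' ∈ H q''`
              have hG := sgG D F β H hS q'' hq''
              obtain ⟨x, hx⟩ := (gex (H q'') D (β q'') false hG.hd hD).1
              have h1 : x < β q'' := by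
                by_contra h
                rw [not_lt] at h
                refine nb _ _ false x hG hx (β q'') (hS.lab q'' hq'').1 (o1 _ _) ?_
                unfold leS
                simpa using h
              have h2 : β q' < x := by
                by_contra h
                rw [not_lt] at h
                have h3 : β q' ∈ Orb L (H q'') (β q'') :=
                  (cnv (H q'') (β q'') (hD.subset hG.hd)).1.out hx.1 (o1 _ _) ⟨h, hlt.le⟩
                have h4 : Orb L (H q'') (β q') = Orb L (H q'') (β q'') := o2 _ _ _ h3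
                rw [o5 (H q'') (β q') hh] at h4
                have h5 : β q'' ∈ ({β q'} : Set U) := by rw [h4]; exact o1 _ _
                rw [mem_singleton_iff] at h5
                exact lt_irrefl _ (h5 ▸ hlt)
              obtain ⟨r1, r2⟩ := fin _ _ false x hG hx
                (fun p hp hpq => (hmono p hp q' hq' (hmax p hp hpq)).trans_lt h2)
                (fun p hp hpq => h1.trans_le (hmono q'' hq'' p hp (hmin p hp hpq)))
              exact ⟨_, _, false, x, hG, hx, r1, r2⟩
            · -- `β q'' ∈ H q'`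
              have hG := sgG D F β H hS q' hq'
              obtain ⟨x, hx⟩ := (gex (H q') D (β q') true hG.hd hD).1
              have h1 : β q' < x := by
                by_contra h
                rw [not_lt] at h
                refine nb _ _ true x hG hx (β q') (hS.lab q' hq').1 (o1 _ _) ?_
                unfold leS
                simpa using h
              have h2 : x < β q'' := by
                by_contra h
                rw [not_lt] at h
                have h3 : β q'' ∈ Orb L (H q') (β q') :=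
                  (cnv (H q') (β q') (hD.subset hG.hd)).1.out (o1 _ _) hx.1 ⟨hlt.le, h⟩
                have h4 : Orb L (H q') (β q'') = Orb L (H q') (β q') := o2 _ _ _ h3
                rw [o5 (H q') (β q'') hh] at h4
                have h5 : β q' ∈ ({β q''} : Set U) := by rw [h4]; exact o1 _ _
                rw [mem_singleton_iff] at h5
                exact lt_irrefl _ (h5 ▸ hlt)
              obtain ⟨r1, r2⟩ := fin _ _ true x hG hx
                (fun p hp hpq => (hmono p hp q' hq' (hmax p hp hpq)).trans_lt h1)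
                (fun p hp hpq => h2.trans_le (hmono q'' hq'' p hp (hmin p hp hpq)))
              exact ⟨_, _, true, x, hG, hx, r1, r2⟩
          · -- no label above
            have hG := sgG0 D F β H hS
            obtain ⟨x, hx⟩ := (gex C₁ D b₁ true hC₁D hD).1
            obtain ⟨r1, r2⟩ := fin _ _ true x hG hx
              (fun p hp hpq => by
                by_contra h
                rw [not_lt] at h
                refine nb _ _ true x hG hx (β p) (hS.lab p hp).1 (hS.lab p hp).2.2.2.2 ?_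
                unfold leS
                simpa using h)
              (fun p hp hpq => absurd ⟨p, hp, hpq⟩ hup)
            exact ⟨C₁, b₁, true, x, hG, hx, r1, r2⟩
        · -- no label below
          have hG := sgG0 D F β H hS
          obtain ⟨x, hx⟩ := (gex C₁ D b₁ false hC₁D hD).1
          obtain ⟨r1, r2⟩ := fin _ _ false x hG hx
            (fun p hp hpq => absurd ⟨p, hp, hpq⟩ hlow)
            (fun p hp hpq => by
              by_contra h
              rw [not_lt] at h
              refine nb _ _ false x hG hx (β p) (hS.lab p hp).1 (hS.lab p hp).2.2.2.2 ?_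
              unfold leS
              simpa using h)
          exact ⟨C₁, b₁, false, x, hG, hx, r1, r2⟩
    obtain ⟨H₀, β₀, s, x, hG, hx, hl, hr⟩ := hpos
    have hxb₁ : x ∈ Orb L C₁ b₁ := gO H₀ β₀ D hG hx.1
    have hxb : x ∈ Orb L C b := hO1 hxb₁
    have hxi : Isd L D x := is5 H₀ D β₀ x s hG.hd hD hG.is hx
    have hSx := s1 D F β H hS x hxi
    have hne : ∀ p ∈ F, p ≠ q := fun p hp h => hq (h ▸ hp)
    have uβ : ∀ p ∈ F, Function.update β q x p = β p := fun p hp =>
      Function.update_of_ne (hne p hp) _ _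
    have uH : ∀ p ∈ F, Function.update H q D p = H p := fun p hp =>
      Function.update_of_ne (hne p hp) _ _
    have uβq : Function.update β q x q = x := Function.update_self _ _ _
    have uHq : Function.update H q D q = D := Function.update_self _ _ _
    refine ⟨x, ⟨hD.insert x, hF.insert q, hC₁D.trans (subset_insert _ _)⟩, ?_, ?_, ?_, ?_,
      hSx.can0, ?_, ?_⟩
    · intro p hp
      rcases mem_insert_iff.1 hp with rfl | hp
      · rw [uβq, uHq]
        exact ⟨mem_insert _ _, subset_insert _ _, hC₁D, hxi, hxb₁⟩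
      · rw [uβ p hp, uH p hp]
        exact hSx.lab p hp
    · intro p hp
      rcases mem_insert_iff.1 hp with rfl | hp
      · rw [uβq, uHq]
        exact (sN H₀ D β₀ x s (hCC₁.trans hG.c1) hG.hd hD (hO1 hG.or) hG.wd hx).2
      · rw [uβ p hp, uH p hp]
        exact hSx.wide p hp
    · intro p hp
      rcases mem_insert_iff.1 hp with rfl | hp
      · rw [uβq]
        exact hG.ca s x hx
      · rw [uβ p hp]
        exact hSx.pi p hp
    · intro p hp
      rcases mem_insert_iff.1 hp with rfl | hp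
      · rw [uβq, uHq]
        intro s' x' hx'
        have h1 : x' ∈ Ge L H₀ β₀ s D := by
          rw [(gex H₀ D β₀ s hG.hd hD).2 x hx]
          exact hx'.1
        have h2 : Isd L (insert x D) x' :=
          is5 D (insert x D) x x' s' (subset_insert _ _) (hD.insert x) hxi hx'
        have h3 : Isd L (insert x' D) x := (is2 D x' x hD hxi h2).2
        have h4 := (pI (insert x' D) x' (hD.insert x') (hCD.trans (subset_insert _ _))
          (mem_insert _ _) (hO1 (gO H₀ β₀ D hG h1.1))).2.2.1 x h3 (hG.ca s x' h1)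
        rw [insert_comm x' x D]
        exact h4
      · rw [uβ p hp, uH p hp]
        exact hSx.can p hp
    · intro p hp p' hp' hpp'
      rcases mem_insert_iff.1 hp with rfl | hpF
      · rcases mem_insert_iff.1 hp' with rfl | hpF'
        · exact absurd rfl hpp'
        · right
          rw [uβ p' hpF', uHq]
          exact (hS.lab p' hpF').1
      · rcases mem_insert_iff.1 hp' with rfl | hpF'
        · left
          rw [uβ p hpF, uHq]
          exact (hS.lab p hpF).1
        · rw [uβ p hpF, uH p hpF, uβ p' hpF', uH p' hpF']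
          exact hS.hom p hpF p' hpF' hpp'
    · intro p hp p' hp' hpp'
      rcases mem_insert_iff.1 hp with rfl | hpF
      · rcases mem_insert_iff.1 hp' with rfl | hpF'
        · exact absurd hpp' (lt_irrefl _)
        · rw [uβq, uβ p' hpF']
          exact hr p' hpF' hpp'
      · rcases mem_insert_iff.1 hp' with rfl | hpF'
        · rw [uβq, uβ p hpF]
          exact hl p hpF hpp'
        · rw [uβ p hpF, uβ p' hpF']
          exact hS.far p hpF p' hpF' hpp'

end Pool.Agent.WOM
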