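import Pool.Agent.WOL.StG3

/-! WOL: module gTO, the orbit of a chain is definable (helper33). -/

set_option autoImplicit false

namespace Pool.Agent.WOM

open FirstOrder.Language Set
open scoped FirstOrder

section

variable {L : FirstOrder.Language.{0, 0}} {U : Type} [L.Structure U]

private theorem gTO_inv {α : Type} {A : Set U} {φ : Set (α → U)} (h : A.Definable L φ)
    {κ : U ≃[L] U} (hκ : Fx L A κ) (v : α → U) : (fun i => κ (v i)) ∈ φ ↔ v ∈ φ := by
  obtain ⟨ψ, rfl⟩ := definable_iff_exists_formula_sum.1 h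
  rw [mem_ofPred_eq, mem_ofPred_eq]
  have h1 : Sum.elim (fun a : A => (a : U)) (fun i => κ (v i)) =
      κ ∘ Sum.elim (fun a : A => (a : U)) v := by
    funext t
    rcases t with t | t
    · exact (hκ t t.2).symm
    · rfl
  rw [h1]
  exact FirstOrder.Language.StrongHomClass.realize_formula κ ψ

private theorem gTO_fib {A : Set U} {n : ℕ} {c : Fin n → U} {s : Set U}
    (h : (A ∪ range c).Definable₁ L s) :
    ∃ φ : Set (Fin (n + 1) → U), A.Definable L φ ∧
      ∀ x : U, x ∈ s ↔ (Fin.snoc c x : Fin (n + 1) → U) ∈ φ := by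
  classical
  obtain ⟨ψ, hψ⟩ := definable_iff_exists_formula_sum.1 h
  have hc : ∀ a : (A ∪ range c : Set U), (a : U) ∉ A → ∃ i : Fin n, c i = a := fun a ha =>
    a.2.resolve_left ha
  let σ : (A ∪ range c : Set U) ⊕ Fin 1 → A ⊕ Fin (n + 1) :=
    Sum.elim (fun a : (A ∪ range c : Set U) =>
      if ha : (a : U) ∈ A then Sum.inl ⟨a, ha⟩ else
        Sum.inr (Fin.castSucc (hc a ha).choose)) fun _ => Sum.inr (Fin.last n)
  refine ⟨{v | (ψ.relabel σ).Realize (Sum.elim (fun a : A => (a : U)) v)},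
    definable_iff_exists_formula_sum.2 ⟨ψ.relabel σ, rfl⟩, fun x => ?_⟩
  have h0 : x ∈ s ↔ ![x] ∈ {v : Fin 1 → U | v 0 ∈ s} := Iff.rfl
  have h1 : (Sum.elim (fun a : A => (a : U)) (Fin.snoc c x : Fin (n + 1) → U)) ∘ σ =
      Sum.elim (fun a : (A ∪ range c : Set U) => (a : U)) ![x] := by
    funext z
    rcases z with z | z
    · by_cases ha : (z : U) ∈ A
      · have h2 : σ (Sum.inl z) = Sum.inl ⟨z, ha⟩ := dif_pos ha
        rw [Function.comp_apply, h2]
        rfl
      · have h2 : σ (Sum.inl z) = Sum.inr (Fin.castSucc (hc z ha).choose) := dif_neg ha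
        rw [Function.comp_apply, h2]
        show (Fin.snoc c x : Fin (n + 1) → U) (Fin.castSucc (hc z ha).choose) = (z : U)
        rw [Fin.snoc_castSucc]
        exact (hc z ha).choose_spec
    · have h4 : z = 0 := Subsingleton.elim _ _
      subst h4
      show (Fin.snoc c x : Fin (n + 1) → U) (Fin.last n) = x
      rw [Fin.snoc_last]
  rw [h0, hψ, mem_ofPred_eq, mem_ofPred_eq, FirstOrder.Language.Formula.realize_relabel, h1]

private theorem gTO_bn (A : Set U) (y : ℕ → U) (n : ℕ) :
    Bn A y n = A ∪ range (fun i : Fin n => y i) := by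
  unfold Bn
  congr 1
  ext x
  constructor
  · rintro ⟨i, hi, rfl⟩
    exact ⟨⟨i, hi⟩, rfl⟩
  · rintro ⟨i, rfl⟩
    exact ⟨i, i.2, rfl⟩

end

theorem thm_gTO : St_gTO := by
  intro L U _ _ _ A y n _ hch
  induction n with
  | zero =>
    have h : {z : Fin 0 → U | ∃ κ : U ≃[L] U, Fx L A κ ∧ ∀ i : Fin 0, κ (y i) = z i} = univ := by
      ext z
      exact ⟨fun _ => mem_univ _, fun _ =>
        ⟨FirstOrder.Language.Equiv.refl L U, fun a _ => rfl, fun i => i.elim0⟩⟩
    rw [h]
    exact definable_univ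
  | succ n ih =>
    have ih' := ih (fun i hi => hch i (Nat.lt_succ_of_lt hi))
    have hI : Isd L (A ∪ range (fun i : Fin n => y i)) (y n) := by
      rw [← gTO_bn]
      exact hch n (Nat.lt_succ_self n)
    obtain ⟨φ, hφ, hs⟩ := gTO_fib hI
    have e : {z : Fin (n + 1) → U | ∃ κ : U ≃[L] U, Fx L A κ ∧ ∀ i : Fin (n + 1), κ (y i) = z i} =
        (fun g : Fin (n + 1) → U => g ∘ Fin.castSucc) ⁻¹'
          {z : Fin n → U | ∃ κ : U ≃[L] U, Fx L A κ ∧ ∀ i : Fin n, κ (y i) = z i} ∩ φ := by
      ext z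
      constructor
      · rintro ⟨κ, hκ, hz⟩
        refine ⟨⟨κ, hκ, fun i => hz (Fin.castSucc i)⟩, ?_⟩
        have h1 : (Fin.snoc (fun i : Fin n => y i) (y n) : Fin (n + 1) → U) ∈ φ := by
          rw [← hs]
          exact ⟨FirstOrder.Language.Equiv.refl L U, fun a _ => rfl, rfl⟩
        have h2 := (gTO_inv hφ hκ _).2 h1
        have h3 : (fun i => κ ((Fin.snoc (fun i : Fin n => y i) (y n) : Fin (n + 1) → U) i)) =
            z := by
          funext i
          refine Fin.lastCases ?_ (fun j => ?_) i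
          · rw [Fin.snoc_last]
            exact hz (Fin.last n)
          · rw [Fin.snoc_castSucc]
            exact hz (Fin.castSucc j)
        rwa [h3] at h2
      · rintro ⟨⟨κ, hκ, hz⟩, h1⟩
        have hz' : ∀ j : Fin n, κ (y j) = z (Fin.castSucc j) := hz
        have h3 : (fun i => κ ((Fin.snoc (fun i : Fin n => y i) (κ.symm (z (Fin.last n))) :
            Fin (n + 1) → U) i)) = z := by
          funext i
          refine Fin.lastCases ?_ (fun j => ?_) i
          · rw [Fin.snoc_last]
            exact κ.apply_symm_apply _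
          · rw [Fin.snoc_castSucc]
            exact hz' j
        rw [← h3, gTO_inv hφ hκ, ← hs] at h1
        obtain ⟨ρ, hρ, hρy⟩ := h1
        refine ⟨κ.comp ρ, fun a ha => ?_, fun i => ?_⟩
        · show κ (ρ a) = a
          rw [hρ a (Or.inl ha), hκ a ha]
        · show κ (ρ (y i)) = z i
          refine Fin.lastCases ?_ (fun j => ?_) i
          · show κ (ρ (y n)) = z (Fin.last n)
            rw [hρy]
            exact κ.apply_symm_apply _
          · show κ (ρ (y j)) = z (Fin.castSucc j)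
            rw [hρ (y j) (Or.inr ⟨j, rfl⟩)]
            exact hz' j
    rw [e]
    exact (ih'.preimage_comp Fin.castSucc).inter hφ

end Pool.Agent.WOM
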