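import Pool.Agent.WOL.StG

/-!
WOL, gTS: weak orthogonality of uncut types persists.
-/

set_option autoImplicit false
set_option linter.unusedVariables false

namespace Pool.Agent.WOM

open FirstOrder.Language Set
open scoped FirstOrder

private lemma gTS_anti (L : FirstOrder.Language.{0, 0}) (U : Type) [L.Structure U] (A B : Set U)
    (h : A ⊆ B) (u : U) : Orb L B u ⊆ Orb L A u := by
  rintro y ⟨g, hg, rfl⟩
  exact ⟨g, fun a ha => hg a (h ha), rfl⟩

private lemma gTS_aux (L : FirstOrder.Language.{0, 0}) (U : Type) [L.Structure U]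
    (hT : TRV L U) (u v : U) (S : Set U) (hS : S.Finite) :
    ∀ A : Set U, A.Finite → Orb L (S ∪ A) u = Orb L A u → Orb L (S ∪ A) v = Orb L A v →
      ¬ Nn L A u v → ¬ Nn L (S ∪ A) u v := by
  induction S, hS using Set.Finite.induction_on with
  | empty =>
    intro A hA _ _ hn
    rwa [Set.empty_union]
  | @insert x S hx hS ih =>
    intro A hA hu hv hn
    have hB : insert x S ∪ A = S ∪ insert x A := by
      rw [Set.insert_union, Set.union_insert]
    rw [hB] at hu hv ⊢
    have h1 : A ⊆ insert x A := Set.subset_insert x A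
    have h2 : insert x A ⊆ S ∪ insert x A := Set.subset_union_right
    have hu1 : Orb L (insert x A) u = Orb L A u :=
      Set.Subset.antisymm (gTS_anti L U A (insert x A) h1 u)
        (by rw [← hu]; exact gTS_anti L U (insert x A) (S ∪ insert x A) h2 u)
    have hv1 : Orb L (insert x A) v = Orb L A v :=
      Set.Subset.antisymm (gTS_anti L U A (insert x A) h1 v)
        (by rw [← hv]; exact gTS_anti L U (insert x A) (S ∪ insert x A) h2 v)
    refine ih (insert x A) (hA.insert x) (hu.trans hu1.symm) (hv.trans hv1.symm) ?_
    exact hT A x u v hA (fun h => h hu1) (fun h => h hv1) hn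

theorem thm_gTS : St_gTS := by
  intro L U _ _ hW hT A B u v hAB hB hu hv hn
  have h := gTS_aux L U hT u v B hB A (hB.subset hAB)
  rw [Set.union_eq_self_of_subset_right hAB] at h
  exact h hu hv hn

end Pool.Agent.WOM
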