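import Pool.Agent.WOL.StG2
import Pool.Agent.WOM.SDF

/-!
WOL, module gTV (helper23): two-sided types, one element.
-/

set_option autoImplicit false
set_option linter.unusedVariables false

namespace Pool.Agent.WOM

open FirstOrder.Language Set
open scoped FirstOrder

/-- the pairs which are conjugate to `(b, w)` over `D` -/
private def gTVR (L : FirstOrder.Language.{0, 0}) {U : Type} [L.Structure U] (D : Set U)
    (b w y x : U) : Prop := ∃ σ : U ≃[L] U, Fx L D σ ∧ σ b = y ∧ σ w = x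

section R

variable {L : FirstOrder.Language.{0, 0}} {U : Type} [L.Structure U] {D : Set U} {b w : U}

private theorem gTV_fxc {A : Set U} {σ τ : U ≃[L] U} (h : Fx L A σ) (h' : Fx L A τ) :
    Fx L A (σ.comp τ) := fun a ha => by
  rw [FirstOrder.Language.Equiv.comp_apply, h' a ha, h a ha]

private theorem gTV_fxs {A : Set U} {σ : U ≃[L] U} (h : Fx L A σ) : Fx L A σ.symm := fun a ha => by
  have h1 := σ.symm_apply_apply a
  rw [h a ha] at h1
  exact h1

private theorem gTV_sy {σ : U ≃[L] U} {x y : U} (h : σ x = y) : σ.symm y = x := by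
  rw [← h]
  exact σ.symm_apply_apply x

private theorem gTV_img {A : Set U} {σ : U ≃[L] U} (h : Fx L A σ) : σ '' A = A := by
  ext a
  constructor
  · rintro ⟨c, hc, rfl⟩
    rw [h c hc]
    exact hc
  · intro ha
    exact ⟨a, ha, h a ha⟩

private theorem gTV_r0 : gTVR L D b w b w :=
  ⟨FirstOrder.Language.Equiv.refl L U, fun a _ => rfl, rfl, rfl⟩

private theorem gTV_r1 {y x : U} (h : gTVR L D b w y x) : y ∈ Orb L D b ∧ x ∈ Orb L D w := by
  obtain ⟨σ, hσ, h1, h2⟩ := h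
  exact ⟨⟨σ, hσ, h1⟩, ⟨σ, hσ, h2⟩⟩

private theorem gTV_r2 {y x x' : U} (h : gTVR L D b w y x) :
    gTVR L D b w y x' ↔ x' ∈ Orb L (insert y D) x := by
  obtain ⟨σ, hσ, h1, h2⟩ := h
  constructor
  · rintro ⟨σ', hσ', h1', h2'⟩
    refine ⟨σ'.comp σ.symm, ?_, ?_⟩
    · rintro a (rfl | ha)
      · rw [FirstOrder.Language.Equiv.comp_apply, gTV_sy h1, h1']
      · exact gTV_fxc hσ' (gTV_fxs hσ) a ha
    · rw [FirstOrder.Language.Equiv.comp_apply, gTV_sy h2, h2']
  · rintro ⟨ρ, hρ, h3⟩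
    refine ⟨ρ.comp σ, gTV_fxc (fun a ha => hρ a (mem_insert_of_mem _ ha)) hσ, ?_, ?_⟩
    · rw [FirstOrder.Language.Equiv.comp_apply, h1]
      exact hρ y (mem_insert _ _)
    · rw [FirstOrder.Language.Equiv.comp_apply, h2, h3]

private theorem gTV_r3 {y y' x : U} (h : gTVR L D b w y x) :
    gTVR L D b w y' x ↔ y' ∈ Orb L (insert x D) y := by
  obtain ⟨σ, hσ, h1, h2⟩ := h
  constructor
  · rintro ⟨σ', hσ', h1', h2'⟩
    refine ⟨σ'.comp σ.symm, ?_, ?_⟩
    · rintro a (rfl | ha)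
      · rw [FirstOrder.Language.Equiv.comp_apply, gTV_sy h2, h2']
      · exact gTV_fxc hσ' (gTV_fxs hσ) a ha
    · rw [FirstOrder.Language.Equiv.comp_apply, gTV_sy h1, h1']
  · rintro ⟨ρ, hρ, h3⟩
    refine ⟨ρ.comp σ, gTV_fxc (fun a ha => hρ a (mem_insert_of_mem _ ha)) hσ, ?_, ?_⟩
    · rw [FirstOrder.Language.Equiv.comp_apply, h1, h3]
    · rw [FirstOrder.Language.Equiv.comp_apply, h2]
      exact hρ x (mem_insert _ _)

private theorem gTV_r4 {y x : U} {τ : U ≃[L] U} (hτ : Fx L D τ) (h : gTVR L D b w y x) :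
    gTVR L D b w (τ y) (τ x) := by
  obtain ⟨σ, hσ, h1, h2⟩ := h
  exact ⟨τ.comp σ, gTV_fxc hτ hσ, by rw [FirstOrder.Language.Equiv.comp_apply, h1],
    by rw [FirstOrder.Language.Equiv.comp_apply, h2]⟩

private theorem gTV_r5 {y : U} (h : y ∈ Orb L D b) : ∃ x, gTVR L D b w y x := by
  obtain ⟨σ, hσ, h1⟩ := h
  exact ⟨σ w, σ, hσ, h1, rfl⟩

private theorem gTV_r6 {x : U} (h : x ∈ Orb L D w) : ∃ y, gTVR L D b w y x := by
  obtain ⟨σ, hσ, h1⟩ := h
  exact ⟨σ b, σ, hσ, rfl, h1⟩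

end R

section A

variable {L : FirstOrder.Language.{0, 0}} {U : Type} [L.Structure U] [LinearOrder U] {D : Set U}
  {b w : U}

/-- two-sidedness is preserved -/
private theorem gTV_two (hSDI : St_nSDI) (hW : Wn L U) (hts : ∀ t, ¬ SD L (insert b D) w t)
    {y x : U} (h : gTVR L D b w y x) (t : Bool) : ¬ SD L (insert y D) x t := by
  obtain ⟨σ, hσ, rfl, rfl⟩ := h
  intro h1
  obtain ⟨-, -, -, s4, -⟩ := hSDI L U hW
  have h2 := (s4 σ (insert b D) w).2 t
  rw [image_insert_eq, gTV_img hσ] at h2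
  exact hts t (h2.1 h1)

/-- (A0) -/
private theorem gTV_A0 (hNSB : St_NSB) (hPN : St_gPN) (hW : Wn L U) {A : Set U} (hA : A.Finite) {u v : U}
    (t : Bool) (hu : SD L A u t) (hv : ∀ t', ¬ SD L A v t') : ¬ Nn L A u v ∧ ¬ Nn L A v u := by
  obtain ⟨n1, -⟩ := hNSB L U
  obtain ⟨-, -, p3⟩ := hPN L U hW
  have h : ¬ Nn L A u v := by
    intro h1
    obtain ⟨t', h2⟩ := p3 A u v t hA h1 hu
    exact hv t' h2
  exact ⟨h, fun h1 => h (n1 A v u h1)⟩

private theorem gTV_nn {A : Set U} {x z : U} (h : ¬ Nn L A x z) : Orb L (insert x A) z = Orb L A z := by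
  by_contra h1
  exact h h1

/-- (A1) -/
private theorem gTV_A1 (hORB : St_ORB) (hNSB : St_NSB) (hSDI : St_nSDI) (hPN : St_gPN) (hW : Wn L U)
    (hNA : NA L U) (hD : D.Finite) (hts : ∀ t, ¬ SD L (insert b D) w t) {y x y' : U}
    (h : gTVR L D b w y x) (hy' : y' ∈ Orb L D b) :
    Orb L (insert y' (insert y D)) x = Orb L (insert y D) x := by
  obtain ⟨o1, o2, -⟩ := hORB L U hW.mon
  have htw := gTV_two hSDI hW hts h
  by_cases he : y' = y
  · rw [he, insert_idem]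
  have hy : Orb L D y = Orb L D b := o2 _ _ _ (gTV_r1 h).1
  have hy'y : y' ∈ Orb L D y := by rw [hy]; exact hy'
  have hsd : ∃ t, SD L (insert y D) y' t := by
    rcases le_total y y' with h1 | h1
    · refine ⟨!true, hNA D y y' true hD hy'y he ?_⟩
      simpa [leS] using h1
    · refine ⟨!false, hNA D y y' false hD hy'y he ?_⟩
      simpa [leS] using h1
  obtain ⟨t, ht⟩ := hsd
  exact gTV_nn (gTV_A0 hNSB hPN hW (hD.insert y) t ht htw).1

/-- (A2) -/
private theorem gTV_A2 (hORB : St_ORB) (hNSB : St_NSB) (hSDI : St_nSDI) (hPN : St_gPN) (hW : Wn L U)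
    (hNA : NA L U) (hD : D.Finite) (hts : ∀ t, ¬ SD L (insert b D) w t) {y x y' : U}
    (h : gTVR L D b w y x) (h' : gTVR L D b w y' x) (x' : U) :
    gTVR L D b w y x' ↔ gTVR L D b w y' x' := by
  rw [gTV_r2 h, gTV_r2 h', ← gTV_A1 hORB hNSB hSDI hPN hW hNA hD hts h (gTV_r1 h').1,
    ← gTV_A1 hORB hNSB hSDI hPN hW hNA hD hts h' (gTV_r1 h).1, insert_comm]

/-- (A3) -/
private theorem gTV_A3 (hORB : St_ORB) (hNSB : St_NSB) (hGEX : St_nGEX) (hSDI : St_nSDI) (hFAR : St_nFAR)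
    (hPN : St_gPN) (hW : Wn L U) (hNA : NA L U) (hD : D.Finite) (hts : ∀ t, ¬ SD L (insert b D) w t)
    (hN : Nn L D b w) {y x y' : U} (hf : Far L D y y') (h : gTVR L D b w y x)
    (h' : gTVR L D b w y' x) : False := by
  obtain ⟨o1, o2, o3, -⟩ := hORB L U hW.mon
  obtain ⟨-, -, -, -, n5, -⟩ := hNSB L U
  have hne := (n5 D b w hN).1
  obtain ⟨-, -, -, -, -, f6, f7, -⟩ := hFAR L U hW D b hD hne
  have hA2 := @gTV_A2 L U _ _ D b w hORB hNSB hSDI hPN hW hNA hD hts
  -- all far pairs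
  have hfar : ∀ a ∈ Orb L D b, ∀ a', Far L D a a' → ∀ z, gTVR L D b w a z ↔ gTVR L D b w a' z := by
    intro a ha a' haa z
    obtain ⟨σ, hσ, h1, h2⟩ := f7 y (gTV_r1 h).1 a ha y' a' hf haa
    have h3 := gTV_r4 hσ h
    have h4 := gTV_r4 hσ h'
    rw [h1] at h3
    rw [h2] at h4
    exact hA2 h3 h4 z
  -- all pairs
  have hall : ∀ a ∈ Orb L D b, ∀ z, gTVR L D b w a z → gTVR L D b w b z := by
    intro a ha z hz
    have hfin : (insert a (insert b D)).Finite := (hD.insert b).insert a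
    have hsub : D ⊆ insert a (insert b D) :=
      (subset_insert _ _).trans (subset_insert _ _)
    obtain ⟨⟨c, hc⟩, -⟩ := hGEX L U hW D (insert a (insert b D)) b true hsub hfin
    have h1 := (f6 a ha _ hsub hfin (mem_insert _ _)).1 c hc
    have h2 := (f6 b (o1 D b) _ hsub hfin (mem_insert_of_mem _ (mem_insert _ _))).1 c hc
    exact (hfar b (o1 D b) c h2 z).2 ((hfar a ha c h1 z).1 hz)
  apply hN
  apply subset_antisymm (o3 _ _ _ (subset_insert _ _))
  intro z hz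
  obtain ⟨a, ha⟩ := gTV_r6 (b := b) hz
  exact (gTV_r2 gTV_r0).1 (hall a (gTV_r1 ha).1 z ha)

/-- (A5), the side `true` -/
private theorem gTV_A5 (hORB : St_ORB) (hNSB : St_NSB) (hCNV : St_nCNV) (hGEX : St_nGEX)
    (hGER : St_nGER) (hSDI : St_nSDI) (hFAR : St_nFAR) (hSDF : St_SDF) (hSFX : St_SFX)
    (hPN : St_gPN) (hW : Wn L U) (hNA : NA L U) (hNI : NI L U) (hD : D.Finite)
    (hts : ∀ t, ¬ SD L (insert b D) w t) (hN : Nn L D b w) : ¬ SD L (insert w D) b true := by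
  intro hK
  have hord := hW.ord
  obtain ⟨o1, o2, o3, -, -, o6, -, o8, -⟩ := hORB L U hW.mon
  obtain ⟨-, -, -, -, n5, -⟩ := hNSB L U
  have hne := (n5 D b w hN).1
  obtain ⟨hmon, hcv⟩ := hCNV L U hW
  have hmonl : ∀ (σ : U ≃[L] U) (x y : U), x ≤ y ↔ σ x ≤ σ y := by
    intro σ x y
    rw [← not_lt, ← not_lt, hmon σ y x]
  have hA2 := @gTV_A2 L U _ _ D b w hORB hNSB hSDI hPN hW hNA hD hts
  have hA3 := @gTV_A3 L U _ _ D b w hORB hNSB hGEX hSDI hFAR hPN hW hNA hD hts hN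
  have hbw : gTVR L D b w b w := gTV_r0
  -- the class of `b`
  have hB0 : ∀ y, gTVR L D b w y w ↔ y ∈ Orb L (insert w D) b := fun y => gTV_r3 hbw
  have hKc : Cls true (Orb L (insert w D) b) = {u | ∃ v, gTVR L D b w v w ∧ u ≤ v} := by
    ext u
    constructor
    · rintro ⟨v, hv, h⟩
      refine ⟨v, (hB0 v).2 hv, ?_⟩
      simpa [leS] using h
    · rintro ⟨v, hv, h⟩
      refine ⟨v, (hB0 v).1 hv, ?_⟩
      simpa [leS] using h
  have hK' : (insert w D).Definable₁ L {u | ∃ v, gTVR L D b w v w ∧ u ≤ v} := by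
    rw [← hKc]
    exact hK
  obtain ⟨K, hKd⟩ : ∃ K : Set U, K = {u | ∃ v, gTVR L D b w v w ∧ u ≤ v} := ⟨_, rfl⟩
  rw [← hKd] at hK'
  have hKb : (insert b D).Definable₁ L K := by
    refine o8 (insert b D) (insert w D) K (hD.insert b) (hD.insert w) hK' ?_
    intro x hx x' hx'
    obtain ⟨σ, hσ, rfl⟩ := hx'
    rw [hKd] at hx ⊢
    obtain ⟨v, hv, hxv⟩ := hx
    have hσD : Fx L D σ := fun a ha => hσ a (mem_insert_of_mem _ ha)
    have hσb : σ b = b := hσ b (mem_insert _ _)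
    have h1 := gTV_r4 hσD hv
    have h2 := gTV_r4 hσD hbw
    rw [hσb] at h2
    exact ⟨σ v, (hA2 h1 h2 w).2 hbw, (hmonl σ _ _).1 hxv⟩
  have hKl : Low K := by
    rw [hKd]
    rintro x ⟨v, hv, hxv⟩ y hy
    exact ⟨v, hv, hy.trans hxv⟩
  have hbK : b ∈ K := by
    rw [hKd]
    exact ⟨b, hbw, le_rfl⟩
  obtain ⟨-, -, -, -, -, -, -, s8⟩ := hSDF L U hord
  obtain ⟨k, hk, hkl, hks, hkb⟩ := s8 D b K hKb hKl hbK
  have hinv := (hSFX L U hW.mon).1
  have hkchar : ∀ y ∈ Orb L D b, (b ∈ k y ↔ ∃ v x, b ≤ v ∧ gTVR L D b w v x ∧ gTVR L D b w y x) := by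
    rintro y ⟨σ, hσ, rfl⟩
    rw [hinv D k σ hk hσ b, hkb, hKd]
    have hσw : gTVR L D b w (σ b) (σ w) := gTV_r4 hσ hbw
    constructor
    · rintro ⟨u, ⟨v, hv, huv⟩, hu⟩
      refine ⟨σ v, σ w, ?_, gTV_r4 hσ hv, hσw⟩
      rw [← hu]
      exact (hmonl σ _ _).1 huv
    · rintro ⟨v, x, hbv, hvx, hyx⟩
      have h1 : gTVR L D b w v (σ w) := (hA2 hyx hvx (σ w)).1 hσw
      have h2 := gTV_r4 (gTV_fxs hσ) h1
      rw [gTV_sy (rfl : σ w = σ w)] at h2
      refine ⟨σ.symm b, ⟨σ.symm v, h2, (hmonl σ.symm _ _).1 hbv⟩, ?_⟩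
      exact σ.apply_symm_apply b
  -- the point p
  obtain ⟨⟨p, hp⟩, -⟩ := hGEX L U hW D (insert b D) b false (subset_insert _ _) (hD.insert b)
  obtain ⟨f1, -, -, -, -, f6, -⟩ := hFAR L U hW D b hD hne
  have hf6 := (f6 b (o1 D b) (insert b D) (subset_insert _ _) (hD.insert b) (mem_insert _ _)).2
  have hpQ : p ∈ Orb L D b := hp.1
  obtain ⟨-, -, -, -, -, -, g7, -⟩ := hGER L U hW
  have hplt : ∀ y, gTVR L D b w y w → p < y := by
    intro y hy
    by_contra h
    have h1 : leS false p y := by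
      simpa [leS] using not_lt.1 h
    have h2 := g7 D (insert b D) b p y false (subset_insert _ _) (hD.insert b) hp (gTV_r1 hy).1 h1
    exact hA3 (hf6 y h2) hy hbw
  have hQc := (hcv D b hD).1
  have hB0c := (hcv (insert w D) b (hD.insert w)).1
  -- `Cls false` of the class
  have hCf : {z | ∃ v, gTVR L D b w v w ∧ v ≤ z} =
      {z | ∃ y, p ≤ y ∧ y ≤ b ∧ b ∈ k y ∧ y ≤ z} := by
    ext z
    constructor
    · rintro ⟨v, hv, hvz⟩
      have h1 : gTVR L D b w (min v b) w := by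
        rcases min_choice v b with h | h
        · rw [h]; exact hv
        · rw [h]; exact hbw
      refine ⟨min v b, (hplt _ h1).le, min_le_right _ _, ?_, (min_le_left _ _).trans hvz⟩
      exact (hkchar _ (gTV_r1 h1).1).2 ⟨b, w, le_rfl, hbw, h1⟩
    · rintro ⟨y, hpy, hyb, hby, hyz⟩
      have hyQ : y ∈ Orb L D b := hQc.out hpQ (o1 D b) ⟨hpy, hyb⟩
      obtain ⟨v, x, hbv, hvx, hyx⟩ := (hkchar y hyQ).1 hby
      -- `y ≤ b ≤ v`, `y` and `v` in the same class
      have h1 : v ∈ Orb L (insert x D) y := (gTV_r3 hyx).1 hvx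
      have h2 : b ∈ Orb L (insert x D) y :=
        (hcv (insert x D) y (hD.insert x)).1.out (o1 _ _) h1 ⟨hyb, hbv⟩
      have h3 : gTVR L D b w b x := (gTV_r3 hyx).2 h2
      exact ⟨y, (hA2 hyx h3 w).2 hbw, hyz⟩
  -- the class is definable
  obtain ⟨E, hE⟩ : ∃ E : Set U, E = insert p (insert b (insert w D)) := ⟨_, rfl⟩
  have hpE : p ∈ E := by rw [hE]; exact mem_insert _ _
  have hbE : b ∈ E := by rw [hE]; exact mem_insert_of_mem _ (mem_insert _ _)
  have hwE : insert w D ⊆ E := by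
    rw [hE]
    exact (subset_insert _ _).trans (subset_insert _ _)
  have hDE : D ⊆ E := (subset_insert _ _).trans hwE
  have hEf : E.Finite := by
    rw [hE]
    exact ((hD.insert w).insert b).insert p
  have hCfd : E.Definable₁ L {z | ∃ v, gTVR L D b w v w ∧ v ≤ z} := by
    rw [hCf]
    have h1 : E.Definable L {v : Fin 2 → U | b ∈ k (v 0)} :=
      Dx.par (P := fun v : Fin 3 → U => v 0 ∈ k (v 1))
        (Dx.rel (R := fun x y => y ∈ k x) (hk.mono hDE) 1 0) le_rfl hbE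
    have h2 : E.Definable L {v : Fin 2 → U | p ≤ v 0 ∧ v 0 ≤ b ∧ b ∈ k (v 0) ∧ v 0 ≤ v 1} :=
      Dx.and (df_le_par hord hpE 0) (Dx.and (df_le_par' hord hbE 0)
        (Dx.and h1 (Dx.le hord E 0 1)))
    exact Dx.ex (P := fun v : Fin 2 → U => p ≤ v 0 ∧ v 0 ≤ b ∧ b ∈ k (v 0) ∧ v 0 ≤ v 1) h2
  have hB0d : E.Definable₁ L (Orb L (insert w D) b) := by
    have h1 : Orb L (insert w D) b = K ∩ {z | ∃ v, gTVR L D b w v w ∧ v ≤ z} := by
      ext y
      rw [hKd]
      constructor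
      · intro hy
        have h2 := (hB0 y).2 hy
        exact ⟨⟨y, h2, le_rfl⟩, ⟨y, h2, le_rfl⟩⟩
      · rintro ⟨⟨v, hv, hyv⟩, ⟨v', hv', hvy'⟩⟩
        exact hB0c.out ((hB0 v').1 hv') ((hB0 v).1 hv) ⟨hvy', hyv⟩
    rw [h1]
    exact Set.Definable.inter (hK'.mono hwE) hCfd
  have hB0w : (insert w D).Definable₁ L (Orb L (insert w D) b) := by
    refine o8 (insert w D) E _ (hD.insert w) hEf hB0d ?_
    intro x hx
    rw [o2 _ _ _ hx]
  obtain ⟨φ, hφ, hφw⟩ := Dx.fib hB0w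
  have hφchar : ∀ x ∈ Orb L D w, (b ∈ φ x ↔ gTVR L D b w b x) := by
    rintro x ⟨σ, hσ, rfl⟩
    rw [hinv D φ σ hφ hσ w, hφw]
    constructor
    · rintro ⟨y, hy, hyb⟩
      have h1 := gTV_r4 hσ ((hB0 y).2 hy)
      rw [hyb] at h1
      exact h1
    · intro h
      have h1 := gTV_r4 (gTV_fxs hσ) h
      rw [gTV_sy (rfl : σ w = σ w)] at h1
      exact ⟨σ.symm b, (hB0 _).1 h1, σ.apply_symm_apply b⟩
  -- `W` is bounded
  have hbd : ∀ s : Bool, ∃ z ∈ Orb L D w, ∀ u ∈ Orb L (insert b D) w, ¬ leS s z u := by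
    intro s
    by_contra hcon
    have h1 : Sd s (Orb L (insert b D) w) (Orb L D w) := by
      intro z hz
      by_contra h2
      apply hcon
      refine ⟨z, hz, fun u hu h3 => h2 ⟨u, hu, h3⟩⟩
    rcases hNI D (insert b D) w w s (subset_insert _ _) (hD.insert b) ⟨o1 _ _, h1⟩ with h2 | h2
    · exact hN h2
    · exact hts _ h2
  obtain ⟨z₁, hz₁, hz₁'⟩ := hbd false
  obtain ⟨z₂, hz₂, hz₂'⟩ := hbd true
  have hZc := (hcv D w hD).1
  have hWd : Orb L (insert b D) w = {x | z₁ ≤ x ∧ x ≤ z₂ ∧ b ∈ φ x} := by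
    ext x
    constructor
    · intro hx
      have h1 := hz₁' x hx
      have h2 := hz₂' x hx
      have h3 : gTVR L D b w b x := (gTV_r2 hbw).2 hx
      refine ⟨?_, ?_, (hφchar x (gTV_r1 h3).2).2 h3⟩
      · by_contra h4
        apply h1
        simpa [leS] using (not_le.1 h4).le
      · by_contra h4
        apply h2
        simpa [leS] using (not_le.1 h4).le
    · rintro ⟨h1, h2, h3⟩
      have h4 : x ∈ Orb L D w := hZc.out hz₁ hz₂ ⟨h1, h2⟩
      exact (gTV_r2 hbw).1 ((hφchar x h4).1 h3)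
  have hIs : Isd L (insert b D) w := by
    show (insert b D).Definable₁ L (Orb L (insert b D) w)
    obtain ⟨E', hE'⟩ : ∃ E' : Set U, E' = insert z₁ (insert z₂ (insert b D)) := ⟨_, rfl⟩
    have h1E : z₁ ∈ E' := by rw [hE']; exact mem_insert _ _
    have h2E : z₂ ∈ E' := by rw [hE']; exact mem_insert_of_mem _ (mem_insert _ _)
    have h3E : insert b D ⊆ E' := by
      rw [hE']
      exact (subset_insert _ _).trans (subset_insert _ _)
    have hbE' : b ∈ E' := h3E (mem_insert _ _)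
    have hDE' : D ⊆ E' := (subset_insert _ _).trans h3E
    refine o8 (insert b D) E' _ (hD.insert b) ?_ ?_ ?_
    · rw [hE']
      exact ((hD.insert b).insert z₂).insert z₁
    · rw [hWd]
      have h1 : E'.Definable L {v : Fin 1 → U | b ∈ φ (v 0)} :=
        Dx.par (P := fun v : Fin 2 → U => v 0 ∈ φ (v 1))
          (Dx.rel (R := fun x y => y ∈ φ x) (hφ.mono hDE') 1 0) le_rfl hbE'
      exact Dx.and (n := 1) (df_le_par hord h1E 0) (Dx.and (df_le_par' hord h2E 0) h1)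
    · intro x hx
      rw [o2 _ _ _ hx]
  obtain ⟨s1, -⟩ := hSDI L U hW
  exact hts true ((s1 (insert b D) w (hD.insert b)).1 hIs).1

end A

/-! ### The reversed order -/

private theorem gTV_sd {L : FirstOrder.Language.{0, 0}} {U : Type} [S : L.Structure U]
    [LinearOrder U] (hle : ∀ (t : Bool) (x y : U), @leS U (dO U) t x y ↔ leS (!t) x y)
    (A : Set U) (x : U) (t : Bool) : @SD L U S (dO U) A x t ↔ SD L A x (!t) := by
  have h : @Cls U (dO U) t (Orb L A x) = Cls (!t) (Orb L A x) := by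
    ext z
    constructor
    · rintro ⟨v, hv, h⟩
      exact ⟨v, hv, (hle t z v).1 h⟩
    · rintro ⟨v, hv, h⟩
      exact ⟨v, hv, (hle t z v).2 h⟩
  show A.Definable₁ L (@Cls U (dO U) t (Orb L A x)) ↔ _
  rw [h]
  rfl

theorem thm_gTV (hORB : St_ORB) (hNSB : St_NSB) (hCNV : St_nCNV) (hGEX : St_nGEX)
    (hGER : St_nGER) (hSMA : St_nSMA) (hSDI : St_nSDI) (hFAR : St_nFAR) (hSDF : St_SDF)
    (hSFX : St_SFX) (hSDL : St_SDL) (hPN : St_gPN) (hJM : St_gJM) (hSTT : St_STT) : St_gTV := by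
  intro L _ U S _ hW hSc hNA hNI D b w hD hst hsf
  by_contra hN
  have hN : Nn L D b w := hN
  have hts : ∀ t, ¬ SD L (insert b D) w t := by
    intro t
    cases t
    · exact hsf
    · exact hst
  obtain ⟨o1, o2, o3, o4, -⟩ := hORB L U hW.mon
  obtain ⟨n1, n2, n3, n4, n5, -⟩ := hNSB L U
  have hne := n5 D b w hN
  -- (A5)
  have hA5 : ∀ t, ¬ SD L (insert w D) b t := by
    intro t
    cases t with
    | true =>
      exact gTV_A5 hORB hNSB hCNV hGEX hGER hSDI hFAR hSDF hSFX hPN hW hNA hNI hD hts hN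
    | false =>
      obtain ⟨hW', hle, -, hge, -⟩ := hSDL L U hW
      have hsd := gTV_sd (L := L) hle
      have hNA' : @NA L U S (dO U) := by
        intro A x u t hA hu hne hxu
        exact (hsd _ _ _).2 (hNA A x u (!t) hA hu hne ((hle t x u).1 hxu))
      have hNI' : @NI L U S (dO U) := by
        intro A B z u t hAB hB hu
        rw [hge] at hu
        rcases hNI A B z u (!t) hAB hB hu with h | h
        · exact Or.inl h
        · exact Or.inr ((hsd _ _ _).2 h)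
      intro h
      refine @gTV_A5 L U S (dO U) D b w hORB hNSB hCNV hGEX hGER hSDI hFAR hSDF hSFX hPN hW' hNA' hNI' hD
        ?_ hN ((hsd _ _ _).2 h)
      intro t ht
      exact hts _ ((hsd _ _ _).1 ht)
  have hA1 := @gTV_A1 L U _ _ D b w hORB hNSB hSDI hPN hW hNA hD hts
  have hA2 := @gTV_A2 L U _ _ D b w hORB hNSB hSDI hPN hW hNA hD hts
  have hbw : gTVR L D b w b w := gTV_r0
  obtain ⟨g1, g2, g3, g4, g5, g6, g7, g8⟩ := hGER L U hW
  obtain ⟨-, -, -, sd4, sd5⟩ := hSDI L U hW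
  -- the element `b₀`
  obtain ⟨⟨b₀, hb₀⟩, -⟩ := hGEX L U hW D (insert w (insert b D)) b true
    ((subset_insert _ _).trans (subset_insert _ _)) ((hD.insert b).insert w)
  have hb₀Q : b₀ ∈ Orb L D b := hb₀.1
  have hbf : Far L D b b₀ := by
    have h1 := g2 D (insert b D) (insert w (insert b D)) b true (subset_insert _ _)
      (subset_insert _ _) ((hD.insert b).insert w) hb₀
    exact h1
  have hb₀w : b₀ ∈ Ge L D b true (insert w D) :=
    g2 D (insert w D) (insert w (insert b D)) b true (subset_insert _ _)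
      (insert_subset_insert (subset_insert _ _)) ((hD.insert b).insert w) hb₀
  obtain ⟨x₀, hx₀⟩ := gTV_r5 (w := w) hb₀Q
  -- `P`
  have hP : ∀ x, x ∈ Orb L (insert b D) w ↔ gTVR L D b w b x := fun x => (gTV_r2 hbw).symm
  have hQ : ∀ y, y ∈ Orb L (insert w D) b ↔ gTVR L D b w y w := fun y => (gTV_r3 hbw).symm
  have hR : ∀ c, c ∈ Orb L (insert b₀ D) x₀ ↔ gTVR L D b w b₀ c := fun c => (gTV_r2 hx₀).symm
  -- conjugation over `b, b₀, D`
  have hκ : ∀ x ∈ Orb L (insert b D) w, ∃ κ : U ≃[L] U, Fx L (insert b₀ (insert b D)) κ ∧ κ w = x := by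
    intro x hx
    rw [← hA1 hbw hb₀Q] at hx
    exact hx
  -- `w` has a definable side over `b₀, D`
  have hwd : ∃ s, SD L (insert b₀ D) w s := by
    obtain ⟨e, he, -⟩ := hSMA L U hW D b w hD hN
    have h1 := he true w (o1 D w) b₀ hb₀w
    rcases hNI D (insert b₀ D) w w _ (subset_insert _ _) (hD.insert b₀) h1 with h2 | h2
    · exfalso
      exact (n2 D b w b₀ w hb₀Q (o1 D w) hN) h2
    · exact ⟨_, h2⟩
  obtain ⟨s', hs'⟩ := hwd
  have hxd : ∀ x ∈ Orb L (insert b D) w, SD L (insert b₀ D) x s' := by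
    intro x hx
    obtain ⟨κ, hκ1, rfl⟩ := hκ x hx
    have h1 := (sd4 κ (insert b₀ D) w).2 s'
    have h2 : κ '' (insert b₀ D) = insert b₀ D :=
      gTV_img (fun a ha => hκ1 a (insert_subset_insert (subset_insert _ _) ha))
    rw [h2] at h1
    exact h1.2 hs'
  have hR2 : ∀ c, gTVR L D b w b₀ c → ∀ t, ¬ SD L (insert b₀ D) c t :=
    fun c hc t => gTV_two hSDI hW hts hc t
  have hRo : ∀ c, gTVR L D b w b₀ c → Orb L (insert b₀ D) c = Orb L (insert b₀ D) x₀ :=
    fun c hc => o2 _ _ _ ((hR c).2 hc)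
  refine hSTT L U hW hSc (insert b₀ D) (Orb L (insert b D) w) (Orb L (insert w D) b)
    (Orb L (insert b₀ D) x₀) ⟨hD.insert b₀, ⟨⟨w, o1 _ _⟩, ⟨b, o1 _ _⟩, ⟨x₀, o1 _ _⟩⟩, ?_, ?_, ?_,
      ?_, ?_, ?_⟩
  · -- pq
    intro y hy x hx
    have hy' := (hQ y).1 hy
    have hx' := (hP x).1 hx
    have hyx : gTVR L D b w y x := (hA2 hy' hbw x).2 hx'
    rw [insert_comm, hA1 hyx hb₀Q]
    ext z
    rw [← gTV_r2 hyx, hP]
    exact hA2 hy' hbw z
  · -- qp
    intro x hx y hy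
    have hsdb : SD L (insert w D) b₀ (!true) := by
      rcases hNI D (insert w D) b b₀ true (subset_insert _ _) (hD.insert w) hb₀w with h1 | h1
      · exfalso
        apply n1 D b w hN
        have h2 : b ∈ Orb L (insert w D) b₀ := by
          rw [h1]
          exact o1 D b
        rw [o2 _ _ _ h2, h1]
      · exact h1
    have h1 := gTV_nn (gTV_A0 hNSB hPN hW (hD.insert w) _ hsdb hA5).1
    -- `Orb (b₀, w, D) b = Orb (w, D) b`
    obtain ⟨κ, hκ1, hκw⟩ := hκ x hx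
    have hκD : Fx L D κ := fun a ha => hκ1 a (mem_insert_of_mem _ (mem_insert_of_mem _ ha))
    have hκb : κ b = b := hκ1 b (mem_insert_of_mem _ (mem_insert _ _))
    have hκb₀ : κ b₀ = b₀ := hκ1 b₀ (mem_insert _ _)
    have h2 : Orb L (insert b₀ (insert x D)) b = Orb L (insert x D) b := by
      have h3 := o4 κ (insert b₀ (insert w D)) b
      have h4 := o4 κ (insert w D) b
      rw [image_insert_eq, image_insert_eq, gTV_img hκD, hκb₀, hκw, hκb, h1] at h3
      rw [image_insert_eq, gTV_img hκD, hκw, hκb] at h4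
      rw [h3, h4]
    have hx' := (hP x).1 hx
    have h5 : Orb L (insert x D) b = Orb L (insert w D) b := by
      ext z
      rw [← gTV_r3 hx', hQ]
      constructor
      · intro h
        exact (hA2 h hx' w).2 hbw
      · intro h
        exact (hA2 h hbw x).2 hx'
    have h6 : y ∈ Orb L (insert x (insert b₀ D)) b := by
      rw [insert_comm, h2, h5]
      exact hy
    rw [o2 _ _ _ h6, insert_comm, h2, h5]
  · -- rr
    intro c hc
    exact o2 _ _ _ hc
  · -- rp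
    intro x hx c hc
    have h1 := gTV_nn (gTV_A0 hNSB hPN hW (hD.insert b₀) s' (hxd x hx) (hR2 c ((hR c).1 hc))).1
    rw [h1]
    exact o2 _ _ _ hc
  · -- rq
    intro y hy c hc
    have h1 := hA1 ((hR c).1 hc) (gTV_r1 ((hQ y).1 hy)).1
    rw [h1]
    exact o2 _ _ _ hc
  · -- nn
    refine ⟨w, o1 _ _, b, o1 _ _, x₀, o1 _ _, ?_⟩
    have hBB : BB D b (fun _ => b) 0 = insert b D := by
      show insert b D ∪ (fun _ : ℕ => b) '' {i : ℕ | i < 0} = insert b D
      have h1 : {i : ℕ | i < 0} = ∅ := by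
        ext i
        simp
      rw [h1, image_empty, union_empty]
    have hls : ∀ (t : Bool) (x : U), leS t x x := by
      intro t x
      unfold leS
      split_ifs <;> exact le_rfl
    have hcod : Cod L D b (fun _ => b) 0 w true := by
      refine ⟨hD, fun i hi => absurd hi (Nat.not_lt_zero i), ?_, ?_⟩
      · rw [hBB]
        exact hst
      · intro σ hσ
        rw [hBB]
        intro u hu u' hu'
        have h1 : σ '' (insert b D) = insert b D := gTV_img hσ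
        rw [h1, union_self] at hu hu' ⊢
        rw [g6] at hu
        rw [g6] at hu'
        have h2 : Orb L (insert b D) (σ w) = Orb L (insert b D) w :=
          o2 _ _ _ ⟨σ, hσ, rfl⟩
        rw [h2] at hu'
        have h3 : Nn L (insert b D) w w := (n4 _ _).2 (sd5 _ _ true (hD.insert b) hst)
        exact n2 _ _ _ _ _ hu hu' h3
    have hLG := hJM L U hW hSc hNI D b (fun _ => b) 0 w true ⟨hcod, Or.inr rfl⟩ b (o1 D b) b₀ hbf
    obtain ⟨σ, hσ, hσb, hσw⟩ := hx₀
    have hid : ∀ X : Set U, (FirstOrder.Language.Equiv.refl L U : U ≃[L] U) '' X = X := by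
      intro X
      ext z
      constructor
      · rintro ⟨z', hz', rfl⟩
        exact hz'
      · intro hz
        exact ⟨z, hz, rfl⟩
    have h1 := hLG (FirstOrder.Language.Equiv.refl L U) σ
      ⟨fun a _ => rfl, fun i hi => absurd hi (Nat.not_lt_zero i)⟩ rfl
      ⟨hσ, fun i hi => absurd hi (Nat.not_lt_zero i)⟩ hσb
    rw [hBB, hid, image_insert_eq, gTV_img hσ, hσb, hσw] at h1
    have h2 : insert b D ∪ insert b₀ D = insert b₀ (insert b D) := by
      ext z
      simp only [mem_union, mem_insert_iff]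
      tauto
    rw [h2] at h1
    have hx₀' : gTVR L D b w b₀ x₀ := ⟨σ, hσ, hσb, hσw⟩
    have e1 : Orb L (insert b₀ (insert b D)) w = Orb L (insert b D) w := hA1 hbw hb₀Q
    have e2 : Orb L (insert b₀ (insert b D)) x₀ = Orb L (insert b₀ D) x₀ := by
      rw [insert_comm]
      exact hA1 hx₀' (o1 D b)
    have h3 : Nn L (insert b₀ (insert b D)) w x₀ := by
      refine h1 w ⟨o1 _ _, ?_⟩ x₀ ⟨o1 _ _, ?_⟩
      · show Sd true (Orb L (insert b₀ (insert b D)) w) (Orb L (insert b D) w)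
        rw [e1]
        exact fun z hz => ⟨z, hz, hls _ z⟩
      · rw [e2]
        exact fun z hz => ⟨z, hz, hls _ z⟩
    have h4 := n1 _ _ _ h3
    intro h5
    apply h4
    rw [e1]
    rw [insert_comm b b₀] at h5
    exact h5

end Pool.Agent.WOM
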