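import Pool.Agent.WOL.StG2

/-!
WOL, gTW: two-sided types are types over the empty set.
-/

set_option autoImplicit false
set_option linter.unusedVariables false

namespace Pool.Agent.WOM

open FirstOrder.Language Set
open scoped FirstOrder

theorem thm_gTW (hSDI : St_nSDI) (hTV : St_gTV) : St_gTW := by
  intro L _ U S _ hW hU hNA hNI B w hB
  induction B, hB using Set.Finite.induction_on with
  | empty =>
    intro _ _
    rfl
  | @insert b D hb hD ih =>
    intro h1 h2
    have h3 : Orb L (insert b D) w = Orb L D w := hTV L U hW hU hNA hNI D b w hD h1 h2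
    have h4 := ((hSDI L U hW).2.2.1 D (insert b D) w (Set.subset_insert b D) (hD.insert b) h3).2
    rw [h3]
    exact ih (fun h => h1 ((h4 true).2 h)) (fun h => h2 ((h4 false).2 h))

end Pool.Agent.WOM
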