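import Pool.Agent.WOL.StG3
import Pool.Agent.WOL.StG4

/-!
WOL, module gVI: germs over nonisolated elements (T7-ACC, helper13).
-/

set_option autoImplicit false
set_option linter.unusedVariables false

namespace Pool.Agent.WOM

open FirstOrder.Language Set
open scoped FirstOrder

section toolkit

variable {L : FirstOrder.Language.{0, 0}} {U : Type} [L.Structure U]

/-- parameters are replaced by variables -/
private theorem gVI_par {α β : Type} {A : Set U} (c : α → U) {s : Set (β → U)}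
    (h : (A ∪ range c).Definable L s) :
    ∃ R : Set (α ⊕ β → U), A.Definable L R ∧ ∀ v : β → U, (v ∈ s ↔ Sum.elim c v ∈ R) := by
  classical
  obtain ⟨φ, hφ⟩ := definable_iff_exists_formula_sum.1 h
  have hc : ∀ a : (A ∪ range c : Set U), (a : U) ∉ A → ∃ i, c i = a := fun a ha =>
    a.2.resolve_left ha
  let σ : (A ∪ range c : Set U) ⊕ β → A ⊕ (α ⊕ β) :=
    Sum.elim (fun a => if ha : (a : U) ∈ A then Sum.inl ⟨a, ha⟩ else
      Sum.inr (Sum.inl (hc a ha).choose)) fun j => Sum.inr (Sum.inr j)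
  refine ⟨{v | (φ.relabel σ).Realize (Sum.elim (fun a : A => (a : U)) v)},
    definable_iff_exists_formula_sum.2 ⟨φ.relabel σ, rfl⟩, fun v => ?_⟩
  have h1 : (Sum.elim (fun a : A => (a : U)) (Sum.elim c v)) ∘ σ =
      Sum.elim (fun a : (A ∪ range c : Set U) => (a : U)) v := by
    funext z
    rcases z with z | z
    · by_cases ha : (z : U) ∈ A
      · have h2 : σ (Sum.inl z) = Sum.inl ⟨z, ha⟩ := dif_pos ha
        rw [Function.comp_apply, h2]
        rfl
      · have h2 : σ (Sum.inl z) = Sum.inr (Sum.inl (hc z ha).choose) := dif_neg ha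
        rw [Function.comp_apply, h2]
        exact (hc z ha).choose_spec
    · rfl
  rw [hφ]
  show φ.Realize _ ↔ (φ.relabel σ).Realize (Sum.elim (fun a : A => (a : U)) (Sum.elim c v))
  rw [FirstOrder.Language.Formula.realize_relabel, h1]

/-- variables are replaced by parameters -/
private theorem gVI_inst {α β : Type} {A B : Set U} (hAB : A ⊆ B) (c : α → U) (hc : ∀ i, c i ∈ B)
    {R : Set (α ⊕ β → U)} (h : A.Definable L R) :
    B.Definable L {v : β → U | Sum.elim c v ∈ R} := by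
  obtain ⟨φ, hφ⟩ := definable_iff_exists_formula_sum.1 h
  let σ : A ⊕ (α ⊕ β) → B ⊕ β :=
    Sum.elim (fun a => Sum.inl ⟨a, hAB a.2⟩) (Sum.elim (fun i => Sum.inl ⟨c i, hc i⟩) Sum.inr)
  refine definable_iff_exists_formula_sum.2 ⟨φ.relabel σ, ?_⟩
  ext v
  have h1 : (Sum.elim (fun a : B => (a : U)) v) ∘ σ =
      Sum.elim (fun a : A => (a : U)) (Sum.elim c v) := by
    funext z
    rcases z with z | z | z <;> rfl
  show Sum.elim c v ∈ R ↔ (φ.relabel σ).Realize (Sum.elim (fun a : B => (a : U)) v)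
  rw [FirstOrder.Language.Formula.realize_relabel, h1, hφ]
  rfl

/-- automorphisms preserve definable sets -/
private theorem gVI_inv {ι : Type} {A : Set U} {R : Set (ι → U)} (h : A.Definable L R)
    (σ : U ≃[L] U) (hσ : Fx L A σ) (v : ι → U) : (fun i => σ (v i)) ∈ R ↔ v ∈ R := by
  obtain ⟨φ, hφ⟩ := definable_iff_exists_formula_sum.1 h
  have h1 : (σ ∘ Sum.elim (fun a : A => (a : U)) v) =
      Sum.elim (fun a : A => (a : U)) (fun i => σ (v i)) := by
    funext z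
    rcases z with z | z
    · exact hσ z z.2
    · rfl
  rw [hφ]
  show φ.Realize (Sum.elim (fun a : A => (a : U)) (fun i => σ (v i))) ↔
    φ.Realize (Sum.elim (fun a : A => (a : U)) v)
  rw [← h1]
  exact FirstOrder.Language.StrongHomClass.realize_formula σ φ

end toolkit

/-- gCF for finite index types -/
private theorem gVI_cf (hCF : St_gCF) {L : FirstOrder.Language.{0, 0}} {U : Type} [L.Structure U]
    [LinearOrder U] (W : Wn L U) {K : Type} [Finite K] (A : Set U) (c : K → U)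
    (ρ ρ' : (K → U) → Set U)
    (h1 : A.Definable L {v : K ⊕ Unit → U | v (Sum.inr ()) ∈ ρ (fun i => v (Sum.inl i))})
    (h2 : A.Definable L {v : K ⊕ Unit → U | v (Sum.inr ()) ∈ ρ' (fun i => v (Sum.inl i))})
    (h : Cn L (A ∪ range c) (ρ c) (ρ' c)) :
    ∃ χ : Set (K → U), A.Definable L χ ∧ c ∈ χ ∧
      ∀ c' ∈ χ, Cn L (A ∪ range c') (ρ c') (ρ' c') := by
  obtain ⟨m, ⟨e⟩⟩ := Finite.exists_equiv_fin K
  have hr : ∀ d : K → U, range (fun i : Fin m => d (e.symm i)) = range d := by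
    intro d
    ext x
    constructor
    · rintro ⟨i, rfl⟩
      exact ⟨e.symm i, rfl⟩
    · rintro ⟨k, rfl⟩
      exact ⟨e k, by simp⟩
  have hs : ∀ d : K → U, (fun k => (fun i : Fin m => d (e.symm i)) (e k)) = d := by
    intro d
    funext k
    simp
  obtain ⟨χ, hχ1, hχ2, hχ3⟩ := hCF L U W A m (fun i => c (e.symm i)) (fun d => ρ (fun k => d (e k)))
    (fun d => ρ' (fun k => d (e k)))
    (h1.preimage_comp (Sum.map e id : K ⊕ Unit → Fin m ⊕ Unit))
    (h2.preimage_comp (Sum.map e id : K ⊕ Unit → Fin m ⊕ Unit))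
    (by
      show Cn L (A ∪ range (fun i => c (e.symm i))) (ρ (fun k => (fun i : Fin m => c (e.symm i)) (e k)))
        (ρ' (fun k => (fun i : Fin m => c (e.symm i)) (e k)))
      rw [hr, hs]
      exact h)
  refine ⟨{c' | (fun i => c' (e.symm i)) ∈ χ}, hχ1.preimage_comp e.symm, hχ2, fun c' hc' => ?_⟩
  have h3 := hχ3 _ hc'
  rw [hr] at h3
  have h4 : Cn L (A ∪ range c') (ρ (fun k => (fun i : Fin m => c' (e.symm i)) (e k)))
        (ρ' (fun k => (fun i : Fin m => c' (e.symm i)) (e k))) := h3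
  rw [hs] at h4
  exact h4


section fam

variable {L : FirstOrder.Language.{0, 0}} {U : Type} [L.Structure U] [LinearOrder U]

private theorem gVI_le (hord : (∅ : Set U).Definable L {v : Fin 2 → U | v 0 < v 1}) (A : Set U)
    {ι : Type} (i j : ι) : A.Definable L {v : ι → U | v i ≤ v j} := by
  have h2 : {v : ι → U | v i ≤ v j} = {v : ι → U | v j < v i}ᶜ := by
    ext v
    exact not_lt.symm
  rw [h2]
  exact ((hord.mono (Set.empty_subset _)).preimage_comp ![j, i]).compl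

/-- an initial segment definable over `A ∪ range c` is the value at `c` of a family of initial
segments -/
private theorem gVI_fam (hord : (∅ : Set U).Definable L {v : Fin 2 → U | v 0 < v 1}) {K : Type}
    [Finite K] (A : Set U) (c : K → U) (r : Set U) (hr : (A ∪ range c).Definable₁ L r)
    (hl : Low r) : ∃ ρ : (K → U) → Set U,
      A.Definable L {v : K ⊕ Unit → U | v (Sum.inr ()) ∈ ρ (fun i => v (Sum.inl i))} ∧
      (∀ d, Low (ρ d)) ∧ ρ c = r := by
  obtain ⟨R, hR, hRr⟩ := gVI_par c hr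
  refine ⟨fun d => {u | ∃ u', u ≤ u' ∧ Sum.elim d (fun _ : Fin 1 => u') ∈ R}, ?_, ?_, ?_⟩
  · have h1 : A.Definable L {w : (K ⊕ Unit) ⊕ Unit → U | w (Sum.inl (Sum.inr ())) ≤ w (Sum.inr ()) ∧
        (fun k : K ⊕ Fin 1 => w (Sum.elim (fun k => Sum.inl (Sum.inl k)) (fun _ => Sum.inr ()) k))
          ∈ R} :=
      (gVI_le hord A _ _).inter (hR.preimage_comp (Sum.elim (fun k => Sum.inl (Sum.inl k))
        (fun _ => Sum.inr ()) : K ⊕ Fin 1 → (K ⊕ Unit) ⊕ Unit))
    have h2 := h1.exists_of_finite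
    refine (congrArg (A.Definable L) ?_).mp h2
    ext v
    have e1 : ∀ u : Unit → U, (fun k : K ⊕ Fin 1 => (Sum.elim v u : (K ⊕ Unit) ⊕ Unit → U)
        (Sum.elim (fun k => Sum.inl (Sum.inl k)) (fun _ => Sum.inr ()) k)) =
        Sum.elim (fun i => v (Sum.inl i)) (fun _ : Fin 1 => u ()) := by
      intro u
      funext k
      rcases k with k | k <;> rfl
    constructor
    · rintro ⟨u, h3, h4⟩
      refine ⟨u (), h3, ?_⟩
      rw [← e1 u]
      exact h4
    · rintro ⟨u', h3, h4⟩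
      refine ⟨fun _ => u', h3, ?_⟩
      show (fun k : K ⊕ Fin 1 => (Sum.elim v (fun _ => u') : (K ⊕ Unit) ⊕ Unit → U)
        (Sum.elim (fun k => Sum.inl (Sum.inl k)) (fun _ => Sum.inr ()) k)) ∈ R
      rw [e1]
      exact h4
  · rintro d x ⟨u', h1, h2⟩ y hy
    exact ⟨u', hy.trans h1, h2⟩
  · ext x
    constructor
    · rintro ⟨u', h1, h2⟩
      exact hl u' ((hRr fun _ => u').2 h2) x h1
    · intro hx
      exact ⟨x, le_rfl, (hRr fun _ => x).1 hx⟩

/-- the set `S` -/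
private theorem gVI_S {n : ℕ} {D B : Set U} (hDB : D ⊆ B) {Rθ χa : Set (Unit ⊕ Fin n → U)}
    {χb : Set (Unit ⊕ (Fin n ⊕ Fin n) → U)} (h1 : D.Definable L Rθ) (h2 : B.Definable L χa)
    (h3 : D.Definable L χb) :
    B.Definable₁ L {x : U | (∃ z : Fin n → U, Sum.elim (fun _ : Unit => x) z ∈ Rθ) ∧
      ∀ z : Fin n → U, Sum.elim (fun _ : Unit => x) z ∈ Rθ →
        ∃ z' : Fin n → U, Sum.elim (fun _ : Unit => x) z' ∈ χa ∧
          Sum.elim (fun _ : Unit => x) (Sum.elim z' z) ∈ χb} := by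
  let fa : Unit ⊕ Fin n → (Unit ⊕ Fin n) ⊕ Fin n :=
    Sum.elim (fun u => Sum.inl (Sum.inl u)) Sum.inr
  let fb : Unit ⊕ (Fin n ⊕ Fin n) → (Unit ⊕ Fin n) ⊕ Fin n :=
    Sum.elim (fun u => Sum.inl (Sum.inl u)) (Sum.elim Sum.inr fun i => Sum.inl (Sum.inr i))
  have hT1 : B.Definable L {v : (Unit ⊕ Fin n) ⊕ Fin n → U | v ∘ fa ∈ χa ∧ v ∘ fb ∈ χb} :=
    (h2.preimage_comp fa).inter ((h3.mono hDB).preimage_comp fb)
  have hT2 := hT1.exists_of_finite
  have hT3 := (h1.mono hDB).compl.union hT2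
  have hT4 := hT3.forall_of_finite
  have hT5 := (h1.mono hDB).exists_of_finite
  have hS := (hT5.inter hT4).preimage_comp (fun _ : Unit => (0 : Fin 1))
  refine (congrArg (B.Definable L) ?_).mp hS
  have e1 : ∀ (x : U) (z z' : Fin n → U),
      (Sum.elim (Sum.elim (fun _ : Unit => x) z) z' : (Unit ⊕ Fin n) ⊕ Fin n → U) ∘ fa =
        Sum.elim (fun _ : Unit => x) z' := by
    intro x z z'
    funext k
    rcases k with k | k <;> rfl
  have e2 : ∀ (x : U) (z z' : Fin n → U),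
      (Sum.elim (Sum.elim (fun _ : Unit => x) z) z' : (Unit ⊕ Fin n) ⊕ Fin n → U) ∘ fb =
        Sum.elim (fun _ : Unit => x) (Sum.elim z' z) := by
    intro x z z'
    funext k
    rcases k with k | k | k <;> rfl
  ext v
  constructor
  · rintro ⟨⟨z, hz⟩, h5⟩
    refine ⟨⟨z, hz⟩, fun z hz => ?_⟩
    rcases h5 z with h6 | ⟨z', h6, h7⟩
    · exact absurd hz h6
    · refine ⟨z', ?_, ?_⟩
      · rw [← e1 (v 0) z z']
        exact h6
      · rw [← e2 (v 0) z z']
        exact h7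
  · rintro ⟨⟨z, hz⟩, h5⟩
    refine ⟨⟨z, hz⟩, fun z => ?_⟩
    by_cases hz : Sum.elim (fun _ : Unit => v 0) z ∈ Rθ
    · right
      obtain ⟨z', h6, h7⟩ := h5 z hz
      refine ⟨z', ?_, ?_⟩
      · show (Sum.elim (Sum.elim (fun _ : Unit => v 0) z) z' : (Unit ⊕ Fin n) ⊕ Fin n → U) ∘ fa ∈ χa
        rw [e1]
        exact h6
      · show (Sum.elim (Sum.elim (fun _ : Unit => v 0) z) z' : (Unit ⊕ Fin n) ⊕ Fin n → U) ∘ fb ∈ χb
        rw [e2]
        exact h7
    · left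
      exact hz

end fam


/-! ### The facts which are used -/

private structure GH (L : FirstOrder.Language.{0, 0}) (U : Type) [L.Structure U] [LinearOrder U] :
    Prop where
  W : Wn L U
  N : NI L U
  mono : ∀ (σ : U ≃[L] U) (x y : U), x < y ↔ σ x < σ y
  o1 : ∀ (A : Set U) (x : U), x ∈ Orb L A x
  o2 : ∀ (A : Set U) (x y : U), y ∈ Orb L A x → Orb L A y = Orb L A x
  o3 : ∀ (A B : Set U) (x : U), A ⊆ B → Orb L B x ⊆ Orb L A x
  o4 : ∀ (σ : U ≃[L] U) (A : Set U) (x : U), Orb L (σ '' A) (σ x) = σ '' Orb L A x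
  o5 : ∀ (A : Set U) (x : U), x ∈ A → Orb L A x = {x}
  n1 : ∀ (A : Set U) (x z : U), Nn L A x z → Nn L A z x
  n2 : ∀ (A : Set U) (x z x' z' : U), x' ∈ Orb L A x → z' ∈ Orb L A z → Nn L A x z → Nn L A x' z'
  n3 : ∀ (σ : U ≃[L] U) (A : Set U) (x z : U), Nn L A x z → Nn L (σ '' A) (σ x) (σ z)
  n4 : ∀ (A : Set U) (x : U), Nn L A x x ↔ Orb L A x ≠ {x}
  gx1 : ∀ (A B : Set U) (x : U) (t : Bool), A ⊆ B → B.Finite → (Ge L A x t B).Nonempty
  gx : ∀ (A B : Set U) (x : U) (t : Bool), A ⊆ B → B.Finite → ∀ u ∈ Ge L A x t B,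
    Ge L A x t B = Orb L B u
  g2 : ∀ (A B C : Set U) (x : U) (t : Bool), A ⊆ B → B ⊆ C → C.Finite →
    Ge L A x t C ⊆ Ge L A x t B
  g3 : ∀ (A B C : Set U) (x : U) (t : Bool), A ⊆ B → B ⊆ C → C.Finite → Orb L B x = Orb L A x →
    Ge L B x t C = Ge L A x t C
  g4 : ∀ (A B : Set U) (x x' : U) (t : Bool), x' ∈ Orb L A x → Ge L A x' t B = Ge L A x t B
  g5 : ∀ (σ : U ≃[L] U) (A B : Set U) (x : U) (t : Bool),
    Ge L (σ '' A) (σ x) t (σ '' B) = σ '' Ge L A x t B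
  g6 : ∀ (A : Set U) (x : U) (t : Bool), Ge L A x t A = Orb L A x
  ff : ∀ (A : Set U) (a b : U) (t : Bool), A.Finite → b ∈ Ge L A a t (insert a A) →
    a ∈ Ge L A b (!t) (insert b A)
  tr : ∀ (A : Set U) (x y z : U), A.Finite → Nn L A x y → Nn L A y z → Nn L A x z
  d1 : ∀ (A : Set U) (x : U), A.Finite → (Isd L A x ↔ SD L A x true ∧ SD L A x false)
  d2 : ∀ (A B : Set U) (x u : U) (t : Bool), A ⊆ B → B.Finite → u ∈ Ge L A x t B →
    (SD L B u t ↔ SD L A x t)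
  d3 : ∀ (A B : Set U) (x : U), A ⊆ B → B.Finite → Orb L B x = Orb L A x →
    (Isd L B x ↔ Isd L A x) ∧ ∀ t, (SD L B x t ↔ SD L A x t)
  d4 : ∀ (σ : U ≃[L] U) (A : Set U) (x : U), (Isd L (σ '' A) (σ x) ↔ Isd L A x) ∧
    ∀ t, (SD L (σ '' A) (σ x) t ↔ SD L A x t)
  d5 : ∀ (A : Set U) (x : U) (t : Bool), A.Finite → ¬ SD L A x t → Orb L A x ≠ {x}
  is : ∀ (A : Set U) (x z : U), A.Finite → Isd L A x → ¬ Isd L A z → ¬ Nn L A x z ∧ ¬ Nn L A z x
  sat : ∀ A D : Set U, A.Finite → Atm L A D →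
    D.Finite ∧ A ⊆ D ∧ ∀ z, ¬ Isd L A z → Orb L D z = Orb L A z
  i1 : ∀ (A : Set U) (y z : U), A.Finite → Isd L A y → ¬ Isd L A z →
    Orb L (insert y A) z = Orb L A z ∧ ¬ Isd L (insert y A) z ∧ Isd L (insert z A) y
  i4 : ∀ (A : Set U) (e : U) (y : ℕ → U) (n : ℕ), A.Finite → Isd L A e → Ch L (insert e A) y n →
    Ch L A y n ∧ Isd L (Bn A y n) e
  e1 : ∀ (A : Set U) (x z : ℕ → U) (n m : ℕ), A.Finite → Ch L A x n → Ch L (Bn A x n) z m →
    Ch L A z m ∧ Ch L (Bn A z m) x n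
  e2 : ∀ (A : Set U) (x : ℕ → U) (n : ℕ), Ch L A x n → Atm L A (Bn A x n)
  f1 : ∀ (C A : Set U) (y : ℕ → U) (n : ℕ), A.Finite → C ⊆ A → ∀ (D : Set U) (σ₀ : U ≃[L] U),
    D.Finite → Fx L C σ₀ → ∃ σ : U ≃[L] U, Fc L C D A y n σ ∧ ∀ a ∈ A, σ a = σ₀ a
  f2 : ∀ (C A : Set U) (y : ℕ → U) (n : ℕ), A.Finite → C ⊆ A → ∀ (D : Set U) (σ σ' : U ≃[L] U),
    D.Finite → Fc L C D A y n σ → Fc L C D A y n σ' → (∀ a ∈ A, σ a = σ' a) → σ '' A ⊆ D →
    ∃ ρ : U ≃[L] U, Fx L D ρ ∧ ∀ x ∈ Bn A y n, ρ (σ x) = σ' x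
  f3 : ∀ (C A : Set U) (y : ℕ → U) (n : ℕ), A.Finite → C ⊆ A → ∀ (D D' : Set U) (σ : U ≃[L] U),
    D.Finite → D' ⊆ D → Fc L C D A y n σ → Fc L C D' A y n σ
  f4 : ∀ (C A : Set U) (y : ℕ → U) (n : ℕ), A.Finite → C ⊆ A → ∀ (D : Set U) (σ τ : U ≃[L] U),
    Fx L C τ → Fc L C D A y n σ → Fc L C (τ '' D) A y n (τ.comp σ)
  f5 : ∀ (C A : Set U) (y : ℕ → U) (n : ℕ), A.Finite → C ⊆ A → Ch L A y n →
    ∀ (D : Set U) (σ : U ≃[L] U), D.Finite → σ '' A ⊆ D → Fc L C D A y n σ →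
      Ch L D (fun i => σ (y i)) n
  f6 : ∀ (C A : Set U) (y : ℕ → U) (n : ℕ), A.Finite → C ⊆ A → Ch L A y n →
    ∀ (D : Set U) (σ : U ≃[L] U), D.Finite → σ '' A ⊆ D → Fc L C D A y n σ →
      Atm L D (D ∪ σ '' Bn A y n)
  co : ∀ (n : ℕ) (C : Set U) (y : ℕ → U) (w : U) (t : Bool) (σ : U ≃[L] U), C.Finite →
    Ch L C y n → ¬ SD L (Bn C y n) w t → Fx L C σ → Lk L (Bn C y n) w t σ
  cx : ∀ (C : Set U) (b : U) (y : ℕ → U) (n : ℕ) (w : U) (t : Bool), Cod L C b y n w t →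
    SD L (BB C b y n) w (!t) → ∀ σ : U ≃[L] U, Fx L C σ → (Far L C b (σ b) ∨ Far L C (σ b) b) →
      Lk L (BB C b y n) w t σ
  k2 : ∀ (B : Set U) (w w' : U), B.Finite → Nn L B w w' → SD L B w true → ¬ SD L B w false →
    SD L B w' true → ¬ SD L B w' false → Cn L B (Cls true (Orb L B w)) (Cls true (Orb L B w'))

private theorem gVI_mk (hORB : St_ORB) (hNSB : St_NSB) (hCNV : St_nCNV) (hGEX : St_nGEX)
    (hGER : St_nGER) (hFFR : St_nFFR) (hTRA : St_nTRA) (hSDI : St_nSDI) (hISO : St_nISO)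
    (hSAT : St_SAT) (hTR : St_fTR) (hIS : St_gIS) (hFC : St_gFC) (hEX : St_gEX) (hCO : St_gCO)
    (hCX : St_gCX) (hK2 : St_gK2) (L : FirstOrder.Language.{0, 0}) [∀ n, IsEmpty (L.Functions n)]
    (U : Type) [S : L.Structure U] [LinearOrder U] (hW : Wn L U) (hS : ScU L S) (hNA : NA L U)
    (hNI : NI L U) : GH L U := by
  have hT : TRV L U := hTR L U hW hS
  obtain ⟨o1, o2, o3, o4, o5, -, -, -, -⟩ := hORB L U hW.mon
  obtain ⟨n1, n2, n3, n4, -, -⟩ := hNSB L U
  obtain ⟨-, g2, g3, g4, g5, g6, -, -⟩ := hGER L U hW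
  obtain ⟨d1, d2, d3, d4, d5⟩ := hSDI L U hW
  obtain ⟨i1, -, -, i4, -⟩ := hIS L U hW hT
  obtain ⟨e1, e2, -⟩ := hEX L U hW hT
  exact
    { W := hW
      N := hNI
      mono := (hCNV L U hW).1
      o1 := o1
      o2 := o2
      o3 := o3
      o4 := o4
      o5 := o5
      n1 := n1
      n2 := n2
      n3 := n3
      n4 := n4
      gx1 := fun A B x t h h' => (hGEX L U hW A B x t h h').1
      gx := fun A B x t h h' => (hGEX L U hW A B x t h h').2
      g2 := g2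
      g3 := g3
      g4 := g4
      g5 := g5
      g6 := g6
      ff := hFFR L U hW
      tr := hTRA L U hW
      d1 := d1
      d2 := d2
      d3 := d3
      d4 := d4
      d5 := d5
      is := hISO L U hW
      sat := fun A D hA hD => ⟨(hSAT L U hW A hA D hD).1.1, (hSAT L U hW A hA D hD).1.2,
        fun z hz => ((hSAT L U hW A hA D hD).2.1 z hz).1⟩
      i1 := i1
      i4 := i4
      e1 := e1
      e2 := e2
      f1 := fun C A y n h h' => (hFC L U hW hT C A y n h h').1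
      f2 := fun C A y n h h' => (hFC L U hW hT C A y n h h').2.1
      f3 := fun C A y n h h' => (hFC L U hW hT C A y n h h').2.2.1
      f4 := fun C A y n h h' => (hFC L U hW hT C A y n h h').2.2.2.1
      f5 := fun C A y n h h' hc D σ hD hσ hf =>
        ((hFC L U hW hT C A y n h h').2.2.2.2.1 hNI hc D σ hD hσ hf).1
      f6 := fun C A y n h h' => (hFC L U hW hT C A y n h h').2.2.2.2.2 hNI
      co := hCO L U hW hS hNA hNI
      cx := hCX L U hW hS hNI
      k2 := hK2 L U hW }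

/-! ### Sets -/

section sets

variable {L : FirstOrder.Language.{0, 0}} {U : Type} [L.Structure U]

private theorem gVI_img {A : Set U} {σ : U ≃[L] U} (h : Fx L A σ) : σ '' A = A := by
  ext x
  constructor
  · rintro ⟨a, ha, rfl⟩
    rw [h a ha]
    exact ha
  · intro hx
    exact ⟨x, hx, h x hx⟩

private theorem gVI_ins {A : Set U} {σ : U ≃[L] U} (h : Fx L A σ) (x : U) :
    σ '' insert x A = insert (σ x) A := by
  rw [image_insert_eq, gVI_img h]

private theorem gVI_symm {A : Set U} {σ : U ≃[L] U} (h : Fx L A σ) : Fx L A σ.symm := by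
  intro a ha
  have h1 : σ.symm (σ a) = a := σ.symm_apply_apply a
  rwa [h a ha] at h1

private theorem gVI_comp {A : Set U} {σ τ : U ≃[L] U} (h : Fx L A σ) (h' : Fx L A τ) :
    Fx L A (τ.comp σ) := by
  intro a ha
  rw [FirstOrder.Language.Equiv.comp_apply, h a ha, h' a ha]

private theorem gVI_ii (σ : U ≃[L] U) (A : Set U) : σ.symm '' (σ '' A) = A := by
  ext x
  constructor
  · rintro ⟨_, ⟨a, ha, rfl⟩, rfl⟩
    rw [σ.symm_apply_apply]
    exact ha
  · intro hx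
    exact ⟨σ x, ⟨x, hx, rfl⟩, σ.symm_apply_apply x⟩

private theorem gVI_Bimg (σ : U ≃[L] U) (A : Set U) (y : ℕ → U) (n : ℕ) :
    σ '' Bn A y n = Bn (σ '' A) (fun i => σ (y i)) n := by
  unfold Bn
  rw [image_union, image_image]

private theorem gVI_sub {A : Set U} (y : ℕ → U) (n : ℕ) : A ⊆ Bn A y n := subset_union_left

private theorem gVI_mem {A : Set U} (y : ℕ → U) (n : ℕ) (i : ℕ) (h : i < n) : y i ∈ Bn A y n :=
  Or.inr ⟨i, h, rfl⟩

private theorem gVI_fin {A : Set U} (hA : A.Finite) (y : ℕ → U) (n : ℕ) : (Bn A y n).Finite :=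
  hA.union ((finite_lt_nat n).image y)

private theorem gVI_mon {A : Set U} (y : ℕ → U) {i n : ℕ} (h : i ≤ n) : Bn A y i ⊆ Bn A y n :=
  union_subset_union_right _ (image_mono fun _ hj => lt_of_lt_of_le hj h)

private theorem gVI_binsert (x : U) (A : Set U) (y : ℕ → U) (n : ℕ) :
    insert x (Bn A y n) = Bn (insert x A) y n := by
  unfold Bn
  rw [insert_union]

/-- enlarging the base -/
private theorem gVI_big {A B : Set U} (h : A ⊆ B) (y : ℕ → U) (n : ℕ) :
    Bn B y n = B ∪ Bn A y n := by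
  unfold Bn
  rw [← union_assoc, union_eq_self_of_subset_right h]

end sets


/-! ### (V1) -/

section main

variable {L : FirstOrder.Language.{0, 0}} {U : Type} [L.Structure U] [LinearOrder U]

private theorem gVI_nconj (G : GH L U) (σ : U ≃[L] U) {A : Set U} {x z : U}
    (h : Nn L (σ '' A) (σ x) (σ z)) : Nn L A x z := by
  have h1 := G.n3 σ.symm _ _ _ h
  rw [gVI_ii, σ.symm_apply_apply, σ.symm_apply_apply] at h1
  exact h1

/-- (*) -/
private theorem gVI_star (G : GH L U) {D B : Set U} {b w : U}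
    (h : ∀ (s' : Bool), ∀ d ∈ Ge L D b s' B, ¬ Nn L B d w) (σ : U ≃[L] U) (hσ : Fx L D σ)
    (s' : Bool) (d : U) (hd : d ∈ Ge L D b s' (σ '' B)) : ¬ Nn L (σ '' B) d (σ w) := by
  intro hn
  have h1 : Ge L D b s' (σ '' B) = σ '' Ge L D b s' B := by
    rw [← G.g5, gVI_img hσ]
    exact (G.g4 D _ b (σ b) s' ⟨σ, hσ, rfl⟩).symm
  rw [h1] at hd
  obtain ⟨d₀, hd₀, rfl⟩ := hd
  exact h s' d₀ hd₀ (gVI_nconj G σ hn)

private theorem gVI_chc (G : GH L U) (σ : U ≃[L] U) {A : Set U} {y : ℕ → U} {n : ℕ}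
    (h : Ch L A y n) : Ch L (σ '' A) (fun i => σ (y i)) n := by
  intro i hi
  rw [← gVI_Bimg]
  exact ((G.d4 σ _ _).1).2 (h i hi)

private theorem gVI_chZ (G : GH L U) {D : Set U} (hD : D.Finite) {b b' : U} {y : ℕ → U} {n : ℕ}
    {s : Bool} (hch : Ch L (insert b D) y n) (hs : ¬ SD L D b s)
    (hb' : b' ∈ Ge L D b s (BB D b y n)) : Ch L (insert b' (insert b D)) y n := by
  intro i hi
  have hfi : (Bn (insert b D) y i).Finite := gVI_fin (hD.insert b) y i
  have hDi : D ⊆ Bn (insert b D) y i := (subset_insert b D).trans (gVI_sub y i)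
  have h1 : b' ∈ Ge L D b s (Bn (insert b D) y i) :=
    G.g2 D _ _ b s hDi (gVI_mon y hi.le) (gVI_fin (hD.insert b) y n) hb'
  have h2 : ¬ SD L (Bn (insert b D) y i) b' s := fun h => hs ((G.d2 D _ b b' s hDi hfi h1).1 h)
  have h3 : ¬ Isd L (Bn (insert b D) y i) b' := by
    intro h
    rw [G.d1 _ _ hfi] at h
    cases s
    · exact h2 h.2
    · exact h2 h.1
  have h4 := (G.i1 _ (y i) b' hfi (hch i hi) h3).2.2
  rw [gVI_binsert] at h4
  exact h4

/-- (V1) (a) -/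
private theorem gVI_a (G : GH L U) {D : Set U} (hD : D.Finite) {b b' w : U} {y : ℕ → U} {n : ℕ}
    {s : Bool} (hch : Ch L (insert b D) y n) (hs : ¬ SD L D b s)
    (hb' : b' ∈ Ge L D b s (BB D b y n)) (hw : ¬ SD L (BB D b y n) w false)
    (hw' : SD L (BB D b y n) w true)
    (hV : ∀ (s' : Bool), ∀ d ∈ Ge L D b s' (BB D b y n), ¬ Nn L (BB D b y n) d w)
    (σ : U ≃[L] U) (hσb : σ b = b')
    (hfc : Fc L D (insert b' (BB D b y n)) (insert b D) y n σ) :
    Cn L (BB D b y n ∪ σ '' BB D b y n) (Cls true (Orb L (BB D b y n) w))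
      (Cls true (Orb L (σ '' BB D b y n) (σ w))) := by
  have hσ : Fx L D σ := hfc.fx
  have hbD : (insert b D).Finite := hD.insert b
  have hDbD : D ⊆ insert b D := subset_insert b D
  set B := BB D b y n with hB
  have hB0 : B = Bn (insert b D) y n := rfl
  have hBf : B.Finite := gVI_fin hbD y n
  have hσBf : (σ '' B).Finite := hBf.image σ
  have hDB : D ⊆ B := hDbD.trans (gVI_sub y n)
  have hbDB : insert b D ⊆ B := gVI_sub y n
  have hbB : b ∈ B := hbDB (mem_insert b D)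
  have hσA : σ '' insert b D = insert b' D := by rw [gVI_ins hσ, hσb]
  have hb'σ : b' ∈ σ '' B := ⟨b, hbB, hσb⟩
  have hDσ : D ⊆ σ '' B := fun d hd => ⟨d, hDB hd, hσ d hd⟩
  have hb'Dσ : insert b' D ⊆ σ '' B := insert_subset hb'σ hDσ
  have hσBn : σ '' B = Bn (insert b' D) (fun i => σ (y i)) n := by rw [hB0, gVI_Bimg, hσA]
  have hE : (B ∪ σ '' B).Finite := hBf.union hσBf
  -- `w` over `b' B`
  have hwiso : ¬ Isd L B w := fun h => hw ((G.d1 B w hBf).1 h).2
  have h1 : Orb L (insert b' B) w = Orb L B w := by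
    by_contra hc
    exact hV s b' hb' hc
  have hb'B : (insert b' B).Finite := hBf.insert b'
  have hsubσ : σ '' insert b D ⊆ insert b' B := by
    rw [hσA]
    exact insert_subset_insert hDB
  have h2 : Atm L (insert b' B) (B ∪ σ '' B) := by
    have h := G.f6 D (insert b D) y n hbD hDbD hch (insert b' B) σ hb'B hsubσ hfc
    have he : insert b' B ∪ σ '' Bn (insert b D) y n = B ∪ σ '' B := by
      show insert b' B ∪ σ '' B = B ∪ σ '' B
      rw [insert_union]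
      exact insert_eq_of_mem (Or.inr hb'σ)
    rwa [he] at h
  have hwiso' : ¬ Isd L (insert b' B) w := fun h =>
    hwiso (((G.d3 B (insert b' B) w (subset_insert _ _) hb'B h1).1).1 h)
  have h3 : Orb L (B ∪ σ '' B) w = Orb L B w := ((G.sat _ _ hb'B h2).2.2 w hwiso').trans h1
  -- `σ w` over `b, σB`
  have hb0 : b' ∈ Ge L D b s (insert b D) := G.g2 D _ _ b s hDbD (gVI_sub y n) hBf hb'
  have hb1 : b ∈ Ge L D b (!s) (insert b' D) := by
    have h := G.ff D b b' s hD hb0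
    rwa [G.g4 D _ b b' (!s) hb0.1] at h
  have hZ : Ch L (insert b' (insert b D)) y n := gVI_chZ G hD hch hs hb'
  have hfcZ : Fc L D (insert b (insert b' D)) (insert b D) y n σ := by
    refine G.f3 D (insert b D) y n hbD hDbD (insert b' B) _ σ hb'B ?_ hfc
    rw [insert_comm]
    exact insert_subset_insert hbDB
  have hc1 : Ch L (insert b (insert b' D)) (fun i => σ (y i)) n :=
    G.f5 D (insert b D) y n hbD hDbD hch _ σ ((hD.insert b').insert b)
      (by rw [hσA]; exact subset_insert _ _) hfcZ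
  have hσwiso : ¬ Isd L (σ '' B) (σ w) := fun h => hwiso (((G.d4 σ B w).1).1 h)
  have h4 : ¬ Nn L (σ '' B) b (σ w) := by
    by_cases hib : Isd L (insert b' D) b
    · have h5 := (G.i4 (insert b' D) b (fun i => σ (y i)) n (hD.insert b') hib hc1).2
      rw [← hσBn] at h5
      exact (G.is _ b (σ w) hσBf h5 hσwiso).1
    · have h6 : Ch L (insert b' D) (fun i => σ (y i)) n := by
        have h := gVI_chc G σ hch
        rwa [hσA] at h
      have h7 : Atm L (insert b' D) (σ '' B) := by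
        rw [hσBn]
        exact G.e2 _ _ n h6
      have h8 := (G.sat _ _ (hD.insert b') h7).2.2 b hib
      have h9 : b ∈ Ge L D b (!s) (σ '' B) := by
        obtain ⟨u, hu⟩ := G.gx1 D (σ '' B) b (!s) hDσ hσBf
        have h10 := G.g2 D (insert b' D) (σ '' B) b (!s) (subset_insert _ _) hb'Dσ hσBf hu
        rw [G.gx D (insert b' D) b (!s) (subset_insert _ _) (hD.insert b') b hb1, ← h8] at h10
        rw [G.gx D (σ '' B) b (!s) hDσ hσBf u hu, G.o2 _ b u h10]
        exact G.o1 _ b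
      exact gVI_star G hV σ hσ (!s) b h9
  have h11 : Ch L (insert b (σ '' B)) y n := by
    have hcB : Ch L (Bn (insert b' (insert b D)) y n) (fun i => σ (y i)) n := by
      have h := G.f5 D (insert b D) y n hbD hDbD hch (insert b' B) σ hb'B hsubσ hfc
      rwa [hB0, gVI_binsert] at h
    have h := (G.e1 (insert b' (insert b D)) y (fun i => σ (y i)) n n
      ((hD.insert b).insert b') hZ hcB).2
    have he : Bn (insert b' (insert b D)) (fun i => σ (y i)) n = insert b (σ '' B) := by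
      rw [insert_comm, ← gVI_binsert, ← hσBn]
    rwa [he] at h
  have h12 : Atm L (insert b (σ '' B)) (B ∪ σ '' B) := by
    have h := G.e2 _ _ n h11
    have he : Bn (insert b (σ '' B)) y n = B ∪ σ '' B := by
      rw [gVI_big (insert_subset_insert hDσ), ← hB0, union_comm, union_insert]
      exact insert_eq_of_mem (Or.inl hbB)
    rwa [he] at h
  have h13 : Orb L (insert b (σ '' B)) (σ w) = Orb L (σ '' B) (σ w) := by
    by_contra hc
    exact h4 hc
  have hσwiso' : ¬ Isd L (insert b (σ '' B)) (σ w) := fun h =>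
    hσwiso (((G.d3 (σ '' B) _ (σ w) (subset_insert _ _) (hσBf.insert b) h13).1).1 h)
  have h14 : Orb L (B ∪ σ '' B) (σ w) = Orb L (σ '' B) (σ w) :=
    ((G.sat _ _ (hσBf.insert b) h12).2.2 (σ w) hσwiso').trans h13
  -- the link
  have hcod : Cod L D b y n w false :=
    ⟨hD, hch, hw, fun τ hτ => G.co n (insert b D) y w false τ hbD hch hw hτ⟩
  have hfar : Far L D b (σ b) ∨ Far L D (σ b) b := by
    rw [hσb]
    cases s
    · right
      exact G.ff D b b' false hD hb0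
    · left
      exact hb0
  have hlk := G.cx D b y n w false hcod hw' σ hσ hfar
  have hww : w ∈ Ge L B w false (B ∪ σ '' B) := by
    have h := G.g3 B _ _ w false subset_union_left subset_rfl hE h3
    rw [← h, G.g6]
    exact G.o1 _ w
  have hσw : σ w ∈ Ge L (σ '' B) (σ w) false (B ∪ σ '' B) := by
    have h := G.g3 (σ '' B) _ _ (σ w) false subset_union_right subset_rfl hE h14
    rw [← h, G.g6]
    exact G.o1 _ (σ w)
  have hn : Nn L (B ∪ σ '' B) w (σ w) := hlk w hww (σ w) hσw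
  have s1 := (G.d3 B _ w subset_union_left hE h3).2
  have s2 := (G.d3 (σ '' B) _ (σ w) subset_union_right hE h14).2
  have s3 := (G.d4 σ B w).2
  have hcn := G.k2 _ w (σ w) hE hn ((s1 true).2 hw') (fun h => hw ((s1 false).1 h))
    ((s2 true).2 ((s3 true).2 hw')) (fun h => hw ((s3 false).1 ((s2 false).1 h)))
  rw [h3, h14] at hcn
  exact hcn

/-- (V1) (b) -/
private theorem gVI_b (G : GH L U) {D : Set U} (hD : D.Finite) {b b' w : U} {y : ℕ → U} {n : ℕ}
    (hch : Ch L (insert b D) y n) (hw : ¬ SD L (BB D b y n) w false)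
    (hw' : SD L (BB D b y n) w true) (κ σ : U ≃[L] U) (hκ : Fx L D κ) (hκb : κ b = b')
    (hσb : σ b = b') (hfc : Fc L D (κ '' BB D b y n) (insert b D) y n σ) :
    Cn L (κ '' BB D b y n ∪ σ '' BB D b y n) (Cls true (Orb L (σ '' BB D b y n) (σ w)))
      (Cls true (Orb L (κ '' BB D b y n) (κ w))) := by
  have hσ : Fx L D σ := hfc.fx
  have hbD : (insert b D).Finite := hD.insert b
  have hDbD : D ⊆ insert b D := subset_insert b D
  set B := BB D b y n with hB
  have hB0 : B = Bn (insert b D) y n := rfl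
  have hBf : B.Finite := gVI_fin hbD y n
  have hσBf : (σ '' B).Finite := hBf.image σ
  have hκBf : (κ '' B).Finite := hBf.image κ
  have hDB : D ⊆ B := hDbD.trans (gVI_sub y n)
  have hbB : b ∈ B := gVI_sub y n (mem_insert b D)
  have hσA : σ '' insert b D = insert b' D := by rw [gVI_ins hσ, hσb]
  have hκA : κ '' insert b D = insert b' D := by rw [gVI_ins hκ, hκb]
  have hb'κ : insert b' D ⊆ κ '' B :=
    insert_subset ⟨b, hbB, hκb⟩ fun d hd => ⟨d, hDB hd, hκ d hd⟩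
  have hb'σ : insert b' D ⊆ σ '' B :=
    insert_subset ⟨b, hbB, hσb⟩ fun d hd => ⟨d, hDB hd, hσ d hd⟩
  have hσBn : σ '' B = Bn (insert b' D) (fun i => σ (y i)) n := by rw [hB0, gVI_Bimg, hσA]
  have hκBn : κ '' B = Bn (insert b' D) (fun i => κ (y i)) n := by rw [hB0, gVI_Bimg, hκA]
  have hE : (κ '' B ∪ σ '' B).Finite := hκBf.union hσBf
  have hwiso : ¬ Isd L B w := fun h => hw ((G.d1 B w hBf).1 h).2
  have hκwiso : ¬ Isd L (κ '' B) (κ w) := fun h => hwiso (((G.d4 κ B w).1).1 h)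
  have hσwiso : ¬ Isd L (σ '' B) (σ w) := fun h => hwiso (((G.d4 σ B w).1).1 h)
  have hsub : σ '' insert b D ⊆ κ '' B := by rw [hσA]; exact hb'κ
  have h2 : Atm L (κ '' B) (κ '' B ∪ σ '' B) :=
    G.f6 D (insert b D) y n hbD hDbD hch (κ '' B) σ hκBf hsub hfc
  have h3 : Orb L (κ '' B ∪ σ '' B) (κ w) = Orb L (κ '' B) (κ w) :=
    (G.sat _ _ hκBf h2).2.2 (κ w) hκwiso
  have hc1 : Ch L (insert b' D) (fun i => κ (y i)) n := by
    have h := gVI_chc G κ hch
    rwa [hκA] at h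
  have hc2 : Ch L (Bn (insert b' D) (fun i => κ (y i)) n) (fun i => σ (y i)) n := by
    rw [← hκBn]
    exact G.f5 D (insert b D) y n hbD hDbD hch (κ '' B) σ hκBf hsub hfc
  have h4 : Ch L (σ '' B) (fun i => κ (y i)) n := by
    rw [hσBn]
    exact (G.e1 (insert b' D) _ _ n n (hD.insert b') hc1 hc2).2
  have h5 : Atm L (σ '' B) (κ '' B ∪ σ '' B) := by
    have h := G.e2 _ _ n h4
    have he : Bn (σ '' B) (fun i => κ (y i)) n = κ '' B ∪ σ '' B := by
      rw [gVI_big hb'σ, ← hκBn, union_comm]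
    rwa [he] at h
  have h6 : Orb L (κ '' B ∪ σ '' B) (σ w) = Orb L (σ '' B) (σ w) :=
    (G.sat _ _ hσBf h5).2.2 (σ w) hσwiso
  -- the link
  set ρ : U ≃[L] U := σ.symm.comp κ with hρ
  have hρx : ∀ x, σ (ρ x) = κ x := fun x => by
    rw [hρ, FirstOrder.Language.Equiv.comp_apply, σ.apply_symm_apply]
  have hρfx : Fx L (insert b D) ρ := by
    intro x hx
    have h7 : σ (ρ x) = σ x := by
      rw [hρx]
      rcases hx with rfl | hx
      · rw [hκb, hσb]
      · rw [hκ x hx, hσ x hx]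
    exact σ.injective h7
  have hlk := G.co n (insert b D) y w false ρ hbD hch hw hρfx
  have hρB : σ '' (ρ '' B) = κ '' B := by
    rw [image_image]
    exact image_congr fun x _ => hρx x
  have hEE : σ '' (B ∪ ρ '' B) = κ '' B ∪ σ '' B := by
    rw [image_union, hρB, union_comm]
  have hw1 : w ∈ Ge L B w false (B ∪ ρ '' B) := by
    have h7 : σ w ∈ σ '' Ge L B w false (B ∪ ρ '' B) := by
      rw [← G.g5, hEE, ← G.g3 (σ '' B) _ _ (σ w) false subset_union_right subset_rfl hE h6, G.g6]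
      exact G.o1 _ _
    obtain ⟨x, hx, hx'⟩ := h7
    rwa [σ.injective hx'] at hx
  have hw2 : ρ w ∈ Ge L (ρ '' B) (ρ w) false (B ∪ ρ '' B) := by
    have h7 : σ (ρ w) ∈ σ '' Ge L (ρ '' B) (ρ w) false (B ∪ ρ '' B) := by
      rw [← G.g5, hEE, hρB, hρx,
        ← G.g3 (κ '' B) _ _ (κ w) false subset_union_left subset_rfl hE h3, G.g6]
      exact G.o1 _ _
    obtain ⟨x, hx, hx'⟩ := h7
    rwa [σ.injective hx'] at hx
  have hn : Nn L (κ '' B ∪ σ '' B) (σ w) (κ w) := by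
    have h7 := G.n3 σ _ _ _ (hlk w hw1 (ρ w) hw2)
    rw [hρx] at h7
    have h8 : σ '' (Bn (insert b D) y n ∪ ρ '' Bn (insert b D) y n) = κ '' B ∪ σ '' B := hEE
    rwa [h8] at h7
  have s1 := (G.d3 (σ '' B) _ (σ w) subset_union_right hE h6).2
  have s2 := (G.d3 (κ '' B) _ (κ w) subset_union_left hE h3).2
  have s3 := (G.d4 σ B w).2
  have s4 := (G.d4 κ B w).2
  have hcn := G.k2 _ (σ w) (κ w) hE hn ((s1 true).2 ((s3 true).2 hw'))
    (fun h => hw ((s3 false).1 ((s1 false).1 h))) ((s2 true).2 ((s4 true).2 hw'))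
    (fun h => hw ((s4 false).1 ((s2 false).1 h)))
  rw [h3, h6] at hcn
  exact hcn

end main


/-! ### (V2) -/

section fams

variable {L : FirstOrder.Language.{0, 0}} {U : Type} [L.Structure U] [LinearOrder U]

private theorem gVI_cls (G : GH L U) (σ : U ≃[L] U) (X : Set U) :
    σ '' Cls true X = Cls true (σ '' X) := by
  have hle : ∀ x y : U, x ≤ y ↔ σ x ≤ σ y := fun x y => by
    rw [← not_lt, ← not_lt]
    exact not_congr (G.mono σ y x)
  ext u
  constructor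
  · rintro ⟨x, ⟨v, hv, hxv⟩, rfl⟩
    exact ⟨σ v, ⟨v, hv, rfl⟩, (hle x v).1 hxv⟩
  · rintro ⟨_, ⟨v, hv, rfl⟩, hxv⟩
    refine ⟨σ.symm u, ⟨v, hv, ?_⟩, σ.apply_symm_apply u⟩
    refine (hle _ _).2 ?_
    rw [σ.apply_symm_apply]
    exact hxv

private theorem gVI_low (X : Set U) : Low (Cls true X) := by
  rintro x ⟨v, hv, hxv⟩ y hy
  exact ⟨v, hv, hy.trans hxv⟩

/-- values of families are definable -/
private theorem gVI_val {K : Type} {A B : Set U} (hAB : A ⊆ B) {ρ : (K → U) → Set U}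
    (h : A.Definable L {v : K ⊕ Unit → U | v (Sum.inr ()) ∈ ρ (fun i => v (Sum.inl i))})
    (c : K → U) (hc : ∀ k, c k ∈ B) : B.Definable₁ L (ρ c) := by
  have h1 := gVI_inst hAB c hc h
  have h2 := h1.preimage_comp (fun _ : Unit => (0 : Fin 1))
  exact h2

/-- values of families and automorphisms -/
private theorem gVI_equ {K : Type} {A : Set U} {ρ : (K → U) → Set U}
    (h : A.Definable L {v : K ⊕ Unit → U | v (Sum.inr ()) ∈ ρ (fun i => v (Sum.inl i))})
    (σ : U ≃[L] U) (hσ : Fx L A σ) (c : K → U) : ρ (fun k => σ (c k)) = σ '' ρ c := by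
  have h1 : ∀ x, σ x ∈ ρ (fun k => σ (c k)) ↔ x ∈ ρ c := fun x =>
    gVI_inv h σ hσ (Sum.elim c fun _ => x)
  ext u
  constructor
  · intro hu
    refine ⟨σ.symm u, (h1 _).1 ?_, σ.apply_symm_apply u⟩
    rw [σ.apply_symm_apply]
    exact hu
  · rintro ⟨x, hx, rfl⟩
    exact (h1 x).2 hx

private theorem gVI_V2 (hCF : St_gCF) (hTO : St_gTO) (G : GH L U) {D : Set U} (hD : D.Finite)
    {b b' w : U} {y : ℕ → U} {n : ℕ} {s : Bool} (hch : Ch L (insert b D) y n)
    (hs : ¬ SD L D b s) (hb' : b' ∈ Ge L D b s (BB D b y n)) (hw : ¬ SD L (BB D b y n) w false)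
    (hw' : SD L (BB D b y n) w true)
    (hV : ∀ (s' : Bool), ∀ d ∈ Ge L D b s' (BB D b y n), ¬ Nn L (BB D b y n) d w) :
    ∃ (ρ : (Unit ⊕ Fin n → U) → Set U) (Rθ χa : Set (Unit ⊕ Fin n → U))
      (χb : Set (Unit ⊕ (Fin n ⊕ Fin n) → U)),
      D.Definable L {v : (Unit ⊕ Fin n) ⊕ Unit → U | v (Sum.inr ()) ∈ ρ (fun i => v (Sum.inl i))} ∧
      (∀ c, Low (ρ c)) ∧ D.Definable L Rθ ∧ (BB D b y n).Definable L χa ∧ D.Definable L χb ∧
      (∀ c ∈ χa, Cn L (BB D b y n ∪ range c) (Cls true (Orb L (BB D b y n) w)) (ρ c)) ∧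
      (∀ c ∈ χb, Cn L (D ∪ range c) (ρ fun k => c (Sum.map id Sum.inl k))
        (ρ fun k => c (Sum.map id Sum.inr k))) ∧
      b' ∈ {x : U | (∃ z : Fin n → U, Sum.elim (fun _ : Unit => x) z ∈ Rθ) ∧
        ∀ z : Fin n → U, Sum.elim (fun _ : Unit => x) z ∈ Rθ →
          ∃ z' : Fin n → U, Sum.elim (fun _ : Unit => x) z' ∈ χa ∧
            Sum.elim (fun _ : Unit => x) (Sum.elim z' z) ∈ χb} := by
  have hbD : (insert b D).Finite := hD.insert b
  have hDbD : D ⊆ insert b D := subset_insert b D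
  set B := BB D b y n with hB
  have hB0 : B = Bn (insert b D) y n := rfl
  have hBf : B.Finite := gVI_fin hbD y n
  have hDB : D ⊆ B := hDbD.trans (gVI_sub y n)
  have hbDB : insert b D ⊆ B := gVI_sub y n
  have hbB : b ∈ B := hbDB (mem_insert b D)
  have hb'f : (insert b' B).Finite := hBf.insert b'
  -- the first automorphism
  obtain ⟨σ₁, hσ₁, hσ₁b⟩ := hb'.1
  -- the tuple
  set c₀ : Unit ⊕ Fin n → U := Sum.elim (fun _ => b) (fun i => y i) with hc₀
  have hrc₀ : ∀ σ : U ≃[L] U, Fx L D σ → σ '' B = D ∪ range (fun k => σ (c₀ k)) := by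
    intro σ hσ
    rw [hB0]
    ext x
    constructor
    · rintro ⟨a, (rfl | ha) | ⟨i, hi, rfl⟩, rfl⟩
      · exact Or.inr ⟨Sum.inl (), rfl⟩
      · rw [hσ a ha]
        exact Or.inl ha
      · exact Or.inr ⟨Sum.inr ⟨i, hi⟩, rfl⟩
    · rintro (hx | ⟨k | k, rfl⟩)
      · exact ⟨x, hDB hx, hσ x hx⟩
      · exact ⟨b, hbB, rfl⟩
      · exact ⟨y k, gVI_mem y n k k.2, rfl⟩
  have hBr : B = D ∪ range c₀ := by
    have h := hrc₀ (FirstOrder.Language.Equiv.refl L U) (fun a _ => rfl)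
    have h1 : (FirstOrder.Language.Equiv.refl L U) '' B = B := by
      ext x
      constructor
      · rintro ⟨a, ha, rfl⟩
        exact ha
      · intro hx
        exact ⟨x, hx, rfl⟩
    rw [h1] at h
    exact h
  have hc₀B : ∀ k, c₀ k ∈ B := fun k => by
    rw [hBr]
    exact Or.inr ⟨k, rfl⟩
  -- the family `ρ`
  set r : Set U := Cls true (Orb L B w) with hr
  have hrd : (D ∪ range c₀).Definable₁ L r := by
    rw [← hBr]
    exact hw'
  obtain ⟨ρ, hρd, hρl, hρr⟩ := gVI_fam G.W.ord D c₀ r hrd (gVI_low _)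
  have hρσ : ∀ σ : U ≃[L] U, Fx L D σ → ρ (fun k => σ (c₀ k)) = Cls true (Orb L (σ '' B) (σ w)) := by
    intro σ hσ
    rw [gVI_equ hρd σ hσ c₀, hρr, hr, gVI_cls G, ← G.o4]
  -- the orbit of `y`
  have hθ0 : (D ∪ range (fun _ : Unit => b)).Definable L
      {z : Fin n → U | ∃ κ : U ≃[L] U, Fx L (insert b D) κ ∧ ∀ i : Fin n, κ (y i) = z i} := by
    have he : D ∪ range (fun _ : Unit => b) = insert b D := by
      rw [range_const, union_comm]
      rfl
    rw [he]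
    exact hTO L U G.W (insert b D) y n hbD hch
  obtain ⟨Rθ, hRθ, hRθz⟩ := gVI_par (fun _ : Unit => b) hθ0
  -- `σ₂`
  obtain ⟨σ₂, hσ₂, hσ₂a⟩ := G.f1 D (insert b D) y n hbD hDbD (insert b' B ∪ σ₁ '' B) σ₁
    (hb'f.union (hBf.image σ₁)) hσ₁
  have hσ₂b : σ₂ b = b' := by rw [hσ₂a b (mem_insert b D), hσ₁b]
  have hσ₂1 := G.f3 D (insert b D) y n hbD hDbD _ (insert b' B) σ₂ (hb'f.union (hBf.image σ₁))
    subset_union_left hσ₂
  have hσ₂2 := G.f3 D (insert b D) y n hbD hDbD _ (σ₁ '' B) σ₂ (hb'f.union (hBf.image σ₁))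
    subset_union_right hσ₂
  have hσ₂D : Fx L D σ₂ := hσ₂.fx
  -- (a)
  have ha := gVI_a G hD hch hs hb' hw hw' hV σ₂ hσ₂b hσ₂1
  have hra : B ∪ range (fun k => σ₂ (c₀ k)) = B ∪ σ₂ '' B := by
    rw [hrc₀ σ₂ hσ₂D, ← union_assoc, union_eq_self_of_subset_right hDB]
  obtain ⟨χa, hχa, hca, hχaC⟩ := gVI_cf hCF G.W B (fun k => σ₂ (c₀ k)) (fun _ => r) ρ
    (Set.Definable.preimage_comp (fun _ : Fin 1 => (Sum.inr () : (Unit ⊕ Fin n) ⊕ Unit))
      (s := {v : Fin 1 → U | v 0 ∈ r}) hw')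
    (hρd.mono hDB) (by
      rw [hra, hρσ σ₂ hσ₂D]
      exact ha)
  -- (b)
  have hb := gVI_b G hD hch hw hw' σ₁ σ₂ hσ₁ hσ₁b hσ₂b hσ₂2
  set cb : Unit ⊕ (Fin n ⊕ Fin n) → U :=
    Sum.elim (fun _ => b') (Sum.elim (fun i => σ₂ (y i)) fun i => σ₁ (y i)) with hcb
  have hcb1 : (fun k => cb (Sum.map id Sum.inl k)) = fun k => σ₂ (c₀ k) := by
    funext k
    rcases k with k | k
    · exact hσ₂b.symm
    · rfl
  have hcb2 : (fun k => cb (Sum.map id Sum.inr k)) = fun k => σ₁ (c₀ k) := by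
    funext k
    rcases k with k | k
    · exact hσ₁b.symm
    · rfl
  have hrb : D ∪ range cb = σ₁ '' B ∪ σ₂ '' B := by
    rw [hrc₀ σ₁ hσ₁, hrc₀ σ₂ hσ₂D, ← hcb1, ← hcb2]
    ext x
    constructor
    · rintro (hx | ⟨k | k | k, rfl⟩)
      · exact Or.inl (Or.inl hx)
      · exact Or.inl (Or.inr ⟨Sum.inl k, rfl⟩)
      · exact Or.inr (Or.inr ⟨Sum.inr k, rfl⟩)
      · exact Or.inl (Or.inr ⟨Sum.inr k, rfl⟩)
    · rintro ((hx | ⟨k, rfl⟩) | hx | ⟨k, rfl⟩)
      · exact Or.inl hx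
      · exact Or.inr ⟨_, rfl⟩
      · exact Or.inl hx
      · exact Or.inr ⟨_, rfl⟩
  obtain ⟨χb, hχb, hcbm, hχbC⟩ := gVI_cf hCF G.W D cb
    (fun c => ρ fun k => c (Sum.map id Sum.inl k)) (fun c => ρ fun k => c (Sum.map id Sum.inr k))
    (hρd.preimage_comp (Sum.map (Sum.map id Sum.inl) id :
      (Unit ⊕ Fin n) ⊕ Unit → (Unit ⊕ (Fin n ⊕ Fin n)) ⊕ Unit))
    (hρd.preimage_comp (Sum.map (Sum.map id Sum.inr) id :
      (Unit ⊕ Fin n) ⊕ Unit → (Unit ⊕ (Fin n ⊕ Fin n)) ⊕ Unit)) (by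
      show Cn L (D ∪ range cb) (ρ fun k => cb (Sum.map id Sum.inl k))
        (ρ fun k => cb (Sum.map id Sum.inr k))
      rw [hcb1, hcb2, hρσ σ₂ hσ₂D, hρσ σ₁ hσ₁, hrb]
      exact hb)
  refine ⟨ρ, Rθ, χa, χb, hρd, hρl, hRθ, hχa, hχb, hχaC, hχbC, ?_, ?_⟩
  · -- `θ (b', σ₁ y)`
    refine ⟨fun i => σ₁ (y i), ?_⟩
    have h1 : Sum.elim (fun _ : Unit => b) (fun i : Fin n => y i) ∈ Rθ :=
      (hRθz _).1 ⟨FirstOrder.Language.Equiv.refl L U, fun _ _ => rfl, fun _ => rfl⟩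
    have h2 := (gVI_inv hRθ σ₁ hσ₁ _).2 h1
    refine (congrArg (· ∈ Rθ) ?_).mp h2
    funext k
    rcases k with k | k
    · exact hσ₁b
    · rfl
  · intro z hz
    -- `z = κ y`
    obtain ⟨κ, hκ, hκb, hκz⟩ : ∃ κ : U ≃[L] U, Fx L D κ ∧ κ b = b' ∧ ∀ i : Fin n, κ (y i) = z i := by
      have h1 : Sum.elim (fun _ : Unit => b) (fun i : Fin n => σ₁.symm (z i)) ∈ Rθ := by
        have h2 := (gVI_inv hRθ σ₁.symm (gVI_symm hσ₁) _).2 hz
        refine (congrArg (· ∈ Rθ) ?_).mp h2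
        funext k
        rcases k with k | k
        · show σ₁.symm b' = b
          rw [← hσ₁b, σ₁.symm_apply_apply]
        · rfl
      obtain ⟨κ₀, hκ₀, hκ₀z⟩ := (hRθz _).2 h1
      refine ⟨σ₁.comp κ₀, gVI_comp (fun a ha => hκ₀ a (hDbD ha)) hσ₁, ?_, fun i => ?_⟩
      · rw [FirstOrder.Language.Equiv.comp_apply, hκ₀ b (mem_insert b D), hσ₁b]
      · rw [FirstOrder.Language.Equiv.comp_apply, hκ₀z i, σ₁.apply_symm_apply]
    obtain ⟨σ₃, hσ₃, hσ₃a⟩ := G.f1 D (insert b D) y n hbD hDbD (insert b' B ∪ κ '' B) κ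
      (hb'f.union (hBf.image κ)) hκ
    have hσ₃b : σ₃ b = b' := by rw [hσ₃a b (mem_insert b D), hκb]
    have hσ₃1 := G.f3 D (insert b D) y n hbD hDbD _ (insert b' B) σ₃ (hb'f.union (hBf.image κ))
      subset_union_left hσ₃
    have hσ₃2 := G.f3 D (insert b D) y n hbD hDbD _ (κ '' B) σ₃ (hb'f.union (hBf.image κ))
      subset_union_right hσ₃
    have hσ₃D : Fx L D σ₃ := hσ₃.fx
    have hagr : ∀ a ∈ insert b D, σ₂ a = σ₃ a := by
      rintro a (rfl | ha)
      · rw [hσ₂b, hσ₃b]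
      · rw [hσ₂D a ha, hσ₃D a ha]
    have hσ₂A : σ₂ '' insert b D = insert b' D := by rw [gVI_ins hσ₂D, hσ₂b]
    refine ⟨fun i => σ₃ (y i), ?_, ?_⟩
    · obtain ⟨ρ₁, hρ₁, hρ₁x⟩ := G.f2 D (insert b D) y n hbD hDbD (insert b' B) σ₂ σ₃ hb'f hσ₂1 hσ₃1
        hagr (by rw [hσ₂A]; exact insert_subset_insert hDB)
      have h2 := (gVI_inv hχa ρ₁ (fun a ha => hρ₁ a (subset_insert _ _ ha)) _).2 hca
      refine (congrArg (· ∈ χa) ?_).mp h2
      funext k
      have h3 := hρ₁x (c₀ k) (hc₀B k)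
      rw [h3]
      rcases k with k | k
      · exact hσ₃b
      · rfl
    · set μ : U ≃[L] U := κ.comp σ₁.symm with hμ
      have hμD : Fx L D μ := gVI_comp (gVI_symm hσ₁) hκ
      have hμx : ∀ x, μ (σ₁ x) = κ x := fun x => by
        rw [hμ, FirstOrder.Language.Equiv.comp_apply, σ₁.symm_apply_apply]
      have hμb : μ b' = b' := by
        rw [← hσ₁b, hμx, hκb, hσ₁b]
      have hμB : μ '' (σ₁ '' B) = κ '' B := by
        rw [image_image]
        exact image_congr fun x _ => hμx x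
      have h4 := G.f4 D (insert b D) y n hbD hDbD _ σ₂ μ hμD hσ₂2
      rw [hμB] at h4
      have hagr2 : ∀ a ∈ insert b D, (μ.comp σ₂) a = σ₃ a := by
        intro a ha
        rw [FirstOrder.Language.Equiv.comp_apply]
        rcases ha with rfl | ha
        · rw [hσ₂b, hσ₃b, hμb]
        · rw [hσ₂D a ha, hσ₃D a ha, hμD a ha]
      have hb'κ : b' ∈ κ '' B := ⟨b, hbB, hκb⟩
      have hsub2 : (μ.comp σ₂) '' insert b D ⊆ κ '' B := by
        rintro _ ⟨a, ha, rfl⟩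
        rw [hagr2 a ha]
        rcases ha with rfl | ha
        · rw [hσ₃b]
          exact hb'κ
        · exact ⟨a, hDB ha, by rw [hκ a ha, hσ₃D a ha]⟩
      obtain ⟨ρ₂, hρ₂, hρ₂x⟩ := G.f2 D (insert b D) y n hbD hDbD (κ '' B) (μ.comp σ₂) σ₃
        (hBf.image κ) h4 hσ₃2 hagr2 hsub2
      have hρ₂D : Fx L D ρ₂ := fun a ha => hρ₂ a ⟨a, hDB ha, hκ a ha⟩
      have h5 := (gVI_inv hχb (ρ₂.comp μ) (gVI_comp hμD hρ₂D) _).2 hcbm
      refine (congrArg (· ∈ χb) ?_).mp h5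
      funext k
      rw [FirstOrder.Language.Equiv.comp_apply]
      rcases k with k | k | k
      · show ρ₂ (μ b') = b'
        rw [hμb]
        exact hρ₂ b' hb'κ
      · show ρ₂ (μ (σ₂ (y k))) = σ₃ (y k)
        have h6 := hρ₂x (y k) (gVI_mem y n k k.2)
        rw [FirstOrder.Language.Equiv.comp_apply] at h6
        exact h6
      · show ρ₂ (μ (σ₁ (y k))) = z k
        rw [hμx, ← hκz k]
        exact hρ₂ _ ⟨y k, gVI_mem y n k k.2, rfl⟩

end fams


/-! ### (V3) -/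

section v3

variable {L : FirstOrder.Language.{0, 0}} {U : Type} [L.Structure U] [LinearOrder U]

private theorem gVI_atrans {A B C : Set U} (h : Atm L A B) (h' : Atm L B C) : Atm L A C := by
  induction h' with
  | base => exact h
  | step E e _ he ih => exact Atm.step E e ih he

private theorem gVI_cne {B r r' : Set U} (h : Cn L B r r') : r'.Nonempty := by
  obtain ⟨g, l, -, -, -, hrl, h1, -, -⟩ := h
  obtain ⟨u, hu, hul⟩ := not_subset.1 hrl
  obtain ⟨v, hv, -⟩ := not_subset.1 (h1 u hu hul).2.2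
  exact ⟨v, hv⟩

private theorem gVI_core (hCF : St_gCF) (hTO : St_gTO) (hK0 : St_gK0) (hK1 : St_gK1)
    (hRF : St_gRF) (hAT : St_gAT) (hTS : St_gTS) (hTRV : TRV L U) (G : GH L U) (D : Set U) (b : U)
    (y : ℕ → U) (n : ℕ) (w : U) (hD : D.Finite) (hb : ¬ Isd L D b) (hch : Ch L (insert b D) y n)
    (hw : ¬ SD L (BB D b y n) w false) (hw' : SD L (BB D b y n) w true) :
    ∃ (D' : Set U) (v : U) (t' : Bool), Atm L D D' ∧ Atm L (BB D b y n) (BB D b y n ∪ D') ∧
      ¬ SD L D' v t' ∧ ∀ u ∈ Ge L (BB D b y n) w false (BB D b y n ∪ D'),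
        ∀ u' ∈ Ge L D' v t' (BB D b y n ∪ D'), Nn L (BB D b y n ∪ D') u u' := by
  have hbD : (insert b D).Finite := hD.insert b
  have hDbD : D ⊆ insert b D := subset_insert b D
  set B := BB D b y n with hB
  have hBf : B.Finite := gVI_fin hbD y n
  have hDB : D ⊆ B := hDbD.trans (gVI_sub y n)
  have hbB : b ∈ B := gVI_sub y n (mem_insert b D)
  have hwiso : ¬ Isd L B w := fun h => hw ((G.d1 B w hBf).1 h).2
  obtain ⟨s, hs⟩ : ∃ s : Bool, ¬ SD L D b s := by
    by_contra hcon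
    push Not at hcon
    exact hb ((G.d1 D b hD).2 ⟨hcon true, hcon false⟩)
  have hbne : Orb L D b ≠ {b} := G.d5 D b s hD hs
  by_cases hV0 : ∃ (s' : Bool) (d : U), d ∈ Ge L D b s' B ∧ Nn L B d w
  · -- (V0)
    obtain ⟨s', d, hd, hdw⟩ := hV0
    have hdiso : ¬ Isd L B d := fun h => (G.is B d w hBf h hwiso).1 hdw
    have hdsd : SD L B d (!s') := by
      rcases G.N D B b d s' hDB hBf hd with h1 | h1
      · exfalso
        have h2 : b ∈ Orb L B d := by
          rw [h1]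
          exact G.o1 D b
        have h3 : Orb L B d = {b} := by
          rw [← G.o2 B d b h2]
          exact G.o5 B b hbB
        exact hbne (h1.symm.trans h3)
      · exact h1
    have hdsd' : ¬ SD L B d s' := by
      intro h
      apply hdiso
      rw [G.d1 B d hBf]
      cases s'
      · exact ⟨hdsd, h⟩
      · exact ⟨h, hdsd⟩
    have hBD : B ∪ D = B := union_eq_self_of_subset_right hDB
    refine ⟨D, b, s', Atm.base, ?_, fun h => hdsd' ((G.d2 D B b d s' hDB hBf hd).2 h), ?_⟩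
    · rw [hBD]
      exact Atm.base
    · rw [hBD]
      intro u hu u' hu'
      rw [G.g6] at hu
      rw [G.gx D B b s' hDB hBf d hd] at hu'
      exact G.n2 B w d u u' hu hu' (G.n1 B d w hdw)
  · -- the main case
    push Not at hV0
    obtain ⟨b', hb'⟩ := G.gx1 D B b s hDB hBf
    obtain ⟨ρ, Rθ, χa, χb, hρd, hρl, hRθ, hχa, hχb, hχaC, hχbC, hb'S⟩ :=
      gVI_V2 hCF hTO G hD hch hs hb' hw hw' (fun s' d hd => hV0 s' d hd)
    have hSdef := gVI_S hDB hRθ hχa hχb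
    obtain ⟨x, hxS, hxD, hxB⟩ := hRF L U G.W hTRV G.N D B _ b b' s hDB hBf hs hb' hSdef hb'S
    obtain ⟨⟨z₀, hz₀⟩, hall⟩ := hxS
    -- `D'`
    have hθx : (insert x D).Definable L {z : Fin n → U | Sum.elim (fun _ : Unit => x) z ∈ Rθ} :=
      gVI_inst (subset_insert x D) (fun _ => x) (fun _ => mem_insert x D) hRθ
    obtain ⟨z, hzθ, hzD, hzB⟩ := hAT L U G.W hTRV G.N n (insert x D) (insert x B) _
      (insert_subset_insert hDB) (hBf.insert x) hθx ⟨z₀, hz₀⟩
    set D' := Bn (insert x D) z n with hD'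
    set B₁ := Bn (insert x B) z n with hB₁
    have hD'f : D'.Finite := gVI_fin (hD.insert x) z n
    have hB₁f : B₁.Finite := gVI_fin (hBf.insert x) z n
    have hAD : Atm L D D' := gVI_atrans (Atm.step D x Atm.base hxD) (G.e2 _ _ n hzD)
    have hAB : Atm L B B₁ := gVI_atrans (Atm.step B x Atm.base hxB) (G.e2 _ _ n hzB)
    have hxD' : x ∈ D' := gVI_sub z n (mem_insert x D)
    have hB₁e : B₁ = B ∪ D' := by
      rw [hB₁, gVI_big (insert_subset_insert hDB) z n, ← hD', insert_union]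
      exact insert_eq_of_mem (Or.inr hxD')
    have hBB₁ : B ⊆ B₁ := (subset_insert x B).trans (gVI_sub z n)
    have hD'B₁ : D' ⊆ B₁ := by
      rw [hB₁e]
      exact subset_union_right
    have hDD' : D ⊆ D' := (subset_insert x D).trans (gVI_sub z n)
    have hxB₁ : x ∈ B₁ := hD'B₁ hxD'
    have hzD' : ∀ i : Fin n, z i ∈ D' := fun i => gVI_mem z n i i.2
    -- `B₂`
    have hθ' : B₁.Definable L {z' : Fin n → U | Sum.elim (fun _ : Unit => x) z' ∈ χa ∧
        Sum.elim (fun _ : Unit => x) (Sum.elim z' (fun i : Fin n => z i)) ∈ χb} := by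
      refine Set.Definable.inter (gVI_inst hBB₁ (fun _ => x) (fun _ => hxB₁) hχa) ?_
      have h1 := hχb.preimage_comp (Sum.elim (fun u => Sum.inl (Sum.inl u))
        (Sum.elim Sum.inr fun i => Sum.inl (Sum.inr i)) :
          Unit ⊕ (Fin n ⊕ Fin n) → (Unit ⊕ Fin n) ⊕ Fin n)
      have h2 := gVI_inst (hDB.trans hBB₁) (Sum.elim (fun _ : Unit => x) (fun i : Fin n => z i))
        (by
          rintro (k | k)
          · exact hxB₁
          · exact hD'B₁ (hzD' k)) h1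
      refine (congrArg (B₁.Definable L) ?_).mp h2
      ext z'
      have e2 : (Sum.elim (Sum.elim (fun _ : Unit => x) (fun i : Fin n => z i)) z' :
          (Unit ⊕ Fin n) ⊕ Fin n → U) ∘ (Sum.elim (fun u => Sum.inl (Sum.inl u))
        (Sum.elim Sum.inr fun i => Sum.inl (Sum.inr i)) :
          Unit ⊕ (Fin n ⊕ Fin n) → (Unit ⊕ Fin n) ⊕ Fin n) =
          Sum.elim (fun _ : Unit => x) (Sum.elim z' (fun i : Fin n => z i)) := by
        funext k
        rcases k with k | k | k <;> rfl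
      show (Sum.elim (Sum.elim (fun _ : Unit => x) (fun i : Fin n => z i)) z' :
          (Unit ⊕ Fin n) ⊕ Fin n → U) ∘ _ ∈ χb ↔ _
      rw [e2]
      rfl
    obtain ⟨z', ⟨hz'a, hz'b⟩, hz'c, -⟩ := hAT L U G.W hTRV G.N n B₁ B₁ _ subset_rfl hB₁f hθ'
      (hall (fun i : Fin n => z i) hzθ)
    set B₂ := Bn B₁ z' n with hB₂
    have hB₂f : B₂.Finite := gVI_fin hB₁f z' n
    have hB₁B₂ : B₁ ⊆ B₂ := gVI_sub z' n
    have hBB₂ : B ⊆ B₂ := hBB₁.trans hB₁B₂
    have hD'B₂ : D' ⊆ B₂ := hD'B₁.trans hB₁B₂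
    have hAB₂ : Atm L B B₂ := gVI_atrans hAB (G.e2 _ _ n hz'c)
    have hw1 : Orb L B₁ w = Orb L B w := (G.sat _ _ hBf hAB).2.2 w hwiso
    have hw2 : Orb L B₂ w = Orb L B w := (G.sat _ _ hBf hAB₂).2.2 w hwiso
    have hd3 := G.d3 B B₂ w hBB₂ hB₂f hw2
    have hwiso2 : ¬ Isd L B₂ w := fun h => hwiso (hd3.1.1 h)
    have hsd2 : SD L B₂ w true := (hd3.2 true).2 hw'
    obtain ⟨hk0, hk0'⟩ := hK0 L U G.W
    -- `w` is in the last type of `r`
    set r : Set U := Cls true (Orb L B w) with hr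
    have hwLT : w ∈ LT L B₂ r := by
      have h1 := hk0' B₂ w hB₂f hsd2
      rw [hw2] at h1
      rw [h1]
      exact G.o1 B w
    have hrd : B₂.Definable₁ L r := Set.Definable.mono hw' hBB₂
    -- `ra`, `rb`
    set ca : Unit ⊕ Fin n → U := Sum.elim (fun _ => x) (fun i => z' i) with hca
    set cb : Unit ⊕ (Fin n ⊕ Fin n) → U :=
      Sum.elim (fun _ => x) (Sum.elim (fun i => z' i) fun i => z i) with hcb
    set cz : Unit ⊕ Fin n → U := Sum.elim (fun _ => x) (fun i => z i) with hcz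
    have hcb1 : (fun k => cb (Sum.map id Sum.inl k)) = ca := by
      funext k
      rcases k with k | k <;> rfl
    have hcb2 : (fun k => cb (Sum.map id Sum.inr k)) = cz := by
      funext k
      rcases k with k | k <;> rfl
    have hC1 : Cn L (B ∪ range ca) r (ρ ca) := hχaC ca hz'a
    have hC2 : Cn L (D ∪ range cb) (ρ ca) (ρ cz) := by
      have h := hχbC cb hz'b
      rw [hcb1, hcb2] at h
      exact h
    have hcaB : ∀ k, ca k ∈ B₂ := by
      rintro (k | k)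
      · exact hB₁B₂ hxB₁
      · exact gVI_mem z' n k k.2
    have hczD : ∀ k, cz k ∈ D' := by
      rintro (k | k)
      · exact hxD'
      · exact hzD' k
    have hcbB : ∀ k, cb k ∈ B₂ := by
      rintro (k | k | k)
      · exact hB₁B₂ hxB₁
      · exact gVI_mem z' n k k.2
      · exact hD'B₂ (hzD' k)
    have hDB₂ : D ⊆ B₂ := hDB.trans hBB₂
    have hrad : B₂.Definable₁ L (ρ ca) := gVI_val hDB₂ hρd ca hcaB
    have hrbd : D'.Definable₁ L (ρ cz) := gVI_val hDD' hρd cz hczD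
    have hrbd2 : B₂.Definable₁ L (ρ cz) := Set.Definable.mono hrbd hD'B₂
    have hran : (ρ ca).Nonempty := gVI_cne hC1
    have hrbn : (ρ cz).Nonempty := gVI_cne hC2
    obtain ⟨v₂, hv₂⟩ := (hk0 B₂ (ρ ca) hB₂f hrad (hρl ca) hran).1
    obtain ⟨⟨v, hv⟩, hvo, hvc, -, -⟩ := hk0 B₂ (ρ cz) hB₂f hrbd2 (hρl cz) hrbn
    have hvo' := hvo v hv
    have hN1 : Nn L B₂ w v₂ := hK1 L U G.W (B ∪ range ca) B₂ r (ρ ca) w v₂
      (union_subset hBB₂ (by rintro _ ⟨k, rfl⟩; exact hcaB k)) hB₂f hrd (gVI_low _) hrad (hρl ca)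
      hC1 hwLT hv₂
    have hN2 : Nn L B₂ v₂ v := hK1 L U G.W (D ∪ range cb) B₂ (ρ ca) (ρ cz) v₂ v
      (union_subset hDB₂ (by rintro _ ⟨k, rfl⟩; exact hcbB k)) hB₂f hrad (hρl ca) hrbd2 (hρl cz)
      hC2 hv₂ hv
    have hN3 : Nn L B₂ w v := G.tr B₂ w v₂ v hB₂f hN1 hN2
    have hviso : ¬ Isd L B₂ v := fun h => (G.is B₂ v w hB₂f h hwiso2).2 hN3
    have hvsd : SD L B₂ v true := by
      show B₂.Definable₁ L (Cls true (Orb L B₂ v))
      rw [← hvo', hvc]
      exact hrbd2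
    have hvsd' : ¬ SD L B₂ v false := fun h => hviso ((G.d1 B₂ v hB₂f).2 ⟨hvsd, h⟩)
    have hvGe : v ∈ Ge L D' v true B₂ := by
      obtain ⟨-, -, -, -, h5⟩ := hk0 D' (ρ cz) hD'f hrbd (hρl cz) hrbn
      exact (h5 B₂ hD'B₂ hB₂f).2 v hv
    have hvO : Orb L B₂ v = Orb L D' v := by
      rcases G.N D' B₂ v v true hD'B₂ hB₂f hvGe with h | h
      · exact h
      · exact absurd h hvsd'
    have hvsdD : ¬ SD L D' v false := fun h =>
      hvsd' (((G.d3 D' B₂ v hD'B₂ hB₂f hvO).2 false).2 h)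
    have hvO1 : Orb L B₁ v = Orb L D' v := by
      refine subset_antisymm (G.o3 D' B₁ v hD'B₁) ?_
      rw [← hvO]
      exact G.o3 B₁ B₂ v hB₁B₂
    have hN4 : Nn L B₁ w v := by
      by_contra hcon
      exact hTS L U G.W hTRV B₁ B₂ w v hB₁B₂ hB₂f (hw2.trans hw1.symm) (hvO.trans hvO1.symm) hcon
        hN3
    refine ⟨D', v, false, hAD, ?_, hvsdD, ?_⟩
    · rw [← hB₁e]
      exact hAB
    · rw [← hB₁e]
      intro u hu u' hu'
      rw [← G.g3 B B₁ B₁ w false hBB₁ subset_rfl hB₁f hw1, G.g6] at hu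
      rw [← G.g3 D' B₁ B₁ v false hD'B₁ subset_rfl hB₁f hvO1, G.g6] at hu'
      exact G.n2 B₁ w v u u' hu hu' hN4

end v3

/-! ### The module -/

theorem thm_gVI (hORB : St_ORB) (hNSB : St_NSB) (hCNV : St_nCNV) (hGEX : St_nGEX)
    (hGER : St_nGER) (hFFR : St_nFFR) (hTRA : St_nTRA) (hSDI : St_nSDI) (hISO : St_nISO)
    (hSAT : St_SAT) (hSDL : St_SDL) (hTR : St_fTR) (hTS : St_gTS) (hIS : St_gIS) (hFC : St_gFC)
    (hEX : St_gEX) (hTW : St_gTW) (hCO : St_gCO) (hCX : St_gCX) (hK0 : St_gK0) (hK1 : St_gK1)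
    (hK2 : St_gK2) (hCF : St_gCF) (hTO : St_gTO) (hRF : St_gRF) (hAT : St_gAT) : St_gVI := by
  intro L _ U S _ hW hS hNA hNI D b y n w t hD hb hch hw
  have G := gVI_mk hORB hNSB hCNV hGEX hGER hFFR hTRA hSDI hISO hSAT hTR hIS hFC hEX hCO hCX hK2
    L U hW hS hNA hNI
  have hT : TRV L U := hTR L U hW hS
  have hbD : (insert b D).Finite := hD.insert b
  have hBf : (BB D b y n).Finite := gVI_fin hbD y n
  have hDB : D ⊆ BB D b y n := (subset_insert b D).trans (gVI_sub y n)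
  by_cases hw' : SD L (BB D b y n) w (!t)
  · -- one-sided
    cases t
    · exact gVI_core hCF hTO hK0 hK1 hRF hAT hTS hT G D b y n w hD hb hch hw hw'
    · -- the reversed order
      obtain ⟨hWr, hleS, hSd, hGe, -⟩ := hSDL L U hW
      have hSDr : ∀ (A : Set U) (u : U) (t : Bool), @SD L U _ (dO U) A u t ↔ SD L A u (!t) := by
        intro A u t
        have h1 : @Cls U (dO U) t (Orb L A u) = Cls (!t) (Orb L A u) := by
          ext x
          constructor
          · rintro ⟨v, hv, hxv⟩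
            exact ⟨v, hv, (hleS t x v).1 hxv⟩
          · rintro ⟨v, hv, hxv⟩
            exact ⟨v, hv, (hleS t x v).2 hxv⟩
        show A.Definable₁ L (@Cls U (dO U) t (Orb L A u)) ↔ _
        rw [h1]
        rfl
      have hNAr : @NA L U _ (dO U) := by
        intro A x u t hA hu hne hle
        rw [hSDr]
        exact hNA A x u (!t) hA hu hne ((hleS t x u).1 hle)
      have hNIr : @NI L U _ (dO U) := by
        intro A B z u t hAB hB hu
        rw [hGe] at hu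
        rw [hSDr]
        exact hNI A B z u (!t) hAB hB hu
      have Gr := @gVI_mk hORB hNSB hCNV hGEX hGER hFFR hTRA hSDI hISO hSAT hTR hIS hFC hEX hCO hCX
        hK2 L _ U S (dO U) hWr hS hNAr hNIr
      obtain ⟨D', v, t', h1, h2, h3, h4⟩ := @gVI_core L U _ (dO U) hCF hTO hK0 hK1 hRF hAT hTS hT Gr
        D b y n w hD hb hch (by rw [hSDr]; exact hw) (by rw [hSDr]; exact hw')
      refine ⟨D', v, !t', h1, h2, fun h => h3 ((hSDr D' v t').2 h), fun u hu u' hu' => ?_⟩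
      refine h4 u ?_ u' ?_
      · rw [hGe]
        exact hu
      · rw [hGe]
        exact hu'
  · -- two-sided
    have hO : Orb L (BB D b y n) w = Orb L ∅ w := by
      cases t
      · exact hTW L U hW hS hNA hNI _ w hBf hw' hw
      · exact hTW L U hW hS hNA hNI _ w hBf hw hw'
    have hOD : Orb L (BB D b y n) w = Orb L D w := by
      refine subset_antisymm (G.o3 _ _ w hDB) ?_
      rw [hO]
      exact G.o3 _ _ w (empty_subset D)
    have hBD : BB D b y n ∪ D = BB D b y n := union_eq_self_of_subset_right hDB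
    refine ⟨D, w, t, Atm.base, ?_, fun h => hw (((G.d3 D _ w hDB hBf hOD).2 t).2 h), ?_⟩
    · rw [hBD]
      exact Atm.base
    · rw [hBD]
      intro u hu u' hu'
      rw [G.g6] at hu
      rw [← G.g3 D _ _ w t hDB subset_rfl hBf hOD, G.g6] at hu'
      exact G.n2 _ w w u u' hu hu' ((G.n4 _ w).2 (G.d5 _ w t hBf hw))

end Pool.Agent.WOM
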