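import Pool.Agent.WOL.StH

/-!
WOL, T7-ACC, module kFC (helper89): no far pair between two invariant cuts.
-/

set_option autoImplicit false
set_option linter.unusedVariables false
set_option linter.unusedSectionVars false

namespace Pool.Agent.WOM

open FirstOrder.Language Set
open scoped FirstOrder

/-- the hypotheses of kFC -/
private structure kH (L : FirstOrder.Language.{0, 0}) {U : Type} [L.Structure U] [LinearOrder U]
    (B : Set U) (d w : U) (K₀ K₂ : Set U) : Prop where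
  nn : Nn L B d w
  l0 : Low K₀
  l2 : Low K₂
  inv : ∀ σ : U ≃[L] U, Fx L (insert d B) σ → σ '' K₀ = K₀ ∧ σ '' K₂ = K₂
  e0 : ∃ y ∈ Orb L B w, y ∈ K₀
  e2 : ∃ y ∈ Orb L B w, y ∉ K₂

variable {L : FirstOrder.Language.{0, 0}} {U : Type} [L.Structure U] [LinearOrder U]

private theorem kFC_mem_image {σ : U ≃[L] U} {K : Set U} {x : U} : σ x ∈ σ '' K ↔ x ∈ K := by
  constructor
  · rintro ⟨k, hk, h⟩
    rwa [← σ.injective h]
  · exact fun h => ⟨x, h, rfl⟩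

private theorem kFC_orb {B : Set U} {w y : U} {σ : U ≃[L] U} (hσ : Fx L B σ)
    (hy : y ∈ Orb L B w) : σ y ∈ Orb L B w := by
  obtain ⟨g, hg, rfl⟩ := hy
  exact ⟨σ.comp g, fun a ha => by
    rw [FirstOrder.Language.Equiv.comp_apply, hg a ha, hσ a ha], rfl⟩

private theorem kFC_symm {B : Set U} {σ : U ≃[L] U} (hσ : Fx L B σ) : Fx L B σ.symm := by
  intro a ha
  apply σ.injective
  rw [FirstOrder.Language.Equiv.apply_symm_apply, hσ a ha]

private theorem kFC_low (hmono : ∀ (σ : U ≃[L] U) (x y : U), x < y ↔ σ x < σ y) {K : Set U}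
    (hK : Low K) (σ : U ≃[L] U) : Low (σ '' K) := by
  rintro _ ⟨k, hk, rfl⟩ y hy
  refine ⟨σ.symm y, hK k hk _ ?_, σ.apply_symm_apply y⟩
  by_contra hc
  rw [not_le, hmono σ, σ.apply_symm_apply] at hc
  exact absurd hy (not_le.2 hc)

/-- (0), last orbit -/
private theorem kFC_a {B : Set U} {d w : U} {K₀ K₂ : Set U} (h : kH L B d w K₀ K₂) {y : U}
    (hy : y ∈ Ge L B w true (insert d B)) : y ∉ K₂ := by
  intro hK
  obtain ⟨y₀, hy₀, hy₀'⟩ := h.e2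
  obtain ⟨u, ⟨g, hg, rfl⟩, hu⟩ := hy.2 y₀ hy₀
  have h1 : g y ∈ K₂ := by
    rw [← (h.inv g hg).2]
    exact ⟨y, hK, rfl⟩
  have h2 : y₀ ≤ g y := by simpa [leS] using hu
  exact hy₀' (h.l2 _ h1 _ h2)

/-- (0), first orbit -/
private theorem kFC_b {B : Set U} {d w : U} {K₀ K₂ : Set U} (h : kH L B d w K₀ K₂) {y : U}
    (hy : y ∈ Ge L B w false (insert d B)) : y ∈ K₀ := by
  obtain ⟨y₀, hy₀, hy₀'⟩ := h.e0
  obtain ⟨u, ⟨g, hg, rfl⟩, hu⟩ := hy.2 y₀ hy₀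
  have h2 : g y ≤ y₀ := by simpa [leS] using hu
  have h1 : g y ∈ g '' K₀ := by
    rw [(h.inv g hg).1]
    exact h.l0 _ hy₀' _ h2
  exact kFC_mem_image.1 h1

/-- conjugation -/
private theorem kFC_map (hORB : St_ORB) (hNSB : St_NSB) (hmon : Mon L U)
    (hmono : ∀ (σ : U ≃[L] U) (x y : U), x < y ↔ σ x < σ y) {B : Set U} {d w : U}
    {K₀ K₂ : Set U} (h : kH L B d w K₀ K₂) {σ : U ≃[L] U} (hσ : Fx L B σ) :
    kH L B (σ d) w (σ '' K₀) (σ '' K₂) where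
  nn := (hNSB L U).2.1 B d w (σ d) w ⟨σ, hσ, rfl⟩ ((hORB L U hmon).1 B w) h.nn
  l0 := kFC_low hmono h.l0 σ
  l2 := kFC_low hmono h.l2 σ
  inv := by
    intro ρ hρ
    have hμ : Fx L (insert d B) ((σ.symm.comp ρ).comp σ) := by
      intro a ha
      rw [FirstOrder.Language.Equiv.comp_apply, FirstOrder.Language.Equiv.comp_apply]
      rcases mem_insert_iff.1 ha with rfl | ha
      · rw [hρ _ (mem_insert _ _), σ.symm_apply_apply]
      · rw [hσ a ha, hρ a (mem_insert_of_mem _ ha)]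
        exact kFC_symm hσ a ha
    obtain ⟨h1, h2⟩ := h.inv _ hμ
    have key : ∀ K : Set U, ((σ.symm.comp ρ).comp σ) '' K = K → ρ '' (σ '' K) = σ '' K := by
      intro K hK
      ext x
      constructor
      · rintro ⟨_, ⟨k, hk, rfl⟩, rfl⟩
        refine ⟨σ.symm (ρ (σ k)), ?_, σ.apply_symm_apply _⟩
        rw [← hK]
        exact ⟨k, hk, rfl⟩
      · rintro ⟨k, hk, rfl⟩
        rw [← hK] at hk
        obtain ⟨k', hk', rfl⟩ := hk
        refine ⟨σ k', ⟨k', hk', rfl⟩, ?_⟩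
        rw [FirstOrder.Language.Equiv.comp_apply, FirstOrder.Language.Equiv.comp_apply,
          σ.apply_symm_apply]
    exact ⟨key _ h1, key _ h2⟩
  e0 := by
    obtain ⟨y, hy, hy'⟩ := h.e0
    exact ⟨σ y, kFC_orb hσ hy, ⟨y, hy', rfl⟩⟩
  e2 := by
    obtain ⟨y, hy, hy'⟩ := h.e2
    exact ⟨σ y, kFC_orb hσ hy, fun h1 => hy' (kFC_mem_image.1 h1)⟩

/-- (1) -/
private theorem kFC_disj (hORB : St_ORB) (hNSB : St_NSB) (hCNV : St_nCNV) (hGEX : St_nGEX)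
    (hGER : St_nGER) (hSMA : St_nSMA) (hW : Wn L U) {B : Set U} (hB : B.Finite) {d w : U}
    {K₀ K₂ : Set U} (h : kH L B d w K₀ K₂) {τ : U ≃[L] U} (hτ : Fx L B τ)
    (hF : Far L B d (τ d)) {y₁ : U} (hy1 : y₁ ∈ Orb L B w) (h1 : y₁ ∈ K₂) (h2 : y₁ ∉ K₀)
    (h3 : y₁ ∈ τ '' K₂) (h4 : y₁ ∉ τ '' K₀) : False := by
  have hmono := (hCNV L U hW).1
  obtain ⟨e, hO, -, -⟩ := hSMA L U hW B d w hB h.nn
  have hdB : (insert d B).Finite := hB.insert d
  obtain ⟨y, hy⟩ := (hGEX L U hW B (insert d B) w (sg e true) (subset_insert _ _) hdB).1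
  obtain ⟨b₂, hb⟩ := (hGEX L U hW B (insert y (insert d B)) d true
    ((subset_insert _ _).trans (subset_insert _ _)) (hdB.insert y)).1
  have hb1 : b₂ ∈ Ge L B d true (insert y B) := (hGER L U hW).2.1 B (insert y B)
    (insert y (insert d B)) d true (subset_insert _ _) (insert_subset_insert (subset_insert _ _))
    (hdB.insert y) hb
  have hb2 : b₂ ∈ Ge L B d true (insert d B) := (hGER L U hW).2.1 B (insert d B)
    (insert y (insert d B)) d true (subset_insert _ _) (subset_insert _ _) (hdB.insert y) hb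
  have hyO := hO true y hy.1 b₂ hb1
  have hgex := (hGEX L U hW B (insert d B) d true (subset_insert _ _) hdB).2 (τ d) hF
  rw [hgex] at hb2
  obtain ⟨ρ, hρ, rfl⟩ := hb2
  have hρB : Fx L B ρ := fun a ha => hρ a (mem_insert_of_mem _ ha)
  have hμ : Fx L B (ρ.comp τ) := fun a ha => by
    rw [FirstOrder.Language.Equiv.comp_apply, hτ a ha, hρB a ha]
  have hcomp : ∀ K : Set U, (ρ.comp τ) '' K = ρ '' (τ '' K) := by
    intro K
    ext x
    constructor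
    · rintro ⟨k, hk, rfl⟩
      exact ⟨τ k, ⟨k, hk, rfl⟩, rfl⟩
    · rintro ⟨_, ⟨k, hk, rfl⟩, rfl⟩
      exact ⟨k, hk, rfl⟩
  have hH := kFC_map hORB hNSB hW.mon hmono h hμ
  rw [hcomp, hcomp] at hH
  have h1' : ρ y₁ ∈ K₂ := by
    rw [← (h.inv ρ hρ).2]
    exact ⟨y₁, h1, rfl⟩
  have h2' : ρ y₁ ∉ K₀ := by
    rw [← (h.inv ρ hρ).1]
    exact fun hc => h2 (kFC_mem_image.1 hc)
  have h3' : ρ y₁ ∈ ρ '' (τ '' K₂) := ⟨y₁, h3, rfl⟩
  have h4' : ρ y₁ ∉ ρ '' (τ '' K₀) := fun hc => h4 (kFC_mem_image.1 hc)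
  cases e with
  | true =>
    have hy' : y ∈ Ge L B w true (insert d B) := hy
    have hyO' : y ∈ Ge L B w false (insert (ρ (τ d)) B) := hyO
    have h5 := kFC_a h hy'
    have h6 := kFC_b hH hyO'
    have h7 : ρ y₁ ≤ y := by
      by_contra hc
      exact h5 (h.l2 _ h1' _ (not_le.1 hc).le)
    exact h4' (hH.l0 _ h6 _ h7)
  | false =>
    have hy' : y ∈ Ge L B w false (insert d B) := hy
    have hyO' : y ∈ Ge L B w true (insert (ρ (τ d)) B) := hyO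
    have h5 := kFC_b h hy'
    have h6 := kFC_a hH hyO'
    have h7 : y ≤ ρ y₁ := by
      by_contra hc
      exact h2' (h.l0 _ h5 _ (not_le.1 hc).le)
    exact h6 (hH.l2 _ h3' _ h7)

/-- (1) for two conjugates -/
private theorem kFC_disj2 (hORB : St_ORB) (hNSB : St_NSB) (hCNV : St_nCNV) (hGEX : St_nGEX)
    (hGER : St_nGER) (hSMA : St_nSMA) (hW : Wn L U) {B : Set U} (hB : B.Finite) {d w : U}
    {K₀ K₂ : Set U} (h : kH L B d w K₀ K₂) {σ τ : U ≃[L] U} (hσ : Fx L B σ) (hτ : Fx L B τ)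
    (hF : Far L B (σ d) (τ d)) {y₁ : U} (hy1 : y₁ ∈ Orb L B w) (h1 : y₁ ∈ σ '' K₂)
    (h2 : y₁ ∉ σ '' K₀) (h3 : y₁ ∈ τ '' K₂) (h4 : y₁ ∉ τ '' K₀) : False := by
  have hmono := (hCNV L U hW).1
  have hH := kFC_map hORB hNSB hW.mon hmono h hσ
  have hμ : Fx L B (τ.comp σ.symm) := fun a ha => by
    rw [FirstOrder.Language.Equiv.comp_apply, kFC_symm hσ a ha, hτ a ha]
  have hcomp : ∀ K : Set U, (τ.comp σ.symm) '' (σ '' K) = τ '' K := by
    intro K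
    ext x
    constructor
    · rintro ⟨_, ⟨k, hk, rfl⟩, rfl⟩
      refine ⟨k, hk, ?_⟩
      rw [FirstOrder.Language.Equiv.comp_apply, σ.symm_apply_apply]
    · rintro ⟨k, hk, rfl⟩
      refine ⟨σ k, ⟨k, hk, rfl⟩, ?_⟩
      rw [FirstOrder.Language.Equiv.comp_apply, σ.symm_apply_apply]
  have hd : (τ.comp σ.symm) (σ d) = τ d := by
    rw [FirstOrder.Language.Equiv.comp_apply, σ.symm_apply_apply]
  refine kFC_disj hORB hNSB hCNV hGEX hGER hSMA hW hB hH hμ ?_ hy1 h1 h2 ?_ ?_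
  · rw [hd]
    exact hF
  · rw [hcomp]
    exact h3
  · rw [hcomp]
    exact h4

theorem thm_kFC (hORB : St_ORB) (hNSB : St_NSB) (hCNV : St_nCNV) (hGEX : St_nGEX)
    (hGER : St_nGER) (hSMA : St_nSMA) (hFAR : St_nFAR) : St_kFC := by
  intro L U _ _ hW B d w K₀ K₂ hB hnn hl0 hl2 hinv he0 he2 z hz x hx hz0 hx2 hfar
  have h : kH L B d w K₀ K₂ := ⟨hnn, hl0, hl2, hinv, he0, he2⟩
  have hmono := (hCNV L U hW).1
  obtain ⟨hP, hQ⟩ := (hNSB L U).2.2.2.2.1 B d w hnn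
  have hdB : (insert d B).Finite := hB.insert d
  have fQ := hFAR L U hW B w hB hQ
  have fP := hFAR L U hW B d hB hP
  have hzx : z < x := fQ.1 z hz x hx hfar
  have hz2 : z ∈ K₂ := hl2 x hx2 z hzx.le
  obtain ⟨b₂, hb⟩ := (hGEX L U hW B (insert d B) d true (subset_insert _ _) hdB).1
  obtain ⟨τ, hτ, rfl⟩ := hb.1
  have hFd : Far L B d (τ d) := hb
  have hD : (insert (τ d) (insert d B)).Finite := hdB.insert _
  have hBD : B ⊆ insert (τ d) (insert d B) := (subset_insert _ _).trans (subset_insert _ _)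
  obtain ⟨z', hz'⟩ := (hGEX L U hW B _ w false hBD hD).1
  have hD' : (insert z' (insert (τ d) (insert d B))).Finite := hD.insert _
  have hBD' : B ⊆ insert z' (insert (τ d) (insert d B)) := hBD.trans (subset_insert _ _)
  obtain ⟨x', hx'⟩ := (hGEX L U hW B _ w true hBD' hD').1
  have hfar' : Far L B z' x' := (fQ.2.2.2.2.2.1 z' hz'.1 _ hBD' hD' (mem_insert _ _)).1 x' hx'
  obtain ⟨σ, hσ, hσz, hσx⟩ := fQ.2.2.2.2.2.2.1 z hz z' hz'.1 x x' hfar hfar'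
  have hGE := (hGER L U hW).2.1
  have s1 : insert d B ⊆ insert (τ d) (insert d B) := subset_insert _ _
  have s2 : insert (τ d) B ⊆ insert (τ d) (insert d B) := insert_subset_insert (subset_insert _ _)
  have hτH := kFC_map hORB hNSB hW.mon hmono h hτ
  have z1 : z' ∈ K₀ := kFC_b h (hGE B _ _ w false (subset_insert _ _) s1 hD hz')
  have z2 : z' ∈ τ '' K₀ := kFC_b hτH (hGE B _ _ w false (subset_insert _ _) s2 hD hz')
  have x1 : x' ∉ K₂ := kFC_a h (hGE B _ _ w true (subset_insert _ _)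
    (s1.trans (subset_insert _ _)) hD' hx')
  have x2 : x' ∉ τ '' K₂ := kFC_a hτH (hGE B _ _ w true (subset_insert _ _)
    (s2.trans (subset_insert _ _)) hD' hx')
  have z3 : z' ∉ σ '' K₀ := by
    rw [← hσz]
    exact fun hc => hz0 (kFC_mem_image.1 hc)
  have x3 : x' ∈ σ '' K₂ := ⟨x, hx2, hσx⟩
  have l0σ : Low (σ '' K₀) := kFC_low hmono hl0 σ
  have l2σ : Low (σ '' K₂) := kFC_low hmono hl2 σ
  -- everything between z' and x' is in the interval of σ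
  have hbt : ∀ y : U, z' ≤ y → y ≤ x' → y ∈ σ '' K₂ ∧ y ∉ σ '' K₀ := fun y h1 h2 =>
    ⟨l2σ x' x3 y h2, fun hc => z3 (l0σ y hc z' h1)⟩
  have b1 : z' ≤ z := by
    by_contra hc
    exact hz0 (hl0 z' z1 z (not_le.1 hc).le)
  have b2 : z ≤ x' := by
    by_contra hc
    exact x1 (hl2 z hz2 x' (not_le.1 hc).le)
  have t0 : τ z ∉ τ '' K₀ := fun hc => hz0 (kFC_mem_image.1 hc)
  have t2 : τ z ∈ τ '' K₂ := ⟨z, hz2, rfl⟩
  have b3 : z' ≤ τ z := by
    by_contra hc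
    exact t0 (hτH.l0 z' z2 (τ z) (not_le.1 hc).le)
  have b4 : τ z ≤ x' := by
    by_contra hc
    exact x2 (hτH.l2 (τ z) t2 x' (not_le.1 hc).le)
  obtain ⟨c1, c2⟩ := hbt z b1 b2
  obtain ⟨c3, c4⟩ := hbt (τ z) b3 b4
  have hO1 : d ∈ Orb L B d := (hORB L U hW.mon).1 B d
  rcases fP.2.2.2.1 d hO1 (σ d) ⟨σ, hσ, rfl⟩ (τ d) ⟨τ, hτ, rfl⟩ hFd with hF | hF
  · exact kFC_disj hORB hNSB hCNV hGEX hGER hSMA hW hB h hσ hF hz hz2 hz0 c1 c2
  · exact kFC_disj2 hORB hNSB hCNV hGEX hGER hSMA hW hB h hσ hτ hF (kFC_orb hτ hz) c3 c4 t2 t0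

end Pool.Agent.WOM
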