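import Pool.Agent.WOL.StH

/-! WOL, module kNB (helper69): inner sides over one linked element. -/

set_option autoImplicit false
set_option linter.unusedVariables false

namespace Pool.Agent.WOM

open FirstOrder.Language Set
open scoped FirstOrder

private theorem kNB_cv {U : Type} [LinearOrder U] (P : Set U) (E : U → U → Prop) :
    @CvO U (dO U) P E ↔ CvO P E := by
  constructor
  · rintro ⟨h1, h2, h3, h4⟩
    refine ⟨h1, h2, h3, fun x hx y hy w hw hxy hyw hE => ?_⟩
    have h5 : E w y := h4 w hw y hy x hx hyw hxy (h2 x hx w hw hE)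
    exact h3 x hx w hw y hy hE h5
  · rintro ⟨h1, h2, h3, h4⟩
    refine ⟨h1, h2, h3, fun x hx y hy w hw hxy hyw hE => ?_⟩
    have h5 : E w y := h4 w hw y hy x hx hyw hxy (h2 x hx w hw hE)
    exact h3 x hx w hw y hy hE h5

private theorem kNB_eq (L : FirstOrder.Language.{0, 0}) {U : Type} [S : L.Structure U]
    [LinearOrder U] (A : Set U) (x : U) : @EqA L U S (dO U) A x = EqA L A x := by
  ext R
  constructor
  · rintro ⟨E, h1, h2, h3⟩
    exact ⟨E, h1, (kNB_cv _ E).1 h2, h3⟩
  · rintro ⟨E, h1, h2, h3⟩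
    exact ⟨E, h1, (kNB_cv _ E).2 h2, h3⟩

private theorem kNB_core (hNA : St_gNA) (hFC : St_kFC) (hORB : St_ORB) (hNSB : St_NSB)
    (hCNV : St_nCNV) (hGEX : St_nGEX) (hGER : St_nGER) (hFFR : St_nFFR) (hSMA : St_nSMA)
    (hFAR : St_nFAR) (hCUT : St_SCUT)
    (L : FirstOrder.Language.{0, 0}) [∀ n, IsEmpty (L.Functions n)] (U : Type)
    [S : L.Structure U] [LinearOrder U] (hW : Wn L U) (hS : ScU L S) (hA : ACC L U)
    (B : Set U) (d u : U) (hB : B.Finite) (hN : Nn L B d u)
    (hu : u ∈ Ge L B u true (insert d B)) :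
    (insert d B).Definable₁ L (Cls false (Orb L (insert d B) u)) := by
  obtain ⟨oself, oeq, omono, oimg, osing, odef, osep, oinv, oimd⟩ := hORB L U hW.mon
  obtain ⟨-, -, -, -, nsb5, -⟩ := hNSB L U
  obtain ⟨cmono, cconv⟩ := hCNV L U hW
  obtain ⟨-, ger2, -, ger4, -, -, ger7, -⟩ := hGER L U hW
  have gex := hGEX L U hW
  have hdB : (insert d B).Finite := hB.insert d
  have hsub : B ⊆ insert d B := Set.subset_insert d B
  have hQ : Orb L B u ≠ {u} := (nsb5 B d u hN).2
  obtain ⟨far1, far2, far3, far4, far5, far6, far7, far8⟩ := hFAR L U hW B u hB hQ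
  have hO : Ge L B u true (insert d B) = Orb L (insert d B) u :=
    (gex B (insert d B) u true hsub hdB).2 u hu
  have hOQ : Orb L (insert d B) u ⊆ Orb L B u := omono B (insert d B) u hsub
  have hle : ∀ (σ : U ≃[L] U) (a b : U), a ≤ b → σ a ≤ σ b := by
    intro σ a b hab
    rcases lt_or_eq_of_le hab with h | h
    · exact ((cmono σ a b).1 h).le
    · rw [h]
  -- invariance of definable sets
  have hinv : ∀ (σ : U ≃[L] U) (K : Set U), Fx L (insert d B) σ → (insert d B).Definable₁ L K →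
      σ '' K = K := by
    intro σ K hσ hK
    ext y
    constructor
    · rintro ⟨k, hk, rfl⟩
      exact odef _ _ hK k hk ⟨σ, hσ, rfl⟩
    · intro hy
      refine ⟨σ.symm y, ?_, by simp⟩
      refine odef _ _ hK y hy ⟨σ.symm, ?_, rfl⟩
      intro a ha
      exact (congrArg σ.symm (hσ a ha)).symm.trans (by simp)
  -- elements of `Q` outside `O` lie below `O`
  have hbelow : ∀ x ∈ Orb L B u, x ∉ Orb L (insert d B) u →
      ∀ o ∈ Orb L (insert d B) u, x < o := by
    intro x hx hxO o ho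
    by_contra hc
    push Not at hc
    apply hxO
    rw [← hO] at ho ⊢
    exact ger7 B (insert d B) u o x true hsub hdB ho hx (by simpa [leS] using hc)
  -- cuts
  have hcut : ∀ x, (∀ o ∈ Orb L (insert d B) u, x < o) →
      ∃ K : Set U, (insert d B).Definable₁ L K ∧ Low K ∧ x ∈ K ∧ u ∉ K := by
    intro x hx
    refine hCUT L U hW (insert d B) x u hdB (hx u (oself _ _)) ?_
    intro h
    have h1 : x ∈ Orb L (insert d B) u := by
      rw [oeq _ _ _ h]
      exact oself _ _
    exact lt_irrefl _ (hx x h1)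
  by_contra hnd
  -- (a)
  obtain ⟨z₀, hz₀Q, hz₀O⟩ : ∃ z ∈ Orb L B u, z ∉ Orb L (insert d B) u := by
    by_contra hc
    push Not at hc
    exact hN (Set.Subset.antisymm hOQ hc)
  have hz₀V := hbelow z₀ hz₀Q hz₀O
  obtain ⟨K₀, hK₀d, hK₀l, hz₀K, huK₀⟩ := hcut z₀ hz₀V
  have hK₀V : ∀ y ∈ K₀, ∀ o ∈ Orb L (insert d B) u, y < o := by
    intro y hy o ho
    by_contra hc
    push Not at hc
    have h1 : o ∈ K₀ := hK₀l y hy o hc
    apply huK₀
    have h2 := odef _ _ hK₀d o h1
    rw [oeq _ _ _ ho] at h2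
    exact h2 (oself _ _)
  obtain ⟨z₁, hz₁V, hz₁K⟩ : ∃ z, (∀ o ∈ Orb L (insert d B) u, z < o) ∧ z ∉ K₀ := by
    by_contra hc
    push Not at hc
    apply hnd
    have h1 : Cls false (Orb L (insert d B) u) = K₀ᶜ := by
      ext y
      simp only [Cls, leS, Set.mem_setOf_eq, Set.mem_compl_iff, Bool.false_eq_true, if_false]
      constructor
      · rintro ⟨v, hv, hvy⟩ hy
        exact absurd (hK₀V y hy v hv) (not_lt.2 hvy)
      · intro hy
        by_contra hc2
        push Not at hc2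
        exact hy (hc y hc2)
    rw [h1]
    exact hK₀d.compl
  have hz₀₁ : z₀ < z₁ := by
    by_contra hc
    push Not at hc
    exact hz₁K (hK₀l z₀ hz₀K z₁ hc)
  have hz₁u : z₁ < u := hz₁V u (oself _ _)
  have hz₁Q : z₁ ∈ Orb L B u :=
    (cconv B u hB).1.out hz₀Q (oself _ _) ⟨hz₀₁.le, hz₁u.le⟩
  obtain ⟨K₁, hK₁d, hK₁l, hz₁K₁, huK₁⟩ := hcut z₁ hz₁V
  -- (b)
  have hb : ∀ x ∈ Orb L B u, x ∉ Orb L (insert d B) u → ¬ Far L B z₁ x := by
    intro x hxQ hxO
    obtain ⟨K₂, hK₂d, hK₂l, hxK₂, huK₂⟩ := hcut x (hbelow x hxQ hxO)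
    exact hFC L U hW B d u K₀ K₂ hB hN hK₀l hK₂l
      (fun σ hσ => ⟨hinv σ K₀ hσ hK₀d, hinv σ K₂ hσ hK₂d⟩) ⟨z₀, hz₀Q, hz₀K⟩
      ⟨u, oself _ _, huK₂⟩ z₁ hz₁Q x hxQ hz₁K hxK₂
  -- (c)
  have hc : ∀ x ∈ Orb L (insert d B) u, Far L B z₁ x := by
    intro x hxO
    by_contra hnf
    have hxQ : x ∈ Orb L B u := hOQ hxO
    obtain ⟨e, hor1, hor2, -⟩ := hSMA L U hW B d u hB hN
    obtain ⟨y, hy⟩ := (gex B (insert x B) u false (Set.subset_insert x B) (hB.insert x)).1
    have hyQ : y ∈ Orb L B u := hy.1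
    have hyx : Far L B y x := by
      have h1 : y ∈ Ge L B x false (insert x B) := by
        rw [ger4 B (insert x B) u x false hxQ]
        exact hy
      exact hFFR L U hW B x y false hB h1
    obtain ⟨d', hd'⟩ := (gex B (insert y (insert x B)) d (!(sg e true))
      ((Set.subset_insert x B).trans (Set.subset_insert y _)) ((hB.insert x).insert y)).1
    have hd1 : d ∈ Ge L B d (!(sg e true)) (insert x B) := by
      refine hor2 true d (oself _ _) x ?_
      rw [hO]
      exact hxO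
    have hd'1 : d' ∈ Ge L B d (!(sg e true)) (insert x B) :=
      ger2 B (insert x B) (insert y (insert x B)) d _ (Set.subset_insert x B)
        (Set.subset_insert y _) ((hB.insert x).insert y) hd'
    rw [(gex B (insert x B) d (!(sg e true)) (Set.subset_insert x B) (hB.insert x)).2 d hd1]
      at hd'1
    obtain ⟨τ, hτ, hτd⟩ := hd'1
    have hτx : τ x = x := hτ x (Set.mem_insert x B)
    have hτB : Fx L B τ := fun a ha => hτ a (Set.mem_insert_of_mem x ha)
    have hnf' : ¬ Far L B (τ z₁) x := by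
      intro h
      apply hnf
      rw [← far5 z₁ x τ hτB, hτx]
      exact h
    have hd'2 : d' ∈ Ge L B d (!(sg e true)) (insert y B) :=
      ger2 B (insert y B) (insert y (insert x B)) d _ (Set.subset_insert y B)
        (Set.insert_subset_insert (Set.subset_insert x B)) ((hB.insert x).insert y) hd'
    have hy2 := hor1 (!(sg e true)) y hyQ d' hd'2
    have hy3 : y ∈ Ge L B u true (insert d' B) := by
      have h1 : (!(sg e (!(sg e true)))) = true := by
        cases e <;> rfl
      rw [h1] at hy2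
      exact hy2
    -- the image of K₁
    have himg : τ '' (insert d B) = insert d' B := by
      ext a
      constructor
      · rintro ⟨b, hb1, rfl⟩
        rcases hb1 with rfl | hb1
        · left
          exact hτd
        · right
          rw [hτB b hb1]
          exact hb1
      · rintro (rfl | ha)
        · exact ⟨d, Set.mem_insert d B, hτd⟩
        · exact ⟨a, Set.mem_insert_of_mem d ha, hτB a ha⟩
    have hK₁' : (insert d' B).Definable₁ L (τ '' K₁) := by
      rw [← himg]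
      exact oimd τ _ _ hK₁d
    have hlow' : Low (τ '' K₁) := by
      rintro _ ⟨k, hk, rfl⟩ b hb1
      refine ⟨τ.symm b, hK₁l k hk _ ?_, by simp⟩
      have := hle τ.symm b (τ k) hb1
      simpa using this
    have hyK : y ∉ τ '' K₁ := by
      intro hyK
      obtain ⟨o, ho, hto⟩ := hy3.2 (τ u) (by
        rw [← oeq B u (τ u) ⟨τ, hτB, rfl⟩]
        exact oself _ _)
      have h1 : o ∈ τ '' K₁ := odef _ _ hK₁' y hyK ho
      have h2 : τ u ∈ τ '' K₁ := hlow' o h1 (τ u) (by simpa [leS] using hto)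
      obtain ⟨k, hk, hk2⟩ := h2
      have h3 : k = u := τ.injective hk2
      rw [h3] at hk
      exact huK₁ hk
    have hlt : τ z₁ ≤ y := by
      by_contra hc2
      push Not at hc2
      exact hyK (hlow' (τ z₁) ⟨z₁, hz₁K₁, rfl⟩ y hc2.le)
    have hτz : τ z₁ ∈ Orb L B u := by
      have h1 : τ z₁ ∈ Orb L B z₁ := ⟨τ, hτB, rfl⟩
      rw [oeq _ _ _ hz₁Q] at h1
      exact h1
    exact hnf' (far3 (τ z₁) hτz y hyQ x hxQ hlt hyx)
  -- (d)
  have hOz : Orb L (insert d B) u = Ge L B z₁ true (insert z₁ B) := by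
    ext x
    constructor
    · intro hx
      exact hc x hx
    · intro hx
      have hxQ : x ∈ Orb L B u := by
        have h1 : x ∈ Orb L B z₁ := hx.1
        rw [oeq _ _ _ hz₁Q] at h1
        exact h1
      by_contra hxO
      exact hb x hxQ hxO hx
  have huz : u ∈ Ge L B z₁ true (insert z₁ B) := by
    rw [← hOz]
    exact oself _ _
  have hGe := (gex B (insert z₁ B) z₁ true (Set.subset_insert z₁ B) (hB.insert z₁)).2 u huz
  have huQ : u ∈ Orb L B z₁ := huz.1
  have hsd := hNA L U hW hS hA B z₁ u true hB huQ hz₁u.ne' (by simpa [leS] using hz₁u.le)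
  have hsd' : (insert z₁ B).Definable₁ L (Cls false (Orb L (insert d B) u)) := by
    rw [hOz, hGe]
    exact hsd
  apply hnd
  refine oinv (insert d B) (insert z₁ B) _ hdB (hB.insert z₁) hsd' ?_
  rintro x ⟨v, hv, hvx⟩ _ ⟨g, hg, rfl⟩
  refine ⟨g v, ?_, ?_⟩
  · rw [← oeq _ _ _ hv]
    exact ⟨g, hg, rfl⟩
  · simp only [leS, Bool.false_eq_true, if_false] at hvx ⊢
    exact hle g _ _ hvx

/-- [kNB] -/
theorem thm_kNB (hFC : St_kFC) (hORB : St_ORB) (hNSB : St_NSB) (hCNV : St_nCNV)
    (hGEX : St_nGEX) (hGER : St_nGER) (hFFR : St_nFFR) (hSMA : St_nSMA) (hFAR : St_nFAR)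
    (hCUT : St_SCUT) (hSDL : St_SDL) : St_kNB := by
  intro hNA L _ U S _ hW hS hA B d w u t hB hN hu
  have key : ∀ [LinearOrder U], Wn L U → ACC L U → u ∈ Ge L B w true (insert d B) →
      (insert d B).Definable₁ L (Cls false (Orb L (insert d B) u)) := by
    intro _ hW' hA' hu'
    obtain ⟨oself, oeq, -⟩ := hORB L U hW'.mon
    obtain ⟨-, nsb2, -⟩ := hNSB L U
    obtain ⟨-, -, -, ger4, -⟩ := hGER L U hW'
    have huw : u ∈ Orb L B w := hu'.1
    refine kNB_core hNA hFC hORB hNSB hCNV hGEX hGER hFFR hSMA hFAR hCUT L U hW' hS hA' B d u hB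
      (nsb2 B d w d u (oself _ _) huw hN) ?_
    rw [ger4 B (insert d B) w u true huw]
    exact hu'
  cases t with
  | true => exact key hW hA hu
  | false =>
    obtain ⟨hW', -, -, h4, -⟩ := hSDL L U hW
    have hA' : @ACC L U S (dO U) := by
      intro A a hAf R hR hmon
      refine hA A a hAf R (fun n => ?_) hmon
      rw [← kNB_eq]
      exact hR n
    have h5 := @key (dO U) hW' hA' (by rw [h4]; exact hu)
    exact h5

end Pool.Agent.WOM
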