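import Pool.Agent.WOL.MC5
import Pool.Agent.WOL.MC8
import Pool.Agent.WOM.nUNG
import Pool.Agent.WOM.nLTW
import Pool.Agent.WOL.gNA
import Pool.Agent.WOL.kFC
import Pool.Agent.WOL.kNB
import Pool.Agent.WOL.gNI
import Pool.Agent.WOL.gTS
import Pool.Agent.WOL.gPN
import Pool.Agent.WOL.gIS
import Pool.Agent.WOL.gSEC
import Pool.Agent.WOL.gFC
import Pool.Agent.WOL.gEX
import Pool.Agent.WOL.gPI
import Pool.Agent.WOL.gLG
import Pool.Agent.WOL.gP4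
import Pool.Agent.WOL.gJ0
import Pool.Agent.WOL.gJB
import Pool.Agent.WOL.gSN
import Pool.Agent.WOL.gSS
import Pool.Agent.WOL.gMD
import Pool.Agent.WOL.gLE
import Pool.Agent.WOL.gJM
import Pool.Agent.WOL.gTV
import Pool.Agent.WOL.gTW
import Pool.Agent.WOL.gCO
import Pool.Agent.WOL.gQN
import Pool.Agent.WOL.gF2
import Pool.Agent.WOL.gF3
import Pool.Agent.WOL.gCC
import Pool.Agent.WOL.gFN
import Pool.Agent.WOL.gCX
import Pool.Agent.WOL.gSU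
import Pool.Agent.WOL.gK0
import Pool.Agent.WOL.gK1
import Pool.Agent.WOL.gK2
import Pool.Agent.WOL.gCF
import Pool.Agent.WOL.gTO
import Pool.Agent.WOL.gRF
import Pool.Agent.WOL.gAT
import Pool.Agent.WOL.gVI
import Pool.Agent.WOL.gOK
import Pool.Agent.WOL.gAM
import Pool.Agent.WOL.gFE
import Pool.Agent.WOL.gWN
import Pool.Agent.WOL.gLT
import Pool.Agent.WOL.gBF

/-!
WOL: assembly (helper8), Vaught's and Martin's conjecture for weakly o-minimal theories all of whose countable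
saturated models have no adic type, or no infinite increasing sequence of convex equivalence relations.
-/

set_option autoImplicit false

namespace Pool.Agent.WOM

open FirstOrder.Language Set
open scoped FirstOrder

theorem thm_MAC : St_MAC := by
  have hDEF1 := thm_DEF1 thm_DEFF
  have hORB := thm_ORB hDEF1
  have hDFN := thm_DFN
  have hNSB := thm_NSB
  have hnCNV := thm_nCNV hORB
  have hnEVD := thm_nEVD
  have hnGEX := thm_nGEX hDFN hORB hnCNV hnEVD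
  have hnGER := thm_nGER hORB hnCNV hnGEX
  have hnFFR := thm_nFFR hORB hnCNV hnGEX hnGER
  have hnTRA := thm_nTRA hORB hNSB hnGEX hnGER
  have hnSMA := thm_nSMA hORB hNSB hnGEX hnGER hnFFR
  have hnSMB := thm_nSMB hDFN hORB hnCNV hnGEX hnGER
  have hnSDI := thm_nSDI hDFN hORB hnCNV
  have hnISO := thm_nISO hNSB hnSMA hnSMB hnSDI
  have hnFAR := thm_nFAR hORB hnCNV hnGEX hnGER hnFFR
  have hAUT : ∀ (L : FirstOrder.Language.{0, 0}) (U : Type) [L.Structure U], St_AUT L U :=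
    fun L U _ => thm_AUT thm_DEFF hDEF1 L U
  have hCPL : ∀ (L : FirstOrder.Language.{0, 0}) (U : Type) [L.Structure U], St_CPL L U :=
    fun L U _ => thm_CPL hAUT L U
  have hSCUT := thm_SCUT hORB hnCNV
  have hSBAS := thm_SBAS
  have hSEXT := thm_SEXT hSBAS
  have hSEV := thm_SEV hSBAS
  have hSMOD := thm_SMOD
  have hSIT := thm_SIT hSBAS hSEXT
  have hSCA := thm_SCA hSEV
  have hSEXR := thm_SEXR hSBAS hSEXT
  have hSLP := thm_SLP hSBAS hSEXT hSEV hSIT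
  have hSDA := thm_SDA hSBAS hSEXT hSEV hSEXR
  have hSDB := thm_SDB hSBAS hSEV hSEXR hSDA
  have hSDC := thm_SDC hSBAS hSEXT hSEV hSCA hSDB
  have hSHA := thm_SHA hSBAS hSEXT
  have hSHB := thm_SHB hSBAS hSEXT hSLP
  have hSHC := thm_SHC hSBAS hSEXT hSEXR hSHA
  have hSHD := thm_SHD hSBAS hSEXT hSEV hSHA hSHB
  have hSHE := thm_SHE hSBAS hSEXT
  have hSHF := thm_SHF hSBAS hSEXR hSHE
  have hSHG := thm_SHG hSBAS hSEXR
  have hSHH := thm_SHH hSBAS hSEXT hSEV hSEXR hSIT hSHF hSHG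
  have hSHI := thm_SHI hSBAS hSEXT hSCA hSEXR hSIT hSHA hSHE hSHH
  have hSHK := thm_SHK hSBAS hSEXT hSEV hSDC hSHC hSHD hSHI
  have hSFX := thm_SFX
  have hSQA := thm_SQA hORB hSBAS hSEV hSFX
  have hSQC := thm_SQC hORB hSBAS hSEXT hSQA
  have hSKD := thm_SKD hSBAS hSQA hSQC hSHK
  have hSFR := thm_SFR hSFX
  have hSRB := thm_SRB hSCUT hSBAS hSEXT hSFX hSQA hSQC hSKD hSFR
  have hSRC := thm_SRC hSRB hSFR
  have hSRD := thm_SRD hORB hSCUT hSBAS hSQA hSFR hSRC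
  have hSRE := thm_SRE hSQA hSFR hSRB hSRC
  have hSRF := thm_SRF hSBAS hSEXT hSQA hSQC hSFR hSRC hSRD
  have hSRQ := thm_SRQ hSRE
  have hSAT := thm_SAT hORB hnSDI hnISO
  have hSMM := thm_SMM hSAT
  have hSMJ := thm_SMJ hSRF hSMM
  have hSLE := thm_SLE hSFR hSQA
  have hSNO := thm_SNO hSRQ hSMJ hSLE
  have hSNS := thm_SNS hSNO
  have hSEA := thm_SEA hSFX hnCNV
  have hSEB := thm_SEB hORB hnCNV hnGEX hnFAR
  have hSEH := thm_SEH hnCNV hnEVD hnGEX hnFFR hnFAR hORB hSEA hSEB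
  have hSEQ := thm_SEQ hSEA hSEB hSEH
  have hSDL := thm_SDL
  have hSEZ := thm_SEZ hSNS hSEQ hSDL
  have hSEP := thm_SEP
  have hSTA := thm_STA
  have hSTO := thm_STO hnGER hnSMA hSTA
  have hSTD := thm_STD hORB hNSB hnCNV hnGEX hnGER hnSMA hSEP hSTA
  have hSTF := thm_STF hORB hnCNV hSFX hnGEX hnGER hnFFR hnFAR hSCUT hSEP hSTA
  have hSTG := thm_STG hSEP hSTA
  have hSTH := thm_STH hORB hSFX hnGEX hnGER hnFFR hnFAR hSTA hSTF hSTG hSEZ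
  have hSTT := thm_STT hSTO hSTD hSTH hSDL
  have hOR := thm_fOR hORB hnCNV hSFX thm_SDF hSCUT hSEZ
  have hOS := thm_fOS hSDL hOR
  have hDF := thm_fDF hORB hnCNV hSCUT
  have hCE := thm_fCE hORB hnCNV hSCUT hDF
  have hNE := thm_fNE hORB hnGER hnSDI hSDL hOS hCE
  have hTR := thm_fTR hORB hNSB hSTT
  have hIN := thm_fIN hTR
  have hMS := thm_fMS hORB hNSB hnSDI hSMM hIN
  have hFC := thm_fFC hNSB hMS
  have hSA := thm_fSA hORB hNSB hnGER hnSDI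
  have hRE := thm_fRE hORB hnCNV hSCUT
  have hPE := thm_fPE hnGEX hnGER hnSMA hnSMB hnSDI hSA hRE
  have hCO := thm_fCO hNSB hnGEX hnGER hnTRA hnSDI hPE
  have hBF := thm_fBF hORB hnGEX hnGER hnSDI
  have hCT := thm_fCT hFC hCO hBF
  have hWN := thm_fWN hAUT hNE
  have hSTN := thm_STN hSTT
  have hSGM := thm_SGM
  have hSPA := thm_SPA hORB hNSB hnCNV hSFX hSEZ hSGM
  have hSWN := thm_SWN hAUT hCPL hSPA hSTN
  -- the statements for `Wm`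
  have hDNS := thm_DNS hORB
  have hCNV := thm_CNV hORB
  have hEVD := thm_EVD
  have hGEX := thm_GEX hDFN hORB hCNV hEVD
  have hGER := thm_GER hORB hCNV hGEX
  have hFFR := thm_FFR hORB hCNV hGEX hGER
  have hTRA := thm_TRA hORB hNSB hGEX hGER
  have hSMA := thm_SMA hORB hNSB hGEX hGER hFFR
  have hSMB := thm_SMB hDFN hORB hCNV hGEX hGER
  have hSDI := thm_SDI hDFN hORB hCNV
  have hISO := thm_ISO hNSB hSMA hSMB hSDI
  have hFAR := thm_FAR hORB hCNV hGEX hGER hFFR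
  have hEQG := thm_EQG hNSB hCNV hGEX hGER hTRA
  have hSMG := thm_SMG hNSB hSMA hSMB
  have hLTW := thm_LTW hDFN hORB hCNV
  have hUNG := thm_UNG hDFN hORB hCNV hLTW
  have hCLI := thm_CLI hORB hNSB hCNV hGEX hGER hLTW
  have hVDX := thm_VDX hSDI
  have hGNC := thm_GNC hORB hDNS hNSB hGEX hGER hISO hVDX
  have hOPF := thm_OPF hGNC hVDX
  have hINF := thm_INF hORB hSDI
  have hMSX := thm_MSX hORB hNSB hGEX hGER hSDI hVDX hGNC
  have hLV0 := thm_LV0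
  have hLV1 := thm_LV1 hGER hEQG hLV0
  have hSCC := thm_SCC hNSB hSDI hEQG hCLI hINF hMSX hLV0 hLV1
  have hGAM := thm_GAM
  have hKAP := thm_KAP hGEX hSDI hFAR hEQG
  have hCDN := thm_CDN hORB hNSB hCNV hGEX hGER hFFR hSDI hFAR hEQG hSMG hUNG hKAP
  have hCOR := thm_COR hORB hGEX hGER hSDI hEQG hSMG hGAM hKAP
  have hVCX := thm_VCX hORB hGER hEQG hVDX
  have hNEW := thm_NEW hGEX hGER hSDI hFAR hEQG hSMG hNSB hORB hOPF hGAM hKAP hCDN hCOR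
  have hDIC := thm_DIC hORB hGEX hFAR hEQG hKAP hNEW
  have hMJX := thm_MJX hFAR hVDX hGNC hKAP hVCX
  have hDCA := thm_DCA hORB hNSB hGEX hGER hTRA hEQG hSMG
  have hDCJ := thm_DCJ hNSB hEQG hKAP hDCA
  have hLVP := thm_LVP hNSB hGER hLV0 hLV1
  have hLEJ := thm_LEJ hLV0 hFAR hKAP hDCJ hLVP
  have hNCF := thm_NCF hDIC hMJX hLEJ
  have hmA := thm_mcA hORB hNSB hCNV hTRA hSDI hEQG hUNG hSCC hNCF
  have hmB := thm_mcB hORB hNSB hnGEX hnGER hnTRA hnSDI hPE hCO hBF hFC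
  have hnLTW := thm_nLTW hDFN hORB hnCNV
  have hnUNG := thm_nUNG hDFN hORB hnCNV hnLTW
  have hgNA := thm_gNA hORB hnCNV hSFX thm_SDF hSDL hSCUT hSEZ
  have hkFC := thm_kFC hORB hNSB hnCNV hnGEX hnGER hnSMA hnFAR
  have hkNB := thm_kNB hkFC hORB hNSB hnCNV hnGEX hnGER hnFFR hnSMA hnFAR hSCUT hSDL
  have hgNB := hkNB hgNA
  have hgNI := thm_gNI hORB hnGER hnSDI hgNB
  have hgTS := thm_gTS
  have hgPN := thm_gPN hORB hnSMA hnSMB
  have hgIS := thm_gIS hORB hnSDI hnISO hSFX hSAT hgTS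
  have hgSEC := thm_gSEC hORB hNSB hnGEX hnGER hnFFR hnTRA hnSMA hSEP
  have hgFC := thm_gFC hnGEX hnGER hnSDI hgIS
  have hgEX := thm_gEX hgIS
  have hgPI := thm_gPI hORB hNSB hnGER hnSDI hnISO hSAT hgPN hgIS hgFC
  have hgLG := thm_gLG hORB hNSB hnGEX hnGER hnSDI hnTRA hgPN hgIS hgFC hgEX
  have hgP4 := thm_gP4 hORB hNSB hnTRA hnSDI hSAT hgTS hgPN hgFC hgPI hgLG
  have hgJ0 := thm_gJ0 hORB hNSB hnGEX hnGER hnFFR hnTRA hnSDI hnISO hnFAR hSAT hgFC hgIS hgPN hgSEC hgPI hgLG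
  have hgJB := thm_gJB hORB hNSB hnGEX hnGER hnFFR hnSDI hnFAR hgPI hgJ0
  have hgSN := thm_gSN hORB hnGEX hnGER hnFAR
  have hgSS := thm_gSS hORB hnCNV hnGEX hnGER hnSDI hnISO hnFAR hgIS hgFC hgPI hgP4 hgSN
  have hgMD := thm_gMD hgPI hgSS
  have hgLE := thm_gLE hORB hnFAR hLV0 hgPI
  have hgJM := thm_gJM hTR hgJ0 hgJB hgMD hgLE
  have hgTV := thm_gTV hORB hNSB hnCNV hnGEX hnGER hnSMA hnSDI hnFAR thm_SDF hSFX hSDL hgPN hgJM hSTT
  have hgTW := thm_gTW hnSDI hgTV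
  have hgCO := thm_gCO hORB hNSB hnGEX hnGER hnTRA hnSDI hTR hgPN hgIS hgFC hgJM hgTW
  have hgQN := thm_gQN hORB hnSDI hnISO hgIS hgFC
  have hgF2 := thm_gF2 hORB hNSB hnGER hnSDI hnTRA hSAT hTR hgPN hgTS hgFC hgCO hgQN
  have hgF3 := thm_gF3 hORB hDNS hTR hgQN hgF2
  have hgCC := thm_gCC hgEX
  have hgFN := thm_gFN hNSB hnSDI hSAT hTR hgCC hgQN hgF3 hLV0
  have hgCX := thm_gCX hORB hNSB hnGEX hnGER hnTRA hnSDI hTR hgFC hgIS hgPN hgLG hgJM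
  have hgSU := thm_gSU hSAT hnSDI hgEX
  have hgK0 := thm_gK0 hORB hSCUT
  have hgK1 := thm_gK1 hSFX hNSB hgK0
  have hgK2 := thm_gK2 hORB hNSB hnCNV hnGEX hnGER hnSMA hnSMB hSGM
  have hgCF := thm_gCF
  have hgTO := thm_gTO
  have hgRF := thm_gRF hORB hDFN hDNS hnGEX hnGER hSCUT hgIS
  have hgAT := thm_gAT hORB hDNS hnGEX hgIS
  have hgVI := thm_gVI hORB hNSB hnCNV hnGEX hnGER hnFFR hnTRA hnSDI hnISO hSAT hSDL hTR hgTS hgIS hgFC hgEX hgTW hgCO hgCX hgK0 hgK1 hgK2 hgCF hgTO hgRF hgAT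
  have hgOK := thm_gOK hORB hNSB hnGEX hnGER hnTRA hnSDI hSAT hTR hgIS hgPN hgFC hgEX hgSU hgTW hgVI
  have hgAM := thm_gAM hORB
  have hgFE := thm_gFE hORB hNSB hnGEX hnGER hnTRA hnSMA hnSMB hnSDI hnISO hSAT hTR hFC hgPN hgIS hgFC hgEX hgCO hgTW hgFN hgOK hgAM
  have hgWN := thm_gWN hAUT hgNA hgNI
  have hgLT := thm_gLT hORB hNSB hnCNV hnGEX hnGER hnSMA hnLTW
  have hgBF := thm_gBF hORB hNSB
  have hTop := thm_mcTop (thm_ULT hDEF1) (thm_SUBM hDEF1) (thm_HOMG hDEF1) (thm_TRC (thm_EMB hDEF1))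
    (thm_EMB hDEF1) thm_SML (thm_SCU (thm_PULL hDEF1)) thm_MSB
  have hE := thm_mcE hORB hNSB hnCNV hnGEX hnGER hnSDI hnUNG hgLT hgBF
  exact thm_MAC' hTop hSWN thm_CRE' hmA hgWN hgFE hE

end Pool.Agent.WOM
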