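import Pool.Agent.WOL.MAC

/-!
# Vaught's and Martin's conjecture for weakly o-minimal theories without adic types or without infinite
# increasing sequences of convex equivalence relations

Let `T` be a first-order theory in a countable relational language all of whose countable models
are weakly o-minimal with respect to a fixed formula `lt`.  Assume that every countable saturated
model of `T` has no adic type, or has no infinite chain.  Then the models of `T` on `ℕ` fall
into countably many isomorphism types and each of them is determined up to isomorphism by its sentences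
of the fragment `L_1(T)`, or there are perfectly many isomorphism types.

An adic type is a complete type `p` over a finite set `A`, together with a complete type `q` over
`A`, weakly orthogonal to `p`, and an `A`-definable family `(E z)`, `z ⊨ q`, of equivalence relations
with convex classes on the realisations of `p`, any two of them comparable by inclusion, which are
not all equal.

An infinite chain is a complete 1-type `p` over a finite set `A` together with an infinite strictly
increasing sequence of `A`-definable equivalence relations with convex classes on the realisations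
of `p`.
-/

set_option autoImplicit false

namespace Pool.Agent.Results.MP_5df2c5_lc.WeaklyOMinimalChains

section

variable (L : FirstOrder.Language.{0, 0}) (M : Type) [L.Structure M]

/-- `M` is weakly o-minimal with respect to the formula `lt`: `lt` defines a strict linear order,
and every subset of `M` definable with parameters is a finite union of convex sets. -/
def IsWeaklyOMinimal (lt : L.Formula (Fin 2)) : Prop :=
  (∀ x : M, ¬ lt.Realize ![x, x]) ∧
  (∀ x y z : M, lt.Realize ![x, y] → lt.Realize ![y, z] → lt.Realize ![x, z]) ∧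
  (∀ x y : M, x ≠ y → lt.Realize ![x, y] ∨ lt.Realize ![y, x]) ∧
  ∀ s : Set M, (Set.univ : Set M).Definable₁ L s →
    ∃ (n : ℕ) (C : Fin n → Set M),
      (∀ i, ∀ x ∈ C i, ∀ z ∈ C i, ∀ y, lt.Realize ![x, y] → lt.Realize ![y, z] → y ∈ C i) ∧
      s = ⋃ i, C i

/-- `M` is saturated (for types of elements over finite sets): every family of sets definable over
a finite set with the finite intersection property has a common element. -/
def IsSaturated : Prop :=
  ∀ A : Set M, A.Finite → ∀ F : Set (Set M), (∀ s ∈ F, A.Definable₁ L s) →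
    (∀ G ⊆ F, G.Finite → (⋂₀ G).Nonempty) → (⋂₀ F).Nonempty

variable {M}

/-- The realisations in `M` of the type of `a` over `A`. -/
def Realisations (A : Set M) (a : M) : Set M :=
  {x | ∀ s : Set M, A.Definable₁ L s → (a ∈ s ↔ x ∈ s)}

/-- The type of `c` over `A` implies its type over `B`: every `B`-definable set contains or avoids
some `A`-definable set around `c`. -/
def Implies (A B : Set M) (c : M) : Prop :=
  ∀ s : Set M, B.Definable₁ L s → ∃ t : Set M, A.Definable₁ L t ∧ c ∈ t ∧ (t ⊆ s ∨ t ⊆ sᶜ)

/-- The restriction of `E` to `P` is an equivalence relation with convex classes. -/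
def IsConvexEquivalence (lt : L.Formula (Fin 2)) (P : Set M) (E : M → M → Prop) : Prop :=
  (∀ x ∈ P, E x x) ∧ (∀ x ∈ P, ∀ y ∈ P, E x y → E y x) ∧
  (∀ x ∈ P, ∀ y ∈ P, ∀ w ∈ P, E x y → E y w → E x w) ∧
  ∀ x ∈ P, ∀ y ∈ P, ∀ w ∈ P, lt.Realize ![x, y] → lt.Realize ![y, w] → E x w → E x y

variable (M)

/-- `M` has an adic type: there are a finite set `A`, elements `a`, `c` such that the type of `c` over
`A` implies its type over `A, a`, and an `A`-definable ternary relation `E`, such that the relations
`E z`, for the realisations `z` of the type of `c` over `A`, are equivalence relations with convex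
classes on the realisations of the type of `a` over `A`, any two of them comparable by inclusion,
and not all equal. -/
def HasAdicType (lt : L.Formula (Fin 2)) : Prop :=
  ∃ (A : Set M) (a c : M) (E : M → M → M → Prop), A.Finite ∧ Implies L A (insert a A) c ∧
    A.Definable L {w : Fin 3 → M | E (w 0) (w 1) (w 2)} ∧
    (∀ z ∈ Realisations L A c, IsConvexEquivalence L lt (Realisations L A a) (E z)) ∧
    (∀ z ∈ Realisations L A c, ∀ z' ∈ Realisations L A c,
      (∀ x ∈ Realisations L A a, ∀ y ∈ Realisations L A a, E z x y → E z' x y) ∨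
      ∀ x ∈ Realisations L A a, ∀ y ∈ Realisations L A a, E z' x y → E z x y) ∧
    ∃ z ∈ Realisations L A c, ∃ z' ∈ Realisations L A c, ∃ x ∈ Realisations L A a,
      ∃ y ∈ Realisations L A a, E z x y ∧ ¬ E z' x y

variable {M}

/-- The restrictions to the realisations of the type of `a` over `A` of the `A`-definable binary
relations which are convex equivalence relations there. -/
def ConvexEquivalences (lt : L.Formula (Fin 2)) (A : Set M) (a : M) : Set (Set (M × M)) :=
  {R | ∃ E : M → M → Prop, A.Definable L {w : Fin 2 → M | E (w 0) (w 1)} ∧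
    IsConvexEquivalence L lt (Realisations L A a) E ∧
    R = {z | z.1 ∈ Realisations L A a ∧ z.2 ∈ Realisations L A a ∧ E z.1 z.2}}

variable (M)

/-- `M` has an infinite chain: there are a finite set `A`, a type over `A` and an infinite strictly
increasing sequence of `A`-definable convex equivalence relations on the realisations of this type. -/
def HasInfiniteChain (lt : L.Formula (Fin 2)) : Prop :=
  ∃ (A : Set M) (a : M) (R : ℕ → Set (M × M)), A.Finite ∧
    (∀ n, R n ∈ ConvexEquivalences L lt A a) ∧ ∀ n, R n ⊂ R (n + 1)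

end

/-! ### The fragment `L_1(T)` -/

/-- Formulas with the free variables `x_0, .., x_(n-1)` built from first-order formulas and infinite
conjunctions `⋀ p(x_(f 0), .., x_(f (k-1)))` of sets `p` of first-order formulas by negation, conjunction
and quantification. -/
inductive Frag (L : FirstOrder.Language.{0, 0}) : ℕ → Type
  | fo {n : ℕ} (φ : L.Formula (Fin n)) : Frag L n
  | typ {n k : ℕ} (f : Fin k → Fin n) (p : Set (L.Formula (Fin k))) : Frag L n
  | neg {n : ℕ} (φ : Frag L n) : Frag L n
  | conj {n : ℕ} (φ ψ : Frag L n) : Frag L n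
  | ex {n : ℕ} (φ : Frag L (n + 1)) : Frag L n

/-- Satisfaction in a structure on `ℕ`. -/
def Frag.Sat {L : FirstOrder.Language.{0, 0}} (S : L.Structure ℕ) :
    ∀ {n : ℕ}, Frag L n → (Fin n → ℕ) → Prop
  | _, .fo φ, v => @FirstOrder.Language.Formula.Realize L ℕ S _ φ v
  | _, .typ f p, v => ∀ φ ∈ p, @FirstOrder.Language.Formula.Realize L ℕ S _ φ fun i => v (f i)
  | _, .neg φ, v => ¬ Frag.Sat S φ v
  | _, .conj φ ψ, v => Frag.Sat S φ v ∧ Frag.Sat S ψ v
  | n, .ex φ, v => ∃ x : ℕ, Frag.Sat S φ (Fin.snoc v x : Fin (n + 1) → ℕ)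

/-- The formulas of `L_1(T)`: all infinite conjunctions are conjunctions of complete types, of the sets
of all formulas true of a tuple of a model of `T` on `ℕ`. -/
def Frag.IsL1 {L : FirstOrder.Language.{0, 0}} (T : L.Theory) : ∀ {n : ℕ}, Frag L n → Prop
  | _, .fo _ => True
  | _, .typ (k := k) _ p => ∃ (S : L.Structure ℕ) (v : Fin k → ℕ),
      @FirstOrder.Language.Theory.Model L ℕ S T ∧
        p = {φ | @FirstOrder.Language.Formula.Realize L ℕ S (Fin k) φ v}
  | _, .neg φ => Frag.IsL1 T φ
  | _, .conj φ ψ => Frag.IsL1 T φ ∧ Frag.IsL1 T ψ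
  | _, .ex φ => Frag.IsL1 T φ

/-- `S` and `S'` satisfy the same sentences of `L_1(T)`. -/
def SameL1 {L : FirstOrder.Language.{0, 0}} (T : L.Theory) (S S' : L.Structure ℕ) : Prop :=
  ∀ φ : Frag L 0, φ.IsL1 T → (φ.Sat S Fin.elim0 ↔ φ.Sat S' Fin.elim0)

/-! ### Proof -/

/-- translation of the formulas of `MTC/L1.lean` -/
def ofL1F {L : FirstOrder.Language.{0, 0}} : ∀ {n : ℕ}, Pool.Agent.MTC.L1F L n → Frag L n
  | _, .fo φ => .fo φ
  | _, .typ f p => .typ f p
  | _, .neg φ => .neg (ofL1F φ)
  | _, .conj φ ψ => .conj (ofL1F φ) (ofL1F ψ)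
  | _, .ex φ => .ex (ofL1F φ)

theorem sat_ofL1F {L : FirstOrder.Language.{0, 0}} (S : L.Structure ℕ) {n : ℕ}
    (φ : Pool.Agent.MTC.L1F L n) : ∀ v : Fin n → ℕ,
      ((ofL1F φ).Sat S v ↔ @Pool.Agent.MTC.L1F.Sat L ℕ S n φ v) := by
  induction φ with
  | fo φ => exact fun v => Iff.rfl
  | typ f p => exact fun v => Iff.rfl
  | neg φ ih => exact fun v => not_congr (ih v)
  | conj φ ψ ih ih' => exact fun v => and_congr (ih v) (ih' v)
  | ex φ ih => exact fun v => exists_congr fun x => ih _

theorem isL1_ofL1F {L : FirstOrder.Language.{0, 0}} {T : L.Theory} {n : ℕ}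
    (φ : Pool.Agent.MTC.L1F L n) : (ofL1F φ).IsL1 T ↔ φ.Of T := by
  induction φ with
  | fo φ => exact Iff.rfl
  | typ f p => exact Iff.rfl
  | neg φ ih => exact ih
  | conj φ ψ ih ih' => exact and_congr ih ih'
  | ex φ ih => exact ih

/-- **Vaught's conjecture (perfect set form) and Martin's conjecture for weakly o-minimal theories whose
countable saturated models have no adic types or no infinite chains.** -/
theorem result (L : FirstOrder.Language.{0, 0}) (hc : Countable L.Symbols)
    (hrel : ∀ n, IsEmpty (L.Functions n)) (T : L.Theory) (lt : L.Formula (Fin 2))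
    (h : ∀ S : L.Structure ℕ, @FirstOrder.Language.Theory.Model L ℕ S T →
      @IsWeaklyOMinimal L ℕ S lt ∧ (@IsSaturated L ℕ S →
        ¬ @HasAdicType L ℕ S lt ∨ ¬ @HasInfiniteChain L ℕ S lt)) :
    ((∃ g : ℕ → L.Structure ℕ, ∀ S : L.Structure ℕ,
        @FirstOrder.Language.Theory.Model L ℕ S T →
          ∃ n : ℕ, Nonempty (@FirstOrder.Language.Equiv L ℕ ℕ S (g n))) ∧
      ∀ S S' : L.Structure ℕ, @FirstOrder.Language.Theory.Model L ℕ S T →
        @FirstOrder.Language.Theory.Model L ℕ S' T → SameL1 T S S' →
          Nonempty (@FirstOrder.Language.Equiv L ℕ ℕ S S')) ∨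
    (∃ f : (ℕ → Bool) → L.Structure ℕ,
        (∀ x : ℕ → Bool, @FirstOrder.Language.Theory.Model L ℕ (f x) T) ∧
        (∀ x y : ℕ → Bool,
            Nonempty (@FirstOrder.Language.Equiv L ℕ ℕ (f x) (f y)) → x = y) ∧
        (∀ (n : ℕ) (R : L.Relations n) (a : Fin n → ℕ),
            IsClopen {x : ℕ → Bool | @FirstOrder.Language.Structure.RelMap L ℕ (f x) n R a})) := by
  have : ∀ n, IsEmpty (L.Functions n) := hrel
  have : ∀ n, Countable (L.Relations n) := fun n =>
    Function.Injective.countable (β := L.Symbols) (f := fun R => Sum.inr ⟨n, R⟩)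
      (fun R R' hR => by simpa using hR)
  have key := WOM.thm_MAC L T lt (fun S hS => by
    obtain ⟨⟨h1, h2, h3, h4⟩, h5⟩ := h S hS
    refine ⟨@WOM.WOMin.mk L ℕ S lt h1 h2 h3 h4, fun hsat => ?_⟩
    rcases h5 hsat with h6 | h6
    · left
      intro A P Q a c E hA hP hQ hac hE hcv hcp z hz z' hz' x hx y hy hxy
      by_contra hn
      subst hP
      subst hQ
      exact h6 ⟨A, a, c, E, hA, hac, hE, hcv, hcp, z, hz, z', hz', x, hx, y, hy, hxy, hn⟩
    · right
      intro A a hA R hR hRR
      by_contra hn
      exact h6 ⟨A, a, R, hA, hR, fun n => (hRR n).ssubset_of_ne fun h => hn ⟨n, h.symm⟩⟩)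
  rcases key with ⟨⟨g, hg⟩, hm⟩ | ⟨f, hf1, hf2, hf3⟩
  · refine Or.inl ⟨⟨g, fun S hS => ?_⟩, fun S S' hS hS' hE => hm S S' hS hS' fun φ hφ => ?_⟩
    · obtain ⟨n, hn⟩ := hg S hS
      exact ⟨n, (Helper6.Str.nonempty_equiv_iff S (g n)).mpr hn⟩
    · exact (sat_ofL1F S φ _).symm.trans
        ((hE (ofL1F φ) ((isL1_ofL1F φ).2 hφ)).trans (sat_ofL1F S' φ _))
  · exact Or.inr ⟨f, hf1,
      fun x y hxy => hf2 x y ((Helper6.Str.nonempty_equiv_iff _ _).mp hxy), hf3⟩

end Pool.Agent.Results.MP_5df2c5_lc.WeaklyOMinimalChains
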