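import Pool.Agent.WOM.StC
import Pool.Agent.MTC.L1

/-!
WOL, MC1 (helper73): the theory in `L_1(T)` of a countable model tells which finite sets of types over
finite subsets are omitted together.
-/

set_option autoImplicit false

namespace Pool.Agent.WOM

open FirstOrder.Language Set
open scoped FirstOrder
open Pool.Agent.MTC (L1F)

section defs

variable (L : FirstOrder.Language.{0, 0}) {U : Type} [L.Structure U]

/-- `M` contains an image `σ d` of the tuple `d` such that the images of the types of the `v j` over `d`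
have no points in `M`. -/
def Omt (M : Set U) {n m : ℕ} (d : Fin n → U) (v : Fin m → U) : Prop :=
  ∃ σ : U ≃[L] U, (∀ i, σ (d i) ∈ M) ∧ ∀ j, Orb L (range fun i => σ (d i)) (σ (v j)) ∩ M = ∅

/-- the same finite sets of types are omitted -/
def EqO (M M' : Set U) : Prop :=
  ∀ (n m : ℕ) (d : Fin n → U) (v : Fin m → U), Omt L M d v ↔ Omt L M' d v

/-- `f` is an elementary embedding of the structure `S` on `ℕ` in `U` -/
def ElF (S : L.Structure ℕ) (f : ℕ → U) : Prop :=
  ∀ (n : ℕ) (a : Fin n → ℕ), @tp L ℕ S n a = tp (L := L) (f ∘ a)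

end defs

/-- `S` and `S'` satisfy the same sentences of `L_1(T)` -/
def SL1 (L : FirstOrder.Language.{0, 0}) (T : L.Theory) (S S' : L.Structure ℕ) : Prop :=
  ∀ φ : L1F L 0, L1F.Of T φ → (@L1F.Sat L ℕ S 0 φ Fin.elim0 ↔ @L1F.Sat L ℕ S' 0 φ Fin.elim0)

section

variable {L : FirstOrder.Language.{0, 0}} {U : Type} [L.Structure U]

/-- closure under existential quantifiers -/
def mc_exs : ∀ {n : ℕ}, L1F L n → L1F L 0
  | 0, φ => φ
  | _ + 1, φ => mc_exs (.ex φ)

theorem mc_exs_of (T : L.Theory) : ∀ {n : ℕ} (φ : L1F L n), L1F.Of T φ → L1F.Of T (mc_exs φ)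
  | 0, _, h => h
  | _ + 1, φ, h => mc_exs_of T (.ex φ) h

theorem mc_exs_sat (S : L.Structure ℕ) : ∀ {n : ℕ} (φ : L1F L n),
    (@L1F.Sat L ℕ S 0 (mc_exs φ) Fin.elim0 ↔ ∃ v : Fin n → ℕ, @L1F.Sat L ℕ S n φ v)
  | 0, φ => by
    constructor
    · intro h
      exact ⟨Fin.elim0, h⟩
    · rintro ⟨v, hv⟩
      rw [Subsingleton.elim v Fin.elim0] at hv
      exact hv
  | n + 1, φ => by
    rw [mc_exs, mc_exs_sat S (.ex φ)]
    constructor
    · rintro ⟨v, x, hx⟩
      exact ⟨_, hx⟩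
    · rintro ⟨v, hv⟩
      refine ⟨Fin.init v, v (Fin.last n), ?_⟩
      rw [Fin.snoc_init_self]
      exact hv

/-- finite conjunctions -/
def mc_and {n : ℕ} : List (L1F L n) → L1F L n
  | [] => .fo ⊤
  | φ :: Λ => .conj φ (mc_and Λ)

theorem mc_and_of (T : L.Theory) {n : ℕ} (Λ : List (L1F L n)) (h : ∀ φ ∈ Λ, L1F.Of T φ) :
    L1F.Of T (mc_and Λ) := by
  induction Λ with
  | nil => exact trivial
  | cons φ Λ ih => exact ⟨h φ List.mem_cons_self, ih fun ψ hψ => h ψ (List.mem_cons_of_mem _ hψ)⟩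

theorem mc_and_sat (S : L.Structure ℕ) {n : ℕ} (Λ : List (L1F L n)) (v : Fin n → ℕ) :
    @L1F.Sat L ℕ S n (mc_and Λ) v ↔ ∀ φ ∈ Λ, @L1F.Sat L ℕ S n φ v := by
  induction Λ with
  | nil =>
    constructor
    · intro _ φ hφ
      exact absurd hφ List.not_mem_nil
    · intro _
      show FirstOrder.Language.Formula.Realize ⊤ v
      exact FirstOrder.Language.Formula.realize_top.2 trivial
  | cons φ Λ ih =>
    constructor
    · rintro ⟨h1, h2⟩ ψ hψ
      rcases List.mem_cons.1 hψ with rfl | h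
      · exact h1
      · exact ih.1 h2 ψ h
    · intro h
      exact ⟨h φ List.mem_cons_self, ih.2 fun ψ hψ => h ψ (List.mem_cons_of_mem _ hψ)⟩

/-- complete types are maximal -/
theorem mc_tp_le {k : ℕ} {s t : Fin k → U} (h : tp (L := L) s ⊆ tp t) : tp (L := L) s = tp t := by
  refine Subset.antisymm h fun φ hφ => ?_
  by_contra hn
  have h1 : φ.not ∈ tp (L := L) s := by
    show (φ.not).Realize s
    rw [FirstOrder.Language.Formula.realize_not]
    exact hn
  have h2 := h h1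
  have h3 : (φ.not).Realize t := h2
  rw [FirstOrder.Language.Formula.realize_not] at h3
  exact h3 hφ

theorem mc_sat_typ (S : L.Structure ℕ) (f : ℕ → U) (hf : ElF L S f) {n : ℕ} (s : Fin n → U)
    (v : Fin n → ℕ) :
    @L1F.Sat L ℕ S n (.typ id (tp (L := L) s)) v ↔ tp (L := L) s = tp (f ∘ v) := by
  have h1 : @tp L ℕ S n v = tp (L := L) (f ∘ v) := hf n v
  have h2 : (@L1F.Sat L ℕ S n (.typ id (tp (L := L) s)) v) ↔ tp (L := L) s ⊆ @tp L ℕ S n v := Iff.rfl
  rw [h2, h1]
  exact ⟨fun h => mc_tp_le h, fun h => h.le⟩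

theorem mc_tp_of (hM : Mon L U) (T : L.Theory) (hT : U ⊨ T) {k : ℕ} (s : Fin k → U) :
    ∃ (S : L.Structure ℕ) (v : Fin k → ℕ), @FirstOrder.Language.Theory.Model L ℕ S T ∧
      tp (L := L) s = {φ | @FirstOrder.Language.Formula.Realize L ℕ S (Fin k) φ v} := by
  have := hM.ctb
  have := hM.inf
  obtain ⟨e⟩ : Nonempty (U ≃ ℕ) := nonempty_equiv_of_countable
  let S : L.Structure ℕ := e.inducedStructure
  let g : U ≃[L] ℕ := e.inducedStructureEquiv
  refine ⟨S, g ∘ s, FirstOrder.Language.StrongHomClass.theory_model g, ?_⟩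
  ext φ
  exact (FirstOrder.Language.StrongHomClass.realize_formula g φ).symm

theorem mc_tp_aut (g : U ≃[L] U) {k : ℕ} (s : Fin k → U) : tp (L := L) (g ∘ s) = tp s := by
  ext φ
  exact FirstOrder.Language.StrongHomClass.realize_formula g φ

/-- the formula of the omission -/
def mc_omf {n m : ℕ} (d : Fin n → U) (v : Fin m → U) : L1F L n :=
  .conj (.typ id (tp (L := L) d))
    (mc_and ((List.finRange m).map fun j => .neg (.ex (.typ id
      (tp (L := L) (Fin.snoc d (v j) : Fin (n + 1) → U))))))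

theorem mc_omf_of (hM : Mon L U) (T : L.Theory) (hT : U ⊨ T) {n m : ℕ} (d : Fin n → U)
    (v : Fin m → U) : L1F.Of T (mc_omf (L := L) d v) := by
  refine ⟨mc_tp_of hM T hT d, mc_and_of T _ ?_⟩
  intro φ hφ
  rw [List.mem_map] at hφ
  obtain ⟨j, -, rfl⟩ := hφ
  exact mc_tp_of hM T hT _

theorem mc_omf_sat (hM : Mon L U) (S : L.Structure ℕ) (f : ℕ → U) (hf : ElF L S f) {n m : ℕ}
    (d : Fin n → U) (v : Fin m → U) :
    (∃ w : Fin n → ℕ, @L1F.Sat L ℕ S n (mc_omf (L := L) d v) w) ↔ Omt L (range f) d v := by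
  have key : ∀ (σ : U ≃[L] U) (w : Fin n → ℕ), (∀ i, σ (d i) = f (w i)) → ∀ j : Fin m,
      ((∃ x : ℕ, @L1F.Sat L ℕ S (n + 1) (.typ id (tp (L := L) (Fin.snoc d (v j) : Fin (n + 1) → U)))
        (Fin.snoc w x : Fin (n + 1) → ℕ)) ↔
        (Orb L (range fun i => σ (d i)) (σ (v j)) ∩ range f).Nonempty) := by
    intro σ w hσ j
    constructor
    · rintro ⟨x, hx⟩
      rw [mc_sat_typ S f hf] at hx
      obtain ⟨τ, hτ⟩ := hM.hom _ _ _ hx
      refine ⟨f x, ⟨τ.comp σ.symm, ?_, ?_⟩, ⟨x, rfl⟩⟩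
      · rintro _ ⟨i, rfl⟩
        show τ (σ.symm (σ (d i))) = σ (d i)
        rw [FirstOrder.Language.Equiv.symm_apply_apply]
        have h1 := hτ i.castSucc
        rw [Fin.snoc_castSucc] at h1
        rw [h1, hσ]
        show f ((Fin.snoc w x : Fin (n + 1) → ℕ) i.castSucc) = f (w i)
        rw [Fin.snoc_castSucc]
      · show τ (σ.symm (σ (v j))) = f x
        rw [FirstOrder.Language.Equiv.symm_apply_apply]
        have h1 := hτ (Fin.last n)
        rw [Fin.snoc_last] at h1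
        rw [h1]
        show f ((Fin.snoc w x : Fin (n + 1) → ℕ) (Fin.last n)) = f x
        rw [Fin.snoc_last]
    · rintro ⟨y, ⟨g, hg, hgy⟩, ⟨x, rfl⟩⟩
      refine ⟨x, ?_⟩
      rw [mc_sat_typ S f hf]
      rw [← mc_tp_aut (g.comp σ)]
      congr 1
      funext i
      refine Fin.lastCases ?_ (fun i => ?_) i
      · show g (σ ((Fin.snoc d (v j) : Fin (n + 1) → U) (Fin.last n))) =
          f ((Fin.snoc w x : Fin (n + 1) → ℕ) (Fin.last n))
        rw [Fin.snoc_last, Fin.snoc_last]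
        exact hgy
      · show g (σ ((Fin.snoc d (v j) : Fin (n + 1) → U) i.castSucc)) =
          f ((Fin.snoc w x : Fin (n + 1) → ℕ) i.castSucc)
        rw [Fin.snoc_castSucc, Fin.snoc_castSucc]
        exact (hg _ ⟨i, rfl⟩).trans (hσ i)
  constructor
  · rintro ⟨w, h1, h2⟩
    rw [mc_sat_typ S f hf] at h1
    obtain ⟨σ, hσ⟩ := hM.hom _ _ _ h1
    refine ⟨σ, fun i => ⟨w i, (hσ i).symm⟩, fun j => ?_⟩
    rw [mc_and_sat] at h2
    have h3 := h2 _ (List.mem_map.2 ⟨j, List.mem_finRange j, rfl⟩)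
    rw [Set.eq_empty_iff_forall_notMem]
    intro y hy
    exact h3 ((key σ w hσ j).2 ⟨y, hy⟩)
  · rintro ⟨σ, h1, h2⟩
    choose w hw using h1
    refine ⟨w, ?_, ?_⟩
    · rw [mc_sat_typ S f hf, ← mc_tp_aut σ]
      congr 1
      funext i
      exact (hw i).symm
    · rw [mc_and_sat]
      intro φ hφ
      rw [List.mem_map] at hφ
      obtain ⟨j, -, rfl⟩ := hφ
      intro h3
      have h4 := (key σ w (fun i => (hw i).symm) j).1 h3
      rw [h2 j] at h4
      exact Set.not_nonempty_empty h4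

/-- the theory in `L_1(T)` tells which finite sets of types are omitted -/
theorem mc_eqO (hM : Mon L U) (T : L.Theory) (hT : U ⊨ T) {S S' : L.Structure ℕ} {f f' : ℕ → U}
    (hf : ElF L S f) (hf' : ElF L S' f') (hE : SL1 L T S S') : EqO L (range f) (range f') := by
  intro n m d v
  rw [← mc_omf_sat hM S f hf, ← mc_omf_sat hM S' f' hf', ← mc_exs_sat S, ← mc_exs_sat S']
  exact hE _ (mc_exs_of T _ (mc_omf_of hM T hT d v))

end

end Pool.Agent.WOM
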