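import Pool.Agent.WOL.MC1
import Pool.Agent.WOL.StF

/-!
WOL, MC2 (helper73): models with the same omitted finite sets of types are isomorphic, if there are no
new ends.
-/

set_option autoImplicit false

namespace Pool.Agent.WOM

open FirstOrder.Language Set
open scoped FirstOrder

section gen

variable {L : FirstOrder.Language.{0, 0}} {U : Type} [L.Structure U]

theorem mc_isoM_symm {M N : Set U} (h : IsoM L M N) : IsoM L N M := by
  obtain ⟨e, he⟩ := h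
  refine ⟨e.symm, fun n a => ?_⟩
  rw [he n fun i => e.symm (a i)]
  simp only [Equiv.apply_symm_apply]

theorem mc_isoM_trans {M N P : Set U} (h : IsoM L M N) (h' : IsoM L N P) : IsoM L M P := by
  obtain ⟨e, he⟩ := h
  obtain ⟨e', he'⟩ := h'
  exact ⟨e.trans e', fun n a => (he n a).trans (he' n fun i => e (a i))⟩

theorem mc_img (σ : U ≃[L] U) (M : Set U) : σ '' (σ ⁻¹' M) = M :=
  image_preimage_eq M (fun y => ⟨σ.symm y, σ.apply_symm_apply y⟩)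

theorem mc_pre_iso (σ : U ≃[L] U) (M : Set U) : IsoM L (σ ⁻¹' M) M := by
  refine ⟨⟨fun x => ⟨σ x, x.2⟩, fun y => ⟨σ.symm y, ?_⟩, ?_, ?_⟩, ?_⟩
  · show σ (σ.symm y) ∈ M
    rw [σ.apply_symm_apply]
    exact y.2
  · intro x
    exact Subtype.ext (σ.symm_apply_apply _)
  · intro y
    exact Subtype.ext (σ.apply_symm_apply _)
  · intro n a
    exact (mc_tp_aut σ (fun i => (a i : U))).symm

theorem mc_pre_el (hORB : St_ORB) (hM : Mon L U) (σ : U ≃[L] U) {M : Set U} (h : IsEl L M) :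
    IsEl L (σ ⁻¹' M) := by
  obtain ⟨-, -, -, -, -, -, -, -, o9⟩ := hORB L U hM
  intro s hs hne
  have h1 := o9 σ _ s hs
  rw [mc_img] at h1
  obtain ⟨_, ⟨x, hx, rfl⟩, hxM⟩ := h _ h1 (hne.image σ)
  exact ⟨x, hx, hxM⟩

theorem mc_rng {n : ℕ} (σ : U ≃[L] U) (d : Fin n → U) : (range fun i => σ (d i)) = σ '' range d := by
  ext y
  constructor
  · rintro ⟨i, rfl⟩
    exact ⟨d i, ⟨i, rfl⟩, rfl⟩
  · rintro ⟨_, ⟨i, rfl⟩, rfl⟩
    exact ⟨i, rfl⟩

theorem mc_omt_pre (hORB : St_ORB) (hM : Mon L U) (σ : U ≃[L] U) {M : Set U} {n m : ℕ}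
    {d : Fin n → U} {v : Fin m → U} (h : Omt L M d v) : Omt L (σ ⁻¹' M) d v := by
  obtain ⟨-, -, -, o4, -⟩ := hORB L U hM
  obtain ⟨ρ, h1, h2⟩ := h
  refine ⟨σ.symm.comp ρ, fun i => ?_, fun j => ?_⟩
  · show σ (σ.symm (ρ (d i))) ∈ M
    rw [σ.apply_symm_apply]
    exact h1 i
  · rw [Set.eq_empty_iff_forall_notMem]
    rintro y ⟨hy, hyM⟩
    have h3 : σ y ∈ Orb L (range fun i => ρ (d i)) (ρ (v j)) := by
      have e1 : (range fun i => (σ.symm.comp ρ) (d i)) = σ.symm '' range fun i => ρ (d i) := by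
        rw [← mc_rng]
        rfl
      rw [e1] at hy
      have h4 := o4 σ.symm (range fun i => ρ (d i)) (ρ (v j))
      have h5 : y ∈ σ.symm '' Orb L (range fun i => ρ (d i)) (ρ (v j)) := by
        rw [← h4]
        exact hy
      obtain ⟨z, hz, rfl⟩ := h5
      rw [σ.apply_symm_apply]
      exact hz
    have h6 : σ y ∈ Orb L (range fun i => ρ (d i)) (ρ (v j)) ∩ M := ⟨h3, hyM⟩
    rw [h2 j] at h6
    exact h6

theorem mc_eqO_pre (hORB : St_ORB) (hM : Mon L U) (σ : U ≃[L] U) (M : Set U) :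
    EqO L M (σ ⁻¹' M) := by
  intro n m d v
  refine ⟨mc_omt_pre hORB hM σ, fun h => ?_⟩
  have h1 := mc_omt_pre hORB hM σ.symm h
  have h2 : σ.symm ⁻¹' (σ ⁻¹' M) = M := by
    ext x
    show σ (σ.symm x) ∈ M ↔ x ∈ M
    rw [σ.apply_symm_apply]
  rwa [h2] at h1

theorem mc_one (x : U) : (FirstOrder.Language.Equiv.refl L U) x = x := rfl

/-- a finite set is the range of a tuple -/
theorem mc_tup {A : Set U} (hA : A.Finite) : ∃ (n : ℕ) (d : Fin n → U), range d = A := by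
  have := hA.to_subtype
  obtain ⟨n, ⟨e⟩⟩ := Finite.exists_equiv_fin A
  refine ⟨n, fun i => (e.symm i : U), ?_⟩
  ext x
  constructor
  · rintro ⟨i, rfl⟩
    exact (e.symm i).2
  · intro hx
    refine ⟨e ⟨x, hx⟩, ?_⟩
    show ((e.symm (e ⟨x, hx⟩) : A) : U) = x
    rw [e.symm_apply_apply]

/-- the identity as witness -/
theorem mc_omt_self {M : Set U} {n m : ℕ} (d : Fin n → U) (v : Fin m → U) (hd : range d ⊆ M)
    (hv : ∀ j, Orb L (range d) (v j) ∩ M = ∅) : Omt L M d v :=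
  ⟨FirstOrder.Language.Equiv.refl L U, fun i => hd ⟨i, rfl⟩, hv⟩

end gen

section

variable {L : FirstOrder.Language.{0, 0}} {U : Type} [L.Structure U] [LinearOrder U]

/-- the same open ends -/
theorem mc_ope (hORB : St_ORB) (hGEX : St_nGEX) (hGER : St_nGER) (hW : Wn L U) {M N : Set U}
    (h : EqO L M N) (w : U) (t : Bool) (hM : OpE L w t M) : OpE L w t N := by
  obtain ⟨-, -, -, o4, -⟩ := hORB L U hW.mon
  obtain ⟨-, -, -, g4, g5, -⟩ := hGER L U hW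
  intro b hb hbN
  by_contra hn
  obtain ⟨u, hu⟩ := (hGEX L U hW ∅ b w t (empty_subset b) hb).1
  have hG := (hGEX L U hW ∅ b w t (empty_subset b) hb).2 u hu
  obtain ⟨n, d, rfl⟩ := mc_tup hb
  have h1 : Omt L N d (fun _ : Fin 1 => u) := by
    refine mc_omt_self d _ hbN fun j => ?_
    rw [← hG]
    exact Set.not_nonempty_iff_eq_empty.1 hn
  obtain ⟨ρ, h2, h3⟩ := (h n 1 d _).2 h1
  have h4 : (range fun i => ρ (d i)) ⊆ M := by
    rintro _ ⟨i, rfl⟩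
    exact h2 i
  obtain ⟨y, hy, hyM⟩ := hM _ (finite_range _) h4
  have h5 : y ∈ Orb L (range fun i => ρ (d i)) (ρ u) ∩ M := by
    refine ⟨?_, hyM⟩
    rw [mc_rng, o4, ← hG, ← g5 ρ ∅ (range d) w t, image_empty, ← mc_rng]
    rw [g4 ∅ _ w (ρ w) t ⟨ρ, fun a ha => absurd ha (notMem_empty a), rfl⟩]
    exact hy
  rw [h3 0] at h5
  exact h5

/-- a code from a finite set over which the ends are open or omitted -/
theorem mc_code (hNSB : St_NSB) (hGEX : St_nGEX) (hGER : St_nGER) (hTRA : St_nTRA)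
    (hSDI : St_nSDI) (hPE : St_fPE) (hW : Wn L U) (hNE : NE L U) {M a V : Set U} (hM : IsEl L M)
    (haf : a.Finite) (haM : a ⊆ M) (hRp : Rp L a M)
    (hom : ∀ w t, ¬ SD L ∅ w t → OpE L w t M ∨ Ge L ∅ w t a ∩ M = ∅)
    (hV : ∀ z, ¬ Isd L a z → ∃ v ∈ V, Nn L a z v) :
    Cd L a {v | v ∈ V ∧ ∃ (w : U) (t : Bool), ¬ SD L ∅ w t ∧ OpE L w t M ∧
      ∃ u ∈ Ge L ∅ w t a, Nn L a u v} M := by
  obtain ⟨nsb, -⟩ := hNSB L U
  have gex := hGEX L U hW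
  obtain ⟨-, ger2, -⟩ := hGER L U hW
  obtain ⟨sdi1, sdi2, -⟩ := hSDI L U hW
  have tra := hTRA L U hW
  refine ⟨hM, haM, hom, ?_⟩
  intro w t hw
  constructor
  · intro hop
    obtain ⟨u, hu⟩ := (gex ∅ a w t (empty_subset a) haf).1
    have hni : ¬ Isd L a u := by
      intro hi
      have h1 := (sdi1 a u haf).mp hi
      have h2 : SD L a u t := by
        cases t
        · exact h1.2
        · exact h1.1
      exact hw ((sdi2 ∅ a w u t (empty_subset a) haf hu).mp h2)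
    obtain ⟨v, hv, huv⟩ := hV u hni
    exact ⟨v, ⟨hv, w, t, hw, hop, u, hu, huv⟩, u, hu, huv⟩
  · rintro ⟨v, ⟨hv, w', t', hw', hop', u', hu', hu'v⟩, u, hu, huv⟩
    intro b hb hbM
    have hn : Nn L a u' u := tra a u' v u haf hu'v (nsb _ _ _ huv)
    have hf : (a ∪ b).Finite := haf.union hb
    have hsM : a ∪ b ⊆ M := union_subset haM hbM
    obtain ⟨x, hx, hxM⟩ := hop' (a ∪ b) hf hsM
    obtain ⟨y, hy, hyM⟩ := hPE L U hW hNE M a a (a ∪ b) hM hRp subset_rfl subset_union_left hf hsM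
      w' w t' t hw' hw u' hu' u hu hn x hx hxM
    exact ⟨y, ger2 ∅ b (a ∪ b) w t (empty_subset _) subset_union_right hf hy, hyM⟩

end

/-- models with the same omitted finite sets of types are isomorphic (no new ends) -/
theorem thm_mcL (hORB : St_ORB) (hNSB : St_NSB) (hGEX : St_nGEX) (hGER : St_nGER) (hTRA : St_nTRA)
    (hSDI : St_nSDI) (hPE : St_fPE) (hCO : St_fCO) (hBF : St_fBF) :
    ∀ (L : FirstOrder.Language.{0, 0}) (U : Type) [L.Structure U] [LinearOrder U], Wn L U →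
      NE L U → FCl L U → ∀ M N : Set U, IsEl L M → IsEl L N → EqO L M N → IsoM L M N := by
  intro L U _ _ hW hNE hF M N hM hN hE
  classical
  obtain ⟨o1, o2, o3, o4, -⟩ := hORB L U hW.mon
  obtain ⟨nsb1, nsb2, -⟩ := hNSB L U
  have gex := hGEX L U hW
  obtain ⟨-, ger2, -⟩ := hGER L U hW
  obtain ⟨sdi1, sdi2, -⟩ := hSDI L U hW
  have tra := hTRA L U hW
  have niso : ∀ (B : Set U) (w : U) (t : Bool), B.Finite → ¬ SD L ∅ w t → ∀ u ∈ Ge L ∅ w t B,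
      ¬ Isd L B u := by
    intro B w t hB hw u hu hi
    have h1 := (sdi1 B u hB).mp hi
    have h2 : SD L B u t := by
      cases t
      · exact h1.2
      · exact h1.1
    exact hw ((sdi2 ∅ B w u t (empty_subset B) hB hu).mp h2)
  -- the set `a`
  obtain ⟨a₀, V₀, ha₀, -, hcd⟩ := hCO L U hW hNE hF M hM
  obtain ⟨V₁, hV₁, hV₁'⟩ := hF ∅ finite_empty
  have hz : ∀ v : U, ∃ z : U, (∃ y ∈ M, Nn L ∅ y v) → z ∈ M ∧ Nn L ∅ z v := by
    intro v
    by_cases h : ∃ y ∈ M, Nn L ∅ y v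
    · obtain ⟨y, hy, hy'⟩ := h
      exact ⟨y, fun _ => ⟨hy, hy'⟩⟩
    · exact ⟨v, fun h' => absurd h' h⟩
  choose Z hZ using hz
  obtain ⟨a, ha⟩ : ∃ a : Set U, a = a₀ ∪ Z '' {v | v ∈ V₁ ∧ ∃ y ∈ M, Nn L ∅ y v} := ⟨_, rfl⟩
  have haf : a.Finite := by
    rw [ha]
    exact ha₀.union ((hV₁.subset (fun v hv => hv.1)).image Z)
  have haM : a ⊆ M := by
    rw [ha]
    refine union_subset hcd.sub ?_
    rintro z ⟨v, hv, rfl⟩
    exact (hZ v hv.2).1
  have hRp : Rp L a M := by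
    intro z hz hzi
    obtain ⟨v, hv, hzv⟩ := hV₁' z hzi
    have h1 := hZ v ⟨z, hz, hzv⟩
    refine ⟨Z v, ?_, tra ∅ z v (Z v) finite_empty hzv (nsb1 _ _ _ h1.2)⟩
    rw [ha]
    exact Or.inr ⟨v, ⟨hv, z, hz, hzv⟩, rfl⟩
  have hom : ∀ w t, ¬ SD L ∅ w t → OpE L w t M ∨ Ge L ∅ w t a ∩ M = ∅ := by
    intro w t hw
    refine (hcd.om w t hw).imp id fun h => ?_
    rw [Set.eq_empty_iff_forall_notMem] at h ⊢
    rintro x ⟨hx, hxM⟩
    refine h x ⟨ger2 ∅ a₀ a w t (empty_subset _) ?_ haf hx, hxM⟩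
    rw [ha]
    exact subset_union_left
  -- the classes which are omitted over `a`
  obtain ⟨V, hV, hV'⟩ := hF a haf
  let Q : U → Prop := fun v => ∃ (w : U) (t : Bool), ¬ SD L ∅ w t ∧ Ge L ∅ w t a ∩ M = ∅ ∧
    ∃ u ∈ Ge L ∅ w t a, Nn L a u v
  obtain ⟨m, e, he⟩ := mc_tup (U := U) (hV.subset (fun v (hv : v ∈ {v | v ∈ V ∧ Q v}) => hv.1))
  have hQ : ∀ j : Fin m, Q (e j) := fun j => by
    have : e j ∈ {v | v ∈ V ∧ Q v} := by rw [← he]; exact ⟨j, rfl⟩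
    exact this.2
  choose w t hw hom' u hu hnn using hQ
  have hGu : ∀ j, Ge L ∅ (w j) (t j) a = Orb L a (u j) := fun j =>
    (gex ∅ a (w j) (t j) (empty_subset a) haf).2 (u j) (hu j)
  obtain ⟨n, d, hd⟩ := mc_tup (U := U) haf
  have hO : Omt L M d u := by
    refine mc_omt_self d u (by rw [hd]; exact haM) fun j => ?_
    rw [hd, ← hGu]
    exact hom' j
  obtain ⟨σ, hσ1, hσ2⟩ := (hE n m d u).1 hO
  -- the model `N' = σ⁻¹ N`
  have hE' : EqO L M (σ ⁻¹' N) := fun n m d v =>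
    (hE n m d v).trans (mc_eqO_pre hORB hW.mon σ N n m d v)
  have hEs : EqO L (σ ⁻¹' N) M := fun n m d v => (hE' n m d v).symm
  have hN' : IsEl L (σ ⁻¹' N) := mc_pre_el hORB hW.mon σ hN
  have haN : a ⊆ σ ⁻¹' N := by
    rw [← hd]
    rintro _ ⟨i, rfl⟩
    exact hσ1 i
  have homN : ∀ j, Ge L ∅ (w j) (t j) a ∩ σ ⁻¹' N = ∅ := by
    intro j
    rw [Set.eq_empty_iff_forall_notMem]
    rintro x ⟨hx, hxN⟩
    have h1 : σ x ∈ Orb L (range fun i => σ (d i)) (σ (u j)) ∩ N := by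
      refine ⟨?_, hxN⟩
      rw [mc_rng, hd, o4, ← hGu]
      exact mem_image_of_mem σ hx
    rw [hσ2 j] at h1
    exact h1
  have hRpN : Rp L a (σ ⁻¹' N) := by
    intro z hz hzi
    have h1 : Omt L (σ ⁻¹' N) (fun _ : Fin 1 => z) (Fin.elim0 : Fin 0 → U) :=
      mc_omt_self _ _ (by rintro _ ⟨i, rfl⟩; exact hz) fun j => j.elim0
    obtain ⟨ρ, h2, -⟩ := (hE' 1 0 _ _).2 h1
    have h3 : ρ z ∈ Orb L ∅ z := ⟨ρ, fun a ha => absurd ha (notMem_empty a), rfl⟩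
    have h4 : Orb L ∅ (ρ z) = Orb L ∅ z := o2 _ _ _ h3
    have h5 : ¬ Isd L ∅ (ρ z) := by
      unfold Isd at hzi ⊢
      rw [h4]
      exact hzi
    obtain ⟨v, hv, hv'⟩ := hRp (ρ z) (h2 0) h5
    refine ⟨v, hv, nsb2 ∅ (ρ z) v z v ?_ (o1 _ _) hv'⟩
    rw [h4]
    exact o1 _ _
  have homN' : ∀ w t, ¬ SD L ∅ w t → OpE L w t (σ ⁻¹' N) ∨ Ge L ∅ w t a ∩ σ ⁻¹' N = ∅ := by
    intro w' t' hw'
    rcases hom w' t' hw' with h | h
    · exact Or.inl (mc_ope hORB hGEX hGER hW hE' w' t' h)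
    · right
      obtain ⟨u', hu'⟩ := (gex ∅ a w' t' (empty_subset a) haf).1
      obtain ⟨v, hv, hu'v⟩ := hV' u' (niso a w' t' haf hw' u' hu')
      have hj : v ∈ {v | v ∈ V ∧ Q v} := ⟨hv, w', t', hw', h, u', hu', hu'v⟩
      rw [← he] at hj
      obtain ⟨j, rfl⟩ := hj
      rw [Set.eq_empty_iff_forall_notMem]
      rintro x ⟨hx, hxN⟩
      obtain ⟨y, hy, hyN⟩ := hPE L U hW hNE (σ ⁻¹' N) a a a hN' hRpN subset_rfl subset_rfl haf haN
        w' (w j) t' (t j) hw' (hw j) u' hu' (u j) (hu j)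
        (tra a u' (e j) (u j) haf hu'v (nsb1 _ _ _ (hnn j))) x hx hxN
      have h3 : y ∈ Ge L ∅ (w j) (t j) a ∩ σ ⁻¹' N := ⟨hy, hyN⟩
      rw [homN j] at h3
      exact h3
  have c1 := mc_code hNSB hGEX hGER hTRA hSDI hPE hW hNE hM haf haM hRp hom hV'
  have c2 := mc_code hNSB hGEX hGER hTRA hSDI hPE hW hNE hN' haf haN hRpN homN' hV'
  have hVV : {v | v ∈ V ∧ ∃ (w : U) (t : Bool), ¬ SD L ∅ w t ∧ OpE L w t (σ ⁻¹' N) ∧
      ∃ u ∈ Ge L ∅ w t a, Nn L a u v} = {v | v ∈ V ∧ ∃ (w : U) (t : Bool), ¬ SD L ∅ w t ∧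
        OpE L w t M ∧ ∃ u ∈ Ge L ∅ w t a, Nn L a u v} := by
    ext v
    constructor
    · rintro ⟨h1, w, t, h2, h3, h4⟩
      exact ⟨h1, w, t, h2, mc_ope hORB hGEX hGER hW hEs w t h3, h4⟩
    · rintro ⟨h1, w, t, h2, h3, h4⟩
      exact ⟨h1, w, t, h2, mc_ope hORB hGEX hGER hW hE' w t h3, h4⟩
  rw [hVV] at c2
  exact mc_isoM_trans (hBF L U hW hNE a _ M (σ ⁻¹' N) haf c1 c2) (mc_pre_iso σ N)

end Pool.Agent.WOM
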