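import Pool.Agent.WOL.MC2
import Pool.Agent.WOM.StC
import Pool.Agent.WOM.BFM

/-!
WOL, MC3 (helper73): models with finitely many gaps and the same omitted finite sets of types are
isomorphic (no adic types).
-/

set_option autoImplicit false
set_option linter.unusedVariables false

namespace Pool.Agent.WOM

open FirstOrder.Language Set
open scoped FirstOrder

section defs

variable (L : FirstOrder.Language.{0, 0}) {U : Type} [L.Structure U]

/-- gap data: finitely many gaps of `M` over the finite set `B` such that every gap of `M` is not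
orthogonal to one of them -/
structure Mcd (M B : Set U) {k : ℕ} (v : Fin k → U) : Prop where
  fin : B.Finite
  sub : B ⊆ M
  unc : ∀ j, Unc L B (v j) M
  nis : ∀ j, ¬ Isd L B (v j)
  cov : ∀ (B' : Set U) (w : U), B'.Finite → B ⊆ B' → B' ⊆ M → Unc L B' w M →
    ¬ Isd L B' w → ∃ j, Nn L B' w (v j)

/-- finitely many pairwise orthogonal gaps of `M` over the finite set `B` -/
structure Mcf (M B : Set U) {k : ℕ} (v : Fin k → U) : Prop where
  fin : B.Finite
  sub : B ⊆ M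
  unc : ∀ j, Unc L B (v j) M
  nis : ∀ j, ¬ Isd L B (v j)
  wo : ∀ i j, i ≠ j → ¬ Nn L B (v i) (v j)

/-- the number of the gaps which are not definable from both sides -/
noncomputable def Mcc [LinearOrder U] (B : Set U) {k : ℕ} (v : Fin k → U) : ℕ :=
  {i | ¬ SD L B (v i) true ∧ ¬ SD L B (v i) false}.ncard

end defs

/-! ### Isomorphism from gap data (as FCG.lean) -/

private theorem mc_forth (hORB : St_ORB) (hNSB : St_NSB) (hCNV : St_CNV) (hSDI : St_SDI)
    (hUNG : St_UNG) (L : FirstOrder.Language.{0, 0}) (U : Type) [L.Structure U] [LinearOrder U]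
    (hU : Wm L U) (M M' B : Set U) {k : ℕ} (v : Fin k → U)
    (hM : IsEl L M) (hM' : IsEl L M') (hk : Mcd L M B v) (hk' : Mcd L M' B v)
    (A : Set U) (g : U ≃[L] U) (hA : A.Finite) (hAM : A ⊆ M) (hkA : B ⊆ A)
    (hgk : ∀ b ∈ B, g b = b) (hgA : g '' A ⊆ M') (a : U) (ha : a ∈ M) :
    ∃ g' : U ≃[L] U, (∀ b ∈ A, g' b = g b) ∧ g' a ∈ M' := by
  obtain ⟨o1, o2, o3, o4, o5, o6, o7, o8, o9⟩ := hORB L U hU.mon
  obtain ⟨n1, n2, n3, n4, n5, n6⟩ := hNSB L U
  obtain ⟨-, c2⟩ := hCNV L U hU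
  obtain ⟨s1, s2, s3, s4, s5⟩ := hSDI L U hU
  have hgAf : (g '' A).Finite := hA.image g
  by_cases hex : ∃ a' ∈ M', a' ∈ Orb L (g '' A) (g a)
  · obtain ⟨a', ha', τ, hτ, hτa⟩ := hex
    refine ⟨τ.comp g, fun b hb => ?_, ?_⟩
    · show τ (g b) = g b
      exact hτ _ (mem_image_of_mem g hb)
    · show τ (g a) ∈ M'
      rw [hτa]
      exact ha'
  exfalso
  have hG : Orb L (g '' A) (g a) ∩ M' = ∅ := by
    rw [Set.eq_empty_iff_forall_notMem]
    rintro u ⟨hu1, hu2⟩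
    exact hex ⟨u, hu2, hu1⟩
  have hnI : ¬ Isd L (g '' A) (g a) := by
    intro hI
    obtain ⟨u, hu⟩ := hM' _ (hI.mono hgA) ⟨g a, o1 _ _⟩
    rw [hG] at hu
    exact hu
  obtain ⟨t, ht⟩ : ∃ t, ¬ SD L (g '' A) (g a) t := by
    by_contra hc
    push Not at hc
    exact hnI ((s1 _ _ hgAf).2 ⟨hc true, hc false⟩)
  obtain ⟨D, hD, hAD, hDM, hunc, hside⟩ := hUNG L U hU M' (Orb L (g '' A) (g a)) (g '' A) hM'
    (c2 _ _ hgAf).1 ⟨g a, o1 _ _⟩ hG hgAf hgA (fun u hu => (o2 _ _ _ hu).subset)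
  obtain ⟨w, hwG, hwS, -⟩ := hside t
  have hwGe : w ∈ Ge L (g '' A) (g a) t D := ⟨hwG, hwS⟩
  have hw2 : ¬ SD L D w t := fun h => ht ((s2 _ _ _ _ _ hAD hD hwGe).1 h)
  have hw3 : ¬ Isd L D w := by
    intro h
    have h4 := (s1 _ _ hD).1 h
    rcases t with _ | _
    · exact hw2 h4.2
    · exact hw2 h4.1
  have hkg : B ⊆ g '' A := fun b hb => ⟨b, hkA hb, hgk b hb⟩
  obtain ⟨j, hj⟩ := hk'.cov D w hD (hkg.trans hAD) hDM (hunc w hwG) hw3
  have h1 : Nn L (g '' A) w (v j) := by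
    by_contra hc
    exact n6 hU.na _ _ _ _ hAD hD hc hj
  have h2 : Nn L (g '' A) (g a) (v j) := by
    refine n2 _ _ _ _ _ ?_ (o1 _ _) h1
    rw [o2 _ _ _ hwG]
    exact o1 _ _
  have h3 := n3 g.symm _ _ _ h2
  have e1 : g.symm '' (g '' A) = A := by
    rw [image_image]
    simp
  rw [e1, FirstOrder.Language.Equiv.symm_apply_apply] at h3
  have hU1 := hk.unc j
  have hA1 : Orb L A (v j) = Orb L B (v j) := hU1 A hA hkA hAM
  have h4 : g.symm (v j) ∈ Orb L B (v j) := by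
    refine ⟨g.symm, fun b hb => ?_, rfl⟩
    have := hgk b hb
    calc g.symm b = g.symm (g b) := by rw [this]
      _ = b := FirstOrder.Language.Equiv.symm_apply_apply _ _
  have h5 : Nn L A a (v j) := by
    refine n2 _ _ _ _ _ (o1 _ _) ?_ h3
    rw [← hA1] at h4
    rw [o2 _ _ _ h4]
    exact o1 _ _
  apply h5
  rw [hA1]
  exact hU1 (insert a A) (hA.insert a) (hkA.trans (subset_insert _ _)) (insert_subset ha hAM)

theorem mc_gd_iso (hORB : St_ORB) (hNSB : St_NSB) (hCNV : St_CNV) (hSDI : St_SDI)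
    (hUNG : St_UNG) (L : FirstOrder.Language.{0, 0}) (U : Type) [L.Structure U] [LinearOrder U]
    (hU : Wm L U) (M M' B : Set U) {k : ℕ} (v : Fin k → U) (hM : IsEl L M) (hM' : IsEl L M')
    (hk : Mcd L M B v) (hk' : Mcd L M' B v) : IsoM L M M' := by
  have hcU : Countable U := hU.mon.ctb
  refine thm_BFM L U M M' (Set.to_countable _) (Set.to_countable _)
    (fun A g => B ⊆ A ∧ (∀ b ∈ B, g b = b) ∧ g '' A ⊆ M')
    ?_ ?_ ?_ ?_
  · refine ⟨B, FirstOrder.Language.Equiv.refl L U, hk.fin, hk.sub,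
      subset_rfl, fun b _ => rfl, ?_⟩
    rintro _ ⟨b, hb, rfl⟩
    exact hk'.sub hb
  · rintro A g hA hAM ⟨-, -, h⟩
    exact h
  · rintro A g hA hAM ⟨h1, h2, h3⟩ x hx
    obtain ⟨g', hg1, hg2⟩ := mc_forth hORB hNSB hCNV hSDI hUNG L U hU M M' B v hM hM' hk hk'
      A g hA hAM h1 h2 h3 x hx
    refine ⟨g', hg1, h1.trans (subset_insert _ _), fun b hb => ?_, ?_⟩
    · rw [hg1 b (h1 hb)]
      exact h2 b hb
    · rintro _ ⟨b, rfl | hb, rfl⟩
      · exact hg2
      · rw [hg1 b hb]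
        exact h3 ⟨b, hb, rfl⟩
  · rintro A g hA hAM ⟨h1, h2, h3⟩ y hy
    have e1 : g.symm '' (g '' A) = A := by
      rw [image_image]
      simp
    obtain ⟨h, hh1, hh2⟩ := mc_forth hORB hNSB hCNV hSDI hUNG L U hU M' M B v hM' hM hk' hk
      (g '' A) g.symm (hA.image g) h3 (fun b hb => ⟨b, h1 hb, h2 b hb⟩)
      (fun b hb => by
        have := h2 b hb
        calc g.symm b = g.symm (g b) := by rw [this]
          _ = b := FirstOrder.Language.Equiv.symm_apply_apply _ _)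
      (by rw [e1]; exact hAM) y hy
    have hga : ∀ a ∈ A, h.symm a = g a := by
      intro a ha
      have h5 := hh1 (g a) ⟨a, ha, rfl⟩
      rw [FirstOrder.Language.Equiv.symm_apply_apply] at h5
      calc h.symm a = h.symm (h (g a)) := by rw [h5]
        _ = g a := FirstOrder.Language.Equiv.symm_apply_apply _ _
    refine ⟨h.symm, h y, hh2, hga, FirstOrder.Language.Equiv.symm_apply_apply _ _,
      h1.trans (subset_insert _ _), fun b hb => ?_, ?_⟩
    · rw [hga b (h1 hb)]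
      exact h2 b hb
    · rintro _ ⟨b, rfl | hb, rfl⟩
      · rw [FirstOrder.Language.Equiv.symm_apply_apply]
        exact hy
      · rw [hga b hb]
        exact h3 ⟨b, hb, rfl⟩

/-! ### Families of orthogonal gaps -/

section fam

variable {L : FirstOrder.Language.{0, 0}} {U : Type} [L.Structure U] [LinearOrder U]

omit [LinearOrder U] in
/-- larger base -/
theorem mc_unc_up {M B B' : Set U} {w : U} (h : Unc L B w M) (hB' : B'.Finite) (hBB : B ⊆ B')
    (hBM : B' ⊆ M) : Unc L B' w M := by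
  intro D hD h1 h2
  rw [h D hD (hBB.trans h1) h2, h B' hB' hBB hBM]

theorem mc_nis_up (hSDI : St_SDI) (hW : Wm L U) {M B B' : Set U} {w : U} (h : Unc L B w M)
    (hn : ¬ Isd L B w) (hB' : B'.Finite) (hBB : B ⊆ B') (hBM : B' ⊆ M) : ¬ Isd L B' w := by
  obtain ⟨-, -, s3, -⟩ := hSDI L U hW
  intro h1
  exact hn ((s3 B B' w hBB hB' (h B' hB' hBB hBM)).1.1 h1)

/-- the number of the gaps is bounded -/
theorem mc_gf_bd (hNSB : St_NSB) (hTRA : St_TRA) (hSDI : St_SDI) (hW : Wm L U) {M : Set U}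
    (hfin : FinG L M) : ∃ m : ℕ, ∀ (k : ℕ) (B : Set U) (w : Fin k → U), Mcf L M B w → k ≤ m := by
  obtain ⟨n1, n2, n3, n4, n5, n6⟩ := hNSB L U
  obtain ⟨m, v, B₀, hB₀, hBM₀, h1, h2⟩ := hfin
  refine ⟨m, fun k B w h => ?_⟩
  by_contra hlt
  have hf : (B₀ ∪ B).Finite := hB₀.union h.fin
  have hs : B₀ ∪ B ⊆ M := union_subset hBM₀ h.sub
  have h3 : ∀ i : Fin k, ∃ j, Nn L (B₀ ∪ B) (w i) (v j) := fun i =>
    h2 (B₀ ∪ B) (w i) hf subset_union_left hs (mc_unc_up (h.unc i) hf subset_union_right hs)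
      (mc_nis_up hSDI hW (h.unc i) (h.nis i) hf subset_union_right hs)
  choose f hf' using h3
  obtain ⟨i, i', hii, he⟩ := Fintype.exists_ne_map_eq_of_card_lt f (by
    rw [Fintype.card_fin, Fintype.card_fin]
    omega)
  have h4 := hf' i
  have h5 := hf' i'
  rw [← he] at h5
  exact n6 hW.na _ _ _ _ (subset_union_right (s := B₀)) hf (h.wo i i' hii)
    (hTRA L U hW _ _ _ _ hf h4 (n1 _ _ _ h5))

/-- optimal families -/
theorem mc_opt (hNSB : St_NSB) (hTRA : St_TRA) (hSDI : St_SDI) (hW : Wm L U) {M : Set U}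
    (hfin : FinG L M) : ∃ (k : ℕ) (B : Set U) (w : Fin k → U), Mcf L M B w ∧
      (∀ (k' : ℕ) (B' : Set U) (w' : Fin k' → U), Mcf L M B' w' → k' ≤ k) ∧
      ∀ (B' : Set U) (w' : Fin k → U), Mcf L M B' w' → Mcc L B w ≤ Mcc L B' w' := by
  classical
  obtain ⟨m, hm⟩ := mc_gf_bd hNSB hTRA hSDI hW hfin
  let P : ℕ → Prop := fun k => ∃ (B : Set U) (w : Fin k → U), Mcf L M B w
  have h0 : P 0 := by
    refine ⟨∅, Fin.elim0, finite_empty, empty_subset _, fun j => j.elim0, fun j => j.elim0,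
      fun j => j.elim0⟩
  have hk : P (Nat.findGreatest P m) := Nat.findGreatest_spec (Nat.zero_le m) h0
  have hmax : ∀ k', P k' → k' ≤ Nat.findGreatest P m := by
    rintro k' ⟨B', w', h⟩
    exact Nat.le_findGreatest (hm k' B' w' h) ⟨B', w', h⟩
  obtain ⟨k, hk'⟩ : ∃ k, k = Nat.findGreatest P m := ⟨_, rfl⟩
  rw [← hk'] at hk hmax
  let Q : ℕ → Prop := fun l => ∃ (B : Set U) (w : Fin k → U), Mcf L M B w ∧ Mcc L B w = l
  have hQ : ∃ l, Q l := by
    obtain ⟨B, w, h⟩ := hk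
    exact ⟨_, B, w, h, rfl⟩
  obtain ⟨B, w, h1, h2⟩ := Nat.find_spec hQ
  refine ⟨k, B, w, h1, fun k' B' w' h => hmax k' ⟨B', w', h⟩, fun B' w' h => ?_⟩
  rw [h2]
  exact Nat.find_min' hQ ⟨B', w', h, rfl⟩

/-- a family of maximal length covers all gaps -/
theorem mc_gf_gd (hORB : St_ORB) (hNSB : St_NSB) (hSDI : St_SDI) (hW : Wm L U) {M B : Set U}
    {k : ℕ} {w : Fin k → U} (h : Mcf L M B w)
    (hmax : ∀ (k' : ℕ) (B' : Set U) (w' : Fin k' → U), Mcf L M B' w' → k' ≤ k) : Mcd L M B w := by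
  obtain ⟨n1, n2, n3, n4, n5, n6⟩ := hNSB L U
  refine ⟨h.fin, h.sub, h.unc, h.nis, ?_⟩
  intro B' x hB' hBB hBM hx hxi
  by_contra hcon
  push Not at hcon
  have h1 : Mcf L M B' (Fin.snoc w x : Fin (k + 1) → U) := by
    refine ⟨hB', hBM, ?_, ?_, ?_⟩
    · intro j
      refine Fin.lastCases ?_ (fun i => ?_) j
      · rw [Fin.snoc_last]
        exact hx
      · rw [Fin.snoc_castSucc]
        exact mc_unc_up (h.unc i) hB' hBB hBM
    · intro j
      refine Fin.lastCases ?_ (fun i => ?_) j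
      · rw [Fin.snoc_last]
        exact hxi
      · rw [Fin.snoc_castSucc]
        exact mc_nis_up hSDI hW (h.unc i) (h.nis i) hB' hBB hBM
    · intro i j
      refine Fin.lastCases ?_ (fun i => ?_) i
      · refine Fin.lastCases ?_ (fun j => ?_) j
        · intro hne
          exact absurd rfl hne
        · intro _
          rw [Fin.snoc_last, Fin.snoc_castSucc]
          exact hcon j
      · refine Fin.lastCases ?_ (fun j => ?_) j
        · intro _
          rw [Fin.snoc_last, Fin.snoc_castSucc]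
          intro hn
          exact hcon i (n1 _ _ _ hn)
        · intro hne
          rw [Fin.snoc_castSucc, Fin.snoc_castSucc]
          refine n6 hW.na B B' _ _ hBB hB' (h.wo i j ?_)
          rintro rfl
          exact hne rfl
  have h2 := hmax (k + 1) B' _ h1
  omega

/-- transport by an automorphism -/
theorem mc_gf_tr (hORB : St_ORB) (hNSB : St_NSB) (hSDI : St_SDI) (hW : Wm L U) (σ : U ≃[L] U)
    {N B : Set U} {k : ℕ} {w : Fin k → U} (h : Mcf L (σ ⁻¹' N) B w) :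
    Mcf L N (σ '' B) (fun j => σ (w j)) ∧ Mcc L (σ '' B) (fun j => σ (w j)) = Mcc L B w := by
  obtain ⟨o1, o2, o3, o4, o5, o6, o7, o8, o9⟩ := hORB L U hW.mon
  obtain ⟨n1, n2, n3, n4, n5, n6⟩ := hNSB L U
  obtain ⟨s1, s2, s3, s4, s5⟩ := hSDI L U hW
  refine ⟨⟨h.fin.image σ, ?_, ?_, ?_, ?_⟩, ?_⟩
  · rintro _ ⟨b, hb, rfl⟩
    exact h.sub hb
  · intro j D hD hBD hDN
    have e1 : σ '' (σ ⁻¹' D) = D := mc_img σ D
    have h1 : Orb L (σ ⁻¹' D) (w j) = Orb L B (w j) := by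
      refine h.unc j _ (hD.preimage σ.injective.injOn) ?_ (preimage_mono hDN)
      intro b hb
      exact hBD ⟨b, hb, rfl⟩
    have h2 := o4 σ (σ ⁻¹' D) (w j)
    rw [e1, h1, ← o4] at h2
    exact h2
  · intro j hj
    exact h.nis j ((s4 σ B (w j)).1.1 hj)
  · intro i j hij hn
    apply h.wo i j hij
    have h1 := n3 σ.symm _ _ _ hn
    have e1 : σ.symm '' (σ '' B) = B := by
      rw [image_image]
      simp
    rw [e1, FirstOrder.Language.Equiv.symm_apply_apply,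
      FirstOrder.Language.Equiv.symm_apply_apply] at h1
    exact h1
  · unfold Mcc
    congr 1
    ext i
    exact and_congr (not_congr ((s4 σ B (w i)).2 true)) (not_congr ((s4 σ B (w i)).2 false))

/-- UNG for finitely many types -/
theorem mc_ung (hORB : St_ORB) (hCNV : St_CNV) (hUNG : St_UNG) (hW : Wm L U) {M B : Set U}
    (hM : IsEl L M) (hB : B.Finite) (hBM : B ⊆ M) {k : ℕ} (w : Fin k → U)
    (hw : ∀ j, Orb L B (w j) ∩ M = ∅) : ∃ D : Set U, D.Finite ∧ B ⊆ D ∧ D ⊆ M ∧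
      ∀ j, (∀ u ∈ Orb L B (w j), Unc L D u M) ∧ ∀ t : Bool, ∃ x ∈ Orb L B (w j),
        Sd t (Orb L D x) (Orb L B (w j)) ∧ (Orb L D x = Orb L B (w j) ∨ SD L D x (!t)) := by
  obtain ⟨o1, o2, o3, o4, o5, o6, o7, o8, o9⟩ := hORB L U hW.mon
  obtain ⟨-, c2⟩ := hCNV L U hW
  have h1 := fun j => hUNG L U hW M (Orb L B (w j)) B hM (c2 _ _ hB).1 ⟨w j, o1 _ _⟩ (hw j) hB hBM
    (fun u hu => (o2 _ _ _ hu).subset)
  choose D hD hBD hDM hunc hside using h1
  refine ⟨B ∪ ⋃ j, D j, hB.union (finite_iUnion hD), subset_union_left,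
    union_subset hBM (iUnion_subset hDM), fun j => ?_⟩
  have hsub : D j ⊆ B ∪ ⋃ j, D j := (subset_iUnion D j).trans subset_union_right
  have hf : (B ∪ ⋃ j, D j).Finite := hB.union (finite_iUnion hD)
  have hs : B ∪ ⋃ j, D j ⊆ M := union_subset hBM (iUnion_subset hDM)
  have key : ∀ u ∈ Orb L B (w j), Orb L (B ∪ ⋃ j, D j) u = Orb L (D j) u := fun u hu =>
    hunc j u hu _ hf hsub hs
  refine ⟨fun u hu => mc_unc_up (hunc j u hu) hf hsub hs, fun t => ?_⟩
  obtain ⟨x, hx, h2, h3⟩ := hside j t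
  refine ⟨x, hx, ?_, ?_⟩
  · rw [key x hx]
    exact h2
  · rw [key x hx]
    refine h3.imp id fun h => ?_
    unfold SD at h ⊢
    rw [key x hx]
    exact h.mono hsub

/-- a model omitting the types of an orthogonal family has an orthogonal family of the same length
which is not worse -/
theorem mc_step (hORB : St_ORB) (hNSB : St_NSB) (hCNV : St_CNV) (hSDI : St_SDI) (hUNG : St_UNG)
    (hW : Wm L U) {M B : Set U} (hM : IsEl L M) (hB : B.Finite) (hBM : B ⊆ M) {k : ℕ}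
    {w : Fin k → U} (hw : ∀ j, Orb L B (w j) ∩ M = ∅) (hni : ∀ j, ¬ Isd L B (w j))
    (hwo : ∀ i j, i ≠ j → ¬ Nn L B (w i) (w j)) :
    Mcf L M B w ∨ ∃ (D : Set U) (u : Fin k → U), Mcf L M D u ∧ Mcc L D u < Mcc L B w := by
  obtain ⟨o1, o2, o3, o4, o5, o6, o7, o8, o9⟩ := hORB L U hW.mon
  obtain ⟨n1, n2, n3, n4, n5, n6⟩ := hNSB L U
  obtain ⟨s1, s2, s3, s4, s5⟩ := hSDI L U hW
  obtain ⟨D, hD, hBD, hDM, hall⟩ := mc_ung hORB hCNV hUNG hW hM hB hBM w hw
  have hnD : ∀ j, ∀ u ∈ Orb L B (w j), ¬ Isd L D u := by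
    intro j u hu hI
    obtain ⟨y, hy, hyM⟩ := hM _ (hI.mono hDM) ⟨u, o1 _ _⟩
    have h1 : y ∈ Orb L B (w j) ∩ M := by
      refine ⟨?_, hyM⟩
      have h2 := o3 B D u hBD hy
      rw [o2 _ _ _ hu] at h2
      exact h2
    rw [hw j] at h1
    exact h1
  choose u hu hsd hor using fun j => (hall j).2 true
  choose u' hu' hsd' hor' using fun j => (hall j).2 false
  by_cases hs : ∀ j, Orb L D (u j) = Orb L B (w j)
  · left
    refine ⟨hB, hBM, ?_, hni, hwo⟩
    intro j E hE hBE hEM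
    refine Subset.antisymm (o3 _ _ _ hBE) ?_
    have h1 : Orb L D (w j) = Orb L D (u j) := o2 _ _ _ (by rw [hs j]; exact o1 _ _)
    have h2 : Orb L (D ∪ E) (w j) = Orb L D (w j) :=
      (hall j).1 (w j) (o1 _ _) _ (hD.union hE) subset_union_left (union_subset hDM hEM)
    rw [← hs j, ← h1, ← h2]
    exact o3 _ _ _ subset_union_right
  · right
    push Not at hs
    obtain ⟨j₀, hj₀⟩ := hs
    -- the types which are divided
    have hdiv : ∀ j, Orb L D (u j) ≠ Orb L B (w j) → SD L D (u j) false ∧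
        ¬ SD L B (w j) true ∧ ¬ SD L B (w j) false := by
      intro j hj
      have h1 : SD L D (u j) false := (hor j).resolve_left hj
      have hj' : Orb L D (u' j) ≠ Orb L B (w j) := by
        intro he
        apply hj
        have h2 : u j ∈ Orb L D (u' j) := by
          rw [he]
          exact hu j
        rw [o2 _ _ _ h2, he]
      have h1' : SD L D (u' j) true := (hor' j).resolve_left hj'
      refine ⟨h1, ?_, ?_⟩
      · intro h
        have h2 := (s2 B D (w j) (u j) true hBD hD ⟨hu j, hsd j⟩).2 h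
        exact hnD j (u j) (hu j) ((s1 _ _ hD).2 ⟨h2, h1⟩)
      · intro h
        have h2 := (s2 B D (w j) (u' j) false hBD hD ⟨hu' j, hsd' j⟩).2 h
        exact hnD j (u' j) (hu' j) ((s1 _ _ hD).2 ⟨h1', h2⟩)
    refine ⟨D, u, ⟨hD, hDM, fun j => (hall j).1 _ (hu j), fun j => hnD j _ (hu j), ?_⟩, ?_⟩
    · intro i j hij
      refine n6 hW.na B D _ _ hBD hD ?_
      intro hn
      apply hwo i j hij
      refine n2 _ _ _ _ _ ?_ ?_ hn
      · rw [o2 _ _ _ (hu i)]
        exact o1 _ _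
      · rw [o2 _ _ _ (hu j)]
        exact o1 _ _
    · unfold Mcc
      refine Set.ncard_lt_ncard ?_ (Set.toFinite _)
      refine (Set.ssubset_iff_of_subset ?_).2 ⟨j₀, (hdiv j₀ hj₀).2, fun h =>
        h.2 (hdiv j₀ hj₀).1⟩
      intro i hi
      by_cases hd : Orb L D (u i) = Orb L B (w i)
      · have h1 : Orb L B (u i) = Orb L B (w i) := o2 _ _ _ (hu i)
        have h2 := (s3 B D (u i) hBD hD (hd.trans h1.symm)).2
        have h3 : ∀ t, SD L B (u i) t ↔ SD L B (w i) t := by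
          intro t
          unfold SD
          rw [h1]
        exact ⟨fun h => hi.1 ((h2 true).2 ((h3 true).2 h)), fun h =>
          hi.2 ((h2 false).2 ((h3 false).2 h))⟩
      · exact (hdiv i hd).2

/-- the model `N` has an orthogonal family which is not worse -/
theorem mc_cmp (hORB : St_ORB) (hNSB : St_NSB) (hCNV : St_CNV) (hSDI : St_SDI) (hUNG : St_UNG)
    (hW : Wm L U) {M N B : Set U} (hN : IsEl L N) (hE : EqO L M N) {k : ℕ} {w : Fin k → U}
    (h : Mcf L M B w) : ∃ σ : U ≃[L] U, B ⊆ σ ⁻¹' N ∧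
      (Mcf L (σ ⁻¹' N) B w ∨ ∃ (D : Set U) (u : Fin k → U), Mcf L (σ ⁻¹' N) D u ∧
        Mcc L D u < Mcc L B w) := by
  obtain ⟨o1, o2, o3, o4, o5, o6, o7, o8, o9⟩ := hORB L U hW.mon
  obtain ⟨s1, s2, s3, s4, s5⟩ := hSDI L U hW
  obtain ⟨n, d, hd⟩ := mc_tup h.fin
  have hom : ∀ j, Orb L B (w j) ∩ M = ∅ := by
    intro j
    rw [Set.eq_empty_iff_forall_notMem]
    rintro y ⟨hy, hyM⟩
    have h1 : Orb L (insert y B) (w j) = Orb L B (w j) :=
      h.unc j _ (h.fin.insert y) (subset_insert _ _) (insert_subset hyM h.sub)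
    have h2 : y ∈ Orb L (insert y B) (w j) := by
      rw [h1]
      exact hy
    have h3 : Orb L (insert y B) (w j) = {y} := by
      rw [← o2 _ _ _ h2]
      exact o5 _ _ (mem_insert y B)
    have h4 : w j = y := by
      have h5 := o1 (insert y B) (w j)
      rw [h3] at h5
      exact h5
    have h6 : Orb L B (w j) = {w j} := by
      rw [← h1, h3, h4]
    obtain ⟨t, ht⟩ : ∃ t, ¬ SD L B (w j) t := by
      by_contra hc
      push Not at hc
      exact h.nis j ((s1 _ _ h.fin).2 ⟨hc true, hc false⟩)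
    exact s5 B (w j) t h.fin ht h6
  have hO : Omt L M d w := mc_omt_self d w (by rw [hd]; exact h.sub) fun j => by
    rw [hd]
    exact hom j
  obtain ⟨σ, hσ1, hσ2⟩ := (hE n k d w).1 hO
  have hBN : B ⊆ σ ⁻¹' N := by
    rw [← hd]
    rintro _ ⟨i, rfl⟩
    exact hσ1 i
  refine ⟨σ, hBN, ?_⟩
  refine mc_step hORB hNSB hCNV hSDI hUNG hW (mc_pre_el hORB hW.mon σ hN) h.fin hBN ?_ h.nis h.wo
  intro j
  rw [Set.eq_empty_iff_forall_notMem]
  rintro x ⟨hx, hxN⟩
  have h1 : σ x ∈ Orb L (range fun i => σ (d i)) (σ (w j)) ∩ N := by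
    refine ⟨?_, hxN⟩
    rw [mc_rng, hd, o4]
    exact mem_image_of_mem σ hx
  rw [hσ2 j] at h1
  exact h1

end fam

/-- models with finitely many gaps and the same omitted finite sets of types are isomorphic -/
theorem thm_mcN (hORB : St_ORB) (hNSB : St_NSB) (hCNV : St_CNV) (hTRA : St_TRA) (hSDI : St_SDI)
    (hUNG : St_UNG) :
    ∀ (L : FirstOrder.Language.{0, 0}) (U : Type) [L.Structure U] [LinearOrder U], Wm L U →
      (∀ M : Set U, IsEl L M → FinG L M) →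
      ∀ M N : Set U, IsEl L M → IsEl L N → EqO L M N → IsoM L M N := by
  intro L U _ _ hW hfin M N hM hN hE
  obtain ⟨k, B, w, h1, h2, h3⟩ := mc_opt hNSB hTRA hSDI hW (hfin M hM)
  obtain ⟨k', B', w', h1', h2', h3'⟩ := mc_opt hNSB hTRA hSDI hW (hfin N hN)
  obtain ⟨σ, hσ, hc⟩ := mc_cmp hORB hNSB hCNV hSDI hUNG hW hN hE h1
  obtain ⟨τ, hτ, hc'⟩ := mc_cmp hORB hNSB hCNV hSDI hUNG hW hM
    (fun n m d v => (hE n m d v).symm) h1'
  -- the families in `N` and `M`
  have hd : ∃ (D : Set U) (u : Fin k → U), Mcf L N D u ∧ Mcc L D u ≤ Mcc L B w ∧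
      (Mcf L (σ ⁻¹' N) B w ∨ Mcc L D u < Mcc L B w) := by
    rcases hc with hc | ⟨D, u, hc, hlt⟩
    · obtain ⟨h4, h5⟩ := mc_gf_tr hORB hNSB hSDI hW σ hc
      exact ⟨_, _, h4, h5.le, Or.inl hc⟩
    · obtain ⟨h4, h5⟩ := mc_gf_tr hORB hNSB hSDI hW σ hc
      refine ⟨_, _, h4, ?_, Or.inr ?_⟩
      · rw [h5]
        exact hlt.le
      · rw [h5]
        exact hlt
  have hd' : ∃ (D : Set U) (u : Fin k' → U), Mcf L M D u ∧ Mcc L D u ≤ Mcc L B' w' := by
    rcases hc' with hc | ⟨D, u, hc, hlt⟩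
    · obtain ⟨h4, h5⟩ := mc_gf_tr hORB hNSB hSDI hW τ hc
      exact ⟨_, _, h4, h5.le⟩
    · obtain ⟨h4, h5⟩ := mc_gf_tr hORB hNSB hSDI hW τ hc
      refine ⟨_, _, h4, ?_⟩
      rw [h5]
      exact hlt.le
  obtain ⟨D, u, hD1, hD2, hD3⟩ := hd
  obtain ⟨D', u', hD1', hD2'⟩ := hd'
  have hkk : k = k' := le_antisymm (h2' k D u hD1) (h2 k' D' u' hD1')
  subst hkk
  have h4 : Mcc L B' w' ≤ Mcc L D u := h3' D u hD1
  have h5 : Mcc L B w ≤ Mcc L D' u' := h3 D' u' hD1'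
  have h6 : Mcf L (σ ⁻¹' N) B w := by
    refine hD3.resolve_right ?_
    intro h7
    omega
  have hmax : ∀ (k' : ℕ) (B' : Set U) (w' : Fin k' → U), Mcf L (σ ⁻¹' N) B' w' → k' ≤ k :=
    fun k' B' w' h => h2' k' _ _ (mc_gf_tr hORB hNSB hSDI hW σ h).1
  have g1 := mc_gf_gd hORB hNSB hSDI hW h1 h2
  have g2 := mc_gf_gd hORB hNSB hSDI hW h6 hmax
  exact mc_isoM_trans (mc_gd_iso hORB hNSB hCNV hSDI hUNG L U hW M (σ ⁻¹' N) B w hM
    (mc_pre_el hORB hW.mon σ hN) g1 g2) (mc_pre_iso σ N)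

end Pool.Agent.WOM
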