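import Pool.Agent.WOL.LFC
import Pool.Agent.WOM.NAE
import Pool.Agent.WOL.MC3

/-!
WOL, MC4 (helper73): merged theorem (no adic types, or locally finite convexity, in every countable
saturated model) with the uniqueness of the model with a given theory in `L_1(T)`.
The transfer lemmas are those of MRG.lean (helper8).
-/

set_option autoImplicit false

namespace Pool.Agent.WOM

open FirstOrder.Language Set
open scoped FirstOrder
open Pool.Agent.MTC (L1F)

/-- models with the same omitted finite sets of types are isomorphic -/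
def EqI (L : FirstOrder.Language.{0, 0}) (U : Type) [L.Structure U] : Prop :=
  ∀ M N : Set U, IsEl L M → IsEl L N → EqO L M N → IsoM L M N

/-- THE MERGED THEOREM with Martin's conjecture -/
def St_MRM : Prop :=
  ∀ (L : FirstOrder.Language.{0, 0}) [∀ n, IsEmpty (L.Functions n)]
    [∀ n, Countable (L.Relations n)] (T : L.Theory) (lt : L.Formula (Fin 2)),
    (∀ S : L.Structure ℕ, @FirstOrder.Language.Theory.Model L ℕ S T →
      @WOMin L ℕ S lt ∧ (@SatM L ℕ S → @NoAd L ℕ S lt ∨ @FinC L ℕ S lt)) →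
    (Pool.Agent.Helper6.Str.CtblK (ModK L T) ∧
      ∀ S S' : L.Structure ℕ, @FirstOrder.Language.Theory.Model L ℕ S T →
        @FirstOrder.Language.Theory.Model L ℕ S' T → SL1 L T S S' →
          Nonempty (@FirstOrder.Language.Equiv L ℕ ℕ S S')) ∨
    Pool.Agent.Helper6.Str.PerfK (ModK L T)

/-! ### The two cases -/

/-- no nonconstant codes, finitely many gaps (as CRE.lean) -/
theorem mc_fing (hSDI : St_SDI) (hEQG : St_EQG) (hSCC : St_SCC) (hNCF : St_NCF)
    (L : FirstOrder.Language.{0, 0}) [∀ n, IsEmpty (L.Functions n)] (U : Type)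
    [S : L.Structure U] [LinearOrder U] (hW : Wm L U) (hSc : ScU L S) :
    ∀ M : Set U, IsEl L M → FinG L M := by
  classical
  by_cases hall : ∀ k, AllC L U k
  · exact hSCC L U hW hSc hall
  exfalso
  push Not at hall
  obtain ⟨e1, e2, e3, e4, e5, e6, e7, e8⟩ := hEQG L U hW
  obtain ⟨d1, d2, d3, d4, d5⟩ := hSDI L U hW
  have h0 : AllC L U 0 := by
    intro C x z s hC hsd σ hσ
    have hr : C ∪ range x = C := by rw [range_eq_empty, union_empty]
    rw [hr] at hsd ⊢
    obtain ⟨h1, h2⟩ := e8 σ (C, z, s) hσ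
    have h3 := e6 (C, z, s) hC (d5 C z s hC hsd)
    intro D hD hg hh u hu v hv
    rw [h2 D] at hv
    exact h3 D hD hg hg u hu v hv
  obtain ⟨k, hk, hmin⟩ : ∃ k, ¬ AllC L U k ∧ ∀ j < k, AllC L U j :=
    ⟨Nat.find hall, Nat.find_spec hall, fun j hj => not_not.mp (Nat.find_min hall hj)⟩
  obtain _ | m := k
  · exact hk h0
  unfold AllC at hk
  push Not at hk
  obtain ⟨C, x, z, s, hC, hsd, σ, hσ, hne⟩ := hk
  exact hNCF L U hW hSc C m x z s ⟨hC, hsd, fun j hj => hmin j (Nat.lt_succ_of_le hj), σ, hσ, hne⟩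

/-- the case without adic types -/
def St_mcA : Prop :=
  ∀ (L : FirstOrder.Language.{0, 0}) [∀ n, IsEmpty (L.Functions n)] (U : Type)
    [S : L.Structure U] [LinearOrder U], Wm L U → ScU L S → EqI L U

/-- the case of locally finite convexity -/
def St_mcB : Prop :=
  ∀ (L : FirstOrder.Language.{0, 0}) [∀ n, IsEmpty (L.Functions n)] (U : Type)
    [S : L.Structure U] [LinearOrder U], Wn L U → ScU L S → NE L U → EqI L U

theorem thm_mcA (hORB : St_ORB) (hNSB : St_NSB) (hCNV : St_CNV) (hTRA : St_TRA) (hSDI : St_SDI)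
    (hEQG : St_EQG) (hUNG : St_UNG) (hSCC : St_SCC) (hNCF : St_NCF) : St_mcA := by
  intro L _ U _ _ hW hSc
  exact thm_mcN hORB hNSB hCNV hTRA hSDI hUNG L U hW (mc_fing hSDI hEQG hSCC hNCF L U hW hSc)

theorem thm_mcB (hORB : St_ORB) (hNSB : St_NSB) (hGEX : St_nGEX) (hGER : St_nGER) (hTRA : St_nTRA)
    (hSDI : St_nSDI) (hPE : St_fPE) (hCO : St_fCO) (hBF : St_fBF) (hFC : St_fFC) : St_mcB := by
  intro L _ U _ _ hW hSc hNE
  exact thm_mcL hORB hNSB hGEX hGER hTRA hSDI hPE hCO hBF L U hW hNE (hFC L U hW hSc)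

/-! ### From submodels to structures (as MTC/LFN.lean) -/

/-- structures on `ℕ` with a bijection preserving types are isomorphic -/
theorem mc_str_iso {L : FirstOrder.Language.{0, 0}} (S S' : L.Structure ℕ) (h : ℕ ≃ ℕ)
    (H : ∀ (n : ℕ) (a : Fin n → ℕ), @tp L ℕ S n a = @tp L ℕ S' n (h ∘ a)) :
    Nonempty (@FirstOrder.Language.Equiv L ℕ ℕ S S') := by
  have hf : ∀ (n : ℕ) (a : Fin n → ℕ) (φ : L.Formula (Fin n)),
      @FirstOrder.Language.Formula.Realize L ℕ S (Fin n) φ a ↔
        @FirstOrder.Language.Formula.Realize L ℕ S' (Fin n) φ (h ∘ a) := by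
    intro n a φ
    have h1 : φ ∈ @tp L ℕ S n a ↔ φ ∈ @tp L ℕ S' n (h ∘ a) := by rw [H n a]
    exact h1
  refine ⟨@FirstOrder.Language.Equiv.mk L ℕ ℕ S S' h ?_ ?_⟩
  · intro n F x
    have h1 := hf (n + 1) (Fin.cons (@FirstOrder.Language.Structure.funMap L ℕ S n F x) x)
      (FirstOrder.Language.Formula.graph F)
    have h2 := (@FirstOrder.Language.Formula.realize_graph L ℕ S n F x
      (@FirstOrder.Language.Structure.funMap L ℕ S n F x)).2 rfl
    have h3 := h1.1 h2
    have h4 : (h ∘ (Fin.cons (@FirstOrder.Language.Structure.funMap L ℕ S n F x) x :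
        Fin (n + 1) → ℕ)) = Fin.cons (h (@FirstOrder.Language.Structure.funMap L ℕ S n F x))
          (h ∘ x) := by
      funext i
      refine Fin.cases ?_ (fun i => ?_) i
      · rfl
      · rfl
    rw [h4] at h3
    exact ((@FirstOrder.Language.Formula.realize_graph L ℕ S' n F (h ∘ x)
      (h (@FirstOrder.Language.Structure.funMap L ℕ S n F x))).1 h3).symm
  · intro n R x
    have h1 := hf n x (R.formula fun i => FirstOrder.Language.Term.var i)
    rw [@FirstOrder.Language.Formula.realize_rel L ℕ S, @FirstOrder.Language.Formula.realize_rel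
      L ℕ S'] at h1
    exact h1.symm

/-- isomorphic ranges give isomorphic structures -/
theorem mc_rng_iso {L : FirstOrder.Language.{0, 0}} {U : Type} [L.Structure U]
    {S S' : L.Structure ℕ} {f f' : ℕ → U} (hf : Function.Injective f)
    (hf' : Function.Injective f') (h : ElF L S f) (h' : ElF L S' f')
    (hM : IsoM L (range f) (range f')) : Nonempty (@FirstOrder.Language.Equiv L ℕ ℕ S S') := by
  obtain ⟨e, he⟩ := hM
  let E : ℕ ≃ ℕ := (Equiv.ofInjective f hf).trans (e.trans (Equiv.ofInjective f' hf').symm)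
  refine mc_str_iso S S' E fun k a => ?_
  rw [h, h']
  have h5 := he k (fun i => Equiv.ofInjective f hf (a i))
  have h7 : ∀ i, (e (Equiv.ofInjective f hf (a i)) : U) = f' (E (a i)) := by
    intro i
    exact (Equiv.apply_ofInjective_symm hf' (e (Equiv.ofInjective f hf (a i)))).symm
  have h8 : (fun i => (e (Equiv.ofInjective f hf (a i)) : U)) = f' ∘ (E ∘ a) := by
    funext i
    exact h7 i
  rw [h8] at h5
  exact h5

/-- the first-order theory -/
theorem mc_ths {L : FirstOrder.Language.{0, 0}} {T : L.Theory} {S S' : L.Structure ℕ}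
    (hE : SL1 L T S S') : ThS L S = ThS L S' := by
  ext φ
  have h1 := hE (.fo (φ.relabel (Empty.elim : Empty → Fin 0))) trivial
  have h2 : ∀ R : L.Structure ℕ,
      (@L1F.Sat L ℕ R 0 (.fo (φ.relabel (Empty.elim : Empty → Fin 0))) Fin.elim0 ↔
        φ ∈ ThS L R) := by
    intro R
    let _ : L.Structure ℕ := R
    show FirstOrder.Language.Formula.Realize (φ.relabel (Empty.elim : Empty → Fin 0))
      (Fin.elim0 : Fin 0 → ℕ) ↔ _
    rw [FirstOrder.Language.Formula.realize_relabel]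
    refine Iff.trans ?_ (@FirstOrder.Language.mem_completeTheory L ℕ R φ).symm
    refine iff_of_eq (congrArg (FirstOrder.Language.Formula.Realize φ) ?_)
    exact Subsingleton.elim _ _
  exact (h2 S).symm.trans (h1.trans (h2 S'))

/-! ### Transfer (as MRG.lean) -/

section

variable {L : FirstOrder.Language.{0, 0}} {M N : Type} [L.Structure M] [L.Structure N]

private theorem mrm_def {α : Type} (g : M ≃[L] N) (A : Set M) (s : Set (α → M))
    (h : A.Definable L s) :
    (g '' A).Definable L {v : α → N | (fun i => g.symm (v i)) ∈ s} := by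
  rw [Set.definable_iff_exists_formula_sum] at h ⊢
  obtain ⟨φ, hφ⟩ := h
  refine ⟨φ.relabel (Sum.map (fun a : A => (⟨g a, mem_image_of_mem g a.2⟩ : ↥(g '' A))) id), ?_⟩
  ext v
  rw [Set.mem_ofPred_eq, Set.mem_ofPred_eq, FirstOrder.Language.Formula.realize_relabel]
  have h2 : (fun i => g.symm (v i)) ∈ s ↔
      φ.Realize (Sum.elim (fun a : A => (a : M)) (fun i => g.symm (v i))) := by
    rw [hφ]
    rfl
  have h3 : φ.Realize (Sum.elim (fun a : A => (a : M)) (fun i => g.symm (v i))) ↔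
      φ.Realize (g ∘ Sum.elim (fun a : A => (a : M)) (fun i => g.symm (v i))) :=
    (FirstOrder.Language.StrongHomClass.realize_formula g φ).symm
  have h4 : g ∘ Sum.elim (fun a : A => (a : M)) (fun i => g.symm (v i)) =
      Sum.elim (fun a : ↥(g '' A) => (a : N)) v ∘
        Sum.map (fun a : A => (⟨g a, mem_image_of_mem g a.2⟩ : ↥(g '' A))) id := by
    funext i
    rcases i with a | i
    · rfl
    · show g (g.symm (v i)) = v i
      exact g.apply_symm_apply _
  rw [← h4, ← h3, ← h2]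

private theorem mrm_sat (g : M ≃[L] N) (h : SatM L M) : SatM L N := by
  intro A hA F hF hfip
  have key : (⋂₀ ((fun s => g.symm '' s) '' F)).Nonempty := by
    refine h (g.symm '' A) (hA.image _) _ ?_ ?_
    · rintro _ ⟨s, hs, rfl⟩
      exact TRW_def g.symm A s (hF s hs)
    · intro G hG hGf
      have key2 : (⋂₀ ((fun t => g '' t) '' G)).Nonempty := by
        refine hfip _ ?_ (hGf.image _)
        rintro _ ⟨t, ht, rfl⟩
        obtain ⟨s, hs, rfl⟩ := hG ht
        have h1 : g '' (g.symm '' s) = s := by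
          rw [image_image]
          simp only [g.apply_symm_apply]
          exact image_id' s
        show g '' (g.symm '' s) ∈ F
        rw [h1]
        exact hs
      obtain ⟨y, hy⟩ := key2
      refine ⟨g.symm y, fun t ht => ?_⟩
      obtain ⟨x, hx, hxy⟩ : y ∈ g '' t := hy _ (mem_image_of_mem _ ht)
      rw [← hxy, g.symm_apply_apply]
      exact hx
  obtain ⟨x, hx⟩ := key
  refine ⟨g x, fun s hs => ?_⟩
  have h1 : x ∈ g.symm '' s := hx _ (mem_image_of_mem _ hs)
  exact (TRW_mem g s x).1 h1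

private theorem mrm_typ (g : M ≃[L] N) (A : Set M) (a : M) :
    g '' {x | Eqv L A a x} = {x | Eqv L (g '' A) (g a) x} := by
  ext y
  constructor
  · rintro ⟨x, hx, rfl⟩
    exact TRW_eqv g A a x hx
  · intro hy
    have h1 := TRW_eqv g.symm (g '' A) (g a) y hy
    rw [TRW_sym, g.symm_apply_apply] at h1
    exact ⟨g.symm y, h1, g.apply_symm_apply _⟩

private theorem mrm_cv (g : M ≃[L] N) (lt : L.Formula (Fin 2)) (P : Set M) (E : M → M → Prop)
    (h : CvE L lt P E) : CvE L lt (g '' P) (fun x y => E (g.symm x) (g.symm y)) := by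
  obtain ⟨h1, h2, h3, h4⟩ := h
  refine ⟨?_, ?_, ?_, ?_⟩
  · rintro _ ⟨x, hx, rfl⟩
    simp only [g.symm_apply_apply]
    exact h1 x hx
  · rintro _ ⟨x, hx, rfl⟩ _ ⟨y, hy, rfl⟩
    simp only [g.symm_apply_apply]
    exact h2 x hx y hy
  · rintro _ ⟨x, hx, rfl⟩ _ ⟨y, hy, rfl⟩ _ ⟨w, hw, rfl⟩
    simp only [g.symm_apply_apply]
    exact h3 x hx y hy w hw
  · rintro _ ⟨x, hx, rfl⟩ _ ⟨y, hy, rfl⟩ _ ⟨w, hw, rfl⟩ hxy hyw
    simp only [g.symm_apply_apply]
    exact h4 x hx y hy w hw ((TRW_lt g lt x y).2 hxy) ((TRW_lt g lt y w).2 hyw)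

private theorem mrm_fin (g : M ≃[L] N) (lt : L.Formula (Fin 2)) (h : FinC L N lt) :
    FinC L M lt := by
  intro A a hA
  refine Set.Finite.of_injOn (f := fun R : Set (M × M) => Prod.map g g '' R) ?_
    ((g.injective.prodMap g.injective).image_injective.injOn) (h (g '' A) (g a) (hA.image g))
  rintro _ ⟨E, hE, hcv, rfl⟩
  refine ⟨fun x y => E (g.symm x) (g.symm y), mrm_def g A _ hE, ?_, ?_⟩
  · rw [← mrm_typ]
    exact mrm_cv g lt _ E hcv
  · have h1 : ∀ y, Eqv L (g '' A) (g a) y ↔ Eqv L A a (g.symm y) := by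
      intro y
      constructor
      · intro hy
        have h2 : y ∈ g '' {x | Eqv L A a x} := by
          rw [mrm_typ]
          exact hy
        obtain ⟨x, hx, rfl⟩ := h2
        rw [g.symm_apply_apply]
        exact hx
      · intro hy
        have h2 := TRW_eqv g A a _ hy
        rwa [g.apply_symm_apply] at h2
    ext ⟨x, y⟩
    constructor
    · rintro ⟨⟨x', y'⟩, ⟨hx, hy, hxy⟩, heq⟩
      have e1 : g x' = x := congrArg Prod.fst heq
      have e2 : g y' = y := congrArg Prod.snd heq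
      subst e1
      subst e2
      refine ⟨?_, ?_, ?_⟩
      · show Eqv L (g '' A) (g a) (g x')
        rw [h1, g.symm_apply_apply]
        exact hx
      · show Eqv L (g '' A) (g a) (g y')
        rw [h1, g.symm_apply_apply]
        exact hy
      · show E (g.symm (g x')) (g.symm (g y'))
        rw [g.symm_apply_apply, g.symm_apply_apply]
        exact hxy
    · rintro ⟨hx, hy, hxy⟩
      exact ⟨(g.symm x, g.symm y), ⟨(h1 x).1 hx, (h1 y).1 hy, hxy⟩,
        Prod.ext (g.apply_symm_apply x) (g.apply_symm_apply y)⟩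

private theorem mrm_na (g : M ≃[L] N) (lt : L.Formula (Fin 2)) (h : NoAd L N lt) :
    NoAd L M lt := by
  intro A P Q a c E hA hP hQ hc hE hcv hcmp
  have hc' := TRW_cpl g A _ c hc
  rw [image_insert_eq] at hc'
  have key := h (g '' A) (g '' P) (g '' Q) (g a) (g c)
    (fun z x y => E (g.symm z) (g.symm x) (g.symm y)) (hA.image g) (by rw [hP, mrm_typ])
    (by rw [hQ, mrm_typ]) hc' (mrm_def g A _ hE) ?_ ?_
  · intro z hz z' hz' x hx y hy hxy
    have k := key (g z) (mem_image_of_mem g hz) (g z') (mem_image_of_mem g hz') (g x)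
      (mem_image_of_mem g hx) (g y) (mem_image_of_mem g hy)
    simp only [g.symm_apply_apply] at k
    exact k hxy
  · rintro _ ⟨z, hz, rfl⟩
    simp only [g.symm_apply_apply]
    exact mrm_cv g lt P (E z) (hcv z hz)
  · rintro _ ⟨z, hz, rfl⟩ _ ⟨z', hz', rfl⟩
    simp only [g.symm_apply_apply]
    rcases hcmp z hz z' hz' with k | k
    · left
      rintro _ ⟨x, hx, rfl⟩ _ ⟨y, hy, rfl⟩
      simp only [g.symm_apply_apply]
      exact k x hx y hy
    · right
      rintro _ ⟨x, hx, rfl⟩ _ ⟨y, hy, rfl⟩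
      simp only [g.symm_apply_apply]
      exact k x hx y hy

end


private theorem mrm_tr (L : FirstOrder.Language.{0, 0}) (T : L.Theory) (lt : L.Formula (Fin 2))
    (h : ∀ S : L.Structure ℕ, @FirstOrder.Language.Theory.Model L ℕ S T →
      @WOMin L ℕ S lt ∧ (@SatM L ℕ S → @NoAd L ℕ S lt ∨ @FinC L ℕ S lt))
    (U : Type) [L.Structure U] (hc : Countable U) (hi : Infinite U) (hT : U ⊨ T)
    (hsat : SatM L U) : WOMin U lt ∧ (NoAd L U lt ∨ FinC L U lt) := by
  obtain ⟨e⟩ : Nonempty (U ≃ ℕ) := nonempty_equiv_of_countable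
  let S : L.Structure ℕ := e.inducedStructure
  let g : U ≃[L] ℕ := e.inducedStructureEquiv
  have h1 : ℕ ⊨ T := FirstOrder.Language.StrongHomClass.theory_model g
  obtain ⟨h2, h3⟩ := h S h1
  exact ⟨TRW_wo g lt h2, (h3 (mrm_sat g hsat)).imp (mrm_na g lt) (mrm_fin g lt)⟩

section
variable {L : FirstOrder.Language.{0, 0}}

private theorem mrm_mono {S : L.Structure ℕ} {T : L.Theory}
    (hS : @FirstOrder.Language.Theory.Model L ℕ S T) (S' : L.Structure ℕ)
    (h : @FirstOrder.Language.Theory.Model L ℕ S' (ThS L S)) :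
    @FirstOrder.Language.Theory.Model L ℕ S' T := by
  refine ⟨fun φ hφ => h.1 φ ?_⟩
  exact hS.1 φ hφ

private theorem mrm_realize (S : L.Structure ℕ) (σ : L.Sentence) :
    σ ∈ ThS L S ↔
      FirstOrder.Language.Formula.relabel (Empty.elim : Empty → Fin 0) σ ∈
        @tp L ℕ S 0 Fin.elim0 := by
  have h5 := @FirstOrder.Language.Formula.realize_relabel L ℕ S Empty (Fin 0) σ
    (Empty.elim : Empty → Fin 0) Fin.elim0
  have h8 : σ ∈ ThS L S ↔ @FirstOrder.Language.Sentence.Realize L ℕ S σ := Iff.rfl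
  refine h8.trans (Iff.trans ?_ h5.symm)
  unfold FirstOrder.Language.Sentence.Realize
  rw [Subsingleton.elim (Fin.elim0 ∘ (Empty.elim : Empty → Fin 0) : Empty → ℕ)]

private theorem mrm_th {S S' : L.Structure ℕ}
    (h : @tp L ℕ S 0 Fin.elim0 = @tp L ℕ S' 0 Fin.elim0) : ThS L S = ThS L S' := by
  ext σ
  rw [mrm_realize, mrm_realize, h]

end

theorem thm_MRM' (hULT : St_ULT) (hSUBM : St_SUBM) (hHOMG : St_HOMG) (hTRC : St_TRC)
    (hEMB : St_EMB) (hWN : St_fWN) (hSWN : St_SWN) (hSML : St_SML) (hSCU : St_SCU)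
    (hMSB : St_MSB) (hCT : St_fCT) (hCRE : St_CRE) (hA : St_mcA) (hB : St_mcB) : St_MRM := by
  intro L _ _ T lt hT
  by_cases hP : Pool.Agent.Helper6.Str.PerfK (ModK L T)
  · exact Or.inr hP
  have hScat : Pool.Agent.Helper79.VC.Scat (ModK L T) :=
    Pool.Agent.Helper79.VC.scat_of_not_perf (hMSB L T) hP
  have hsmall : Small L T := hSML L T hScat
  have hcs : Countable L.Symbols := by
    unfold FirstOrder.Language.Symbols
    infer_instance
  have key : ∀ S : L.Structure ℕ, @FirstOrder.Language.Theory.Model L ℕ S T →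
      ∃ (U : Type) (_ : L.Structure U), Mon L U ∧ U ⊨ T ∧ U ⊨ ThS L S ∧ CtU L U ∧ EqI L U := by
    intro S hS
    obtain ⟨V, instV, hVne, hVm, hVs⟩ := hULT L hcs S
    have hsm : Small L (ThS L S) := by
      refine hsmall.mono ?_
      rintro p ⟨S', hS', a, ha⟩
      exact ⟨S', mrm_mono hS S' hS', a, ha⟩
    obtain ⟨U, instU, hUc, hUi, hUm, hUs⟩ := hSUBM L hcs S hsm V hVm hVs
    have hMon : Mon L U := hHOMG L U hUc hUi hUs
    have hUT : U ⊨ T := ⟨fun φ hφ => hUm.1 φ (hS.1 φ hφ)⟩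
    obtain ⟨hw, hfc⟩ := mrm_tr L T lt hT U hUc hUi hUT hMon.sat
    have hscu : ScU L instU := hSCU L T U hScat hMon hUT
    rcases hfc with hfc | hfc
    · obtain ⟨lo, hWm⟩ := hSWN L U lt hMon hw hfc hscu
      exact ⟨U, instU, hMon, hUT, hUm, hCRE L U hWm hscu, hA L U hWm hscu⟩
    · obtain ⟨lo, hWn, hNE⟩ := hWN L U lt hMon hw hfc hscu
      exact ⟨U, instU, hMon, hUT, hUm, hCT L U hWn hscu hNE, hB L U hWn hscu hNE⟩
  refine Or.inl ⟨?_, ?_⟩
  · -- the theories of the models
    have hct : {p : (n : ℕ) × Set (L.Formula (Fin n)) | ∃ S : L.Structure ℕ,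
        @FirstOrder.Language.Theory.Model L ℕ S T ∧
          p = ⟨0, @tp L ℕ S 0 Fin.elim0⟩}.Countable := by
      refine hsmall.mono ?_
      rintro p ⟨S, hS, rfl⟩
      exact ⟨S, hS, Fin.elim0, rfl⟩
    have key' : ∀ S : L.Structure ℕ, @FirstOrder.Language.Theory.Model L ℕ S T →
        CtT L (ThS L S) := by
      intro S hS
      obtain ⟨U, instU, hMon, hUT, hUm, hCtU, -⟩ := key S hS
      exact hTRC L U hMon hCtU S hUm
    choose c hc1 hc2 using fun z : ↥{p : (n : ℕ) × Set (L.Formula (Fin n)) | ∃ S : L.Structure ℕ,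
        @FirstOrder.Language.Theory.Model L ℕ S T ∧ p = ⟨0, @tp L ℕ S 0 Fin.elim0⟩} => z.2
    choose g hg using fun z => key' (c z) (hc1 z)
    have hcount := hct.to_subtype
    have hne : Nonempty (L.Structure ℕ) := ⟨Pool.Agent.Helper6.Str.toStr (fun _ => true)⟩
    obtain ⟨G, hG⟩ := (countable_iff_exists_subset_range (α := L.Structure ℕ)).1
      (countable_range (fun p : ↥{p : (n : ℕ) × Set (L.Formula (Fin n)) | ∃ S : L.Structure ℕ,
        @FirstOrder.Language.Theory.Model L ℕ S T ∧ p = ⟨0, @tp L ℕ S 0 Fin.elim0⟩} × ℕ =>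
        g p.1 p.2))
    refine ⟨G, fun S hS => ?_⟩
    let z : ↥{p : (n : ℕ) × Set (L.Formula (Fin n)) | ∃ S : L.Structure ℕ,
        @FirstOrder.Language.Theory.Model L ℕ S T ∧ p = ⟨0, @tp L ℕ S 0 Fin.elim0⟩} :=
      ⟨⟨0, @tp L ℕ S 0 Fin.elim0⟩, S, hS, rfl⟩
    have hz : (⟨0, @tp L ℕ S 0 Fin.elim0⟩ : (n : ℕ) × Set (L.Formula (Fin n))) =
      ⟨0, @tp L ℕ (c z) 0 Fin.elim0⟩ := hc2 z
    have hz' : @tp L ℕ S 0 Fin.elim0 = @tp L ℕ (c z) 0 Fin.elim0 := by
      have := (Sigma.mk.inj_iff.1 hz).2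
      exact eq_of_heq this
    have hSmod : @FirstOrder.Language.Theory.Model L ℕ S (ThS L (c z)) := by
      rw [← mrm_th hz']
      exact ⟨fun φ hφ => hφ⟩
    obtain ⟨n, ⟨e⟩⟩ := hg z S hSmod
    obtain ⟨m, hm⟩ := hG ⟨(z, n), rfl⟩
    refine ⟨m, ?_⟩
    rw [hm]
    have hrel := @FirstOrder.Language.Equiv.map_rel' L ℕ ℕ S (g z n) e
    exact ⟨@FirstOrder.Language.Equiv.toEquiv L ℕ ℕ S (g z n) e, fun k R v => (hrel R v).symm⟩
  · intro S S' hS hS' hE
    have hth : ThS L S = ThS L S' := mc_ths hE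
    obtain ⟨U, instU, hMon, hUT, hUm, -, hI⟩ := key S hS
    have hUm' : U ⊨ ThS L S' := hth ▸ hUm
    obtain ⟨f, hf1, hf2, hf3⟩ := hEMB L U hMon S hUm
    obtain ⟨f', hf1', hf2', hf3'⟩ := hEMB L U hMon S' hUm'
    exact mc_rng_iso hf1 hf1' hf2 hf2' (hI _ _ hf3 hf3' (mc_eqO hMon T hUT hf2 hf2' hE))

end Pool.Agent.WOM
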