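import Pool.Agent.WOL.MC4

/-!
WOL, MC5 (helper73): assembly of the merged theorem with Martin's conjecture (as MRGA.lean, NAM.lean).
-/

set_option autoImplicit false

namespace Pool.Agent.WOM

open FirstOrder.Language Set
open scoped FirstOrder

theorem thm_MRM : St_MRM := by
  have hDEF1 := thm_DEF1 thm_DEFF
  have hORB := thm_ORB hDEF1
  have hDFN := thm_DFN
  have hNSB := thm_NSB
  have hnCNV := thm_nCNV hORB
  have hnEVD := thm_nEVD
  have hnGEX := thm_nGEX hDFN hORB hnCNV hnEVD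
  have hnGER := thm_nGER hORB hnCNV hnGEX
  have hnFFR := thm_nFFR hORB hnCNV hnGEX hnGER
  have hnTRA := thm_nTRA hORB hNSB hnGEX hnGER
  have hnSMA := thm_nSMA hORB hNSB hnGEX hnGER hnFFR
  have hnSMB := thm_nSMB hDFN hORB hnCNV hnGEX hnGER
  have hnSDI := thm_nSDI hDFN hORB hnCNV
  have hnISO := thm_nISO hNSB hnSMA hnSMB hnSDI
  have hnFAR := thm_nFAR hORB hnCNV hnGEX hnGER hnFFR
  have hAUT : ∀ (L : FirstOrder.Language.{0, 0}) (U : Type) [L.Structure U], St_AUT L U :=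
    fun L U _ => thm_AUT thm_DEFF hDEF1 L U
  have hCPL : ∀ (L : FirstOrder.Language.{0, 0}) (U : Type) [L.Structure U], St_CPL L U :=
    fun L U _ => thm_CPL hAUT L U
  have hSCUT := thm_SCUT hORB hnCNV
  have hSBAS := thm_SBAS
  have hSEXT := thm_SEXT hSBAS
  have hSEV := thm_SEV hSBAS
  have hSMOD := thm_SMOD
  have hSIT := thm_SIT hSBAS hSEXT
  have hSCA := thm_SCA hSEV
  have hSEXR := thm_SEXR hSBAS hSEXT
  have hSLP := thm_SLP hSBAS hSEXT hSEV hSIT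
  have hSDA := thm_SDA hSBAS hSEXT hSEV hSEXR
  have hSDB := thm_SDB hSBAS hSEV hSEXR hSDA
  have hSDC := thm_SDC hSBAS hSEXT hSEV hSCA hSDB
  have hSHA := thm_SHA hSBAS hSEXT
  have hSHB := thm_SHB hSBAS hSEXT hSLP
  have hSHC := thm_SHC hSBAS hSEXT hSEXR hSHA
  have hSHD := thm_SHD hSBAS hSEXT hSEV hSHA hSHB
  have hSHE := thm_SHE hSBAS hSEXT
  have hSHF := thm_SHF hSBAS hSEXR hSHE
  have hSHG := thm_SHG hSBAS hSEXR
  have hSHH := thm_SHH hSBAS hSEXT hSEV hSEXR hSIT hSHF hSHG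
  have hSHI := thm_SHI hSBAS hSEXT hSCA hSEXR hSIT hSHA hSHE hSHH
  have hSHK := thm_SHK hSBAS hSEXT hSEV hSDC hSHC hSHD hSHI
  have hSFX := thm_SFX
  have hSQA := thm_SQA hORB hSBAS hSEV hSFX
  have hSQC := thm_SQC hORB hSBAS hSEXT hSQA
  have hSKD := thm_SKD hSBAS hSQA hSQC hSHK
  have hSFR := thm_SFR hSFX
  have hSRB := thm_SRB hSCUT hSBAS hSEXT hSFX hSQA hSQC hSKD hSFR
  have hSRC := thm_SRC hSRB hSFR
  have hSRD := thm_SRD hORB hSCUT hSBAS hSQA hSFR hSRC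
  have hSRE := thm_SRE hSQA hSFR hSRB hSRC
  have hSRF := thm_SRF hSBAS hSEXT hSQA hSQC hSFR hSRC hSRD
  have hSRQ := thm_SRQ hSRE
  have hSAT := thm_SAT hORB hnSDI hnISO
  have hSMM := thm_SMM hSAT
  have hSMJ := thm_SMJ hSRF hSMM
  have hSLE := thm_SLE hSFR hSQA
  have hSNO := thm_SNO hSRQ hSMJ hSLE
  have hSNS := thm_SNS hSNO
  have hSEA := thm_SEA hSFX hnCNV
  have hSEB := thm_SEB hORB hnCNV hnGEX hnFAR
  have hSEH := thm_SEH hnCNV hnEVD hnGEX hnFFR hnFAR hORB hSEA hSEB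
  have hSEQ := thm_SEQ hSEA hSEB hSEH
  have hSDL := thm_SDL
  have hSEZ := thm_SEZ hSNS hSEQ hSDL
  have hSEP := thm_SEP
  have hSTA := thm_STA
  have hSTO := thm_STO hnGER hnSMA hSTA
  have hSTD := thm_STD hORB hNSB hnCNV hnGEX hnGER hnSMA hSEP hSTA
  have hSTF := thm_STF hORB hnCNV hSFX hnGEX hnGER hnFFR hnFAR hSCUT hSEP hSTA
  have hSTG := thm_STG hSEP hSTA
  have hSTH := thm_STH hORB hSFX hnGEX hnGER hnFFR hnFAR hSTA hSTF hSTG hSEZ
  have hSTT := thm_STT hSTO hSTD hSTH hSDL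
  have hOR := thm_fOR hORB hnCNV hSFX thm_SDF hSCUT hSEZ
  have hOS := thm_fOS hSDL hOR
  have hDF := thm_fDF hORB hnCNV hSCUT
  have hCE := thm_fCE hORB hnCNV hSCUT hDF
  have hNE := thm_fNE hORB hnGER hnSDI hSDL hOS hCE
  have hTR := thm_fTR hORB hNSB hSTT
  have hIN := thm_fIN hTR
  have hMS := thm_fMS hORB hNSB hnSDI hSMM hIN
  have hFC := thm_fFC hNSB hMS
  have hSA := thm_fSA hORB hNSB hnGER hnSDI
  have hRE := thm_fRE hORB hnCNV hSCUT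
  have hPE := thm_fPE hnGEX hnGER hnSMA hnSMB hnSDI hSA hRE
  have hCO := thm_fCO hNSB hnGEX hnGER hnTRA hnSDI hPE
  have hBF := thm_fBF hORB hnGEX hnGER hnSDI
  have hCT := thm_fCT hFC hCO hBF
  have hWN := thm_fWN hAUT hNE
  have hSTN := thm_STN hSTT
  have hSGM := thm_SGM
  have hSPA := thm_SPA hORB hNSB hnCNV hSFX hSEZ hSGM
  have hSWN := thm_SWN hAUT hCPL hSPA hSTN
  -- the statements for `Wm`
  have hDNS := thm_DNS hORB
  have hCNV := thm_CNV hORB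
  have hEVD := thm_EVD
  have hGEX := thm_GEX hDFN hORB hCNV hEVD
  have hGER := thm_GER hORB hCNV hGEX
  have hFFR := thm_FFR hORB hCNV hGEX hGER
  have hTRA := thm_TRA hORB hNSB hGEX hGER
  have hSMA := thm_SMA hORB hNSB hGEX hGER hFFR
  have hSMB := thm_SMB hDFN hORB hCNV hGEX hGER
  have hSDI := thm_SDI hDFN hORB hCNV
  have hISO := thm_ISO hNSB hSMA hSMB hSDI
  have hFAR := thm_FAR hORB hCNV hGEX hGER hFFR
  have hEQG := thm_EQG hNSB hCNV hGEX hGER hTRA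
  have hSMG := thm_SMG hNSB hSMA hSMB
  have hLTW := thm_LTW hDFN hORB hCNV
  have hUNG := thm_UNG hDFN hORB hCNV hLTW
  have hCLI := thm_CLI hORB hNSB hCNV hGEX hGER hLTW
  have hVDX := thm_VDX hSDI
  have hGNC := thm_GNC hORB hDNS hNSB hGEX hGER hISO hVDX
  have hOPF := thm_OPF hGNC hVDX
  have hINF := thm_INF hORB hSDI
  have hMSX := thm_MSX hORB hNSB hGEX hGER hSDI hVDX hGNC
  have hLV0 := thm_LV0
  have hLV1 := thm_LV1 hGER hEQG hLV0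
  have hSCC := thm_SCC hNSB hSDI hEQG hCLI hINF hMSX hLV0 hLV1
  have hGAM := thm_GAM
  have hKAP := thm_KAP hGEX hSDI hFAR hEQG
  have hCDN := thm_CDN hORB hNSB hCNV hGEX hGER hFFR hSDI hFAR hEQG hSMG hUNG hKAP
  have hCOR := thm_COR hORB hGEX hGER hSDI hEQG hSMG hGAM hKAP
  have hVCX := thm_VCX hORB hGER hEQG hVDX
  have hNEW := thm_NEW hGEX hGER hSDI hFAR hEQG hSMG hNSB hORB hOPF hGAM hKAP hCDN hCOR
  have hDIC := thm_DIC hORB hGEX hFAR hEQG hKAP hNEW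
  have hMJX := thm_MJX hFAR hVDX hGNC hKAP hVCX
  have hDCA := thm_DCA hORB hNSB hGEX hGER hTRA hEQG hSMG
  have hDCJ := thm_DCJ hNSB hEQG hKAP hDCA
  have hLVP := thm_LVP hNSB hGER hLV0 hLV1
  have hLEJ := thm_LEJ hLV0 hFAR hKAP hDCJ hLVP
  have hNCF := thm_NCF hDIC hMJX hLEJ
  have hmA := thm_mcA hORB hNSB hCNV hTRA hSDI hEQG hUNG hSCC hNCF
  have hmB := thm_mcB hORB hNSB hnGEX hnGER hnTRA hnSDI hPE hCO hBF hFC
  exact thm_MRM' (thm_ULT hDEF1) (thm_SUBM hDEF1) (thm_HOMG hDEF1) (thm_TRC (thm_EMB hDEF1))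
    (thm_EMB hDEF1) hWN hSWN thm_SML (thm_SCU (thm_PULL hDEF1)) thm_MSB hCT thm_CRE' hmA hmB

end Pool.Agent.WOM
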