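import Pool.Agent.WOL.LFC
import Pool.Agent.WOM.NAE

/-!
WOL: merged theorem (no adic types, or locally finite convexity, in every countable saturated
model); the lemmas are those of SRW.lean, fRW.lean, FASE.lean.
-/

set_option autoImplicit false

namespace Pool.Agent.WOM

open FirstOrder.Language Set
open scoped FirstOrder

/-- THE MERGED THEOREM -/
def St_MRG : Prop :=
  ∀ (L : FirstOrder.Language.{0, 0}) [∀ n, IsEmpty (L.Functions n)]
    [∀ n, Countable (L.Relations n)] (T : L.Theory) (lt : L.Formula (Fin 2)),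
    (∀ S : L.Structure ℕ, @FirstOrder.Language.Theory.Model L ℕ S T →
      @WOMin L ℕ S lt ∧ (@SatM L ℕ S → @NoAd L ℕ S lt ∨ @FinC L ℕ S lt)) →
    Pool.Agent.Helper6.Str.CtblK (ModK L T) ∨ Pool.Agent.Helper6.Str.PerfK (ModK L T)

section

variable {L : FirstOrder.Language.{0, 0}} {M N : Type} [L.Structure M] [L.Structure N]

private theorem MRG_def {α : Type} (g : M ≃[L] N) (A : Set M) (s : Set (α → M))
    (h : A.Definable L s) :
    (g '' A).Definable L {v : α → N | (fun i => g.symm (v i)) ∈ s} := by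
  rw [Set.definable_iff_exists_formula_sum] at h ⊢
  obtain ⟨φ, hφ⟩ := h
  refine ⟨φ.relabel (Sum.map (fun a : A => (⟨g a, mem_image_of_mem g a.2⟩ : ↥(g '' A))) id), ?_⟩
  ext v
  rw [Set.mem_ofPred_eq, Set.mem_ofPred_eq, FirstOrder.Language.Formula.realize_relabel]
  have h2 : (fun i => g.symm (v i)) ∈ s ↔
      φ.Realize (Sum.elim (fun a : A => (a : M)) (fun i => g.symm (v i))) := by
    rw [hφ]
    rfl
  have h3 : φ.Realize (Sum.elim (fun a : A => (a : M)) (fun i => g.symm (v i))) ↔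
      φ.Realize (g ∘ Sum.elim (fun a : A => (a : M)) (fun i => g.symm (v i))) :=
    (FirstOrder.Language.StrongHomClass.realize_formula g φ).symm
  have h4 : g ∘ Sum.elim (fun a : A => (a : M)) (fun i => g.symm (v i)) =
      Sum.elim (fun a : ↥(g '' A) => (a : N)) v ∘
        Sum.map (fun a : A => (⟨g a, mem_image_of_mem g a.2⟩ : ↥(g '' A))) id := by
    funext i
    rcases i with a | i
    · rfl
    · show g (g.symm (v i)) = v i
      exact g.apply_symm_apply _
  rw [← h4, ← h3, ← h2]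

private theorem MRG_sat (g : M ≃[L] N) (h : SatM L M) : SatM L N := by
  intro A hA F hF hfip
  have key : (⋂₀ ((fun s => g.symm '' s) '' F)).Nonempty := by
    refine h (g.symm '' A) (hA.image _) _ ?_ ?_
    · rintro _ ⟨s, hs, rfl⟩
      exact TRW_def g.symm A s (hF s hs)
    · intro G hG hGf
      have key2 : (⋂₀ ((fun t => g '' t) '' G)).Nonempty := by
        refine hfip _ ?_ (hGf.image _)
        rintro _ ⟨t, ht, rfl⟩
        obtain ⟨s, hs, rfl⟩ := hG ht
        have h1 : g '' (g.symm '' s) = s := by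
          rw [image_image]
          simp only [g.apply_symm_apply]
          exact image_id' s
        show g '' (g.symm '' s) ∈ F
        rw [h1]
        exact hs
      obtain ⟨y, hy⟩ := key2
      refine ⟨g.symm y, fun t ht => ?_⟩
      obtain ⟨x, hx, hxy⟩ : y ∈ g '' t := hy _ (mem_image_of_mem _ ht)
      rw [← hxy, g.symm_apply_apply]
      exact hx
  obtain ⟨x, hx⟩ := key
  refine ⟨g x, fun s hs => ?_⟩
  have h1 : x ∈ g.symm '' s := hx _ (mem_image_of_mem _ hs)
  exact (TRW_mem g s x).1 h1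

private theorem MRG_typ (g : M ≃[L] N) (A : Set M) (a : M) :
    g '' {x | Eqv L A a x} = {x | Eqv L (g '' A) (g a) x} := by
  ext y
  constructor
  · rintro ⟨x, hx, rfl⟩
    exact TRW_eqv g A a x hx
  · intro hy
    have h1 := TRW_eqv g.symm (g '' A) (g a) y hy
    rw [TRW_sym, g.symm_apply_apply] at h1
    exact ⟨g.symm y, h1, g.apply_symm_apply _⟩

private theorem MRG_cv (g : M ≃[L] N) (lt : L.Formula (Fin 2)) (P : Set M) (E : M → M → Prop)
    (h : CvE L lt P E) : CvE L lt (g '' P) (fun x y => E (g.symm x) (g.symm y)) := by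
  obtain ⟨h1, h2, h3, h4⟩ := h
  refine ⟨?_, ?_, ?_, ?_⟩
  · rintro _ ⟨x, hx, rfl⟩
    simp only [g.symm_apply_apply]
    exact h1 x hx
  · rintro _ ⟨x, hx, rfl⟩ _ ⟨y, hy, rfl⟩
    simp only [g.symm_apply_apply]
    exact h2 x hx y hy
  · rintro _ ⟨x, hx, rfl⟩ _ ⟨y, hy, rfl⟩ _ ⟨w, hw, rfl⟩
    simp only [g.symm_apply_apply]
    exact h3 x hx y hy w hw
  · rintro _ ⟨x, hx, rfl⟩ _ ⟨y, hy, rfl⟩ _ ⟨w, hw, rfl⟩ hxy hyw
    simp only [g.symm_apply_apply]
    exact h4 x hx y hy w hw ((TRW_lt g lt x y).2 hxy) ((TRW_lt g lt y w).2 hyw)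

private theorem MRG_fin (g : M ≃[L] N) (lt : L.Formula (Fin 2)) (h : FinC L N lt) :
    FinC L M lt := by
  intro A a hA
  refine Set.Finite.of_injOn (f := fun R : Set (M × M) => Prod.map g g '' R) ?_
    ((g.injective.prodMap g.injective).image_injective.injOn) (h (g '' A) (g a) (hA.image g))
  rintro _ ⟨E, hE, hcv, rfl⟩
  refine ⟨fun x y => E (g.symm x) (g.symm y), MRG_def g A _ hE, ?_, ?_⟩
  · rw [← MRG_typ]
    exact MRG_cv g lt _ E hcv
  · have h1 : ∀ y, Eqv L (g '' A) (g a) y ↔ Eqv L A a (g.symm y) := by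
      intro y
      constructor
      · intro hy
        have h2 : y ∈ g '' {x | Eqv L A a x} := by
          rw [MRG_typ]
          exact hy
        obtain ⟨x, hx, rfl⟩ := h2
        rw [g.symm_apply_apply]
        exact hx
      · intro hy
        have h2 := TRW_eqv g A a _ hy
        rwa [g.apply_symm_apply] at h2
    ext ⟨x, y⟩
    constructor
    · rintro ⟨⟨x', y'⟩, ⟨hx, hy, hxy⟩, heq⟩
      have e1 : g x' = x := congrArg Prod.fst heq
      have e2 : g y' = y := congrArg Prod.snd heq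
      subst e1
      subst e2
      refine ⟨?_, ?_, ?_⟩
      · show Eqv L (g '' A) (g a) (g x')
        rw [h1, g.symm_apply_apply]
        exact hx
      · show Eqv L (g '' A) (g a) (g y')
        rw [h1, g.symm_apply_apply]
        exact hy
      · show E (g.symm (g x')) (g.symm (g y'))
        rw [g.symm_apply_apply, g.symm_apply_apply]
        exact hxy
    · rintro ⟨hx, hy, hxy⟩
      exact ⟨(g.symm x, g.symm y), ⟨(h1 x).1 hx, (h1 y).1 hy, hxy⟩,
        Prod.ext (g.apply_symm_apply x) (g.apply_symm_apply y)⟩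

private theorem MRG_na (g : M ≃[L] N) (lt : L.Formula (Fin 2)) (h : NoAd L N lt) :
    NoAd L M lt := by
  intro A P Q a c E hA hP hQ hc hE hcv hcmp
  have hc' := TRW_cpl g A _ c hc
  rw [image_insert_eq] at hc'
  have key := h (g '' A) (g '' P) (g '' Q) (g a) (g c)
    (fun z x y => E (g.symm z) (g.symm x) (g.symm y)) (hA.image g) (by rw [hP, MRG_typ])
    (by rw [hQ, MRG_typ]) hc' (MRG_def g A _ hE) ?_ ?_
  · intro z hz z' hz' x hx y hy hxy
    have k := key (g z) (mem_image_of_mem g hz) (g z') (mem_image_of_mem g hz') (g x)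
      (mem_image_of_mem g hx) (g y) (mem_image_of_mem g hy)
    simp only [g.symm_apply_apply] at k
    exact k hxy
  · rintro _ ⟨z, hz, rfl⟩
    simp only [g.symm_apply_apply]
    exact MRG_cv g lt P (E z) (hcv z hz)
  · rintro _ ⟨z, hz, rfl⟩ _ ⟨z', hz', rfl⟩
    simp only [g.symm_apply_apply]
    rcases hcmp z hz z' hz' with k | k
    · left
      rintro _ ⟨x, hx, rfl⟩ _ ⟨y, hy, rfl⟩
      simp only [g.symm_apply_apply]
      exact k x hx y hy
    · right
      rintro _ ⟨x, hx, rfl⟩ _ ⟨y, hy, rfl⟩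
      simp only [g.symm_apply_apply]
      exact k x hx y hy

end


private theorem MRG_tr (L : FirstOrder.Language.{0, 0}) (T : L.Theory) (lt : L.Formula (Fin 2))
    (h : ∀ S : L.Structure ℕ, @FirstOrder.Language.Theory.Model L ℕ S T →
      @WOMin L ℕ S lt ∧ (@SatM L ℕ S → @NoAd L ℕ S lt ∨ @FinC L ℕ S lt))
    (U : Type) [L.Structure U] (hc : Countable U) (hi : Infinite U) (hT : U ⊨ T)
    (hsat : SatM L U) : WOMin U lt ∧ (NoAd L U lt ∨ FinC L U lt) := by
  obtain ⟨e⟩ : Nonempty (U ≃ ℕ) := nonempty_equiv_of_countable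
  let S : L.Structure ℕ := e.inducedStructure
  let g : U ≃[L] ℕ := e.inducedStructureEquiv
  have h1 : ℕ ⊨ T := FirstOrder.Language.StrongHomClass.theory_model g
  obtain ⟨h2, h3⟩ := h S h1
  exact ⟨TRW_wo g lt h2, (h3 (MRG_sat g hsat)).imp (MRG_na g lt) (MRG_fin g lt)⟩

section
variable {L : FirstOrder.Language.{0, 0}}

private theorem MRG_mono {S : L.Structure ℕ} {T : L.Theory}
    (hS : @FirstOrder.Language.Theory.Model L ℕ S T) (S' : L.Structure ℕ)
    (h : @FirstOrder.Language.Theory.Model L ℕ S' (ThS L S)) :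
    @FirstOrder.Language.Theory.Model L ℕ S' T := by
  refine ⟨fun φ hφ => h.1 φ ?_⟩
  exact hS.1 φ hφ

private theorem MRG_realize (S : L.Structure ℕ) (σ : L.Sentence) :
    σ ∈ ThS L S ↔
      FirstOrder.Language.Formula.relabel (Empty.elim : Empty → Fin 0) σ ∈
        @tp L ℕ S 0 Fin.elim0 := by
  have h5 := @FirstOrder.Language.Formula.realize_relabel L ℕ S Empty (Fin 0) σ
    (Empty.elim : Empty → Fin 0) Fin.elim0
  have h8 : σ ∈ ThS L S ↔ @FirstOrder.Language.Sentence.Realize L ℕ S σ := Iff.rfl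
  refine h8.trans (Iff.trans ?_ h5.symm)
  unfold FirstOrder.Language.Sentence.Realize
  rw [Subsingleton.elim (Fin.elim0 ∘ (Empty.elim : Empty → Fin 0) : Empty → ℕ)]

private theorem MRG_th {S S' : L.Structure ℕ}
    (h : @tp L ℕ S 0 Fin.elim0 = @tp L ℕ S' 0 Fin.elim0) : ThS L S = ThS L S' := by
  ext σ
  rw [MRG_realize, MRG_realize, h]

end

theorem thm_MRG' (hULT : St_ULT) (hSUBM : St_SUBM) (hHOMG : St_HOMG) (hTRC : St_TRC)
    (hWN : St_fWN) (hSWN : St_SWN) (hSML : St_SML) (hSCU : St_SCU) (hMSB : St_MSB)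
    (hCT : St_fCT) (hCRE : St_CRE) : St_MRG := by
  intro L _ _ T lt hT
  by_contra hcon
  have hC : ¬ Pool.Agent.Helper6.Str.CtblK (ModK L T) := fun h => hcon (Or.inl h)
  have hP : ¬ Pool.Agent.Helper6.Str.PerfK (ModK L T) := fun h => hcon (Or.inr h)
  have hScat : Pool.Agent.Helper79.VC.Scat (ModK L T) :=
    Pool.Agent.Helper79.VC.scat_of_not_perf (hMSB L T) hP
  have hsmall : Small L T := hSML L T hScat
  have hcs : Countable L.Symbols := by
    unfold FirstOrder.Language.Symbols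
    infer_instance
  have key : ∀ S : L.Structure ℕ, @FirstOrder.Language.Theory.Model L ℕ S T →
      CtT L (ThS L S) := by
    intro S hS
    obtain ⟨V, instV, hVne, hVm, hVs⟩ := hULT L hcs S
    have hsm : Small L (ThS L S) := by
      refine hsmall.mono ?_
      rintro p ⟨S', hS', a, ha⟩
      exact ⟨S', MRG_mono hS S' hS', a, ha⟩
    obtain ⟨U, instU, hUc, hUi, hUm, hUs⟩ := hSUBM L hcs S hsm V hVm hVs
    have hMon : Mon L U := hHOMG L U hUc hUi hUs
    have hUT : U ⊨ T := ⟨fun φ hφ => hUm.1 φ (hS.1 φ hφ)⟩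
    obtain ⟨hw, hfc⟩ := MRG_tr L T lt hT U hUc hUi hUT hMon.sat
    have hscu : ScU L instU := hSCU L T U hScat hMon hUT
    rcases hfc with hfc | hfc
    · obtain ⟨lo, hWm⟩ := hSWN L U lt hMon hw hfc hscu
      exact hTRC L U hMon (hCRE L U hWm hscu) S hUm
    · obtain ⟨lo, hWn, hNE⟩ := hWN L U lt hMon hw hfc hscu
      exact hTRC L U hMon (hCT L U hWn hscu hNE) S hUm
  apply hC
  -- the theories of the models
  have hct : {p : (n : ℕ) × Set (L.Formula (Fin n)) | ∃ S : L.Structure ℕ,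
      @FirstOrder.Language.Theory.Model L ℕ S T ∧
        p = ⟨0, @tp L ℕ S 0 Fin.elim0⟩}.Countable := by
    refine hsmall.mono ?_
    rintro p ⟨S, hS, rfl⟩
    exact ⟨S, hS, Fin.elim0, rfl⟩
  choose c hc1 hc2 using fun z : ↥{p : (n : ℕ) × Set (L.Formula (Fin n)) | ∃ S : L.Structure ℕ,
      @FirstOrder.Language.Theory.Model L ℕ S T ∧ p = ⟨0, @tp L ℕ S 0 Fin.elim0⟩} => z.2
  choose g hg using fun z => key (c z) (hc1 z)
  have hcount := hct.to_subtype
  have hne : Nonempty (L.Structure ℕ) := ⟨Pool.Agent.Helper6.Str.toStr (fun _ => true)⟩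
  obtain ⟨G, hG⟩ := (countable_iff_exists_subset_range (α := L.Structure ℕ)).1
    (countable_range (fun p : ↥{p : (n : ℕ) × Set (L.Formula (Fin n)) | ∃ S : L.Structure ℕ,
      @FirstOrder.Language.Theory.Model L ℕ S T ∧ p = ⟨0, @tp L ℕ S 0 Fin.elim0⟩} × ℕ =>
      g p.1 p.2))
  refine ⟨G, fun S hS => ?_⟩
  let z : ↥{p : (n : ℕ) × Set (L.Formula (Fin n)) | ∃ S : L.Structure ℕ,
      @FirstOrder.Language.Theory.Model L ℕ S T ∧ p = ⟨0, @tp L ℕ S 0 Fin.elim0⟩} :=
    ⟨⟨0, @tp L ℕ S 0 Fin.elim0⟩, S, hS, rfl⟩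
  have hz : (⟨0, @tp L ℕ S 0 Fin.elim0⟩ : (n : ℕ) × Set (L.Formula (Fin n))) =
    ⟨0, @tp L ℕ (c z) 0 Fin.elim0⟩ := hc2 z
  have hz' : @tp L ℕ S 0 Fin.elim0 = @tp L ℕ (c z) 0 Fin.elim0 := by
    have := (Sigma.mk.inj_iff.1 hz).2
    exact eq_of_heq this
  have hSmod : @FirstOrder.Language.Theory.Model L ℕ S (ThS L (c z)) := by
    rw [← MRG_th hz']
    exact ⟨fun φ hφ => hφ⟩
  obtain ⟨n, ⟨e⟩⟩ := hg z S hSmod
  obtain ⟨m, hm⟩ := hG ⟨(z, n), rfl⟩
  refine ⟨m, ?_⟩
  rw [hm]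
  have hrel := @FirstOrder.Language.Equiv.map_rel' L ℕ ℕ S (g z n) e
  exact ⟨@FirstOrder.Language.Equiv.toEquiv L ℕ ℕ S (g z n) e, fun k R v => (hrel R v).symm⟩


end Pool.Agent.WOM
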