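import Pool.Agent.WOL.MRGA

/-!
# Vaught's conjecture for weakly o-minimal theories without adic types or of locally finite convexity

Let `T` be a first-order theory in a countable relational language all of whose countable models
are weakly o-minimal with respect to a fixed formula `lt`.  Assume that every countable saturated
model of `T` has no adic type, or has locally finite convexity.  Then the models of `T` on `ℕ` fall
into countably many isomorphism types, or there are perfectly many of them.

An adic type is a complete type `p` over a finite set `A`, together with a complete type `q` over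
`A`, weakly orthogonal to `p`, and an `A`-definable family `(E z)`, `z ⊨ q`, of equivalence relations
with convex classes on the realisations of `p`, any two of them comparable by inclusion, which are
not all equal.

Locally finite convexity: for every finite set `A` and every complete 1-type `p` over `A`, there are
only finitely many `A`-definable equivalence relations with convex classes on the realisations
of `p` (their number may depend on `A` and `p`).
-/

set_option autoImplicit false

namespace Pool.Agent.Results.MP_5df2c5_lc.WeaklyOMinimalNonAdic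

section

variable (L : FirstOrder.Language.{0, 0}) (M : Type) [L.Structure M]

/-- `M` is weakly o-minimal with respect to the formula `lt`: `lt` defines a strict linear order,
and every subset of `M` definable with parameters is a finite union of convex sets. -/
def IsWeaklyOMinimal (lt : L.Formula (Fin 2)) : Prop :=
  (∀ x : M, ¬ lt.Realize ![x, x]) ∧
  (∀ x y z : M, lt.Realize ![x, y] → lt.Realize ![y, z] → lt.Realize ![x, z]) ∧
  (∀ x y : M, x ≠ y → lt.Realize ![x, y] ∨ lt.Realize ![y, x]) ∧
  ∀ s : Set M, (Set.univ : Set M).Definable₁ L s →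
    ∃ (n : ℕ) (C : Fin n → Set M),
      (∀ i, ∀ x ∈ C i, ∀ z ∈ C i, ∀ y, lt.Realize ![x, y] → lt.Realize ![y, z] → y ∈ C i) ∧
      s = ⋃ i, C i

/-- `M` is saturated (for types of elements over finite sets): every family of sets definable over
a finite set with the finite intersection property has a common element. -/
def IsSaturated : Prop :=
  ∀ A : Set M, A.Finite → ∀ F : Set (Set M), (∀ s ∈ F, A.Definable₁ L s) →
    (∀ G ⊆ F, G.Finite → (⋂₀ G).Nonempty) → (⋂₀ F).Nonempty

variable {M}

/-- The realisations in `M` of the type of `a` over `A`. -/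
def Realisations (A : Set M) (a : M) : Set M :=
  {x | ∀ s : Set M, A.Definable₁ L s → (a ∈ s ↔ x ∈ s)}

/-- The type of `c` over `A` implies its type over `B`: every `B`-definable set contains or avoids
some `A`-definable set around `c`. -/
def Implies (A B : Set M) (c : M) : Prop :=
  ∀ s : Set M, B.Definable₁ L s → ∃ t : Set M, A.Definable₁ L t ∧ c ∈ t ∧ (t ⊆ s ∨ t ⊆ sᶜ)

/-- The restriction of `E` to `P` is an equivalence relation with convex classes. -/
def IsConvexEquivalence (lt : L.Formula (Fin 2)) (P : Set M) (E : M → M → Prop) : Prop :=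
  (∀ x ∈ P, E x x) ∧ (∀ x ∈ P, ∀ y ∈ P, E x y → E y x) ∧
  (∀ x ∈ P, ∀ y ∈ P, ∀ w ∈ P, E x y → E y w → E x w) ∧
  ∀ x ∈ P, ∀ y ∈ P, ∀ w ∈ P, lt.Realize ![x, y] → lt.Realize ![y, w] → E x w → E x y

variable (M)

/-- `M` has an adic type: there are a finite set `A`, elements `a`, `c` such that the type of `c` over
`A` implies its type over `A, a`, and an `A`-definable ternary relation `E`, such that the relations
`E z`, for the realisations `z` of the type of `c` over `A`, are equivalence relations with convex
classes on the realisations of the type of `a` over `A`, any two of them comparable by inclusion,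
and not all equal. -/
def HasAdicType (lt : L.Formula (Fin 2)) : Prop :=
  ∃ (A : Set M) (a c : M) (E : M → M → M → Prop), A.Finite ∧ Implies L A (insert a A) c ∧
    A.Definable L {w : Fin 3 → M | E (w 0) (w 1) (w 2)} ∧
    (∀ z ∈ Realisations L A c, IsConvexEquivalence L lt (Realisations L A a) (E z)) ∧
    (∀ z ∈ Realisations L A c, ∀ z' ∈ Realisations L A c,
      (∀ x ∈ Realisations L A a, ∀ y ∈ Realisations L A a, E z x y → E z' x y) ∨
      ∀ x ∈ Realisations L A a, ∀ y ∈ Realisations L A a, E z' x y → E z x y) ∧
    ∃ z ∈ Realisations L A c, ∃ z' ∈ Realisations L A c, ∃ x ∈ Realisations L A a,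
      ∃ y ∈ Realisations L A a, E z x y ∧ ¬ E z' x y

variable {M}

/-- The restrictions to the realisations of the type of `a` over `A` of the `A`-definable binary
relations which are convex equivalence relations there. -/
def ConvexEquivalences (lt : L.Formula (Fin 2)) (A : Set M) (a : M) : Set (Set (M × M)) :=
  {R | ∃ E : M → M → Prop, A.Definable L {w : Fin 2 → M | E (w 0) (w 1)} ∧
    IsConvexEquivalence L lt (Realisations L A a) E ∧
    R = {z | z.1 ∈ Realisations L A a ∧ z.2 ∈ Realisations L A a ∧ E z.1 z.2}}

variable (M)

/-- Locally finite convexity: for every finite set `A` and every type over `A` there are only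
finitely many `A`-definable convex equivalence relations on the realisations of this type. -/
def IsLocallyFiniteConvexity (lt : L.Formula (Fin 2)) : Prop :=
  ∀ (A : Set M) (a : M), A.Finite → (ConvexEquivalences L lt A a).Finite

end

/-- **Vaught's conjecture (perfect set form) for weakly o-minimal theories whose countable saturated
models have no adic types or locally finite convexity.** -/
theorem result (L : FirstOrder.Language.{0, 0}) (hc : Countable L.Symbols)
    (hrel : ∀ n, IsEmpty (L.Functions n)) (T : L.Theory) (lt : L.Formula (Fin 2))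
    (h : ∀ S : L.Structure ℕ, @FirstOrder.Language.Theory.Model L ℕ S T →
      @IsWeaklyOMinimal L ℕ S lt ∧ (@IsSaturated L ℕ S →
        ¬ @HasAdicType L ℕ S lt ∨ @IsLocallyFiniteConvexity L ℕ S lt)) :
    (∃ g : ℕ → L.Structure ℕ, ∀ S : L.Structure ℕ,
        @FirstOrder.Language.Theory.Model L ℕ S T →
          ∃ n : ℕ, Nonempty (@FirstOrder.Language.Equiv L ℕ ℕ S (g n))) ∨
    (∃ f : (ℕ → Bool) → L.Structure ℕ,
        (∀ x : ℕ → Bool, @FirstOrder.Language.Theory.Model L ℕ (f x) T) ∧
        (∀ x y : ℕ → Bool,
            Nonempty (@FirstOrder.Language.Equiv L ℕ ℕ (f x) (f y)) → x = y) ∧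
        (∀ (n : ℕ) (R : L.Relations n) (a : Fin n → ℕ),
            IsClopen {x : ℕ → Bool | @FirstOrder.Language.Structure.RelMap L ℕ (f x) n R a})) := by
  have : ∀ n, IsEmpty (L.Functions n) := hrel
  have : ∀ n, Countable (L.Relations n) := fun n =>
    Function.Injective.countable (β := L.Symbols) (f := fun R => Sum.inr ⟨n, R⟩)
      (fun R R' hR => by simpa using hR)
  have key := WOM.thm_MRG L T lt (fun S hS => by
    obtain ⟨⟨h1, h2, h3, h4⟩, h5⟩ := h S hS
    refine ⟨@WOM.WOMin.mk L ℕ S lt h1 h2 h3 h4, fun hsat => ?_⟩
    rcases h5 hsat with h6 | h6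
    · left
      intro A P Q a c E hA hP hQ hac hE hcv hcp z hz z' hz' x hx y hy hxy
      by_contra hn
      subst hP
      subst hQ
      exact h6 ⟨A, a, c, E, hA, hac, hE, hcv, hcp, z, hz, z', hz', x, hx, y, hy, hxy, hn⟩
    · right
      exact fun A a hA => h6 A a hA)
  rcases key with ⟨g, hg⟩ | ⟨f, hf1, hf2, hf3⟩
  · refine Or.inl ⟨g, fun S hS => ?_⟩
    obtain ⟨n, hn⟩ := hg S hS
    exact ⟨n, (Helper6.Str.nonempty_equiv_iff S (g n)).mpr hn⟩
  · exact Or.inr ⟨f, hf1,
      fun x y hxy => hf2 x y ((Helper6.Str.nonempty_equiv_iff _ _).mp hxy), hf3⟩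

end Pool.Agent.Results.MP_5df2c5_lc.WeaklyOMinimalNonAdic
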