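import Pool.Agent.WOL.StF

/-!
WOL (helper8): the common END GAME of the theorems on weakly o-minimal theories: finitely many uncut
types which are linked to all omitted types.  Statements with proofs in the docstrings.
-/

set_option autoImplicit false
set_option linter.unusedVariables false

namespace Pool.Agent.WOM

open FirstOrder.Language Set
open scoped FirstOrder

section defs

variable (L : FirstOrder.Language.{0, 0}) {U : Type} [L.Structure U]

/-- `(B, V)` is a code of `M`: the types of `v ∈ V` over the finite set `B ⊆ M` are nonisolated and not cut by `M`,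
and every type over a finite `B'`, `B ⊆ B' ⊆ M`, which is omitted in `M` is not weakly orthogonal over `B'` to one of them -/
structure Hd (B V M : Set U) : Prop where
  el : IsEl L M
  sub : B ⊆ M
  un : ∀ v ∈ V, Unc L B v M ∧ ¬ Isd L B v
  cov : ∀ (B' : Set U) (w : U), B'.Finite → B ⊆ B' → B' ⊆ M → Orb L B' w ∩ M = ∅ → ∃ v ∈ V, Nn L B' w v

/-- `M` has a finite code -/
def FinH (M : Set U) : Prop := ∃ B V : Set U, B.Finite ∧ V.Finite ∧ Hd L B V M

variable (U) in
/-- Finitely many ends: there are a finite set `Y` with conjugates in every model and finitely many nondefinable sides `(v, t)` of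
types over `Y`, such that every nonisolated type over a finite `A ⊇ Y` is not weakly orthogonal over `A` to the last type over `A` at one of
these sides. -/
def FE [LinearOrder U] : Prop :=
  ∃ (Y : Set U) (V : Set (U × Bool)), Y.Finite ∧ V.Finite ∧
    (∀ M : Set U, IsEl L M → ∃ σ : U ≃[L] U, σ '' Y ⊆ M) ∧ (∀ p ∈ V, ¬ SD L Y p.1 p.2) ∧
    ∀ (A : Set U) (w : U), A.Finite → Y ⊆ A → ¬ Isd L A w → ∃ p ∈ V, ∀ u ∈ Ge L Y p.1 p.2 A, Nn L A w u

end defs

/-- [gBF] models with the same code are isomorphic.  PROOF.  BFM with `P A g`: `B ⊆ A`, `g` fixes `B`, `g '' A ⊆ M'`.  Start: `A = B`, the identity.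
Forth: `x ∈ M`.  If some `y ∈ M'` is in `Orb (g '' A) (g x)`, `τ (g x) = y` with `τ` over `g '' A`: take `τ g`.  Suppose there is none: by `Hd.cov` for `M'` (`B = g '' B ⊆
g '' A`) there is `v ∈ V` with `Nn (g '' A) (g x) v`, so `Nn A x (g⁻¹ v)` (NSB 3 for `g⁻¹`).  `g⁻¹ v ∈ Orb B v = Orb A v` (`Hd.un` for `M`: `Unc`), so `Nn A x v`
(NSB 2): `Orb (insert x A) v ≠ Orb A v`, but both are `Orb B v` by `Unc L B v M`: contradiction.  Back: the same with `M`, `M'` exchanged and `g⁻¹`. -/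
def St_gBF : Prop :=
  ∀ (L : FirstOrder.Language.{0, 0}) (U : Type) [L.Structure U], Mon L U →
    ∀ B V M M' : Set U, B.Finite → Hd L B V M → Hd L B V M' → IsoM L M M'

/-- [gCT] countably many models.  PROOF.  As fCT (Pool/Agent/WOL/fCT.lean): `Finset U × Finset U` is countable. -/
def St_gCT : Prop :=
  ∀ (L : FirstOrder.Language.{0, 0}) (U : Type) [L.Structure U], Mon L U →
    (∀ M : Set U, IsEl L M → FinH L M) → CtU L U

/-- [gLT] a closed type is not linked to an open end.  PROOF.  `G = Orb B w` is convex (nCNV), `G ∩ M = ∅`.  Let `v' ∈ Ge Y v t B` be in `M` (hypothesis for `D = B`), `D₁ = insert v' B`,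
`v'' ∈ Ge Y v t D₁ ∩ M`, `D = insert v'' D₁`.  `Nn B w v'`, so `Nn B v' w` (NSB 1).  nSMA over `B` for `v'`, `w`: `ε`.  `v'' ∈ Ge B v' t D₁ = Ge Y v t D₁` (nGER 1); let `w' ∈ Ge B w (sg ε t) D₁` (nGEX; `w' ∈ G`):
`Nn D₁ v'' w'`, so `Orb D w' ≠ Orb D₁ w'`.  There are `z ∈ G`, `z ∉ Orb D₁ w'` (`Orb D₁ w ≠ G`) and `z₁ ∈ Orb D₁ w'`, `z₁ ∉ Orb D w'` (ORB 3): the three elements `z`, `w'`, `z₁` of `G` have pairwise different orbits
over `D`.  Put them in the right order: contradiction to nLTW. -/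
def St_gLT : Prop :=
  ∀ (L : FirstOrder.Language.{0, 0}) (U : Type) [L.Structure U] [LinearOrder U], Wn L U →
    ∀ (M Y B : Set U) (w v : U) (t : Bool), IsEl L M → B.Finite → Y ⊆ B → B ⊆ M → Orb L B w ∩ M = ∅ →
      (∀ D : Set U, D.Finite → B ⊆ D → D ⊆ M → (Ge L Y v t D ∩ M).Nonempty) →
      ∃ u ∈ Ge L Y v t B, ¬ Nn L B w u

/-- [gFH] finitely many ends give codes.  PROOF.  Let `Y`, `V` be as in `FE`, `σ '' Y ⊆ M`, `Y' = σ '' Y`, `V' = {(σ p.1, p.2) | p ∈ V}`: the last condition of `FE` holds for `Y'`, `V'` (apply `σ⁻¹`: nSDI 4, nGER 5,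
NSB 3), and `¬ SD Y' p.1 p.2` for `p ∈ V'`.  Call `p ∈ V'` closed if `Ge Y' p.1 p.2 D ∩ M = ∅` for some finite `D`, `Y' ⊆ D ⊆ M`; choose such a `D p`; `G = Ge Y' p.1 p.2 (D p)` is convex (nGEX: it is an orbit over `D p`), not empty, so nUNG
(`D₀ = D p`) gives a finite `D' p ⊇ D p` in `M` with `Unc (D' p) u M` for all `u ∈ G`.  `B` = `Y'` and all `D' p`, `p` closed.  `v_p ∈ Ge Y' p.1 p.2 B` (nGEX) is in `G` (nGER 2), so `Unc B v_p M` (`D' p ⊆ B`), and `¬ Isd B v_p` (nSDI 2, 1).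
`V''` = the set of the `v_p`, `p` closed.  Covering: let `Orb B' w ∩ M = ∅`.  `¬ Isd B' w` (otherwise `Orb B' w` is definable over `B' ⊆ M`, not empty: `IsEl`).  `FE`: `p ∈ V'` with `Nn B' w u` for all `u ∈ Ge Y' p.1 p.2 B'`.  If `p` is closed then
`v_p ∈ Ge Y' p.1 p.2 B'`: for `u` in this set (nGEX) `u ∈ Ge Y' p.1 p.2 B = Orb B v_p = Orb B' v_p` and `Ge Y' p.1 p.2 B' = Orb B' u` (nGEX, `Unc`).  If `p` is not closed: contradiction to gLT (`Y'`, `B'`; for `D ⊇ B'` the set `Ge Y' p.1 p.2 D` meets `M`). -/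
def St_gFH : Prop :=
  ∀ (L : FirstOrder.Language.{0, 0}) (U : Type) [L.Structure U] [LinearOrder U], Wn L U →
    FE L U → ∀ M : Set U, IsEl L M → FinH L M

end Pool.Agent.WOM
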