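import Pool.Agent.WOL.StX

/-!
WOL, T7-ACC (helper34): Vaught's conjecture for weakly o-minimal theories in which no type `P` over a finite
set `A` of the saturated model has an infinite increasing sequence of `A`-definable convex equivalence
relations.  Statements with proofs in the docstrings.  Part 1: inner sides (NI), far copies, the predicate `PI`.

Numbers as in StF.lean: ORB, NSB, DFN, nCNV, nGEX, nGER, nTRA, nSMA, nSMB, nSDI, nISO, nFFR, nFAR, SFX, SAT,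
SEB, SEZ, SDL, SEP, SCUT, SDF, fTR (= `TRV`).  `xA` = `insert x A`.  `σB` = `σ '' B`.
REVERSED ORDER: `dO U` (SDL); `@SD L U _ (dO U) A u t ↔ SD L A u (!t)`, `EqA` is the same set (fOS).
-/

set_option autoImplicit false
set_option linter.unusedVariables false

namespace Pool.Agent.WOM

open FirstOrder.Language Set
open scoped FirstOrder

section defs

variable (L : FirstOrder.Language.{0, 0}) (U : Type) [L.Structure U]

/-- no infinite increasing sequence of `A`-definable convex equivalence relations on a type over a finite set `A` -/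
def ACC [LinearOrder U] : Prop :=
  ∀ (A : Set U) (a : U), A.Finite → ∀ R : ℕ → Set (U × U), (∀ n, R n ∈ EqA L A a) →
    (∀ n, R n ⊆ R (n + 1)) → ∃ n, R (n + 1) = R n

/-- inner sides: the last (first) orbit over `B` in an orbit over `A` is the whole orbit, or its inner side is definable -/
def NI [LinearOrder U] : Prop :=
  ∀ (A B : Set U) (z u : U) (t : Bool), A ⊆ B → B.Finite → u ∈ Ge L A z t B →
    Orb L B u = Orb L A z ∨ SD L B u (!t)

variable {U}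

/-- `A` with the first `n` elements of the sequence `y` -/
def Bn (A : Set U) (y : ℕ → U) (n : ℕ) : Set U := A ∪ y '' {i | i < n}

/-- every `y i` is isolated over `A` and the previous ones -/
def Ch (A : Set U) (y : ℕ → U) (n : ℕ) : Prop := ∀ i < n, Isd L (Bn A y i) (y i)

/-- `σ` fixes `C`, and the image of `y` is far over `D` -/
structure Fc [LinearOrder U] (C D A : Set U) (y : ℕ → U) (n : ℕ) (σ : U ≃[L] U) : Prop where
  fx : Fx L C σ
  far : ∀ i < n, σ (y i) ∈ Ge L (σ '' Bn A y i) (σ (y i)) true (D ∪ σ '' Bn A y i)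

/-- the germ `(B, w, t)` and its image under `σ` are linked over `B ∪ σB` -/
def Lk [LinearOrder U] (B : Set U) (w : U) (t : Bool) (σ : U ≃[L] U) : Prop :=
  ∀ u ∈ Ge L B w t (B ∪ σ '' B), ∀ u' ∈ Ge L (σ '' B) (σ w) t (B ∪ σ '' B), Nn L (B ∪ σ '' B) u u'

/-- the base of the code: `C`, `b` and the tail -/
def BB (C : Set U) (b : U) (y : ℕ → U) (n : ℕ) : Set U := Bn (insert b C) y n

/-- a code: a base `C`, an element `b`, an isolated tail `y` over `C, b`, and a germ `(w, t)` over all of them; the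
germs with the same `b` are linked -/
structure Cod [LinearOrder U] (C : Set U) (b : U) (y : ℕ → U) (n : ℕ) (w : U) (t : Bool) : Prop where
  fin : C.Finite
  ch : Ch L (insert b C) y n
  nd : ¬ SD L (BB C b y n) w t
  ct : ∀ σ : U ≃[L] U, Fx L (insert b C) σ → Lk L (BB C b y n) w t σ

/-- the type of the germ of `a` with a tail which is far over `D` is complete over `D` and the tail -/
def PI [LinearOrder U] (C : Set U) (b : U) (y : ℕ → U) (n : ℕ) (w : U) (D : Set U) (a : U) : Prop :=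
  ∀ σ : U ≃[L] U, Fc L C D (insert b C) y n σ → σ b = a →
    Orb L (D ∪ σ '' BB C b y n) (σ w) = Orb L (σ '' BB C b y n) (σ w)

/-- `a` and `a'` are linked in general position -/
def LG [LinearOrder U] (C : Set U) (b : U) (y : ℕ → U) (n : ℕ) (w : U) (t : Bool) (a a' : U) : Prop :=
  ∀ σ σ' : U ≃[L] U, Fc L C (insert a (insert a' C)) (insert b C) y n σ → σ b = a →
    Fc L C (insert a' (σ '' BB C b y n)) (insert b C) y n σ' → σ' b = a' →
    ∀ u ∈ Ge L (σ '' BB C b y n) (σ w) t (σ '' BB C b y n ∪ σ' '' BB C b y n),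
    ∀ u' ∈ Ge L (σ' '' BB C b y n) (σ' w) t (σ '' BB C b y n ∪ σ' '' BB C b y n),
      Nn L (σ '' BB C b y n ∪ σ' '' BB C b y n) u u'

end defs

/-! ### Inner sides -/

/-- [gNA] inner sides over one element of the type.  PROOF.  `t = true` (`t = false`: reversed order).  `P = Orb A x`, `O = Orb (xA) u`, `x ∉ O` (ORB 5), `O` is convex, so `x < o` for
`o ∈ O`.  `c = {z | ∀ o ∈ O, z < o}` is `Low`, `x ∈ c`, and it is the complement of `Cls false O`; suppose it is not definable over `xA`.  (1) For `z ∈ c` there is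
an `xA`-definable `Low` set `K ⊆ c` with `x, z ∈ K`: `z ≤ x`: `Iic x`.  `x < z`: SCUT for `z < u` over `xA` (`u ∉ Orb (xA) z` by ORB 2, `z ∉ O`): `z ∈ K`, `u ∉ K`, so `K ∩ O = ∅` (ORB 6), `K ⊆ c`.  As
`K ≠ c`, there is a sequence of such sets with `K n ⊆ K (n+1)`, `K (n+1) ≠ K n` (unions of two).  (2) SDF 8: `K n = g n x`, `DF L A (g n)`, all `g n z` are `Low`, `z ∈ g n z`.  `u ∉ g n x`, so (SFX 1, conjugation) for
`z ∈ P` some element of `P` is not in `g n z`.  As in fOR (SEZ): `R n = {(z, z') ∈ P × P | (z ≤ z' ∧ z' ∈ g n z) ∨ (z' ≤ z ∧ z ∈ g n z')} ∈ EqA L A x`.  `g n z ⊆ g (n+1) z` for `z ∈ P` (conjugation), so `R n ⊆ R (n+1)`.  For `z ∈ K (n+1)`,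
`z ∉ K n`: `x < z < u`, so `z ∈ P`, `(x, z) ∈ R (n+1)`, not in `R n`.  Contradiction to `ACC`. -/
def St_gNA : Prop :=
  ∀ (L : FirstOrder.Language.{0, 0}) [∀ n, IsEmpty (L.Functions n)] (U : Type)
    [S : L.Structure U] [LinearOrder U], Wn L U → ScU L S → ACC L U →
    ∀ (A : Set U) (x u : U) (t : Bool), A.Finite → u ∈ Orb L A x → u ≠ x → leS t x u →
      SD L (insert x A) u (!t)

/-- [gNB] inner sides over one element.  PROOF.  `t = true` (`t = false`: reversed order; NSB 3-5).  `P = Orb A x`, `Z = Orb A z`, `Z ≠ {z}` (NSB 5).  For `x' ∈ P` let `V x' = {s | ∀ o ∈ Ge A z true (x'A), s < o}` (`Low`), for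
`z' ∈ Z` let `m z' = {s | ∀ o ∈ Ge A z true (z'A), s < o}`.  `σ '' V x' = V (σ x')` for `σ` over `A` (nGER 5, 4), the same for `m`.
(0) `m z'` is definable over `z'A` (gNA: `Ge A z true (z'A) = Orb (z'A) o`, `z' < o` by nFAR 1), `z' ∈ m z'`, not all of `Z`.  If `K` is definable over `z'A`, `Low` and does not contain `Z` then `K ⊆ m z'` (SEB 1).  EQ: if `z', z'' ∈ Z`, `z'' ∈ m z'`,
`z' ∈ m z''` then `m z' = m z''` (SDF 8: `m z' = M z'` with `DF L A M`, so for all `z' ∈ Z` by SFX 1; let `z' ≤ z''`: SEZ).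
(1) `Z \ Ge A z true (xA) ⊆ V x` (nGER 7), and this set is not empty (`Nn A x z`, ORB 2).  For `s ∈ V x` there is a `Low` set `K ⊆ V x`, definable over `xA`, with `s ∈ K` and `K ∩ Z ≠ ∅`: let `y₀ ∈ Z ∩ V x`, `y = max s y₀`; `y₀ ≤ y < u`,
so `y ∈ Z`, and SCUT for `y < u` over `xA` as in gNA.
(2) nSMA: there is `s` (a side) such that `z' ∈ Ge A z true (x'A) ↔ x' ∈ Ge A x s (z'A)` for `x' ∈ P`, `z' ∈ Z`, and `z' ∈ Ge A z false (x'A) ↔ x' ∈ Ge A x (!s) (z'A)` (`Ori A x z e`, `Ori A z x e`, `s = !(sg e true)`).  If `x', x'' ∈ P`, `leS s x' x''` then `V x'' ⊆ V x'`: otherwise some `o ∈ Ge A z true (x'A)` is `≤` an element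
of `V x''`; `x' ∈ Ge A x s (oA)`, so `x'' ∈ Ge A x s (oA)` (nGER 7), `o ∈ Ge A z true (x''A)`: contradiction.
(3) For `s₀ ∈ V x` there is `F` with `DF L A F`, and for all `x' ∈ P`: `F x'` is `Low`, `F x' ⊆ V x'`, `F x' ∩ Z ≠ ∅`, `F x'' ⊆ F x'` if `x'' ∈ P`, `leS s x' x''`; and `s₀ ∈ F x`.  Let `K = k x` be from (1), `DF L A k` (`Dx.fib`); by conjugation `k x'` is `Low`, `⊆ V x'`, meets `Z`.  `Φ x' = {r | ∃ x'' ∈ P, leS s x' x'' ∧ r ∈ k x''} ⊆ V x'`
(2).  Definable: let `x₁ ∈ Ge A x s (x'A)`; `Φ x' = {r | ∃ x'', leS s x' x'' ∧ leS s x'' x₁ ∧ r ∈ k x''}`, since for `x'' ∈ P` beyond `x₁` SEP (`x'`, `x''` far; orbit `P`, `c = z`) gives `z' ∈ Z` with `x' ∈ Ge A x (!s) (z'A)`, `x'' ∈ Ge A x s (z'A)`: `z' ∉ V x'' ⊇ k x''`, and `z' ∈ Ge A z false (x'A) ⊆ k x'` (ORB 6), so `k x'' ⊆ k x'`.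
SFX 6: `F`.
(4) Suppose `V x` is not definable over `xA`.  `F₀` = some `F` of (3).  Let `z₀ ∈ V x`, `z₀ ∉ F₀ x` (exists; `z₀ ∈ Z` by convexity).  Claim: `V x ⊆ m z₀`.  Let `s₀ ∈ V x`, `F` from (3), `h = {r | r ≤ z₀ ∨ ∃ x'' ∈ P, z₀ ∉ F₀ x'' ∧ r ∈ F x''}`: `s₀ ∈ h` (`x'' = x`), `Low`, invariant over `z₀A`.  There is `x° ∈ P` with `z₀ ∈ F₀ x°`
(conjugate).  If `x'' ∈ P`, `z₀ ∉ F₀ x''` then `leS s x° x''` and `F x'' ⊆ F x° ⊆ V x°`; so `h` does not contain `Z`.  Let `x₁ ∈ Ge A x s (z₀A)`: `z₀ ∉ V x₁`, so `F x'' ⊆ V x₁ ⊆ Iic z₀` for `x'' ∈ P` beyond `x₁`.  So `h = {r | r ≤ z₀ ∨ ∃ x'', leS s x° x'' ∧ leS s x'' x₁ ∧ z₀ ∉ F₀ x'' ∧ r ∈ F x''}` is definable (parameters `A, z₀, x°, x₁`), so definable over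
`z₀A` (ORB 8), so `s₀ ∈ h ⊆ m z₀` (0).  (5) By (4) and EQ `m z₀` is the same set `m*` for all `z₀ ∈ V x \ F₀ x`; so `m*` is invariant over `xA`, hence `xA`-definable (ORB 8).  `V x ⊆ m*`.  If `r ∈ m*`, `r ∉ V x` then `o ≤ r` for some `o ∈ Ge A z true (xA)`, so this orbit over `xA` is contained in `m*` (ORB 6), so `Z ⊆ m*`: contradiction to (0).  So
`V x = m*` is definable over `xA`: contradiction.  `V x` is the complement of `Cls false (Orb (xA) u)`. -/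
def St_gNB : Prop :=
  ∀ (L : FirstOrder.Language.{0, 0}) [∀ n, IsEmpty (L.Functions n)] (U : Type)
    [S : L.Structure U] [LinearOrder U], Wn L U → ScU L S → ACC L U →
    ∀ (A : Set U) (x z u : U) (t : Bool), A.Finite → Nn L A x z → u ∈ Ge L A z t (insert x A) →
      SD L (insert x A) u (!t)

/-- [gNI] inner sides.  PROOF.  Induction on the finite set `B \ A`.  `B = A`: `Orb A u = Orb A z`.  `B = insert x B'`, `A ⊆ B'`: `u ∈ Ge A z t B'` (nGER 2), `Orb B' u = Ge A z t B'` (nGEX), `Ge B' u t B = Ge A z t B ∋ u` (nGER 1).  If `Nn B' x u`: gNB.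
Otherwise `Orb B u = Orb B' u`, and `SD B' u (!t)` implies `SD B u (!t)` (nSDI 3): induction hypothesis. -/
def St_gNI : Prop :=
  ∀ (L : FirstOrder.Language.{0, 0}) [∀ n, IsEmpty (L.Functions n)] (U : Type)
    [S : L.Structure U] [LinearOrder U], Wn L U → ScU L S → ACC L U → NI L U

/-! ### Link calculus -/

/-- [gTS] weak orthogonality of uncut types persists.  PROOF.  Induction on the finite set `B \ A`: `x ∈ B \ A`, `A' = xA`: `Orb B u ⊆ Orb A' u ⊆ Orb A u`, so `Orb A' u = Orb A u`, `¬ Nn A x u`; the same for `v`; `TRV`: `¬ Nn A' u v`. -/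
def St_gTS : Prop :=
  ∀ (L : FirstOrder.Language.{0, 0}) (U : Type) [L.Structure U] [LinearOrder U], Wn L U → TRV L U →
    ∀ (A B : Set U) (u v : U), A ⊆ B → B.Finite → Orb L B u = Orb L A u → Orb L B v = Orb L A v →
      ¬ Nn L A u v → ¬ Nn L B u v

/-- [gPN] persistence.  PROOF.  1: `u ∈ Ge A u t B`, `v ∈ Ge A v s B` for all `t`, `s` (the orbits over `B` are the whole orbits): nSMA.  2: nSMA over `A`: `e`.  nSMB: `SD A u (!t)` gives `SD A v (sg e (!t))`, so `sg e (!t) ≠ t'`, `sg e t = t'`: persistence.  3: nSMB for the definable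
side of `u`. -/
def St_gPN : Prop :=
  ∀ (L : FirstOrder.Language.{0, 0}) (U : Type) [L.Structure U] [LinearOrder U], Wn L U →
    (∀ (A B : Set U) (u v : U), A ⊆ B → B.Finite → Nn L A u v → Orb L B u = Orb L A u →
      Orb L B v = Orb L A v → Nn L B u v) ∧
    (∀ (A B : Set U) (u v u' v' : U) (t t' : Bool), A ⊆ B → B.Finite → Nn L A u v → SD L A u (!t) →
      ¬ SD L A v t' → u' ∈ Ge L A u t B → v' ∈ Ge L A v t' B → Nn L B u' v') ∧
    (∀ (A : Set U) (u v : U) (t : Bool), A.Finite → Nn L A u v → SD L A u t → ∃ t' : Bool, SD L A v t')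

/-- [gIS] isolated elements.  PROOF.  1: nISO, nSDI 3; last part: `¬ Nn A z y`, so `Orb (zA) y = Orb A y` is definable.  2: SAT 3 gives `Isd A x`.  `Orb (yA) x = φ y` with `DF L A φ` (`Dx.fib`), `φ (σ y) = Orb (σ y, A) (σ x)` for `σ` over `A` (SFX 1).  `Orb (xA) y = {y' ∈ Orb A y | x ∈ φ y'}`: `⊇`:
`y' = σ y`, `x = ρ (σ x)` with `ρ` over `y'A`: `ρ σ` fixes `x`, `A` and maps `y` to `y'`.  3: SAT 2, gTS.  4: induction on `n`: `Isd (eA) (y 0)` and 2: `Isd A (y 0)`, `Isd (insert (y 0) A) e`; continue over `insert (y 0) A` with the shifted sequence.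
5: nSDI 2 for the side `t`; `NI` for the side `!t` (if `Orb B u = Orb A z` then it is definable over `B`); nSDI 1. -/
def St_gIS : Prop :=
  ∀ (L : FirstOrder.Language.{0, 0}) (U : Type) [L.Structure U] [LinearOrder U], Wn L U → TRV L U →
    (∀ (A : Set U) (y z : U), A.Finite → Isd L A y → ¬ Isd L A z →
      Orb L (insert y A) z = Orb L A z ∧ ¬ Isd L (insert y A) z ∧ Isd L (insert z A) y) ∧
    (∀ (A : Set U) (x y : U), A.Finite → Isd L A y → Isd L (insert y A) x →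
      Isd L A x ∧ Isd L (insert x A) y) ∧
    (∀ (A D : Set U) (u v : U), A.Finite → Atm L A D → ¬ Isd L A u → ¬ Isd L A v → Nn L D u v →
      Nn L A u v) ∧
    (∀ (A : Set U) (e : U) (y : ℕ → U) (n : ℕ), A.Finite → Isd L A e → Ch L (insert e A) y n →
      Ch L A y n ∧ Isd L (Bn A y n) e) ∧
    (NI L U → ∀ (A B : Set U) (z u : U) (t : Bool), A ⊆ B → B.Finite → Isd L A z → u ∈ Ge L A z t B →
      Isd L B u)

/-- [gSEC] from one element of a linked type to the type itself.  PROOF.  `s' = !(sg e t)` with `Ori A v d e`, `Ori A d v e` (nSMA): for `v' ∈ Orb A v`, `d' ∈ Orb A d`: (O) `v' ∈ Ge A v t (d'A) ↔ d' ∈ Ge A d s' (v'A)`.  Suppose `¬ Nn (vA) v₂ w`.  By conjugation (`Orb (v'A) w = Orb A w` for all `v' ∈ Orb A v`, NSB 2) the same holds for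
all `v' ∈ Orb A v`, `v₂ ∈ Ge A v t (v'A)`.  Let `v₂ ∈ Ge A v t (v₁, d, A)`; `v₂ ∈ Ge A v t (v₁A)`, `v₂ ∈ Ge A v t (dA)`.  (i) `Nn (v₁A) d w`: `Orb (v₁, d, A) w ≠ Orb (dA) w = Orb A w = Orb (v₁A) w`.  (ii) `¬ Nn (v₁A) v₂ w`, so `¬ Nn (v₁A) v₂ d` (nTRA), `Orb (v₂, v₁, A) d = Orb (v₁A) d`, and
`Orb (v₂, v₁, A) w = Orb (v₁A) w = Orb A w`.  (iii) `v₁`, `v₂` are in the same orbit over `dA` (nGEX), so `Nn (v₂A) d w` (NSB 3, 2).  `Orb (v₁, v₂, A) w = Orb A w = Orb (v₂A) w`: `¬ Nn (v₂A) v₁ w`, so `¬ Nn (v₂A) v₁ d` (nTRA), `Orb (v₁, v₂, A) d = Orb (v₂A) d`.  So `Orb (v₁A) d = Orb (v₂A) d`, i.e. by (O) `Ge A d s' (v₁A) = Ge A d s' (v₂A)`.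
(iv) SEP (`v₁`, `v₂` far towards `t`; for `t = false` exchange them, nFFR): `c' ∈ Orb A d`, `v₁ ∈ Ge A v (!t) (c'A)`, `v₂ ∈ Ge A v t (c'A)`.  (O): `c' ∈ Ge A d s' (v₂A) = Ge A d s' (v₁A)`, `v₁ ∈ Ge A v t (c'A)`; nGER 8: `Orb (c'A) v = Orb A v`, contradiction to `Nn A c' v` (NSB 2). -/
def St_gSEC : Prop :=
  ∀ (L : FirstOrder.Language.{0, 0}) (U : Type) [L.Structure U] [LinearOrder U], Wn L U →
    ∀ (A : Set U) (d v w v₁ v₂ : U) (t : Bool), A.Finite → Nn L A d v → ¬ Nn L A d w → ¬ Nn L A v w →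
      v₁ ∈ Ge L A v t (insert d A) → Nn L (insert d A) v₁ w → v₂ ∈ Ge L A v t (insert v A) →
      Nn L (insert v A) v₂ w

/-! ### Far copies -/

/-- [gFC] far copies.  PROOF.  1: induction on `n`: for `σ` (for `n`) let `y' ∈ Ge (σ (Bn A y n)) (σ (y n)) true (D ∪ σ (Bn A y n))` (nGEX), `ρ` over `σ (Bn A y n)` with `ρ (σ (y n)) = y'`, take `ρ σ`.  2: induction on `n`: `ρ` for `n`; both `ρ (σ (y n))` and `σ' (y n)` are in the set
`Ge (σ' (Bn A y n)) (σ' (y n)) true (D ∪ σ' (Bn A y n))` (nGER 5, 4: `ρ` maps `σ (Bn A y n)` onto `σ' (Bn A y n)`, fixes `D`, and `ρ (σ (y n)) ∈ Orb (σ' (Bn A y n)) (σ' (y n))` since `ρ σ σ'⁻¹` fixes `σ' (Bn A y n)`), which is one orbit over `D ∪ σ' (Bn A y n)` (nGEX): compose with an automorphism.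
3: nGER 2.  4: nGER 5.  5: gIS 5 and `Isd (σ (Bn A y i)) (σ (y i))` (nSDI 4).  6: by 5 (for the sequence `σ ∘ y`). -/
def St_gFC : Prop :=
  ∀ (L : FirstOrder.Language.{0, 0}) (U : Type) [L.Structure U] [LinearOrder U], Wn L U → TRV L U →
    ∀ (C A : Set U) (y : ℕ → U) (n : ℕ), A.Finite → C ⊆ A →
    (∀ (D : Set U) (σ₀ : U ≃[L] U), D.Finite → Fx L C σ₀ →
      ∃ σ : U ≃[L] U, Fc L C D A y n σ ∧ ∀ a ∈ A, σ a = σ₀ a) ∧
    (∀ (D : Set U) (σ σ' : U ≃[L] U), D.Finite → Fc L C D A y n σ → Fc L C D A y n σ' →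
      (∀ a ∈ A, σ a = σ' a) → σ '' A ⊆ D → ∃ ρ : U ≃[L] U, Fx L D ρ ∧ ∀ x ∈ Bn A y n, ρ (σ x) = σ' x) ∧
    (∀ (D D' : Set U) (σ : U ≃[L] U), D.Finite → D' ⊆ D → Fc L C D A y n σ → Fc L C D' A y n σ) ∧
    (∀ (D : Set U) (σ τ : U ≃[L] U), Fx L C τ → Fc L C D A y n σ →
      Fc L C (τ '' D) A y n (τ.comp σ)) ∧
    (NI L U → Ch L A y n → ∀ (D : Set U) (σ : U ≃[L] U), D.Finite → σ '' A ⊆ D → Fc L C D A y n σ →
      Ch L D (fun i => σ (y i)) n ∧ D ∪ σ '' Bn A y n = Bn D (fun i => σ (y i)) n) ∧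
    (NI L U → Ch L A y n → ∀ (D : Set U) (σ : U ≃[L] U), D.Finite → σ '' A ⊆ D → Fc L C D A y n σ →
      Atm L D (D ∪ σ '' Bn A y n))

end Pool.Agent.WOM
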