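import Pool.Agent.WOL.StG

/-!
WOL, T7-ACC (helper34), part 2: linking in general position (JM), two-sided types (TW), coherence (CO).
Conventions of StG.lean.  For a code `(C, b, y, n, w, t)`: `B = BB C b y n`, `σB = σ '' B`; `σB` is a TAIL of `a = σ b`.
Standing hypotheses: `Wn`, `TRV` (fTR), `NI`.  In `Cd2` two-sided types are allowed only if `n = 0`.
-/

set_option autoImplicit false
set_option linter.unusedVariables false

namespace Pool.Agent.WOM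

open FirstOrder.Language Set
open scoped FirstOrder

section defs

variable (L : FirstOrder.Language.{0, 0}) {U : Type} [L.Structure U]

variable (U) in
/-- inner sides of all orbits over `x, A` in the orbit of `x` over `A` -/
def NA [LinearOrder U] : Prop :=
  ∀ (A : Set U) (x u : U) (t : Bool), A.Finite → u ∈ Orb L A x → u ≠ x → leS t x u →
    SD L (insert x A) u (!t)

/-- a code with one definable side, or without tail -/
def Cd2 [LinearOrder U] (C : Set U) (b : U) (y : ℕ → U) (n : ℕ) (w : U) (t : Bool) : Prop :=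
  Cod L C b y n w t ∧ (SD L (BB C b y n) w (!t) ∨ n = 0)

/-- `a` and `a'` are near -/
def Nr [LinearOrder U] (C : Set U) (a a' : U) : Prop := ¬ Far L C a a' ∧ ¬ Far L C a' a

/-- `PI` for all finite subsets of `M` -/
def PIM [LinearOrder U] (C : Set U) (b : U) (y : ℕ → U) (n : ℕ) (w : U) (M : Set U) (a : U) : Prop :=
  ∀ D : Set U, D.Finite → D ⊆ M → C ⊆ D → a ∈ D → PI L C b y n w D a

/-- a stage of the construction: a finite set `D`, labels `β q`, `q ∈ F`, and the stages `H q` at which they were added;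
`(C₁, b₁)` is the starting point -/
structure Sg [LinearOrder U] (C : Set U) (b : U) (y : ℕ → U) (n : ℕ) (w : U) (C₁ : Set U) (b₁ : U)
    (D : Set U) (F : Set ℚ) (β : ℚ → U) (H : ℚ → Set U) : Prop where
  fin : D.Finite ∧ F.Finite ∧ C₁ ⊆ D
  lab : ∀ q ∈ F, β q ∈ D ∧ H q ⊆ D ∧ C₁ ⊆ H q ∧ Isd L (H q) (β q) ∧ β q ∈ Orb L C₁ b₁
  wide : ∀ q ∈ F, ∃ x ∈ Orb L (H q) (β q), Far L C x (β q)
  pi : ∀ q ∈ F, PI L C b y n w D (β q)
  can : ∀ q ∈ F, ∀ s : Bool, ∀ x ∈ Ge L (H q) (β q) s D, PI L C b y n w (insert x D) x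
  can0 : ∀ s : Bool, ∀ x ∈ Ge L C₁ b₁ s D, PI L C b y n w (insert x D) x
  hom : ∀ q ∈ F, ∀ q' ∈ F, q ≠ q' → β q ∈ H q' ∨ β q' ∈ H q
  far : ∀ q ∈ F, ∀ q' ∈ F, q < q' → Far L C (β q) (β q')

/-- the starting point of the construction -/
structure Bs [LinearOrder U] (C : Set U) (b : U) (y : ℕ → U) (n : ℕ) (w : U) (C₁ : Set U) (b₁ : U) :
    Prop where
  fin : C₁.Finite ∧ C ⊆ C₁
  b1 : b₁ ∈ Orb L C b
  iso : Isd L C₁ b₁
  wide : ∃ x ∈ Orb L C₁ b₁, Far L C x b₁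
  pi : ∀ x ∈ Orb L C₁ b₁, PI L C b y n w (insert x C₁) x

/-- the model `M` codes the order `J` -/
structure MD [LinearOrder U] (C : Set U) (b : U) (y : ℕ → U) (n : ℕ) (w : U) (C₁ : Set U)
    (J : Set ℚ) (M : Set U) (β : ℚ → U) : Prop where
  el : IsEl L M
  c1 : C₁ ⊆ M
  lab : ∀ q ∈ J, β q ∈ M ∧ β q ∈ Orb L C b ∧ PIM L C b y n w M (β q)
  far : ∀ q ∈ J, ∀ q' ∈ J, q < q' → Far L C (β q) (β q')
  all : ∀ a ∈ M, a ∈ Orb L C b → PIM L C b y n w M a → ∃ q ∈ J, Nr L C a (β q)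

end defs

/-- [gEX] exchange of chains.  PROOF.  1: induction on `n`: let `e = x n`: gIS 4 for `A = Bn A x n`: `Ch (Bn A x n) z m`, `Isd (Bn (Bn A x n) z m) e`; the induction hypothesis gives `Ch A z m`, `Ch (Bn A z m) x n`, and `Bn (Bn A x n) z m = Bn (Bn A z m) x n`.
2: induction on `n`.  3: induction on `Atm` (append one element to the sequence). -/
def St_gEX : Prop :=
  ∀ (L : FirstOrder.Language.{0, 0}) (U : Type) [L.Structure U] [LinearOrder U], Wn L U → TRV L U →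
    (∀ (A : Set U) (x z : ℕ → U) (n m : ℕ), A.Finite → Ch L A x n → Ch L (Bn A x n) z m →
      Ch L A z m ∧ Ch L (Bn A z m) x n) ∧
    (∀ (A : Set U) (x : ℕ → U) (n : ℕ), Ch L A x n → Atm L A (Bn A x n)) ∧
    (∀ (A D : Set U), Atm L A D → ∃ (x : ℕ → U) (n : ℕ), Ch L A x n ∧ D = Bn A x n)

/-- [gPI] the predicate `PI`.  `D` finite, `C ⊆ D`, `a ∈ D ∩ Orb C b`.  PROOF.  1: let `σ'` be another one.  gFC 2: `ρ` over `D` with `ρ σ = σ'` on `B`; `Orb (D ∪ σ'B) (ρ σ w) = ρ Orb (σB) (σ w) = Orb (σ'B) (ρ σ w) = Orb (σ'B) (σ' w)` (`ρ σ σ'⁻¹` fixes `σ'B`).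
2: gFC 1 for `D` gives `σ`, far over `D'` too (gFC 3); `Orb (D' ∪ σB) (σ w)` is between; 1.  3: let `σ` be far over `eD`, so over `D`; gFC 5: `Ch (eD) (σ ∘ y) n`; gIS 4: `Isd (D ∪ σB) e`; `σ w` is not isolated over `D ∪ σB` (`Orb (D ∪ σB) (σ w) = Orb (σB) (σ w)`, nSDI 3): nISO.
4: gFC 4, 1.  5: let `σ` be far over `uD`, `σ b = a`, suppose `Orb (uD ∪ σB) (σ w) = Orb (σB) (σ w)`; so `σ w` is complete over `D₁ = D ∪ σB`; `τ w` is complete over `D₁` (gFC 6, SAT 2).  `Cod.ct` for `τ⁻¹ σ`, moved by `τ` (nGER 5, NSB 3): `Nn (τB ∪ σB) (τ w) (σ w)` (both types are complete over `τB ∪ σB`, so the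
sets `Ge` are the whole orbits); gPN 1: `Nn D₁ (τ w) (σ w)`, `Nn D₁ u (σ w)` (NSB 2): contradiction. -/
def St_gPI : Prop :=
  ∀ (L : FirstOrder.Language.{0, 0}) (U : Type) [L.Structure U] [LinearOrder U], Wn L U → TRV L U →
    NI L U → ∀ (C : Set U) (b : U) (y : ℕ → U) (n : ℕ) (w : U) (t : Bool), Cod L C b y n w t →
    ∀ (D : Set U) (a : U), D.Finite → C ⊆ D → a ∈ D → a ∈ Orb L C b →
    (∀ σ : U ≃[L] U, Fc L C D (insert b C) y n σ → σ b = a →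
      Orb L (D ∪ σ '' BB C b y n) (σ w) = Orb L (σ '' BB C b y n) (σ w) → PI L C b y n w D a) ∧
    (∀ D' : Set U, D' ⊆ D → C ⊆ D' → a ∈ D' → PI L C b y n w D a → PI L C b y n w D' a) ∧
    (∀ e : U, Isd L D e → PI L C b y n w D a → PI L C b y n w (insert e D) a) ∧
    (∀ τ : U ≃[L] U, Fx L C τ → (PI L C b y n w D a ↔ PI L C b y n w (τ '' D) (τ a))) ∧
    (∀ (τ : U ≃[L] U) (u : U), Fx L C τ → τ b = a → τ '' BB C b y n ⊆ D →
      Orb L D (τ w) = Orb L (τ '' BB C b y n) (τ w) → u ∈ Orb L D (τ w) →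
      ¬ PI L C b y n w (insert u D) a)

/-- [gLG] general position.  `E` = the union of the two tails.  PROOF.  1: let `σ₀`, `σ₀'`, `u₀`, `u₀'` be the given ones.  gFC 2: `ρ` over `a, a', C` with `ρ σ₀ = σ` on `B`; `ρ σ₀'` is far over `a' ∪ σB` (gFC 4), gFC 2: `ρ'` over `a' ∪ σB` with `ρ' ρ σ₀' = σ'` on `B`.  `κ = ρ' ρ` fixes `C`, `κ σ₀ = σ`, `κ σ₀' = σ'` on `B`; it maps
`Ge (σ₀B) (σ₀ w) t E₀` onto `Ge (σB) (σ w) t E` (nGER 5, 4: `κ σ₀ σ⁻¹` fixes `σB`), the same for `σ₀'`; these sets are orbits over `E` (nGEX): NSB 3, 2.  2: gFC 4, nGER 5, NSB 3.  3: `n = 0`: the tails are `{a} ∪ C`, `{a'} ∪ C`: NSB 1.  Otherwise `SD B w (!t)`; by `NI`, nSDI 3, 2 for all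
`E ⊇ σB` elements of `Ge (σB) (σ w) t E` have the side `!t` definable, `t` not: (PS) links of such germs persist (gPN 2).  Take `σ` (tail of `a`) far over `a, a', C`, `σ'` (tail of `a'`) far over `a' ∪ σB`, `σ''` (tail of `a`) far over `σB ∪ σ'B`.  Over `E' = σB ∪ σ'B ∪ σ''B`: the germs of `σ`, `σ'` are linked (`LG a a'`, PS),
the germs of `σ`, `σ''` too (`Cod.ct` for `σ⁻¹ σ''`, PS), so those of `σ'`, `σ''` (nTRA).  gFC 5: `σ ∘ y` is a chain over `a, a', C`, then `σ' ∘ y`, then `σ'' ∘ y`; gEX 1 (twice): `σ ∘ y` is a chain over `E'' = σ'B ∪ σ''B`; so `Atm E'' E'` (gEX 2), gIS 3: the germs of `σ'`, `σ''` are linked over `E''` (`Ge .. E' ⊆ Ge .. E''`).  This is the position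
of `LG a' a`: by 1 `LG a' a` holds. -/
def St_gLG : Prop :=
  ∀ (L : FirstOrder.Language.{0, 0}) (U : Type) [L.Structure U] [LinearOrder U], Wn L U → TRV L U →
    NI L U → ∀ (C : Set U) (b : U) (y : ℕ → U) (n : ℕ) (w : U) (t : Bool), Cd2 L C b y n w t →
    ∀ (a a' : U), a ∈ Orb L C b → a' ∈ Orb L C b →
    (¬ LG L C b y n w t a a' → ∀ σ σ' : U ≃[L] U, Fc L C (insert a (insert a' C)) (insert b C) y n σ →
      σ b = a → Fc L C (insert a' (σ '' BB C b y n)) (insert b C) y n σ' → σ' b = a' →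
      ∀ u ∈ Ge L (σ '' BB C b y n) (σ w) t (σ '' BB C b y n ∪ σ' '' BB C b y n),
      ∀ u' ∈ Ge L (σ' '' BB C b y n) (σ' w) t (σ '' BB C b y n ∪ σ' '' BB C b y n),
        ¬ Nn L (σ '' BB C b y n ∪ σ' '' BB C b y n) u u') ∧
    (∀ κ : U ≃[L] U, Fx L C κ → (LG L C b y n w t a a' ↔ LG L C b y n w t (κ a) (κ a'))) ∧
    (LG L C b y n w t a a' → LG L C b y n w t a' a)

/-- [gP4] a realisation of a complete type of `a` does not disturb `a'`.  PROOF.  Let `σ` be far over `uD`, `σ b = a'`, `E₁ = D ∪ σB`.  `σ w` is complete over `E₁` (`PI D a'`), `τ w` is complete over `E₁` (`Atm D E₁`: gFC 6, SAT 2), `PI E₁ a` (gPI 3 along the chain, gFC 5).  Let `τ'` be far over `E₁`, `τ' b = a`, `E₂ = E₁ ∪ τ'B`: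
`τ' w` is complete over `E₂` (`PI E₁ a`), so are `σ w`, `τ w` (`Atm E₁ E₂`).  `Cod.ct` for `τ⁻¹ τ'`, moved by `τ`, and gPN 1: `Nn E₂ (τ w) (τ' w)`.  gLG 1 for `¬ LG a' a`, the tails `σB` (far over `a', a, C`: gFC 3) and `τ'B`: `¬ Nn (σB ∪ τ'B) (σ w) (τ' w)`; gTS: `¬ Nn E₂ (σ w) (τ' w)`; nTRA: `¬ Nn E₂ (τ w) (σ w)`; gPN 1 (contrapositive):
`¬ Nn E₁ (τ w) (σ w)`, NSB 2: `¬ Nn E₁ u (σ w)` (`u ∈ Orb D (τ w) = Orb E₁ (τ w)`): `Orb (uE₁) (σ w) = Orb E₁ (σ w) = Orb (σB) (σ w)`, `uE₁ = uD ∪ σB`; gPI 1. -/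
def St_gP4 : Prop :=
  ∀ (L : FirstOrder.Language.{0, 0}) (U : Type) [L.Structure U] [LinearOrder U], Wn L U → TRV L U →
    NI L U → ∀ (C : Set U) (b : U) (y : ℕ → U) (n : ℕ) (w : U) (t : Bool), Cd2 L C b y n w t →
    ∀ (D : Set U) (a a' u : U) (τ : U ≃[L] U), D.Finite → C ⊆ D → a ∈ D → a' ∈ D → a ∈ Orb L C b →
      a' ∈ Orb L C b → ¬ LG L C b y n w t a' a → Fx L C τ → τ b = a → τ '' BB C b y n ⊆ D →
      Orb L D (τ w) = Orb L (τ '' BB C b y n) (τ w) → u ∈ Orb L D (τ w) → PI L C b y n w D a →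
      PI L C b y n w D a' → PI L C b y n w (insert u D) a'

/-- [gJ0] if there are unlinked far pairs then far elements do not cut the germs.  `Q = Orb C b`.  PROOF.  (a) For `τ` over `C`, a side `s` and `d ∈ Ge C b s (τB)`: `¬ Nn (τB) d (τ w)`.  Suppose `Nn`.  `SD (τB) d (!s)` (`NI`; `Orb (τB) d ≠ Q`: `τ b ∈ τB`, `Q ≠ {b}`), `d` is not isolated (nISO), so
`¬ SD (τB) d s`; gPN 3: `SD (τB) (τ w) (!t)`.  gPN 2: over every finite `E ⊇ τB` the elements of `Ge (τB) (τ w) t E` and `Ge C b s E` are linked.  By conjugation this holds for all `τ` over `C`, so any two tails are linked over `E` (nTRA): `LG` for all pairs, contradiction.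
(b) 1: let `a' ∈ Ge C a s (aC)` (`s = true`, or `s = false`: nFFR), `τ` far over `a, a', C`, `τ b = a`.  If `Isd (aC) a'`: gFC 5, gIS 4: `Isd (τB) a'`, nISO.  If not: `τB` is atomic over `aC`, SAT 2: `Orb (τB) a' = Orb (aC) a' = Ge C a s (aC)`, so `a' ∈ Ge C b s (τB)` (this orbit over `τB` is contained in `Ge C a s (aC)`), (a).  So
`Orb (a' ∪ τB) (τ w) = Orb (τB) (τ w)`: gPI 1.  (c) 2: let `τ` be far over `d, d', a, C`, `τ b = a`.  By 1 (gFC 3): (*) `Orb (d ∪ τB) (τ w) = Orb (τB) (τ w)`.  Suppose `Nn (d ∪ τB) d' (τ w)`.  So `d'` is not isolated over `d ∪ τB` (nISO), nor over `d, a, C` (gIS 4), so `Orb (d ∪ τB) d' = Orb (d, a, C) d'` (SAT 2) and `d' ∈ Ge C b true (d ∪ τB)` as in (b).  Let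
`v ∈ Ge C b true (τB) = Orb (τB) v ∋ d'`.  `¬ Nn (τB) v (τ w)`, `¬ Nn (τB) d' (τ w)` ((a), NSB 2), `¬ Nn (τB) d (τ w)` (*).  `TRV`: `Nn (τB) d d'`, `Nn (τB) d v`.  gSEC (`A = τB`, `v₁ = d'`; nGER 1): (#) `Nn (v ∪ τB) v₂ (τ w)` for `v₂ ∈ Ge C b true (v ∪ τB)`.  `d`, `v` are not isolated over `τB` (otherwise both are, nISO, and `d'` is isolated over
`d ∪ τB` by gIS 5); so `d ∉ Isd (aC)` (gIS 4) and the elements of `Ge C b true (aC)` are not isolated over `aC` (gIS 5).  `SD (τB) (τ w) (!t)` (gPN 3 for (#): `SD (v ∪ τB) v₂ false` by `NI`; (a): `τ w` is complete over `v ∪ τB`).  Now let `(a₀, a₀')` be the given far pair, `σ`, `σ'` in general position, `E = σB ∪ σ'B`.  As in (b) `a₀' ∈ Ge C b true (σB)`: conjugate (#):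
`Nn (a₀' ∪ σB) v₂ (σ w)`, `v₂ ∈ Ge C b true (a₀' ∪ σB)`; gPN 2: `Ge C b true E` and `Ge (σB) (σ w) t E` are linked (`Orb (a₀' ∪ σB) (σ w) = Orb (σB) (σ w)` by 1, nGER 3).  `a₀ ∈ Ge C a₀' false (a₀'C)` (nFFR) is not isolated over `a₀'C` (conjugate to `d` over `aC`), so `a₀ ∈ Ge C b false (σ'B)`; `d ∈ Ge C b false (τB)` in the same way: some `κ` over `C` maps `τB` to `σ'B`
(as `σ' τ⁻¹`), `d` to `a₀`; `κ d' ∈ Ge C b true (a₀ ∪ σ'B)`, `Nn (a₀ ∪ σ'B) (κ d') (σ' w)` (NSB 3, 2; 1): `Ge C b true E` and `Ge (σ'B) (σ' w) t E` are linked.  nTRA: `LG a₀ a₀'`, contradiction.  3: nFAR 7, gLG 2, 3. -/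
def St_gJ0 : Prop :=
  ∀ (L : FirstOrder.Language.{0, 0}) (U : Type) [L.Structure U] [LinearOrder U], Wn L U → TRV L U →
    NI L U → ∀ (C : Set U) (b : U) (y : ℕ → U) (n : ℕ) (w : U) (t : Bool), Cd2 L C b y n w t →
    ∀ (a₀ a₀' : U), a₀ ∈ Orb L C b → Far L C a₀ a₀' → ¬ LG L C b y n w t a₀ a₀' →
    (∀ a ∈ Orb L C b, ∀ a' ∈ Orb L C b, (Far L C a a' ∨ Far L C a' a) →
      PI L C b y n w (insert a (insert a' C)) a) ∧
    (∀ d ∈ Orb L C b, ∀ a, Far L C d a → ∀ d' ∈ Ge L C a true (insert d (insert a C)),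
      PI L C b y n w (insert d (insert d' (insert a C))) a) ∧
    (∀ a ∈ Orb L C b, ∀ a' ∈ Orb L C b, (Far L C a a' ∨ Far L C a' a) → ¬ LG L C b y n w t a a')

/-- [gJB] the starting point.  PROOF.  `d ∈ Orb C b`, `b₁ ∈ Ge C d true (dC)`, `d' ∈ Ge C b₁ true (d, b₁, C)`, `C₁ = {d, d'} ∪ C`.  `d' ∈ Ge (dC) b₁ true (b₁ ∪ dC)` (nGER 1), nFFR over `dC`: `b₁ ∈ Ge (dC) d' false C₁`.  `iso`: side `false`: nSDI 2 and `SD (dC) d' false` (`NI`: `d' ∈ Ge C d true (dC)`,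
`Orb (dC) d' ≠ Orb C b ∋ d`); side `true`: `NI` (`Orb C₁ b₁ ≠ Orb (dC) d' ∋ d'`); nSDI 1.  `wide`: `x ∈ Ge (dC) d' false (b₁ ∪ C₁) ⊆ Orb C₁ b₁` (nGER 2, nGEX); `x ∈ Ge (dC) b₁ false (b₁ ∪ dC)` (nGER 2, 4), nFFR: `b₁ ∈ Ge (dC) x true (x ∪ dC) = Ge C x true (x, d, C)` (nGER 1, 4) `⊆ Ge C x true (xC)`.  `pi`: gJ0 2 for `x = b₁`, gPI 4 for `x ∈ Orb C₁ b₁`. -/
def St_gJB : Prop :=
  ∀ (L : FirstOrder.Language.{0, 0}) (U : Type) [L.Structure U] [LinearOrder U], Wn L U → TRV L U →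
    NI L U → ∀ (C : Set U) (b : U) (y : ℕ → U) (n : ℕ) (w : U) (t : Bool), Cd2 L C b y n w t →
    ∀ (a₀ a₀' : U), a₀ ∈ Orb L C b → Far L C a₀ a₀' → ¬ LG L C b y n w t a₀ a₀' →
    ∃ (C₁ : Set U) (b₁ : U), Bs L C b y n w C₁ b₁

/-- [gSN] new elements are not near.  PROOF.  (`H = H q`, `β = β q`, or `H = C₁`, `β = b₁`.)  First: for every `z ∈ Orb H β` there are `z', z'' ∈ Orb H β` with `Far z' z`, `Far z z''` (conjugate the pair of `wide` over `H ⊇ C`).  Suppose `Nr a x`.  `N = {z ∈ Orb C b | Nr a z}` is invariant over `aC ⊆ D`, so `Ge H β s D = Orb D x ⊆ N`.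
`s = false`: `z' ∈ Orb H β` with `Far z' x`, so `z' < x` (nFAR 1), `z' ∈ Ge H β false D` (nGER 7), so `Nr a z'`, `Nr a x`: contradiction to nFAR 4.  `s = true`: the same with `z''`.  Last part: this `z'` (or `z''`) is in `Ge H β s D = Orb D x`; if it is `z''` conjugate. -/
def St_gSN : Prop :=
  ∀ (L : FirstOrder.Language.{0, 0}) (U : Type) [L.Structure U] [LinearOrder U], Wn L U → TRV L U →
    NI L U → ∀ (C : Set U) (b : U) (H D : Set U) (β x : U) (s : Bool), C ⊆ H → H ⊆ D → D.Finite →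
      β ∈ Orb L C b → (∃ z ∈ Orb L H β, Far L C z β) → x ∈ Ge L H β s D →
      (∀ a ∈ D, a ∈ Orb L C b → Far L C a x ∨ Far L C x a) ∧ ∃ z ∈ Orb L D x, Far L C z x

/-- [gSS] the steps of the construction.  `NL`: no far pair is linked.  PROOF.  1: `lab`, `wide`, `hom`, `far`: clear.  `pi`: gPI 3.  `can`: `x ∈ Ge (H q) (β q) s (eD) ⊆ Ge (H q) (β q) s D` (nGER 2), so `PI (xD) x`; `Isd (eD) x` (gIS 5), `Isd D e`, so `Isd (xD) e` (gIS 2), gPI 3; the same for `can0`.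
2: let `τ` be far over `D`, `τ b = a` (gFC 1), `D₁ = D ∪ τB`: step 1 along the chain (gFC 5), so `Sg D₁`, and `PI D₁ a` (gPI 3).  `Orb D₁ (τ w) = Orb (τB) (τ w)` (`PI D a`).  `D' = insert (τ w) D₁`.  `¬ PI D' a`: gPI 5.  `pi`: gP4 (`a' = β q`; `NL`).  `can`: `x ∈ Ge (H q) (β q) s D' ⊆ Ge (H q) (β q) s D₁`: `PI (xD₁) x`, `Isd D₁ x` (gIS 5), so
`Orb (xD₁) (τ w) = Orb D₁ (τ w)` (nISO), `PI (xD₁) a` (gPI 3); gSN: `a`, `x` far; gP4 for `xD₁`, `a' = x`: `PI (insert (τ w) (xD₁)) x`.  `can0`: the same.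
3: if no `p ∈ F` or all `p ∈ F` are `> q`, or all are `< q`: `x ∈ Ge C₁ b₁ s D` with `s = false` if all are `> q`, `s = true` otherwise.  Otherwise let `q' < q < q''` be neighbours of `q` in `F`; `hom`: if `β q' ∈ H q''`: `x ∈ Ge (H q'') (β q'') false D`; otherwise `x ∈ Ge (H q') (β q') true D`.  Let `(H₀, β₀)` be the pair used, `O = Orb H₀ β₀`.  Position: `β₀ ∈ D` is not in
`Orb D x`, so `x < β₀` (`s = false`) or `β₀ < x` (nGER 7; in the case of `(C₁, b₁)` the same for all `β p ∈ D ∩ O`); the other neighbour is in `H₀`, so not in `O` (`O` is not a singleton), and `O` is convex.  So `x` is in the right interval; by gSN it is far from all `β p`: `far`.  `D' = insert x D`, `β' = update β q x`, `H' = update H q D`.  `Isd D x` (gIS 5; `Isd H₀ β₀`), `x ∈ Orb C₁ b₁`;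
`wide`: gSN; `pi` for `q`: `can`; `hom`: `β p ∈ D`; `can` for `q`: let `x' ∈ Ge D x s' (xD)`: `x' ∈ Orb D x = Ge H₀ β₀ s D`, so `PI (x'D) x'`; `Isd (xD) x'` (gIS 5), so `Isd (x'D) x` (gIS 2), gPI 3.  All other conditions: step 1 for `e = x`. -/
def St_gSS : Prop :=
  ∀ (L : FirstOrder.Language.{0, 0}) (U : Type) [L.Structure U] [LinearOrder U], Wn L U → TRV L U →
    NI L U → ∀ (C : Set U) (b : U) (y : ℕ → U) (n : ℕ) (w : U) (t : Bool), Cd2 L C b y n w t →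
    (∀ a ∈ Orb L C b, ∀ a' ∈ Orb L C b, (Far L C a a' ∨ Far L C a' a) → ¬ LG L C b y n w t a a') →
    ∀ (C₁ : Set U) (b₁ : U), Bs L C b y n w C₁ b₁ →
    Sg L C b y n w C₁ b₁ C₁ ∅ (fun _ => b₁) (fun _ => C₁) ∧
    ∀ (D : Set U) (F : Set ℚ) (β : ℚ → U) (H : ℚ → Set U), Sg L C b y n w C₁ b₁ D F β H →
    (∀ e : U, Isd L D e → Sg L C b y n w C₁ b₁ (insert e D) F β H) ∧
    (∀ a ∈ D, a ∈ Orb L C b → (∀ q ∈ F, ¬ Nr L C a (β q)) → PI L C b y n w D a →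
      ∃ D' : Set U, D ⊆ D' ∧ Sg L C b y n w C₁ b₁ D' F β H ∧ ¬ PI L C b y n w D' a) ∧
    (∀ q : ℚ, q ∉ F → ∃ x : U, Sg L C b y n w C₁ b₁ (insert x D) (insert q F)
      (Function.update β q x) (Function.update H q D))

/-- [gMD] the models.  PROOF.  A sequence of stages `(D k, F k, β k, H k)`, increasing, with `F k ⊆ J`, `β (k+1) = β k` on `F k`, starting with `(C₁, ∅)`; countably many tasks, each done infinitely often (`U` is countable, nonempty): label `q ∈ J` (gSS 3, if `q ∉ F k`); `(m, z)`: `m ≤ k`, `Isd (D m) z`: add an element of `Orb (D m) z`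
which is isolated over `D k` (DNS, gSS 1); kill `a`: if `a ∈ D k ∩ Orb C b` is not near a label `β q`, `q ∈ F k`, and `PI (D k) a`: gSS 2.  `M` = the union.  `el`: as SMM.  `lab`: `PI (D k) (β q)` for all large `k`, gPI 2.  `all`: suppose `a` is not near any `β q`, `q ∈ J`; when the task of `a` is done at a stage with `a ∈ D k`: `PI (D k) a` by `PIM`, so
`¬ PI (D (k+1)) a`: contradiction to `PIM`. -/
def St_gMD : Prop :=
  ∀ (L : FirstOrder.Language.{0, 0}) (U : Type) [L.Structure U] [LinearOrder U], Wn L U → TRV L U →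
    NI L U → ∀ (C : Set U) (b : U) (y : ℕ → U) (n : ℕ) (w : U) (t : Bool), Cd2 L C b y n w t →
    (∀ a ∈ Orb L C b, ∀ a' ∈ Orb L C b, (Far L C a a' ∨ Far L C a' a) → ¬ LG L C b y n w t a a') →
    ∀ (C₁ : Set U) (b₁ : U), Bs L C b y n w C₁ b₁ → ∀ J : Set ℚ,
      ∃ (M : Set U) (β : ℚ → U), MD L C b y n w C₁ J M β

/-- [gLE] the order is decoded.  PROOF.  As SLE: (PR) if `Γ` contains `(a, a')` and `(c, c)`, `c ∈ C₁`, `BFR M M' γ' Γ` with `γ' ≥ ω + ω`, `a ∈ Orb C b`, `PIM M a` then `a' ∈ Orb C b`, `PIM M' a'`: let `D' ⊆ M'` be finite, `C ∪ {a'} ⊆ D'`; back for its elements: a finite `D ⊆ M`, level `≥ ω`, LV0: `σ` over `C₁` with `σ a = a'`, `σ '' D = D'` (take `D` = the elements which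
correspond to those of `D'`, `a` for `a'`, `c` for `c`); `PI D a`, so `PI D' a'` (gPI 4).  Then SLE with `Far C` in the place of `Fr` (nFAR 5, 4) and the levels `ω + ω + γ`. -/
def St_gLE : Prop :=
  ∀ (L : FirstOrder.Language.{0, 0}) [∀ n, IsEmpty (L.Functions n)] (U : Type)
    [S : L.Structure U] [LinearOrder U], Wn L U → TRV L U → NI L U →
    ∀ (C : Set U) (b : U) (y : ℕ → U) (n : ℕ) (w : U) (t : Bool), Cd2 L C b y n w t →
    ∀ (C₁ : Set U), C₁.Finite → C ⊆ C₁ → ∀ (J J' : Set ℚ) (M M' : Set U) (β β' : ℚ → U)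
      (γ : Ordinal.{0}), MD L C b y n w C₁ J M β → MD L C b y n w C₁ J' M' β' →
      Pool.Agent.Helper79.VC.BFR S S M M' (Ordinal.omega0 + Ordinal.omega0 + γ)
        {p | p.1 = p.2 ∧ p.1 ∈ C₁} → HER.LE γ J J'

/-- [gJM] far pairs are linked in general position.  PROOF.  Otherwise gJ0, gJB, gMD for `J = I f` (`HER.thm_LOF`), `ScU` with `d` an enumeration of `C₁`, gLE: as SNO.  (fTR gives `TRV`.) -/
def St_gJM : Prop :=
  ∀ (L : FirstOrder.Language.{0, 0}) [∀ n, IsEmpty (L.Functions n)] (U : Type)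
    [S : L.Structure U] [LinearOrder U], Wn L U → ScU L S → NI L U →
    ∀ (C : Set U) (b : U) (y : ℕ → U) (n : ℕ) (w : U) (t : Bool), Cd2 L C b y n w t →
    ∀ a ∈ Orb L C b, ∀ a', Far L C a a' → LG L C b y n w t a a'

/-! ### Two-sided types -/

/-- [gTV] two-sided types, one element.  PROOF.  Suppose not: `W = Orb (bD) w ≠ Z = Orb D w`, `Q = Orb D b`, `Nn D b w`, `Q ≠ {b}`, `Z ≠ {w}` (NSB 5).  For `y = σ b ∈ Q`, `σ` over `D`, let `W y = σ '' W` (independent of `σ`).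
(A0) A two-sided type over `A` is not linked over `A` to a type with a definable side (gPN 3, NSB 1).  (A1) For `y, y' ∈ Q`, `x ∈ W y`: `Orb (y', y, D) x = W y`: `NA` and (A0).  (A2) So `W y`, `W y'` are equal or disjoint.  (A3) If `W y = W y'` for one far pair then for all far pairs (nFAR 7), then for all pairs (`y''` in `Ge D b true (y, y', D)` is far from
both), so `W` is invariant over `D`, `W = Z`: contradiction.  For `y ∈ Q` let `[y] = {y' ∈ Q | W y' = W y}`.  (A4) for `x ∈ W y`: `[y] = Orb (xD) y` (if `y' = σ y`, `x ∈ W y' = σ '' W y`, `x = σ x₁`, `x₁ = κ x` with `κ` over `yD`: `σ κ` fixes `x`, `D`, maps `y` to `y'`); so `[y]` is convex, invariant over `yD`.  (A5) `b` is two-sided over `wD`: suppose one side of `Orb (wD) b = [b]` is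
definable over `wD`; by reversing the order let it be the side `true`.  `Cls true [b]` is invariant over `bD`, so definable over `bD` (ORB 8), `= k b` with `DF L D k` (SDF 8), `k y = Cls true [y]` for `y ∈ Q`.  `p ∈ Ge D b false (bD)`: by (A3) and nGER 7 `p` is `<` all of `[b]`.  `Cls false [b] = {z | ∃ y, p ≤ y ∧ y ≤ b ∧ b ∈ k y ∧ y ≤ z}` (`y ∈ Q`,
`b ∈ Cls true [y]`, `y ≤ b`: `b ∈ [y]`), definable over `p, b, D`.  So `[b]` is definable over a finite set and invariant over `wD`: `wD`-definable, `= φ w` with `DF L D φ` (`Dx.fib`), and for `x ∈ Z`: `φ x = {y ∈ Q | x ∈ W y}`.  `W` is bounded on both sides in `Z`: otherwise `w ∈ Ge D w s (bD)`, `NI` gives a definable side or `W = Z`.  So `W = {x | z₁ ≤ x ∧ x ≤ z₂ ∧ b ∈ φ x}` with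
`z₁, z₂ ∈ Z`, so (ORB 8) `W` is `bD`-definable: contradiction.
(TC) `b₀ ∈ Ge D b true (w, b, D)`, `A = b₀D`, `P = W b`, `R = W b₀`, `Q' = [b] = Orb (wD) b`: `TC L A P Q' R`.  `pq`, `rr`, `rq`: (A1) (`P = W y` for `y ∈ Q'`).  `rp`: for `x = w`: nSMA (`D`, `b`, `w`): `w ∈ Ge D w s' (b₀D)` for some `s'`, so `SD (b₀D) w (!s')` (`NI`, `Nn D b₀ w`), (A0): `¬ Nn (b₀D) w c`; for other `x ∈ P = Orb (b, b₀, D) w` (A1) conjugate.  `qp`: for `x = w`:
`b₀ ∈ Ge D b true (wD)`, `SD (wD) b₀ false` (`NI`, `Nn D w b`); (A5), (A0): `¬ Nn (wD) b₀ b`; conjugate over `b, b₀, D`: `¬ Nn (xD) b₀ b` for `x ∈ P`, NSB 2: `¬ Nn (xD) b₀ y`, `y ∈ Q' = Orb (xD) b`.  `nn`: gJM for the code `(D, b, y, 0, w, true)` (`Cod.ct`: `σ` over `bD` fixes the base: nGER 5, 4, NSB 4) and the far pair `b, b₀`: `Nn (b, b₀, D) w c` for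
`c ∈ R` (by (A1) the types are complete over `b, b₀, D`).  Contradiction to STT. -/
def St_gTV : Prop :=
  ∀ (L : FirstOrder.Language.{0, 0}) [∀ n, IsEmpty (L.Functions n)] (U : Type)
    [S : L.Structure U] [LinearOrder U], Wn L U → ScU L S → NA L U → NI L U →
    ∀ (D : Set U) (b w : U), D.Finite → ¬ SD L (insert b D) w true → ¬ SD L (insert b D) w false →
      Orb L (insert b D) w = Orb L D w

/-- [gTW] two-sided types are types over the empty set.  PROOF.  Induction on the finite set `B`: gTV, nSDI 3. -/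
def St_gTW : Prop :=
  ∀ (L : FirstOrder.Language.{0, 0}) [∀ n, IsEmpty (L.Functions n)] (U : Type)
    [S : L.Structure U] [LinearOrder U], Wn L U → ScU L S → NA L U → NI L U →
    ∀ (B : Set U) (w : U), B.Finite → ¬ SD L B w true → ¬ SD L B w false → Orb L B w = Orb L ∅ w

/-! ### Coherence -/

/-- [gCO] coherence.  PROOF.  `B = Bn C y n`, `E₀ = B ∪ σB`.  If both sides of `w` are not definable: gTW, so `Ge B w t E₀ = Ge ∅ w t E₀ = Ge (σB) (σ w) t E₀` (nGER 3, 4), one orbit over `E₀`, not a singleton: NSB 4.  Otherwise `SD B w (!t)`; (PS) of gLG.  Induction on `n` for all `C`, `y`, `w`, `σ`.  `n = 0`: `σB = B`: NSB 4.  `n + 1`: `b = y 0`, `y' i = y (i+1)`,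
`B = BB C b y' n`; `Cd2 L C b y' n w t` by the induction hypothesis for `bC`.  If `Orb C b = {b}`: `σ` fixes `bC`, induction hypothesis.  Otherwise let `a ∈ Ge C b true E₀`: `Far C b a`, `Far C (σ b) a` (nGER 4), `Isd E₀ a` (gIS 5).  `ρ` (`ρ b = b`) far over `E₁ = aE₀`; `ρ'` (`ρ' b = σ b`) far over `E₁ ∪ ρB`; `ρ''` (`ρ'' b = a`) far over `E₁ ∪ ρB ∪ ρ'B`; `E` = the union.  Over `E` (PS): `B` and
`ρB` are linked (`ct`), `σB` and `ρ'B` (`ct` for `σ⁻¹ ρ'`, moved by `σ`), `ρB` and `ρ''B` (gJM: `LG b a`), `ρ'B` and `ρ''B` (`LG (σ b) a`): nTRA.  `Atm E₀ E` (gFC 6): gIS 3. -/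
def St_gCO : Prop :=
  ∀ (L : FirstOrder.Language.{0, 0}) [∀ n, IsEmpty (L.Functions n)] (U : Type)
    [S : L.Structure U] [LinearOrder U], Wn L U → ScU L S → NA L U → NI L U →
    ∀ (n : ℕ) (C : Set U) (y : ℕ → U) (w : U) (t : Bool) (σ : U ≃[L] U), C.Finite → Ch L C y n →
      ¬ SD L (Bn C y n) w t → Fx L C σ → Lk L (Bn C y n) w t σ

end Pool.Agent.WOM
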