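import Pool.Agent.WOL.StG2
import Pool.Agent.WOL.LFC

/-!
WOL, T7-ACC (helper34), part 3: finitely many classes over atomic sets (FN), new types over nonisolated elements
are linked to types over atomic extensions (VI), finitely many ends (FE), the theorem.
Conventions of StG.lean, StG2.lean.  (PS) PERSISTENCE FOR ONE-SIDED GERMS: if `SD B w (!t)`, `¬ SD B w t` then for
`E ⊇ B` the elements `u` of `Ge B w t E` satisfy `¬ SD E u t` (nSDI 2), `SD E u (!t)` (`NI`, nSDI 3); so (gPN 2) a link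
between `Ge B w t E` and `Ge B' w' t' E` persists to larger finite sets, and `w'` is one-sided too (gPN 3).
-/

set_option autoImplicit false
set_option linter.unusedVariables false

namespace Pool.Agent.WOM

open FirstOrder.Language Set
open scoped FirstOrder

section defs

variable (L : FirstOrder.Language.{0, 0}) {U : Type} [L.Structure U]

/-- the type of `w` with the base `y 0, .., y (k-1)` far over `D` is complete over `D` and the base -/
def PN [LinearOrder U] (y : ℕ → U) (k : ℕ) (w : U) (D : Set U) : Prop :=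
  ∀ σ : U ≃[L] U, Fc L ∅ D ∅ y k σ →
    Orb L (D ∪ σ '' Bn ∅ y k) (σ w) = Orb L (σ '' Bn ∅ y k) (σ w)

/-- pairwise orthogonal nonisolated types over an atomic sequence -/
structure Sq (y : ℕ → U) (k : ℕ → ℕ) (w : ℕ → U) : Prop where
  ch : ∀ i, Ch L ∅ y (k i)
  mono : Monotone k
  ni : ∀ i, ¬ Isd L (Bn ∅ y (k i)) (w i)
  wo : ∀ i j, i < j → ¬ Nn L (Bn ∅ y (k j)) (w i) (w j)

/-- `r` is `B`-connected to `r'`: there is a `B`-definable increasing function `g` from a final part of `r` to the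
cuts inside `r'`, with union `r'` -/
def Cn [LinearOrder U] (B r r' : Set U) : Prop :=
  ∃ (g : U → Set U) (l : Set U), DF L B g ∧ B.Definable₁ L l ∧ Low l ∧ ¬ r ⊆ l ∧
    (∀ u ∈ r, u ∉ l → Low (g u) ∧ g u ⊆ r' ∧ ¬ r' ⊆ g u) ∧
    (∀ u ∈ r, u ∉ l → ∀ u' ∈ r, u ≤ u' → g u ⊆ g u') ∧ ∀ v ∈ r', ∃ u ∈ r, u ∉ l ∧ v ∈ g u

/-- the last type over `B` inside the cut `r` -/
def LT [LinearOrder U] (B r : Set U) : Set U :=
  {u | u ∈ r ∧ ∀ K : Set U, B.Definable₁ L K → Low K → ¬ r ⊆ K → u ∉ K}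

end defs

/-! ### Finitely many classes over atomic sets -/

/-- [gQN] the predicate `PN`.  PROOF.  As gPI (with gFC for `C = A = ∅`): 1: gFC 2.  2: gFC 1, 3.  3: gFC 5, gIS 4, nISO.  4: gFC 4.  5: `∅ ∪ σB = σB`. -/
def St_gQN : Prop :=
  ∀ (L : FirstOrder.Language.{0, 0}) (U : Type) [L.Structure U] [LinearOrder U], Wn L U → TRV L U →
    NI L U → ∀ (y : ℕ → U) (k : ℕ) (w : U), Ch L ∅ y k → ¬ Isd L (Bn ∅ y k) w →
    (∀ (D : Set U) (σ : U ≃[L] U), D.Finite → Fc L ∅ D ∅ y k σ →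
      Orb L (D ∪ σ '' Bn ∅ y k) (σ w) = Orb L (σ '' Bn ∅ y k) (σ w) → PN L y k w D) ∧
    (∀ D D' : Set U, D.Finite → D' ⊆ D → PN L y k w D → PN L y k w D') ∧
    (∀ (D : Set U) (e : U), D.Finite → Isd L D e → PN L y k w D → PN L y k w (insert e D)) ∧
    (∀ (D : Set U) (τ : U ≃[L] U), PN L y k w D ↔ PN L y k w (τ '' D)) ∧ PN L y k w ∅

/-- [gF2] killing one type.  `Y i = Bn ∅ y (k i)`, `P i D = PN y (k i) (w i) D`.  PROOF.  `τ` far over `D` for `Y n` (gFC 1), `D₁ = D ∪ τ(Y n)`: `P i D₁` for `i ∈ S` and `i = n` (gQN 3 along the chain, gFC 5).  `D' = insert (τ (w n)) D₁`.  (C) for copies `α`, `β` of `Y i` (`α, β` automorphisms): if `α (w i)`, `β (w i)` are complete over a finite `E ⊇ α(Y i) ∪ β(Y i)` then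
`Nn E (α (w i)) (β (w i))`: gCO (`t` with `¬ SD (Y i) (w i) t`, `σ = α⁻¹ β`, moved by `α`), gPN 1.  `¬ P n D'`: let `σ` be far over `D'` (for `Y n`) and suppose that `σ (w n)` is complete over `D' ∪ σ(Y n)`; `E = D₁ ∪ σ(Y n)`: `τ (w n)` is complete over `D₁` (`P n D`), over `E` (gFC 6, SAT 2): (C) gives `Nn E (τ (w n)) (σ (w n))`: contradiction.
`P i D'` for `i ∈ S`: `σ` far over `D'` (for `Y i`), `E = D₁ ∪ σ(Y i)`; `σ (w i)` and `τ (w n)` are complete over `E`.  `i < n`: `τ (w i)` is complete over `D ∪ τ(Y i)` (`P i D`; `τ` is far over `D` for `Y i`), so over `D₁`, `E` (chains, SAT 2).  `Sq.wo`, gTS: `¬ Nn E (τ (w i)) (τ (w n))`; (C): `Nn E (τ (w i)) (σ (w i))`; nTRA: `¬ Nn E (τ (w n)) (σ (w i))`.  `n < i`: `σ (w n)` is complete over `D₁ ∪ σ(Y n)`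
(`P n D₁`; `σ` is far for `Y n`), so over `E`; `¬ Nn E (σ (w n)) (σ (w i))` (`Sq.wo`, gTS), `Nn E (τ (w n)) (σ (w n))` (C); nTRA: `¬ Nn E (τ (w n)) (σ (w i))`.  So `Orb (D' ∪ σ(Y i)) (σ (w i)) = Orb E (σ (w i))`; gQN 1. -/
def St_gF2 : Prop :=
  ∀ (L : FirstOrder.Language.{0, 0}) [∀ n, IsEmpty (L.Functions n)] (U : Type)
    [S : L.Structure U] [LinearOrder U], Wn L U → ScU L S → NA L U → NI L U →
    ∀ (y : ℕ → U) (k : ℕ → ℕ) (w : ℕ → U), Sq L y k w → ∀ (D : Set U) (S : Set ℕ) (n : ℕ), D.Finite →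
      (∀ i ∈ S, PN L y (k i) (w i) D) → n ∉ S → PN L y (k n) (w n) D →
      ∃ D' : Set U, D'.Finite ∧ D ⊆ D' ∧ (∀ i ∈ S, PN L y (k i) (w i) D') ∧ ¬ PN L y (k n) (w n) D'

/-- [gF3] the models.  PROOF.  A sequence `∅ = D 0 ⊆ D 1 ⊆ ..` of finite sets with `PN y (k i) (w i) (D j)` for all `i ∈ S` (gQN 5); tasks: isolated types (as SMM; gQN 3), and for `n ∉ S`: if `PN y (k n) (w n) (D j)` then gF2.  `M` = the union; gQN 2. -/
def St_gF3 : Prop :=
  ∀ (L : FirstOrder.Language.{0, 0}) [∀ n, IsEmpty (L.Functions n)] (U : Type)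
    [S : L.Structure U] [LinearOrder U], Wn L U → ScU L S → NA L U → NI L U →
    ∀ (y : ℕ → U) (k : ℕ → ℕ) (w : ℕ → U), Sq L y k w → ∀ S : Set ℕ, ∃ M : Set U, IsEl L M ∧
      ∀ n, (∀ D : Set U, D.Finite → D ⊆ M → PN L y (k n) (w n) D) ↔ n ∈ S

/-- [gCC] concatenation of chains.  PROOF.  States `(x, m)` with `Ch ∅ x m`; the next state `(x', m')`: `Y = Bn ∅ x m`, `Y' = Bn ∅ x' m'`, `m ≤ m'`, `x' = x` on `{i | i < m}` (gEX 3 for `Atm Y Y'`).  `y j` = the value of `x_i j` for the first `i` with `j < m_i` (anything if there is none). -/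
def St_gCC : Prop :=
  ∀ (L : FirstOrder.Language.{0, 0}) (U : Type) [L.Structure U] [LinearOrder U], Wn L U → TRV L U →
    ∀ P : Set U → Set U → U → Prop,
      (∀ Y : Set U, Atm L ∅ Y → ∃ (Y' : Set U) (w : U), Atm L Y Y' ∧ P Y Y' w) →
      ∃ (y : ℕ → U) (k : ℕ → ℕ) (w : ℕ → U), Monotone k ∧ (∀ i, Ch L ∅ y (k i)) ∧
        ∀ i, P (Bn ∅ y (k i)) (Bn ∅ y (k (i + 1))) (w i)

/-- [gFN] no new classes over atomic extensions of a suitable atomic set.  PROOF.  Otherwise gCC for `P Y Y' w`: `¬ Isd Y' w` and `¬ Nn Y' w v` for all `v` with `¬ Isd Y v`.  `Sq y k' w` with `k' i = k (i+1)`: for `i < j` `w i` is not isolated over `Bn ∅ y (k j)` (atomic over `Bn ∅ y (k (i+1))`: SAT 2, nSDI 3), so `¬ Nn (Bn ∅ y (k (j+1))) (w j) (w i)`; NSB 1.  gF3: `X f` = the model for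
`{n | f n = true}`.  `ScU` with `n = 0` and the level `ω + ω`: `f ≠ g`, `BFR (X f) (X g) (ω + ω) ∅`, WLOG `f n = true`, `g n = false`: a finite `D' ⊆ X g` with `¬ PN .. D'`; back for the elements of `D'`: `D ⊆ X f`, LV0: `σ '' D = D'`, `PN .. D`: contradiction to gQN 4. -/
def St_gFN : Prop :=
  ∀ (L : FirstOrder.Language.{0, 0}) [∀ n, IsEmpty (L.Functions n)] (U : Type)
    [S : L.Structure U] [LinearOrder U], Wn L U → ScU L S → NA L U → NI L U →
    ∃ Y : Set U, Atm L ∅ Y ∧ ∀ (Y' : Set U) (w : U), Atm L Y Y' → ¬ Isd L Y' w →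
      ∃ v, ¬ Isd L Y v ∧ Nn L Y' w v

/-! ### Connected cuts -/

/-- [gK0] the last type in a cut.  `r` `B`-definable, `Low`, nonempty.  PROOF.  1: saturation: finitely many `K` with `¬ r ⊆ K` are contained in the largest one.  2: if `u < u'` are in `LT B r`, `u' ∉ Orb B u`: SCUT gives `K`, `u ∈ K`, `u' ∉ K`: contradiction to `u ∉ K`; `Orb B u ⊆ LT B r`: ORB 6 (`r` and the `K` are `B`-definable).  3: let `v ∈ r`: if `v ∉ LT B r` then `v ∈ K` for some `K`, `u ∉ K`, so `v < u`.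
4: `v ∈ K` would give `u ∈ K`.  5: 2, 3 for `B'`.  6: if `w ∈ K` then `Orb B w ⊆ K` (ORB 6), `r ⊆ K`. -/
def St_gK0 : Prop :=
  ∀ (L : FirstOrder.Language.{0, 0}) (U : Type) [L.Structure U] [LinearOrder U], Wn L U →
    (∀ B r : Set U, B.Finite → B.Definable₁ L r → Low r → r.Nonempty →
      (LT L B r).Nonempty ∧ (∀ u ∈ LT L B r, LT L B r = Orb L B u) ∧ Cls true (LT L B r) = r ∧
      (∀ u ∈ LT L B r, ∀ v ∈ r, u ≤ v → v ∈ LT L B r) ∧
      ∀ B' : Set U, B ⊆ B' → B'.Finite → LT L B' r ⊆ LT L B r ∧ ∀ u ∈ LT L B' r, u ∈ Ge L B u true B') ∧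
    (∀ (B : Set U) (w : U), B.Finite → SD L B w true → LT L B (Cls true (Orb L B w)) = Orb L B w)

/-- [gK1] connected cuts have linked last types.  PROOF.  `u'`, `v'` range over `LT B' r`, `LT B' r'`; `l` is `B'`-definable, `Low`, `¬ r ⊆ l`, so `u' ∉ l`.  Suppose `Orb (vB') u = Orb B' u`; then all pairs `(u', v')` are conjugate over `B'` (gK0 2), and `g` is `B'`-definable (SFX 1).  If `v' ∈ g u'` for one, so for all pairs: `LT B' r' ⊆ g u'`, so `r' ⊆ g u'` (gK0 3, `Low`), contradiction.  So `v' ∉ g u'` for all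
pairs; but `v ∈ g u₁` for some `u₁ ∈ r`, `u₁ ∉ l`, and `u₁ ≤ u'` for some `u' ∈ LT B' r` (gK0 3), so `v ∈ g u'`.  So `Nn B' v u`; NSB 1. -/
def St_gK1 : Prop :=
  ∀ (L : FirstOrder.Language.{0, 0}) (U : Type) [L.Structure U] [LinearOrder U], Wn L U →
    ∀ (B B' r r' : Set U) (u v : U), B ⊆ B' → B'.Finite → B'.Definable₁ L r → Low r →
      B'.Definable₁ L r' → Low r' → Cn L B r r' → u ∈ LT L B' r → v ∈ LT L B' r' → Nn L B' u v

/-- [gK2] linked one-sided types give connected cuts.  `r = Cls true (Orb B w)`, `r' = Cls true (Orb B w')`.  PROOF.  nSMA: `Ori B w' w e`; nSMB: `SD B w' true`, so `SD B w (sg e true)`, `¬ SD B w false`: `e = true`.  SGM for `Nn B w w'` (`c = w`, `x = w'`): `s`, `F`.  `s = false`: let `c' ∈ Orb B w`, `x' ∈ Ge B w' true (c'B)`: `x' ∉ F c'` (ORB 6: otherwise `F c'` contains the last orbit over `c'B`, so `Orb B w'`); `c' ∈ Ge B w false (x'B)` (`Ori`, NSB 1).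
Let `c'' ∈ Ge B w true (x'B)`: `x' ∈ Ge B w' false (c''B)`, so `x' ∈ F c''`, and `c' < c''`: `F c'' ⊆ F c'` is false, so `s ≠ true`.  So `F` is increasing on `Orb B w`.  For `u ∈ Orb B w`: `F u` does not contain `Orb B w'`, so `F u ⊆ r'`, `¬ r' ⊆ F u`.  Let `G` be the set of all `u ∈ r` such that for all `u' ∈ r` with `u ≤ u'`: `Low (F u')`, `F u' ⊆ r'`, `¬ r' ⊆ F u'`, and `F u' ⊆ F u''` for all `u'' ∈ r` with
`u' ≤ u''`: `B`-definable, contains `Orb B w` (elements of `r` above an element of `Orb B w` are in `Orb B w`), closed upwards in `r`.  `l = {u | ∀ z ∈ G, u < z}`.  The last condition: `V = ⋃ F u`, `u ∈ r \ l`, is `B`-definable, `Low`, `V ⊆ r'`; if `V ≠ r'` then `V ∩ LT B r' = ∅`, but `F w` meets `Orb B w' = LT B r'` (gK0 6). -/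
def St_gK2 : Prop :=
  ∀ (L : FirstOrder.Language.{0, 0}) (U : Type) [L.Structure U] [LinearOrder U], Wn L U →
    ∀ (B : Set U) (w w' : U), B.Finite → Nn L B w w' → SD L B w true → ¬ SD L B w false →
      SD L B w' true → ¬ SD L B w' false →
      Cn L B (Cls true (Orb L B w)) (Cls true (Orb L B w'))

/-- [gCF] connectedness is witnessed by a formula.  PROOF.  The witnesses `g`, `l` for the tuple `c` are definable over `A ∪ range c`: `g = G c`, `l = Λ c` with `A`-definable families `G : (Fin m → U) → U → Set U`, `Λ : (Fin m → U) → Set U` (replace the parameters `c` by variables).  `χ` = the set of the `c'` for which all conditions in `Cn` hold for `G c'`, `Λ c'`, `ρ c'`, `ρ' c'`. -/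
def St_gCF : Prop :=
  ∀ (L : FirstOrder.Language.{0, 0}) (U : Type) [L.Structure U] [LinearOrder U], Wn L U →
    ∀ (A : Set U) (m : ℕ) (c : Fin m → U) (ρ ρ' : (Fin m → U) → Set U),
      A.Definable L {v : Fin m ⊕ Unit → U | v (Sum.inr ()) ∈ ρ (fun i => v (Sum.inl i))} →
      A.Definable L {v : Fin m ⊕ Unit → U | v (Sum.inr ()) ∈ ρ' (fun i => v (Sum.inl i))} →
      Cn L (A ∪ range c) (ρ c) (ρ' c) → ∃ χ : Set (Fin m → U), A.Definable L χ ∧ c ∈ χ ∧
        ∀ c' ∈ χ, Cn L (A ∪ range c') (ρ c') (ρ' c')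

/-- [gTO] the orbit of a chain is definable.  PROOF.  Induction on `n`: `Orb (Bn A y n) (y n) = φ (y 0, .., y (n-1))` with an `A`-definable family `φ`; the orbit of `(y 0, .., y n)` is the set of the `z` with `z ↾ n` in the orbit of `(y 0, .., y (n-1))` and `z n ∈ φ (z ↾ n)`. -/
def St_gTO : Prop :=
  ∀ (L : FirstOrder.Language.{0, 0}) (U : Type) [L.Structure U] [LinearOrder U], Wn L U →
    ∀ (A : Set U) (y : ℕ → U) (n : ℕ), A.Finite → Ch L A y n →
      A.Definable L {z : Fin n → U | ∃ κ : U ≃[L] U, Fx L A κ ∧ ∀ i : Fin n, κ (y i) = z i}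

/-- [gRF] reflection of one element.  PROOF.  `s = true` (`s = false`: reversed order).  `c = Cls true (Orb D b) = Cls true (Orb B b')` is not definable over any finite set (ORB 8).  Claim: there is a `D`-definable `Low` set `K ⊇ c` such that all `z ∈ K` with `b' ≤ z` are in `S`.  Otherwise by saturation (finitely many such `K`: their intersection) there is `z ∉ S`, `b' ≤ z`, in all `D`-definable `Low` `K ⊇ c`.  If `z ∉ Orb D b` then SCUT for
`b' < z` gives such a `K` with `z ∉ K` (`b' ∈ K`, ORB 6): contradiction.  So `z ∈ Orb D b`, `z ∈ Ge D b true B = Orb B b' ⊆ S` (nGER 7, ORB 6): contradiction.  `K ≠ c`; let `z₀ ∈ K \ c`; SCUT for `b < z₀` (`z₀ ∉ Orb D b`): `K'` `D`-definable, `Low`, `c ⊆ K'`, `z₀ ∉ K'`.  DNS: `z₁ ∈ K \ K'` with `Isd D z₁`; `x ∈ Ge D z₁ true B`: `Isd B x` (gIS 5), `x ∈ Orb D z₁ ⊆ K \ K' ⊆ S`. -/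
def St_gRF : Prop :=
  ∀ (L : FirstOrder.Language.{0, 0}) (U : Type) [L.Structure U] [LinearOrder U], Wn L U → TRV L U →
    NI L U → ∀ (D B S : Set U) (b b' : U) (s : Bool), D ⊆ B → B.Finite → ¬ SD L D b s →
      b' ∈ Ge L D b s B → B.Definable₁ L S → b' ∈ S → ∃ x ∈ S, Isd L D x ∧ Isd L B x

/-- [gAT] atomic tuples.  PROOF.  Induction on `n` (for all `A`, `B`, `θ`): `θ₀` = the set of the first coordinates of the elements of `θ`: `A`-definable, not empty; DNS: `z₁ ∈ θ₀`, `Isd A z₁`; `z 0 ∈ Ge A z₁ true B`: `Isd B (z 0)` (gIS 5), `z 0 ∈ Orb A z₁ ⊆ θ₀`.  The fibre of `θ` over `z 0` is definable over `insert (z 0) A`: induction hypothesis for `insert (z 0) A ⊆ insert (z 0) B`. -/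
def St_gAT : Prop :=
  ∀ (L : FirstOrder.Language.{0, 0}) (U : Type) [L.Structure U] [LinearOrder U], Wn L U → TRV L U →
    NI L U → ∀ (n : ℕ) (A B : Set U) (θ : Set (Fin n → U)), A ⊆ B → B.Finite → A.Definable L θ →
      θ.Nonempty → ∃ z : ℕ → U, (fun i : Fin n => z i) ∈ θ ∧ Ch L A z n ∧ Ch L B z n

/-- [gVI] germs over nonisolated elements.  `B = BB D b y n`.  PROOF.  If both sides of `w` are nondefinable: gTW; `D' = D`, `v = w`, `t' = t` (`Orb B w = Orb D w`, nSDI 3; `Ge D w t B = Orb B w`; NSB 4).  Let `w` be one-sided, WLOG `t = false`, `SD B w true` (reversed order).  Let `¬ SD D b s` (nSDI 1).  (V0) If for some side `s'` and `d ∈ Ge D b s' B`: `Nn B d w`: `d` is not isolated over `B` (nISO), its inner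
side `!s'` is definable (`NI`; `Orb B d ≠ Orb D b ∋ b`, `Orb D b ≠ {b}`), so `¬ SD D b s'` (nSDI 2): `D' = D`, `v = b`, `t' = s'` (NSB 2, 1).  Suppose not (V0); by conjugation the same for all `σB`, `σ` over `D`: (*) `¬ Nn (σB) d (σ w)` for `d ∈ Ge D b s' (σB)`.
(V1) Let `b' ∈ Ge D b s B`, `Z = D ∪ {b, b'}`.  `b'` is not isolated over `B` (nSDI 2), nor over `bD`, so `y` is a chain over `Z` (gIS 1 along the chain: `Isd A y`, `¬ Isd A b'` give `Isd (b'A) y`).  Let `σ₁` be over `D`, `σ₁ b = b'` (arbitrary), `σ₂` far over `B ∪ σ₁B`, `σ₂ b = b'`.  (a) `Cn (B ∪ σ₂B) r (σ₂ r)` for `r = Cls true (Orb B w)`: `w` is complete over `b'B` (*), so over `E = B ∪ σ₂B` (atomic over `b'B`, gFC 6); `σ₂ w` is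
complete over `E`: `b ∈ Ge D b (!s) (b'D)` (nFFR); if `b` is isolated over `b'D` then over `σ₂B` (gIS 4; `σ₂ ∘ y` is a chain over `b, b', D`), so it does not cut `σ₂ w`; otherwise `b ∈ Ge D b (!s) (σ₂B)` (SAT 2 as in gJ0 (b)) and (*); and `E` is atomic over `b ∪ σ₂B` (gEX 1: `y`, `σ₂ ∘ y` over `Z`).  gCO (`Lk B w false σ₂`): `Nn E w (σ₂ w)`; gK2 (nSDI 3).  (b) `Cn (σ₁B ∪ σ₂B) (σ₂ r) (σ₁ r)`: `σ₁ w`, `σ₂ w` are complete
over `σ₁B ∪ σ₂B` (gFC 6, gEX 1 for the chains `σ₁ ∘ y`, `σ₂ ∘ y` over `b'D`; SAT 2), gCO for `σ₂⁻¹ σ₁`: gK2.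
(V2) `r = ρ (b, y)` with a `D`-definable family `ρ` of `Low` sets (`ρ (x, z)`, `z : Fin n → U`; replace the value by `Cls true` of it), so `σ r = ρ (σ b, σ y)` for `σ` over `D`.  gTO for `bD`: `θ (b, z)` = the orbit of `y` over `bD`, `θ` `D`-definable; for `σ` over `D`: `θ (σ b, z) ↔ z = κ y` for some `κ` over `D` with `κ b = σ b`.  gCF for (a) (`A = B`, `c = (b', σ₂ y)`, families `r` and `ρ`): `χa`; all `(b', σ₂ y)` are conjugate over `B`
(gFC 2).  gCF for (b) (`A = D`, `c = (b', σ₂ y, σ₁ y)`, `ρ (x, z')`, `ρ (x, z)`): `χb`; all these tuples are conjugate over `D` (`σ₂` is far over `σ₁B`: gFC 2).  `S = {x | (∃ z, θ (x, z)) ∧ ∀ z, θ (x, z) → ∃ z', χa (x, z') ∧ χb (x, z', z)}` is `B`-definable and `b' ∈ S`.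
(V3) gRF: `x ∈ S`, `Isd D x`, `Isd B x`.  gAT for `xD ⊆ xB`: `z` with `θ (x, z)`, chain over `xD` and over `xB`; `D' = D ∪ {x} ∪ z`, `B₁ = B ∪ D'`: `Atm D D'`, `Atm B B₁`.  gAT for `B₁`: `z'` with `χa (x, z')`, `χb (x, z', z)`, chain over `B₁`; `B₂ = B₁ ∪ z'`.  `Orb B₂ w = Orb B w` (SAT 2), so `w ∈ LT B₂ r` (nSDI 3, gK0 6).  `v₂ ∈ LT B₂ (ρ (x, z'))`, `v ∈ LT B₂ (ρ (x, z))` (not empty: `Cn`): gK1: `Nn B₂ w v₂`, `Nn B₂ v₂ v`,
so `Nn B₂ w v` (nTRA); `v` is not isolated over `B₂` (nISO), `SD B₂ v true` (gK0 3), so `¬ SD B₂ v false`.  `ρ (x, z)` is `D'`-definable; gK0 5: `v ∈ Ge D' v true B₂`; `NI`: `Orb B₂ v = Orb D' v` or `SD B₂ v false`; so `Orb B₂ v = Orb D' v`, `¬ SD D' v false` (nSDI 3).  gTS (contrapositive): `Nn B₁ w v`.  `Ge B w false B₁ = Orb B₁ w`, `Ge D' v false B₁ = Orb B₁ v`; NSB 2. -/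
def St_gVI : Prop :=
  ∀ (L : FirstOrder.Language.{0, 0}) [∀ n, IsEmpty (L.Functions n)] (U : Type)
    [S : L.Structure U] [LinearOrder U], Wn L U → ScU L S → NA L U → NI L U →
    ∀ (D : Set U) (b : U) (y : ℕ → U) (n : ℕ) (w : U) (t : Bool), D.Finite → ¬ Isd L D b →
      Ch L (insert b D) y n → ¬ SD L (BB D b y n) w t →
      ∃ (D' : Set U) (v : U) (t' : Bool), Atm L D D' ∧ Atm L (BB D b y n) (BB D b y n ∪ D') ∧
        ¬ SD L D' v t' ∧ ∀ u ∈ Ge L (BB D b y n) w t (BB D b y n ∪ D'),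
          ∀ u' ∈ Ge L D' v t' (BB D b y n ∪ D'), Nn L (BB D b y n ∪ D') u u'

/-- [gOK] every germ is linked to a germ over an atomic set.  PROOF.  Two-sided `w`: gTW: `D' = ∅`, `v = w`.  Let `w` be one-sided, side `t`.  Induction on the finite set `A`.  `A = ∅`: `D' = B`, `v = w`.  `A = bA'`: if `Isd A' b` then `Atm A' B`: induction hypothesis.  Otherwise gEX 3: `B = BB A' b y n`; gVI for `D = A'`: `D₁`, `v₁`, `t₁` (link over `B ∪ D₁`).  Induction hypothesis for `Atm A' D₁` and `(v₁, t₁)`: `D₂`, `v₂`, `t₂` (link over `D₁ ∪ D₂`).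
`D₁ ∪ D₂ = Bn D₁ z k` (gEX 3), `σ` over `D₁`, far over `B ∪ D₁` for `(D₁, z, k)` (gFC 1): `σD₂` instead of `D₂`: `Atm ∅ (σD₂)`, and the link between `(D₁, v₁, t₁)` and `(σD₂, σ v₂, t₂)` over `D₁ ∪ σD₂` (nGER 5, 4, NSB 3).  Over `E = B ∪ D₁ ∪ σD₂` (PS): the germs `(B, w, t)` and `(σD₂, σ v₂, t₂)` are linked (nTRA).  `Atm B (B ∪ D₁)`, `Atm (B ∪ D₁) E` (gFC 6): gEX 1, 2, 3 (chains over `B`: first `D₁`, then `σz`): `Atm B (B ∪ σ(D₁ ∪ D₂)) `, so
`Atm B (B ∪ σD₂)` and `Atm (B ∪ σD₂) E` [if `D₂` does not contain all of `z`: choose the chain for `Atm D₁ (D₁ ∪ D₂)`, its elements are in `D₁ ∪ D₂`; an element of the chain which is in `D₁` can be dropped].  gIS 3: the link holds over `B ∪ σD₂`. -/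
def St_gOK : Prop :=
  ∀ (L : FirstOrder.Language.{0, 0}) [∀ n, IsEmpty (L.Functions n)] (U : Type)
    [S : L.Structure U] [LinearOrder U], Wn L U → ScU L S → NA L U → NI L U →
    ∀ (A B : Set U) (w : U) (t : Bool), A.Finite → Atm L A B → ¬ SD L B w t →
      ∃ (D' : Set U) (v : U) (t' : Bool), Atm L ∅ D' ∧ Atm L B (B ∪ D') ∧ ¬ SD L D' v t' ∧
        ∀ u ∈ Ge L B w t (B ∪ D'), ∀ u' ∈ Ge L D' v t' (B ∪ D'), Nn L (B ∪ D') u u'

/-- [gAM] models contain copies of atomic sets.  PROOF.  Induction on `Atm`: `σ '' D ⊆ M`, `Isd D y`: `Orb (σD) (σ y)` is definable over `σD ⊆ M`, so it has a point in `M` (`IsEl`): compose `σ` with an automorphism over `σD`. -/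
def St_gAM : Prop :=
  ∀ (L : FirstOrder.Language.{0, 0}) (U : Type) [L.Structure U], Mon L U →
    ∀ Y M : Set U, Atm L ∅ Y → IsEl L M → ∃ σ : U ≃[L] U, σ '' Y ⊆ M

/-- [gFE] finitely many ends.  PROOF.  `Y` from gFN (finite: SAT 1), `V₀` from fFC for `Y`, consisting of nonisolated elements (replace `V₀` by its nonisolated elements: nISO), `V = {(v, t) | v ∈ V₀, ¬ SD Y v t}`.  First condition: gAM.  Let `A ⊇ Y` be finite, `¬ Isd A w`, `¬ SD A w t` (nSDI 1).  Two-sided `w`: `Orb A w = Orb ∅ w = Orb Y w` (gTW), `¬ Isd Y w`; `v ∈ V₀` with `Nn Y w v`; `v` is complete over `A`: otherwise for some `Y ⊆ A' ⊆ A`,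
`x ∈ A`: `Orb A' v = Orb Y v`, `Nn A' x v`; `Nn A' w v` (gPN 1), so `Nn A' x w` (nTRA, NSB 1): contradiction to `Orb A w = Orb Y w`; gPN 1: `Nn A w v`, `Ge Y v t A = Orb A v`.  Let `w` be one-sided.  gOK (`A = B`): `D'`, `v'`, `t'` (link over `A ∪ D'`).  `D' = Bn ∅ z k` (gEX 3); `σ` far over `A ∪ D'` (gFC 1 for `C = A = ∅`); gCO: `(D', v', t')` and `(σD', σ v', t')` are linked over `D' ∪ σD'`.  `Y' = Y ∪ σD'`: `Atm Y Y'` (gFC 3, 6),
`Atm (σD') Y'` (gEX 1: `Y`, `σD'` are chains over `∅`).  So `σ v'` is complete over `Y'`, not isolated; gFN: `v`, `¬ Isd Y v`, `Nn Y' (σ v') v`; `v₀ ∈ V₀` with `Nn Y v v₀`, so `Nn Y' v v₀` (gPN 1, SAT 2), `Nn Y' (σ v') v₀`.  (PS): `v₀` is one-sided, `¬ SD Y v₀ t₀`; over `E = A ∪ D' ∪ σD'`: `w`, `v'`, `σ v'`, `v₀` (germs) are linked (nTRA); `Atm A E`; gIS 3: `Nn A w u` for `u ∈ Ge Y v₀ t₀ A`. -/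
def St_gFE : Prop :=
  ∀ (L : FirstOrder.Language.{0, 0}) [∀ n, IsEmpty (L.Functions n)] (U : Type)
    [S : L.Structure U] [LinearOrder U], Wn L U → ScU L S → NA L U → NI L U → FE L U

/-! ### The theorem -/

section gen

variable (L : FirstOrder.Language.{0, 0}) (M : Type) [L.Structure M]

/-- no infinite increasing sequences of `A`-definable convex equivalence relations on a type over a finite set `A` -/
def AccC (lt : L.Formula (Fin 2)) : Prop :=
  ∀ (A : Set M) (a : M), A.Finite → ∀ R : ℕ → Set (M × M),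
    (∀ n, R n ∈ {R : Set (M × M) | ∃ E : M → M → Prop, A.Definable L {w : Fin 2 → M | E (w 0) (w 1)} ∧
      CvE L lt {x | Eqv L A a x} E ∧ R = {z | Eqv L A a z.1 ∧ Eqv L A a z.2 ∧ E z.1 z.2}}) →
    (∀ n, R n ⊆ R (n + 1)) → ∃ n, R (n + 1) = R n

end gen

/-- [gWN] the standing hypotheses.  PROOF.  As fWN; gNA, gNI. -/
def St_gWN : Prop :=
  ∀ (L : FirstOrder.Language.{0, 0}) [∀ n, IsEmpty (L.Functions n)] (U : Type)
    [S : L.Structure U] (lt : L.Formula (Fin 2)), Mon L U → WOMin U lt → AccC L U lt → ScU L S →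
    ∃ _ : LinearOrder U, Wn L U ∧ NA L U ∧ NI L U

/-- [gRW] PROOF.  As fRW: `AccC` is invariant under isomorphisms. -/
def St_gRW : Prop :=
  ∀ (L : FirstOrder.Language.{0, 0}) (T : L.Theory) (lt : L.Formula (Fin 2)),
    (∀ S : L.Structure ℕ, @FirstOrder.Language.Theory.Model L ℕ S T →
      @WOMin L ℕ S lt ∧ (@SatM L ℕ S → @AccC L ℕ S lt)) →
    ∀ (U : Type) [L.Structure U], Countable U → Infinite U → U ⊨ T → SatM L U →
      WOMin U lt ∧ AccC L U lt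

/-- THE THEOREM: Vaught's conjecture for weakly o-minimal theories without infinite increasing sequences of convex equivalence
relations.  [gTH] PROOF.  As fFA, with gRW, gWN, gFE, gFH, gCT in the place of fRW, fWN, fCT. -/
def St_ACC : Prop :=
  ∀ (L : FirstOrder.Language.{0, 0}) [∀ n, IsEmpty (L.Functions n)]
    [∀ n, Countable (L.Relations n)] (T : L.Theory) (lt : L.Formula (Fin 2)),
    (∀ S : L.Structure ℕ, @FirstOrder.Language.Theory.Model L ℕ S T →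
      @WOMin L ℕ S lt ∧ (@SatM L ℕ S → @AccC L ℕ S lt)) →
    Pool.Agent.Helper6.Str.CtblK (ModK L T) ∨ Pool.Agent.Helper6.Str.PerfK (ModK L T)

end Pool.Agent.WOM
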