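import Pool.Agent.WOL.StG

/-!
WOL, T7-ACC (helper8): FARCUT, and a short proof of gNB (StG.lean).  Statements with proofs in the docstrings.
`xB` = `insert x B`.
-/

set_option autoImplicit false
set_option linter.unusedVariables false

namespace Pool.Agent.WOM

open FirstOrder.Language Set
open scoped FirstOrder

/-- [kFC] FARCUT: between two cuts inside `Q = Orb L B w` which are invariant over `dB` (`d` linked to `w` over `B`) there is no far pair of `Q`.  PROOF.  `P = Orb L B d`.  `Q ≠ {w}`, `P ≠ {d}` (NSB 5).  `K` invariant over `dB`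
means: `σ '' K = K` for `σ` fixing `d`, `B`; so `y ∈ K` implies `Orb L (dB) y ⊆ K`.  Write `I σ = {y ∈ Q | y ∈ σ '' K₂, y ∉ σ '' K₀}` for `σ` over `B`.
(0) If `y ∈ Ge L B w true (σd B)` then `y ∉ σ '' K₂` (otherwise its orbit over `σd B`, unbounded in `Q`, is contained in the `Low` set `σ '' K₂`, so `Q ⊆ σ '' K₂`); if `y ∈ Ge L B w false (σd B)` then `y ∈ σ '' K₀` (there are `y₀ ∈ Q ∩ σ '' K₀` and
`o ∈ Orb L (σd B) y` with `o ≤ y₀`, so `o ∈ σ '' K₀`, so `y ∈ σ '' K₀`).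
(1) Claim: if `τ` fixes `B` and `Far L B d (τ d)` then `I 1 ∩ I τ = ∅`.  nSMA: `e` with `Ori L B d w e`; `t₁ = sg e true`.  `y ∈ Ge L B w t₁ (dB)`, `b₂ ∈ Ge L B d true (insert y (dB))` (nGEX).  Ori (`t = true`, `b₂ ∈ Ge L B d true (yB)` by nGER 2): `y ∈ Ge L B w (!t₁) (b₂ B)`.
`b₂, τ d ∈ Ge L B d true (dB)` (nGER 2), one orbit over `dB` (nGEX): `b₂ = ρ (τ d)` with `ρ` over `dB`.  Suppose `y₁ ∈ I 1 ∩ I τ`; then `y₂ = ρ y₁ ∈ I 1 ∩ I (ρ τ)`, `b₂ = (ρ τ) d`.  `t₁ = true`: `y ∉ K₂ ∋ y₂`, so `y₂ < y`; `y ∈ (ρ τ) '' K₀` by (0), so `y₂ ≤ y` gives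
`y₂ ∈ (ρ τ) '' K₀`: contradiction.  `t₁ = false`: `y ∈ K₀` by (0), `y₂ ∉ K₀`: `y < y₂ ∈ (ρ τ) '' K₂`, so `y ∈ (ρ τ) '' K₂`; but `y ∈ Ge L B w true (b₂ B)`: contradiction to (0).
By conjugation: if `σ`, `τ` fix `B` and `Far L B (σ d) (τ d)` then `I σ ∩ I τ = ∅`.
(2) Suppose `Far L B z x`, `z ∉ K₀`, `x ∈ K₂` (`z < x` by nFAR 1, so `z ∈ I 1`).  `b₂ = τ d ∈ Ge L B d true (dB)`, `τ` over `B`; `z' ∈ Ge L B w false (b₂ d B)`, `x' ∈ Ge L B w true (z' b₂ d B)` (nGEX).  `Far L B z' x'` (nFAR 6), so nFAR 7 gives `σ` over `B` with `σ z = z'`, `σ x = x'`: `z' ∉ σ '' K₀`, `x' ∈ σ '' K₂`.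
By (0), nGER 2: `z' ∈ K₀`, `x' ∉ K₂`, `z' ∈ τ '' K₀`, `x' ∉ τ '' K₂`.  So `z' < z < x'` and `z' < τ z < x'` (`z ∈ I 1`, `τ z ∈ I τ`), so `z, τ z ∈ I σ`.  By (1) neither `Far L B d (σ d)` nor `Far L B (σ d) (τ d)`; but `Far L B d (τ d)`: contradiction to nFAR 4. -/
def St_kFC : Prop :=
  ∀ (L : FirstOrder.Language.{0, 0}) (U : Type) [L.Structure U] [LinearOrder U], Wn L U →
    ∀ (B : Set U) (d w : U) (K₀ K₂ : Set U), B.Finite → Nn L B d w → Low K₀ → Low K₂ →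
      (∀ σ : U ≃[L] U, Fx L (insert d B) σ → σ '' K₀ = K₀ ∧ σ '' K₂ = K₂) →
      (∃ y ∈ Orb L B w, y ∈ K₀) → (∃ y ∈ Orb L B w, y ∉ K₂) →
      ∀ z ∈ Orb L B w, ∀ x ∈ Orb L B w, z ∉ K₀ → x ∈ K₂ → ¬ Far L B z x

/-- [kNB] the statement gNB (StG.lean), from gNA and kFC.  (`A` is called `B`, `x` is called `d`, `z` is called `w`.)  PROOF.  `t = true` (`t = false`: reversed order).  `Q = Orb L B w`, `O = Ge L B w true (dB) = Orb L (dB) u`; `O ≠ Q` (`Nn L B d w`; otherwise `Orb L (dB) w = Q`), `Q = Orb L B u`,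
so we may write `u` for `w` (nGER 4, NSB 2).  `V = {y | ∀ o ∈ O, y < o}` is `Low`, invariant over `dB`, the complement of `Cls false O`; suppose it is not definable over `dB`.
(a) There is `z₀ ∈ Q`, `z₀ ∉ O`; `z₀ ∈ V` (nGER 7).  SCUT for `z₀ < u` over `dB`: `K₀` `dB`-definable, `Low`, `z₀ ∈ K₀`, `u ∉ K₀`, so `K₀ ∩ O = ∅`, `K₀ ⊆ V`.  `K₀ ≠ V`: `z₁ ∈ V`, `z₁ ∉ K₀`; `z₀ < z₁ < u`, so `z₁ ∈ Q`.  SCUT for `z₁ < u`: `K₁` `dB`-definable, `Low`, `z₁ ∈ K₁`, `u ∉ K₁`.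
(b) If `x ∈ Q ∩ V` then `¬ Far L B z₁ x`: SCUT for `x < u`: `K₂ ∋ x`, `u ∉ K₂`; kFC for `K₀`, `K₂` (`z₁ ∉ K₀`, `x ∈ K₂`).
(c) If `x ∈ O` then `Far L B z₁ x`.  Suppose not.  nSMA for `d`, `u`: `e`, `Ori L B d u e`, `Ori L B u d e`.  `s = !(sg e true)`.  `y ∈ Ge L B u false (xB)` (nGEX); nFFR: `Far L B y x`.  `d' ∈ Ge L B d s (insert y (xB))` (nGEX).  `d ∈ Ge L B d s (xB)` (Ori L B u d e for `t = true`, `x ∈ Ge L B u true (dB)`), and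
`d' ∈ Ge L B d s (xB)` (nGER 2): `d' = τ d`, `τ` over `xB` (nGEX).  So `¬ Far L B (τ z₁) x` (nFAR 5).  Ori L B d u e for `t = s`, `d' ∈ Ge L B d s (yB)` (nGER 2): `y ∈ Ge L B u (!(sg e s)) (d'B) = Ge L B u true (d'B)`.  `τ '' K₁` is `Low`, invariant over `d'B`, and `τ u ∈ Q` is not in it, so (the orbit of `y` over `d'B` is
unbounded in `Q`) `y ∉ τ '' K₁ ∋ τ z₁`: `τ z₁ < y`, `Far L B (τ z₁) x` (nFAR 3): contradiction.
(d) So for `x ∈ Q`: `x ∈ O ↔ Far L B z₁ x` (`x ∉ O`: `x < u`.. `x ∈ V`): `O = Ge L B z₁ true (insert z₁ B) = Orb L (insert z₁ B) u`.  gNA (`u ∈ Orb L B z₁`, `z₁ < u`): `SD L (insert z₁ B) u false`: `Cls false O` is definable over `insert z₁ B` and invariant over `dB`, so definable over `dB` (ORB 8): contradiction. -/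
def St_kNB : Prop := St_gNA → St_gNB

end Pool.Agent.WOM
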