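import Pool.Agent.WOL.StE

/-!
WOL (helper8): configurations, the general construction and the model with exactly the gaps of a
configuration, for `Wn` (without the orthogonality hypothesis `Wm.na`): the field `na` was used only to keep
the gaps of a configuration pairwise weakly orthogonal, and there triviality (`TRV`, from fTR) is enough.
-/

set_option autoImplicit false
set_option linter.unusedVariables false

namespace Pool.Agent.WOM

open FirstOrder.Language Set
open scoped FirstOrder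

section defs

variable (L : FirstOrder.Language.{0, 0}) (U : Type) [L.Structure U]

/-- triviality: the conclusion of fTR -/
def TRV : Prop :=
  ∀ (A : Set U) (x y z : U), A.Finite → ¬ Nn L A x y → ¬ Nn L A x z → ¬ Nn L A y z →
    ¬ Nn L (insert x A) y z

end defs

/-- [hVDX] VDX (StC) with `TRV` in the place of `Wm.na`. -/
def St_hVDX : Prop :=
  ∀ (L : FirstOrder.Language.{0, 0}) (U : Type) [L.Structure U] [LinearOrder U], Wn L U → TRV L U →
    (∀ (c : Cfg L U) (b : U), Vd L c → (∀ i ∈ c.I, ¬ Nn L c.D b (c.w i)) →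
      Vd L (c.add L b) ∧ Le L c (c.add L b)) ∧
    (∀ c : Cfg L U, Le L c c) ∧ (∀ c c' c'' : Cfg L U, Le L c c' → Le L c' c'' → Le L c c'')

/-- [hGNC] GNC (StC) with `TRV` in the place of `Wm.na`. -/
def St_hGNC : Prop :=
  ∀ (L : FirstOrder.Language.{0, 0}) (U : Type) [L.Structure U] [LinearOrder U], Wn L U → TRV L U →
    ∀ (Q : Cfg L U → Prop) (K : Type) [Countable K] (T : K → Cfg L U → Prop) (c₀ : Cfg L U),
      (∀ c, Q c → Vd L c) → Q c₀ →
      (∀ c b, Q c → (∀ i ∈ c.I, ¬ Nn L c.D b (c.w i)) → Q (c.add L b)) →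
      (∀ k c, Q c → ∃ c', Q c' ∧ Le L c c' ∧ T k c') →
      ∃ c : ℕ → Cfg L U, c 0 = c₀ ∧ (∀ j, Q (c j)) ∧ (∀ i j, i ≤ j → Le L (c i) (c j)) ∧
        (∀ k, ∃ j, T k (c j)) ∧ IsEl L (⋃ j, (c j).D) ∧
        (∀ j, ∀ i ∈ (c j).I, Unc L (c j).D ((c j).w i) (⋃ j, (c j).D)) ∧
        ∀ (B : Set U) (z : U) (t : Bool), B.Finite → B ⊆ (⋃ j, (c j).D) →
          (∀ D : Set U, D.Finite → B ⊆ D → D ⊆ (⋃ j, (c j).D) →
            (Ge L B z t D ∩ ⋃ j, (c j).D).Nonempty) ∨
          ∃ j, B ⊆ (c j).D ∧ ∃ i ∈ (c j).I, ∀ u ∈ Ge L B z t (c j).D, Nn L (c j).D u ((c j).w i)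

/-- [hOPF] OPF (StC) with `TRV` in the place of `Wm.na`. -/
def St_hOPF : Prop :=
  ∀ (L : FirstOrder.Language.{0, 0}) (U : Type) [L.Structure U] [LinearOrder U], Wn L U → TRV L U →
    ∀ c : Cfg L U, Vd L c → ∃ M : Set U, IsEl L M ∧ c.D ⊆ M ∧
      (∀ i ∈ c.I, Unc L c.D (c.w i) M) ∧ GP L c M

end Pool.Agent.WOM
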