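import Pool.Agent.WOL.StF
import Pool.Agent.WOM.BFM

/-!
WOL, module fBF: models with the same code are isomorphic (helper61).
-/

set_option autoImplicit false
set_option linter.unusedVariables false

namespace Pool.Agent.WOM

open FirstOrder.Language Set
open scoped FirstOrder

private theorem fBF_forth (hORB : St_ORB) (hGEX : St_nGEX) (hGER : St_nGER) (hSDI : St_nSDI)
    (L : FirstOrder.Language.{0, 0}) (U : Type) [L.Structure U] [LinearOrder U]
    (hU : Wn L U) (hNE : NE L U) (a V M M' : Set U) (hM : Cd L a V M) (hM' : Cd L a V M')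
    (A : Set U) (g : U ≃[L] U) (hA : A.Finite) (hAM : A ⊆ M) (haA : a ⊆ A)
    (hgA : g '' A ⊆ M') (x : U) (hx : x ∈ M) :
    ∃ g' : U ≃[L] U, (∀ b ∈ A, g' b = g b) ∧ g' x ∈ M' := by
  obtain ⟨o1, o2, o3, o4, o5, o6, o7, o8, o9⟩ := hORB L U hU.mon
  obtain ⟨r1, r2, r3, r4, r5, r6, r7, r8⟩ := hGER L U hU
  obtain ⟨s1, s2, s3, s4, s5⟩ := hSDI L U hU
  have hgAf : (g '' A).Finite := hA.image g
  have key : ∃ y ∈ M', y ∈ Orb L (g '' A) (g x) := by
    by_cases hI : Isd L A x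
    · have hI' : Isd L (g '' A) (g x) := (s4 g A x).1.2 hI
      obtain ⟨u, hu, hu'⟩ := hM'.el _ (hI'.mono hgA) ⟨g x, o1 _ _⟩
      exact ⟨u, hu', hu⟩
    · obtain ⟨t, ht⟩ : ∃ t, ¬ SD L A x t := by
        by_contra hc
        push Not at hc
        exact hI ((s1 _ _ hA).2 ⟨hc true, hc false⟩)
      have h1 : x ∈ Ge L ∅ x t A := hNE A x t hA ht
      have h2 : ¬ SD L ∅ x t := fun h => ht ((s2 ∅ A x x t (empty_subset _) hA h1).2 h)
      have h3 : x ∈ Ge L ∅ x t a := r2 ∅ a A x t (empty_subset _) haA hA h1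
      have h4 : OpE L x t M := by
        rcases hM.om x t h2 with h | h
        · exact h
        · exfalso
          have h5 : x ∈ Ge L ∅ x t a ∩ M := ⟨h3, hx⟩
          rw [h] at h5
          exact h5
      have h5 : OpE L x t M' := (hM'.op x t h2).2 ((hM.op x t h2).1 h4)
      obtain ⟨y, hy, hyM⟩ := h5 (g '' A) hgAf hgA
      refine ⟨y, hyM, ?_⟩
      have h6 : g '' Ge L ∅ x t A = Ge L ∅ x t (g '' A) := by
        rw [← r5 g ∅ A x t, image_empty]
        exact r4 ∅ (g '' A) x (g x) t ⟨g, fun b hb => hb.elim, rfl⟩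
      rw [o4, ← (hGEX L U hU ∅ A x t (empty_subset _) hA).2 x h1, h6]
      exact hy
  obtain ⟨y, hy, τ, hτ, hτx⟩ := key
  refine ⟨τ.comp g, fun b hb => ?_, ?_⟩
  · show τ (g b) = g b
    exact hτ _ (mem_image_of_mem g hb)
  · show τ (g x) ∈ M'
    rw [hτx]
    exact hy

theorem thm_fBF (hORB : St_ORB) (hGEX : St_nGEX) (hGER : St_nGER) (hSDI : St_nSDI) : St_fBF := by
  intro L U _ _ hU hNE a V M M' ha hM hM'
  have hcU : Countable U := hU.mon.ctb
  refine thm_BFM L U M M' (Set.to_countable _) (Set.to_countable _)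
    (fun A g => a ⊆ A ∧ (∀ b ∈ a, g b = b) ∧ g '' A ⊆ M') ?_ ?_ ?_ ?_
  · refine ⟨a, FirstOrder.Language.Equiv.refl L U, ha, hM.sub, subset_rfl, fun b _ => rfl, ?_⟩
    rintro _ ⟨b, hb, rfl⟩
    exact hM'.sub hb
  · rintro A g hA hAM ⟨-, -, h⟩
    exact h
  · rintro A g hA hAM ⟨h1, h2, h3⟩ x hx
    obtain ⟨g', hg1, hg2⟩ := fBF_forth hORB hGEX hGER hSDI L U hU hNE a V M M' hM hM'
      A g hA hAM h1 h3 x hx
    refine ⟨g', hg1, h1.trans (subset_insert _ _), fun b hb => ?_, ?_⟩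
    · rw [hg1 b (h1 hb)]
      exact h2 b hb
    · rintro _ ⟨b, rfl | hb, rfl⟩
      · exact hg2
      · rw [hg1 b hb]
        exact h3 ⟨b, hb, rfl⟩
  · rintro A g hA hAM ⟨h1, h2, h3⟩ y hy
    have e1 : g.symm '' (g '' A) = A := by
      rw [image_image]
      simp
    obtain ⟨h, hh1, hh2⟩ := fBF_forth hORB hGEX hGER hSDI L U hU hNE a V M' M hM' hM
      (g '' A) g.symm (hA.image g) h3 (fun b hb => ⟨b, h1 hb, h2 b hb⟩)
      (by rw [e1]; exact hAM) y hy
    have hga : ∀ c ∈ A, h.symm c = g c := by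
      intro c hc
      have h5 := hh1 (g c) ⟨c, hc, rfl⟩
      rw [FirstOrder.Language.Equiv.symm_apply_apply] at h5
      calc h.symm c = h.symm (h (g c)) := by rw [h5]
        _ = g c := FirstOrder.Language.Equiv.symm_apply_apply _ _
    refine ⟨h.symm, h y, hh2, hga, FirstOrder.Language.Equiv.symm_apply_apply _ _,
      h1.trans (subset_insert _ _), fun b hb => ?_, ?_⟩
    · rw [hga b (h1 hb)]
      exact h2 b hb
    · rintro _ ⟨b, rfl | hb, rfl⟩
      · rw [FirstOrder.Language.Equiv.symm_apply_apply]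
        exact hy
      · rw [hga b hb]
        exact h3 ⟨b, hb, rfl⟩

end Pool.Agent.WOM
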