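import Pool.Agent.WOL.StG2

/-!
WOL, gP4: a realisation of a complete type of `a` does not disturb `a'`.
-/

set_option autoImplicit false
set_option linter.unusedVariables false

namespace Pool.Agent.WOM

open FirstOrder.Language Set
open scoped FirstOrder

private lemma gP4_anti (L : FirstOrder.Language.{0, 0}) (U : Type) [L.Structure U] {A B : Set U}
    (h : A ⊆ B) (u : U) : Orb L B u ⊆ Orb L A u := by
  rintro y ⟨g, hg, rfl⟩
  exact ⟨g, fun a ha => hg a (h ha), rfl⟩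

private lemma gP4_btw (L : FirstOrder.Language.{0, 0}) (U : Type) [L.Structure U] {A B E : Set U}
    (h : A ⊆ B) (h' : B ⊆ E) {u : U} (hu : Orb L E u = Orb L A u) : Orb L B u = Orb L A u :=
  Subset.antisymm (gP4_anti L U h u) (by rw [← hu]; exact gP4_anti L U h' u)

private lemma gP4_self (L : FirstOrder.Language.{0, 0}) (U : Type) [L.Structure U] (A : Set U)
    (u : U) : u ∈ Orb L A u :=
  ⟨FirstOrder.Language.Equiv.refl L U, fun _ _ => rfl, rfl⟩

private lemma gP4_le {U : Type} [LinearOrder U] (t : Bool) (x : U) : leS t x x := by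
  unfold leS
  split_ifs <;> exact le_refl x

private lemma gP4_ge (L : FirstOrder.Language.{0, 0}) (U : Type) [L.Structure U] [LinearOrder U]
    {A B : Set U} {u : U} (t : Bool) (hu : Orb L B u = Orb L A u) : u ∈ Ge L A u t B := by
  refine ⟨gP4_self L U A u, fun w hw => ⟨w, ?_, gP4_le t w⟩⟩
  rw [hu]
  exact hw

private lemma gP4_Bn {U : Type} (D : Set U) (z : ℕ → U) (i : ℕ) :
    Bn D z (i + 1) = insert (z i) (Bn D z i) := by
  ext x
  simp only [Bn, mem_union, mem_image, mem_setOf_eq, mem_insert_iff]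
  constructor
  · rintro (h | ⟨j, hj, rfl⟩)
    · exact Or.inr (Or.inl h)
    · rcases Nat.lt_succ_iff_lt_or_eq.1 hj with h | h
      · exact Or.inr (Or.inr ⟨j, h, rfl⟩)
      · exact Or.inl (by rw [h])
  · rintro (h | h | ⟨j, hj, rfl⟩)
    · exact Or.inr ⟨i, Nat.lt_succ_self i, h.symm⟩
    · exact Or.inl h
    · exact Or.inr ⟨j, Nat.lt_succ_of_lt hj, rfl⟩

private lemma gP4_Bn0 {U : Type} (D : Set U) (z : ℕ → U) : Bn D z 0 = D := by
  ext x
  simp [Bn]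

private lemma gP4_Bnfin {U : Type} {D : Set U} (z : ℕ → U) (n : ℕ) (hD : D.Finite) :
    (Bn D z n).Finite := by
  unfold Bn
  exact hD.union ((Set.finite_lt_nat n).image z)

private lemma gP4_chain (hPI : St_gPI) (L : FirstOrder.Language.{0, 0}) (U : Type)
    [L.Structure U] [LinearOrder U] (hW : Wn L U) (hT : TRV L U) (hNI : NI L U) (C : Set U) (b : U)
    (y : ℕ → U) (n : ℕ) (w : U) (t : Bool) (hc : Cod L C b y n w t) (D : Set U) (a : U)
    (hD : D.Finite) (hCD : C ⊆ D) (ha : a ∈ D) (hab : a ∈ Orb L C b) (hp : PI L C b y n w D a)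
    (z : ℕ → U) (m : ℕ) (hch : Ch L D z m) : ∀ i, i ≤ m → PI L C b y n w (Bn D z i) a := by
  intro i
  induction i with
  | zero =>
    intro _
    rw [gP4_Bn0]
    exact hp
  | succ i ih =>
    intro hi
    rw [gP4_Bn]
    have h1 : D ⊆ Bn D z i := subset_union_left
    exact (hPI L U hW hT hNI C b y n w t hc (Bn D z i) a (gP4_Bnfin z i hD) (hCD.trans h1)
      (h1 ha) hab).2.2.1 (z i) (hch i (by omega)) (ih (by omega))

/-- [gP4] -/
theorem thm_gP4 (hORB : St_ORB) (hNSB : St_NSB) (hTRA : St_nTRA) (hSDI : St_nSDI) (hSAT : St_SAT)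
    (hTS : St_gTS) (hPN : St_gPN) (hFC : St_gFC) (hPI : St_gPI) (hLG : St_gLG) : St_gP4 := by
  intro L U _ _ hW hT hNI C b y n w t hc2 D a a' u τ hD hCD ha ha' hab ha'b hlg hτ hτb hτB hτw hu
    hpa hpa'
  have hc := hc2.1
  have hA : (insert b C).Finite := hc.fin.insert b
  have hCA : C ⊆ insert b C := subset_insert b C
  obtain ⟨fc1, fc2, fc3, fc4, fc5, fc6⟩ := hFC L U hW hT C (insert b C) y n hA hCA
  obtain ⟨orb1, orb2, orb3, orb4, -⟩ := hORB L U hW.mon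
  obtain ⟨nsb1, nsb2, nsb3, -⟩ := hNSB L U
  have tra := hTRA L U hW
  obtain ⟨sdi1, -, sdi3, sdi4, -⟩ := hSDI L U hW
  have sat := hSAT L U hW
  have ts := hTS L U hW hT
  have pn1 := (hPN L U hW).1
  set B : Set U := BB C b y n with hB
  have hBB : B = Bn (insert b C) y n := rfl
  have hAB : insert b C ⊆ B := subset_union_left
  have hBfin : B.Finite := gP4_Bnfin y n hA
  have hniw : ¬ Isd L B w := by
    intro h
    have h2 := (sdi1 B w hBfin).1 h
    cases t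
    · exact hc.nd h2.2
    · exact hc.nd h2.1
  have hniσ : ∀ σ : U ≃[L] U, ¬ Isd L (σ '' B) (σ w) := fun σ h => hniw ((sdi4 σ B w).1.1 h)
  -- the far copy `σ`
  obtain ⟨σ₀, hσ₀, hσ₀b⟩ := ha'b
  have huD : (insert u D).Finite := hD.insert u
  obtain ⟨σ, hσ, hσA⟩ := fc1 (insert u D) σ₀ huD hσ₀
  have hσb : σ b = a' := (hσA b (mem_insert b C)).trans hσ₀b
  have hσD : Fc L C D (insert b C) y n σ := fc3 (insert u D) D σ huD (subset_insert u D) hσ
  have hσim : σ '' insert b C ⊆ D := by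
    rintro _ ⟨x, hx, rfl⟩
    rcases hx with rfl | hx
    · rw [hσb]; exact ha'
    · rw [hσ.fx x hx]; exact hCD hx
  set E₁ : Set U := D ∪ σ '' B with hE₁
  have hE₁fin : E₁.Finite := hD.union (hBfin.image σ)
  have hDE₁ : D ⊆ E₁ := subset_union_left
  have hσBE₁ : σ '' B ⊆ E₁ := subset_union_right
  -- `σ w` over `E₁`
  have o1 : Orb L E₁ (σ w) = Orb L (σ '' B) (σ w) := hpa' σ hσD hσb
  have hatm1 : Atm L D E₁ := fc6 hNI hc.ch D σ hD hσim hσD
  have hniDτ : ¬ Isd L D (τ w) := fun h =>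
    hniσ τ ((sdi3 (τ '' B) D (τ w) hτB hD hτw).1.1 h)
  have o2 : Orb L E₁ (τ w) = Orb L D (τ w) := ((sat D hD E₁ hatm1).2.1 (τ w) hniDτ).1
  -- `PI E₁ a`
  have hpE₁ : PI L C b y n w E₁ a := by
    obtain ⟨hch, heq⟩ := fc5 hNI hc.ch D σ hD hσim hσD
    have h1 := gP4_chain hPI L U hW hT hNI C b y n w t hc D a hD hCD ha hab hpa
      (fun i => σ (y i)) n hch n le_rfl
    rw [← heq] at h1
    exact h1
  -- the far copy `τ'`
  obtain ⟨τ', hτ', hτ'A⟩ := fc1 E₁ τ hE₁fin hτ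
  have hτ'b : τ' b = a := (hτ'A b (mem_insert b C)).trans hτb
  have hτ'im : τ' '' insert b C ⊆ E₁ := by
    rintro _ ⟨x, hx, rfl⟩
    rcases hx with rfl | hx
    · rw [hτ'b]; exact hDE₁ ha
    · rw [hτ'.fx x hx]; exact hDE₁ (hCD hx)
  set E₂ : Set U := E₁ ∪ τ' '' B with hE₂
  have hE₂fin : E₂.Finite := hE₁fin.union (hBfin.image τ')
  have hE₁E₂ : E₁ ⊆ E₂ := subset_union_left
  have hτ'BE₂ : τ' '' B ⊆ E₂ := subset_union_right
  have o3 : Orb L E₂ (τ' w) = Orb L (τ' '' B) (τ' w) := hpE₁ τ' hτ' hτ'b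
  have hatm2 : Atm L E₁ E₂ := fc6 hNI hc.ch E₁ τ' hE₁fin hτ'im hτ'
  have hniE₁σ : ¬ Isd L E₁ (σ w) := fun h =>
    hniσ σ ((sdi3 (σ '' B) E₁ (σ w) hσBE₁ hE₁fin o1).1.1 h)
  have hniE₁τ : ¬ Isd L E₁ (τ w) := fun h =>
    hniDτ ((sdi3 D E₁ (τ w) hDE₁ hE₁fin o2).1.1 h)
  have o4 : Orb L E₂ (σ w) = Orb L E₁ (σ w) := ((sat E₁ hE₁fin E₂ hatm2).2.1 (σ w) hniE₁σ).1
  have o5 : Orb L E₂ (τ w) = Orb L E₁ (τ w) := ((sat E₁ hE₁fin E₂ hatm2).2.1 (τ w) hniE₁τ).1
  have hτBE₂ : τ '' B ⊆ E₂ := hτB.trans (hDE₁.trans hE₁E₂)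
  have o6 : Orb L E₂ (τ w) = Orb L (τ '' B) (τ w) := o5.trans (o2.trans hτw)
  have o7 : Orb L E₂ (σ w) = Orb L (σ '' B) (σ w) := o4.trans o1
  -- `Nn E₂ (τ w) (τ' w)`
  have hN1 : Nn L E₂ (τ w) (τ' w) := by
    set ρ : U ≃[L] U := τ.symm.comp τ' with hρ
    have hρfx : Fx L (insert b C) ρ := by
      intro x hx
      change τ.symm (τ' x) = x
      rcases hx with rfl | hx
      · rw [hτ'b, ← hτb]
        exact τ.symm_apply_apply _
      · rw [hτ'.fx x hx]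
        conv_lhs => rw [← hτ x hx]
        exact τ.symm_apply_apply _
    have hτρ : ∀ x, τ (ρ x) = τ' x := fun x => τ.apply_symm_apply _
    have himg : τ '' (ρ '' B) = τ' '' B := by
      rw [image_image]
      exact image_congr fun x _ => hτρ x
    have himg2 : τ '' (B ∪ ρ '' B) = τ '' B ∪ τ' '' B := by
      rw [image_union, himg]
    have hsub : τ '' B ∪ τ' '' B ⊆ E₂ := union_subset hτBE₂ hτ'BE₂
    have q1 : Orb L (τ '' B ∪ τ' '' B) (τ w) = Orb L (τ '' B) (τ w) :=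
      gP4_btw L U subset_union_left hsub o6
    have q2 : Orb L (τ '' B ∪ τ' '' B) (τ' w) = Orb L (τ' '' B) (τ' w) :=
      gP4_btw L U subset_union_right hsub o3
    have q1' : Orb L (B ∪ ρ '' B) w = Orb L B w := by
      have h1 := orb4 τ (B ∪ ρ '' B) w
      have h2 := orb4 τ B w
      rw [himg2, q1, h2] at h1
      exact (image_injective.2 τ.injective h1).symm
    have q2' : Orb L (B ∪ ρ '' B) (ρ w) = Orb L (ρ '' B) (ρ w) := by
      have h1 := orb4 τ (B ∪ ρ '' B) (ρ w)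
      have h2 := orb4 τ (ρ '' B) (ρ w)
      rw [himg2, hτρ, q2] at h1
      rw [himg, hτρ] at h2
      rw [h2] at h1
      exact (image_injective.2 τ.injective h1).symm
    have h3 := hc.ct ρ hρfx w (gP4_ge L U t q1') (ρ w) (gP4_ge L U t q2')
    have h4 := nsb3 τ _ _ _ h3
    rw [himg2, hτρ] at h4
    exact pn1 _ E₂ _ _ hsub hE₂fin h4 (o6.trans q1.symm) (o3.trans q2.symm)
  -- `¬ Nn E₂ (σ w) (τ' w)`
  have hN2 : ¬ Nn L E₂ (σ w) (τ' w) := by
    have hsub : σ '' B ∪ τ' '' B ⊆ E₂ := union_subset (hσBE₁.trans hE₁E₂) hτ'BE₂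
    have q1 : Orb L (σ '' B ∪ τ' '' B) (σ w) = Orb L (σ '' B) (σ w) :=
      gP4_btw L U subset_union_left hsub o7
    have q2 : Orb L (σ '' B ∪ τ' '' B) (τ' w) = Orb L (τ' '' B) (τ' w) :=
      gP4_btw L U subset_union_right hsub o3
    have h1 := (hLG L U hW hT hNI C b y n w t hc2 a' a ⟨σ₀, hσ₀, hσ₀b⟩ hab).1 hlg σ τ'
      (fc3 D _ σ hD (by
        rintro x (rfl | rfl | hx)
        · exact ha'
        · exact ha
        · exact hCD hx) hσD) hσb
      (fc3 E₁ _ τ' hE₁fin (by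
        rintro x (rfl | hx)
        · exact hDE₁ ha
        · exact hσBE₁ hx) hτ') hτ'b
      (σ w) (gP4_ge L U t q1) (τ' w) (gP4_ge L U t q2)
    exact ts _ E₂ _ _ hsub hE₂fin (o7.trans q1.symm) (o3.trans q2.symm) h1
  have hN3 : ¬ Nn L E₂ (τ w) (σ w) := fun h =>
    hN2 (tra E₂ (σ w) (τ w) (τ' w) hE₂fin (nsb1 _ _ _ h) hN1)
  have hN4 : ¬ Nn L E₁ (τ w) (σ w) := fun h =>
    hN3 (pn1 E₁ E₂ _ _ hE₁E₂ hE₂fin h o5 o4)
  have hN5 : ¬ Nn L E₁ u (σ w) := by
    intro h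
    rw [← o2] at hu
    have h1 : τ w ∈ Orb L E₁ u := by
      rw [orb2 E₁ (τ w) u hu]
      exact orb1 _ _
    exact hN4 (nsb2 E₁ u (σ w) (τ w) (σ w) h1 (orb1 _ _) h)
  have hfin : Orb L (insert u D ∪ σ '' B) (σ w) = Orb L (σ '' B) (σ w) := by
    have h1 : insert u D ∪ σ '' B = insert u E₁ := by
      rw [hE₁, insert_union]
    rw [h1]
    exact (not_not.1 hN5).trans o1
  exact (hPI L U hW hT hNI C b y n w t hc (insert u D) a' huD (hCD.trans (subset_insert u D))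
    (subset_insert u D ha') ⟨σ₀, hσ₀, hσ₀b⟩).1 σ hσ hσb hfin

end Pool.Agent.WOM
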