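import Pool.Agent.WOL.StG4

/-!
WOL [gSU]: parts of atomic sets
-/

set_option autoImplicit false

namespace Pool.Agent.WOM

open FirstOrder.Language Set
open scoped FirstOrder

theorem thm_gSU (hSAT : St_SAT) (hSDI : St_nSDI) (hEX : St_gEX) : St_gSU := by
  intro L U _ _ hW hT A B E hA hE
  obtain ⟨x1, x2, x3⟩ := hEX L U hW hT
  induction hE generalizing B with
  | base =>
    intro h1 h2
    have e : B = A := Subset.antisymm h2 h1
    rw [e]
    exact ⟨Atm.base, Atm.base⟩
  | step D y hD hy ih =>
    intro h1 h2
    obtain ⟨⟨hDf, hAD⟩, -, -⟩ := hSAT L U hW A hA D hD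
    by_cases hyD : y ∈ B ∧ y ∉ D
    · obtain ⟨hyB, hyD⟩ := hyD
      set B₀ : Set U := B ∩ D with hB₀
      have hAB : A ⊆ B₀ := fun a ha => ⟨h1 ha, hAD ha⟩
      obtain ⟨ih1, ih2⟩ := ih B₀ hAB inter_subset_right
      have hB₀f : B₀.Finite := hDf.subset inter_subset_right
      have hBe : B = insert y B₀ := by
        ext z
        constructor
        · intro hz
          rcases h2 hz with rfl | hzD
          · exact Or.inl rfl
          · exact Or.inr ⟨hz, hzD⟩
        · rintro (rfl | hz)
          · exact hyB
          · exact hz.1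
      have hyi : Isd L B₀ y := by
        by_contra hcon
        have h3 := ((hSAT L U hW B₀ hB₀f D ih2).2.1 y hcon).1
        exact hcon (((hSDI L U hW).2.2.1 B₀ D y inter_subset_right hDf h3).1.1 hy)
      obtain ⟨x, n, hx, hxD⟩ := x3 B₀ D ih2
      have hz : Ch L (Bn B₀ x n) (fun _ => y) 1 := by
        intro i hi
        have hi0 : i = 0 := by omega
        subst hi0
        have e : Bn (Bn B₀ x n) (fun _ : ℕ => y) 0 = D := by
          rw [hxD]
          unfold Bn
          have : {i : ℕ | i < 0} = ∅ := by
            ext i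
            simp
          rw [this, image_empty, union_empty]
        rw [e]
        exact hy
      obtain ⟨-, h5⟩ := x1 B₀ x (fun _ => y) n 1 hB₀f hx hz
      have e1 : Bn B₀ (fun _ : ℕ => y) 1 = B := by
        rw [hBe]
        unfold Bn
        ext z
        constructor
        · rintro (hz | ⟨i, -, rfl⟩)
          · exact Or.inr hz
          · exact Or.inl rfl
        · rintro (rfl | hz)
          · exact Or.inr ⟨0, by simp, rfl⟩
          · exact Or.inl hz
      rw [e1] at h5
      have h6 := x2 B x n h5
      have e2 : Bn B x n = insert y D := by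
        rw [hxD, hBe]
        unfold Bn
        rw [insert_union]
      rw [e2] at h6
      refine ⟨?_, h6⟩
      rw [hBe]
      exact Atm.step B₀ y ih1 hyi
    · have hBD : B ⊆ D := by
        intro z hz
        rcases h2 hz with rfl | hzD
        · by_contra hcon
          exact hyD ⟨hz, hcon⟩
        · exact hzD
      obtain ⟨ih1, ih2⟩ := ih B h1 hBD
      exact ⟨ih1, Atm.step D y ih2 hy⟩

end Pool.Agent.WOM
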