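import Pool.Agent.WOL.StX

/-!
WOL: [hGNC] the general construction of a model by stages (helper38, adapted by helper8).
-/

set_option autoImplicit false
set_option linter.style.haveILetI false

namespace Pool.Agent.WOM

open FirstOrder.Language Set
open scoped FirstOrder

/-- a finite subset of an increasing union is in one of the sets -/
theorem hGNC_fin {U : Type} (D : ℕ → Set U) (hD : ∀ i j, i ≤ j → D i ⊆ D j) (B : Set U)
    (hB : B.Finite) (hBD : B ⊆ ⋃ j, D j) (N : ℕ) : ∃ j, N ≤ j ∧ B ⊆ D j := by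
  induction B, hB using Set.Finite.induction_on with
  | empty => exact ⟨N, le_rfl, empty_subset _⟩
  | @insert a s _ _ ih =>
    obtain ⟨j, hj, hs⟩ := ih ((subset_insert a s).trans hBD)
    obtain ⟨i, hi⟩ := mem_iUnion.1 (hBD (mem_insert a s))
    exact ⟨max i j, hj.trans (le_max_right _ _), insert_subset (hD i _ (le_max_left _ _) hi)
      (hs.trans (hD j _ (le_max_right _ _)))⟩

/-- an enumeration in which every element is taken infinitely often -/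
theorem hGNC_enum (A : Type) [Countable A] [Nonempty A] :
    ∃ e : ℕ → A, ∀ (a : A) (N : ℕ), ∃ j, N ≤ j ∧ e j = a := by
  obtain ⟨g, hg⟩ := exists_surjective_nat A
  refine ⟨fun j => g (Nat.unpair j).1, fun a N => ?_⟩
  obtain ⟨i, rfl⟩ := hg a
  exact ⟨Nat.pair i N, Nat.right_le_pair i N, congrArg g (by rw [Nat.unpair_pair])⟩

section

variable (L : FirstOrder.Language.{0, 0}) {U : Type} [L.Structure U] [LinearOrder U]

/-- what is done for a task -/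
def hGNC_R {K : Type} (T : K → Cfg L U → Prop) :
    K ⊕ ((Finset U × U) ⊕ (Finset U × U × Bool)) → Cfg L U → Cfg L U → Prop
  | Sum.inl k, _, c' => T k c'
  | Sum.inr (Sum.inl q), c, c' => (q.1 : Set U) ⊆ c.D → Isd L (q.1 : Set U) q.2 →
      ∃ b ∈ c'.D, b ∈ Orb L (q.1 : Set U) q.2
  | Sum.inr (Sum.inr q), c, c' => (q.1 : Set U) ⊆ c.D →
      (∃ b ∈ c'.D, b ∈ Ge L (q.1 : Set U) q.2.1 q.2.2 c.D) ∨
      ∃ i ∈ c.I, ∃ b ∈ Ge L (q.1 : Set U) q.2.1 q.2.2 c.D, Nn L c.D b (c.w i)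

end

theorem thm_hGNC (hORB : St_ORB) (hDNS : St_DNS) (hNSB : St_NSB) (hGEX : St_nGEX) (hGER : St_nGER)
    (hISO : St_nISO) (hVDX : St_hVDX) : St_hGNC := by
  intro L U _ _ hU hTR Q K _ T c₀ hQV hQ₀ hadd hT
  haveI : Countable U := hU.mon.ctb
  haveI : Infinite U := hU.mon.inf
  obtain ⟨o1, o2, o3, o4, o5, o6, o7, o8, o9⟩ := hORB L U hU.mon
  have hdns := hDNS L U hU.mon
  obtain ⟨n1, n2, -⟩ := hNSB L U
  obtain ⟨-, g2, -⟩ := hGER L U hU
  obtain ⟨v1, v2, v3⟩ := hVDX L U hU hTR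
  have step : ∀ (τ : K ⊕ ((Finset U × U) ⊕ (Finset U × U × Bool))) (c : Cfg L U), Q c →
      ∃ c', Q c' ∧ Le L c c' ∧ hGNC_R L T τ c c' := by
    rintro (k | q | q) c hc
    · exact hT k c hc
    · by_cases h1 : (q.1 : Set U) ⊆ c.D
      · by_cases h2 : Isd L (q.1 : Set U) q.2
        · obtain ⟨b, hb, hbi⟩ := hdns c.D (Orb L (q.1 : Set U) q.2) (hQV c hc).fin
            (Set.Definable.mono h2 h1) ⟨q.2, o1 _ _⟩
          have h3 : ∀ i ∈ c.I, ¬ Nn L c.D b (c.w i) := fun i hi =>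
            (hISO L U hU c.D b (c.w i) (hQV c hc).fin hbi ((hQV c hc).niso i hi)).1
          exact ⟨c.add L b, hadd c b hc h3, (v1 c b (hQV c hc) h3).2, fun _ _ =>
            ⟨b, mem_insert _ _, hb⟩⟩
        · exact ⟨c, hc, v2 c, fun _ h => absurd h h2⟩
      · exact ⟨c, hc, v2 c, fun h _ => absurd h h1⟩
    · by_cases h1 : (q.1 : Set U) ⊆ c.D
      · obtain ⟨b, hb⟩ := (hGEX L U hU (q.1 : Set U) c.D q.2.1 q.2.2 h1 (hQV c hc).fin).1
        by_cases h3 : ∀ i ∈ c.I, ¬ Nn L c.D b (c.w i)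
        · exact ⟨c.add L b, hadd c b hc h3, (v1 c b (hQV c hc) h3).2, fun _ =>
            Or.inl ⟨b, mem_insert _ _, hb⟩⟩
        · push Not at h3
          obtain ⟨i, hi, h4⟩ := h3
          exact ⟨c, hc, v2 c, fun _ => Or.inr ⟨i, hi, b, hb, h4⟩⟩
      · exact ⟨c, hc, v2 c, fun h => absurd h h1⟩
  choose f hf1 hf2 hf3 using step
  obtain ⟨u₀⟩ : Nonempty U := inferInstance
  haveI : Nonempty (K ⊕ ((Finset U × U) ⊕ (Finset U × U × Bool))) :=
    ⟨Sum.inr (Sum.inl (∅, u₀))⟩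
  obtain ⟨e, he⟩ := hGNC_enum (K ⊕ ((Finset U × U) ⊕ (Finset U × U × Bool)))
  let cc : ℕ → {c : Cfg L U // Q c} := fun n => Nat.rec (motive := fun _ => {c : Cfg L U // Q c})
    ⟨c₀, hQ₀⟩ (fun j c => ⟨f (e j) c.1 c.2, hf1 _ _ _⟩) n
  let c : ℕ → Cfg L U := fun n => (cc n).1
  have hcQ : ∀ j, Q (c j) := fun j => (cc j).2
  have hc1 : ∀ j, Le L (c j) (c (j + 1)) := fun j => hf2 (e j) (cc j).1 (cc j).2
  have hcR : ∀ j, hGNC_R L T (e j) (c j) (c (j + 1)) := fun j => hf3 (e j) (cc j).1 (cc j).2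
  have hle : ∀ i j, i ≤ j → Le L (c i) (c j) := by
    intro i j hij
    induction j, hij using Nat.le_induction with
    | base => exact v2 _
    | succ j _ ih => exact v3 _ _ _ ih (hc1 j)
  have hD : ∀ i j, i ≤ j → (c i).D ⊆ (c j).D := fun i j hij => (hle i j hij).D
  have hfin := hGNC_fin (fun j => (c j).D) hD
  refine ⟨c, rfl, hcQ, hle, fun k => ?_, ?_, ?_, ?_⟩
  · obtain ⟨j, -, hj⟩ := he (Sum.inl k) 0
    have h1 := hcR j
    rw [hj] at h1
    exact ⟨j + 1, h1⟩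
  · intro s hs hne
    obtain ⟨B, hB, hBs⟩ := definable_iff_finitely_definable.1 hs
    obtain ⟨x, hx, hxi⟩ := hdns (B : Set U) s B.finite_toSet hBs hne
    obtain ⟨j, -, hj⟩ := hfin (B : Set U) B.finite_toSet hB 0
    obtain ⟨j', hj', hej⟩ := he (Sum.inr (Sum.inl (B, x))) j
    have h1 := hcR j'
    rw [hej] at h1
    obtain ⟨b, hb, hbo⟩ := h1 (hj.trans (hD _ _ hj')) hxi
    exact ⟨b, o6 _ _ hBs x hx hbo, mem_iUnion.2 ⟨j' + 1, hb⟩⟩
  · intro j i hi D hDf hjD hDM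
    obtain ⟨j', hj', hDj⟩ := hfin D hDf hDM j
    refine Subset.antisymm (o3 _ _ _ hjD) ?_
    rw [← (hle j j' hj').orb i hi]
    exact o3 _ _ _ hDj
  · intro B z t hB hBM
    by_cases h : ∃ j, B ⊆ (c j).D ∧ ∃ i ∈ (c j).I, ∃ b ∈ Ge L B z t (c j).D,
      Nn L (c j).D b ((c j).w i)
    · obtain ⟨j, hj, i, hi, b, hb, hn⟩ := h
      refine Or.inr ⟨j, hj, i, hi, fun u hu => ?_⟩
      have h1 := (hGEX L U hU B (c j).D z t hj (hQV _ (hcQ j)).fin).2 b hb
      rw [h1] at hu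
      exact n2 _ _ _ _ _ hu (o1 _ _) hn
    · refine Or.inl fun D hDf hBD hDM => ?_
      obtain ⟨j, -, hj⟩ := hfin D hDf hDM 0
      obtain ⟨j', hj', hej⟩ := he (Sum.inr (Sum.inr (hB.toFinset, z, t))) j
      have h1 := hcR j'
      rw [hej] at h1
      have h2 : D ⊆ (c j').D := hj.trans (hD _ _ hj')
      have h3 : ((hB.toFinset : Finset U) : Set U) = B := hB.coe_toFinset
      unfold hGNC_R at h1
      simp only [h3] at h1
      rcases h1 (hBD.trans h2) with ⟨b, hb, hbg⟩ | ⟨i, hi, b, hb, hn⟩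
      · exact ⟨b, g2 B D (c j').D z t hBD h2 (hQV _ (hcQ j')).fin hbg,
          mem_iUnion.2 ⟨j' + 1, hb⟩⟩
      · exact absurd ⟨j', hBD.trans h2, i, hi, b, hb, hn⟩ h

end Pool.Agent.WOM
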