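import Pool.Agent.WOL.StX

/-!
WOL [hOPF] (helper16, adapted by helper8): the model with exactly the gaps of a configuration.
-/

set_option autoImplicit false

namespace Pool.Agent.WOM

open FirstOrder.Language Set
open scoped FirstOrder

theorem thm_hOPF (hGNC : St_hGNC) (hVDX : St_hVDX) : St_hOPF := by
  intro L U _ _ hW hTR c hc
  obtain ⟨hadd, hrefl, htrans⟩ := hVDX L U hW hTR
  obtain ⟨d, hd0, hQ, hLe, -, hEl, hUnc, hG⟩ := hGNC L U hW hTR
    (fun c' => Vd L c' ∧ Le L c c' ∧ c'.I = c.I) Empty (fun k _ => k.elim) c (fun c' h => h.1)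
    ⟨hc, hrefl c, rfl⟩ (fun c' b h hb => by
      obtain ⟨h1, h2, h3⟩ := h
      obtain ⟨g1, g2⟩ := hadd c' b h1 hb
      exact ⟨g1, htrans _ _ _ h2 g2, h3⟩) (fun k => k.elim)
  refine ⟨⋃ j, (d j).D, hEl, ?_, ?_, ?_⟩
  · have := subset_iUnion (fun j => (d j).D) 0
    simp only [hd0] at this
    exact this
  · intro i hi
    have := hUnc 0 i (by rw [hd0]; exact hi)
    rw [hd0] at this
    exact this
  · intro B z t hB hBM
    rcases hG B z t hB hBM with h | ⟨j, hj, i, hi, hu⟩
    · exact Or.inl h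
    · right
      obtain ⟨h1, h2, h3⟩ := hQ j
      have hi' : i ∈ c.I := by rw [← h3]; exact hi
      refine ⟨(d j).D, h1.fin, hj, h2.D, subset_iUnion (fun j => (d j).D) j, i, hi', ?_⟩
      intro u hu'
      have := hu u hu'
      rwa [h2.w i hi'] at this

end Pool.Agent.WOM
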