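import Pool.Agent.WOL.StX

/-!
WOL [hVDX]: adding elements to configurations (helper87, adapted by helper8).
-/

set_option autoImplicit false
set_option linter.unusedVariables false

namespace Pool.Agent.WOM

open FirstOrder.Language Set
open scoped FirstOrder

theorem thm_hVDX (hSDI : St_nSDI) : St_hVDX := by
  intro L U _ _ hW hTR
  refine ⟨?_, ?_, ?_⟩
  · intro c b hc hb
    have horb : ∀ i ∈ c.I, Orb L (insert b c.D) (c.w i) = Orb L c.D (c.w i) := by
      intro i hi
      exact not_not.1 (hb i hi)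
    have hfin : (insert b c.D).Finite := hc.fin.insert b
    have hsub : c.D ⊆ insert b c.D := subset_insert b c.D
    refine ⟨⟨hfin, hc.Ifin, ?_, ?_⟩, ⟨hsub, Subset.refl _, fun i _ => rfl, fun i _ => rfl, horb⟩⟩
    · intro i hi h
      exact hc.niso i hi ((((hSDI L U hW).2.2.1 c.D (insert b c.D) (c.w i) hsub hfin
        (horb i hi)).1).1 h)
    · intro i hi j hj hij
      exact hTR c.D b (c.w i) (c.w j) hc.fin (hb i hi) (hb j hj) (hc.wo i hi j hj hij)
  · intro c
    exact ⟨Subset.refl _, Subset.refl _, fun i _ => rfl, fun i _ => rfl, fun i _ => rfl⟩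
  · intro c c' c'' h h'
    refine ⟨h.D.trans h'.D, h.I.trans h'.I, ?_, ?_, ?_⟩
    · intro i hi
      rw [h'.w i (h.I hi), h.w i hi]
    · intro i hi
      rw [h'.r i (h.I hi), h.r i hi]
    · intro i hi
      have h1 := h'.orb i (h.I hi)
      rw [h.w i hi] at h1
      rw [h1, h.orb i hi]

end Pool.Agent.WOM
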